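import Mathlib

/-!
# The search behind `F_{4,3}(6) ≤ 9`

There are no ten vectors `x_0, …, x_9` in `[6]^4` such that for all `a < b` at least three of the
four coordinates of `x_a` are smaller than those of `x_b` (`no_ten`).
-/

namespace Q148.CAPath

/-- Four natural numbers. -/
structure V4 where
  a : ℕ
  b : ℕ
  c : ℕ
  d : ℕ

/-- componentwise order (Boolean) -/
def leq (x y : V4) : Bool :=
  Nat.ble x.a y.a && (Nat.ble x.b y.b && (Nat.ble x.c y.c && Nat.ble x.d y.d))

/-- maximum -/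
def mx (m n : ℕ) : ℕ := bif Nat.ble m n then n else m

/-- Insert a vector into an antichain, keeping only minimal vectors. -/
def ins (d : V4) : List V4 → List V4
  | [] => [d]
  | c :: cs => bif leq c d then c :: cs else bif leq d c then ins d cs else c :: ins d cs

/-- insert if all coordinates are at most six -/
def insB (d : V4) (l : List V4) : List V4 := bif leq d ⟨6, 6, 6, 6⟩ then ins d l else l

/-- the minimal vectors above `c` which exceed `y` in three coordinates -/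
def step1 (y c : V4) (acc : List V4) : List V4 :=
  insB ⟨c.a, mx c.b (y.b + 1), mx c.c (y.c + 1), mx c.d (y.d + 1)⟩
    (insB ⟨mx c.a (y.a + 1), c.b, mx c.c (y.c + 1), mx c.d (y.d + 1)⟩
      (insB ⟨mx c.a (y.a + 1), mx c.b (y.b + 1), c.c, mx c.d (y.d + 1)⟩
        (insB ⟨mx c.a (y.a + 1), mx c.b (y.b + 1), mx c.c (y.c + 1), c.d⟩ acc)))

/-- all of them -/
def step (y : V4) : List V4 → List V4
  | [] => []
  | c :: cs => step1 y c (step y cs)

/-- `search k cs = true`: there are no `k` vectors above the candidates `cs`, pairwise comparable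
in the given order. -/
def search : ℕ → List V4 → Bool
  | 0, _ => false
  | k + 1, cs => cs.all (fun c => search k (step c cs))

theorem search_true :
    search 8 (step ⟨2, 2, 2, 1⟩ (step ⟨1, 1, 1, 1⟩ [⟨1, 1, 1, 1⟩])) = true := by
  decide +kernel

/-! ### Soundness -/

/-- componentwise order -/
def Le (x y : V4) : Prop := x.a ≤ y.a ∧ x.b ≤ y.b ∧ x.c ≤ y.c ∧ x.d ≤ y.d

/-- smaller in at least three coordinates -/
def Lt3 (x y : V4) : Prop :=
  (x.b < y.b ∧ x.c < y.c ∧ x.d < y.d) ∨ (x.a < y.a ∧ x.c < y.c ∧ x.d < y.d) ∨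
  (x.a < y.a ∧ x.b < y.b ∧ x.d < y.d) ∨ (x.a < y.a ∧ x.b < y.b ∧ x.c < y.c)

/-- `x` is above a member of the list -/
def Cov (L : List V4) (x : V4) : Prop := ∃ c ∈ L, Le c x

lemma leq_iff (x y : V4) : leq x y = true ↔ Le x y := by
  simp [leq, Le, Nat.ble_eq]

lemma Le.trans {x y z : V4} (h1 : Le x y) (h2 : Le y z) : Le x z :=
  ⟨h1.1.trans h2.1, h1.2.1.trans h2.2.1, h1.2.2.1.trans h2.2.2.1, h1.2.2.2.trans h2.2.2.2⟩

lemma Le.lt3 {x y z : V4} (h1 : Le x y) (h2 : Lt3 y z) : Lt3 x z := by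
  obtain ⟨a, b, c, d⟩ := h1
  unfold Lt3 at *
  omega

lemma mx_le {m n k : ℕ} (h1 : m ≤ k) (h2 : n ≤ k) : mx m n ≤ k := by
  unfold mx
  cases Nat.ble m n <;> simpa

lemma cov_ins {d x : V4} {L : List V4} (h : Le d x ∨ Cov L x) : Cov (ins d L) x := by
  induction L with
  | nil =>
    rcases h with h | ⟨c, hc, _⟩
    · exact ⟨d, by simp [ins], h⟩
    · simp at hc
  | cons c cs ih =>
    unfold ins
    cases h1 : leq c d
    · cases h2 : leq d c
      · simp only [cond_false]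
        rcases h with h | ⟨e, he, hex⟩
        · obtain ⟨f, hf, hfx⟩ := ih (Or.inl h)
          exact ⟨f, by simp [hf], hfx⟩
        · rcases List.mem_cons.mp he with he | he
          · exact ⟨e, by simp [he], hex⟩
          · obtain ⟨f, hf, hfx⟩ := ih (Or.inr ⟨e, he, hex⟩)
            exact ⟨f, by simp [hf], hfx⟩
      · simp only [cond_false, cond_true]
        rcases h with h | ⟨e, he, hex⟩
        · exact ih (Or.inl h)
        · rcases List.mem_cons.mp he with he | he
          · subst he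
            exact ih (Or.inl (((leq_iff _ _).mp h2).trans hex))
          · exact ih (Or.inr ⟨e, he, hex⟩)
    · simp only [cond_true]
      rcases h with h | ⟨e, he, hex⟩
      · exact ⟨c, by simp, ((leq_iff _ _).mp h1).trans h⟩
      · exact ⟨e, he, hex⟩

lemma cov_insB {d x : V4} {L : List V4} (hx : Le x ⟨6, 6, 6, 6⟩) (h : Le d x ∨ Cov L x) :
    Cov (insB d L) x := by
  unfold insB
  cases h1 : leq d ⟨6, 6, 6, 6⟩
  · simp only [cond_false]
    rcases h with h | h
    · have := (leq_iff _ _).mpr (h.trans hx)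
      rw [h1] at this
      exact absurd this (by simp)
    · exact h
  · simp only [cond_true]
    exact cov_ins h

lemma cov_step {y x : V4} {L : List V4} (hx : Le x ⟨6, 6, 6, 6⟩) (hy : Lt3 y x) (h : Cov L x) :
    Cov (step y L) x := by
  induction L with
  | nil =>
    obtain ⟨c, hc, _⟩ := h
    simp at hc
  | cons c cs ih =>
    unfold step step1
    obtain ⟨e, he, hex⟩ := h
    rcases List.mem_cons.mp he with he | he
    · subst he
      obtain ⟨ha, hb, hc, hd⟩ := hex
      rcases hy with ⟨h1, h2, h3⟩ | ⟨h1, h2, h3⟩ | ⟨h1, h2, h3⟩ | ⟨h1, h2, h3⟩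
      · exact cov_insB hx (Or.inl ⟨ha, mx_le hb h1, mx_le hc h2, mx_le hd h3⟩)
      · exact cov_insB hx (Or.inr (cov_insB hx (Or.inl
          ⟨mx_le ha h1, hb, mx_le hc h2, mx_le hd h3⟩)))
      · exact cov_insB hx (Or.inr (cov_insB hx (Or.inr (cov_insB hx (Or.inl
          ⟨mx_le ha h1, mx_le hb h2, hc, mx_le hd h3⟩)))))
      · exact cov_insB hx (Or.inr (cov_insB hx (Or.inr (cov_insB hx (Or.inr (cov_insB hx (Or.inl
          ⟨mx_le ha h1, mx_le hb h2, mx_le hc h3, hd⟩)))))))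
    · exact cov_insB hx (Or.inr (cov_insB hx (Or.inr (cov_insB hx (Or.inr (cov_insB hx (Or.inr
        (ih ⟨e, he, hex⟩))))))))

theorem search_sound : ∀ (k : ℕ) (cs : List V4), search k cs = true →
    ∀ xs : List V4, xs.length = k → xs.Pairwise Lt3 →
      (∀ x ∈ xs, Le x ⟨6, 6, 6, 6⟩ ∧ Cov cs x) → False := by
  intro k
  induction k with
  | zero => intro cs h; simp [search] at h
  | succ k ih =>
    intro cs h xs hl hp hx
    cases xs with
    | nil => simp at hl
    | cons x xs =>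
      obtain ⟨_, c, hc, hcx⟩ := hx x (by simp)
      have h1 : search k (step c cs) = true := by
        unfold search at h
        exact List.all_eq_true.mp h c hc
      rw [List.pairwise_cons] at hp
      refine ih _ h1 xs (by simpa using hl) hp.2 (fun z hz => ?_)
      have h2 := hx z (by simp [hz])
      exact ⟨h2.1, cov_step h2.1 (hcx.lt3 (hp.1 z hz)) h2.2⟩

/-- the vector of a function -/
def ofFun (f : Fin 4 → ℕ) : V4 := ⟨f 0, f 1, f 2, f 3⟩

lemma lt3_ofFun {f g : Fin 4 → ℕ} (h : ∃ j, ∀ i, i ≠ j → f i < g i) :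
    Lt3 (ofFun f) (ofFun g) := by
  obtain ⟨j, hj⟩ := h
  unfold Lt3 ofFun
  fin_cases j
  · exact Or.inl ⟨hj 1 (by decide), hj 2 (by decide), hj 3 (by decide)⟩
  · exact Or.inr (Or.inl ⟨hj 0 (by decide), hj 2 (by decide), hj 3 (by decide)⟩)
  · exact Or.inr (Or.inr (Or.inl ⟨hj 0 (by decide), hj 1 (by decide), hj 3 (by decide)⟩))
  · exact Or.inr (Or.inr (Or.inr ⟨hj 0 (by decide), hj 1 (by decide), hj 2 (by decide)⟩))

/-- **`F_{4,3}(6) ≤ 9`.** -/
theorem no_ten (x : ℕ → Fin 4 → ℕ) (h1 : ∀ v, v < 10 → ∀ i, 1 ≤ x v i ∧ x v i ≤ 6)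
    (h2 : ∀ a b, a < b → b < 10 → ∃ j, ∀ i, i ≠ j → x a i < x b i) : False := by
  obtain ⟨j0, hj0⟩ := h2 0 1 (by norm_num) (by norm_num)
  set σ : Equiv.Perm (Fin 4) := Equiv.swap j0 3 with hσ
  set y : ℕ → Fin 4 → ℕ := fun v i => x v (σ i) with hy
  have hy1 : ∀ v, v < 10 → ∀ i, 1 ≤ y v i ∧ y v i ≤ 6 := fun v hv i => h1 v hv (σ i)
  have hy2 : ∀ a b, a < b → b < 10 → ∃ j, ∀ i, i ≠ j → y a i < y b i := by
    intro a b hab hb
    obtain ⟨j, hj⟩ := h2 a b hab hb
    refine ⟨σ.symm j, fun i hi => hj (σ i) ?_⟩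
    intro h
    exact hi (by rw [← h]; simp)
  have h01 : ∀ i : Fin 4, i ≠ 3 → y 0 i < y 1 i := by
    intro i hi
    refine hj0 (σ i) ?_
    intro h
    have h' : σ i = σ 3 := by
      rw [h, hσ, Equiv.swap_apply_right]
    exact hi (σ.injective h')
  have hle : ∀ v, v < 10 → Le (ofFun (y v)) ⟨6, 6, 6, 6⟩ := fun v hv =>
    ⟨(hy1 v hv 0).2, (hy1 v hv 1).2, (hy1 v hv 2).2, (hy1 v hv 3).2⟩
  have hge : ∀ v, v < 10 → Le ⟨1, 1, 1, 1⟩ (ofFun (y v)) := fun v hv =>
    ⟨(hy1 v hv 0).1, (hy1 v hv 1).1, (hy1 v hv 2).1, (hy1 v hv 3).1⟩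
  have hlt : ∀ a b, a < b → b < 10 → Lt3 (ofFun (y a)) (ofFun (y b)) := fun a b hab hb =>
    lt3_ofFun (hy2 a b hab hb)
  have h21 : Le ⟨2, 2, 2, 1⟩ (ofFun (y 1)) := by
    have e0 := h01 0 (by decide)
    have e1 := h01 1 (by decide)
    have e2 := h01 2 (by decide)
    have f0 := (hy1 0 (by norm_num) 0).1
    have f1 := (hy1 0 (by norm_num) 1).1
    have f2 := (hy1 0 (by norm_num) 2).1
    have f3 := (hy1 1 (by norm_num) 3).1
    exact ⟨by simp only [ofFun]; omega, by simp only [ofFun]; omega,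
      by simp only [ofFun]; omega, f3⟩
  have hcov : ∀ v, 2 ≤ v → v < 10 →
      Cov (step ⟨2, 2, 2, 1⟩ (step ⟨1, 1, 1, 1⟩ [⟨1, 1, 1, 1⟩])) (ofFun (y v)) := by
    intro v hv hv'
    refine cov_step (hle v hv') (h21.lt3 (hlt 1 v (by omega) hv')) ?_
    refine cov_step (hle v hv') ((hge 0 (by norm_num)).lt3 (hlt 0 v (by omega) hv')) ?_
    exact ⟨_, by simp, hge v hv'⟩
  refine search_sound 8 _ search_true ((List.range 8).map (fun i => ofFun (y (i + 2)))) (by simp)
    ?_ ?_
  · rw [List.pairwise_map]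
    refine List.Pairwise.imp_of_mem ?_ List.pairwise_lt_range
    intro a b _ hb hab
    rw [List.mem_range] at hb
    exact hlt (a + 2) (b + 2) (by omega) (by omega)
  · intro z hz
    rw [List.mem_map] at hz
    obtain ⟨i, hi, rfl⟩ := hz
    rw [List.mem_range] at hi
    exact ⟨hle _ (by omega), hcov _ (by omega) (by omega)⟩

end Q148.CAPath
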