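import Mathlib

/-!
The abstract simplicial 2-complex `𝒞` on ten vertices, numbered
`A₀ = 0, A₁ = 1, B₁ = 2, B₂ = 3, B₃ = 4, B₄ = 5, C = 6, D₁ = 7, D₂ = 8, D₃ = 9`.
-/

namespace Q148.Cairns

/-- The maximal simplices of `𝒞`: the 25 triangles and the four further edges. -/
def maximal : List (Finset (Fin 10)) :=
  [{0, 2, 3}, {0, 3, 4}, {0, 4, 2}, {1, 2, 3}, {1, 3, 5}, {1, 5, 4}, {1, 4, 2}, {6, 3, 4},
    {6, 4, 5}, {6, 5, 3},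
    {6, 0, 2}, {6, 0, 3}, {6, 0, 4}, {6, 1, 2}, {6, 1, 3}, {6, 1, 4}, {6, 1, 5}, {6, 2, 3},
    {6, 2, 4},
    {7, 8, 4}, {8, 9, 2}, {9, 7, 3}, {2, 3, 9}, {3, 4, 7}, {4, 2, 8},
    {0, 1}, {6, 7}, {6, 8}, {6, 9}]

/-- The simplices of `𝒞`: the nonempty subsets of the maximal ones. -/
def simplices : Set (Finset (Fin 10)) := {s | s.Nonempty ∧ ∃ t ∈ maximal, s ⊆ t}

end Q148.Cairns
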