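import Pool.Agent.Q148.CairnsGen
import Pool.Agent.Q148.CairnsDefs

open Finset

namespace Q148.Cairns

/-- integer coordinates of the ten vertices -/
def P : Fin 10 → Fin 4 → ℤ :=
  ![![3, 0, 0, -3], ![-1, -3, 3, 1], ![-1, 0, 3, 0], ![-2, -2, -3, 0], ![0, 1, 0, -3], ![-2, 1, 3, -2], ![1, -3, 0, -3], ![2, 3, 1, 0], ![0, 1, 2, 1], ![3, -1, 3, -2]]

/-- the separating affine functionals, row by row -/
def rows : List (List (ℤ × ℤ × ℤ × ℤ × ℤ)) :=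
  [[(0, 0, 0, 0, 0),
     (-3, 15, -6, -1, -6),
     (0, 4, 27, -27, 81),
     (8, -58, 18, 15, 46),
     (-11, -13, 6, -2, 30),
     (-4, -5, 3, -9, 16),
     (-2, -2, 3, -5, 11),
     (-5, 1, -12, -18, 44),
     (-2, -1, 0, -3, 7),
     (-9, 1, -6, -17, 34),
     (0, -7, 27, -27, 81),
     (17, -23, -12, 1, 48),
     (-4, -2, 0, -11, 21),
     (15, -14, 12, 11, 21),
     (7, -21, 0, 9, 28),
     (-4, -5, 3, -9, 16),
     (0, -3, 3, -3, 11),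
     (8, -31, 9, 3, 19),
     (-4, 0, 3, -6, 13),
     (0, 3, 0, 0, 2),
     (9, 4, 6, 11, 9),
     (28, -8, -10, 35, -10),
     (12, -51, 15, 11, 33),
     (-3, 19, -16, -6, 16),
     (-2, 3, 0, 0, 2),
     (9, -4, 3, 4, 15),
     (17, -12, 2, 18, -2),
     (9, -9, 3, 9, 4),
     (2, -8, 3, 0, 9)],
   [(3, -15, 6, 1, 6),
     (0, 0, 0, 0, 0),
     (3, 9, 3, 2, 3),
     (-35, 3, 18, 3, 10),
     (-35, 3, 18, 3, 10),
     (-2, 3, 6, 1, 0),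
     (-2, 3, 6, 1, 0),
     (-3, -3, 4, -1, 0),
     (-3, -2, 4, -1, 1),
     (-7, -11, 12, -3, 0),
     (0, -5, 6, 0, 0),
     (13, -34, 3, 2, 33),
     (-2, -6, 24, -13, 33),
     (0, -1, 3, 0, 1),
     (-7, -11, 12, -3, 0),
     (-7, -2, 18, -1, 1),
     (0, -1, 3, 0, 1),
     (-7, -11, 12, -3, 0),
     (-3, -2, 4, -1, 1),
     (-3, 10, 0, 3, 1),
     (-1, 1, 6, 4, 2),
     (-15, 3, 18, 13, -30),
     (-17, -7, 18, 3, -6),
     (-87, 63, 10, 15, 18),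
     (-3, 10, 0, 3, 1),
     (3, -1, 6, 2, 3),
     (0, -3, 14, 3, -5),
     (0, -1, 3, 0, 1),
     (0, -1, 3, 0, 1)],
   [(0, -4, -27, 27, -81),
     (-3, -9, -3, -2, -3),
     (0, 0, 0, 0, 0),
     (-31, 0, -9, 3, 4),
     (-9, -4, -3, -2, 4),
     (-6, -2, -3, -1, 1),
     (-28, -14, -9, -5, 1),
     (-4, -10, -6, -3, -1),
     (-8, -5, -3, -2, 1),
     (-10, -6, -3, -4, 7),
     (0, -1, 0, 0, 0),
     (4, -3, -6, 2, 6),
     (-7, -21, -9, -8, 3),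
     (-10, -7, -3, 0, 1),
     (-1, -6, -3, 1, 1),
     (-5, -6, -3, -2, 0),
     (-9, -4, -3, -2, 4),
     (-10, -7, -3, 0, 1),
     (-17, -28, -6, -9, -1),
     (-2, 11, -3, 3, 2),
     (8, 1, 3, 8, 1),
     (8, -5, -1, 13, -8),
     (10, -25, 6, 20, 8),
     (-4, 6, -10, 3, -3),
     (-25, 25, -7, 7, 4),
     (1, -3, 0, 1, 0),
     (1, -3, -4, 6, -12),
     (2, -7, -2, 8, -6),
     (2, -7, 0, 4, 4)],
   [(-8, 58, -18, -15, -46),
     (35, -3, -18, -3, -10),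
     (31, 0, 9, -3, -4),
     (0, 0, 0, 0, 0),
     (-43, -17, 12, -46, 84),
     (9, -4, 3, -11, 1),
     (29, -6, 9, -18, -2),
     (24, 2, -18, -1, 2),
     (3, 3, 0, -6, 1),
     (-4, 14, -6, -19, -2),
     (11, 0, 3, -4, -2),
     (24, 2, -18, -1, 2),
     (4, 2, 0, -4, 1),
     (28, 2, 9, 6, -1),
     (403, -247, -108, -2, 12),
     (5, -2, 0, -2, -1),
     (6, -4, 3, -10, 5),
     (8, 14, -6, -17, -26),
     (11, 0, 3, -4, -2),
     (3, 5, 0, -1, 2),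
     (40, 2, 12, -3, -4),
     (24, 2, -18, -1, 2),
     (24, 6, -6, -13, -42),
     (24, 2, -18, -1, 2),
     (0, 3, 0, -1, 0),
     (10, -3, 0, 1, 0),
     (4, 2, 0, -4, 1),
     (8, 4, 1, -2, -2),
     (4, 2, 0, -4, 1)],
   [(11, 13, -6, 2, -30),
     (35, -3, -18, -3, -10),
     (9, 4, 3, 2, -4),
     (43, 17, -12, 46, -84),
     (0, 0, 0, 0, 0),
     (634, 148, 357, -14, -21),
     (22, 2, 9, 0, -1),
     (24, 2, -18, -1, 2),
     (5, 2, 0, -3, -2),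
     (15, -8, -4, -24, -2),
     (8, 1, 3, -1, -1),
     (24, 2, -18, -1, 2),
     (6, 1, -3, -2, 2),
     (22, 2, 9, 0, -1),
     (761, -461, -204, 2, 12),
     (37, -3, 9, -1, -2),
     (634, 148, 357, -14, -21),
     (20, 14, -6, 7, -50),
     (8, 2, 3, -1, -2),
     (3, 5, 0, -1, 2),
     (4, 3, 3, 3, 1),
     (24, 2, -18, -1, 2),
     (18, 24, -6, 19, -66),
     (24, 2, -18, -1, 2),
     (6, 3, 3, 1, -1),
     (42, -4, 9, 2, -1),
     (6, 1, -3, -2, 2),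
     (9, 0, 0, 0, -1),
     (6, 1, -3, -2, 2)],
   [(4, 5, -3, 9, -16),
     (2, -3, -6, -1, 0),
     (6, 2, 3, 1, -1),
     (-9, 4, -3, 11, -1),
     (-634, -148, -357, 14, 21),
     (0, 0, 0, 0, 0),
     (24, 7, 12, 4, -5),
     (1, -5, -9, -2, 1),
     (-68, -31, -39, -19, 26),
     (-15, -6, -6, -8, 22),
     (15, 1, 6, 1, 2),
     (5, -2, -6, 2, 1),
     (9, -4, -6, -2, 2),
     (27, 2, 9, 4, -2),
     (10, -12, -9, -1, -2),
     (177, -59, 3, -17, -8),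
     (-48, -33, -21, -28, 56),
     (59, 14, -15, 40, -105),
     (19, 4, 6, 3, -5),
     (1, 28, -3, 8, 4),
     (5, 7, 3, 4, 1),
     (5, -2, -2, 1, -2),
     (5, 3, -3, 7, -15),
     (-1, 7, -6, 2, 1),
     (9, 13, 3, 6, -5),
     (5, -1, 0, 3, 1),
     (6, 0, -5, 1, 2),
     (6, 1, -1, 1, -1),
     (7, -4, -3, -1, 2)],
   [(2, 2, -3, 5, -11),
     (2, -3, -6, -1, 0),
     (28, 14, 9, 5, -1),
     (-29, 6, -9, 18, 2),
     (-22, -2, -9, 0, 1),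
     (-24, -7, -12, -4, 5),
     (0, 0, 0, 0, 0),
     (1, -5, -9, -2, 1),
     (-2, -1, 0, -3, 8),
     (-10, -5, -3, -6, 14),
     (29, 1, 9, 2, -2),
     (5, -2, -6, 2, 1),
     (9, -4, -6, -2, 2),
     (47, 4, 15, 12, -2),
     (5, -8, -6, -2, -1),
     (76, -27, 0, -8, -3),
     (-39, -11, -15, -9, 18),
     (59, 14, -15, 40, -104),
     (46, 11, 15, 4, -1),
     (1, 28, -3, 8, 4),
     (38, 3, 12, 2, -2),
     (5, -2, -2, 1, -2),
     (7, 5, -3, 9, -16),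
     (-1, 7, -6, 2, 1),
     (-3, 27, 0, 8, 3),
     (10, -3, 0, 1, 0),
     (6, 0, -5, 1, 2),
     (6, 1, -1, 1, -1),
     (7, -4, -3, -1, 2)],
   [(5, -1, 12, 18, -44),
     (3, 3, -4, 1, 0),
     (4, 10, 6, 3, 1),
     (-24, -2, 18, 1, -2),
     (-24, -2, 18, 1, -2),
     (-1, 5, 9, 2, -1),
     (-1, 5, 9, 2, -1),
     (0, 0, 0, 0, 0),
     (-20, -5, 21, -2, 1),
     (-193, -63, 168, -4, 8),
     (12, 1, 9, 3, 0),
     (21, 3, -16, 4, 0),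
     (404, 101, 3, 30, 11),
     (-7, -4, 9, 2, -1),
     (7, -87, 24, 60, 88),
     (-8, -2, 15, 0, -2),
     (-7, -4, 9, 2, -1),
     (-73, -39, 72, 12, 8),
     (-4, -1, 7, 0, -1),
     (2, 21, 3, 6, 3),
     (2, 1, 3, 3, 2),
     (3, 2, -1, 5, -7),
     (-11, -5, 12, 4, -4),
     (-87, 67, 6, 15, 22),
     (2, 21, 3, 6, 3),
     (5, 0, 3, 3, 2),
     (45, 8, 3, 6, 3),
     (45, 8, 3, 6, 3),
     (45, 8, 3, 6, 3)],
   [(2, 1, 0, 3, -7),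
     (3, 2, -4, 1, -1),
     (8, 5, 3, 2, -1),
     (-3, -3, 0, 6, -1),
     (-5, -2, 0, 3, 2),
     (68, 31, 39, 19, -26),
     (2, 1, 0, 3, -8),
     (20, 5, -21, 2, -1),
     (0, 0, 0, 0, 0),
     (-266, -217, -15, 115, 40),
     (11, -3, 6, 7, -1),
     (11, -5, -6, 8, 2),
     (308, 77, -3, 23, 8),
     (-3, -8, 3, 7, 0),
     (-3, -8, 3, 7, 0),
     (28, 7, 12, 13, -32),
     (-266, -217, -15, 115, 40),
     (-13, -13, 0, 10, -4),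
     (44, 11, 15, 6, -7),
     (3, 34, -6, 10, 4),
     (0, -2, 3, 5, 0),
     (3, -1, -1, 4, -3),
     (1, -5, 3, 8, -7),
     (-4, 11, -15, 4, -1),
     (7, 3, 3, 3, -6),
     (6, 1, 3, 4, 0),
     (7, -1, 0, 3, 1),
     (7, -1, 0, 3, 1),
     (7, -1, 0, 3, 1)],
   [(9, -1, 6, 17, -34),
     (7, 11, -12, 3, 0),
     (10, 6, 3, 4, -7),
     (4, -14, 6, 19, 2),
     (-15, 8, 4, 24, 2),
     (15, 6, 6, 8, -22),
     (10, 5, 3, 6, -14),
     (193, 63, -168, 4, -8),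
     (266, 217, 15, -115, -40),
     (0, 0, 0, 0, 0),
     (29, 3, 12, 7, -1),
     (393, 39, -312, 68, 72),
     (31, 10, 3, 0, 1),
     (9, -5, 9, 8, 0),
     (43, -123, 24, 108, 88),
     (22, 6, 9, 5, -11),
     (292, 79, 180, 20, -5),
     (-17, -159, 120, 156, -8),
     (30, 8, 12, 3, -3),
     (5, 7, -1, -1, 0),
     (3, 1, 3, 2, 1),
     (21, 5, -12, 15, -16),
     (4, -4, 6, 23, -18),
     (10, 8, -12, -1, 0),
     (9, 6, 3, 3, -4),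
     (5, 1, 3, 3, 1),
     (45, 8, 3, 6, 3),
     (45, 8, 3, 6, 3),
     (45, 8, 3, 6, 3)],
   [(0, 7, -27, 27, -81),
     (0, 5, -6, 0, 0),
     (0, 1, 0, 0, 0),
     (-11, 0, -3, 4, 2),
     (-8, -1, -3, 1, 1),
     (-15, -1, -6, -1, -2),
     (-29, -1, -9, -2, 2),
     (-12, -1, -9, -3, 0),
     (-11, 3, -6, -7, 1),
     (-29, -3, -12, -7, 1),
     (0, 0, 0, 0, 0),
     (6, -4, -6, 3, 9),
     (-6, 4, -4, -21, 45),
     (-21, -12, -3, 1, 12),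
     (-13, -6, -6, 1, 2),
     (-26, -6, -9, -3, 1),
     (-21, -8, -9, 0, 3),
     (-21, -12, -3, 1, 12),
     (-27, -6, -7, -5, 6),
     (-3, 5, -2, 0, 0),
     (8, 1, 3, 8, 1),
     (8, -5, -1, 13, -8),
     (8, -23, 6, 24, 10),
     (-3, 5, -2, 0, 0),
     (-1, 6, -1, 1, -2),
     (6, -3, 0, 4, 6),
     (8, -6, -14, 15, -19),
     (2, -5, -1, 7, -4),
     (3, -4, 0, 4, 3)],
   [(-17, 23, 12, -1, -48),
     (-13, 34, -3, -2, -33),
     (-4, 3, 6, -2, -6),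
     (-24, -2, 18, 1, -2),
     (-24, -2, 18, 1, -2),
     (-5, 2, 6, -2, -1),
     (-5, 2, 6, -2, -1),
     (-21, -3, 16, -4, 0),
     (-11, 5, 6, -8, -2),
     (-393, -39, 312, -68, -72),
     (-6, 4, 6, -3, -9),
     (0, 0, 0, 0, 0),
     (-15, 10, 9, -48, 99),
     (-2, -1, 3, 0, 1),
     (-245, -123, 216, 12, 88),
     (-5, -1, 4, -1, 1),
     (-2, -1, 3, 0, 1),
     (-245, -123, 216, 12, 88),
     (-5, -1, 4, -1, 1),
     (-1, 3, 3, 0, 1),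
     (-1, 1, 6, 4, 2),
     (-9, 5, 10, 5, -22),
     (-24, -2, 24, 7, -20),
     (-23, 11, 12, 0, -12),
     (-1, 3, 3, 0, 1),
     (3, -1, 6, 2, 3),
     (-13, 8, 61, 6, -55),
     (-2, -1, 3, 0, 1),
     (-2, -1, 3, 0, 1)],
   [(4, 2, 0, 11, -21),
     (2, 6, -24, 13, -33),
     (7, 21, 9, 8, -3),
     (-4, -2, 0, 4, -1),
     (-6, -1, 3, 2, -2),
     (-9, 4, 6, 2, -2),
     (-9, 4, 6, 2, -2),
     (-404, -101, -3, -30, -11),
     (-308, -77, 3, -23, -8),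
     (-31, -10, -3, 0, -1),
     (6, -4, 4, 21, -45),
     (15, -10, -9, 48, -99),
     (0, 0, 0, 0, 0),
     (-3, -1, 0, 0, 0),
     (-3, -1, 0, 0, 0),
     (-40, -10, 0, -3, -1),
     (-3, -1, 0, 0, 0),
     (-3, -1, 0, 0, 0),
     (-40, -10, 0, -3, -1),
     (-3, 10, 0, 3, 1),
     (-1, 1, 6, 5, 1),
     (0, 0, 2, 7, -9),
     (-2, -4, 3, 5, -4),
     (-8, 8, -6, 3, -1),
     (-3, 10, 0, 3, 1),
     (6, -1, 3, 5, 3),
     (4, -3, 17, 9, -14),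
     (-23, -9, 4, 2, -2),
     (7, -5, 12, 7, 1)],
   [(-15, 14, -12, -11, -21),
     (0, 1, -3, 0, -1),
     (10, 7, 3, 0, -1),
     (-28, -2, -9, -6, 1),
     (-22, -2, -9, 0, 1),
     (-27, -2, -9, -4, 2),
     (-47, -4, -15, -12, 2),
     (7, 4, -9, -2, 1),
     (3, 8, -3, -7, 0),
     (-9, 5, -9, -8, 0),
     (21, 12, 3, -1, -12),
     (2, 1, -3, 0, -1),
     (3, 1, 0, 0, 0),
     (0, 0, 0, 0, 0),
     (-75, -15, -34, -12, 6),
     (-33, -6, -14, -6, 3),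
     (-87, -12, -26, -24, 21),
     (0, 11, -5, -6, -15),
     (27, 19, 3, -4, -18),
     (1, 4, -1, 0, 0),
     (18, 8, 6, 3, 0),
     (6, 3, -5, 4, -13),
     (15, 10, -6, 24, -33),
     (1, 4, -5, -1, -1),
     (0, 3, 0, -1, 0),
     (14, 0, 3, 5, 0),
     (26, 6, -3, 2, 2),
     (31, 7, -1, 3, 1),
     (26, 6, -3, 2, 2)],
   [(-7, 21, 0, -9, -28),
     (7, 11, -12, 3, 0),
     (1, 6, 3, -1, -1),
     (-403, 247, 108, 2, -12),
     (-761, 461, 204, -2, -12),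
     (-10, 12, 9, 1, 2),
     (-5, 8, 6, 2, 1),
     (-7, 87, -24, -60, -88),
     (3, 8, -3, -7, 0),
     (-43, 123, -24, -108, -88),
     (13, 6, 6, -1, -2),
     (245, 123, -216, -12, -88),
     (3, 1, 0, 0, 0),
     (75, 15, 34, 12, -6),
     (0, 0, 0, 0, 0),
     (15, 6, 10, 0, -3),
     (-3, 9, 10, -9, -3),
     (-73, 105, 24, -84, -136),
     (-2, 6, 3, -6, -2),
     (3, 5, 0, -1, 2),
     (2, 5, 3, -1, 1),
     (8, 3, -6, 3, -4),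
     (-1, 9, 0, 1, -16),
     (9, 7, -12, -1, 4),
     (2, 5, 3, -1, 1),
     (15, 2, 6, 4, 1),
     (26, 6, -3, 2, 2),
     (31, 7, -1, 3, 1),
     (26, 6, -3, 2, 2)],
   [(4, 5, -3, 9, -16),
     (7, 2, -18, 1, -1),
     (5, 6, 3, 2, 0),
     (-5, 2, 0, 2, 1),
     (-37, 3, -9, 1, 2),
     (-177, 59, -3, 17, 8),
     (-76, 27, 0, 8, 3),
     (8, 2, -15, 0, 2),
     (-28, -7, -12, -13, 32),
     (-22, -6, -9, -5, 11),
     (26, 6, 9, 3, -1),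
     (5, 1, -4, 1, -1),
     (40, 10, 0, 3, 1),
     (33, 6, 14, 6, -3),
     (-15, -6, -10, 0, 3),
     (0, 0, 0, 0, 0),
     (-42, -15, -8, -15, 48),
     (79, 19, -21, 55, -143),
     (44, 11, 15, 4, -1),
     (1, 28, -3, 8, 4),
     (3, 8, 3, 3, 2),
     (9, 0, -4, 6, -8),
     (6, 4, -3, 9, -17),
     (-1, 7, -6, 2, 1),
     (-1, 26, 3, 8, 2),
     (5, -1, 0, 3, 1),
     (26, 6, -3, 2, 2),
     (31, 7, -1, 3, 1),
     (26, 6, -3, 2, 2)],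
   [(0, 3, -3, 3, -11),
     (0, 1, -3, 0, -1),
     (9, 4, 3, 2, -4),
     (-6, 4, -3, 10, -5),
     (-634, -148, -357, 14, 21),
     (48, 33, 21, 28, -56),
     (39, 11, 15, 9, -18),
     (7, 4, -9, -2, 1),
     (266, 217, 15, -115, -40),
     (-292, -79, -180, -20, 5),
     (21, 8, 9, 0, -3),
     (2, 1, -3, 0, -1),
     (3, 1, 0, 0, 0),
     (87, 12, 26, 24, -21),
     (3, -9, -10, 9, 3),
     (42, 15, 8, 15, -48),
     (0, 0, 0, 0, 0),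
     (18, 13, -6, 8, -45),
     (38, 11, 12, 3, -4),
     (1, 4, -1, 0, 0),
     (3, 5, 3, 5, -1),
     (6, 3, -5, 4, -13),
     (5, 4, -3, 4, -15),
     (1, 4, -5, -1, -1),
     (10, 6, 3, 3, -6),
     (8, -1, 0, 6, 1),
     (26, 6, -3, 2, 2),
     (31, 7, -1, 3, 1),
     (26, 6, -3, 2, 2)],
   [(-8, 31, -9, -3, -19),
     (7, 11, -12, 3, 0),
     (10, 7, 3, 0, -1),
     (-8, -14, 6, 17, 26),
     (-20, -14, 6, -7, 50),
     (-59, -14, 15, -40, 105),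
     (-59, -14, 15, -40, 104),
     (73, 39, -72, -12, -8),
     (13, 13, 0, -10, 4),
     (17, 159, -120, -156, 8),
     (21, 12, 3, -1, -12),
     (245, 123, -216, -12, -88),
     (3, 1, 0, 0, 0),
     (0, -11, 5, 6, 15),
     (73, -105, -24, 84, 136),
     (-79, -19, 21, -55, 143),
     (-18, -13, 6, -8, 45),
     (0, 0, 0, 0, 0),
     (54, 27, 11, -2, -21),
     (1, 3, 0, 0, 1),
     (17, 5, 6, 3, 1),
     (17, 3, -12, 6, -4),
     (40, 79, -33, 38, -139),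
     (-1, 3, -2, 0, 2),
     (8, 10, 3, 0, 1),
     (12, -1, 3, 6, 1),
     (20, 3, -3, 3, 2),
     (25, 4, -1, 4, 1),
     (20, 3, -3, 3, 2)],
   [(4, 0, -3, 6, -13),
     (3, 2, -4, 1, -1),
     (17, 28, 6, 9, 1),
     (-11, 0, -3, 4, 2),
     (-8, -2, -3, 1, 2),
     (-19, -4, -6, -3, 5),
     (-46, -11, -15, -4, 1),
     (4, 1, -7, 0, 1),
     (-44, -11, -15, -6, 7),
     (-30, -8, -12, -3, 3),
     (27, 6, 7, 5, -6),
     (5, 1, -4, 1, -1),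
     (40, 10, 0, 3, 1),
     (-27, -19, -3, 4, 18),
     (2, -6, -3, 6, 2),
     (-44, -11, -15, -4, 1),
     (-38, -11, -12, -3, 4),
     (-54, -27, -11, 2, 21),
     (0, 0, 0, 0, 0),
     (1, 13, -1, 4, 1),
     (17, 4, 6, 7, 1),
     (7, -2, -1, 8, -9),
     (8, -3, -3, 17, -17),
     (1, 1, -3, 0, 1),
     (-14, 41, -3, 12, 5),
     (5, -2, 0, 4, 1),
     (20, 3, -3, 3, 2),
     (25, 4, -1, 4, 1),
     (20, 3, -3, 3, 2)],
   [(0, -3, 0, 0, -2),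
     (3, -10, 0, -3, -1),
     (2, -11, 3, -3, -2),
     (-3, -5, 0, 1, -2),
     (-3, -5, 0, 1, -2),
     (-1, -28, 3, -8, -4),
     (-1, -28, 3, -8, -4),
     (-2, -21, -3, -6, -3),
     (-3, -34, 6, -10, -4),
     (-5, -7, 1, 1, 0),
     (3, -5, 2, 0, 0),
     (1, -3, -3, 0, -1),
     (3, -10, 0, -3, -1),
     (-1, -4, 1, 0, 0),
     (-3, -5, 0, 1, -2),
     (-1, -28, 3, -8, -4),
     (-1, -4, 1, 0, 0),
     (-1, -3, 0, 0, -1),
     (-1, -13, 1, -4, -1),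
     (0, 0, 0, 0, 0),
     (0, -4, 1, 2, 0),
     (27, -18, -10, 1, -10),
     (-2, -9, 1, 0, 1),
     (27, -13, -16, -4, -1),
     (-2, -23, 14, -7, -2),
     (5, -6, 1, 0, 0),
     (8, -4, 0, 3, 4),
     (0, -4, 1, 2, 0),
     (1, -5, -2, -1, 1)],
   [(-9, -4, -6, -11, -9),
     (1, -1, -6, -4, -2),
     (-8, -1, -3, -8, -1),
     (-40, -2, -12, 3, 4),
     (-4, -3, -3, -3, -1),
     (-5, -7, -3, -4, -1),
     (-38, -3, -12, -2, 2),
     (-2, -1, -3, -3, -2),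
     (0, 2, -3, -5, 0),
     (-3, -1, -3, -2, -1),
     (-8, -1, -3, -8, -1),
     (1, -1, -6, -4, -2),
     (1, -1, -6, -5, -1),
     (-18, -8, -6, -3, 0),
     (-2, -5, -3, 1, -1),
     (-3, -8, -3, -3, -2),
     (-3, -5, -3, -5, 1),
     (-17, -5, -6, -3, -1),
     (-17, -4, -6, -7, -1),
     (0, 4, -1, -2, 0),
     (0, 0, 0, 0, 0),
     (1, 1, -4, -4, -2),
     (-47, -190, -14, 1, 5),
     (1, 1, -3, -3, 0),
     (-47, 32, -14, 1, 5),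
     (-1, -11, -9, -4, -5),
     (1, 2, -7, -2, -1),
     (1, -3, -5, 4, -9),
     (-10, -21, -5, -15, 6)],
   [(-28, 8, 10, -35, 10),
     (15, -3, -18, -13, 30),
     (-8, 5, 1, -13, 8),
     (-24, -2, 18, 1, -2),
     (-24, -2, 18, 1, -2),
     (-5, 2, 2, -1, 2),
     (-5, 2, 2, -1, 2),
     (-3, -2, 1, -5, 7),
     (-3, 1, 1, -4, 3),
     (-21, -5, 12, -15, 16),
     (-8, 5, 1, -13, 8),
     (9, -5, -10, -5, 22),
     (0, 0, -2, -7, 9),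
     (-6, -3, 5, -4, 13),
     (-8, -3, 6, -3, 4),
     (-9, 0, 4, -6, 8),
     (-6, -3, 5, -4, 13),
     (-17, -3, 12, -6, 4),
     (-7, 2, 1, -8, 9),
     (-27, 18, 10, -1, 10),
     (-1, -1, 4, 4, 2),
     (0, 0, 0, 0, 0),
     (-149, -163, 152, 2, 168),
     (-119, 80, 19, 1, 21),
     (-6, 3, 6, -3, 5),
     (-47, 18, 21, -48, 2),
     (47, 6, -50, -31, 62),
     (-15, 1, 11, -10, 11),
     (1, -9, 2, 0, 18)],
   [(-12, 51, -15, -11, -33),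
     (17, 7, -18, -3, 6),
     (-10, 25, -6, -20, -8),
     (-24, -6, 6, 13, 42),
     (-18, -24, 6, -19, 66),
     (-5, -3, 3, -7, 15),
     (-7, -5, 3, -9, 16),
     (11, 5, -12, -4, 4),
     (-1, 5, -3, -8, 7),
     (-4, 4, -6, -23, 18),
     (-8, 23, -6, -24, -10),
     (24, 2, -24, -7, 20),
     (2, 4, -3, -5, 4),
     (-15, -10, 6, -24, 33),
     (1, -9, 0, -1, 16),
     (-6, -4, 3, -9, 17),
     (-5, -4, 3, -4, 15),
     (-40, -79, 33, -38, 139),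
     (-8, 3, 3, -17, 17),
     (2, 9, -1, 0, -1),
     (47, 190, 14, -1, -5),
     (149, 163, -152, -2, -168),
     (0, 0, 0, 0, 0),
     (11, 5, -12, -4, 4),
     (-6, 13, 0, 0, 6),
     (-75, -48, 27, -131, 167),
     (1, 4, -3, -6, 6),
     (-10, 44, -11, -41, -20),
     (7, 3, -4, -12, 30)],
   [(3, -19, 16, 6, -16),
     (87, -63, -10, -15, -18),
     (4, -6, 10, -3, 3),
     (-24, -2, 18, 1, -2),
     (-24, -2, 18, 1, -2),
     (1, -7, 6, -2, -1),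
     (1, -7, 6, -2, -1),
     (87, -67, -6, -15, -22),
     (4, -11, 15, -4, 1),
     (-10, -8, 12, 1, 0),
     (3, -5, 2, 0, 0),
     (23, -11, -12, 0, 12),
     (8, -8, 6, -3, 1),
     (-1, -4, 5, 1, 1),
     (-9, -7, 12, 1, -4),
     (1, -7, 6, -2, -1),
     (-1, -4, 5, 1, 1),
     (1, -3, 2, 0, -2),
     (-1, -1, 3, 0, -1),
     (-27, 13, 16, 4, 1),
     (-1, -1, 3, 3, 0),
     (119, -80, -19, -1, -21),
     (-11, -5, 12, 4, -4),
     (0, 0, 0, 0, 0),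
     (2, -3, 9, -3, 6),
     (3, -3, 4, 0, 4),
     (3, -2, 4, 0, 4),
     (3, -3, 5, 0, 3),
     (3, -3, 5, 0, 3)],
   [(2, -3, 0, 0, -2),
     (3, -10, 0, -3, -1),
     (25, -25, 7, -7, -4),
     (0, -3, 0, 1, 0),
     (-6, -3, -3, -1, 1),
     (-9, -13, -3, -6, 5),
     (3, -27, 0, -8, -3),
     (-2, -21, -3, -6, -3),
     (-7, -3, -3, -3, 6),
     (-9, -6, -3, -3, 4),
     (1, -6, 1, -1, 2),
     (1, -3, -3, 0, -1),
     (3, -10, 0, -3, -1),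
     (0, -3, 0, 1, 0),
     (-2, -5, -3, 1, -1),
     (1, -26, -3, -8, -2),
     (-10, -6, -3, -3, 6),
     (-8, -10, -3, 0, -1),
     (14, -41, 3, -12, -5),
     (2, 23, -14, 7, 2),
     (47, -32, 14, -1, -5),
     (6, -3, -6, 3, -5),
     (6, -13, 0, 0, -6),
     (-2, 3, -9, 3, -6),
     (0, 0, 0, 0, 0),
     (3, -7, 0, 2, 0),
     (4, -1, -2, 0, 0),
     (4, -3, -1, 4, -1),
     (5, -6, 0, 1, 1)],
   [(-9, 4, -3, -4, -15),
     (-3, 1, -6, -2, -3),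
     (-1, 3, 0, -1, 0),
     (-10, 3, 0, -1, 0),
     (-42, 4, -9, -2, 1),
     (-5, 1, 0, -3, -1),
     (-10, 3, 0, -1, 0),
     (-5, 0, -3, -3, -2),
     (-6, -1, -3, -4, 0),
     (-5, -1, -3, -3, -1),
     (-6, 3, 0, -4, -6),
     (-3, 1, -6, -2, -3),
     (-6, 1, -3, -5, -3),
     (-14, 0, -3, -5, 0),
     (-15, -2, -6, -4, -1),
     (-5, 1, 0, -3, -1),
     (-8, 1, 0, -6, -1),
     (-12, 1, -3, -6, -1),
     (-5, 2, 0, -4, -1),
     (-5, 6, -1, 0, 0),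
     (1, 11, 9, 4, 5),
     (47, -18, -21, 48, -2),
     (75, 48, -27, 131, -167),
     (-3, 3, -4, 0, -4),
     (-3, 7, 0, -2, 0),
     (0, 0, 0, 0, 0),
     (-14, 6, -5, -6, -17),
     (-12, 5, -2, -6, -10),
     (-1, -2, 3, -5, 17)],
   [(-17, 12, -2, -18, 2),
     (0, 3, -14, -3, 5),
     (-1, 3, 4, -6, 12),
     (-4, -2, 0, 4, -1),
     (-6, -1, 3, 2, -2),
     (-6, 0, 5, -1, -2),
     (-6, 0, 5, -1, -2),
     (-45, -8, -3, -6, -3),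
     (-7, 1, 0, -3, -1),
     (-45, -8, -3, -6, -3),
     (-8, 6, 14, -15, 19),
     (13, -8, -61, -6, 55),
     (-4, 3, -17, -9, 14),
     (-26, -6, 3, -2, -2),
     (-26, -6, 3, -2, -2),
     (-26, -6, 3, -2, -2),
     (-26, -6, 3, -2, -2),
     (-20, -3, 3, -3, -2),
     (-20, -3, 3, -3, -2),
     (-8, 4, 0, -3, -4),
     (-1, -2, 7, 2, 1),
     (-47, -6, 50, 31, -62),
     (-1, -4, 3, 6, -6),
     (-3, 2, -4, 0, -4),
     (-4, 1, 2, 0, 0),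
     (14, -6, 5, 6, 17),
     (0, 0, 0, 0, 0),
     (-31, -6, 5, -3, -4),
     (-28, -27, 35, 12, 17)],
   [(-9, 9, -3, -9, -4),
     (0, 1, -3, 0, -1),
     (-2, 7, 2, -8, 6),
     (-8, -4, -1, 2, 2),
     (-9, 0, 0, 0, 1),
     (-6, -1, 1, -1, 1),
     (-6, -1, 1, -1, 1),
     (-45, -8, -3, -6, -3),
     (-7, 1, 0, -3, -1),
     (-45, -8, -3, -6, -3),
     (-2, 5, 1, -7, 4),
     (2, 1, -3, 0, -1),
     (23, 9, -4, -2, 2),
     (-31, -7, 1, -3, -1),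
     (-31, -7, 1, -3, -1),
     (-31, -7, 1, -3, -1),
     (-31, -7, 1, -3, -1),
     (-25, -4, 1, -4, -1),
     (-25, -4, 1, -4, -1),
     (0, 4, -1, -2, 0),
     (-1, 3, 5, -4, 9),
     (15, -1, -11, 10, -11),
     (10, -44, 11, 41, 20),
     (-3, 3, -5, 0, -3),
     (-4, 3, 1, -4, 1),
     (12, -5, 2, 6, 10),
     (31, 6, -5, 3, 4),
     (0, 0, 0, 0, 0),
     (32, 5, -3, 4, 5)],
   [(-2, 8, -3, 0, -9),
     (0, 1, -3, 0, -1),
     (-2, 7, 0, -4, -4),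
     (-4, -2, 0, 4, -1),
     (-6, -1, 3, 2, -2),
     (-7, 4, 3, 1, -2),
     (-7, 4, 3, 1, -2),
     (-45, -8, -3, -6, -3),
     (-7, 1, 0, -3, -1),
     (-45, -8, -3, -6, -3),
     (-3, 4, 0, -4, -3),
     (2, 1, -3, 0, -1),
     (-7, 5, -12, -7, -1),
     (-26, -6, 3, -2, -2),
     (-26, -6, 3, -2, -2),
     (-26, -6, 3, -2, -2),
     (-26, -6, 3, -2, -2),
     (-20, -3, 3, -3, -2),
     (-20, -3, 3, -3, -2),
     (-1, 5, 2, 1, -1),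
     (10, 21, 5, 15, -6),
     (-1, 9, -2, 0, -18),
     (-7, -3, 4, 12, -30),
     (-3, 3, -5, 0, -3),
     (-5, 6, 0, -1, -1),
     (1, 2, -3, 5, -17),
     (28, 27, -35, -12, -17),
     (-32, -5, 3, -4, -5),
     (0, 0, 0, 0, 0)]]

/-- for each facet, the functionals isolating its vertices -/
def affs : List (List (ℤ × ℤ × ℤ × ℤ × ℤ)) :=
  [[(124, -170, 36, -3, -16), (-17, 23, 12, -1, -48), (-108, -2, -117, -27, -243)],
   [(48, -29, -9, -6, -11), (-19, -57, -3, -8, -33), (-13, 34, -3, -2, -33)],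
   [(31, -13, 9, -3, -4), (-5, -15, 3, -1, -12), (-54, 1, -45, -27, -81)],
   [(168, -246, 54, 1, -6), (-403, 247, 108, 2, -12), (-28, -2, -9, -6, 1)],
   [(20, -70, 34, -3, -2), (-634, -148, -357, 14, 21), (-761, 461, 204, -2, -12)],
   [(-4, -53, 3, -17, -2), (153, -51, 21, -119, -56), (-177, 59, -3, 17, 8)],
   [(3, -27, 0, -8, -3), (-76, 27, 0, 8, 3), (1, -8, 0, -24, -1)],
   [(-404, -101, -3, -30, -11), (-7, 87, -24, -60, -88), (87, -67, -6, -15, -22)],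
   [(266, 217, 15, -115, -40), (-308, -77, 3, -23, -8), (-7, -71, 3, -23, -2)],
   [(-693, -416, -195, 170, 45), (-393, -39, 312, -68, -72), (50, -86, 26, -51, -6)],
   [(21, 12, 3, -1, -12), (-15, 10, 1, -3, -36), (-12, -1, -10, -6, -18)],
   [(245, 123, -216, -12, -88), (-39, 26, -3, -6, -99), (23, -83, 18, 1, 66)],
   [(40, 10, 0, 3, 1), (-6, 4, 0, -3, -9), (-2, -6, 0, -1, -3)],
   [(-27, -19, -3, 4, 18), (-9, 4, 2, -6, -3), (11, -12, 3, -36, -2)],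
   [(-175, -81, 168, 20, 8), (-102, -3, -28, -30, -3), (321, -193, -84, -10, -4)],
   [(-272, -68, 3, -20, -8), (-57, 15, 2, -30, -12), (201, -68, 3, -20, -8)],
   [(-401, -337, -15, 190, 40), (-111, 24, 2, -57, -12), (258, -135, 21, -266, -56)],
   [(-299, -69, 264, -12, -56), (-54, -27, -11, 2, 21), (212, -304, 66, -3, -14)],
   [(-164, -41, 3, -12, -5), (18, 15, 1, -4, -15), (14, -41, 3, -12, -5)],
   [(-11, 8, -2, -4, 0), (2, 23, -14, 7, 2), (-19, 12, 2, 4, 0)],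
   [(-27, -32, 14, -1, -5), (47, 190, 14, -1, -5), (47, -32, 14, -1, -5)],
   [(82, -62, -209, -44, -231), (149, 163, -152, -2, -168), (119, -80, -19, -1, -21)],
   [(-307, -53, 264, -2, -72), (-108, -440, -33, 4, 9), (108, -153, 33, -1, -9)],
   [(-49, 35, -8, 12, -1), (-38, 24, 8, -3, 4), (9, 5, -8, 3, -4)],
   [(-1, -19, 12, -6, -1), (-3, 4, -1, -2, 0), (3, 6, 1, 2, 0)],
   [(58, -9, 9, 0, -4), (-4, -3, 3, 0, -12)],
   [(27, -18, -2, -3, -2), (46, 9, 1, 6, 1)],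
   [(1, -16, 6, 0, -4), (5, 1, 2, 1, -1)],
   [(-23, -24, -1, -21, -6), (47, 8, 3, 7, 2)]]

/-- value of an affine functional at a vertex -/
def dot (v : ℤ × ℤ × ℤ × ℤ × ℤ) (z : Fin 10) : ℤ :=
  v.1 * P z 0 + v.2.1 * P z 1 + v.2.2.1 * P z 2 + v.2.2.2.1 * P z 3 - v.2.2.2.2

def okSep (σ τ : Finset (Fin 10)) (v : ℤ × ℤ × ℤ × ℤ × ℤ) : Prop :=
  (∀ z ∈ σ, z ∉ τ → dot v z < 0) ∧ (∀ z ∈ τ, z ∉ σ → 0 < dot v z) ∧
    (∀ z ∈ σ, z ∈ τ → dot v z = 0)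

instance (σ τ : Finset (Fin 10)) (v : ℤ × ℤ × ℤ × ℤ × ℤ) : Decidable (okSep σ τ v) := by
  unfold okSep; infer_instance

def okInd (σ : Finset (Fin 10)) (L : List (ℤ × ℤ × ℤ × ℤ × ℤ)) : Prop :=
  ∀ z ∈ σ, ∃ v ∈ L, dot v z ≠ 0 ∧ ∀ y ∈ σ, y ≠ z → dot v y = 0

instance (σ : Finset (Fin 10)) (L : List (ℤ × ℤ × ℤ × ℤ × ℤ)) : Decidable (okInd σ L) := by
  unfold okInd; infer_instance

theorem check_len : rows.length = 29 ∧ affs.length = 29 ∧ maximal.length = 29 := by decide +kernel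

theorem check_len' : ∀ r ∈ rows, r.length = 29 := by decide +kernel

theorem check_sep : ∀ x ∈ maximal.zip rows, ∀ y ∈ maximal.zip x.2, x.1 ≠ y.1 → okSep x.1 y.1 y.2 := by
  decide +kernel

theorem check_ind : ∀ x ∈ maximal.zip affs, okInd x.1 x.2 := by
  decide +kernel

theorem P_inj : ∀ a b : Fin 10, P a = P b → a = b := by decide +kernel

end Q148.Cairns
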