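import Mathlib

open Finset

namespace Q148.Cairns

variable {n m : ℕ}

/-- independence of the points of a face, in terms of weights -/
def Indep (p : Fin n ↪ (Fin m → ℝ)) (σ : Finset (Fin n)) : Prop :=
  ∀ d : Fin n → ℝ, (∀ v, v ∉ σ → d v = 0) → ∑ v, d v = 0 → ∑ v, d v • p v = 0 → ∀ v, d v = 0

/-- separation of two faces along their common part -/
def Sep (p : Fin n ↪ (Fin m → ℝ)) (σ τ : Finset (Fin n)) : Prop :=
  ∃ (a : Fin m → ℝ) (c : ℝ), (∀ v ∈ σ, v ∉ τ → ∑ i, a i * p v i < c) ∧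
    (∀ v ∈ τ, v ∉ σ → c < ∑ i, a i * p v i) ∧ (∀ v ∈ σ, v ∈ τ → ∑ i, a i * p v i = c)

theorem weights {p : Fin n ↪ (Fin m → ℝ)} {s : Finset (Fin n)} {x : Fin m → ℝ}
    (hx : x ∈ convexHull ℝ ((s.map p : Finset (Fin m → ℝ)) : Set (Fin m → ℝ))) :
    ∃ w : Fin n → ℝ, (∀ v, 0 ≤ w v) ∧ (∀ v, v ∉ s → w v = 0) ∧ ∑ v, w v = 1 ∧
      ∑ v, w v • p v = x := by
  classical
  rw [Finset.mem_convexHull'] at hx
  obtain ⟨w, h0, h1, h2⟩ := hx
  rw [sum_map] at h1 h2
  refine ⟨fun v => if v ∈ s then w (p v) else 0, ?_, ?_, ?_, ?_⟩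
  · intro v
    dsimp only
    split_ifs with h
    · exact h0 _ (mem_map_of_mem p h)
    · exact le_rfl
  · intro v h
    simp [h]
  · rw [← h1, sum_ite_mem, univ_inter]
  · simp only [ite_smul, zero_smul]
    rw [sum_ite_mem, univ_inter, h2]

theorem mem_hull {p : Fin n ↪ (Fin m → ℝ)} {s : Finset (Fin n)} {w : Fin n → ℝ}
    (h0 : ∀ v, 0 ≤ w v) (hs : ∀ v, v ∉ s → w v = 0) (h1 : ∑ v, w v = 1) :
    ∑ v, w v • p v ∈ convexHull ℝ ((s.map p : Finset (Fin m → ℝ)) : Set (Fin m → ℝ)) := by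
  classical
  have e1 : ∑ v ∈ s, w v = 1 := by
    rw [← h1]
    exact sum_subset (subset_univ s) (fun v _ hv => hs v hv)
  have e2 : ∑ v ∈ s, w v • p v = ∑ v, w v • p v :=
    sum_subset (subset_univ s) (fun v _ hv => by rw [hs v hv, zero_smul])
  rw [← e2]
  apply (convex_convexHull ℝ _).sum_mem (fun v _ => h0 v) e1
  intro v hv
  exact subset_convexHull ℝ _ (by simpa using hv)

theorem apply_functional {p : Fin n ↪ (Fin m → ℝ)} (w : Fin n → ℝ) (a : Fin m → ℝ) :
    ∑ i, a i * (∑ v, w v • p v) i = ∑ v, w v * ∑ i, a i * p v i := by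
  simp only [Finset.sum_apply, Pi.smul_apply, smul_eq_mul, mul_sum]
  rw [sum_comm]
  apply sum_congr rfl
  intro v _
  apply sum_congr rfl
  intro i _
  ring

theorem inter {p : Fin n ↪ (Fin m → ℝ)} {F : List (Finset (Fin n))}
    (hI : ∀ σ ∈ F, Indep p σ) (hS : ∀ σ ∈ F, ∀ τ ∈ F, σ ≠ τ → Sep p σ τ)
    {s t σ τ : Finset (Fin n)} (hσ : σ ∈ F) (hτ : τ ∈ F) (hs : s ⊆ σ) (ht : t ⊆ τ) :
    convexHull ℝ ((s.map p : Finset (Fin m → ℝ)) : Set (Fin m → ℝ)) ∩
      convexHull ℝ ((t.map p : Finset (Fin m → ℝ)) : Set (Fin m → ℝ)) ⊆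
    convexHull ℝ (((s.map p : Finset (Fin m → ℝ)) : Set (Fin m → ℝ)) ∩
      ((t.map p : Finset (Fin m → ℝ)) : Set (Fin m → ℝ))) := by
  classical
  rintro x ⟨hx1, hx2⟩
  obtain ⟨w, w0, ws, w1, wx⟩ := weights hx1
  obtain ⟨u, u0, us, u1, ux⟩ := weights hx2
  have hset : ((s.map p : Finset (Fin m → ℝ)) : Set (Fin m → ℝ)) ∩
      ((t.map p : Finset (Fin m → ℝ)) : Set (Fin m → ℝ)) =
      (((s ∩ t).map p : Finset (Fin m → ℝ)) : Set (Fin m → ℝ)) := by
    rw [map_inter, coe_inter]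
  rw [hset]
  have key : ∀ v, v ∉ s ∩ t → w v = 0 := by
    have main : ∀ v, v ∉ σ → w v - u v = 0 := by
      by_cases hne : σ = τ
      · intro v hv
        rw [ws v (fun h => hv (hs h)), us v (fun h => hv (hne ▸ ht h)), sub_zero]
      · obtain ⟨a, c, h1, h2, h3⟩ := hS σ hσ τ hτ hne
        have fx : ∑ v, w v * (∑ i, a i * p v i - c) = ∑ v, u v * (∑ i, a i * p v i - c) := by
          simp only [mul_sub, sum_sub_distrib]
          rw [← apply_functional, ← apply_functional, wx, ux, ← sum_mul, ← sum_mul, w1, u1]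
        have nw : ∀ v, w v * (∑ i, a i * p v i - c) ≤ 0 := by
          intro v
          by_cases hv : v ∈ s
          · by_cases hv' : v ∈ τ
            · rw [h3 v (hs hv) hv', sub_self, mul_zero]
            · exact mul_nonpos_of_nonneg_of_nonpos (w0 v) (by have := h1 v (hs hv) hv'; linarith)
          · rw [ws v hv, zero_mul]
        have nu : ∀ v, 0 ≤ u v * (∑ i, a i * p v i - c) := by
          intro v
          by_cases hv : v ∈ t
          · by_cases hv' : v ∈ σ
            · rw [h3 v hv' (ht hv), sub_self, mul_zero]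
            · exact mul_nonneg (u0 v) (by have := h2 v (ht hv) hv'; linarith)
          · rw [us v hv, zero_mul]
        have su : ∑ v, u v * (∑ i, a i * p v i - c) = 0 := by
          apply le_antisymm
          · rw [← fx]; exact sum_nonpos (fun v _ => nw v)
          · exact sum_nonneg (fun v _ => nu v)
        have zu := (sum_eq_zero_iff_of_nonneg (fun v _ => nu v)).1 su
        intro v hv
        rw [ws v (fun h => hv (hs h)), zero_sub, neg_eq_zero]
        by_cases hvt : v ∈ t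
        · rcases mul_eq_zero.1 (zu v (mem_univ v)) with h | h
          · exact h
          · have := h2 v (ht hvt) hv
            linarith
        · exact us v hvt
    have hd := hI σ hσ (fun v => w v - u v) main
      (by rw [sum_sub_distrib, w1, u1, sub_self])
      (by simp only [sub_smul, sum_sub_distrib]; rw [wx, ux, sub_self])
    intro v hv
    by_cases h : v ∈ s
    · have hvt : v ∉ t := fun h' => hv (mem_inter.2 ⟨h, h'⟩)
      have := hd v
      rw [us v hvt, sub_zero] at this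
      exact this
    · exact ws v h
  rw [← wx]
  exact mem_hull w0 key w1

theorem indep_face {p : Fin n ↪ (Fin m → ℝ)} {σ t : Finset (Fin n)} (hσ : Indep p σ)
    (ht : t ⊆ σ) : AffineIndependent ℝ (fun v : t => p v) := by
  classical
  rw [affineIndependent_iff]
  intro s' w h1 h2
  have conv : ∀ (V : Type) [AddCommMonoid V] (f : t → V) (g : Fin n → V),
      (∀ v, g v = if h : v ∈ t then (if (⟨v, h⟩ : t) ∈ s' then f ⟨v, h⟩ else 0) else 0) →
      ∑ v, g v = ∑ i ∈ s', f i := by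
    intro V _ f g hg
    rw [← sum_subset (subset_univ t) (fun v _ hv => by rw [hg, dif_neg hv]),
      ← sum_coe_sort t g]
    have : ∀ i : t, g i = if i ∈ s' then f i else 0 := by
      intro i
      rw [hg, dif_pos i.2]
    rw [sum_congr rfl (fun i _ => this i), sum_ite_mem, univ_inter]
  set d : Fin n → ℝ := fun v => if h : v ∈ t then (if (⟨v, h⟩ : t) ∈ s' then w ⟨v, h⟩ else 0) else 0
    with hd
  have hz := hσ d (fun v hv => by rw [hd]; simp only; rw [dif_neg (fun h => hv (ht h))])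
    (by rw [conv ℝ w d (fun v => rfl), h1])
    (by
      rw [conv (Fin m → ℝ) (fun i => w i • p i) (fun v => d v • p v), h2]
      intro v
      rw [hd]
      simp only
      split_ifs <;> simp)
  intro i hi
  have := hz i
  rw [hd] at this
  simp only at this
  rw [dif_pos i.2, if_pos hi] at this
  exact this

/-- the geometric simplicial complex -/
noncomputable def build (p : Fin n ↪ (Fin m → ℝ)) (F : List (Finset (Fin n)))
    (hI : ∀ σ ∈ F, Indep p σ) (hS : ∀ σ ∈ F, ∀ τ ∈ F, σ ≠ τ → Sep p σ τ) :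
    Geometry.SimplicialComplex ℝ (Fin m → ℝ) where
  faces := {s | ∃ t : Finset (Fin n), (t.Nonempty ∧ ∃ σ ∈ F, t ⊆ σ) ∧ s = t.map p}
  isRelLowerSet_faces := by
    classical
    rintro s ⟨t, ⟨htne, σ, hσ, htσ⟩, rfl⟩
    refine ⟨htne.map, ?_⟩
    intro s' hs' hne
    refine ⟨t.filter (fun v => p v ∈ s'), ⟨?_, σ, hσ, (filter_subset _ _).trans htσ⟩, ?_⟩
    · obtain ⟨y, hy⟩ := hne
      obtain ⟨v, hv, rfl⟩ := mem_map.1 (hs' hy)
      exact ⟨v, mem_filter.2 ⟨hv, hy⟩⟩
    · ext y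
      rw [mem_map]
      constructor
      · intro hy
        obtain ⟨v, hv, rfl⟩ := mem_map.1 (hs' hy)
        exact ⟨v, mem_filter.2 ⟨hv, hy⟩, rfl⟩
      · rintro ⟨v, hv, rfl⟩
        exact (mem_filter.1 hv).2
  indep := by
    classical
    rintro s ⟨t, ⟨htne, σ, hσ, htσ⟩, rfl⟩
    have h := indep_face (hI σ hσ) htσ
    have hch : ∀ y : (t.map p : Finset (Fin m → ℝ)), ∃ v : t, p v = y := by
      rintro ⟨y, hy⟩
      obtain ⟨v, hv, rfl⟩ := mem_map.1 hy
      exact ⟨⟨v, hv⟩, rfl⟩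
    choose f hf using hch
    have hfi : Function.Injective f := by
      intro a b hab
      apply Subtype.ext
      rw [← hf a, ← hf b, hab]
    have := h.comp_embedding ⟨f, hfi⟩
    have he : ((fun v : t => p v) ∘ (⟨f, hfi⟩ : _ ↪ _)) = (Subtype.val : {y : Fin m → ℝ // y ∈ t.map p} → (Fin m → ℝ)) := by
      funext y
      exact hf y
    rwa [he] at this
  inter_subset_convexHull := by
    rintro s t ⟨s', ⟨_, σ, hσ, hs'⟩, rfl⟩ ⟨t', ⟨_, τ, hτ, ht'⟩, rfl⟩
    exact inter hI hS hσ hτ hs' ht'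

end Q148.Cairns
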