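import Mathlib

set_option autoImplicit false

/-!
Arrangements of great circles on the unit sphere: definitions.
-/

namespace Q148.GC

/-- `C` is a simple arrangement of `n` great circles on the unit sphere `S²` of `ℝ³`: each `C i`
is a great circle (the intersection of the sphere with the plane orthogonal to a nonzero vector),
the circles are distinct, and no point lies on three of them. -/
structure IsSimpleArrangement {n : ℕ} (C : Fin n → Set (EuclideanSpace ℝ (Fin 3))) : Prop where
  great : ∀ i, ∃ v : EuclideanSpace ℝ (Fin 3), v ≠ 0 ∧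
    C i = {x | x ∈ Metric.sphere (0 : EuclideanSpace ℝ (Fin 3)) 1 ∧ inner ℝ v x = 0}
  distinct : Function.Injective C
  simple : ∀ i j k, i ≠ j → i ≠ k → j ≠ k → C i ∩ C j ∩ C k = ∅

/-- `F` is a face: a connected component of the complement of the circles in the sphere. -/
def IsFace {n : ℕ} (C : Fin n → Set (EuclideanSpace ℝ (Fin 3)))
    (F : Set (EuclideanSpace ℝ (Fin 3))) : Prop :=
  ∃ x ∈ Metric.sphere (0 : EuclideanSpace ℝ (Fin 3)) 1 \ ⋃ i, C i,
    F = connectedComponentIn (Metric.sphere (0 : EuclideanSpace ℝ (Fin 3)) 1 \ ⋃ i, C i) x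

/-- The boundary of `F` without the vertices (points lying on two of the circles). -/
def openBoundary {n : ℕ} (C : Fin n → Set (EuclideanSpace ℝ (Fin 3)))
    (F : Set (EuclideanSpace ℝ (Fin 3))) : Set (EuclideanSpace ℝ (Fin 3)) :=
  (closure F \ F) \ {x | ∃ i j, i ≠ j ∧ x ∈ C i ∧ x ∈ C j}

/-- The sides of `F` (without their endpoints): the connected components of the boundary of `F`
without the vertices. -/
def sides {n : ℕ} (C : Fin n → Set (EuclideanSpace ℝ (Fin 3)))
    (F : Set (EuclideanSpace ℝ (Fin 3))) : Set (Set (EuclideanSpace ℝ (Fin 3))) :=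
  {s | ∃ x ∈ openBoundary C F, s = connectedComponentIn (openBoundary C F) x}

end Q148.GC
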