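import Pool.Agent.Q148.CircleStep

set_option autoImplicit false

/-!
The inductive step: doubling a great circle.
-/

namespace Q148.GC

open scoped RealInnerProductSpace

variable {n : ℕ}

theorem exists_ne_two (hn : 3 ≤ n) (a b : Fin n) : ∃ j : Fin n, j ≠ a ∧ j ≠ b := by
  by_contra hcon
  push Not at hcon
  have h1 : (Finset.univ : Finset (Fin n)).card ≤ ({a, b} : Finset (Fin n)).card :=
    Finset.card_le_card fun x _ => by
      rw [Finset.mem_insert, Finset.mem_singleton]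
      by_cases hx : x = a
      · exact Or.inl hx
      · exact Or.inr (hcon x hx)
  rw [Finset.card_univ, Fintype.card_fin] at h1
  have h2 : ({a, b} : Finset (Fin n)).card ≤ 2 := Finset.card_le_two
  omega

theorem Simple.ne_zero {v : Fin n → E} (hs : Simple v) (hn : 3 ≤ n) (i : Fin n) : v i ≠ 0 := by
  intro h0
  obtain ⟨j, hj, -⟩ := exists_ne_two hn i i
  obtain ⟨k, hk, hkj⟩ := exists_ne_two hn i j
  obtain ⟨z, hz, h1, h2⟩ := exists_orth (v j) (v k)
  exact hz (hs i j k hj.symm hk.symm hkj.symm z (by rw [h0, inner_zero_left]) h1 h2)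

open Classical in
theorem deg_succ (v : Fin (n + 1) → E) (τ : Fin (n + 1) → ℝ) :
    deg v τ = (if IsWall v τ 0 then 1 else 0) +
      (Finset.univ.filter (fun j : Fin n => IsWall v τ j.succ)).card := by
  unfold deg
  rw [Finset.card_filter, Fin.sum_univ_succ, Finset.card_filter]

/-- the data of a doubling -/
structure Dbl (v : Fin n → E) (L : Fin n) (x₀ w : E) (d : Fin n → E) (K C ε : ℝ) : Prop where
  hn : 3 ≤ n
  inv : Inv v
  x0L : ⟪v L, x₀⟫ = 0
  x0 : ∀ j, j ≠ L → ⟪v j, x₀⟫ ≠ 0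
  four : ∀ τ : Fin n → ℝ, (∀ j, j ≠ L → 0 < τ j * ⟪v j, x₀⟫) → τ L ≠ 0 → deg v τ ≤ 4
  w0 : w ≠ 0
  wL : ⟪v L, w⟫ = 0
  wx : ⟪w, x₀⟫ = 0
  K1 : 1 ≤ K
  C1 : 1 ≤ C
  hd : ∀ k, k ≠ L → ⟪v L, d k⟫ = 1 ∧ ⟪v k, d k⟫ = 0
  hvC : ∀ j k, |⟪v j, d k⟫| ≤ C
  hwC : ∀ k, |⟪w, d k⟫| ≤ C
  hKK : ∀ j k, j ≠ L → k ≠ L → j ≠ k → ∀ x, ∀ m : ℝ, |⟪v L, x⟫| ≤ m → |⟪v j, x⟫| ≤ m →
        |⟪v k, x⟫| ≤ m → ‖x‖ ≤ K * m
  ε0 : 0 < ε
  ε1 : ε * C < 1
  ε2 : ε * ‖w‖ * C * K < 1

section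

variable {v : Fin n → E} {L : Fin n} {x₀ w : E} {d : Fin n → E} {K C ε : ℝ}

theorem Dbl.x0_ne (h : Dbl v L x₀ w d K C ε) : x₀ ≠ 0 := by
  obtain ⟨j, hj, -⟩ := exists_ne_two h.hn L L
  rintro rfl
  exact h.x0 j hj (inner_zero_right _)

theorem Dbl.ker (h : Dbl v L x₀ w d K C ε) {x : E} (h1 : ⟪v L, x⟫ = 0) (h2 : ⟪w, x⟫ = 0) :
    ∃ c : ℝ, x = c • x₀ :=
  eq_smul (h.inv.simple.ne_zero h.hn L) h.w0 h.x0_ne h.x0L h.wx h.wL h1 h2

/-- the new family -/
noncomputable def dbl (v : Fin n → E) (L : Fin n) (w : E) (ε : ℝ) : Fin (n + 1) → E :=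
  Fin.cons (v L + ε • w) v

theorem dbl_zero (x : E) : ⟪dbl v L w ε 0, x⟫ = ⟪v L, x⟫ + ε * ⟪w, x⟫ := by
  unfold dbl
  rw [Fin.cons_zero, inner_add_left, real_inner_smul_left]

theorem dbl_succ (j : Fin n) (x : E) : ⟪dbl v L w ε j.succ, x⟫ = ⟪v j, x⟫ := by
  unfold dbl
  rw [Fin.cons_succ]

theorem Dbl.simple' (h : Dbl v L x₀ w d K C ε) : Simple (dbl v L w ε) := by
  have key : ∀ j k : Fin n, j ≠ k → ∀ x, ⟪dbl v L w ε 0, x⟫ = 0 → ⟪v j, x⟫ = 0 →
      ⟪v k, x⟫ = 0 → x = 0 := by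
    intro j k hjk x h0 hj hk
    rw [dbl_zero] at h0
    have aux : ∀ k : Fin n, k ≠ L → ⟪v L, x⟫ = 0 → ⟪v k, x⟫ = 0 → x = 0 := by
      intro k hkL hL hk
      have hw : ⟪w, x⟫ = 0 := by
        rw [hL, zero_add] at h0
        exact (mul_eq_zero.mp h0).resolve_left h.ε0.ne'
      obtain ⟨c, rfl⟩ := h.ker hL hw
      rw [inner_smul_right] at hk
      rw [(mul_eq_zero.mp hk).resolve_right (h.x0 k hkL), zero_smul]
    by_cases hjL : j = L
    · exact aux k (fun hk' => hjk (hjL.trans hk'.symm)) (by rw [← hjL]; exact hj) hk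
    · by_cases hkL : k = L
      · exact aux j hjL (by rw [← hkL]; exact hk) hj
      · by_contra hx
        have hxn : 0 < ‖x‖ := norm_pos_iff.mpr hx
        have hKp : 0 < K := by linarith [h.K1]
        have hm : 0 ≤ ε * (‖w‖ * ‖x‖) := by have := h.ε0; positivity
        have h1 : |⟪v L, x⟫| ≤ ε * (‖w‖ * ‖x‖) := by
          have : ⟪v L, x⟫ = -(ε * ⟪w, x⟫) := by linarith
          rw [this, abs_neg, abs_mul, abs_of_pos h.ε0]
          exact mul_le_mul_of_nonneg_left (abs_real_inner_le_norm w x) h.ε0.le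
        have h2 := h.hKK j k hjL hkL hjk x (ε * (‖w‖ * ‖x‖)) h1 (by rw [hj, abs_zero]; exact hm)
          (by rw [hk, abs_zero]; exact hm)
        have h3 : ε * ‖w‖ * K ≤ ε * ‖w‖ * C * K := by
          have := h.ε0
          have h4 : 0 ≤ ε * ‖w‖ * K := by positivity
          nlinarith [h.C1]
        have h4 : K * (ε * (‖w‖ * ‖x‖)) < ‖x‖ := by
          calc K * (ε * (‖w‖ * ‖x‖)) = (ε * ‖w‖ * K) * ‖x‖ := by ring
            _ < 1 * ‖x‖ := mul_lt_mul_of_pos_right (by linarith [h.ε2]) hxn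
            _ = ‖x‖ := one_mul _
        linarith
  intro i j k hij hik hjk x hi hj hk
  rcases Fin.eq_zero_or_eq_succ i with rfl | ⟨i, rfl⟩
  · rcases Fin.eq_zero_or_eq_succ j with rfl | ⟨j, rfl⟩
    · exact absurd rfl hij
    rcases Fin.eq_zero_or_eq_succ k with rfl | ⟨k, rfl⟩
    · exact absurd rfl hik
    rw [dbl_succ] at hj hk
    exact key j k (fun h => hjk (by rw [h])) x hi hj hk
  rw [dbl_succ] at hi
  rcases Fin.eq_zero_or_eq_succ j with rfl | ⟨j, rfl⟩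
  · rcases Fin.eq_zero_or_eq_succ k with rfl | ⟨k, rfl⟩
    · exact absurd rfl hjk
    rw [dbl_succ] at hk
    exact key i k (fun h => hik (by rw [h])) x hj hi hk
  rw [dbl_succ] at hj
  rcases Fin.eq_zero_or_eq_succ k with rfl | ⟨k, rfl⟩
  · exact key i j (fun h => hij (by rw [h])) x hk hi hj
  rw [dbl_succ] at hk
  exact h.inv.simple i j k (fun h => hij (by rw [h])) (fun h => hik (by rw [h]))
    (fun h => hjk (by rw [h])) x hi hj hk

theorem Dbl.push (h : Dbl v L x₀ w d K C ε) {x : E} (hx : x ≠ 0)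
    (hxL : |⟪v L, x⟫| ≤ ε * |⟪w, x⟫|) :
    ∃ z : E, ⟪v L, z⟫ = 0 ∧ (∀ k, k ≠ L → ⟪v k, x⟫ ≠ 0 → 0 < ⟪v k, x⟫ * ⟪v k, z⟫) ∧
      (∀ k, k ≠ L → ⟪v k, x⟫ = 0 → ⟪v k, z⟫ = 0) ∧
      (⟪w, x⟫ ≠ 0 → 0 < ⟪w, x⟫ * ⟪w, z⟫) :=
  push_to_plane (by have := h.hn; omega) h.K1 h.C1 h.hd h.hvC h.hwC h.hKK h.ε0 h.ε1 h.ε2 hx hxL

theorem sign_move {t a b : ℝ} (h1 : 0 < t * a) (h2 : 0 < a * b) : 0 < t * b := by
  have h3 : 0 < (t * a) * (a * b) := mul_pos h1 h2
  have h4 : (t * a) * (a * b) = (a * a) * (t * b) := by ring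
  rw [h4] at h3
  exact pos_of_mul_pos_right h3 (mul_self_nonneg a) |> fun h => h

/-- thin cells have at most four walls -/
theorem Dbl.thin (h : Dbl v L x₀ w d K C ε) (τ : Fin (n + 1) → ℝ)
    (hthin : τ 0 * τ L.succ < 0) : deg (dbl v L w ε) τ ≤ 4 := by
  classical
  rw [deg_succ]
  -- at most two walls besides the two copies of L
  have hT : ((Finset.univ.filter (fun j : Fin n => IsWall (dbl v L w ε) τ j.succ)).erase L).card
      ≤ 2 := by
    by_contra hcon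
    push Not at hcon
    rw [Finset.two_lt_card] at hcon
    obtain ⟨a, ha, b, hb, c, hc, hab, hac, hbc⟩ := hcon
    have key : ∀ j : Fin n, j ≠ L → IsWall (dbl v L w ε) τ j.succ →
        ∃ z : E, ⟪v L, z⟫ = 0 ∧ ⟪v j, z⟫ = 0 ∧
          ∀ k, k ≠ L → k ≠ j → 0 < τ k.succ * ⟪v k, z⟫ := by
      intro j hj ⟨y, hy0, hy⟩
      rw [dbl_succ] at hy0
      have hyL := hy L.succ (fun he => hj (Fin.succ_injective _ he).symm)
      rw [dbl_succ] at hyL
      have hyN := hy 0 (fun he => (Fin.succ_ne_zero j he.symm))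
      rw [dbl_zero] at hyN
      have hyne : y ≠ 0 := by
        rintro rfl
        rw [inner_zero_right, mul_zero] at hyL
        exact lt_irrefl _ hyL
      -- v_L(y) and v_L(y) + ε w(y) have opposite signs
      have hopp : ⟪v L, y⟫ * (⟪v L, y⟫ + ε * ⟪w, y⟫) < 0 := by
        have h1 : 0 < (τ L.succ * ⟪v L, y⟫) * (τ 0 * (⟪v L, y⟫ + ε * ⟪w, y⟫)) :=
          mul_pos hyL hyN
        have h2 : (τ L.succ * ⟪v L, y⟫) * (τ 0 * (⟪v L, y⟫ + ε * ⟪w, y⟫)) =
          (τ 0 * τ L.succ) * (⟪v L, y⟫ * (⟪v L, y⟫ + ε * ⟪w, y⟫)) := by ring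
        rw [h2] at h1
        by_contra h3
        push Not at h3
        have := mul_nonpos_of_nonpos_of_nonneg hthin.le h3
        linarith
      have hyw : |⟪v L, y⟫| ≤ ε * |⟪w, y⟫| := by
        have e : ε * |⟪w, y⟫| = |ε * ⟪w, y⟫| := by rw [abs_mul, abs_of_pos h.ε0]
        rw [e]
        rcases abs_cases (⟪v L, y⟫) with ⟨h1, h2⟩ | ⟨h1, h2⟩ <;>
          rcases abs_cases (ε * ⟪w, y⟫) with ⟨h3, h4⟩ | ⟨h3, h4⟩ <;> rw [h1, h3] <;> nlinarith
      obtain ⟨z, z1, z2, z3, -⟩ := h.push hyne hyw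
      refine ⟨z, z1, z3 j hj hy0, fun k hkL hkj => ?_⟩
      have hyk := hy k.succ (fun he => hkj (Fin.succ_injective _ he))
      rw [dbl_succ] at hyk
      have hyk0 : ⟪v k, y⟫ ≠ 0 := by
        intro h0
        rw [h0, mul_zero] at hyk
        exact lt_irrefl _ hyk
      exact sign_move hyk (z2 k hkL hyk0)
    rw [Finset.mem_erase, Finset.mem_filter] at ha hb hc
    obtain ⟨za, za1, za2, za3⟩ := key a ha.1 ha.2.2
    obtain ⟨zb, zb1, zb2, zb3⟩ := key b hb.1 hb.2.2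
    obtain ⟨zc, zc1, zc2, zc3⟩ := key c hc.1 hc.2.2
    refine rank_two (h.inv.simple.ne_zero h.hn L) (u := ![v a, v b, v c])
      (t := ![τ a.succ, τ b.succ, τ c.succ]) (z := ![za, zb, zc]) ?_ ?_ ?_
    · intro i; fin_cases i
      · exact za1
      · exact zb1
      · exact zc1
    · intro i; fin_cases i
      · exact za2
      · exact zb2
      · exact zc2
    · intro i j hij
      fin_cases i <;> fin_cases j
      · exact absurd rfl hij
      · exact zb3 a ha.1 hab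
      · exact zc3 a ha.1 hac
      · exact za3 b hb.1 hab.symm
      · exact absurd rfl hij
      · exact zc3 b hb.1 hbc
      · exact za3 c hc.1 hac.symm
      · exact zb3 c hc.1 hbc.symm
      · exact absurd rfl hij
  have h1 := Finset.pred_card_le_card_erase
    (s := Finset.univ.filter (fun j : Fin n => IsWall (dbl v L w ε) τ j.succ)) (a := L)
  split_ifs <;> omega

/-- fat cells have at most five walls -/
theorem Dbl.fat (h : Dbl v L x₀ w d K C ε) (τ : Fin (n + 1) → ℝ) (hτ : ∀ i, τ i ≠ 0)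
    (hfat : 0 < τ 0 * τ L.succ) : deg (dbl v L w ε) τ ≤ 5 := by
  classical
  rw [deg_succ]
  set σ : Fin n → ℝ := fun j => τ j.succ with hσ
  have hσ0 : ∀ j, σ j ≠ 0 := fun j => hτ j.succ
  have hdeg5 := h.inv.le_five σ hσ0
  have hsub : ∀ j : Fin n, IsWall (dbl v L w ε) τ j.succ → IsWall v σ j := by
    rintro j ⟨y, hy0, hy⟩
    rw [dbl_succ] at hy0
    refine ⟨y, hy0, fun k hk => ?_⟩
    have := hy k.succ (fun he => hk (Fin.succ_injective _ he))
    rw [dbl_succ] at this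
    exact this
  have hcard : (Finset.univ.filter (fun j : Fin n => IsWall (dbl v L w ε) τ j.succ)).card ≤
      deg v σ := by
    unfold deg
    refine Finset.card_le_card fun j hj => ?_
    rw [Finset.mem_filter] at hj ⊢
    exact ⟨hj.1, hsub j hj.2⟩
  split_ifs with h0
  swap
  · omega
  -- the new circle is a wall
  obtain ⟨y, hy0, hy⟩ := h0
  rw [dbl_zero] at hy0
  have hyk : ∀ k : Fin n, 0 < σ k * ⟪v k, y⟫ := by
    intro k
    have := hy k.succ (Fin.succ_ne_zero k)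
    rw [dbl_succ] at this
    exact this
  have hyne : y ≠ 0 := by
    rintro rfl
    have := hyk L
    rw [inner_zero_right, mul_zero] at this
    exact lt_irrefl _ this
  have hyw : |⟪v L, y⟫| ≤ ε * |⟪w, y⟫| := by
    have : ⟪v L, y⟫ = -(ε * ⟪w, y⟫) := by linarith
    rw [this, abs_neg, abs_mul, abs_of_pos h.ε0]
  obtain ⟨z, z1, z2, z3, z4⟩ := h.push hyne hyw
  have hwy : ⟪w, y⟫ ≠ 0 := by
    intro hw0
    rw [hw0, mul_zero, add_zero] at hy0
    have := hyk L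
    rw [hy0, mul_zero] at this
    exact lt_irrefl _ this
  have hzk : ∀ k : Fin n, k ≠ L → 0 < σ k * ⟪v k, z⟫ := by
    intro k hk
    have h1 := hyk k
    have h2 : ⟪v k, y⟫ ≠ 0 := by
      intro h0
      rw [h0, mul_zero] at h1
      exact lt_irrefl _ h1
    exact sign_move h1 (z2 k hk h2)
  have hzw : σ L * ⟪w, z⟫ < 0 := by
    have h1 : 0 < (-σ L) * ⟪w, y⟫ := by
      have h2 := hyk L
      have h3 : ⟪v L, y⟫ = -(ε * ⟪w, y⟫) := by linarith
      rw [h3] at h2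
      have h4 : 0 < ε * ((-σ L) * ⟪w, y⟫) := by linarith
      exact pos_of_mul_pos_right h4 h.ε0.le |> fun h => h
    have := sign_move h1 (z4 hwy)
    linarith
  have hwallL : IsWall v σ L := ⟨z, z1, hzk⟩
  by_cases hboth : IsWall (dbl v L w ε) τ L.succ
  · -- the edge is cut: the old cell has at most four walls
    obtain ⟨y', hy'0, hy'⟩ := hboth
    rw [dbl_succ] at hy'0
    have hy'w : 0 < σ L * ⟪w, y'⟫ := by
      have h1 := hy' 0 (Fin.succ_ne_zero L).symm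
      rw [dbl_zero, hy'0, zero_add] at h1
      have h2 : 0 < (σ L * τ 0) * (τ 0 * (ε * ⟪w, y'⟫)) := mul_pos (by
        have : σ L * τ 0 = τ 0 * τ L.succ := by rw [hσ]; ring
        rw [this]; exact hfat) h1
      have h3 : (σ L * τ 0) * (τ 0 * (ε * ⟪w, y'⟫)) = (τ 0 * τ 0 * ε) * (σ L * ⟪w, y'⟫) := by
        ring
      rw [h3] at h2
      have h4 : 0 ≤ τ 0 * τ 0 * ε := mul_nonneg (mul_self_nonneg _) h.ε0.le
      exact pos_of_mul_pos_right h2 h4 |> fun h => h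
    have hy'k : ∀ k : Fin n, k ≠ L → 0 < σ k * ⟪v k, y'⟫ := by
      intro k hk
      have := hy' k.succ (fun he => hk (Fin.succ_injective _ he))
      rw [dbl_succ] at this
      exact this
    -- the point of the edge on w = 0
    set α := -(σ L * ⟪w, z⟫) with hα
    set β := σ L * ⟪w, y'⟫ with hβ
    have hαp : 0 < α := by rw [hα]; linarith
    have hp1 : ⟪v L, α • y' + β • z⟫ = 0 := by
      rw [inner_add_right, inner_smul_right, inner_smul_right, hy'0, z1]; ring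
    have hp2 : ⟪w, α • y' + β • z⟫ = 0 := by
      rw [inner_add_right, inner_smul_right, inner_smul_right, hα, hβ]; ring
    obtain ⟨c, hc⟩ := h.ker hp1 hp2
    have hpk : ∀ k : Fin n, k ≠ L → 0 < σ k * (c * ⟪v k, x₀⟫) := by
      intro k hk
      rw [← inner_smul_right, ← hc, inner_add_right, inner_smul_right, inner_smul_right]
      have h1 := mul_pos hαp (hy'k k hk)
      have h2 := mul_pos hy'w (hzk k hk)
      have : σ k * (α * ⟪v k, y'⟫ + β * ⟪v k, z⟫) =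
        α * (σ k * ⟪v k, y'⟫) + β * (σ k * ⟪v k, z⟫) := by ring
      rw [this]; linarith
    have hdeg4 : deg v σ ≤ 4 := by
      rcases lt_trichotomy c 0 with hc0 | hc0 | hc0
      · rw [← deg_neg]
        refine h.four _ (fun k hk => ?_) (by simpa using hσ0 L)
        have h1 := hpk k hk
        have h2 : 0 < (-c) * ((- σ k) * ⟪v k, x₀⟫) := by linarith
        exact pos_of_mul_pos_right h2 (by linarith) |> fun h => h
      · exfalso
        obtain ⟨j, hj, -⟩ := exists_ne_two h.hn L L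
        have := hpk j hj
        rw [hc0, zero_mul, mul_zero] at this
        exact lt_irrefl _ this
      · refine h.four _ (fun k hk => ?_) (hσ0 L)
        have h1 := hpk k hk
        have h2 : 0 < c * (σ k * ⟪v k, x₀⟫) := by linarith
        exact pos_of_mul_pos_right h2 hc0.le |> fun h => h
    omega
  · have hcard2 : (Finset.univ.filter
        (fun j : Fin n => IsWall (dbl v L w ε) τ j.succ)).card + 1 ≤ deg v σ := by
      unfold deg
      rw [← Finset.card_insert_of_notMem (a := L)]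
      · refine Finset.card_le_card fun j hj => ?_
        rw [Finset.mem_insert, Finset.mem_filter] at hj
        rw [Finset.mem_filter]
        rcases hj with rfl | hj
        · exact ⟨Finset.mem_univ _, hwallL⟩
        · exact ⟨hj.1, hsub j hj.2⟩
      · rw [Finset.mem_filter]
        exact fun h' => hboth h'.2
    omega

/-- the new edge -/
theorem Dbl.edge' (h : Dbl v L x₀ w d K C ε) : ∃ (L' : Fin (n + 1)) (x₁ : E),
    ⟪dbl v L w ε L', x₁⟫ = 0 ∧ (∀ j, j ≠ L' → ⟪dbl v L w ε j, x₁⟫ ≠ 0) ∧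
    ∀ τ : Fin (n + 1) → ℝ, (∀ j, j ≠ L' → 0 < τ j * ⟪dbl v L w ε j, x₁⟫) → τ L' ≠ 0 →
      deg (dbl v L w ε) τ ≤ 4 := by
  obtain ⟨j₁, hj₁, -⟩ := exists_ne_two h.hn L L
  obtain ⟨z, hz, hzL, hzj⟩ := exists_orth (v L) (v j₁)
  have hzw : ⟪w, z⟫ ≠ 0 := by
    intro hw0
    obtain ⟨c, rfl⟩ := h.ker hzL hw0
    rw [inner_smul_right] at hzj
    rw [(mul_eq_zero.mp hzj).resolve_right (h.x0 j₁ hj₁), zero_smul] at hz
    exact hz rfl
  have hd := h.hd j₁ hj₁
  set x₁ : E := z - (ε * ⟪w, z⟫ / 2) • d j₁ with hx₁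
  have e0 : ⟪v j₁, x₁⟫ = 0 := by
    rw [hx₁, inner_sub_right, inner_smul_right, hd.2, hzj]; ring
  have eL : ⟪v L, x₁⟫ = -(ε * ⟪w, z⟫ / 2) := by
    rw [hx₁, inner_sub_right, inner_smul_right, hd.1, hzL]; ring
  have eN : ⟪dbl v L w ε 0, x₁⟫ = (ε * ⟪w, z⟫ / 2) * (1 - ε * ⟪w, d j₁⟫) := by
    rw [dbl_zero, eL, hx₁, inner_sub_right, inner_smul_right]; ring
  have hwd : 0 < 1 - ε * ⟪w, d j₁⟫ := by
    have h1 := (abs_le.mp (h.hwC j₁)).2
    have h2 := mul_le_mul_of_nonneg_left h1 h.ε0.le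
    linarith [h.ε1]
  have hprod : ⟪v L, x₁⟫ * ⟪dbl v L w ε 0, x₁⟫ < 0 := by
    rw [eL, eN]
    have h1 : 0 < (ε * ⟪w, z⟫ / 2) * (ε * ⟪w, z⟫ / 2) := by
      apply mul_self_pos.mpr
      exact div_ne_zero (mul_ne_zero h.ε0.ne' hzw) (by norm_num)
    have h2 := mul_pos h1 hwd
    linarith
  have hother : ∀ k, k ≠ L → k ≠ j₁ → ⟪v k, x₁⟫ ≠ 0 := by
    intro k hkL hkj
    have hzn : 0 < ‖z‖ := norm_pos_iff.mpr hz
    have h1 : ‖z‖ ≤ K * |⟪v k, z⟫| := h.hKK k j₁ hkL hj₁ hkj z _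
      (by rw [hzL, abs_zero]; exact abs_nonneg _) le_rfl (by rw [hzj, abs_zero]; exact abs_nonneg _)
    have h2 : 0 < ⟪v k, z⟫ * ⟪v k, x₁⟫ := by
      apply same_sign
      rw [hx₁, inner_sub_right, inner_smul_right]
      have e : ⟪v k, z⟫ - ε * ⟪w, z⟫ / 2 * ⟪v k, d j₁⟫ - ⟪v k, z⟫ =
        -(ε * ⟪w, z⟫ / 2 * ⟪v k, d j₁⟫) := by ring
      rw [e, abs_neg, abs_mul, abs_div, abs_mul, abs_of_pos h.ε0, abs_two]
      have hK0 : 0 < K := by linarith [h.K1]
      have h3 : ε * |⟪w, z⟫| / 2 * |⟪v k, d j₁⟫| ≤ ε * (‖w‖ * ‖z‖) / 2 * C := by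
        refine mul_le_mul ?_ (h.hvC k j₁) (abs_nonneg _) ?_
        · have := mul_le_mul_of_nonneg_left (abs_real_inner_le_norm w z) h.ε0.le
          linarith
        · have := h.ε0; positivity
      have h4 : ε * (‖w‖ * ‖z‖) / 2 * C * K < ‖z‖ := by
        have h5 : ε * ‖w‖ * C * K * ‖z‖ < 1 * ‖z‖ := mul_lt_mul_of_pos_right h.ε2 hzn
        have h6 : ε * (‖w‖ * ‖z‖) / 2 * C * K = ε * ‖w‖ * C * K * ‖z‖ / 2 := by ring
        rw [h6]
        linarith
      have h7 : ε * (‖w‖ * ‖z‖) / 2 * C < |⟪v k, z⟫| := by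
        by_contra hcon
        push Not at hcon
        have := mul_le_mul_of_nonneg_left hcon hK0.le
        linarith
      linarith
    intro h0
    rw [h0, mul_zero] at h2
    exact lt_irrefl _ h2
  refine ⟨j₁.succ, x₁, by rw [dbl_succ]; exact e0, ?_, ?_⟩
  · intro i hi
    rcases Fin.eq_zero_or_eq_succ i with rfl | ⟨k, rfl⟩
    · intro h0
      rw [h0, mul_zero] at hprod
      exact lt_irrefl _ hprod
    · rw [dbl_succ]
      have hk : k ≠ j₁ := fun he => hi (by rw [he])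
      by_cases hkL : k = L
      · subst hkL
        intro h0
        rw [h0, zero_mul] at hprod
        exact lt_irrefl _ hprod
      · exact hother k hkL hk
  · intro τ hτ _
    refine h.thin τ ?_
    have h1 := hτ 0 (Fin.succ_ne_zero j₁).symm
    have h2 := hτ L.succ (fun he => hj₁ (Fin.succ_injective _ he).symm)
    rw [dbl_succ] at h2
    have h3 : 0 < (τ 0 * ⟪dbl v L w ε 0, x₁⟫) * (τ L.succ * ⟪v L, x₁⟫) := mul_pos h1 h2
    have h4 : (τ 0 * ⟪dbl v L w ε 0, x₁⟫) * (τ L.succ * ⟪v L, x₁⟫) =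
      (τ 0 * τ L.succ) * (⟪v L, x₁⟫ * ⟪dbl v L w ε 0, x₁⟫) := by ring
    rw [h4] at h3
    by_contra hcon
    push Not at hcon
    have := mul_nonpos_of_nonneg_of_nonpos hcon hprod.le
    linarith

theorem Dbl.inv' (h : Dbl v L x₀ w d K C ε) : Inv (dbl v L w ε) := by
  refine ⟨h.simple', fun τ hτ => ?_, h.edge'⟩
  rcases lt_trichotomy (τ 0 * τ L.succ) 0 with h1 | h1 | h1
  · exact (h.thin τ h1).trans (by norm_num)
  · exact absurd h1 (mul_ne_zero (hτ 0) (hτ L.succ))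
  · exact h.fat τ hτ h1

end

theorem step {n : ℕ} (hn : 3 ≤ n) {v : Fin n → E} (h : Inv v) :
    ∃ v' : Fin (n + 1) → E, Inv v' := by
  obtain ⟨L, x₀, h1, h2, h3⟩ := h.edge
  obtain ⟨w, hw, hw1, hw2⟩ := exists_orth (v L) x₀
  obtain ⟨d, K, C, hK, hC, hd, hvC, hwC, hKK⟩ := exists_uniform v h.simple hn L w
  have hw' : 0 < ‖w‖ := norm_pos_iff.mpr hw
  have hCp : 0 < C := by linarith
  have hKp : 0 < K := by linarith
  set ε : ℝ := 1 / (2 * (1 + ‖w‖) * C * K) with hε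
  have hε0 : 0 < ε := by positivity
  have hden : ε * (2 * (1 + ‖w‖) * C * K) = 1 := by
    rw [hε]; field_simp
  refine ⟨dbl v L w ε, Dbl.inv' (x₀ := x₀) (d := d) (K := K) (C := C)
    ⟨hn, h, h1, h2, h3, hw, hw1, ?_, hK, hC, hd, hvC, hwC, hKK, hε0, ?_, ?_⟩⟩
  · rw [real_inner_comm]; exact hw2
  · have h4 : ε * C ≤ ε * C * ((1 + ‖w‖) * K) := by
      have h5 : 1 ≤ (1 + ‖w‖) * K := by nlinarith
      have h6 : 0 ≤ ε * C := by positivity
      nlinarith
    nlinarith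
  · have h4 : ε * ‖w‖ * C * K ≤ ε * ((1 + ‖w‖) * C * K) := by
      have h5 : 0 ≤ ε * C * K := by positivity
      nlinarith
    nlinarith

theorem inner_single (m : Fin 3) (x : E) :
    ⟪(EuclideanSpace.single m (1 : ℝ) : E), x⟫ = x m := by
  rw [EuclideanSpace.inner_single_left]; simp

/-- the coordinate planes -/
theorem base : ∃ v : Fin 3 → E, Inv v := by
  classical
  have hdeg : ∀ (v : Fin 3 → E) (τ : Fin 3 → ℝ), deg v τ ≤ 3 := by
    intro v τ
    unfold deg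
    refine (Finset.card_filter_le _ _).trans ?_
    simp
  refine ⟨fun i => EuclideanSpace.single i 1, ?_, fun τ _ => (hdeg _ τ).trans (by norm_num), ?_⟩
  · intro i j k hij hik hjk x hi hj hk
    have hall : ∀ l : Fin 3, x l = 0 := by
      intro l
      simp only [inner_single] at hi hj hk
      have : l = i ∨ l = j ∨ l = k := by omega
      rcases this with rfl | rfl | rfl
      · exact hi
      · exact hj
      · exact hk
    ext l
    exact hall l
  · refine ⟨0, EuclideanSpace.single 1 1 + EuclideanSpace.single 2 1, ?_, ?_,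
      fun τ _ _ => (hdeg _ τ).trans (by norm_num)⟩
    · simp only [inner_single]; simp
    · intro j hj
      simp only [inner_single]
      have : j = 1 ∨ j = 2 := by omega
      rcases this with rfl | rfl <;> simp

theorem exists_inv (n : ℕ) (hn : 3 ≤ n) : ∃ v : Fin n → E, Inv v := by
  induction n, hn using Nat.le_induction with
  | base => exact base
  | succ n hn ih =>
    obtain ⟨v, hv⟩ := ih
    exact step hn hv

end Q148.GC
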