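import Pool.Agent.Q148.CircleInd

set_option autoImplicit false

/-!
Five great circles in general position form a pentagon; cutting a cell keeps a large cell.
-/

namespace Q148.GC

open scoped RealInnerProductSpace

variable {n : ℕ}

/-- dual basis property and coordinates -/
theorem dual_and_coords {v : Fin n → E} (hs : Simple v) {i j k : Fin n} (hij : i ≠ j)
    (hik : i ≠ k) (hjk : j ≠ k) :
    (∀ p q r : ℝ, ∃ y : E, ⟪v i, y⟫ = p ∧ ⟪v j, y⟫ = q ∧ ⟪v k, y⟫ = r) ∧
      ∀ u : E, ∃ a b c : ℝ, u = a • v i + b • v j + c • v k := by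
  let T : E →ₗ[ℝ] (Fin 3 → ℝ) :=
    LinearMap.pi ![(innerₛₗ ℝ (v i)), (innerₛₗ ℝ (v j)), (innerₛₗ ℝ (v k))]
  have hT0 : ∀ x, T x 0 = ⟪v i, x⟫ := fun x => by simp [T]
  have hT1 : ∀ x, T x 1 = ⟪v j, x⟫ := fun x => by simp [T]
  have hT2 : ∀ x, T x 2 = ⟪v k, x⟫ := fun x => by simp [T]
  have hinj : Function.Injective T := by
    rw [← LinearMap.ker_eq_bot, LinearMap.ker_eq_bot']
    intro x hx
    refine hs i j k hij hik hjk x ?_ ?_ ?_
    · rw [← hT0, hx]; rfl
    · rw [← hT1, hx]; rfl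
    · rw [← hT2, hx]; rfl
  have hsurj : Function.Surjective T := by
    rw [← LinearMap.injective_iff_surjective_of_finrank_eq_finrank (by simp)]
    exact hinj
  have hdual : ∀ p q r : ℝ, ∃ y : E, ⟪v i, y⟫ = p ∧ ⟪v j, y⟫ = q ∧ ⟪v k, y⟫ = r := by
    intro p q r
    obtain ⟨d, hd⟩ := hsurj ![p, q, r]
    refine ⟨d, ?_, ?_, ?_⟩
    · rw [← hT0, hd]; rfl
    · rw [← hT1, hd]; rfl
    · rw [← hT2, hd]; rfl
  refine ⟨hdual, ?_⟩
  let S : (Fin 3 → ℝ) →ₗ[ℝ] E := Fintype.linearCombination ℝ ![v i, v j, v k]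
  have hS : ∀ c, S c = c 0 • v i + c 1 • v j + c 2 • v k := by
    intro c
    simp only [S, Fintype.linearCombination_apply, Fin.sum_univ_three]
    rfl
  have hSinj : Function.Injective S := by
    rw [← LinearMap.ker_eq_bot, LinearMap.ker_eq_bot']
    intro c hc
    obtain ⟨y, h0, h1, h2⟩ := hdual (c 0) (c 1) (c 2)
    rw [hS] at hc
    have := congrArg (fun u => ⟪u, y⟫) hc
    simp only [inner_add_left, real_inner_smul_left, h0, h1, h2, inner_zero_left] at this
    have e0 : c 0 = 0 := by nlinarith [sq_nonneg (c 0), sq_nonneg (c 1), sq_nonneg (c 2)]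
    have e1 : c 1 = 0 := by nlinarith [sq_nonneg (c 0), sq_nonneg (c 1), sq_nonneg (c 2)]
    have e2 : c 2 = 0 := by nlinarith [sq_nonneg (c 0), sq_nonneg (c 1), sq_nonneg (c 2)]
    funext l
    fin_cases l
    · exact e0
    · exact e1
    · exact e2
  have hSsurj : Function.Surjective S := by
    rw [← LinearMap.injective_iff_surjective_of_finrank_eq_finrank (by simp)]
    exact hSinj
  intro u
  obtain ⟨c, hc⟩ := hSsurj u
  exact ⟨c 0, c 1, c 2, by rw [← hc, hS]⟩

/-- symmetric bilinear form with zero diagonal -/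
def BB (p q r : ℝ) (x y : Fin 3 → ℝ) : ℝ :=
  p * (x 1 * y 2 + x 2 * y 1) + q * (x 0 * y 2 + x 2 * y 0) + r * (x 0 * y 1 + x 1 * y 0)

/-- the determinant of three vectors -/
def det3 (x y z : Fin 3 → ℝ) : ℝ :=
  x 0 * (y 1 * z 2 - y 2 * z 1) - x 1 * (y 0 * z 2 - y 2 * z 0) + x 2 * (y 0 * z 1 - y 1 * z 0)

theorem gram (p q r : ℝ) (x y z : Fin 3 → ℝ) (hx : BB p q r x x = 0) (hy : BB p q r y y = 0)
    (hz : BB p q r z z = 0) :
    BB p q r x y * BB p q r y z * BB p q r x z = p * q * r * det3 x y z ^ 2 := by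
  have h : BB p q r x x * BB p q r y y * BB p q r z z +
      2 * (BB p q r x y * BB p q r y z * BB p q r x z) -
      BB p q r x x * BB p q r y z ^ 2 - BB p q r y y * BB p q r x z ^ 2 -
      BB p q r z z * BB p q r x y ^ 2 = 2 * (p * q * r * det3 x y z ^ 2) := by
    unfold BB det3
    ring
  rw [hx, hy, hz] at h
  linarith

theorem BB_symm (p q r : ℝ) (x y : Fin 3 → ℝ) : BB p q r x y = BB p q r y x := by
  unfold BB; ring

/-- if the determinant vanishes there is a nonzero vector orthogonal to all three -/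
theorem exists_of_det {x y z : Fin 3 → ℝ} (h : det3 x y z = 0) :
    ∃ c : Fin 3 → ℝ, c ≠ 0 ∧ x 0 * c 0 + x 1 * c 1 + x 2 * c 2 = 0 ∧
      y 0 * c 0 + y 1 * c 1 + y 2 * c 2 = 0 ∧ z 0 * c 0 + z 1 * c 1 + z 2 * c 2 = 0 := by
  have hdet : (Matrix.of ![x, y, z]).det = 0 := by
    rw [Matrix.det_fin_three]
    simp only [Matrix.of_apply, Matrix.cons_val_zero, Matrix.cons_val_one, Matrix.cons_val]
    unfold det3 at h
    linarith
  obtain ⟨c, hc, hmul⟩ := Matrix.exists_mulVec_eq_zero_iff.mpr hdet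
  refine ⟨c, hc, ?_, ?_, ?_⟩
  · have := congrFun hmul 0
    simp only [Matrix.mulVec, dotProduct, Fin.sum_univ_three, Matrix.of_apply,
      Matrix.cons_val_zero, Pi.zero_apply] at this
    exact this
  · have := congrFun hmul 1
    simp only [Matrix.mulVec, dotProduct, Fin.sum_univ_three, Matrix.of_apply,
      Matrix.cons_val_one, Matrix.cons_val_zero, Pi.zero_apply] at this
    exact this
  · have := congrFun hmul 2
    simp only [Matrix.mulVec, dotProduct, Fin.sum_univ_three, Matrix.of_apply,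
      Matrix.cons_val, Pi.zero_apply] at this
    exact this

theorem pentagon {v : Fin 5 → E} (hs : Simple v) :
    ∃ τ : Fin 5 → ℝ, (∀ i, τ i ≠ 0) ∧ 5 ≤ deg v τ := by
  classical
  have h01 : (0 : Fin 5) ≠ 1 := by decide
  have h02 : (0 : Fin 5) ≠ 2 := by decide
  have h12 : (1 : Fin 5) ≠ 2 := by decide
  obtain ⟨hdual, hcoord⟩ := dual_and_coords hs h01 h02 h12
  obtain ⟨s0, s1, s2, hv3⟩ := hcoord (v 3)
  obtain ⟨t0, t1, t2, hv4⟩ := hcoord (v 4)
  -- coordinates
  let a : Fin 5 → Fin 3 → ℝ := ![![1, 0, 0], ![0, 1, 0], ![0, 0, 1], ![s0, s1, s2], ![t0, t1, t2]]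
  have ha : ∀ i (y : E), ⟪v i, y⟫ = a i 0 * ⟪v 0, y⟫ + a i 1 * ⟪v 1, y⟫ + a i 2 * ⟪v 2, y⟫ := by
    intro i y
    fin_cases i
    · simp [a]
    · simp [a]
    · simp [a]
    · change ⟪v 3, y⟫ = s0 * ⟪v 0, y⟫ + s1 * ⟪v 1, y⟫ + s2 * ⟪v 2, y⟫
      rw [hv3]; simp only [inner_add_left, real_inner_smul_left]
    · change ⟪v 4, y⟫ = t0 * ⟪v 0, y⟫ + t1 * ⟪v 1, y⟫ + t2 * ⟪v 2, y⟫
      rw [hv4]; simp only [inner_add_left, real_inner_smul_left]
  have hdet : ∀ i j k, i ≠ j → i ≠ k → j ≠ k → det3 (a i) (a j) (a k) ≠ 0 := by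
    intro i j k hij hik hjk h0
    obtain ⟨c, hc, h1, h2, h3⟩ := exists_of_det h0
    obtain ⟨y, hy0, hy1, hy2⟩ := hdual (c 0) (c 1) (c 2)
    have hy : y = 0 := by
      refine hs i j k hij hik hjk y ?_ ?_ ?_
      · rw [ha, hy0, hy1, hy2]; exact h1
      · rw [ha, hy0, hy1, hy2]; exact h2
      · rw [ha, hy0, hy1, hy2]; exact h3
    apply hc
    rw [hy, inner_zero_right] at hy0 hy1 hy2
    funext l
    fin_cases l
    · exact hy0.symm
    · exact hy1.symm
    · exact hy2.symm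
  set p : ℝ := s0 * t0 * (s2 * t1 - s1 * t2) with hp
  set q : ℝ := s1 * t1 * (s0 * t2 - s2 * t0) with hq
  set r : ℝ := s2 * t2 * (s1 * t0 - s0 * t1) with hr
  have hs0 : s0 ≠ 0 := by
    have := hdet 1 2 3 (by decide) (by decide) (by decide)
    simpa [a, det3] using this
  have hs1 : s1 ≠ 0 := by
    have := hdet 0 2 3 (by decide) (by decide) (by decide)
    simpa [a, det3] using this
  have hs2 : s2 ≠ 0 := by
    have := hdet 0 1 3 (by decide) (by decide) (by decide)
    simpa [a, det3] using this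
  have ht0 : t0 ≠ 0 := by
    have := hdet 1 2 4 (by decide) (by decide) (by decide)
    simpa [a, det3] using this
  have ht1 : t1 ≠ 0 := by
    have := hdet 0 2 4 (by decide) (by decide) (by decide)
    simpa [a, det3] using this
  have ht2 : t2 ≠ 0 := by
    have := hdet 0 1 4 (by decide) (by decide) (by decide)
    simpa [a, det3] using this
  have hp0 : p ≠ 0 := by
    have := hdet 0 3 4 (by decide) (by decide) (by decide)
    have h' : s1 * t2 - s2 * t1 ≠ 0 := by simpa [a, det3] using this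
    refine mul_ne_zero (mul_ne_zero hs0 ht0) (fun h => h' (by linarith))
  have hq0 : q ≠ 0 := by
    have := hdet 1 3 4 (by decide) (by decide) (by decide)
    have h' : s0 * t2 - s2 * t0 ≠ 0 := by
      intro h
      apply this
      simp [a, det3]
      linarith
    exact mul_ne_zero (mul_ne_zero hs1 ht1) h'
  have hr0 : r ≠ 0 := by
    have := hdet 2 3 4 (by decide) (by decide) (by decide)
    have h' : s0 * t1 - s1 * t0 ≠ 0 := by
      intro h
      apply this
      simp [a, det3]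
      linarith
    refine mul_ne_zero (mul_ne_zero hs2 ht2) (fun h => h' (by linarith))
  set D : ℝ := p * q * r with hD
  have hD0 : D ≠ 0 := mul_ne_zero (mul_ne_zero hp0 hq0) hr0
  let b : Fin 5 → Fin 5 → ℝ := fun i j => BB p q r (a i) (a j)
  have hbii : ∀ i, b i i = 0 := by
    intro i
    fin_cases i
    · simp [b, a, BB]
    · simp [b, a, BB]
    · simp [b, a, BB]
    · change BB p q r ![s0, s1, s2] ![s0, s1, s2] = 0
      simp only [BB, Matrix.cons_val_zero, Matrix.cons_val_one, Matrix.cons_val]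
      rw [hp, hq, hr]; ring
    · change BB p q r ![t0, t1, t2] ![t0, t1, t2] = 0
      simp only [BB, Matrix.cons_val_zero, Matrix.cons_val_one, Matrix.cons_val]
      rw [hp, hq, hr]; ring
  have hbsymm : ∀ i j, b i j = b j i := fun i j => BB_symm p q r (a i) (a j)
  have hprod : ∀ i j k, i ≠ j → i ≠ k → j ≠ k → 0 < D * (b i j * b j k * b i k) := by
    intro i j k hij hik hjk
    have h1 := gram p q r (a i) (a j) (a k) (hbii i) (hbii j) (hbii k)
    change b i j * b j k * b i k = _ at h1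
    rw [h1, ← hD]
    have h2 : D * (D * det3 (a i) (a j) (a k) ^ 2) = (D * det3 (a i) (a j) (a k)) ^ 2 := by ring
    rw [h2]
    have h3 := mul_ne_zero hD0 (hdet i j k hij hik hjk)
    positivity
  have hbne : ∀ i j, i ≠ j → b i j ≠ 0 := by
    intro i j hij h0
    obtain ⟨k, hki, hkj⟩ := exists_ne_two (by norm_num : 3 ≤ 5) i j
    have := hprod i j k hij hki.symm hkj.symm
    rw [h0] at this
    simp at this
  -- the points
  have hy : ∀ i, ∃ y : E, ∀ j, ⟪v j, y⟫ = b j i := by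
    intro i
    obtain ⟨y, h0, h1, h2⟩ := hdual (b 0 i) (b 1 i) (b 2 i)
    refine ⟨y, fun j => ?_⟩
    rw [ha, h0, h1, h2]
    simp only [b, BB]
    simp [a]
    ring
  choose y hy using hy
  let τ : Fin 5 → ℝ := fun j => if j = 0 then 1 else D * b 0 j
  have hτ0 : ∀ j, τ j ≠ 0 := by
    intro j
    simp only [τ]
    split_ifs with h
    · norm_num
    · exact mul_ne_zero hD0 (hbne 0 j (Ne.symm h))
  have hpair : ∀ i j, i ≠ j → 0 < D * (τ i * (τ j * b i j)) := by
    intro i j hij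
    simp only [τ]
    split_ifs with h1 h2 h2
    · exact absurd (h1.trans h2.symm) hij
    · subst h1
      have h3 : D * (1 * (D * b 0 j * b 0 j)) = (D * b 0 j) ^ 2 := by ring
      rw [h3]
      have h4 := mul_ne_zero hD0 (hbne 0 j hij)
      positivity
    · subst h2
      have h3 : D * (D * b 0 i * (1 * b i 0)) = (D * b 0 i) ^ 2 := by
        rw [hbsymm i 0]; ring
      rw [h3]
      have h4 := mul_ne_zero hD0 (hbne 0 i (Ne.symm h1))
      positivity
    · have h3 := hprod 0 i j (Ne.symm h1) (Ne.symm h2) hij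
      have h4 : D * (D * b 0 i * (D * b 0 j * b i j)) =
        D ^ 2 * (D * (b 0 i * b i j * b 0 j)) := by ring
      rw [h4]
      exact mul_pos (by positivity) h3
  refine ⟨τ, hτ0, ?_⟩
  have hall : ∀ i, IsWall v τ i := by
    intro i
    refine ⟨(D * τ i) • y i, ?_, fun j hj => ?_⟩
    · rw [inner_smul_right, hy, hbii, mul_zero]
    · rw [inner_smul_right, hy]
      have := hpair i j hj.symm
      rw [hbsymm j i]
      have h3 : τ j * (D * τ i * b i j) = D * (τ i * (τ j * b i j)) := by ring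
      rw [h3]; exact this
  unfold deg
  rw [Finset.filter_true_of_mem (fun i _ => hall i)]
  simp

/-- two-sidedness: a wall point on the new plane gives walls on both sides -/
theorem moving {v : Fin (n + 1) → E} (hs : Simple v) (hn : 2 ≤ n) {τ : Fin n → ℝ} {j : Fin n}
    {y : E} (h0 : ⟪v 0, y⟫ = 0) (hj : ⟪v j.succ, y⟫ = 0)
    (hk : ∀ k, k ≠ j → 0 < τ k * ⟪v k.succ, y⟫) {s : ℝ} (hs0 : s ≠ 0) :
    IsWall v (Fin.cons s τ) j.succ := by
  obtain ⟨k, hk0, hkj⟩ := exists_ne_two (by omega : 3 ≤ n + 1) 0 j.succ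
  obtain ⟨d, hd0, hdj, -⟩ := (dual_and_coords hs (Fin.succ_ne_zero j).symm hk0.symm
    hkj.symm).1 s 0 0
  have hev : ∀ᶠ δ in nhds (0 : ℝ), ∀ k : Fin n, k ≠ j → 0 < τ k * ⟪v k.succ, y + δ • d⟫ := by
    rw [Filter.eventually_all]
    intro k
    by_cases hkj : k = j
    · exact Filter.Eventually.of_forall fun _ h => absurd hkj h
    · have hc : Continuous fun δ : ℝ => τ k * ⟪v k.succ, y + δ • d⟫ := by fun_prop
      have h1 : 0 < (fun δ : ℝ => τ k * ⟪v k.succ, y + δ • d⟫) 0 := by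
        simpa using hk k hkj
      exact (hc.continuousAt.eventually_const_lt h1).mono fun δ h _ => h
  obtain ⟨δ, hδ, hδ0⟩ := ((hev.filter_mono nhdsWithin_le_nhds).and
    (self_mem_nhdsWithin : Set.Ioi (0 : ℝ) ∈ nhdsWithin 0 (Set.Ioi 0))).exists
  refine ⟨y + δ • d, ?_, fun i hi => ?_⟩
  · rw [inner_add_right, inner_smul_right, hj, hdj]; ring
  · rcases Fin.eq_zero_or_eq_succ i with rfl | ⟨k, rfl⟩
    · rw [Fin.cons_zero, inner_add_right, inner_smul_right, h0, hd0, zero_add]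
      have : 0 < δ * (s * s) := mul_pos hδ0 (mul_self_pos.mpr hs0)
      linarith
    · rw [Fin.cons_succ]
      exact hδ k (fun h => hi (by rw [h]))

/-- a plane through the interior of a cell crosses at least two walls -/
theorem two_crossed {v : Fin (n + 1) → E} (hs : Simple v) (hn : 2 ≤ n) {τ : Fin n → ℝ}
    {y₀ : E} (h0 : ⟪v 0, y₀⟫ = 0) (hy₀ : ∀ k, 0 < τ k * ⟪v k.succ, y₀⟫) :
    ∃ a b : Fin n, a ≠ b ∧ (∀ s : ℝ, s ≠ 0 → IsWall v (Fin.cons s τ) a.succ) ∧
      (∀ s : ℝ, s ≠ 0 → IsWall v (Fin.cons s τ) b.succ) := by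
  have : Nonempty (Fin n) := ⟨⟨0, by omega⟩⟩
  have hy0ne : y₀ ≠ 0 := by
    rintro rfl
    have := hy₀ ⟨0, by omega⟩
    rw [inner_zero_right, mul_zero] at this
    exact lt_irrefl _ this
  have hvne : ∀ k : Fin n, ⟪v k.succ, y₀⟫ ≠ 0 := by
    intro k h
    have := hy₀ k
    rw [h, mul_zero] at this
    exact lt_irrefl _ this
  obtain ⟨w, hw, hw0, hwy⟩ := exists_orth (v 0) y₀
  let r : Fin n → ℝ := fun k => ⟪v k.succ, w⟫ / ⟪v k.succ, y₀⟫
  have hr : ∀ k (c : ℝ), ⟪v k.succ, w - c • y₀⟫ = ⟪v k.succ, y₀⟫ * (r k - c) := by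
    intro k c
    rw [inner_sub_right, inner_smul_right]
    simp only [r]
    field_simp [hvne k]
  have hrinj : Function.Injective r := by
    intro i j hij
    by_contra hne
    have hz : w - r i • y₀ = 0 := by
      refine hs 0 i.succ j.succ (Fin.succ_ne_zero i).symm (Fin.succ_ne_zero j).symm
        (fun h => hne (Fin.succ_injective _ h)) _ ?_ ?_ ?_
      · rw [inner_sub_right, inner_smul_right, hw0, h0]; ring
      · rw [hr, sub_self, mul_zero]
      · rw [hr, hij, sub_self, mul_zero]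
    have h1 : ⟪y₀, w - r i • y₀⟫ = 0 := by rw [hz, inner_zero_right]
    rw [inner_sub_right, inner_smul_right, hwy] at h1
    have h2 : r i * ⟪y₀, y₀⟫ = 0 := by linarith
    have h3 : r i = 0 := (mul_eq_zero.mp h2).resolve_right (fun h => hy0ne (inner_self_eq_zero.mp h))
    rw [h3, zero_smul, sub_zero] at hz
    exact hw hz
  obtain ⟨a, ha⟩ := Finite.exists_min r
  obtain ⟨b, hb⟩ := Finite.exists_max r
  refine ⟨a, b, ?_, fun s hs0 => ?_, fun s hs0 => ?_⟩
  · rintro rfl
    have h1 : ∀ k, r k = r a := fun k => le_antisymm (hb k) (ha k)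
    have h2 := hrinj ((h1 ⟨0, by omega⟩).trans (h1 ⟨1, by omega⟩).symm)
    simp at h2
  · refine moving hs hn (y := w - r a • y₀) ?_ ?_ (fun k hk => ?_) hs0
    · rw [inner_sub_right, inner_smul_right, hw0, h0]; ring
    · rw [hr, sub_self, mul_zero]
    · rw [hr]
      have h1 : r a < r k := lt_of_le_of_ne (ha k) (fun h => hk (hrinj h.symm))
      have h2 := mul_pos (hy₀ k) (sub_pos.mpr h1)
      linarith
  · refine moving hs hn (y := -(w - r b • y₀)) ?_ ?_ (fun k hk => ?_) hs0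
    · rw [inner_neg_right, inner_sub_right, inner_smul_right, hw0, h0]; ring
    · rw [inner_neg_right, hr, sub_self, mul_zero, neg_zero]
    · rw [inner_neg_right, hr]
      have h1 : r k < r b := lt_of_le_of_ne (hb k) (fun h => hk (hrinj h))
      have h2 := mul_pos (hy₀ k) (sub_pos.mpr h1)
      linarith

theorem isWall_cons_pos {v : Fin (n + 1) → E} {τ : Fin n → ℝ} {j : Fin n} {y : E} {s : ℝ}
    (h0 : 0 < s * ⟪v 0, y⟫) (hj : ⟪v j.succ, y⟫ = 0)
    (hk : ∀ k, k ≠ j → 0 < τ k * ⟪v k.succ, y⟫) : IsWall v (Fin.cons s τ) j.succ := by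
  refine ⟨y, hj, fun i hi => ?_⟩
  rcases Fin.eq_zero_or_eq_succ i with rfl | ⟨k, rfl⟩
  · rw [Fin.cons_zero]; exact h0
  · rw [Fin.cons_succ]
    exact hk k (fun h => hi (by rw [h]))

/-- adding a plane keeps a cell with at least five walls -/
theorem cut_step {v : Fin (n + 1) → E} (hs : Simple v) (hn : 2 ≤ n) {τ : Fin n → ℝ}
    (hτ : ∀ i, τ i ≠ 0) (hdeg : 5 ≤ deg (fun j => v j.succ) τ) :
    ∃ τ' : Fin (n + 1) → ℝ, (∀ i, τ' i ≠ 0) ∧ 5 ≤ deg v τ' := by
  classical
  have hcons0 : ∀ s : ℝ, s ≠ 0 → ∀ i, (Fin.cons s τ : Fin (n + 1) → ℝ) i ≠ 0 := by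
    intro s hs0 i
    rcases Fin.eq_zero_or_eq_succ i with rfl | ⟨k, rfl⟩
    · rw [Fin.cons_zero]; exact hs0
    · rw [Fin.cons_succ]; exact hτ k
  by_cases hcut : ∃ y₀ : E, ⟪v 0, y₀⟫ = 0 ∧ ∀ k, 0 < τ k * ⟪v k.succ, y₀⟫
  · obtain ⟨y₀, h0, hy₀⟩ := hcut
    obtain ⟨a, b, hab, ha, hb⟩ := two_crossed hs hn h0 hy₀
    let A : ℝ → Finset (Fin n) := fun s =>
      Finset.univ.filter (fun j : Fin n => IsWall v (Fin.cons s τ) j.succ)
    have hdegA : ∀ s : ℝ, deg v (Fin.cons s τ) = 1 + (A s).card := by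
      intro s
      rw [deg_succ, if_pos]
      refine ⟨y₀, h0, fun i hi => ?_⟩
      rcases Fin.eq_zero_or_eq_succ i with rfl | ⟨k, rfl⟩
      · exact absurd rfl hi
      · rw [Fin.cons_succ]; exact hy₀ k
    have hinter : 2 ≤ (A 1 ∩ A (-1)).card := by
      have : ({a, b} : Finset (Fin n)) ⊆ A 1 ∩ A (-1) := by
        intro x hx
        rw [Finset.mem_insert, Finset.mem_singleton] at hx
        rw [Finset.mem_inter, Finset.mem_filter, Finset.mem_filter]
        rcases hx with rfl | rfl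
        · exact ⟨⟨Finset.mem_univ _, ha 1 (by norm_num)⟩, Finset.mem_univ _, ha (-1) (by norm_num)⟩
        · exact ⟨⟨Finset.mem_univ _, hb 1 (by norm_num)⟩, Finset.mem_univ _, hb (-1) (by norm_num)⟩
      have h1 := Finset.card_le_card this
      rw [Finset.card_pair hab] at h1
      exact h1
    have hunion : 5 ≤ (A 1 ∪ A (-1)).card := by
      refine hdeg.trans ?_
      unfold deg
      refine Finset.card_le_card fun j hj => ?_
      rw [Finset.mem_filter] at hj
      obtain ⟨y, hy0, hy⟩ := hj.2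
      rw [Finset.mem_union, Finset.mem_filter, Finset.mem_filter]
      rcases lt_trichotomy (⟪v 0, y⟫) 0 with h | h | h
      · exact Or.inr ⟨Finset.mem_univ _, isWall_cons_pos (by linarith) hy0 hy⟩
      · exact Or.inl ⟨Finset.mem_univ _, moving hs hn h hy0 hy (by norm_num)⟩
      · exact Or.inl ⟨Finset.mem_univ _, isWall_cons_pos (by linarith) hy0 hy⟩
    have hsum := Finset.card_union_add_card_inter (A 1) (A (-1))
    by_cases h5 : 4 ≤ (A 1).card
    · refine ⟨Fin.cons 1 τ, hcons0 1 (by norm_num), ?_⟩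
      rw [hdegA]; omega
    · refine ⟨Fin.cons (-1) τ, hcons0 (-1) (by norm_num), ?_⟩
      rw [hdegA]; omega
  · push Not at hcut
    -- a point of the open cell
    have hpos : 0 < deg (fun j => v j.succ) τ := by omega
    unfold deg at hpos
    rw [Finset.card_pos] at hpos
    obtain ⟨i, hi⟩ := hpos
    rw [Finset.mem_filter] at hi
    obtain ⟨y, hy0, hy⟩ := hi.2
    obtain ⟨x, hx⟩ : ∃ x : E, ∀ k : Fin n, 0 < τ k * ⟪v k.succ, x⟫ := by
      have hvi : v i.succ ≠ 0 := hs.ne_zero (by omega) i.succ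
      have hvi' : 0 < ⟪v i.succ, v i.succ⟫ := real_inner_self_pos.mpr hvi
      have hev : ∀ᶠ δ in nhds (0 : ℝ), ∀ k : Fin n, k ≠ i →
          0 < τ k * ⟪v k.succ, y + δ • (τ i • v i.succ)⟫ := by
        rw [Filter.eventually_all]
        intro k
        by_cases hki : k = i
        · exact Filter.Eventually.of_forall fun _ h => absurd hki h
        · have hc : Continuous fun δ : ℝ => τ k * ⟪v k.succ, y + δ • (τ i • v i.succ)⟫ := by
            fun_prop
          have h1 : 0 < (fun δ : ℝ => τ k * ⟪v k.succ, y + δ • (τ i • v i.succ)⟫) 0 := by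
            simpa using hy k hki
          exact (hc.continuousAt.eventually_const_lt h1).mono fun δ h _ => h
      obtain ⟨δ, hδ, hδ0⟩ := ((hev.filter_mono nhdsWithin_le_nhds).and
        (self_mem_nhdsWithin : Set.Ioi (0 : ℝ) ∈ nhdsWithin 0 (Set.Ioi 0))).exists
      refine ⟨y + δ • (τ i • v i.succ), fun k => ?_⟩
      by_cases hki : k = i
      · subst hki
        rw [inner_add_right, inner_smul_right, inner_smul_right]
        change ⟪v k.succ, y⟫ = 0 at hy0
        rw [hy0]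
        have h1 : 0 < δ * ((τ k * τ k) * ⟪v k.succ, v k.succ⟫) :=
          mul_pos hδ0 (mul_pos (mul_self_pos.mpr (hτ k)) hvi')
        linarith
      · exact hδ k hki
    have hux : ⟪v 0, x⟫ ≠ 0 := by
      intro h
      obtain ⟨k, hk⟩ := hcut x h
      exact absurd (hx k) (not_lt.mpr hk)
    refine ⟨Fin.cons ⟪v 0, x⟫ τ, hcons0 _ hux, ?_⟩
    have hneg : ∀ (j : Fin n) (y : E), ⟪v j.succ, y⟫ = 0 →
        (∀ k, k ≠ j → 0 < τ k * ⟪v k.succ, y⟫) → ¬ (⟪v 0, x⟫ * ⟪v 0, y⟫ < 0) := by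
      intro j y hyj hyk hlt
      have h1 : ⟪v 0, |⟪v 0, x⟫| • y + |⟪v 0, y⟫| • x⟫ = 0 := by
        rw [inner_add_right, inner_smul_right, inner_smul_right]
        rcases mul_neg_iff.mp hlt with ⟨h2, h3⟩ | ⟨h2, h3⟩
        · rw [abs_of_pos h2, abs_of_neg h3]; ring
        · rw [abs_of_neg h2, abs_of_pos h3]; ring
      obtain ⟨k, hk⟩ := hcut _ h1
      apply absurd hk
      rw [not_le, inner_add_right, inner_smul_right, inner_smul_right]
      have h4 : 0 < |⟪v 0, x⟫| := abs_pos.mpr hux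
      have h5 : 0 < |⟪v 0, y⟫| := abs_pos.mpr (fun h => by rw [h, mul_zero] at hlt; exact lt_irrefl _ hlt)
      have h6 := mul_pos h5 (hx k)
      by_cases hkj : k = j
      · subst hkj
        rw [hyj]; linarith
      · have h7 := mul_pos h4 (hyk k hkj)
        linarith
    rw [deg_succ]
    have hle : deg (fun j => v j.succ) τ ≤ (Finset.univ.filter
        (fun j : Fin n => IsWall v (Fin.cons ⟪v 0, x⟫ τ) j.succ)).card := by
      unfold deg
      refine Finset.card_le_card fun j hj => ?_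
      rw [Finset.mem_filter] at hj ⊢
      refine ⟨hj.1, ?_⟩
      obtain ⟨y, hy0, hy⟩ := hj.2
      rcases lt_trichotomy (⟪v 0, x⟫ * ⟪v 0, y⟫) 0 with h | h | h
      · exact absurd h (hneg j y hy0 hy)
      · exact moving hs hn ((mul_eq_zero.mp h).resolve_left hux) hy0 hy hux
      · exact isWall_cons_pos h hy0 hy
    omega

theorem Simple.tail {v : Fin (n + 1) → E} (hs : Simple v) : Simple (fun j : Fin n => v j.succ) :=
  fun i j k hij hik hjk => hs i.succ j.succ k.succ (fun h => hij (Fin.succ_injective _ h))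
    (fun h => hik (Fin.succ_injective _ h)) (fun h => hjk (Fin.succ_injective _ h))

/-- every simple arrangement of at least five planes has a cell with at least five walls -/
theorem exists_five (n : ℕ) (hn : 5 ≤ n) : ∀ v : Fin n → E, Simple v →
    ∃ τ : Fin n → ℝ, (∀ i, τ i ≠ 0) ∧ 5 ≤ deg v τ := by
  induction n, hn using Nat.le_induction with
  | base => exact fun v hs => pentagon hs
  | succ n hn ih =>
    intro v hs
    obtain ⟨τ, hτ, hdeg⟩ := ih (fun j => v j.succ) hs.tail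
    exact cut_step hs (by omega) hτ hdeg

end Q148.GC
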