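import Mathlib

set_option autoImplicit false

/-!
Doubling a great circle: the walls of the cells of a simple arrangement of planes in `ℝ³`.
-/

namespace Q148.GC

open scoped RealInnerProductSpace

/-- three-dimensional Euclidean space -/
abbrev E := EuclideanSpace ℝ (Fin 3)

theorem finrank_E : Module.finrank ℝ E = 3 := by simp

/-- three vectors orthogonal to a nonzero vector are dependent -/
theorem dependent {v z₁ z₂ z₃ : E} (hv : v ≠ 0) (h₁ : ⟪v, z₁⟫ = 0) (h₂ : ⟪v, z₂⟫ = 0)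
    (h₃ : ⟪v, z₃⟫ = 0) :
    ∃ a b c : ℝ, a • z₁ + b • z₂ + c • z₃ = 0 ∧ ¬ (a = 0 ∧ b = 0 ∧ c = 0) := by
  have hnot : ¬ LinearIndependent ℝ ![v, z₁, z₂, z₃] := by
    intro h
    have := h.fintype_card_le_finrank
    rw [finrank_E] at this
    simp at this
  rw [Fintype.not_linearIndependent_iff] at hnot
  obtain ⟨g, hg, i, hi⟩ := hnot
  simp only [Fin.sum_univ_four, Matrix.cons_val_zero, Matrix.cons_val_one] at hg
  have hg' : g 0 • v + g 1 • z₁ + g 2 • z₂ + g 3 • z₃ = 0 := hg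
  have h0 : g 0 = 0 := by
    have := congrArg (fun x => ⟪v, x⟫) hg'
    simp only [inner_add_right, inner_smul_right, h₁, h₂, h₃, inner_zero_right, mul_zero,
      add_zero] at this
    rcases mul_eq_zero.mp this with h | h
    · exact h
    · exact absurd (inner_self_eq_zero.mp h) hv
  refine ⟨g 1, g 2, g 3, ?_, ?_⟩
  · rw [h0, zero_smul, zero_add] at hg'
    exact hg'
  · rintro ⟨h1, h2, h3⟩
    apply hi
    fin_cases i
    · exact h0
    · exact h1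
    · exact h2
    · exact h3

/-- a nonzero vector orthogonal to two given ones -/
theorem exists_orth (a b : E) : ∃ z : E, z ≠ 0 ∧ ⟪a, z⟫ = 0 ∧ ⟪b, z⟫ = 0 := by
  let T : E →ₗ[ℝ] (Fin 2 → ℝ) := LinearMap.pi ![(innerₛₗ ℝ a), (innerₛₗ ℝ b)]
  have hker : LinearMap.ker T ≠ ⊥ := LinearMap.ker_ne_bot_of_finrank_lt (by
    rw [finrank_E]; simp)
  obtain ⟨z, hz, hz0⟩ := Submodule.exists_mem_ne_zero_of_ne_bot hker
  rw [LinearMap.mem_ker] at hz
  refine ⟨z, hz0, ?_, ?_⟩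
  · have := congrFun hz 0
    simpa [T] using this
  · have := congrFun hz 1
    simpa [T] using this

/-- the common kernel of two orthogonal nonzero vectors orthogonal to `x₀` -/
theorem eq_smul {v w x₀ x : E} (hv : v ≠ 0) (hw : w ≠ 0) (hx₀ : x₀ ≠ 0) (h1 : ⟪v, x₀⟫ = 0)
    (h2 : ⟪w, x₀⟫ = 0) (h3 : ⟪v, w⟫ = 0) (hx1 : ⟪v, x⟫ = 0) (hx2 : ⟪w, x⟫ = 0) :
    ∃ c : ℝ, x = c • x₀ := by
  obtain ⟨a, b, c, h, hne⟩ := dependent hv hx1 h3 h1
  have hb : b = 0 := by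
    have := congrArg (fun y => ⟪w, y⟫) h
    simp only [inner_add_right, inner_smul_right, hx2, h2, inner_zero_right, mul_zero,
      add_zero, zero_add] at this
    rcases mul_eq_zero.mp this with h | h
    · exact h
    · exact absurd (inner_self_eq_zero.mp h) hw
  rw [hb, zero_smul, add_zero] at h
  have ha : a ≠ 0 := by
    intro ha
    rw [ha, zero_smul, zero_add] at h
    rcases smul_eq_zero.mp h with hc | hc
    · exact hne ⟨ha, hb, hc⟩
    · exact hx₀ hc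
  refine ⟨-(a⁻¹ * c), ?_⟩
  have : a • x = -(c • x₀) := by
    rw [eq_neg_iff_add_eq_zero]; exact h
  calc x = a⁻¹ • (a • x) := by rw [smul_smul, inv_mul_cancel₀ ha, one_smul]
    _ = -(a⁻¹ * c) • x₀ := by rw [this, smul_neg, smul_smul, neg_smul]

variable {n : ℕ}

/-- no nonzero point lies on three planes -/
def Simple (v : Fin n → E) : Prop :=
  ∀ i j k, i ≠ j → i ≠ k → j ≠ k → ∀ x, ⟪v i, x⟫ = 0 → ⟪v j, x⟫ = 0 → ⟪v k, x⟫ = 0 → x = 0

/-- the walls of the cell with signs `τ` -/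
def IsWall (v : Fin n → E) (τ : Fin n → ℝ) (i : Fin n) : Prop :=
  ∃ y : E, ⟪v i, y⟫ = 0 ∧ ∀ j, j ≠ i → 0 < τ j * ⟪v j, y⟫

open Classical in
/-- number of walls -/
noncomputable def deg (v : Fin n → E) (τ : Fin n → ℝ) : ℕ :=
  (Finset.univ.filter (IsWall v τ)).card

theorem isWall_neg (v : Fin n → E) (τ : Fin n → ℝ) (i : Fin n) :
    IsWall v (fun j => - τ j) i ↔ IsWall v τ i := by
  constructor
  · rintro ⟨y, h1, h2⟩
    refine ⟨-y, by rw [inner_neg_right, h1, neg_zero], fun j hj => ?_⟩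
    have := h2 j hj
    rw [inner_neg_right]; linarith
  · rintro ⟨y, h1, h2⟩
    refine ⟨-y, by rw [inner_neg_right, h1, neg_zero], fun j hj => ?_⟩
    have := h2 j hj
    rw [inner_neg_right]; linarith

theorem deg_neg (v : Fin n → E) (τ : Fin n → ℝ) : deg v (fun j => - τ j) = deg v τ := by
  unfold deg
  congr 1
  ext i
  simp only [Finset.mem_filter, Finset.mem_univ, true_and]
  exact isWall_neg v τ i

/-- the induction invariant: all cells have at most five walls, and some edge has two adjacent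
cells with at most four walls -/
structure Inv (v : Fin n → E) : Prop where
  simple : Simple v
  le_five : ∀ τ : Fin n → ℝ, (∀ i, τ i ≠ 0) → deg v τ ≤ 5
  edge : ∃ (L : Fin n) (x₀ : E), ⟪v L, x₀⟫ = 0 ∧ (∀ j, j ≠ L → ⟪v j, x₀⟫ ≠ 0) ∧
    ∀ τ : Fin n → ℝ, (∀ j, j ≠ L → 0 < τ j * ⟪v j, x₀⟫) → τ L ≠ 0 → deg v τ ≤ 4

/-- quantitative independence and dual vectors -/
theorem exists_const (v : Fin n → E) (hs : Simple v) {i j k : Fin n} (hij : i ≠ j) (hik : i ≠ k)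
    (hjk : j ≠ k) : (∃ K : ℝ, 0 < K ∧ ∀ x, ∀ m : ℝ, |⟪v i, x⟫| ≤ m → |⟪v j, x⟫| ≤ m →
      |⟪v k, x⟫| ≤ m → ‖x‖ ≤ K * m) ∧ ∃ d : E, ⟪v i, d⟫ = 1 ∧ ⟪v j, d⟫ = 0 := by
  let T : E →ₗ[ℝ] (Fin 3 → ℝ) :=
    LinearMap.pi ![(innerₛₗ ℝ (v i)), (innerₛₗ ℝ (v j)), (innerₛₗ ℝ (v k))]
  have hT0 : ∀ x, T x 0 = ⟪v i, x⟫ := fun x => by simp [T]
  have hT1 : ∀ x, T x 1 = ⟪v j, x⟫ := fun x => by simp [T]
  have hT2 : ∀ x, T x 2 = ⟪v k, x⟫ := fun x => by simp [T]
  have hker : LinearMap.ker T = ⊥ := by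
    rw [LinearMap.ker_eq_bot']
    intro x hx
    refine hs i j k hij hik hjk x ?_ ?_ ?_
    · rw [← hT0, hx]; rfl
    · rw [← hT1, hx]; rfl
    · rw [← hT2, hx]; rfl
  constructor
  · obtain ⟨K, hK, hanti⟩ := T.exists_antilipschitzWith hker
    refine ⟨K, by exact_mod_cast hK, fun x m h1 h2 h3 => ?_⟩
    have h4 := hanti.le_mul_dist x 0
    rw [map_zero, dist_zero_right, dist_zero_right] at h4
    refine h4.trans (mul_le_mul_of_nonneg_left ?_ K.2)
    rw [pi_norm_le_iff_of_nonneg ((abs_nonneg _).trans h1)]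
    intro l
    rw [Real.norm_eq_abs]
    fin_cases l
    · change |T x 0| ≤ m; rw [hT0]; exact h1
    · change |T x 1| ≤ m; rw [hT1]; exact h2
    · change |T x 2| ≤ m; rw [hT2]; exact h3
  · have hsurj : Function.Surjective T := by
      rw [← LinearMap.injective_iff_surjective_of_finrank_eq_finrank (by simp)]
      exact LinearMap.ker_eq_bot.mp hker
    obtain ⟨d, hd⟩ := hsurj ![1, 0, 0]
    refine ⟨d, ?_, ?_⟩
    · rw [← hT0, hd]; rfl
    · rw [← hT1, hd]; rfl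

/-- uniform constants -/
theorem exists_uniform (v : Fin n → E) (hs : Simple v) (hn : 3 ≤ n) (L : Fin n) (w : E) :
    ∃ (d : Fin n → E) (K C : ℝ), 1 ≤ K ∧ 1 ≤ C ∧
      (∀ k, k ≠ L → ⟪v L, d k⟫ = 1 ∧ ⟪v k, d k⟫ = 0) ∧
      (∀ j k, |⟪v j, d k⟫| ≤ C) ∧ (∀ k, |⟪w, d k⟫| ≤ C) ∧
      (∀ j k, j ≠ L → k ≠ L → j ≠ k → ∀ x, ∀ m : ℝ, |⟪v L, x⟫| ≤ m → |⟪v j, x⟫| ≤ m →
        |⟪v k, x⟫| ≤ m → ‖x‖ ≤ K * m) := by
  have hd : ∀ k, ∃ d : E, k ≠ L → ⟪v L, d⟫ = 1 ∧ ⟪v k, d⟫ = 0 := by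
    intro k
    by_cases hk : k = L
    · exact ⟨0, fun h => absurd hk h⟩
    · obtain ⟨j, hj⟩ : ∃ j, j ∉ ({L, k} : Finset (Fin n)) := by
        by_contra hcon
        push Not at hcon
        have h1 : (Finset.univ : Finset (Fin n)).card ≤ ({L, k} : Finset (Fin n)).card :=
          Finset.card_le_card fun x _ => hcon x
        rw [Finset.card_univ, Fintype.card_fin] at h1
        have h2 : ({L, k} : Finset (Fin n)).card ≤ 2 := Finset.card_le_two
        omega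
      simp only [Finset.mem_insert, Finset.mem_singleton, not_or] at hj
      obtain ⟨d, hd⟩ := (exists_const v hs (Ne.symm hk) (Ne.symm hj.1) (Ne.symm hj.2)).2
      exact ⟨d, fun _ => hd⟩
  choose d hd using hd
  have hK : ∀ p : Fin n × Fin n, ∃ K : ℝ, 0 ≤ K ∧ (p.1 ≠ L → p.2 ≠ L → p.1 ≠ p.2 → ∀ x,
      ∀ m : ℝ, |⟪v L, x⟫| ≤ m → |⟪v p.1, x⟫| ≤ m → |⟪v p.2, x⟫| ≤ m → ‖x‖ ≤ K * m) := by
    intro p
    by_cases h : p.1 ≠ L ∧ p.2 ≠ L ∧ p.1 ≠ p.2
    · obtain ⟨K, hK0, hK⟩ := (exists_const v hs h.1.symm h.2.1.symm h.2.2).1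
      exact ⟨K, hK0.le, fun _ _ _ => hK⟩
    · exact ⟨0, le_rfl, fun h1 h2 h3 => absurd ⟨h1, h2, h3⟩ h⟩
  choose K hK0 hK using hK
  refine ⟨d, 1 + ∑ p, K p, 1 + (∑ p : Fin n × Fin n, |⟪v p.1, d p.2⟫|) + ∑ k, |⟪w, d k⟫|,
    ?_, ?_, hd, ?_, ?_, ?_⟩
  · have : 0 ≤ ∑ p, K p := Finset.sum_nonneg fun p _ => hK0 p
    linarith
  · have h1 : 0 ≤ ∑ p : Fin n × Fin n, |⟪v p.1, d p.2⟫| :=
      Finset.sum_nonneg fun p _ => abs_nonneg _
    have h2 : 0 ≤ ∑ k, |⟪w, d k⟫| := Finset.sum_nonneg fun p _ => abs_nonneg _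
    linarith
  · intro j k
    have h1 : |⟪v j, d k⟫| ≤ ∑ p : Fin n × Fin n, |⟪v p.1, d p.2⟫| :=
      Finset.single_le_sum (f := fun p : Fin n × Fin n => |⟪v p.1, d p.2⟫|)
        (fun p _ => abs_nonneg _) (Finset.mem_univ (j, k))
    have h2 : 0 ≤ ∑ k, |⟪w, d k⟫| := Finset.sum_nonneg fun p _ => abs_nonneg _
    linarith
  · intro k
    have h1 : 0 ≤ ∑ p : Fin n × Fin n, |⟪v p.1, d p.2⟫| :=
      Finset.sum_nonneg fun p _ => abs_nonneg _
    have h2 : |⟪w, d k⟫| ≤ ∑ k, |⟪w, d k⟫| :=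
      Finset.single_le_sum (f := fun k => |⟪w, d k⟫|) (fun p _ => abs_nonneg _)
        (Finset.mem_univ k)
    linarith
  · intro j k hj hk hjk x m h1 h2 h3
    have h4 := hK (j, k) hj hk hjk x m h1 h2 h3
    refine h4.trans (mul_le_mul_of_nonneg_right ?_ ((abs_nonneg _).trans h1))
    have : K (j, k) ≤ ∑ p, K p := Finset.single_le_sum (fun p _ => hK0 p) (Finset.mem_univ (j, k))
    linarith

theorem same_sign {a b : ℝ} (h : |b - a| < |a|) : 0 < a * b := by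
  rcases lt_trichotomy a 0 with ha | ha | ha
  · rw [abs_of_neg ha, abs_lt] at h
    nlinarith [h.1, h.2]
  · rw [ha] at h; simp at h
    exact absurd h (not_lt.mpr (abs_nonneg b))
  · rw [abs_of_pos ha, abs_lt] at h
    nlinarith [h.1, h.2]

/-- a point close to the plane `L` can be moved onto it without changing the other signs -/
theorem push_to_plane {v : Fin n → E} {L : Fin n} {w : E} {d : Fin n → E} {K C ε : ℝ}
    (hn : 2 ≤ n) (hK : 1 ≤ K) (hC : 1 ≤ C)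
    (hd : ∀ k, k ≠ L → ⟪v L, d k⟫ = 1 ∧ ⟪v k, d k⟫ = 0)
    (hvC : ∀ j k, |⟪v j, d k⟫| ≤ C) (hwC : ∀ k, |⟪w, d k⟫| ≤ C)
    (hKK : ∀ j k, j ≠ L → k ≠ L → j ≠ k → ∀ x, ∀ m : ℝ, |⟪v L, x⟫| ≤ m → |⟪v j, x⟫| ≤ m →
        |⟪v k, x⟫| ≤ m → ‖x‖ ≤ K * m)
    (hε : 0 < ε) (hε1 : ε * C < 1) (hε2 : ε * ‖w‖ * C * K < 1) {x : E} (hx : x ≠ 0)
    (hxL : |⟪v L, x⟫| ≤ ε * |⟪w, x⟫|) :
    ∃ z : E, ⟪v L, z⟫ = 0 ∧ (∀ k, k ≠ L → ⟪v k, x⟫ ≠ 0 → 0 < ⟪v k, x⟫ * ⟪v k, z⟫) ∧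
      (∀ k, k ≠ L → ⟪v k, x⟫ = 0 → ⟪v k, z⟫ = 0) ∧
      (⟪w, x⟫ ≠ 0 → 0 < ⟪w, x⟫ * ⟪w, z⟫) := by
  have hxn : 0 < ‖x‖ := norm_pos_iff.mpr hx
  have hwx : |⟪w, x⟫| ≤ ‖w‖ * ‖x‖ := abs_real_inner_le_norm w x
  have hKpos : 0 < K := by linarith
  have hKinv : 0 < 1 / K := by positivity
  -- the pushing index
  obtain ⟨k, hkL, hk⟩ : ∃ k, k ≠ L ∧ ∀ j, j ≠ L → j ≠ k → ‖x‖ ≤ K * |⟪v j, x⟫| := by
    by_cases hall : ∀ j, j ≠ L → ‖x‖ ≤ K * |⟪v j, x⟫|
    · obtain ⟨k, hk⟩ : ∃ k : Fin n, k ≠ L := by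
        by_contra hcon
        push Not at hcon
        have h1 : (Finset.univ : Finset (Fin n)).card ≤ ({L} : Finset (Fin n)).card :=
          Finset.card_le_card fun x _ => Finset.mem_singleton.mpr (hcon x)
        simp at h1
        omega
      exact ⟨k, hk, fun j hj _ => hall j hj⟩
    · push Not at hall
      obtain ⟨k, hkL, hk⟩ := hall
      refine ⟨k, hkL, fun j hj hjk => ?_⟩
      by_contra hcon
      push Not at hcon
      -- m := max of the three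
      have h1 : |⟪v L, x⟫| * K < ‖x‖ := by
        have h2 : |⟪v L, x⟫| ≤ ε * (‖w‖ * ‖x‖) :=
          hxL.trans (mul_le_mul_of_nonneg_left hwx hε.le)
        have h3 : ε * ‖w‖ * K ≤ ε * ‖w‖ * C * K := by
          have : 0 ≤ ε * ‖w‖ * K := by positivity
          nlinarith
        calc |⟪v L, x⟫| * K ≤ ε * (‖w‖ * ‖x‖) * K := mul_le_mul_of_nonneg_right h2 hKpos.le
          _ = (ε * ‖w‖ * K) * ‖x‖ := by ring
          _ < 1 * ‖x‖ := mul_lt_mul_of_pos_right (by linarith) hxn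
          _ = ‖x‖ := one_mul _
      have h5 := hKK j k hj hkL hjk x (max |⟪v L, x⟫| (max |⟪v j, x⟫| |⟪v k, x⟫|))
        (le_max_left _ _) ((le_max_left _ _).trans (le_max_right _ _))
        ((le_max_right _ _).trans (le_max_right _ _))
      have h6 : K * max |⟪v L, x⟫| (max |⟪v j, x⟫| |⟪v k, x⟫|) < ‖x‖ := by
        rcases max_choice |⟪v L, x⟫| (max |⟪v j, x⟫| |⟪v k, x⟫|) with h | h
        · rw [h]; linarith
        · rw [h]
          rcases max_choice |⟪v j, x⟫| |⟪v k, x⟫| with h' | h'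
          · rw [h']; exact hcon
          · rw [h']; exact hk
      linarith
  have hdk := hd k hkL
  refine ⟨x - ⟪v L, x⟫ • d k, ?_, ?_, ?_, ?_⟩
  · rw [inner_sub_right, inner_smul_right, hdk.1]; ring
  · intro j hj hjx
    by_cases hjk : j = k
    · subst hjk
      rw [inner_sub_right, inner_smul_right, hdk.2, mul_zero, sub_zero]
      exact mul_self_pos.mpr hjx
    · apply same_sign
      rw [inner_sub_right, inner_smul_right]
      have e : ⟪v j, x⟫ - ⟪v L, x⟫ * ⟪v j, d k⟫ - ⟪v j, x⟫ = -(⟪v L, x⟫ * ⟪v j, d k⟫) := by ring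
      rw [e, abs_neg, abs_mul]
      have h1 : |⟪v L, x⟫| * |⟪v j, d k⟫| ≤ (ε * (‖w‖ * ‖x‖)) * C := by
        refine mul_le_mul (hxL.trans (mul_le_mul_of_nonneg_left hwx hε.le)) (hvC j k)
          (abs_nonneg _) (by positivity)
      have h2 := hk j hj hjk
      have h3 : (ε * (‖w‖ * ‖x‖)) * C * K < K * |⟪v j, x⟫| := by
        calc (ε * (‖w‖ * ‖x‖)) * C * K = (ε * ‖w‖ * C * K) * ‖x‖ := by ring
          _ < 1 * ‖x‖ := mul_lt_mul_of_pos_right hε2 hxn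
          _ ≤ _ := by rw [one_mul]; exact h2
      have h4 : (ε * (‖w‖ * ‖x‖)) * C < |⟪v j, x⟫| := by
        by_contra hcon
        push Not at hcon
        nlinarith
      linarith
  · intro j hj hjx
    have hjk : j = k := by
      by_contra hjk
      have := hk j hj hjk
      rw [hjx, abs_zero, mul_zero] at this
      linarith
    subst hjk
    rw [inner_sub_right, inner_smul_right, hdk.2, mul_zero, sub_zero, hjx]
  · intro hwne
    apply same_sign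
    rw [inner_sub_right, inner_smul_right]
    have e : ⟪w, x⟫ - ⟪v L, x⟫ * ⟪w, d k⟫ - ⟪w, x⟫ = -(⟪v L, x⟫ * ⟪w, d k⟫) := by ring
    rw [e, abs_neg, abs_mul]
    have hwpos : 0 < |⟪w, x⟫| := abs_pos.mpr hwne
    calc |⟪v L, x⟫| * |⟪w, d k⟫| ≤ (ε * |⟪w, x⟫|) * C :=
          mul_le_mul hxL (hwC k) (abs_nonneg _) (by positivity)
      _ = (ε * C) * |⟪w, x⟫| := by ring
      _ < 1 * |⟪w, x⟫| := mul_lt_mul_of_pos_right hε1 hwpos
      _ = |⟪w, x⟫| := one_mul _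

/-- rank two lemma: a cell of a line arrangement in a plane has at most two walls -/
theorem rank_two {v : E} (hv : v ≠ 0) {u : Fin 3 → E} {t : Fin 3 → ℝ} {z : Fin 3 → E}
    (hz : ∀ i, ⟪v, z i⟫ = 0) (h0 : ∀ i, ⟪u i, z i⟫ = 0)
    (hpos : ∀ i j, i ≠ j → 0 < t i * ⟪u i, z j⟫) : False := by
  obtain ⟨a, b, c, h, hne⟩ := dependent hv (hz 0) (hz 1) (hz 2)
  have key : ∀ i, a * (t i * ⟪u i, z 0⟫) + b * (t i * ⟪u i, z 1⟫) + c * (t i * ⟪u i, z 2⟫) = 0 := by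
    intro i
    have := congrArg (fun y => ⟪u i, y⟫) h
    simp only [inner_add_right, inner_smul_right, inner_zero_right] at this
    calc _ = t i * (a * ⟪u i, z 0⟫ + b * ⟪u i, z 1⟫ + c * ⟪u i, z 2⟫) := by ring
      _ = 0 := by rw [this, mul_zero]
  have k0 := key 0
  have k1 := key 1
  have k2 := key 2
  rw [h0 0, mul_zero, mul_zero, zero_add] at k0
  rw [h0 1, mul_zero, mul_zero, add_zero] at k1
  rw [h0 2, mul_zero, mul_zero, add_zero] at k2
  have p01 := hpos 0 1 (by decide)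
  have p02 := hpos 0 2 (by decide)
  have p10 := hpos 1 0 (by decide)
  have p12 := hpos 1 2 (by decide)
  have p20 := hpos 2 0 (by decide)
  have p21 := hpos 2 1 (by decide)
  -- signs
  have hb : b = 0 := by
    rcases lt_trichotomy b 0 with hb | hb | hb
    · have h1 : b * (t 0 * ⟪u 0, z 1⟫) < 0 := mul_neg_of_neg_of_pos hb p01
      have hc : 0 < c := by
        by_contra hc
        push Not at hc
        have : c * (t 0 * ⟪u 0, z 2⟫) ≤ 0 := mul_nonpos_of_nonpos_of_nonneg hc p02.le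
        linarith
      have h2 : b * (t 2 * ⟪u 2, z 1⟫) < 0 := mul_neg_of_neg_of_pos hb p21
      have ha : 0 < a := by
        by_contra ha
        push Not at ha
        have : a * (t 2 * ⟪u 2, z 0⟫) ≤ 0 := mul_nonpos_of_nonpos_of_nonneg ha p20.le
        linarith
      have h3 : 0 < a * (t 1 * ⟪u 1, z 0⟫) := mul_pos ha p10
      have h4 : 0 < c * (t 1 * ⟪u 1, z 2⟫) := mul_pos hc p12
      linarith
    · exact hb
    · have h1 : 0 < b * (t 0 * ⟪u 0, z 1⟫) := mul_pos hb p01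
      have hc : c < 0 := by
        by_contra hc
        push Not at hc
        have : 0 ≤ c * (t 0 * ⟪u 0, z 2⟫) := mul_nonneg hc p02.le
        linarith
      have h2 : 0 < b * (t 2 * ⟪u 2, z 1⟫) := mul_pos hb p21
      have ha : a < 0 := by
        by_contra ha
        push Not at ha
        have : 0 ≤ a * (t 2 * ⟪u 2, z 0⟫) := mul_nonneg ha p20.le
        linarith
      have h3 : a * (t 1 * ⟪u 1, z 0⟫) < 0 := mul_neg_of_neg_of_pos ha p10
      have h4 : c * (t 1 * ⟪u 1, z 2⟫) < 0 := mul_neg_of_neg_of_pos hc p12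
      linarith
  rw [hb, zero_mul, zero_add] at k0
  rw [hb, zero_mul, add_zero] at k2
  have hc : c = 0 := (mul_eq_zero.mp k0).resolve_right p02.ne'
  have ha : a = 0 := (mul_eq_zero.mp k2).resolve_right p20.ne'
  exact hne ⟨ha, hb, hc⟩

end Q148.GC
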