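import Pool.Agent.Q148.CirclePent
import Pool.Agent.Q148.CircleDefs

set_option autoImplicit false

/-!
Faces and sides of arrangements of great circles in terms of sign vectors.
-/

namespace Q148.GC

open scoped RealInnerProductSpace
open Set

variable {n : ℕ}

/-- a convex cone avoiding the origin meets the sphere in a preconnected set -/
theorem preconnected_cone {K : Set E} (hK : Convex ℝ K) (h0 : (0 : E) ∉ K)
    (hs : ∀ (c : ℝ) (x : E), 0 < c → x ∈ K → c • x ∈ K) :
    IsPreconnected {x : E | x ∈ Metric.sphere (0 : E) 1 ∧ x ∈ K} := by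
  have himg : {x : E | x ∈ Metric.sphere (0 : E) 1 ∧ x ∈ K} = (fun x : E => ‖x‖⁻¹ • x) '' K := by
    ext x
    simp only [Set.mem_ofPred_eq, mem_image, mem_sphere_zero_iff_norm]
    constructor
    · rintro ⟨h1, h2⟩
      exact ⟨x, h2, by rw [h1, inv_one, one_smul]⟩
    · rintro ⟨y, hy, rfl⟩
      have hy0 : y ≠ 0 := fun h => h0 (h ▸ hy)
      have hn : 0 < ‖y‖ := norm_pos_iff.mpr hy0
      refine ⟨?_, hs _ _ (inv_pos.mpr hn) hy⟩
      rw [norm_smul, norm_inv, norm_norm, inv_mul_cancel₀ hn.ne']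
  rw [himg]
  refine hK.isPreconnected.image _ ?_
  intro x hx
  have hx0 : x ≠ 0 := fun h => h0 (h ▸ hx)
  refine ContinuousAt.continuousWithinAt ?_
  exact (continuous_norm.continuousAt.inv₀ (norm_ne_zero_iff.mpr hx0)).smul continuousAt_id

/-- the circles -/
def circ (v : Fin n → E) (i : Fin n) : Set E :=
  {x | x ∈ Metric.sphere (0 : E) 1 ∧ ⟪v i, x⟫ = 0}

/-- the open cell with signs `τ` -/
def cell (v : Fin n → E) (τ : Fin n → ℝ) : Set E :=
  {x | x ∈ Metric.sphere (0 : E) 1 ∧ ∀ j, 0 < τ j * ⟪v j, x⟫}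

/-- the open edge on the `i`-th circle -/
def edg (v : Fin n → E) (τ : Fin n → ℝ) (i : Fin n) : Set E :=
  {x | x ∈ Metric.sphere (0 : E) 1 ∧ ⟪v i, x⟫ = 0 ∧ ∀ j, j ≠ i → 0 < τ j * ⟪v j, x⟫}

theorem cell_preconnected (hn : 1 ≤ n) (v : Fin n → E) (τ : Fin n → ℝ) :
    IsPreconnected (cell v τ) := by
  refine preconnected_cone (K := {x | ∀ j, 0 < τ j * ⟪v j, x⟫}) ?_ ?_ ?_
  · intro x hx y hy a b ha hb hab j
    rw [inner_add_right, inner_smul_right, inner_smul_right]
    have h1 := hx j
    have h2 := hy j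
    rcases ha.eq_or_lt with rfl | ha
    · have : b = 1 := by linarith
      rw [this]; linarith
    · have h3 := mul_pos ha h1
      have h4 := mul_nonneg hb h2.le
      linarith
  · intro h
    have := h ⟨0, hn⟩
    rw [inner_zero_right, mul_zero] at this
    exact lt_irrefl _ this
  · intro c x hc hx j
    rw [inner_smul_right]
    have := mul_pos hc (hx j)
    linarith

theorem edg_preconnected (hn : 2 ≤ n) (v : Fin n → E) (τ : Fin n → ℝ) (i : Fin n) :
    IsPreconnected (edg v τ i) := by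
  refine preconnected_cone (K := {x | ⟪v i, x⟫ = 0 ∧ ∀ j, j ≠ i → 0 < τ j * ⟪v j, x⟫}) ?_ ?_ ?_
  · intro x hx y hy a b ha hb hab
    refine ⟨?_, fun j hj => ?_⟩
    · rw [inner_add_right, inner_smul_right, inner_smul_right, hx.1, hy.1]; ring
    · rw [inner_add_right, inner_smul_right, inner_smul_right]
      have h1 := hx.2 j hj
      have h2 := hy.2 j hj
      rcases ha.eq_or_lt with rfl | ha
      · have : b = 1 := by linarith
        rw [this]; linarith
      · have h3 := mul_pos ha h1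
        have h4 := mul_nonneg hb h2.le
        linarith
  · intro h
    obtain ⟨j, hj⟩ : ∃ j : Fin n, j ≠ i := by
      by_cases h0 : i = ⟨0, by omega⟩
      · exact ⟨⟨1, by omega⟩, by rw [h0]; simp⟩
      · exact ⟨⟨0, by omega⟩, Ne.symm h0⟩
    have := h.2 j hj
    rw [inner_zero_right, mul_zero] at this
    exact lt_irrefl _ this
  · intro c x hc hx
    refine ⟨by rw [inner_smul_right, hx.1, mul_zero], fun j hj => ?_⟩
    rw [inner_smul_right]
    have := mul_pos hc (hx.2 j hj)
    linarith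

theorem mem_complement {v : Fin n → E} {x : E} :
    x ∈ Metric.sphere (0 : E) 1 \ ⋃ i, circ v i ↔
      x ∈ Metric.sphere (0 : E) 1 ∧ ∀ i, ⟪v i, x⟫ ≠ 0 := by
  simp only [Set.mem_sdiff, mem_iUnion, not_exists, circ, Set.mem_ofPred_eq, not_and]
  constructor
  · rintro ⟨h1, h2⟩; exact ⟨h1, fun i => h2 i h1⟩
  · rintro ⟨h1, h2⟩; exact ⟨h1, fun i _ => h2 i⟩

/-- the component of a point is its cell -/
theorem component_eq_cell (hn : 1 ≤ n) (v : Fin n → E) {x : E}
    (hx : x ∈ Metric.sphere (0 : E) 1 \ ⋃ i, circ v i) :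
    connectedComponentIn (Metric.sphere (0 : E) 1 \ ⋃ i, circ v i) x =
      cell v (fun j => ⟪v j, x⟫) := by
  have hx' := mem_complement.mp hx
  apply Subset.antisymm
  · intro y hy
    have hy' := mem_complement.mp (connectedComponentIn_subset _ _ hy)
    refine ⟨hy'.1, fun j => ?_⟩
    by_contra hcon
    push Not at hcon
    have hxc := mem_connectedComponentIn hx
    have hpre := isPreconnected_connectedComponentIn
      (F := Metric.sphere (0 : E) 1 \ ⋃ i, circ v i) (x := x)
    have hcont : ContinuousOn (fun z : E => ⟪v j, z⟫)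
        (connectedComponentIn (Metric.sphere (0 : E) 1 \ ⋃ i, circ v i) x) := by
      fun_prop
    have hz : (0 : ℝ) ∈ (fun z : E => ⟪v j, z⟫) ''
        (connectedComponentIn (Metric.sphere (0 : E) 1 \ ⋃ i, circ v i) x) := by
      rcases lt_or_gt_of_ne (hx'.2 j) with h | h
      · have hyp : 0 ≤ ⟪v j, y⟫ := by
          by_contra h2
          push Not at h2
          linarith [mul_pos_of_neg_of_neg h h2]
        exact hpre.intermediate_value hxc hy hcont ⟨h.le, hyp⟩
      · have hyp : ⟪v j, y⟫ ≤ 0 := by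
          by_contra h2
          push Not at h2
          linarith [mul_pos h h2]
        exact hpre.intermediate_value hy hxc hcont ⟨hyp, h.le⟩
    obtain ⟨z, hz1, hz2⟩ := hz
    exact (mem_complement.mp (connectedComponentIn_subset _ _ hz1)).2 j hz2
  · refine (cell_preconnected hn v _).subset_connectedComponentIn ?_ ?_
    · exact ⟨hx'.1, fun j => mul_self_pos.mpr (hx'.2 j)⟩
    · intro y hy
      rw [mem_complement]
      refine ⟨hy.1, fun i h0 => ?_⟩
      have := hy.2 i
      rw [h0, mul_zero] at this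
      exact lt_irrefl _ this

/-- the boundary without vertices is the union of the edges -/
theorem openBoundary_eq (v : Fin n → E) (τ : Fin n → ℝ)
    (hne : (cell v τ).Nonempty) : openBoundary (circ v) (cell v τ) = ⋃ i, edg v τ i := by
  obtain ⟨p, hp⟩ := hne
  ext x
  constructor
  · rintro ⟨⟨hcl, hnot⟩, hvert⟩
    have hclosed : IsClosed {x : E | x ∈ Metric.sphere (0 : E) 1 ∧ ∀ j, 0 ≤ τ j * ⟪v j, x⟫} := by
      have hc2 : IsClosed {x : E | ∀ j, 0 ≤ τ j * ⟪v j, x⟫} := by
        rw [show {x : E | ∀ j, 0 ≤ τ j * ⟪v j, x⟫} = ⋂ j, {x : E | 0 ≤ τ j * ⟪v j, x⟫} by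
          ext y; simp]
        refine isClosed_iInter fun j => ?_
        exact isClosed_le continuous_const (by fun_prop)
      exact Metric.isClosed_sphere.inter hc2
    have hsub : closure (cell v τ) ⊆
        {x : E | x ∈ Metric.sphere (0 : E) 1 ∧ ∀ j, 0 ≤ τ j * ⟪v j, x⟫} :=
      closure_minimal (fun y hy => ⟨hy.1, fun j => (hy.2 j).le⟩) hclosed
    obtain ⟨hxs, hxj⟩ := hsub hcl
    have hτ0 : ∀ j, τ j ≠ 0 := by
      intro j h0
      have := hp.2 j
      rw [h0, zero_mul] at this
      exact lt_irrefl _ this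
    obtain ⟨i, hi⟩ : ∃ i, ⟪v i, x⟫ = 0 := by
      by_contra hcon
      push Not at hcon
      exact hnot ⟨hxs, fun j => lt_of_le_of_ne (hxj j) (mul_ne_zero (hτ0 j) (hcon j)).symm⟩
    rw [mem_iUnion]
    refine ⟨i, hxs, hi, fun j hj => ?_⟩
    refine lt_of_le_of_ne (hxj j) (fun h => ?_)
    have h0 : ⟪v j, x⟫ = 0 := (mul_eq_zero.mp h.symm).resolve_left (hτ0 j)
    exact hvert ⟨i, j, hj.symm, ⟨hxs, hi⟩, ⟨hxs, h0⟩⟩
  · intro hx
    rw [mem_iUnion] at hx
    obtain ⟨i, hxs, hi, hj⟩ := hx
    have hxn : ‖x‖ = 1 := mem_sphere_zero_iff_norm.mp hxs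
    have hx0 : x ≠ 0 := by
      rintro rfl; rw [norm_zero] at hxn; norm_num at hxn
    refine ⟨⟨?_, ?_⟩, ?_⟩
    · -- in the closure
      let g : ℝ → E := fun t => ‖x + t • p‖⁻¹ • (x + t • p)
      have hg : ContinuousAt g 0 := by
        have h1 : ContinuousAt (fun t : ℝ => x + t • p) 0 := by fun_prop
        have h2 : ContinuousAt (fun t : ℝ => ‖x + t • p‖) 0 := by fun_prop
        refine (h2.inv₀ ?_).smul h1
        rw [zero_smul, add_zero, hxn]; norm_num
      have hg0 : g 0 = x := by simp [g, hxn]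
      have htend : Filter.Tendsto g (nhdsWithin 0 (Ioi 0)) (nhds x) := by
        have := hg.tendsto
        rw [hg0] at this
        exact this.mono_left nhdsWithin_le_nhds
      refine mem_closure_of_tendsto htend ?_
      filter_upwards [self_mem_nhdsWithin] with t ht
      have ht' : 0 < t := ht
      have hpos : ∀ j, 0 < τ j * ⟪v j, x + t • p⟫ := by
        intro j
        rw [inner_add_right, inner_smul_right]
        have h1 := mul_pos ht' (hp.2 j)
        by_cases hji : j = i
        · subst hji; rw [hi]; linarith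
        · have := hj j hji; linarith
      have hne : x + t • p ≠ 0 := by
        intro h
        have := hpos i
        rw [h, inner_zero_right, mul_zero] at this
        exact lt_irrefl _ this
      have hn : 0 < ‖x + t • p‖ := norm_pos_iff.mpr hne
      refine ⟨?_, fun j => ?_⟩
      · rw [mem_sphere_zero_iff_norm]
        simp only [g]
        rw [norm_smul, norm_inv, norm_norm, inv_mul_cancel₀ hn.ne']
      · simp only [g]
        rw [inner_smul_right]
        have := mul_pos (inv_pos.mpr hn) (hpos j)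
        linarith
    · intro hc
      have := hc.2 i
      rw [hi, mul_zero] at this
      exact lt_irrefl _ this
    · rintro ⟨a, b, hab, ha, hb⟩
      by_cases hai : a = i
      · have hbi : b ≠ i := fun h => hab (hai.trans h.symm)
        have := hj b hbi
        rw [hb.2, mul_zero] at this
        exact lt_irrefl _ this
      · have := hj a hai
        rw [ha.2, mul_zero] at this
        exact lt_irrefl _ this

/-- the component of a point of an edge is the edge -/
theorem component_eq_edg (hn : 2 ≤ n) (v : Fin n → E) (τ : Fin n → ℝ) {i : Fin n} {x : E}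
    (hx : x ∈ edg v τ i) : connectedComponentIn (⋃ i, edg v τ i) x = edg v τ i := by
  have hxU : x ∈ ⋃ i, edg v τ i := mem_iUnion.mpr ⟨i, hx⟩
  apply Subset.antisymm
  · have hpre := isPreconnected_connectedComponentIn (F := ⋃ i, edg v τ i) (x := x)
    rw [isPreconnected_iff_subset_of_disjoint] at hpre
    have hU : IsOpen {y : E | ∀ j, j ≠ i → 0 < τ j * ⟪v j, y⟫} := by
      rw [show {y : E | ∀ j, j ≠ i → 0 < τ j * ⟪v j, y⟫} =
        ⋂ j : Fin n, {y : E | j ≠ i → 0 < τ j * ⟪v j, y⟫} by ext y; simp]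
      refine isOpen_iInter_of_finite fun j => ?_
      by_cases hj : j = i
      · convert isOpen_univ
        ext y; simp [hj]
      · have : {y : E | j ≠ i → 0 < τ j * ⟪v j, y⟫} = {y : E | 0 < τ j * ⟪v j, y⟫} := by
          ext y; simp [hj]
        rw [this]
        exact isOpen_lt continuous_const (by fun_prop)
    have hV : IsOpen {y : E | 0 < τ i * ⟪v i, y⟫} := isOpen_lt continuous_const (by fun_prop)
    have hcov : connectedComponentIn (⋃ i, edg v τ i) x ⊆
        {y : E | ∀ j, j ≠ i → 0 < τ j * ⟪v j, y⟫} ∪ {y : E | 0 < τ i * ⟪v i, y⟫} := by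
      intro y hy
      obtain ⟨k, hk⟩ := mem_iUnion.mp (connectedComponentIn_subset _ _ hy)
      by_cases hki : k = i
      · subst hki; exact Or.inl hk.2.2
      · exact Or.inr (hk.2.2 i (Ne.symm hki))
    have hdis : connectedComponentIn (⋃ i, edg v τ i) x ∩
        ({y : E | ∀ j, j ≠ i → 0 < τ j * ⟪v j, y⟫} ∩ {y : E | 0 < τ i * ⟪v i, y⟫}) = ∅ := by
      rw [eq_empty_iff_forall_notMem]
      rintro y ⟨hy, h1, h2⟩
      obtain ⟨k, hk⟩ := mem_iUnion.mp (connectedComponentIn_subset _ _ hy)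
      by_cases hki : k = i
      · subst hki
        have h3 : 0 < τ k * ⟪v k, y⟫ := h2
        rw [hk.2.1, mul_zero] at h3
        exact lt_irrefl _ h3
      · have h3 : 0 < τ k * ⟪v k, y⟫ := h1 k hki
        rw [hk.2.1, mul_zero] at h3
        exact lt_irrefl _ h3
    rcases hpre _ _ hU hV hcov hdis with h | h
    · intro y hy
      obtain ⟨k, hk⟩ := mem_iUnion.mp (connectedComponentIn_subset _ _ hy)
      have h1 : ∀ j, j ≠ i → 0 < τ j * ⟪v j, y⟫ := h hy
      by_cases hki : k = i
      · subst hki; exact hk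
      · exfalso
        have := h1 k hki
        rw [hk.2.1, mul_zero] at this
        exact lt_irrefl _ this
    · exfalso
      have h1 : 0 < τ i * ⟪v i, x⟫ := h (mem_connectedComponentIn hxU)
      rw [hx.2.1, mul_zero] at h1
      exact lt_irrefl _ h1
  · exact (edg_preconnected hn v τ i).subset_connectedComponentIn hx
      (fun y hy => mem_iUnion.mpr ⟨i, hy⟩)

theorem edg_nonempty_iff (hn : 2 ≤ n) (v : Fin n → E) (τ : Fin n → ℝ) (i : Fin n) :
    (edg v τ i).Nonempty ↔ IsWall v τ i := by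
  constructor
  · rintro ⟨x, -, h1, h2⟩
    exact ⟨x, h1, h2⟩
  · rintro ⟨y, h1, h2⟩
    obtain ⟨j, hj⟩ : ∃ j : Fin n, j ≠ i := by
      by_cases h0 : i = ⟨0, by omega⟩
      · exact ⟨⟨1, by omega⟩, by rw [h0]; simp⟩
      · exact ⟨⟨0, by omega⟩, Ne.symm h0⟩
    have hy0 : y ≠ 0 := by
      rintro rfl
      have := h2 j hj
      rw [inner_zero_right, mul_zero] at this
      exact lt_irrefl _ this
    have hn : 0 < ‖y‖ := norm_pos_iff.mpr hy0
    refine ⟨‖y‖⁻¹ • y, ?_, ?_, fun k hk => ?_⟩
    · rw [mem_sphere_zero_iff_norm, norm_smul, norm_inv, norm_norm, inv_mul_cancel₀ hn.ne']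
    · rw [inner_smul_right, h1, mul_zero]
    · rw [inner_smul_right]
      have := mul_pos (inv_pos.mpr hn) (h2 k hk)
      linarith

/-- the number of sides of a cell is its number of walls -/
theorem encard_sides (hn : 2 ≤ n) (v : Fin n → E) (τ : Fin n → ℝ)
    (hne : (cell v τ).Nonempty) : (sides (circ v) (cell v τ)).encard = deg v τ := by
  classical
  have hset : sides (circ v) (cell v τ) =
      (fun i => edg v τ i) '' ((Finset.univ.filter (IsWall v τ) : Finset (Fin n)) : Set (Fin n)) := by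
    ext s
    unfold sides
    rw [openBoundary_eq v τ hne]
    constructor
    · rintro ⟨x, hx, rfl⟩
      obtain ⟨i, hi⟩ := mem_iUnion.mp hx
      refine ⟨i, ?_, (component_eq_edg hn v τ hi).symm⟩
      rw [Finset.coe_filter]
      exact ⟨Finset.mem_univ _, (edg_nonempty_iff hn v τ i).mp ⟨x, hi⟩⟩
    · rintro ⟨i, hi, rfl⟩
      rw [Finset.coe_filter] at hi
      obtain ⟨x, hx⟩ := (edg_nonempty_iff hn v τ i).mpr hi.2
      exact ⟨x, mem_iUnion.mpr ⟨i, hx⟩, (component_eq_edg hn v τ hx).symm⟩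
  rw [hset, InjOn.encard_image]
  · rw [Set.encard_coe_eq_coe_finsetCard]
    unfold deg
    rfl
  · intro i hi j hj hij
    by_contra hne'
    rw [Finset.coe_filter] at hi
    obtain ⟨x, hx⟩ := (edg_nonempty_iff hn v τ i).mpr hi.2
    have hx' : x ∈ edg v τ j := by
      have : edg v τ i = edg v τ j := hij
      rw [← this]; exact hx
    have := hx.2.2 j (Ne.symm hne')
    rw [hx'.2.1, mul_zero] at this
    exact lt_irrefl _ this

/-- simple families of vectors give simple arrangements -/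
theorem Simple.arrangement {v : Fin n → E} (hs : Simple v) (hn : 3 ≤ n) :
    IsSimpleArrangement (circ v) := by
  refine ⟨fun i => ⟨v i, hs.ne_zero hn i, rfl⟩, ?_, ?_⟩
  · intro i j hij
    by_contra hne
    obtain ⟨k, hki, hkj⟩ := exists_ne_two hn i j
    obtain ⟨z, hz, hzi, hzk⟩ := exists_orth (v i) (v k)
    have hzn : 0 < ‖z‖ := norm_pos_iff.mpr hz
    have hmem : ‖z‖⁻¹ • z ∈ circ v i := by
      refine ⟨?_, ?_⟩
      · rw [mem_sphere_zero_iff_norm, norm_smul, norm_inv, norm_norm, inv_mul_cancel₀ hzn.ne']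
      · rw [inner_smul_right, hzi, mul_zero]
    rw [hij] at hmem
    have h2 := hmem.2
    rw [inner_smul_right] at h2
    have h3 := (mul_eq_zero.mp h2).resolve_left (inv_ne_zero hzn.ne')
    exact hz (hs i j k hne hki.symm hkj.symm z hzi h3 hzk)
  · intro i j k hij hik hjk
    rw [eq_empty_iff_forall_notMem]
    rintro x ⟨⟨h1, h2⟩, h3⟩
    have hx := hs i j k hij hik hjk x h1.2 h2.2 h3.2
    have := mem_sphere_zero_iff_norm.mp h1.1
    rw [hx, norm_zero] at this
    norm_num at this

theorem arrangement_simple {C : Fin n → Set E} (h : IsSimpleArrangement C) :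
    ∃ v : Fin n → E, C = circ v ∧ Simple v := by
  choose v hv0 hv using h.great
  have hC : C = circ v := funext hv
  refine ⟨v, hC, ?_⟩
  intro i j k hij hik hjk x h1 h2 h3
  by_contra hx
  have hxn : 0 < ‖x‖ := norm_pos_iff.mpr hx
  have hmem : ∀ l, ⟪v l, x⟫ = 0 → ‖x‖⁻¹ • x ∈ C l := by
    intro l hl
    rw [hC]
    refine ⟨?_, ?_⟩
    · rw [mem_sphere_zero_iff_norm, norm_smul, norm_inv, norm_norm, inv_mul_cancel₀ hxn.ne']
    · rw [inner_smul_right, hl, mul_zero]
  have := h.simple i j k hij hik hjk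
  rw [eq_empty_iff_forall_notMem] at this
  exact this _ ⟨⟨hmem i h1, hmem j h2⟩, hmem k h3⟩

/-- all faces of some arrangement have at most five sides -/
theorem upper (n : ℕ) (hn : 3 ≤ n) : ∃ C : Fin n → Set E, IsSimpleArrangement C ∧
    ∀ F, IsFace C F → (sides C F).encard ≤ 5 := by
  obtain ⟨v, hv⟩ := exists_inv n hn
  refine ⟨circ v, hv.simple.arrangement hn, ?_⟩
  rintro F ⟨x, hx, rfl⟩
  have hx' := mem_complement.mp hx
  rw [component_eq_cell (by omega) v hx, encard_sides (by omega) v _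
    ⟨x, hx'.1, fun j => mul_self_pos.mpr (hx'.2 j)⟩]
  exact_mod_cast hv.le_five _ hx'.2

theorem exists_cell_point {v : Fin n → E} (hs : Simple v) (hn : 3 ≤ n) {τ : Fin n → ℝ}
    (hτ : ∀ i, τ i ≠ 0) (hdeg : 0 < deg v τ) : (cell v τ).Nonempty := by
  classical
  unfold deg at hdeg
  rw [Finset.card_pos] at hdeg
  obtain ⟨i, hi⟩ := hdeg
  rw [Finset.mem_filter] at hi
  obtain ⟨y, hy0, hy⟩ := hi.2
  have hvi : v i ≠ 0 := hs.ne_zero hn i
  have hvi' : 0 < ⟪v i, v i⟫ := real_inner_self_pos.mpr hvi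
  have hev : ∀ᶠ δ in nhds (0 : ℝ), ∀ k : Fin n, k ≠ i →
      0 < τ k * ⟪v k, y + δ • (τ i • v i)⟫ := by
    rw [Filter.eventually_all]
    intro k
    by_cases hki : k = i
    · exact Filter.Eventually.of_forall fun _ h => absurd hki h
    · have hc : Continuous fun δ : ℝ => τ k * ⟪v k, y + δ • (τ i • v i)⟫ := by
        fun_prop
      have h1 : 0 < (fun δ : ℝ => τ k * ⟪v k, y + δ • (τ i • v i)⟫) 0 := by
        simpa using hy k hki
      exact (hc.continuousAt.eventually_const_lt h1).mono fun δ h _ => h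
  obtain ⟨δ, hδ, hδ0⟩ := ((hev.filter_mono nhdsWithin_le_nhds).and
    (self_mem_nhdsWithin : Set.Ioi (0 : ℝ) ∈ nhdsWithin 0 (Set.Ioi 0))).exists
  set x := y + δ • (τ i • v i) with hx
  have hxk : ∀ k, 0 < τ k * ⟪v k, x⟫ := by
    intro k
    by_cases hki : k = i
    · subst hki
      rw [hx, inner_add_right, inner_smul_right, inner_smul_right, hy0]
      have h1 : 0 < δ * ((τ k * τ k) * ⟪v k, v k⟫) :=
        mul_pos hδ0 (mul_pos (mul_self_pos.mpr (hτ k)) hvi')
      linarith
    · exact hδ k hki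
  have hx0 : x ≠ 0 := by
    intro h
    have := hxk i
    rw [h, inner_zero_right, mul_zero] at this
    exact lt_irrefl _ this
  have hxn : 0 < ‖x‖ := norm_pos_iff.mpr hx0
  refine ⟨‖x‖⁻¹ • x, ?_, fun k => ?_⟩
  · rw [mem_sphere_zero_iff_norm, norm_smul, norm_inv, norm_norm, inv_mul_cancel₀ hxn.ne']
  · rw [inner_smul_right]
    have := mul_pos (inv_pos.mpr hxn) (hxk k)
    linarith

theorem deg_congr {v : Fin n → E} {τ σ : Fin n → ℝ} (h : ∀ j, 0 < τ j * σ j) :
    deg v τ = deg v σ := by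
  classical
  unfold deg
  congr 1
  ext i
  rw [Finset.mem_filter, Finset.mem_filter]
  have key : ∀ τ σ : Fin n → ℝ, (∀ j, 0 < τ j * σ j) → IsWall v τ i → IsWall v σ i := by
    rintro τ σ h ⟨y, h1, h2⟩
    refine ⟨y, h1, fun j hj => ?_⟩
    have h3 := mul_pos (h j) (h2 j hj)
    have h4 : (τ j * σ j) * (τ j * ⟪v j, y⟫) = (τ j * τ j) * (σ j * ⟪v j, y⟫) := by ring
    rw [h4] at h3
    exact pos_of_mul_pos_right h3 (mul_self_nonneg _)
  refine and_congr_right fun _ => ⟨key τ σ h, key σ τ fun j => by rw [mul_comm]; exact h j⟩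

/-- every arrangement has a face with at least five sides -/
theorem lower (n : ℕ) (hn : 5 ≤ n) (C : Fin n → Set E) (hC : IsSimpleArrangement C) :
    ∃ F, IsFace C F ∧ 5 ≤ (sides C F).encard := by
  obtain ⟨v, rfl, hs⟩ := arrangement_simple hC
  obtain ⟨τ, hτ, hdeg⟩ := exists_five n hn v hs
  obtain ⟨x, hx⟩ := exists_cell_point hs (by omega) hτ (by omega)
  have hx0 : ∀ i, ⟪v i, x⟫ ≠ 0 := by
    intro i h0
    have := hx.2 i
    rw [h0, mul_zero] at this
    exact lt_irrefl _ this
  have hxc : x ∈ Metric.sphere (0 : E) 1 \ ⋃ i, circ v i := mem_complement.mpr ⟨hx.1, hx0⟩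
  refine ⟨_, ⟨x, hxc, rfl⟩, ?_⟩
  rw [component_eq_cell (by omega) v hxc, encard_sides (by omega) v _
    ⟨x, hx.1, fun j => mul_self_pos.mpr (hx0 j)⟩]
  have : deg v (fun j => ⟪v j, x⟫) = deg v τ :=
    deg_congr fun j => by have := hx.2 j; linarith
  rw [this]
  exact_mod_cast hdeg

end Q148.GC
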