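import Pool.Agent.Q148.DChordDefs

namespace Q148.DChord

variable {n : ℕ}

/-- the `d`-closure with given family `H` of `(d+1)`-element sets -/
def cl (d : ℕ) (H : Family n) : Family n := {F | ∀ G ⊆ F, G.card = d + 1 → G ∈ H}

theorem cl_complex (d : ℕ) (H : Family n) : IsComplex (cl d H) := by
  intro F hF G hG K hK hc
  exact hF K (hK.trans hG) hc

theorem mem_cl_of_card_le {d : ℕ} {H : Family n} {F : Finset (Fin n)} (h : F.card ≤ d) :
    F ∈ cl d H := by
  intro G hG hc
  have := Finset.card_le_card hG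
  omega

theorem mem_cl_card {d : ℕ} {H : Family n} {F : Finset (Fin n)} (h : F.card = d + 1) :
    F ∈ cl d H ↔ F ∈ H := by
  constructor
  · intro hF; exact hF F subset_rfl h
  · intro hF G hG hc
    have : G = F := Finset.eq_of_subset_of_card_le hG (by omega)
    rwa [this]

theorem cl_isDClosure (d : ℕ) (H : Family n) : IsDClosure d (cl d H) := by
  refine ⟨cl_complex d H, ?_⟩
  ext F
  constructor
  · intro hF
    by_cases h : F.card ≤ d
    · exact Or.inl h
    · exact Or.inr ⟨by omega, fun G hG _ => cl_complex d H F hF G hG⟩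
  · rintro (h | ⟨_, h⟩)
    · exact mem_cl_of_card_le h
    · intro G hG hc
      exact (mem_cl_card hc).1 (h G hG hc)

theorem cl_empty (d : ℕ) : cl d (∅ : Family n) = skeleton d n := by
  ext F
  constructor
  · intro hF
    by_contra h
    have h' : d + 1 ≤ F.card := by
      have : ¬ F.card ≤ d := h
      omega
    obtain ⟨G, hG, hc⟩ := Finset.exists_subset_card_eq h'
    exact (hF G hG hc).elim
  · intro hF
    exact mem_cl_of_card_le hF

/-- the key step: if all members of `H` containing `E` lie in one set `T` of the closure -/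
theorem step {d : ℕ} {H : Family n} {E T : Finset (Fin n)} (hE : E.card = d) (hET : E ⊆ T)
    (hT : T ∈ cl d H) (hTc : d + 1 ≤ T.card)
    (hall : ∀ G ∈ H, E ⊆ G → G ⊆ T) :
    (IsSimplicial d (cl d H) E ∧ ¬ IsFacet (cl d H) E) ∧
      deletion (cl d H) E = cl d {G | G ∈ H ∧ ¬ E ⊆ G} := by
  have hEmem : E ∈ cl d H := mem_cl_of_card_le (by omega)
  have key : ∀ F ∈ cl d H, E ⊆ F → F ⊆ T := by
    intro F hF hEF x hx
    by_cases hxE : x ∈ E
    · exact hET hxE
    · have hsub : insert x E ⊆ F := Finset.insert_subset hx hEF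
      have hc : (insert x E).card = d + 1 := by rw [Finset.card_insert_of_notMem hxE, hE]
      exact hall _ (hF _ hsub hc) (Finset.subset_insert _ _) (Finset.mem_insert_self _ _)
  have hTfacet : IsFacet (cl d H) T :=
    ⟨hT, fun G hG hTG => Finset.Subset.antisymm (key G hG (hET.trans hTG)) hTG⟩
  refine ⟨⟨⟨⟨hEmem, T, ⟨hTfacet, hET⟩, ?_⟩, hE⟩, ?_⟩, ?_⟩
  · rintro G ⟨hG, hEG⟩
    exact (hG.2 T hT (key G hG.1 hEG)).symm
  · intro hf
    have := hf.2 T hT hET
    rw [this] at hTc
    omega
  · ext F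
    constructor
    · rintro ⟨hF, hnot⟩ G hG hc
      refine ⟨hF G hG hc, ?_⟩
      intro hEG
      apply hnot
      refine ⟨hEG.trans hG, ?_⟩
      intro hFE
      have h1 := Finset.card_le_card hFE
      have h2 := Finset.card_le_card hG
      omega
    · intro hF
      refine ⟨fun G hG hc => (hF G hG hc).1, ?_⟩
      rintro ⟨hEF, hFE⟩
      obtain ⟨x, hx, hxE⟩ := Finset.not_subset.1 hFE
      have hsub : insert x E ⊆ F := Finset.insert_subset hx hEF
      have hc : (insert x E).card = d + 1 := by rw [Finset.card_insert_of_notMem hxE, hE]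
      exact (hF _ hsub hc).2 (Finset.subset_insert _ _)

/-- every face lies in a facet -/
theorem exists_facet {Γ : Family n} {F : Finset (Fin n)} (hF : F ∈ Γ) :
    ∃ G, IsFacet Γ G ∧ F ⊆ G := by
  obtain ⟨G, hFG, hG⟩ := (Set.toFinite Γ).exists_le_maximal hF
  refine ⟨G, ⟨hG.1, ?_⟩, hFG⟩
  intro K hK hGK
  exact Finset.Subset.antisymm (hG.2 hK hGK) hGK

/-- a stuck closure -/
theorem stuck {d : ℕ} {H : Family n} (hH : ∀ G ∈ H, G.card = d + 1)
    (hst : ∀ E : Finset (Fin n), E.card = d → (∃ G ∈ H, E ⊆ G) →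
      ∃ G₁ ∈ H, ∃ G₂ ∈ H, E ⊆ G₁ ∧ E ⊆ G₂ ∧ ∃ K ⊆ G₁ ∪ G₂, K.card = d + 1 ∧ K ∉ H)
    (E : Finset (Fin n)) (hs : IsSimplicial d (cl d H) E) : IsFacet (cl d H) E := by
  obtain ⟨⟨hE, T, ⟨hT, hET⟩, huni⟩, hc⟩ := hs
  by_cases h : ∃ G ∈ H, E ⊆ G
  · exfalso
    obtain ⟨G₁, h1, G₂, h2, hE1, hE2, K, hK, hKc, hKH⟩ := hst E hc h
    have sub : ∀ G ∈ H, E ⊆ G → G ⊆ T := by
      intro G hG hEG
      obtain ⟨F, hF, hGF⟩ := exists_facet ((mem_cl_card (hH G hG)).2 hG)
      have := huni F ⟨hF, hEG.trans hGF⟩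
      rw [← this]; exact hGF
    have hKT : K ⊆ T := hK.trans (Finset.union_subset (sub _ h1 hE1) (sub _ h2 hE2))
    exact hKH (hT.1 K hKT hKc)
  · refine ⟨hE, ?_⟩
    intro F hF hEF
    by_contra hne
    obtain ⟨x, hx, hxE⟩ : ∃ x ∈ F, x ∉ E := by
      by_contra hcon
      push Not at hcon
      exact hne (Finset.Subset.antisymm hcon hEF)
    apply h
    refine ⟨insert x E, hF _ (Finset.insert_subset hx hEF) ?_, Finset.subset_insert _ _⟩
    rw [Finset.card_insert_of_notMem hxE, hc]

/-! ### the certificate -/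

/-- the set with given bit mask -/
def um (m : ℕ) : Finset (Fin 10) := Finset.univ.filter (fun i : Fin 10 => m.testBit i = true)

theorem mem_um {m : ℕ} {i : Fin 10} : i ∈ um m ↔ m.testBit i = true := by simp [um]

theorem um_subset {e m : ℕ} (h : m &&& e = e) : um e ⊆ um m := by
  intro i hi
  rw [mem_um] at hi ⊢
  rw [← h, Nat.testBit_and, Bool.and_eq_true] at hi
  exact hi.1

theorem and_of_um_subset {e m : ℕ} (he : e < 2 ^ 10) (h : um e ⊆ um m) : m &&& e = e := by
  apply Nat.eq_of_testBit_eq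
  intro i
  rw [Nat.testBit_and]
  by_cases hi : i < 10
  · by_cases hb : e.testBit i = true
    · have : (⟨i, hi⟩ : Fin 10) ∈ um e := by rw [mem_um]; exact hb
      have h2 := h this
      rw [mem_um] at h2
      simp only at h2
      rw [h2, hb]; rfl
    · simp at hb
      rw [hb]; simp
  · have : e.testBit i = false := by
      apply Nat.testBit_eq_false_of_lt
      calc e < 2 ^ 10 := he
        _ ≤ 2 ^ i := Nat.pow_le_pow_right (by norm_num) (by omega)
    rw [this]; simp

theorem um_inj {e m : ℕ} (he : e < 2 ^ 10) (hm : m < 2 ^ 10) (h : um e = um m) : e = m := by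
  have h1 := and_of_um_subset he h.le
  have h2 := and_of_um_subset hm h.ge
  rw [← h1, Nat.and_comm]; exact h2

/-- the family with given list of masks -/
def fam (L : List ℕ) : Family 10 := {G | ∃ m ∈ L, G = um m}

/-- check of an elementary step with facet `t` of size four -/
def okStep (L : List ℕ) (e t : ℕ) : Bool :=
  decide (e < 1024) && (t &&& e == e) && L.contains t && L.all (fun m => m == t || !(m &&& e == e))

/-- run the collapse -/
def run : List ℕ → List (ℕ × ℕ) → Bool
  | L, [] => L.isEmpty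
  | L, (e, t) :: s => okStep L e t && run (L.erase t) s

theorem run_chordal : ∀ (s : List (ℕ × ℕ)) (L : List ℕ), L.Nodup → (∀ m ∈ L, m < 2 ^ 10) →
    (∀ m ∈ L, (um m).card = 4) → (∀ p ∈ s, (um p.1).card = 3) → run L s = true →
    ∃ Q : List (Finset (Fin 10)), SimplicialOrder 3 (cl 3 (fam L)) Q := by
  intro s
  induction s with
  | nil =>
    intro L _ _ _ _ h
    have hL : L = [] := by simpa [run] using h
    subst hL
    refine ⟨[], ?_⟩
    have : fam [] = ∅ := by ext G; simp [fam]
    rw [this]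
    exact cl_empty 3
  | cons p s ih =>
    obtain ⟨e, t⟩ := p
    intro L hnd hlt h4 h3 h
    simp only [run, okStep, Bool.and_eq_true, decide_eq_true_eq, beq_iff_eq, List.contains_iff_mem,
      List.all_eq_true, Bool.or_eq_true, Bool.not_eq_true', beq_eq_false_iff_ne] at h
    obtain ⟨⟨⟨⟨he, hte⟩, htL⟩, hall⟩, hrun⟩ := h
    have hE3 : (um e).card = 3 := h3 (e, t) (by simp)
    have hT4 : (um t).card = 4 := h4 t htL
    have hst := step (d := 3) (H := fam L) (E := um e) (T := um t) hE3 (um_subset hte)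
      ((mem_cl_card (d := 3) (by rw [hT4])).2 ⟨t, htL, rfl⟩) (by rw [hT4])
      (by
        rintro G ⟨m, hm, rfl⟩ hsub
        rcases hall m hm with h | h
        · rw [h]
        · exact absurd (and_of_um_subset he hsub) h)
    have hfam : {G | G ∈ fam L ∧ ¬ um e ⊆ G} = fam (L.erase t) := by
      ext G
      constructor
      · rintro ⟨⟨m, hm, rfl⟩, hne⟩
        refine ⟨m, ?_, rfl⟩
        rw [hnd.mem_erase_iff]
        refine ⟨?_, hm⟩
        rintro rfl
        exact hne (um_subset hte)
      · rintro ⟨m, hm, rfl⟩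
        rw [hnd.mem_erase_iff] at hm
        refine ⟨⟨m, hm.2, rfl⟩, ?_⟩
        intro hsub
        rcases hall m hm.2 with h | h
        · exact hm.1 h
        · exact h (and_of_um_subset he hsub)
    obtain ⟨Q, hQ⟩ := ih (L.erase t) (hnd.erase t)
      (fun m hm => hlt m (List.mem_of_mem_erase hm)) (fun m hm => h4 m (List.mem_of_mem_erase hm))
      (fun p hp => h3 p (List.mem_cons_of_mem _ hp)) hrun
    refine ⟨um e :: Q, hst.1, ?_⟩
    rw [hst.2, hfam]
    exact hQ

end Q148.DChord
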