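import Mathlib

/-!
Simplicial complexes on the vertex set `Fin n` as families of finite sets, `d`-closures,
simplicial faces, deletions and `d`-chordality.
-/

namespace Q148.DChord

/-- A family of subsets of the vertex set `{0, ..., n-1}`. -/
abbrev Family (n : ℕ) := Set (Finset (Fin n))

variable {n : ℕ}

/-- A simplicial complex: a family of subsets closed under taking subsets. -/
def IsComplex (Γ : Family n) : Prop := ∀ F ∈ Γ, ∀ G ⊆ F, G ∈ Γ

/-- The family of all sets with at most `d` elements. -/
def skeleton (d n : ℕ) : Family n := {F | F.card ≤ d}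

/-- The `d`-closure of a family: all sets with at most `d` elements, and those larger sets all of
whose `(d+1)`-element subsets lie in the family. -/
def dClosure (d : ℕ) (Γ : Family n) : Family n :=
  {F | F.card ≤ d ∨ (d + 1 ≤ F.card ∧ ∀ G ⊆ F, G.card = d + 1 → G ∈ Γ)}

/-- A `d`-closure: a simplicial complex which is equal to its own `d`-closure. -/
def IsDClosure (d : ℕ) (Γ : Family n) : Prop := IsComplex Γ ∧ Γ = dClosure d Γ

/-- Facets: inclusion-maximal faces. -/
def IsFacet (Γ : Family n) (F : Finset (Fin n)) : Prop := F ∈ Γ ∧ ∀ G ∈ Γ, F ⊆ G → G = F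

/-- Free faces: faces lying in exactly one facet. -/
def IsFree (Γ : Family n) (F : Finset (Fin n)) : Prop := F ∈ Γ ∧ ∃! G, IsFacet Γ G ∧ F ⊆ G

/-- Simplicial faces: free faces of dimension `d - 1`, that is with `d` elements. -/
def IsSimplicial (d : ℕ) (Γ : Family n) (E : Finset (Fin n)) : Prop := IsFree Γ E ∧ E.card = d

/-- The deletion: remove every face that strictly contains `E`. -/
def deletion (Γ : Family n) (E : Finset (Fin n)) : Family n := {F | F ∈ Γ ∧ ¬ E ⊂ F}

/-- A simplicial order (the empty list for the family `skeleton d n` itself): each member of the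
list is simplicial and not a facet in the complex obtained so far, and the deletions end with
`skeleton d n`. -/
def SimplicialOrder (d : ℕ) : Family n → List (Finset (Fin n)) → Prop
  | Γ, [] => Γ = skeleton d n
  | Γ, E :: L => (IsSimplicial d Γ E ∧ ¬ IsFacet Γ E) ∧ SimplicialOrder d (deletion Γ E) L

/-- `d`-chordal: a `d`-closure that is `skeleton d n` or admits a simplicial order. -/
def IsDChordal (d : ℕ) (Γ : Family n) : Prop :=
  IsDClosure d Γ ∧ ∃ L : List (Finset (Fin n)), SimplicialOrder d Γ L

end Q148.DChord
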