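import Pool.Agent.Q148.DChordCert

set_option maxRecDepth 100000

namespace Q148.DChord

/-- the suspension of the dunce hat with eight vertices -/
def L0 : List ℕ := [275, 323, 387, 269, 277, 293, 297, 449, 270, 294, 326, 394, 306, 340, 424, 432,
  464, 531, 579, 643, 525, 533, 549, 553, 705, 526, 550, 582, 650, 562, 596, 680, 688, 720]

/-- two more sets, which complete a simplex with five vertices -/
def L1 : List ℕ := L0 ++ [195, 450]

/-- after the first good deletion -/
def L2 : List ℕ := [275, 323, 269, 277, 293, 297, 270, 294, 326, 394, 306, 340, 424, 432, 464, 531,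
  579, 643, 525, 533, 549, 553, 705, 526, 550, 582, 650, 562, 596, 680, 688, 720, 195, 450]

/-- the remaining good deletions -/
def good : List (ℕ × ℕ) := [(321, 323), (259, 275), (273, 277), (19, 531), (276, 340), (84, 596),
  (592, 720), (704, 705), (577, 579), (67, 195), (131, 643), (336, 464), (400, 432), (194, 450),
  (322, 326), (416, 424), (529, 533), (580, 582), (530, 562), (304, 306), (546, 550), (560, 688),
  (290, 294), (548, 549), (168, 680), (392, 394), (138, 650), (545, 553), (296, 297), (265, 269),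
  (518, 526), (268, 270), (292, 293), (521, 525)]

theorem good_run : run L2 good = true := by decide +kernel

theorem L2_nodup : L2.Nodup := by decide +kernel

theorem L1_lt : ∀ m ∈ L1, m < 2 ^ 10 := by decide +kernel

theorem L1_card : ∀ m ∈ L1, (um m).card = 4 := by decide +kernel

theorem L2_sub : ∀ m ∈ L2, m ∈ L1 := by decide +kernel

theorem good_card : ∀ p ∈ good, (um p.1).card = 3 := by decide +kernel

theorem L2_chordal : ∃ Q : List (Finset (Fin 10)), SimplicialOrder 3 (cl 3 (fam L2)) Q :=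
  run_chordal good L2 L2_nodup (fun m hm => L1_lt m (L2_sub m hm))
    (fun m hm => L1_card m (L2_sub m hm)) good_card good_run

theorem top_sub : ∀ G ∈ (um 451).powersetCard 4, ∃ m ∈ L1, G = um m := by decide +kernel

theorem top_mem : um 451 ∈ cl 3 (fam L1) := by
  intro G hG hc
  exact top_sub G (Finset.mem_powersetCard.2 ⟨hG, hc⟩)

theorem top_card : (um 451).card = 5 := by decide +kernel

/-- one deletion inside the simplex with five vertices -/
theorem top_step (e : ℕ) (L : List ℕ) (he : e < 2 ^ 10) (hc : (um e).card = 3)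
    (hsub : 451 &&& e = e) (hall : ∀ m ∈ L1, m &&& e = e → um m ⊆ um 451)
    (hL : ∀ m, m ∈ L ↔ m ∈ L1 ∧ ¬ m &&& e = e) :
    (IsSimplicial 3 (cl 3 (fam L1)) (um e) ∧ ¬ IsFacet (cl 3 (fam L1)) (um e)) ∧
      deletion (cl 3 (fam L1)) (um e) = cl 3 (fam L) := by
  have h := step (d := 3) (H := fam L1) (E := um e) (T := um 451) hc (um_subset hsub) top_mem
    (by rw [top_card]; norm_num)
    (by
      rintro G ⟨m, hm, rfl⟩ hs
      exact hall m hm (and_of_um_subset he hs))
  refine ⟨h.1, ?_⟩
  rw [h.2]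
  congr 1
  ext G
  constructor
  · rintro ⟨⟨m, hm, rfl⟩, hne⟩
    exact ⟨m, (hL m).2 ⟨hm, fun hh => hne (um_subset hh)⟩, rfl⟩
  · rintro ⟨m, hm, rfl⟩
    have := (hL m).1 hm
    exact ⟨⟨m, this.1, rfl⟩, fun hh => this.2 (and_of_um_subset he hh)⟩

theorem L2_eq : L2 = L1.filter (fun m => !(m &&& 385 == 385)) := by decide +kernel

theorem L0_eq : L0 = L1.filter (fun m => !(m &&& 194 == 194)) := by decide +kernel

theorem first_good :
    (IsSimplicial 3 (cl 3 (fam L1)) (um 385) ∧ ¬ IsFacet (cl 3 (fam L1)) (um 385)) ∧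
      deletion (cl 3 (fam L1)) (um 385) = cl 3 (fam L2) := by
  apply top_step 385 L2 (by norm_num) (by decide +kernel) (by decide +kernel) (by decide +kernel)
  intro m
  rw [L2_eq, List.mem_filter]
  simp

theorem first_bad :
    (IsSimplicial 3 (cl 3 (fam L1)) (um 194) ∧ ¬ IsFacet (cl 3 (fam L1)) (um 194)) ∧
      deletion (cl 3 (fam L1)) (um 194) = cl 3 (fam L0) := by
  apply top_step 194 L0 (by norm_num) (by decide +kernel) (by decide +kernel) (by decide +kernel)
  intro m
  rw [L0_eq, List.mem_filter]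
  simp

theorem L1_chordal : IsDChordal 3 (cl 3 (fam L1)) := by
  refine ⟨cl_isDClosure _ _, ?_⟩
  obtain ⟨Q, hQ⟩ := L2_chordal
  refine ⟨um 385 :: Q, first_good.1, ?_⟩
  rw [first_good.2]
  exact hQ

/-- the test that the suspension is stuck -/
theorem stuck_test : ∀ m ∈ L0, ∀ i : Fin 10, m.testBit i = true →
    ∃ m₂ ∈ L0, m₂ &&& (m ^^^ 2 ^ (i : ℕ)) = m ^^^ 2 ^ (i : ℕ) ∧
      ∃ j : Fin 10, (m ||| m₂).testBit j = true ∧ (m ||| m₂) ^^^ 2 ^ (j : ℕ) ∉ L0 ∧
        (um ((m ||| m₂) ^^^ 2 ^ (j : ℕ))).card = 4 := by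
  decide +kernel

end Q148.DChord
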