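import Pool.Agent.Q148.DChordEx

namespace Q148.DChord

theorem um_xor {m : ℕ} {i : Fin 10} (hi : m.testBit i = true) :
    um (m ^^^ 2 ^ (i : ℕ)) = (um m).erase i := by
  ext j
  rw [Finset.mem_erase, mem_um, mem_um, Nat.testBit_xor, Nat.testBit_two_pow]
  by_cases h : i = j
  · subst h; simp [hi]
  · have h' : ¬ ((i : ℕ) = (j : ℕ)) := fun hh => h (Fin.ext hh)
    have h'' : j ≠ i := fun hh => h hh.symm
    simp [h', h'']

theorem um_or (m m' : ℕ) : um (m ||| m') = um m ∪ um m' := by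
  ext j
  rw [Finset.mem_union, mem_um, mem_um, mem_um, Nat.testBit_or, Bool.or_eq_true]

theorem L0_lt : ∀ m ∈ L0, m < 2 ^ 10 := fun m hm => L1_lt m (List.mem_append_left _ hm)

theorem L0_card : ∀ m ∈ L0, (um m).card = 4 := fun m hm => L1_card m (List.mem_append_left _ hm)

theorem susp_stuck (E : Finset (Fin 10)) (hs : IsSimplicial 3 (cl 3 (fam L0)) E) :
    IsFacet (cl 3 (fam L0)) E := by
  refine stuck (d := 3) (H := fam L0) ?_ ?_ E hs
  · rintro G ⟨m, hm, rfl⟩
    exact L0_card m hm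
  · rintro E hE ⟨_, ⟨m, hm, rfl⟩, hEm⟩
    have hcard := L0_card m hm
    obtain ⟨i, hi, hEi⟩ : ∃ i ∈ um m, E = (um m).erase i := by
      have hne : ∃ i ∈ um m, i ∉ E := by
        by_contra hcon
        push Not at hcon
        have := Finset.card_le_card (fun x hx => hcon x hx : um m ⊆ E)
        omega
      obtain ⟨i, hi, hiE⟩ := hne
      refine ⟨i, hi, Finset.eq_of_subset_of_card_le ?_ ?_⟩
      · intro x hx
        rw [Finset.mem_erase]
        exact ⟨fun h => hiE (h ▸ hx), hEm hx⟩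
      · rw [Finset.card_erase_of_mem hi, hcard, hE]
    have hib := mem_um.1 hi
    obtain ⟨m₂, hm₂, hsub, j, hj, hnot, hc⟩ := stuck_test m hm i hib
    refine ⟨um m, ⟨m, hm, rfl⟩, um m₂, ⟨m₂, hm₂, rfl⟩, hEm, ?_, um ((m ||| m₂) ^^^ 2 ^ (j : ℕ)), ?_,
      hc, ?_⟩
    · rw [hEi, ← um_xor hib]
      exact um_subset hsub
    · rw [um_xor hj, ← um_or]
      exact Finset.erase_subset _ _
    · rintro ⟨m', hm', he⟩
      have hlt : (m ||| m₂) ^^^ 2 ^ (j : ℕ) < 2 ^ 10 := by
        apply Nat.xor_lt_two_pow (Nat.or_lt_two_pow (L0_lt m hm) (L0_lt m₂ hm₂))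
        exact Nat.pow_lt_pow_right (by norm_num) j.2
      have := um_inj hlt (L0_lt m' hm') he
      rw [this] at hnot
      exact hnot hm'

theorem susp_not_skeleton : cl 3 (fam L0) ≠ skeleton 3 10 := by
  intro h
  have h1 : um 275 ∈ cl 3 (fam L0) :=
    (mem_cl_card (d := 3) (L0_card 275 (by decide +kernel))).2 ⟨275, by decide +kernel, rfl⟩
  rw [h] at h1
  have h2 : (um 275).card ≤ 3 := h1
  rw [L0_card 275 (by decide +kernel)] at h2
  omega

theorem susp_not_chordal : ¬ IsDChordal 3 (cl 3 (fam L0)) := by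
  rintro ⟨_, Q, hQ⟩
  cases Q with
  | nil => exact susp_not_skeleton hQ
  | cons E Q => exact hQ.1.2 (susp_stuck E hQ.1.1)

end Q148.DChord
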