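import Mathlib

set_option autoImplicit false
set_option linter.unusedSectionVars false

open Finset

namespace Q148.Game

variable {I J E : Type} [Fintype I] [Fintype J] [Fintype E] [DecidableEq I] [DecidableEq J]
  [DecidableEq E]

/-- The payoff of the covering game. -/
noncomputable def pay (A : E → Finset I) (p : I → ℝ) (w : E → ℝ) : ℝ :=
  ∑ i, ∑ e, p i * w e * (if i ∈ A e then (1 : ℝ) else 0)

theorem pay_left (A : E → Finset I) (w : E → ℝ) :
    IsLinearMap ℝ (fun p => pay A p w) := by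
  constructor
  · intro x y
    simp only [pay, Pi.add_apply, ← Finset.sum_add_distrib]
    refine Finset.sum_congr rfl fun i _ => Finset.sum_congr rfl fun e _ => by ring
  · intro c x
    simp only [pay, Pi.smul_apply, smul_eq_mul, Finset.mul_sum]
    refine Finset.sum_congr rfl fun i _ => Finset.sum_congr rfl fun e _ => by ring

theorem pay_right (A : E → Finset I) (p : I → ℝ) :
    IsLinearMap ℝ (fun w => pay A p w) := by
  constructor
  · intro x y
    simp only [pay, Pi.add_apply, ← Finset.sum_add_distrib]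
    refine Finset.sum_congr rfl fun i _ => Finset.sum_congr rfl fun e _ => by ring
  · intro c x
    simp only [pay, Pi.smul_apply, smul_eq_mul, Finset.mul_sum]
    refine Finset.sum_congr rfl fun i _ => Finset.sum_congr rfl fun e _ => by ring

theorem pay_single_right (A : E → Finset I) (p : I → ℝ) (e : E) :
    pay A p (Pi.single e 1) = ∑ i ∈ A e, p i := by
  unfold pay
  have : ∀ i, ∑ e', p i * (Pi.single e (1 : ℝ) : E → ℝ) e' * (if i ∈ A e' then (1 : ℝ) else 0) =
      if i ∈ A e then p i else 0 := by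
    intro i
    rw [Finset.sum_eq_single e]
    · simp
    · intro b _ hb
      simp [hb]
    · simp
  simp only [this]
  rw [Finset.sum_ite_mem]
  simp

theorem pay_single_left (A : E → Finset I) (w : E → ℝ) (i : I) :
    pay A (Pi.single i 1) w = ∑ e, if i ∈ A e then w e else 0 := by
  unfold pay
  rw [Finset.sum_eq_single i]
  · refine Finset.sum_congr rfl fun e _ => ?_
    simp
  · intro b _ hb
    refine Finset.sum_eq_zero fun e _ => ?_
    simp [hb]
  · simp

theorem minimax (A : E → Finset I) [Nonempty I] [Nonempty E] :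
    ∃ (t : ℝ) (p : I → ℝ) (w : E → ℝ), (∀ i, 0 ≤ p i) ∧ ∑ i, p i = 1 ∧ (∀ e, 0 ≤ w e) ∧
      ∑ e, w e = 1 ∧ (∀ e, ∑ i ∈ A e, p i ≤ t) ∧
      (∀ i, t ≤ ∑ e, if i ∈ A e then w e else 0) := by
  have hc1 : ∀ w : E → ℝ, Continuous (fun p => pay A p w) := fun w =>
    (IsLinearMap.mk' _ (pay_left A w)).continuous_of_finiteDimensional
  have hc2 : ∀ p : I → ℝ, Continuous (fun w => pay A p w) := fun p =>
    (IsLinearMap.mk' _ (pay_right A p)).continuous_of_finiteDimensional
  have hI : (stdSimplex ℝ I).Nonempty := ⟨_, single_mem_stdSimplex ℝ (Classical.arbitrary I)⟩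
  have hE : (stdSimplex ℝ E).Nonempty := ⟨_, single_mem_stdSimplex ℝ (Classical.arbitrary E)⟩
  obtain ⟨p, hp, w, hw, h⟩ := Sion.exists_isSaddlePointOn (X := stdSimplex ℝ I)
    (Y := stdSimplex ℝ E) (f := fun p w => pay A p w) hI (convex_stdSimplex ℝ I)
    (isCompact_stdSimplex ℝ I)
    (fun y _ => (hc1 y).lowerSemicontinuous.lowerSemicontinuousOn _)
    (fun y _ => ((IsLinearMap.mk' _ (pay_left A y)).convexOn (convex_stdSimplex ℝ I)).quasiconvexOn)
    (convex_stdSimplex ℝ E) hE (isCompact_stdSimplex ℝ E)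
    (fun x _ => (hc2 x).upperSemicontinuous.upperSemicontinuousOn _)
    (fun x _ => ((IsLinearMap.mk' _ (pay_right A x)).concaveOn
      (convex_stdSimplex ℝ E)).quasiconcaveOn)
  refine ⟨pay A p w, p, w, hp.1, hp.2, hw.1, hw.2, ?_, ?_⟩
  · intro e
    have := h p hp _ (single_mem_stdSimplex ℝ e)
    simp only [pay_single_right] at this
    exact this
  · intro i
    have := h _ (single_mem_stdSimplex ℝ i) w hw
    simp only [pay_single_left] at this
    exact this

/-- Double counting. -/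
theorem sum_swap (A : E → Finset I) (p : I → ℝ) (w : E → ℝ) :
    ∑ i, p i * (∑ e, if i ∈ A e then w e else 0) = ∑ e, w e * ∑ i ∈ A e, p i := by
  simp only [Finset.mul_sum]
  rw [Finset.sum_comm]
  refine Finset.sum_congr rfl fun e _ => ?_
  rw [← Finset.sum_filter_add_sum_filter_not Finset.univ (fun i => i ∈ A e)]
  have h1 : ∑ x with x ∈ A e, (p x * if x ∈ A e then w e else 0) = ∑ i ∈ A e, w e * p i := by
    have : (Finset.univ.filter fun i => i ∈ A e) = A e := by ext; simp
    rw [this]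
    refine Finset.sum_congr rfl fun i hi => ?_
    rw [if_pos hi]; ring
  have h2 : ∑ x with x ∉ A e, (p x * if x ∈ A e then w e else 0) = 0 := by
    refine Finset.sum_eq_zero fun i hi => ?_
    rw [Finset.mem_filter] at hi
    rw [if_neg hi.2]; ring
  rw [h1, h2, add_zero]

/-- The solution of the covering game with complementary slackness. -/
theorem minimax' (A : E → Finset I) [Nonempty I] [Nonempty E] (hcov : ∀ i, ∃ e, i ∈ A e) :
    ∃ (t : ℝ) (p : I → ℝ) (w : E → ℝ), 0 < t ∧ (∀ i, 0 ≤ p i) ∧ ∑ i, p i = 1 ∧ (∀ e, 0 ≤ w e) ∧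
      ∑ e, w e = 1 ∧ (∀ e, ∑ i ∈ A e, p i ≤ t) ∧
      (∀ i, t ≤ ∑ e, if i ∈ A e then w e else 0) ∧
      (∀ e, 0 < w e → ∑ i ∈ A e, p i = t) ∧
      (∀ i, 0 < p i → ∑ e, (if i ∈ A e then w e else 0) = t) := by
  obtain ⟨t, p, w, hp, hp1, hw, hw1, h1, h2⟩ := minimax A
  have key := sum_swap A p w
  have hA : ∑ e, w e * ∑ i ∈ A e, p i ≤ t := by
    calc _ ≤ ∑ e, w e * t := Finset.sum_le_sum fun e _ => mul_le_mul_of_nonneg_left (h1 e) (hw e)
      _ = t := by rw [← Finset.sum_mul, hw1, one_mul]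
  have hB : t ≤ ∑ i, p i * (∑ e, if i ∈ A e then w e else 0) := by
    calc t = ∑ i, p i * t := by rw [← Finset.sum_mul, hp1, one_mul]
      _ ≤ _ := Finset.sum_le_sum fun i _ => mul_le_mul_of_nonneg_left (h2 i) (hp i)
  have hA' : ∑ e, w e * ∑ i ∈ A e, p i = t := le_antisymm hA (key ▸ hB)
  have hB' : ∑ i, p i * (∑ e, if i ∈ A e then w e else 0) = t := key.trans hA'
  have e1 : ∀ e, w e * (t - ∑ i ∈ A e, p i) = 0 := by
    have hs : ∑ e, w e * (t - ∑ i ∈ A e, p i) = 0 := by
      simp only [mul_sub, Finset.sum_sub_distrib]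
      rw [← Finset.sum_mul, hw1, one_mul, hA', sub_self]
    have := (Finset.sum_eq_zero_iff_of_nonneg fun e _ =>
      mul_nonneg (hw e) (sub_nonneg.2 (h1 e))).1 hs
    exact fun e => this e (Finset.mem_univ e)
  have e2 : ∀ i, p i * ((∑ e, if i ∈ A e then w e else 0) - t) = 0 := by
    have hs : ∑ i, p i * ((∑ e, if i ∈ A e then w e else 0) - t) = 0 := by
      simp only [mul_sub, Finset.sum_sub_distrib]
      rw [← Finset.sum_mul, hp1, one_mul, hB', sub_self]
    have := (Finset.sum_eq_zero_iff_of_nonneg fun i _ =>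
      mul_nonneg (hp i) (sub_nonneg.2 (h2 i))).1 hs
    exact fun i => this i (Finset.mem_univ i)
  have ht : 0 < t := by
    obtain ⟨i, _, hi⟩ : ∃ i ∈ Finset.univ, 0 < p i := by
      by_contra hcon
      push Not at hcon
      have : ∑ i, p i ≤ 0 := Finset.sum_nonpos fun i hi => hcon i hi
      linarith
    obtain ⟨e, he⟩ := hcov i
    calc (0 : ℝ) < p i := hi
      _ ≤ ∑ i ∈ A e, p i := Finset.single_le_sum (fun j _ => hp j) he
      _ ≤ t := h1 e
  refine ⟨t, p, w, ht, hp, hp1, hw, hw1, h1, h2, ?_, ?_⟩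
  · intro e he
    have := e1 e
    rcases mul_eq_zero.1 this with h | h
    · exact absurd h he.ne'
    · linarith
  · intro i hi
    have := e2 i
    rcases mul_eq_zero.1 this with h | h
    · exact absurd h hi.ne'
    · linarith

/-- The main inequality, in the case `1 / 2 < t`. -/
theorem key_half (A : E → Finset I) (B : E → Finset J)
    (hA : ∀ e, (A e).Nonempty) (hB : ∀ e, (B e).Nonempty) (hA' : ∀ e, ∃ i, i ∉ A e)
    (hd : ∀ e f i j, i ∈ A e → j ∈ B e → i ∈ A f → j ∈ B f → e = f)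
    {t s : ℝ} {p : I → ℝ} {w v : E → ℝ} (ht : 1 / 2 < t)
    (hp : ∀ i, 0 ≤ p i) (hp1 : ∑ i, p i = 1) (hw : ∀ e, 0 ≤ w e) (hw1 : ∑ e, w e = 1)
    (h2 : ∀ i, t ≤ ∑ e, if i ∈ A e then w e else 0)
    (h3 : ∀ e, 0 < w e → ∑ i ∈ A e, p i = t)
    (h4 : ∀ i, 0 < p i → ∑ e, (if i ∈ A e then w e else 0) = t)
    (hv : ∀ e, 0 ≤ v e) (hv1 : ∑ e, v e = 1)
    (k2 : ∀ j, s ≤ ∑ e, if j ∈ B e then v e else 0) :
    t + s ≤ 1 := by
  -- choice of the rows
  have hI : ∀ f, ∃ i ∈ A f, 0 < w f → ∑ e, (if i ∈ A e then w e else 0) = t := by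
    intro f
    by_cases hf : 0 < w f
    · have hpos : 0 < ∑ i ∈ A f, p i := by rw [h3 f hf]; linarith
      obtain ⟨i, hi, hpi⟩ : ∃ i ∈ A f, 0 < p i := by
        by_contra hcon
        push Not at hcon
        have : ∑ i ∈ A f, p i ≤ 0 := Finset.sum_nonpos hcon
        linarith
      exact ⟨i, hi, fun _ => h4 i hpi⟩
    · obtain ⟨i, hi⟩ := hA f
      exact ⟨i, hi, fun h => absurd h hf⟩
  choose r hr hr' using hI
  choose c hc using hB
  -- two labels in the support of `w` have intersecting first sides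
  have hint : ∀ e f, e ≠ f → 0 < w e → 0 < w f → c e ∉ B f := by
    intro e f hef he hf hcon
    have hdis : ¬ Disjoint (A e) (A f) := by
      intro hd'
      have h5 : ∑ i ∈ A e ∪ A f, p i = 2 * t := by
        rw [Finset.sum_union hd', h3 e he, h3 f hf]; ring
      have h6 : ∑ i ∈ A e ∪ A f, p i ≤ ∑ i, p i :=
        Finset.sum_le_sum_of_subset_of_nonneg (Finset.subset_univ _) fun i _ _ => hp i
      linarith
    rw [Finset.not_disjoint_iff] at hdis
    obtain ⟨i, hi1, hi2⟩ := hdis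
    exact hef (hd e f i (c e) hi1 (hc e) hi2 hcon)
  have hlow1 : t ≤ ∑ f, v f * ∑ e, (if r f ∈ A e then w e else 0) := by
    calc t = ∑ f, v f * t := by rw [← Finset.sum_mul, hv1, one_mul]
      _ ≤ _ := Finset.sum_le_sum fun f _ => mul_le_mul_of_nonneg_left (h2 _) (hv f)
  have hlow2 : s ≤ ∑ e, w e * ∑ f, (if c e ∈ B f then v f else 0) := by
    calc s = ∑ e, w e * s := by rw [← Finset.sum_mul, hw1, one_mul]
      _ ≤ _ := Finset.sum_le_sum fun f _ => mul_le_mul_of_nonneg_left (k2 _) (hw f)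
  have hrew : ∑ e, w e * ∑ f, (if c e ∈ B f then v f else 0) =
      ∑ f, v f * ∑ e, (if c e ∈ B f then w e else 0) := by
    simp only [Finset.mul_sum]
    rw [Finset.sum_comm]
    refine Finset.sum_congr rfl fun f _ => Finset.sum_congr rfl fun e _ => ?_
    split_ifs <;> ring
  have hup : ∀ f, ∑ e, (if r f ∈ A e then w e else 0) + ∑ e, (if c e ∈ B f then w e else 0) ≤ 1 := by
    intro f
    rcases (hw f).lt_or_eq with hf | hf
    · rw [hr' f hf]
      have h7 : ∑ e, (if c e ∈ B f then w e else 0) ≤ w f := by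
        rw [← Finset.sum_ite_eq' Finset.univ f w |>.trans (if_pos (Finset.mem_univ f))]
        refine Finset.sum_le_sum fun e _ => ?_
        by_cases hef : e = f
        · subst hef
          simp [hc e]
        · rw [if_neg hef]
          split_ifs with hcf
          · rcases (hw e).lt_or_eq with he | he
            · exact absurd hcf (hint e f hef he hf)
            · exact he.ge
          · exact le_rfl
      obtain ⟨i, hi⟩ := hA' f
      have h8 : ∑ e, (if i ∈ A e then w e else 0) ≤ 1 - w f := by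
        rw [← hw1, ← Finset.sum_ite_eq' Finset.univ f w |>.trans (if_pos (Finset.mem_univ f)),
          ← Finset.sum_sub_distrib]
        refine Finset.sum_le_sum fun e _ => ?_
        by_cases hef : e = f
        · subst hef
          simp [hi]
        · rw [if_neg hef]
          split_ifs with hcf
          · simp
          · simpa using hw e
      have := h2 i
      linarith
    · rw [← Finset.sum_add_distrib, ← hw1]
      refine Finset.sum_le_sum fun e _ => ?_
      by_cases hef : e = f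
      · subst hef
        rw [← hf]; simp
      · split_ifs with g1 g2 g2
        · exact absurd (hd e f (r f) (c e) g1 (hc e) (hr f) g2) hef
        · simp
        · simp
        · simpa using hw e
  calc t + s ≤ ∑ f, v f * ∑ e, (if r f ∈ A e then w e else 0) +
        ∑ f, v f * ∑ e, (if c e ∈ B f then w e else 0) := by rw [← hrew]; linarith
    _ = ∑ f, v f * (∑ e, (if r f ∈ A e then w e else 0) + ∑ e, (if c e ∈ B f then w e else 0)) := by
        rw [← Finset.sum_add_distrib]
        exact Finset.sum_congr rfl fun f _ => by ring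
    _ ≤ ∑ f, v f * 1 := Finset.sum_le_sum fun f _ => mul_le_mul_of_nonneg_left (hup f) (hv f)
    _ = 1 := by simp [hv1]

/-- For a partition of `I × J` into proper boxes, the values of the two covering games sum to at
most `1`. -/
theorem key (A : E → Finset I) (B : E → Finset J) [Nonempty I] [Nonempty J]
    (hA : ∀ e, (A e).Nonempty) (hB : ∀ e, (B e).Nonempty) (hA' : ∀ e, ∃ i, i ∉ A e)
    (hB' : ∀ e, ∃ j, j ∉ B e)
    (hpart : ∀ i j, ∃! e, i ∈ A e ∧ j ∈ B e) :
    ∃ (t : ℝ) (p : I → ℝ) (q : J → ℝ), 0 < t ∧ t < 1 ∧ (∀ i, 0 ≤ p i) ∧ ∑ i, p i = 1 ∧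
      (∀ j, 0 ≤ q j) ∧ ∑ j, q j = 1 ∧ (∀ e, ∑ i ∈ A e, p i ≤ t) ∧
      (∀ e, ∑ j ∈ B e, q j ≤ 1 - t) := by
  obtain ⟨e0, he0, _⟩ := hpart (Classical.arbitrary I) (Classical.arbitrary J)
  have : Nonempty E := ⟨e0⟩
  have hd : ∀ e f i j, i ∈ A e → j ∈ B e → i ∈ A f → j ∈ B f → e = f := by
    intro e f i j h1 h2 h3 h4
    exact (hpart i j).unique ⟨h1, h2⟩ ⟨h3, h4⟩
  obtain ⟨t, p, w, ht, hp, hp1, hw, hw1, h1, h2, h3, h4⟩ := minimax' A fun i => by
    obtain ⟨e, he, _⟩ := hpart i (Classical.arbitrary J)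
    exact ⟨e, he.1⟩
  obtain ⟨s, q, v, hs, hq, hq1, hv, hv1, k1, k2, k3, k4⟩ := minimax' B fun j => by
    obtain ⟨e, he, _⟩ := hpart (Classical.arbitrary I) j
    exact ⟨e, he.2⟩
  have hts : t + s ≤ 1 := by
    by_cases hc1 : 1 / 2 < t
    · exact key_half A B hA hB hA' hd hc1 hp hp1 hw hw1 h2 h3 h4 hv hv1 k2
    · by_cases hc2 : 1 / 2 < s
      · have := key_half B A hB hA hB' (fun e f j i h1 h2 h3 h4 => hd e f i j h2 h1 h4 h3)
          hc2 hq hq1 hv hv1 k2 k3 k4 hw hw1 h2
        linarith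
      · linarith
  refine ⟨t, p, q, ht, by linarith, hp, hp1, hq, hq1, h1, fun e => (k1 e).trans (by linarith)⟩

/-- The general inequality behind the bound: in a partition of `I × J` into proper boxes in which
every row `{i} × J` meets at least `k` boxes and every column `I × {j}` at least `l`. -/
theorem bound (A : E → Finset I) (B : E → Finset J) [Nonempty I] [Nonempty J]
    (hA : ∀ e, (A e).Nonempty) (hB : ∀ e, (B e).Nonempty) (hA' : ∀ e, ∃ i, i ∉ A e)
    (hB' : ∀ e, ∃ j, j ∉ B e)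
    (hpart : ∀ i j, ∃! e, i ∈ A e ∧ j ∈ B e) (k l : ℕ)
    (hk : ∀ i, k ≤ (Finset.univ.filter fun e => i ∈ A e).card)
    (hl : ∀ j, l ≤ (Finset.univ.filter fun e => j ∈ B e).card) :
    ∃ t : ℝ, 0 < t ∧ t < 1 ∧ (1 - t) * k + t * l - 1 ≤ (Fintype.card E : ℝ) * (t * (1 - t)) := by
  obtain ⟨t, p, q, ht, ht1, hp, hp1, hq, hq1, h1, h2⟩ := key A B hA hB hA' hB' hpart
  refine ⟨t, ht, ht1, ?_⟩
  have h3 : 0 ≤ ∑ e, (t - ∑ i ∈ A e, p i) * ((1 - t) - ∑ j ∈ B e, q j) :=
    Finset.sum_nonneg fun e _ => mul_nonneg (by linarith [h1 e]) (by linarith [h2 e])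
  have h4 : ∑ e, (∑ i ∈ A e, p i) * (∑ j ∈ B e, q j) = 1 := by
    have : ∀ e, (∑ i ∈ A e, p i) * (∑ j ∈ B e, q j) =
        ∑ i, ∑ j, if i ∈ A e ∧ j ∈ B e then p i * q j else 0 := by
      intro e
      rw [Finset.sum_mul_sum, ← Finset.sum_subset (Finset.subset_univ (A e))]
      · refine Finset.sum_congr rfl fun i hi => ?_
        rw [← Finset.sum_subset (Finset.subset_univ (B e))]
        · refine Finset.sum_congr rfl fun j hj => ?_
          rw [if_pos ⟨hi, hj⟩]
        · intro j _ hj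
          rw [if_neg fun h => hj h.2]
      · intro i _ hi
        refine Finset.sum_eq_zero fun j _ => ?_
        rw [if_neg fun h => hi h.1]
    simp only [this]
    rw [Finset.sum_comm]
    have h5 : ∀ i, ∑ e, ∑ j, (if i ∈ A e ∧ j ∈ B e then p i * q j else 0) = p i := by
      intro i
      rw [Finset.sum_comm]
      have h6 : ∀ j, ∑ e, (if i ∈ A e ∧ j ∈ B e then p i * q j else 0) = p i * q j := by
        intro j
        obtain ⟨e, he, huniq⟩ := hpart i j
        rw [Finset.sum_eq_single e]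
        · rw [if_pos he]
        · intro f _ hf
          rw [if_neg fun h => hf (huniq f h)]
        · simp
      simp only [h6]
      rw [← Finset.mul_sum, hq1, mul_one]
    simp only [h5, hp1]
  have h5 : (k : ℝ) ≤ ∑ e, ∑ i ∈ A e, p i := by
    have := sum_swap A p (fun _ => (1 : ℝ))
    simp only [one_mul] at this
    rw [← this]
    calc (k : ℝ) = ∑ i, p i * k := by rw [← Finset.sum_mul, hp1, one_mul]
      _ ≤ _ := Finset.sum_le_sum fun i _ => mul_le_mul_of_nonneg_left (by
          rw [← Finset.sum_filter]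
          simp only [Finset.sum_const, nsmul_eq_mul, mul_one]
          exact_mod_cast hk i) (hp i)
  have h6 : (l : ℝ) ≤ ∑ e, ∑ j ∈ B e, q j := by
    have := sum_swap B q (fun _ => (1 : ℝ))
    simp only [one_mul] at this
    rw [← this]
    calc (l : ℝ) = ∑ i, q i * l := by rw [← Finset.sum_mul, hq1, one_mul]
      _ ≤ _ := Finset.sum_le_sum fun i _ => mul_le_mul_of_nonneg_left (by
          rw [← Finset.sum_filter]
          simp only [Finset.sum_const, nsmul_eq_mul, mul_one]
          exact_mod_cast hl i) (hq i)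
  have h7 : ∑ e, (t - ∑ i ∈ A e, p i) * ((1 - t) - ∑ j ∈ B e, q j) =
      (Fintype.card E : ℝ) * (t * (1 - t)) - (1 - t) * ∑ e, ∑ i ∈ A e, p i -
        t * ∑ e, ∑ j ∈ B e, q j + ∑ e, (∑ i ∈ A e, p i) * (∑ j ∈ B e, q j) := by
    rw [Finset.mul_sum, Finset.mul_sum]
    have : (Fintype.card E : ℝ) * (t * (1 - t)) = ∑ _e : E, t * (1 - t) := by
      simp
    rw [this, ← Finset.sum_sub_distrib, ← Finset.sum_sub_distrib, ← Finset.sum_add_distrib]
    exact Finset.sum_congr rfl fun e _ => by ring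
  rw [h7, h4] at h3
  have h8 : (1 - t) * (k : ℝ) ≤ (1 - t) * ∑ e, ∑ i ∈ A e, p i :=
    mul_le_mul_of_nonneg_left h5 (by linarith)
  have h9 : t * (l : ℝ) ≤ t * ∑ e, ∑ j ∈ B e, q j := mul_le_mul_of_nonneg_left h6 ht.le
  linarith

theorem bound_four (A : E → Finset I) (B : E → Finset J) [Nonempty I] [Nonempty J]
    (hA : ∀ e, (A e).Nonempty) (hB : ∀ e, (B e).Nonempty) (hA' : ∀ e, ∃ i, i ∉ A e)
    (hB' : ∀ e, ∃ j, j ∉ B e)
    (hpart : ∀ i j, ∃! e, i ∈ A e ∧ j ∈ B e) (k : ℕ)
    (hk : ∀ i, k ≤ (Finset.univ.filter fun e => i ∈ A e).card)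
    (hl : ∀ j, k ≤ (Finset.univ.filter fun e => j ∈ B e).card) :
    4 * (k - 1) ≤ Fintype.card E := by
  obtain ⟨t, ht, ht1, h⟩ := bound A B hA hB hA' hB' hpart k k hk hl
  rcases Nat.eq_zero_or_pos k with rfl | hk0
  · simp
  have h1 : t * (1 - t) ≤ 1 / 4 := by nlinarith [sq_nonneg (t - 1 / 2)]
  have h2 : (Fintype.card E : ℝ) * (t * (1 - t)) ≤ (Fintype.card E : ℝ) * (1 / 4) :=
    mul_le_mul_of_nonneg_left h1 (Nat.cast_nonneg _)
  have h3 : 4 * ((k : ℝ) - 1) ≤ (Fintype.card E : ℝ) := by linarith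
  have h4 : ((4 * (k - 1) : ℕ) : ℝ) ≤ (Fintype.card E : ℝ) := by
    rw [Nat.cast_mul, Nat.cast_sub hk0]
    simpa using h3
  exact_mod_cast h4

end Q148.Game
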