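import Mathlib

/-!
Lattice polytopes in `ℝ^ι`, actions of a group on `ℤ^ι` by affine automorphisms, and invariant
triangulations with vertices in `(1/N) ℤ^ι`.
-/

namespace Q148.InvTri

variable {ι : Type} [Fintype ι] [DecidableEq ι]

/-- The affine map `x ↦ A x + b` of `ℝ^ι` which extends the affine automorphism `u ↦ A u + b`
of `ℤ^ι`. -/
def realMap (f : (ι → ℤ) ≃ᵃ[ℤ] (ι → ℤ)) (x : ι → ℝ) : ι → ℝ :=
  fun i => ∑ j, (f.linear (Pi.single j 1) i : ℝ) * x j + (f 0 i : ℝ)

/-- The points of `ℝ^ι` with coordinates in `(1/N) ℤ`. -/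
def refined (ι : Type) (N : ℕ) : Set (ι → ℝ) := {x | ∃ u : ι → ℤ, ∀ i, (N : ℝ) * x i = (u i : ℝ)}

/-- A lattice polytope: the convex hull of finitely many points of `ℤ^ι`. -/
def IsLatticePolytope (P : Set (ι → ℝ)) : Prop :=
  ∃ S : Finset (ι → ℤ), P = convexHull ℝ ((fun (u : ι → ℤ) (i : ι) => (u i : ℝ)) '' (S : Set (ι → ℤ)))

variable {G : Type} [Group G]

/-- `K` is a triangulation of `P` which is invariant under the action `ρ` and has all its vertices
in `(1/N) ℤ^ι`. -/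
structure IsInvariantTriangulation (ρ : G →* ((ι → ℤ) ≃ᵃ[ℤ] (ι → ℤ))) (P : Set (ι → ℝ)) (N : ℕ)
    (K : Geometry.SimplicialComplex ℝ (ι → ℝ)) : Prop where
  space_eq : K.space = P
  vertices_mem : K.vertices ⊆ refined ι N
  invariant : ∀ g : G, ∀ s ∈ K.faces, ∃ t ∈ K.faces, (t : Set (ι → ℝ)) = realMap (ρ g) '' s

/-- There are an action of `G` on some `ℤ^ι` by affine automorphisms and an invariant lattice
polytope of full dimension which has no invariant triangulation, regular or not, with all its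
vertices in `(1/N) ℤ^ι`. -/
def HasBadPolytope (G : Type) [Group G] (N : ℕ) : Prop :=
  ∃ (ι : Type) (_ : Fintype ι) (_ : DecidableEq ι) (ρ : G →* ((ι → ℤ) ≃ᵃ[ℤ] (ι → ℤ)))
    (P : Set (ι → ℝ)), IsLatticePolytope P ∧ (interior P).Nonempty ∧
      (∀ g : G, realMap (ρ g) '' P = P) ∧
      ∀ K : Geometry.SimplicialComplex ℝ (ι → ℝ), ¬ IsInvariantTriangulation ρ P N K

end Q148.InvTri
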