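import Pool.Agent.Q148.InvTriProof

open Finset

namespace Q148.InvTri

variable (Γ : Type) [Group Γ] [Fintype Γ] [DecidableEq Γ]

/-- the barycentre -/
noncomputable def ctr : Γ ⊕ Γ → ℝ := fun _ => 1 / (Fintype.card Γ : ℝ)

theorem card_pos' : (0 : ℝ) < (Fintype.card Γ : ℝ) := by
  have : 0 < Fintype.card Γ := Fintype.card_pos
  exact_mod_cast this

theorem ctr_mem : ctr Γ ∈ P Γ := by
  have hconv : Convex ℝ (P Γ) := convex_convexHull ℝ _
  have hpos := card_pos' Γ
  have key := hconv.sum_mem (t := (univ : Finset Γ)) (w := fun _ => 1 / (Fintype.card Γ : ℝ))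
    (z := fun c => castR Γ (vtx Γ (some c, some c))) ?_ ?_ ?_
  · convert key using 1
    funext j
    rw [Finset.sum_apply]
    rcases j with j | j
    · simp [ctr, castR, vtx]
    · simp [ctr, castR, vtx]
  · intro _ _; positivity
  · rw [sum_const, card_univ, nsmul_eq_mul]
    field_simp
  · intro c _
    apply subset_convexHull
    exact (mem_V Γ).2 ⟨_, rfl⟩

theorem ctr_fix (p : Γ × Γ) : realMap (rho Γ p) (ctr Γ) = ctr Γ := by
  obtain ⟨g, h⟩ := p
  funext i
  rcases i with i | i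
  · rw [rho_inl]; rfl
  · rw [rho_inr]; rfl

theorem ctr_sum_inl : ∑ c, ctr Γ (Sum.inl c) = 1 := by
  have hpos := card_pos' Γ
  unfold ctr
  rw [sum_const, card_univ, nsmul_eq_mul]
  field_simp

theorem ctr_sum_inr : ∑ c, ctr Γ (Sum.inr c) = 1 := by
  have hpos := card_pos' Γ
  unfold ctr
  rw [sum_const, card_univ, nsmul_eq_mul]
  field_simp

/-- a weighted mean of numbers at most one is one only if all are one -/
theorem mean_one {α : Type} [DecidableEq α] (s : Finset α) (w f : α → ℝ) (hw : ∀ v ∈ s, 0 < w v)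
    (h1 : ∑ v ∈ s, w v = 1) (hf : ∀ v ∈ s, f v ≤ 1) (hs : ∑ v ∈ s, w v * f v = 1) :
    ∀ v ∈ s, f v = 1 := by
  have h : ∑ v ∈ s, w v * (1 - f v) = 0 := by
    simp only [mul_sub, mul_one, sum_sub_distrib, h1, hs, sub_self]
  have h' := (sum_eq_zero_iff_of_nonneg (fun v hv => mul_nonneg (hw v hv).le
    (by have := hf v hv; linarith))).1 h
  intro v hv
  rcases mul_eq_zero.1 (h' v hv) with h0 | h0
  · exact absurd h0 (hw v hv).ne'
  · linarith

theorem not_tri (N : ℕ) (hN : 0 < N) (hdvd : ¬ Fintype.card Γ ∣ N)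
    (K : Geometry.SimplicialComplex ℝ (Γ ⊕ Γ → ℝ)) :
    ¬ IsInvariantTriangulation (rho Γ) (P Γ) N K := by
  classical
  rintro ⟨hsp, hvert, hinv⟩
  -- a minimal face containing the centre
  have hex : ∃ k : ℕ, ∃ s ∈ K.faces, ctr Γ ∈ convexHull ℝ (s : Set (Γ ⊕ Γ → ℝ)) ∧ s.card = k := by
    have := ctr_mem Γ
    rw [← hsp, Geometry.SimplicialComplex.mem_space_iff] at this
    obtain ⟨s, hs, hx⟩ := this
    exact ⟨_, s, hs, hx, rfl⟩
  obtain ⟨s, hs, hx, hsc⟩ := Nat.find_spec hex
  have hmin : ∀ t ∈ K.faces, ctr Γ ∈ convexHull ℝ (t : Set (Γ ⊕ Γ → ℝ)) → s.card ≤ t.card := by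
    intro t ht hxt
    rw [hsc]
    exact Nat.find_min' hex ⟨t, ht, hxt, rfl⟩
  -- weights
  obtain ⟨w, hw0, hw1, hwx⟩ := Finset.mem_convexHull'.1 hx
  have hwpos : ∀ v ∈ s, 0 < w v := by
    intro v hv
    rcases (hw0 v hv).lt_or_eq with h | h
    · exact h
    · exfalso
      have hxe : ctr Γ ∈ convexHull ℝ ((s.erase v : Finset (Γ ⊕ Γ → ℝ)) : Set (Γ ⊕ Γ → ℝ)) := by
        rw [Finset.mem_convexHull']
        refine ⟨w, fun y hy => hw0 y (mem_of_mem_erase hy), ?_, ?_⟩
        · rw [← hw1, ← sum_erase_add s w hv, ← h, add_zero]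
        · rw [← hwx, ← sum_erase_add s (fun y => w y • y) hv, ← h, zero_smul, add_zero]
      have hne : (s.erase v).Nonempty := by
        rw [Finset.nonempty_iff_ne_empty]
        intro he
        rw [he] at hxe
        simp at hxe
      have hface := K.down_closed hs (erase_subset v s) hne
      have h1 := hmin _ hface hxe
      rw [card_erase_of_mem hv] at h1
      have : 0 < s.card := card_pos.2 ⟨v, hv⟩
      omega
  -- the face is invariant
  have hstab : ∀ p : Γ × Γ, ∀ v ∈ s, realMap (rho Γ p) v ∈ s := by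
    intro p v hv
    obtain ⟨t, ht, hteq⟩ := hinv p s hs
    have hxt : ctr Γ ∈ convexHull ℝ (t : Set (Γ ⊕ Γ → ℝ)) := by
      rw [hteq, realMap_eq, ← LinearMap.image_convexHull, ← realMap_eq]
      exact ⟨ctr Γ, hx, ctr_fix Γ p⟩
    have hxi := K.inter_subset_convexHull hs ht ⟨hx, hxt⟩
    rw [← coe_inter] at hxi
    have hne : (s ∩ t).Nonempty := by
      rw [Finset.nonempty_iff_ne_empty]
      intro he
      rw [he] at hxi
      simp at hxi
    have hface := K.down_closed hs inter_subset_left hne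
    have h1 := hmin _ hface hxi
    have h2 : s ∩ t = s := eq_of_subset_of_card_le inter_subset_left h1
    have h3 : s ⊆ t := inter_eq_left.1 h2
    have hti : t = s.image (realMap (rho Γ p)) := by
      rw [← coe_inj, hteq, coe_image]
    have h4 : t.card ≤ s.card := by rw [hti]; exact card_image_le
    have h5 : s = t := eq_of_subset_of_card_le h3 h4
    rw [h5, hti]
    exact mem_image_of_mem _ hv
  -- coordinate sums
  have hQ : ∀ v ∈ s, v ∈ Q Γ := by
    intro v hv
    apply P_sub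
    rw [← hsp]
    exact K.subset_space hs hv
  have hsl : ∀ v ∈ s, ∑ c, v (Sum.inl c) = 1 := by
    apply mean_one s w _ hwpos hw1 (fun v hv => (hQ v hv).2.1)
    rw [← ctr_sum_inl Γ, ← hwx]
    simp only [Finset.sum_apply, Pi.smul_apply, smul_eq_mul, mul_sum]
    rw [sum_comm]
  have hsr : ∀ v ∈ s, ∑ c, v (Sum.inr c) = 1 := by
    apply mean_one s w _ hwpos hw1 (fun v hv => (hQ v hv).2.2)
    rw [← ctr_sum_inr Γ, ← hwx]
    simp only [Finset.sum_apply, Pi.smul_apply, smul_eq_mul, mul_sum]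
    rw [sum_comm]
  obtain ⟨v, hv⟩ : s.Nonempty := K.nonempty_of_mem_faces hs
  have hvref : v ∈ refined (Γ ⊕ Γ) N := by
    apply hvert
    rw [Geometry.SimplicialComplex.vertices_eq]
    exact Set.mem_biUnion hs hv
  obtain ⟨u, hu⟩ := hvref
  have hpos := card_pos' Γ
  have fin : ∀ c : ℝ, ∀ z : ℤ, (Fintype.card Γ : ℝ) * c = 1 → (N : ℝ) * c = z → False := by
    intro c z h1 h2
    apply hdvd
    have h3 : (N : ℝ) = (Fintype.card Γ : ℝ) * z := by
      rw [← h2]
      calc (N : ℝ) = (N : ℝ) * 1 := by ring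
        _ = (Fintype.card Γ : ℝ) * ((N : ℝ) * c) := by rw [← h1]; ring
    have h4 : (N : ℤ) = (Fintype.card Γ : ℤ) * z := by exact_mod_cast h3
    exact_mod_cast Dvd.intro z h4.symm
  by_cases hA : ∀ g a : Γ, v (Sum.inl (g⁻¹ * a)) = v (Sum.inl a)
  · apply fin (v (Sum.inl 1)) (u (Sum.inl 1)) _ (hu _)
    have hc : ∀ a : Γ, v (Sum.inl a) = v (Sum.inl 1) := by
      intro a
      have := hA a a
      rw [inv_mul_cancel] at this
      exact this.symm
    have := hsl v hv
    rw [sum_congr rfl (fun a _ => hc a), sum_const, card_univ, nsmul_eq_mul] at this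
    exact this
  by_cases hB : ∀ g a : Γ, v (Sum.inr (g⁻¹ * a)) = v (Sum.inr a)
  · apply fin (v (Sum.inr 1)) (u (Sum.inr 1)) _ (hu _)
    have hc : ∀ a : Γ, v (Sum.inr a) = v (Sum.inr 1) := by
      intro a
      have := hB a a
      rw [inv_mul_cancel] at this
      exact this.symm
    have := hsr v hv
    rw [sum_congr rfl (fun a _ => hc a), sum_const, card_univ, nsmul_eq_mul] at this
    exact this
  push Not at hA hB
  obtain ⟨g, a, hga⟩ := hA
  obtain ⟨h, b, hhb⟩ := hB
  set v1 := realMap (rho Γ (g, 1)) v with hv1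
  set v2 := realMap (rho Γ (1, h)) v with hv2
  set v3 := realMap (rho Γ (g, h)) v with hv3
  have m1 : v1 ∈ s := hstab _ v hv
  have m2 : v2 ∈ s := hstab _ v hv
  have m3 : v3 ∈ s := hstab _ v hv
  have n1 : v ≠ v1 := by
    intro he
    have := congrFun he (Sum.inl a)
    rw [hv1, rho_inl] at this
    exact hga this.symm
  have n2 : v ≠ v2 := by
    intro he
    have := congrFun he (Sum.inr b)
    rw [hv2, rho_inr] at this
    exact hhb this.symm
  have hrel : v - v1 - v2 + v3 = 0 := by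
    funext i
    rcases i with i | i
    · simp only [Pi.add_apply, Pi.sub_apply, Pi.zero_apply]
      rw [hv1, hv2, hv3, rho_inl, rho_inl, rho_inl]
      simp
    · simp only [Pi.add_apply, Pi.sub_apply, Pi.zero_apply]
      rw [hv1, hv2, hv3, rho_inr, rho_inr, rho_inr]
      simp
  have hind := K.indep hs
  rw [affineIndependent_iff] at hind
  have key := hind univ (fun y : s => (if (y : Γ ⊕ Γ → ℝ) = v then (1 : ℝ) else 0) -
      (if (y : Γ ⊕ Γ → ℝ) = v1 then (1 : ℝ) else 0) - (if (y : Γ ⊕ Γ → ℝ) = v2 then (1 : ℝ) else 0) +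
      (if (y : Γ ⊕ Γ → ℝ) = v3 then (1 : ℝ) else 0)) ?_ ?_ ⟨v, hv⟩ (mem_univ _)
  · simp only [if_true, if_neg n1, if_neg n2] at key
    split_ifs at key <;> norm_num at key
  · rw [← sum_coe_sort s] at *
    simp only [sum_add_distrib, sum_sub_distrib]
    rw [Finset.sum_coe_sort s (fun y => if y = v then (1 : ℝ) else 0),
      Finset.sum_coe_sort s (fun y => if y = v1 then (1 : ℝ) else 0),
      Finset.sum_coe_sort s (fun y => if y = v2 then (1 : ℝ) else 0),
      Finset.sum_coe_sort s (fun y => if y = v3 then (1 : ℝ) else 0)]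
    simp [hv, m1, m2, m3]
  · simp only [add_smul, sub_smul, sum_add_distrib, sum_sub_distrib, ite_smul, one_smul, zero_smul]
    rw [Finset.sum_coe_sort s (fun y => if y = v then y else 0),
      Finset.sum_coe_sort s (fun y => if y = v1 then y else 0),
      Finset.sum_coe_sort s (fun y => if y = v2 then y else 0),
      Finset.sum_coe_sort s (fun y => if y = v3 then y else 0)]
    simp only [sum_ite_eq', hv, m1, m2, m3, if_true]
    exact hrel

theorem bad (N : ℕ) (hN : 0 < N) (hdvd : ¬ Fintype.card Γ ∣ N) : HasBadPolytope (Γ × Γ) N :=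
  ⟨Γ ⊕ Γ, inferInstance, inferInstance, rho Γ, P Γ, P_lattice Γ, P_interior Γ, P_invariant Γ,
    fun K => not_tri Γ N hN hdvd K⟩

end Q148.InvTri
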