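import Pool.Agent.Q148.InvTriDefs

open Finset

namespace Q148.InvTri

/-! ### permutation actions -/

section perm
variable {ι : Type} [Fintype ι] [DecidableEq ι]

/-- permutations of the coordinates as affine automorphisms -/
def permAff : Equiv.Perm ι →* ((ι → ℤ) ≃ᵃ[ℤ] (ι → ℤ)) where
  toFun σ := (LinearEquiv.funCongrLeft ℤ ℤ (σ⁻¹ : Equiv.Perm ι)).toAffineEquiv
  map_one' := by
    ext u i
    simp [LinearEquiv.funCongrLeft]
  map_mul' σ τ := by
    ext u i
    simp [LinearEquiv.funCongrLeft]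

theorem realMap_perm (σ : Equiv.Perm ι) (x : ι → ℝ) (i : ι) :
    realMap (permAff σ) x i = x (σ⁻¹ i) := by
  unfold realMap permAff
  simp only [MonoidHom.coe_mk, OneHom.coe_mk, LinearEquiv.toAffineEquiv]
  simp [LinearEquiv.funCongrLeft, LinearMap.funLeft, Pi.single_apply]

end perm

variable (Γ : Type) [Group Γ] [Fintype Γ] [DecidableEq Γ]

/-- the action of `Γ × Γ` on the disjoint union of two copies of `Γ` -/
def act : Γ × Γ →* Equiv.Perm (Γ ⊕ Γ) :=
  (Equiv.Perm.sumCongrHom Γ Γ).comp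
    ((MulAction.toPermHom Γ Γ).prodMap (MulAction.toPermHom Γ Γ))

theorem act_inv_inl (g h a : Γ) : ((act Γ (g, h))⁻¹ : Equiv.Perm (Γ ⊕ Γ)) (Sum.inl a) =
    Sum.inl (g⁻¹ * a) := by
  rw [← map_inv]
  simp [act, Equiv.Perm.sumCongrHom]

theorem act_inv_inr (g h a : Γ) : ((act Γ (g, h))⁻¹ : Equiv.Perm (Γ ⊕ Γ)) (Sum.inr a) =
    Sum.inr (h⁻¹ * a) := by
  rw [← map_inv]
  simp [act, Equiv.Perm.sumCongrHom]

/-- the action on `ℤ^(Γ ⊕ Γ)` -/
def rho : Γ × Γ →* ((Γ ⊕ Γ → ℤ) ≃ᵃ[ℤ] (Γ ⊕ Γ → ℤ)) := permAff.comp (act Γ)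

theorem rho_inl (g h : Γ) (x : Γ ⊕ Γ → ℝ) (a : Γ) :
    realMap (rho Γ (g, h)) x (Sum.inl a) = x (Sum.inl (g⁻¹ * a)) := by
  unfold rho
  rw [MonoidHom.comp_apply, realMap_perm, act_inv_inl]

theorem rho_inr (g h : Γ) (x : Γ ⊕ Γ → ℝ) (a : Γ) :
    realMap (rho Γ (g, h)) x (Sum.inr a) = x (Sum.inr (h⁻¹ * a)) := by
  unfold rho
  rw [MonoidHom.comp_apply, realMap_perm, act_inv_inr]

/-! ### the polytope -/

/-- the vertices: pairs of vertices of two simplices -/
def vtx (p : Option Γ × Option Γ) : Γ ⊕ Γ → ℤ :=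
  Sum.elim (fun c => if p.1 = some c then 1 else 0) (fun c => if p.2 = some c then 1 else 0)

/-- coordinates in the reals -/
def castR (u : Γ ⊕ Γ → ℤ) : Γ ⊕ Γ → ℝ := fun i => (u i : ℝ)

/-- the set of vertices -/
def V : Set (Γ ⊕ Γ → ℝ) := castR Γ '' ((univ.image (vtx Γ) : Finset (Γ ⊕ Γ → ℤ)) : Set (Γ ⊕ Γ → ℤ))

theorem mem_V {x : Γ ⊕ Γ → ℝ} : x ∈ V Γ ↔ ∃ p, x = castR Γ (vtx Γ p) := by
  unfold V
  constructor
  · rintro ⟨u, hu, rfl⟩
    simp only [coe_image, coe_univ, Set.image_univ, Set.mem_range] at hu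
    obtain ⟨p, rfl⟩ := hu
    exact ⟨p, rfl⟩
  · rintro ⟨p, rfl⟩
    exact ⟨vtx Γ p, by simp, rfl⟩

/-- the product of two simplices -/
def P : Set (Γ ⊕ Γ → ℝ) := convexHull ℝ (V Γ)

theorem P_lattice : IsLatticePolytope (P Γ) := ⟨univ.image (vtx Γ), rfl⟩

/-- inequalities -/
def Q : Set (Γ ⊕ Γ → ℝ) :=
  {x | (∀ i, 0 ≤ x i) ∧ ∑ c, x (Sum.inl c) ≤ 1 ∧ ∑ c, x (Sum.inr c) ≤ 1}

theorem Q_convex : Convex ℝ (Q Γ) := by
  intro x hx y hy a b ha hb hab
  refine ⟨?_, ?_, ?_⟩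
  · intro i
    have h1 := hx.1 i
    have h2 := hy.1 i
    simp only [Pi.add_apply, Pi.smul_apply, smul_eq_mul]
    positivity
  · simp only [Pi.add_apply, Pi.smul_apply, smul_eq_mul, sum_add_distrib, ← mul_sum]
    have h1 := hx.2.1
    have h2 := hy.2.1
    nlinarith
  · simp only [Pi.add_apply, Pi.smul_apply, smul_eq_mul, sum_add_distrib, ← mul_sum]
    have h1 := hx.2.2
    have h2 := hy.2.2
    nlinarith

theorem sum_opt (a : Option Γ) : ∑ c : Γ, (((if a = some c then (1 : ℤ) else 0) : ℤ) : ℝ) ≤ 1 := by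
  cases a with
  | none => simp
  | some c => simp

theorem P_sub : P Γ ⊆ Q Γ := by
  apply convexHull_min _ (Q_convex Γ)
  intro x hx
  obtain ⟨p, rfl⟩ := (mem_V Γ).1 hx
  refine ⟨?_, ?_, ?_⟩
  · intro i
    unfold castR vtx
    rcases i with i | i
    · simp only [Sum.elim_inl]; split_ifs <;> simp
    · simp only [Sum.elim_inr]; split_ifs <;> simp
  · exact sum_opt Γ p.1
  · exact sum_opt Γ p.2

theorem realMap_eq (p : Γ × Γ) : realMap (rho Γ p) =
    ⇑(LinearMap.funLeft ℝ ℝ ((act Γ p)⁻¹ : Equiv.Perm (Γ ⊕ Γ))) := by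
  funext x i
  unfold rho
  rw [MonoidHom.comp_apply, realMap_perm]
  rfl

theorem map_V (p : Γ × Γ) : realMap (rho Γ p) '' V Γ ⊆ V Γ := by
  obtain ⟨g, h⟩ := p
  rintro _ ⟨x, hx, rfl⟩
  obtain ⟨⟨a, b⟩, rfl⟩ := (mem_V Γ).1 hx
  rw [mem_V]
  refine ⟨(a.map (fun c => g * c), b.map (fun c => h * c)), ?_⟩
  funext i
  rcases i with i | i
  · rw [rho_inl]
    unfold castR vtx
    simp only [Sum.elim_inl]
    congr 1
    apply if_congr _ rfl rfl
    cases a with
    | none => simp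
    | some c =>
      simp only [Option.some.injEq, Option.map_some]
      constructor
      · rintro rfl; simp
      · rintro rfl; simp
  · rw [rho_inr]
    unfold castR vtx
    simp only [Sum.elim_inr]
    congr 1
    apply if_congr _ rfl rfl
    cases b with
    | none => simp
    | some c =>
      simp only [Option.some.injEq, Option.map_some]
      constructor
      · rintro rfl; simp
      · rintro rfl; simp

theorem realMap_inv (p : Γ × Γ) (x : Γ ⊕ Γ → ℝ) :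
    realMap (rho Γ p) (realMap (rho Γ p⁻¹) x) = x := by
  obtain ⟨g, h⟩ := p
  funext i
  have : ((g, h) : Γ × Γ)⁻¹ = (g⁻¹, h⁻¹) := rfl
  rw [this]
  rcases i with i | i
  · rw [rho_inl, rho_inl]; simp
  · rw [rho_inr, rho_inr]; simp

theorem P_invariant (p : Γ × Γ) : realMap (rho Γ p) '' P Γ = P Γ := by
  unfold P
  rw [realMap_eq, LinearMap.image_convexHull, ← realMap_eq]
  congr 1
  apply Set.Subset.antisymm (map_V Γ p)
  intro x hx
  exact ⟨realMap (rho Γ p⁻¹) x, map_V Γ p⁻¹ ⟨x, hx, rfl⟩, realMap_inv Γ p x⟩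

theorem zero_mem : (0 : Γ ⊕ Γ → ℝ) ∈ P Γ := by
  apply subset_convexHull
  rw [mem_V]
  refine ⟨(none, none), ?_⟩
  funext i
  rcases i with i | i <;> simp [castR, vtx]

theorem single_mem (i : Γ ⊕ Γ) : (Pi.single i 1 : Γ ⊕ Γ → ℝ) ∈ P Γ := by
  apply subset_convexHull
  rw [mem_V]
  rcases i with i | i
  · refine ⟨(some i, none), ?_⟩
    funext j
    rcases j with j | j
    · simp [castR, vtx, Pi.single_apply, eq_comm]
    · simp [castR, vtx, Pi.single_apply]
  · refine ⟨(none, some i), ?_⟩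
    funext j
    rcases j with j | j
    · simp [castR, vtx, Pi.single_apply]
    · simp [castR, vtx, Pi.single_apply, eq_comm]

theorem simplex_sub {x : Γ ⊕ Γ → ℝ} (h0 : ∀ i, 0 ≤ x i) (h1 : ∑ i, x i ≤ 1) : x ∈ P Γ := by
  have hconv : Convex ℝ (P Γ) := convex_convexHull ℝ _
  have key := hconv.sum_mem (t := (univ : Finset (Option (Γ ⊕ Γ))))
    (w := fun o => o.elim (1 - ∑ i, x i) x)
    (z := fun o => o.elim 0 (fun i => Pi.single i 1)) ?_ ?_ ?_
  · convert key using 1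
    rw [Fintype.sum_option]
    simp only [Option.elim]
    rw [smul_zero, zero_add]
    funext j
    rw [Finset.sum_apply]
    simp [Pi.single_apply]
  · intro o _
    cases o with
    | none => simp only [Option.elim]; linarith
    | some i => exact h0 i
  · rw [Fintype.sum_option]; simp
  · intro o _
    cases o with
    | none => exact zero_mem Γ
    | some i => exact single_mem Γ i

theorem P_interior : (interior (P Γ)).Nonempty := by
  set n : ℝ := (Fintype.card (Γ ⊕ Γ) : ℝ) with hn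
  have hn0 : 0 ≤ n := by rw [hn]; positivity
  have hsub : {x : Γ ⊕ Γ → ℝ | (∀ i, 0 < x i) ∧ ∑ i, x i < 1} ⊆ P Γ := by
    rintro x ⟨h0, h1⟩
    exact simplex_sub Γ (fun i => (h0 i).le) h1.le
  have hopen : IsOpen {x : Γ ⊕ Γ → ℝ | (∀ i, 0 < x i) ∧ ∑ i, x i < 1} := by
    apply IsOpen.inter
    · have : {x : Γ ⊕ Γ → ℝ | ∀ i, 0 < x i} = ⋂ i, {x | 0 < x i} := by ext x; simp
      change IsOpen {x : Γ ⊕ Γ → ℝ | ∀ i, 0 < x i}
      rw [this]
      exact isOpen_iInter_of_finite fun i => isOpen_lt continuous_const (continuous_apply i)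
    · exact isOpen_lt (continuous_finset_sum _ fun i _ => continuous_apply i) continuous_const
  refine ⟨fun _ => 1 / (n + 1), interior_maximal hsub hopen ⟨?_, ?_⟩⟩
  · intro i; positivity
  · rw [sum_const, card_univ, nsmul_eq_mul, ← hn]
    rw [mul_one_div, div_lt_one (by positivity)]
    linarith

end Q148.InvTri
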