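import Mathlib

set_option autoImplicit false

/-!
The convex sequences `c + k L + t B^k`.
-/

namespace Q148.Mono

/-- linear plus exponential -/
noncomputable def ff (c L t B : ℝ) (k : ℤ) : ℝ := c + k * L + t * B ^ k

theorem ff_succ {c L t B : ℝ} (hB : 0 < B) (k : ℤ) :
    ff c L t B (k + 1) - ff c L t B k = L + t * B ^ k * (B - 1) := by
  unfold ff
  rw [zpow_add_one₀ hB.ne']
  push_cast
  ring

/-- differences increase -/
theorem ff_diff_mono {c L t B : ℝ} (hB : 1 ≤ B) (ht : 0 ≤ t) {j k : ℤ} (h : j ≤ k) :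
    ff c L t B (j + 1) - ff c L t B j ≤ ff c L t B (k + 1) - ff c L t B k := by
  rw [ff_succ (by linarith), ff_succ (by linarith)]
  have h1 : B ^ j ≤ B ^ k := zpow_le_zpow_right₀ hB h
  have h2 : t * B ^ j * (B - 1) ≤ t * B ^ k * (B - 1) :=
    mul_le_mul_of_nonneg_right (mul_le_mul_of_nonneg_left h1 ht) (by linarith)
  linarith

theorem ff_diff_strict {c L t B : ℝ} (hB : 1 < B) (ht : 0 < t) {j k : ℤ} (h : j < k) :
    ff c L t B (j + 1) - ff c L t B j < ff c L t B (k + 1) - ff c L t B k := by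
  rw [ff_succ (by linarith), ff_succ (by linarith)]
  have h1 : B ^ j < B ^ k := zpow_lt_zpow_right₀ hB h
  have h2 : t * B ^ j * (B - 1) < t * B ^ k * (B - 1) :=
    mul_lt_mul_of_pos_right (mul_lt_mul_of_pos_left h1 ht) (by linarith)
  linarith

theorem ff_lower {c L t B : ℝ} (hB : 1 ≤ B) (ht : 0 ≤ t) (k : ℤ) (n : ℕ) :
    n * (ff c L t B (k + 1) - ff c L t B k) ≤ ff c L t B (k + n) - ff c L t B k := by
  rw [ff_succ (by linarith)]
  have e : ff c L t B (k + n) - ff c L t B k = n * L + t * B ^ k * (B ^ n - 1) := by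
    unfold ff
    rw [zpow_add₀ (by linarith), zpow_natCast]
    push_cast
    ring
  rw [e]
  have h1 : 1 + (n : ℝ) * (B - 1) ≤ (1 + (B - 1)) ^ n := one_add_mul_le_pow (by linarith) n
  rw [show 1 + (B - 1) = B by ring] at h1
  have h2 : 0 ≤ t * B ^ k := mul_nonneg ht (zpow_nonneg (by linarith) k)
  have h3 := mul_le_mul_of_nonneg_left (show (n : ℝ) * (B - 1) ≤ B ^ n - 1 by linarith) h2
  linarith

theorem ff_upper {c L t B : ℝ} (hB : 1 ≤ B) (ht : 0 ≤ t) (k : ℤ) (n : ℕ) :
    ff c L t B k - ff c L t B (k - n) ≤ n * (ff c L t B k - ff c L t B (k - 1)) := by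
  have hB0 : B ≠ 0 := by linarith
  have e : ff c L t B k - ff c L t B (k - n) = n * L + t * B ^ k * (1 - (B⁻¹) ^ n) := by
    unfold ff
    rw [zpow_sub₀ hB0, zpow_natCast, inv_pow]
    push_cast
    field_simp
    ring
  have e' : ff c L t B k - ff c L t B (k - 1) = L + t * B ^ k * (1 - B⁻¹) := by
    unfold ff
    rw [zpow_sub₀ hB0, zpow_one]
    push_cast
    field_simp
    ring
  rw [e, e']
  have h0 : 0 < B⁻¹ := by positivity
  have h1 : 1 + (n : ℝ) * (B⁻¹ - 1) ≤ (1 + (B⁻¹ - 1)) ^ n := one_add_mul_le_pow (by linarith) n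
  rw [show 1 + (B⁻¹ - 1) = B⁻¹ by ring] at h1
  have h2 : 0 ≤ t * B ^ k := mul_nonneg ht (zpow_nonneg (by linarith) k)
  have h3 := mul_le_mul_of_nonneg_left
    (show 1 - (B⁻¹) ^ n ≤ (n : ℝ) * (1 - B⁻¹) by linarith) h2
  linarith

/-- an interior drop to the right means the first step is down -/
theorem ff_first_neg {c L t B : ℝ} (hB : 1 ≤ B) (ht : 0 ≤ t) {k l : ℤ} (h : k < l)
    (hlt : ff c L t B l < ff c L t B k) : ff c L t B (k + 1) < ff c L t B k := by
  obtain ⟨n, rfl⟩ : ∃ n : ℕ, l = k + n := ⟨(l - k).toNat, by omega⟩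
  have h1 := ff_lower (c := c) (L := L) hB ht k n
  by_contra hcon
  push Not at hcon
  have : 0 ≤ (n : ℝ) * (ff c L t B (k + 1) - ff c L t B k) :=
    mul_nonneg (Nat.cast_nonneg n) (by linarith)
  linarith

/-- an increase from the left means the last step is up -/
theorem ff_last_pos {c L t B : ℝ} (hB : 1 ≤ B) (ht : 0 ≤ t) {k l : ℤ} (h : l < k)
    (hlt : ff c L t B l < ff c L t B k) : ff c L t B (k - 1) < ff c L t B k := by
  obtain ⟨n, rfl⟩ : ∃ n : ℕ, l = k - n := ⟨(k - l).toNat, by omega⟩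
  have h1 := ff_upper (c := c) (L := L) hB ht k n
  by_contra hcon
  push Not at hcon
  have : (n : ℝ) * (ff c L t B k - ff c L t B (k - 1)) ≤ 0 :=
    mul_nonpos_of_nonneg_of_nonpos (Nat.cast_nonneg n) (by linarith)
  linarith

/-- quasi-convexity to the right -/
theorem ff_between_right {c L t B : ℝ} (hB : 1 ≤ B) (ht : 0 ≤ t) {i g : ℤ} (h0 : 0 ≤ i)
    (hig : i < g) (h : ff c L t B 0 < ff c L t B g) : ff c L t B i < ff c L t B g := by
  rcases h0.eq_or_lt with rfl | h0
  · exact h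
  by_contra hcon
  push Not at hcon
  have h1 := ff_last_pos (c := c) (L := L) hB ht h0 (lt_of_lt_of_le h hcon)
  have h2 := ff_diff_mono (c := c) (L := L) hB ht (show i - 1 ≤ i by omega)
  rw [show i - 1 + 1 = i by omega] at h2
  have h3 : 0 < ff c L t B (i + 1) - ff c L t B i := by linarith
  obtain ⟨n, hn⟩ : ∃ n : ℕ, g = i + n := ⟨(g - i).toNat, by omega⟩
  have h4 := ff_lower (c := c) (L := L) hB ht i n
  rw [← hn] at h4
  have hn1 : (1 : ℝ) ≤ n := by
    have : 1 ≤ n := by omega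
    exact_mod_cast this
  nlinarith

/-- quasi-convexity to the left -/
theorem ff_between_left {c L t B : ℝ} (hB : 1 ≤ B) (ht : 0 ≤ t) {i g : ℤ} (h0 : 0 ≤ i)
    (hig : i < g) (h : ff c L t B 0 < ff c L t B (-g)) :
    ff c L t B (-i) < ff c L t B (-g) := by
  rcases h0.eq_or_lt with rfl | h0
  · simpa using h
  by_contra hcon
  push Not at hcon
  have h1 := ff_first_neg (c := c) (L := L) hB ht (show -i < 0 by omega)
    (lt_of_lt_of_le h hcon)
  have h2 := ff_diff_mono (c := c) (L := L) hB ht (show -i - 1 ≤ -i by omega)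
  rw [show -i - 1 + 1 = -i by omega] at h2
  have h3 : ff c L t B (-i) - ff c L t B (-i - 1) < 0 := by linarith
  obtain ⟨n, hn⟩ : ∃ n : ℕ, -g = -i - n := ⟨(g - i).toNat, by omega⟩
  have h4 := ff_upper (c := c) (L := L) hB ht (-i) n
  rw [← hn] at h4
  have hn1 : (1 : ℝ) ≤ n := by
    have : 1 ≤ n := by omega
    exact_mod_cast this
  nlinarith

/-- growth: two steps after the minimum the sequence exceeds everything on the left -/
theorem ff_growth {c L t B : ℝ} (hB : 1 < B) (ht : 0 < t) {j k : ℤ} (hjk : j < k)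
    (hlen : ((k - j : ℤ) : ℝ) ≤ B) (h1 : ff c L t B (j + 1) < ff c L t B j)
    (h2 : ff c L t B (k - 2) < ff c L t B (k - 1)) : ff c L t B j < ff c L t B k := by
  have hB0 : 0 < B := by linarith
  have hL : L < 0 := by
    have := ff_succ (c := c) (L := L) (t := t) hB0 j
    have h3 : 0 < t * B ^ j * (B - 1) := by
      have : 0 < B ^ j := zpow_pos hB0 j
      have : 0 < B - 1 := by linarith
      positivity
    linarith
  have e2 : ff c L t B (k - 1) - ff c L t B (k - 2) = L + t * B ^ (k - 2) * (B - 1) := by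
    have := ff_succ (c := c) (L := L) (t := t) hB0 (k - 2)
    rw [show k - 2 + 1 = k - 1 by ring] at this
    exact this
  have e1 : ff c L t B k - ff c L t B (k - 1) = L + B * (t * B ^ (k - 2) * (B - 1)) := by
    have := ff_succ (c := c) (L := L) (t := t) hB0 (k - 1)
    rw [show k - 1 + 1 = k by ring] at this
    rw [this, show k - 1 = (k - 2) + 1 by ring, zpow_add_one₀ hB0.ne']
    ring
  have h3 : (1 - B) * L < ff c L t B k - ff c L t B (k - 1) := by
    rw [e1]
    have : -L < t * B ^ (k - 2) * (B - 1) := by linarith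
    nlinarith
  have h4 : ((k - 1 - j : ℤ) : ℝ) * L ≤ ff c L t B (k - 1) - ff c L t B j := by
    unfold ff
    have h5 : B ^ j ≤ B ^ (k - 1) := zpow_le_zpow_right₀ hB.le (by omega)
    have h6 : t * B ^ j ≤ t * B ^ (k - 1) := mul_le_mul_of_nonneg_left h5 ht.le
    push_cast
    linarith
  have h5 : ((k - j : ℤ) : ℝ) * L ≥ B * L := by nlinarith
  push_cast at h4 h5
  nlinarith

end Q148.Mono
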