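import Mathlib

set_option autoImplicit false

/-!
Monotone path covers of complete geometric graphs: definitions.
-/

namespace Q148.Mono

/-- The Euclidean distance in the plane. -/
noncomputable def eucl (p q : ℝ × ℝ) : ℝ := Real.sqrt ((p.1 - q.1) ^ 2 + (p.2 - q.2) ^ 2)

/-- No three distinct points of `A` are collinear. -/
def GeneralPosition (A : Finset (ℝ × ℝ)) : Prop :=
  ∀ a ∈ A, ∀ b ∈ A, ∀ c ∈ A, a ≠ b → a ≠ c → b ≠ c → ¬ Collinear ℝ {a, b, c}

/-- `A` is `α`-dense: the ratio of any pairwise distance to any other pairwise distance (of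
two distinct points) is at most `α √|A|`. -/
def Dense (α : ℝ) (A : Finset (ℝ × ℝ)) : Prop :=
  ∀ p ∈ A, ∀ q ∈ A, ∀ r ∈ A, ∀ s ∈ A, r ≠ s →
    eucl p q ≤ α * Real.sqrt A.card * eucl r s

/-- `l` is the vertex sequence of a monotone path in the complete geometric graph on `A`: its
vertices belong to `A`, and for some direction `u ≠ 0` every step has positive inner product
with `u`. -/
structure IsMonotonePath (A : Finset (ℝ × ℝ)) (l : List (ℝ × ℝ)) : Prop where
  mem : ∀ v ∈ l, v ∈ A
  mono : ∃ u : ℝ × ℝ, u ≠ 0 ∧ ∀ (i : ℕ) (_ : i + 1 < l.length),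
    0 < (l[i + 1].1 - l[i].1) * u.1 + (l[i + 1].2 - l[i].2) * u.2

/-- The complete geometric graph on `A` can be covered by `k` monotone paths: every edge `uv`
(with `u ≠ v` in `A`) joins two consecutive vertices of one of the paths. -/
def CoverableBy (A : Finset (ℝ × ℝ)) (k : ℕ) : Prop :=
  ∃ F : Fin k → List (ℝ × ℝ), (∀ r, IsMonotonePath A (F r)) ∧
    ∀ u ∈ A, ∀ v ∈ A, u ≠ v → ∃ (r : Fin k) (i : ℕ) (_ : i + 1 < (F r).length),
      ((F r)[i] = u ∧ (F r)[i + 1] = v) ∨ ((F r)[i] = v ∧ (F r)[i + 1] = u)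

/-- `mc(A)`: the minimum number of monotone paths covering the complete geometric graph. -/
noncomputable def mc (A : Finset (ℝ × ℝ)) : ℕ := sInf {k | CoverableBy A k}

end Q148.Mono
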