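import Pool.Agent.Q148.MonoDefs

set_option autoImplicit false

/-!
Perturbed grids: `P z = K z + φ(z) (1, N)`.
-/

namespace Q148.Mono

theorem exists_coverable (A : Finset (ℝ × ℝ)) : ∃ k, CoverableBy A k := by
  classical
  refine ⟨A.offDiag.card, fun r => [(A.offDiag.equivFin.symm r).1.1,
    (A.offDiag.equivFin.symm r).1.2], fun r => ?_, fun u hu v hv huv => ?_⟩
  · have h := (A.offDiag.equivFin.symm r).2
    rw [Finset.mem_offDiag] at h
    refine ⟨?_, ?_⟩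
    · intro v hv
      simp only [List.mem_cons, List.not_mem_nil, or_false] at hv
      rcases hv with rfl | rfl
      · exact h.1
      · exact h.2.1
    · set a := (A.offDiag.equivFin.symm r).1.1
      set b := (A.offDiag.equivFin.symm r).1.2
      have hne : a ≠ b := h.2.2
      refine ⟨(b.1 - a.1, b.2 - a.2), ?_, ?_⟩
      · intro h0
        rw [Prod.mk_eq_zero] at h0
        exact hne (Prod.ext (by linarith [h0.1]) (by linarith [h0.2]))
      · intro i hi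
        simp only [List.length_cons, List.length_nil] at hi
        have hi0 : i = 0 := by omega
        subst hi0
        simp only [List.getElem_cons_zero, List.getElem_cons_succ, zero_add]
        rcases eq_or_ne (b.1 - a.1) 0 with h1 | h1
        · have h2 : b.2 - a.2 ≠ 0 := fun h2 => hne (Prod.ext (by linarith) (by linarith))
          have h3 : 0 < (b.2 - a.2) * (b.2 - a.2) := mul_self_pos.mpr h2
          change 0 < (b.1 - a.1) * (b.1 - a.1) + (b.2 - a.2) * (b.2 - a.2)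
          rw [h1]; linarith
        · have h3 : 0 < (b.1 - a.1) * (b.1 - a.1) := mul_self_pos.mpr h1
          change 0 < (b.1 - a.1) * (b.1 - a.1) + (b.2 - a.2) * (b.2 - a.2)
          linarith [mul_self_nonneg (b.2 - a.2)]
  · have hm : (u, v) ∈ A.offDiag := by
      rw [Finset.mem_offDiag]; exact ⟨hu, hv, huv⟩
    refine ⟨A.offDiag.equivFin ⟨(u, v), hm⟩, 0, by simp, Or.inl ?_⟩
    simp

theorem coverable_mc (A : Finset (ℝ × ℝ)) : CoverableBy A (mc A) :=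
  Nat.sInf_mem (exists_coverable A)

theorem mc_le {A : Finset (ℝ × ℝ)} {k : ℕ} (h : CoverableBy A k) : mc A ≤ k := Nat.sInf_le h

/-- the square grid `{0, …, N-1}²` -/
noncomputable def box (N : ℕ) : Finset (ℤ × ℤ) := Finset.Ico (0 : ℤ) N ×ˢ Finset.Ico (0 : ℤ) N

theorem mem_box {N : ℕ} {z : ℤ × ℤ} :
    z ∈ box N ↔ (0 ≤ z.1 ∧ z.1 < N) ∧ (0 ≤ z.2 ∧ z.2 < N) := by
  simp [box, Finset.mem_product]

theorem card_box (N : ℕ) : (box N).card = N * N := by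
  simp [box]

/-- the perturbed grid points -/
def P (N : ℕ) (K : ℝ) (φ : ℤ × ℤ → ℝ) (z : ℤ × ℤ) : ℝ × ℝ :=
  (K * z.1 + φ z, K * z.2 + N * φ z)

/-- orientation determinant -/
def orr (a b c : ℝ × ℝ) : ℝ := (b.1 - a.1) * (c.2 - a.2) - (b.2 - a.2) * (c.1 - a.1)

theorem collinear_orr {a b c : ℝ × ℝ} (h : Collinear ℝ {a, b, c}) : orr a b c = 0 := by
  obtain ⟨v, hv⟩ := (collinear_iff_of_mem (p₀ := a) (by simp)).mp h
  obtain ⟨r, hr⟩ := hv b (by simp)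
  obtain ⟨s, hs⟩ := hv c (by simp)
  have h1 : b.1 = r * v.1 + a.1 := by rw [hr]; simp
  have h2 : b.2 = r * v.2 + a.2 := by rw [hr]; simp
  have h3 : c.1 = s * v.1 + a.1 := by rw [hs]; simp
  have h4 : c.2 = s * v.2 + a.2 := by rw [hs]; simp
  unfold orr
  rw [h1, h2, h3, h4]
  ring

/-- hypotheses on the perturbation: nonnegative, bounded by `Φ`, and strictly convex-like
along lines -/
structure Good (N : ℕ) (φ : ℤ × ℤ → ℝ) (Φ : ℝ) : Prop where
  pos : 0 < Φ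
  nonneg : ∀ z ∈ box N, 0 ≤ φ z
  le : ∀ z ∈ box N, φ z ≤ Φ
  conv : ∀ p ∈ box N, ∀ q ∈ box N, ∀ r ∈ box N, p ≠ q → p ≠ r → q ≠ r →
    (q.1 - p.1) * (r.2 - p.2) - (q.2 - p.2) * (r.1 - p.1) = 0 →
    (φ r - φ p) * ((q.1 - p.1 : ℤ) * N - (q.2 - p.2 : ℤ)) -
      (φ q - φ p) * ((r.1 - p.1 : ℤ) * N - (r.2 - p.2 : ℤ)) ≠ 0

theorem kap_ne {N : ℕ} {p q : ℤ × ℤ} (hp : p ∈ box N) (hq : q ∈ box N) (hne : p ≠ q) :
    (q.1 - p.1) * N - (q.2 - p.2) ≠ 0 := by
  rw [mem_box] at hp hq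
  intro h
  by_cases h1 : q.1 - p.1 = 0
  · rw [h1] at h
    exact hne (Prod.ext (by omega) (by omega))
  · have h2 : (q.1 - p.1) * (N : ℤ) = q.2 - p.2 := by omega
    have h3 : |q.2 - p.2| < N := by rw [abs_lt]; omega
    rw [← h2, abs_mul, abs_of_nonneg (Int.natCast_nonneg N)] at h3
    have h4 : 1 ≤ |q.1 - p.1| := Int.one_le_abs h1
    nlinarith

theorem ee_ne {N : ℕ} {p q : ℤ × ℤ} (hp : p ∈ box N) (hq : q ∈ box N) (hne : p ≠ q) :
    (q.1 - p.1) * N + (q.2 - p.2) ≠ 0 := by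
  rw [mem_box] at hp hq
  intro h
  by_cases h1 : q.1 - p.1 = 0
  · rw [h1] at h
    exact hne (Prod.ext (by omega) (by omega))
  · have h2 : (q.1 - p.1) * (N : ℤ) = -(q.2 - p.2) := by omega
    have h3 : |-(q.2 - p.2)| < N := by rw [abs_lt]; omega
    rw [← h2, abs_mul, abs_of_nonneg (Int.natCast_nonneg N)] at h3
    have h4 : 1 ≤ |q.1 - p.1| := Int.one_le_abs h1
    nlinarith

theorem kap_le {N : ℕ} {p q : ℤ × ℤ} (hp : p ∈ box N) (hq : q ∈ box N) :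
    |(((q.1 - p.1 : ℤ) : ℝ) * N - (q.2 - p.2 : ℤ))| ≤ (N : ℝ) ^ 2 := by
  rw [mem_box] at hp hq
  have h1 : |(q.1 - p.1) * (N : ℤ) - (q.2 - p.2)| ≤ N ^ 2 := by
    have : 1 ≤ (N : ℤ) := by omega
    rw [abs_le]
    constructor <;> nlinarith
  exact_mod_cast h1

theorem orr_P {N : ℕ} {K : ℝ} {φ : ℤ × ℤ → ℝ} (p q r : ℤ × ℤ) :
    orr (P N K φ p) (P N K φ q) (P N K φ r) =
      K * (K * (((q.1 - p.1) * (r.2 - p.2) - (q.2 - p.2) * (r.1 - p.1) : ℤ) : ℝ) +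
      ((φ r - φ p) * ((q.1 - p.1 : ℤ) * N - (q.2 - p.2 : ℤ)) -
      (φ q - φ p) * ((r.1 - p.1 : ℤ) * N - (r.2 - p.2 : ℤ)))) := by
  unfold orr P
  push_cast
  ring

theorem orr_P_ne {N : ℕ} {K : ℝ} {φ : ℤ × ℤ → ℝ} {Φ : ℝ} (h : Good N φ Φ)
    (hK : 4 * Φ * N ^ 2 < K) {p q r : ℤ × ℤ} (hp : p ∈ box N) (hq : q ∈ box N) (hr : r ∈ box N)
    (hpq : p ≠ q) (hpr : p ≠ r) (hqr : q ≠ r) :
    orr (P N K φ p) (P N K φ q) (P N K φ r) ≠ 0 := by
  have hKpos : 0 < K := lt_of_le_of_lt (by have := h.pos; positivity) hK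
  rw [orr_P]
  refine mul_ne_zero hKpos.ne' ?_
  set D := (q.1 - p.1) * (r.2 - p.2) - (q.2 - p.2) * (r.1 - p.1) with hD
  by_cases hD0 : D = 0
  · rw [hD0]
    simpa using h.conv p hp q hq r hr hpq hpr hqr hD0
  · intro h0
    have h1 := kap_le hp hq
    have h2 := kap_le hp hr
    have h3 : |φ r - φ p| ≤ Φ := abs_le.mpr ⟨by linarith [h.nonneg r hr, h.le p hp],
      by linarith [h.nonneg p hp, h.le r hr]⟩
    have h4 : |φ q - φ p| ≤ Φ := abs_le.mpr ⟨by linarith [h.nonneg q hq, h.le p hp],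
      by linarith [h.nonneg p hp, h.le q hq]⟩
    have h5 : |(φ r - φ p) * ((q.1 - p.1 : ℤ) * N - (q.2 - p.2 : ℤ))| ≤ Φ * N ^ 2 := by
      rw [abs_mul]; exact mul_le_mul h3 h1 (abs_nonneg _) h.pos.le
    have h6 : |(φ q - φ p) * ((r.1 - p.1 : ℤ) * N - (r.2 - p.2 : ℤ))| ≤ Φ * N ^ 2 := by
      rw [abs_mul]; exact mul_le_mul h4 h2 (abs_nonneg _) h.pos.le
    have h7 : (1 : ℝ) ≤ |(D : ℝ)| := by
      have : 1 ≤ |D| := Int.one_le_abs hD0
      exact_mod_cast this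
    have h8 : K * |(D : ℝ)| ≤ 2 * (Φ * N ^ 2) := by
      have : K * |(D : ℝ)| = |K * D| := by rw [abs_mul, abs_of_pos hKpos]
      rw [this]
      have : K * (D : ℝ) = (φ q - φ p) * ((r.1 - p.1 : ℤ) * N - (r.2 - p.2 : ℤ)) -
          (φ r - φ p) * ((q.1 - p.1 : ℤ) * N - (q.2 - p.2 : ℤ)) := by linarith
      rw [this]
      refine (abs_sub _ _).trans ?_
      linarith
    have h9 : 0 < Φ * N ^ 2 ∨ Φ * (N : ℝ) ^ 2 = 0 := by
      have := h.pos
      rcases Nat.eq_zero_or_pos N with h | h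
      · right; rw [h]; simp
      · left; positivity
    nlinarith

theorem P_inj {N : ℕ} {K : ℝ} {φ : ℤ × ℤ → ℝ} {Φ : ℝ} (h : Good N φ Φ)
    (hK : 4 * Φ * N ^ 2 < K) {p q : ℤ × ℤ} (hp : p ∈ box N) (hq : q ∈ box N)
    (he : P N K φ p = P N K φ q) : p = q := by
  by_contra hne
  have hKpos : 0 < K := lt_of_le_of_lt (by have := h.pos; positivity) hK
  unfold P at he
  rw [Prod.mk.injEq] at he
  have hk := kap_ne hp hq hne
  have h1 : K * (((q.1 - p.1) * N - (q.2 - p.2) : ℤ) : ℝ) = 0 := by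
    push_cast
    linear_combination (-(N : ℝ)) * he.1 + he.2
  rcases mul_eq_zero.mp h1 with h2 | h2
  · exact hKpos.ne' h2
  · exact hk (by exact_mod_cast h2)

/-- lower bound for distances -/
theorem dist_lower {N : ℕ} {K : ℝ} {φ : ℤ × ℤ → ℝ} {Φ : ℝ} (h : Good N φ Φ)
    (hK : 100 * Φ * N ^ 2 < K) {p q : ℤ × ℤ} (hp : p ∈ box N) (hq : q ∈ box N) (hne : p ≠ q) :
    K - N * Φ ≤ eucl (P N K φ p) (P N K φ q) := by
  have hN : (1 : ℝ) ≤ N := by
    rw [mem_box] at hp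
    have : 1 ≤ (N : ℤ) := by omega
    exact_mod_cast this
  have hΦ := h.pos
  have h4 : |φ p - φ q| ≤ Φ := abs_le.mpr ⟨by linarith [h.nonneg p hp, h.le q hq],
      by linarith [h.nonneg q hq, h.le p hp]⟩
  unfold eucl P
  apply Real.le_sqrt_of_sq_le
  simp only
  have h5 : Φ ≤ N * Φ := by nlinarith
  have hK' : 0 ≤ K - N * Φ := by nlinarith
  rcases eq_or_ne p.1 q.1 with h1 | h1
  · have h2 : p.2 ≠ q.2 := fun h2 => hne (Prod.ext h1 h2)
    have h3 : (1 : ℝ) ≤ |(p.2 : ℝ) - q.2| := by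
      have : 1 ≤ |p.2 - q.2| := Int.one_le_abs (sub_ne_zero.mpr h2)
      exact_mod_cast this
    have h6 : K - N * Φ ≤ |K * p.2 + N * φ p - (K * q.2 + N * φ q)| := by
      have e : K * (p.2 : ℝ) + N * φ p - (K * q.2 + N * φ q) =
        K * ((p.2 : ℝ) - q.2) - (-(N * (φ p - φ q))) := by ring
      rw [e]
      refine le_trans ?_ (abs_sub_abs_le_abs_sub _ _)
      rw [abs_neg, abs_mul, abs_mul, abs_of_pos (by nlinarith : 0 < K),
        abs_of_pos (by linarith : (0 : ℝ) < N)]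
      have : N * |φ p - φ q| ≤ N * Φ := mul_le_mul_of_nonneg_left h4 (by linarith)
      nlinarith
    have h7 : (K - N * Φ) ^ 2 ≤ (K * (p.2 : ℝ) + N * φ p - (K * q.2 + N * φ q)) ^ 2 := by
      rw [← sq_abs (K * (p.2 : ℝ) + N * φ p - (K * q.2 + N * φ q))]
      exact pow_le_pow_left₀ hK' h6 2
    nlinarith [sq_nonneg (K * (p.1 : ℝ) + φ p - (K * q.1 + φ q))]
  · have h3 : (1 : ℝ) ≤ |(p.1 : ℝ) - q.1| := by
      have : 1 ≤ |p.1 - q.1| := Int.one_le_abs (sub_ne_zero.mpr h1)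
      exact_mod_cast this
    have h6 : K - N * Φ ≤ |K * p.1 + φ p - (K * q.1 + φ q)| := by
      have e : K * (p.1 : ℝ) + φ p - (K * q.1 + φ q) =
        K * ((p.1 : ℝ) - q.1) - (-(φ p - φ q)) := by ring
      rw [e]
      refine le_trans ?_ (abs_sub_abs_le_abs_sub _ _)
      rw [abs_neg, abs_mul, abs_of_pos (by nlinarith : 0 < K)]
      nlinarith
    have h7 : (K - N * Φ) ^ 2 ≤ (K * (p.1 : ℝ) + φ p - (K * q.1 + φ q)) ^ 2 := by
      rw [← sq_abs (K * (p.1 : ℝ) + φ p - (K * q.1 + φ q))]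
      exact pow_le_pow_left₀ hK' h6 2
    nlinarith [sq_nonneg (K * (p.2 : ℝ) + N * φ p - (K * q.2 + N * φ q))]

/-- upper bound for distances -/
theorem dist_upper {N : ℕ} {K : ℝ} {φ : ℤ × ℤ → ℝ} {Φ : ℝ} (h : Good N φ Φ)
    (hK : 100 * Φ * N ^ 2 < K) {p q : ℤ × ℤ} (hp : p ∈ box N) (hq : q ∈ box N) :
    eucl (P N K φ p) (P N K φ q) ≤ Real.sqrt 2 * (K * (N - 1) + N * Φ) := by
  have hN : (1 : ℝ) ≤ N := by
    rw [mem_box] at hp
    have : 1 ≤ (N : ℤ) := by omega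
    exact_mod_cast this
  have hΦ := h.pos
  have hKpos : 0 < K := lt_of_le_of_lt (by positivity) hK
  have h4 : |φ p - φ q| ≤ Φ := abs_le.mpr ⟨by linarith [h.nonneg p hp, h.le q hq],
      by linarith [h.nonneg q hq, h.le p hp]⟩
  have h5 : Φ ≤ N * Φ := by nlinarith
  rw [mem_box] at hp hq
  have hx : |(p.1 : ℝ) - q.1| ≤ N - 1 := by
    have : |p.1 - q.1| ≤ N - 1 := by rw [abs_le]; omega
    exact_mod_cast this
  have hy : |(p.2 : ℝ) - q.2| ≤ N - 1 := by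
    have : |p.2 - q.2| ≤ N - 1 := by rw [abs_le]; omega
    exact_mod_cast this
  have h6 : |K * (p.1 : ℝ) + φ p - (K * q.1 + φ q)| ≤ K * (N - 1) + N * Φ := by
    have e : K * (p.1 : ℝ) + φ p - (K * q.1 + φ q) = K * ((p.1 : ℝ) - q.1) + (φ p - φ q) := by
      ring
    rw [e]
    refine (abs_add_le _ _).trans ?_
    rw [abs_mul, abs_of_pos hKpos]
    have := mul_le_mul_of_nonneg_left hx hKpos.le
    linarith
  have h7 : |K * (p.2 : ℝ) + N * φ p - (K * q.2 + N * φ q)| ≤ K * (N - 1) + N * Φ := by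
    have e : K * (p.2 : ℝ) + N * φ p - (K * q.2 + N * φ q) =
      K * ((p.2 : ℝ) - q.2) + N * (φ p - φ q) := by ring
    rw [e]
    refine (abs_add_le _ _).trans ?_
    rw [abs_mul, abs_of_pos hKpos, abs_mul, abs_of_pos (by linarith : (0 : ℝ) < N)]
    have := mul_le_mul_of_nonneg_left hy hKpos.le
    have : N * |φ p - φ q| ≤ N * Φ := mul_le_mul_of_nonneg_left h4 (by linarith)
    linarith
  have h0 : 0 ≤ K * (N - 1) + N * Φ := (abs_nonneg _).trans h6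
  unfold eucl P
  rw [← Real.sqrt_sq h0, ← Real.sqrt_mul (by norm_num)]
  apply Real.sqrt_le_sqrt
  simp only
  have h8 : (K * (p.1 : ℝ) + φ p - (K * q.1 + φ q)) ^ 2 ≤ (K * (N - 1) + N * Φ) ^ 2 := by
    rw [← sq_abs (K * (p.1 : ℝ) + φ p - (K * q.1 + φ q))]
    exact pow_le_pow_left₀ (abs_nonneg _) h6 2
  have h9 : (K * (p.2 : ℝ) + N * φ p - (K * q.2 + N * φ q)) ^ 2 ≤
      (K * (N - 1) + N * Φ) ^ 2 := by
    rw [← sq_abs (K * (p.2 : ℝ) + N * φ p - (K * q.2 + N * φ q))]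
    exact pow_le_pow_left₀ (abs_nonneg _) h7 2
  linarith

/-- the perturbed image of a subset of the grid -/
noncomputable def img (N : ℕ) (K : ℝ) (φ : ℤ × ℤ → ℝ) (S : Finset (ℤ × ℤ)) :
    Finset (ℝ × ℝ) := by
  classical exact S.image (P N K φ)

theorem mem_img {N : ℕ} {K : ℝ} {φ : ℤ × ℤ → ℝ} {S : Finset (ℤ × ℤ)} {v : ℝ × ℝ} :
    v ∈ img N K φ S ↔ ∃ z ∈ S, P N K φ z = v := by
  classical
  unfold img
  rw [Finset.mem_image]

theorem card_img {N : ℕ} {K : ℝ} {φ : ℤ × ℤ → ℝ} {Φ : ℝ} (h : Good N φ Φ)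
    (hK : 4 * Φ * N ^ 2 < K) {S : Finset (ℤ × ℤ)} (hS : S ⊆ box N) :
    (img N K φ S).card = S.card := by
  classical
  unfold img
  exact Finset.card_image_of_injOn fun p hp q hq he => P_inj h hK (hS hp) (hS hq) he

theorem generalPosition_img {N : ℕ} {K : ℝ} {φ : ℤ × ℤ → ℝ} {Φ : ℝ} (h : Good N φ Φ)
    (hK : 4 * Φ * N ^ 2 < K) {S : Finset (ℤ × ℤ)} (hS : S ⊆ box N) :
    GeneralPosition (img N K φ S) := by
  intro a ha b hb c hc h1 h2 h3 hcol
  obtain ⟨a, ha', rfl⟩ := mem_img.mp ha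
  obtain ⟨b, hb', rfl⟩ := mem_img.mp hb
  obtain ⟨c, hc', rfl⟩ := mem_img.mp hc
  exact orr_P_ne h hK (hS ha') (hS hb') (hS hc') (fun h => h1 (by rw [h]))
    (fun h => h2 (by rw [h])) (fun h => h3 (by rw [h])) (collinear_orr hcol)

theorem dense_img {N : ℕ} {K : ℝ} {φ : ℤ × ℤ → ℝ} {Φ : ℝ} (h : Good N φ Φ)
    (hK : 100 * Φ * N ^ 2 < K) {S : Finset (ℤ × ℤ)} (hS : S ⊆ box N)
    (hcard : (N - 1) ^ 2 < S.card) : Dense 2 (img N K φ S) := by
  have hΦ := h.pos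
  have hK4 : 4 * Φ * N ^ 2 < K := lt_of_le_of_lt (by nlinarith [sq_nonneg (N : ℝ)]) hK
  intro p hp q hq r hr s hs hrs
  rw [card_img h hK4 hS]
  obtain ⟨p, hp', rfl⟩ := mem_img.mp hp
  obtain ⟨q, hq', rfl⟩ := mem_img.mp hq
  obtain ⟨r, hr', rfl⟩ := mem_img.mp hr
  obtain ⟨s, hs', rfl⟩ := mem_img.mp hs
  have hrs' : r ≠ s := fun e => hrs (by rw [e])
  have h1 := dist_upper h hK (hS hp') (hS hq')
  have h2 := dist_lower h hK (hS hr') (hS hs') hrs'
  refine h1.trans ?_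
  have hN2 : (2 : ℝ) ≤ N := by
    have hr2 := mem_box.mp (hS hr')
    have hs2 := mem_box.mp (hS hs')
    have : 2 ≤ (N : ℤ) := by
      by_contra hcon
      exact hrs' (Prod.ext (by omega) (by omega))
    exact_mod_cast this
  have hsq : (N : ℝ) - 1 ≤ Real.sqrt S.card := by
    apply Real.le_sqrt_of_sq_le
    have h3 : (((N - 1) ^ 2 : ℕ) : ℝ) ≤ (S.card : ℝ) := by exact_mod_cast hcard.le
    rw [Nat.cast_pow, Nat.cast_sub (by exact_mod_cast (by linarith : (1 : ℝ) ≤ N))] at h3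
    simpa using h3
  have hs2 : Real.sqrt 2 ≤ 3 / 2 := by
    rw [Real.sqrt_le_left (by norm_num)]; norm_num
  have hs0 : 0 ≤ Real.sqrt 2 := Real.sqrt_nonneg 2
  have hK' : 0 ≤ K - N * Φ := by
    have e0 : N * Φ ≤ 100 * Φ * N ^ 2 := by
      have : 0 ≤ (N * Φ) * (100 * N - 1) := mul_nonneg (by positivity) (by linarith)
      nlinarith
    linarith
  have h5 : 0 ≤ K * ((N : ℝ) - 1) + N * Φ := by
    have : 0 < K := lt_of_le_of_lt (by positivity) hK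
    have : 0 ≤ K * ((N : ℝ) - 1) := mul_nonneg this.le (by linarith)
    positivity
  calc Real.sqrt 2 * (K * (N - 1) + N * Φ) ≤ 3 / 2 * (K * (N - 1) + N * Φ) :=
        mul_le_mul_of_nonneg_right hs2 h5
    _ ≤ 2 * ((N : ℝ) - 1) * (K - N * Φ) := by
        have e1 : 100 * Φ * N ^ 2 * (N - 1) ≤ K * ((N : ℝ) - 1) :=
          mul_le_mul_of_nonneg_right hK.le (by linarith)
        have e2 : 3 / 2 * (N * Φ) + 2 * ((N : ℝ) - 1) * (N * Φ) ≤
            1 / 2 * (100 * Φ * N ^ 2 * (N - 1)) := by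
          have e3 : 3 / 2 * (N * Φ) + 2 * ((N : ℝ) - 1) * (N * Φ) =
            (N * Φ) * (3 / 2 + 2 * (N - 1)) := by ring
          have e4 : 1 / 2 * (100 * Φ * (N : ℝ) ^ 2 * (N - 1)) =
            (N * Φ) * (50 * (N * (N - 1))) := by ring
          rw [e3, e4]
          refine mul_le_mul_of_nonneg_left ?_ (by positivity)
          nlinarith
        nlinarith
    _ ≤ 2 * Real.sqrt S.card * (K - N * Φ) := by
        refine mul_le_mul_of_nonneg_right ?_ hK'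
        linarith
    _ ≤ _ := by
        refine mul_le_mul_of_nonneg_left h2 (by positivity)

end Q148.Mono
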