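import Mathlib

set_option autoImplicit false

/-!
Sums of a weight over the consecutive pairs of a list; telescoping bounds; covering families of
lists.
-/

namespace Q148.PS

open Finset

/-- sum of a weight over the consecutive pairs of a list -/
def psum {α : Type} (g : α → α → ℕ) : List α → ℕ
  | [] => 0
  | [_] => 0
  | a :: b :: l => g a b + psum g (b :: l)

theorem psum_add {α : Type} (g h : α → α → ℕ) (l : List α) :
    psum (fun a b => g a b + h a b) l = psum g l + psum h l := by
  induction l with
  | nil => rfl
  | cons a l ih =>
    cases l with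
    | nil => rfl
    | cons b l => simp only [psum]; rw [ih]; ring

theorem psum_mul {α : Type} (c : ℕ) (g : α → α → ℕ) (l : List α) :
    psum (fun a b => c * g a b) l = c * psum g l := by
  induction l with
  | nil => rfl
  | cons a l ih =>
    cases l with
    | nil => rfl
    | cons b l => simp only [psum]; rw [ih]; ring

theorem psum_zero {α : Type} (l : List α) : psum (fun _ _ => 0) l = 0 := by
  induction l with
  | nil => rfl
  | cons a l ih =>
    cases l with
    | nil => rfl
    | cons b l => simp only [psum]; rw [ih]

theorem psum_sum {α ι : Type} (s : Finset ι) (g : ι → α → α → ℕ) (l : List α) :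
    psum (fun a b => ∑ i ∈ s, g i a b) l = ∑ i ∈ s, psum (g i) l := by
  classical
  induction s using Finset.induction_on with
  | empty => simpa using psum_zero l
  | insert i s hi ih =>
    simp only [Finset.sum_insert hi]
    rw [psum_add, ih]

theorem psum_mono {α : Type} {g h : α → α → ℕ} (e : ∀ a b, g a b ≤ h a b) (l : List α) :
    psum g l ≤ psum h l := by
  induction l with
  | nil => exact le_rfl
  | cons a l ih =>
    cases l with
    | nil => exact le_rfl
    | cons b l => simp only [psum]; exact Nat.add_le_add (e a b) ih

theorem one_le_psum {α : Type} {g : α → α → ℕ} (l : List α) (i : ℕ) (hi : i + 1 < l.length)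
    (h : 1 ≤ g l[i] l[i + 1]) : 1 ≤ psum g l := by
  induction l generalizing i with
  | nil => simp at hi
  | cons a l ih =>
    cases l with
    | nil => simp at hi
    | cons b l =>
      cases i with
      | zero => simp only [psum]; simp at h; omega
      | succ i =>
        simp only [psum]
        have := ih i (by simpa using hi) (by simpa using h)
        omega

/-- telescoping along a list on which a potential increases -/
theorem psum_tele_inc {α : Type} {g : α → α → ℕ} {F c : α → ℕ} {T : ℕ} (R : α → α → Prop)
    (H : ∀ a b, R a b → g a b + F a ≤ F b + (c a + c b)) (l : List α)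
    (hT : ∀ a ∈ l, F a ≤ T) (hl : l.IsChain R) :
    psum g l ≤ T + 2 * (l.map c).sum := by
  have key : ∀ l : List α, (∀ a ∈ l, F a ≤ T) → l.IsChain R →
      psum g l + (match l with | [] => 0 | a :: _ => F a + c a) ≤ T + 2 * (l.map c).sum := by
    intro l
    induction l with
    | nil => intro _ _; simp [psum]
    | cons a l ih =>
      intro hT hl
      cases l with
      | nil => have := hT a (by simp); simp [psum]; omega
      | cons b l =>
        rw [List.isChain_cons_cons] at hl
        have h1 := ih (fun x hx => hT x (List.mem_cons_of_mem _ hx)) hl.2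
        have h2 := H a b hl.1
        simp only [psum, List.map_cons, List.sum_cons] at h1 ⊢
        omega
  have := key l hT hl
  omega

/-- telescoping along a list on which a potential decreases -/
theorem psum_tele_dec {α : Type} {g : α → α → ℕ} {F c : α → ℕ} {T : ℕ} (R : α → α → Prop)
    (H : ∀ a b, R a b → g a b + F b ≤ F a + (c a + c b)) (l : List α)
    (hT : ∀ a ∈ l, F a ≤ T) (hl : l.IsChain R) :
    psum g l ≤ T + 2 * (l.map c).sum := by
  have key : ∀ l : List α, l.IsChain R →
      psum g l + (match l with | [] => 0 | a :: _ => c a) ≤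
        (match l with | [] => 0 | a :: _ => F a) + 2 * (l.map c).sum := by
    intro l
    induction l with
    | nil => intro _; simp [psum]
    | cons a l ih =>
      intro hl
      cases l with
      | nil => simp [psum]; omega
      | cons b l =>
        rw [List.isChain_cons_cons] at hl
        have h1 := ih hl.2
        have h2 := H a b hl.1
        simp only [psum, List.map_cons, List.sum_cons] at h1 ⊢
        omega
  have h1 := key l hl
  cases l with
  | nil => simp [psum]
  | cons a l =>
    have h2 := hT a (by simp)
    simp only at h1
    omega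

/-- if `k` lists cover all pairs of distinct elements of `S` and each has weight at most `B`,
then the total weight of the ordered pairs is at most `2kB` -/
theorem cover_total {α : Type} [DecidableEq α] (S : Finset α) (g : α → α → ℕ)
    (hsymm : ∀ a b, g a b = g b a) (hdiag : ∀ a, g a a = 0) {k B : ℕ} (L : Fin k → List α)
    (hcov : ∀ u ∈ S, ∀ v ∈ S, u ≠ v → ∃ (r : Fin k) (i : ℕ) (hi : i + 1 < (L r).length),
      ((L r)[i] = u ∧ (L r)[i + 1] = v) ∨ ((L r)[i] = v ∧ (L r)[i + 1] = u))
    (hB : ∀ r, psum g (L r) ≤ B) : ∑ e ∈ S ×ˢ S, g e.1 e.2 ≤ 2 * k * B := by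
  let δ : α × α → α → α → ℕ :=
    fun e a b => (if e = (a, b) then 1 else 0) + (if e = (b, a) then 1 else 0)
  have h1 : ∀ l : List α, ∑ e ∈ S ×ˢ S, g e.1 e.2 * psum (δ e) l ≤ 2 * psum g l := by
    intro l
    have e1 : ∀ e : α × α, g e.1 e.2 * psum (δ e) l =
        psum (fun a b => g e.1 e.2 * δ e a b) l := fun e => (psum_mul _ _ _).symm
    simp only [e1]
    rw [← psum_sum, ← psum_mul]
    refine psum_mono (fun a b => ?_) l
    have e2 : ∀ e : α × α, g e.1 e.2 * δ e a b =
        (if e = (a, b) then g a b else 0) + (if e = (b, a) then g b a else 0) := by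
      intro e
      simp only [δ]
      rw [mul_add]
      congr 1
      · split_ifs with h
        · rw [h]; simp
        · simp
      · split_ifs with h
        · rw [h]; simp
        · simp
    simp only [e2]
    rw [Finset.sum_add_distrib, Finset.sum_ite_eq' , Finset.sum_ite_eq', hsymm b a]
    split_ifs <;> omega
  calc ∑ e ∈ S ×ˢ S, g e.1 e.2
      ≤ ∑ e ∈ S ×ˢ S, ∑ r, g e.1 e.2 * psum (δ e) (L r) := by
        refine Finset.sum_le_sum fun e he => ?_
        rw [← Finset.mul_sum]
        rw [Finset.mem_product] at he
        by_cases hne : e.1 = e.2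
        · rw [hne, hdiag]; simp
        · obtain ⟨r, i, hi, hr⟩ := hcov e.1 he.1 e.2 he.2 hne
          have : 1 ≤ psum (δ e) (L r) := by
            refine one_le_psum (L r) i hi ?_
            rcases hr with ⟨h1, h2⟩ | ⟨h1, h2⟩
            · rw [h1, h2]; simp [δ]
            · rw [h1, h2]; simp [δ]
          have h3 : 1 ≤ ∑ r, psum (δ e) (L r) :=
            this.trans (Finset.single_le_sum (f := fun r => psum (δ e) (L r))
              (fun _ _ => Nat.zero_le _) (Finset.mem_univ r))
          exact Nat.le_mul_of_pos_right _ h3
    _ = ∑ r, ∑ e ∈ S ×ˢ S, g e.1 e.2 * psum (δ e) (L r) := Finset.sum_comm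
    _ ≤ ∑ _r : Fin k, 2 * B := by
        refine Finset.sum_le_sum fun r _ => (h1 (L r)).trans ?_
        exact Nat.mul_le_mul_left _ (hB r)
    _ = 2 * k * B := by simp; ring

end Q148.PS
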