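import Pool.Agent.Q148.MonoConv
import Pool.Agent.Q148.MonoGrid
import Pool.Agent.Q148.PathSum

set_option autoImplicit false

/-!
Every monotone path of the exponentially perturbed grid has total gcd weight at most `4N²`.
-/

namespace Q148.Mono

open Finset

/-- translate -/
def tr (z : ℤ × ℤ) (k : ℤ) (v : ℤ × ℤ) : ℤ × ℤ := (z.1 + k * v.1, z.2 + k * v.2)

theorem tr_tr (z v : ℤ × ℤ) (j k : ℤ) : tr (tr z j v) k v = tr z (j + k) v := by
  unfold tr
  ext <;> simp <;> ring

theorem tr_zero (z v : ℤ × ℤ) : tr z 0 v = z := by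
  unfold tr
  ext <;> simp

/-- exponent -/
def ee (N : ℕ) (z : ℤ × ℤ) : ℤ := z.1 * N + z.2

theorem ee_tr (N : ℕ) (z v : ℤ × ℤ) (k : ℤ) : ee N (tr z k v) = ee N z + ee N v * k := by
  unfold ee tr
  simp only
  ring

/-- the exponential perturbation -/
noncomputable def phi1 (N : ℕ) (z : ℤ × ℤ) : ℝ := ((N : ℝ) + 1) ^ (ee N z)

theorem phi1_pos (N : ℕ) (z : ℤ × ℤ) : 0 < phi1 N z := by
  unfold phi1
  positivity

/-- the height function of a direction -/
noncomputable def UU (N : ℕ) (K : ℝ) (u : ℝ × ℝ) (z : ℤ × ℤ) : ℝ :=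
  K * (u.1 * z.1 + u.2 * z.2) + (u.1 + N * u.2) * phi1 N z

theorem UU_tr (N : ℕ) (K : ℝ) (u : ℝ × ℝ) (z v : ℤ × ℤ) (k : ℤ) :
    UU N K u (tr z k v) = ff (K * (u.1 * z.1 + u.2 * z.2)) (K * (u.1 * v.1 + u.2 * v.2))
      ((u.1 + N * u.2) * phi1 N z) (((N : ℝ) + 1) ^ (ee N v)) k := by
  unfold UU ff phi1
  rw [ee_tr, zpow_add₀ (by positivity), zpow_mul]
  unfold tr
  push_cast
  ring

/-- gcd of the difference -/
def gg (p q : ℤ × ℤ) : ℕ := Int.gcd (q.1 - p.1) (q.2 - p.2)

theorem gg_symm (p q : ℤ × ℤ) : gg p q = gg q p := by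
  unfold gg
  rw [← neg_sub p.1 q.1, ← neg_sub p.2 q.2, Int.gcd_neg, Int.neg_gcd]

theorem gg_self (p : ℤ × ℤ) : gg p p = 0 := by
  unfold gg; simp

theorem exists_prim {p q : ℤ × ℤ} (h : p ≠ q) :
    ∃ w : ℤ × ℤ, IsCoprime w.1 w.2 ∧ q = tr p (gg p q) w ∧ 0 < gg p q := by
  have hpos : 0 < gg p q := by
    unfold gg
    rw [Int.gcd_pos_iff]
    by_contra hcon
    push Not at hcon
    exact h (Prod.ext (by omega) (by omega))
  refine ⟨((q.1 - p.1) / (gg p q : ℤ), (q.2 - p.2) / (gg p q : ℤ)), ?_, ?_, hpos⟩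
  · simp only
    rw [Int.isCoprime_iff_gcd_eq_one]
    exact Int.gcd_div_gcd_div_gcd hpos
  · unfold tr
    have h1 : (gg p q : ℤ) * ((q.1 - p.1) / (gg p q : ℤ)) = q.1 - p.1 :=
      Int.mul_ediv_cancel' (Int.gcd_dvd_left _ _)
    have h2 : (gg p q : ℤ) * ((q.2 - p.2) / (gg p q : ℤ)) = q.2 - p.2 :=
      Int.mul_ediv_cancel' (Int.gcd_dvd_right _ _)
    ext
    · simp only; rw [h1]; ring
    · simp only; rw [h2]; ring

theorem between_aux {x d k i : ℤ} {N : ℤ} (h0 : 0 ≤ x ∧ x < N) (h1 : 0 ≤ x + k * d ∧ x + k * d < N)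
    (hi : 0 ≤ i) (hik : i ≤ k) : 0 ≤ x + i * d ∧ x + i * d < N := by
  rcases le_total 0 d with hd | hd
  · constructor <;> nlinarith
  · constructor <;> nlinarith

theorem between {N : ℕ} {z w : ℤ × ℤ} {k i : ℤ} (h0 : z ∈ box N) (h1 : tr z k w ∈ box N)
    (hi : 0 ≤ i) (hik : i ≤ k) : tr z i w ∈ box N := by
  rw [mem_box] at *
  exact ⟨between_aux h0.1 h1.1 hi hik, between_aux h0.2 h1.2 hi hik⟩

theorem tr_inj {z w : ℤ × ℤ} (hw : IsCoprime w.1 w.2) {i j : ℤ} (h : tr z i w = tr z j w) :
    i = j := by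
  unfold tr at h
  rw [Prod.mk.injEq] at h
  have h1 : (i - j) * w.1 = 0 := by linarith [h.1]
  have h2 : (i - j) * w.2 = 0 := by linarith [h.2]
  by_contra hne
  have hne' : i - j ≠ 0 := sub_ne_zero.mpr hne
  have h3 : w.1 = 0 := (mul_eq_zero.mp h1).resolve_left hne'
  have h4 : w.2 = 0 := (mul_eq_zero.mp h2).resolve_left hne'
  rw [h3, h4] at hw
  exact not_isCoprime_zero_zero hw

/-- counting lattice points of a segment inside a set -/
theorem count_segment {w p : ℤ × ℤ} (hw : IsCoprime w.1 w.2) {g : ℕ} (X : Finset (ℤ × ℤ))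
    (h : ∀ i : ℕ, i < g → tr p i w ∈ X) : g ≤ X.card := by
  have := Finset.card_le_card_of_injOn (s := Finset.range g) (t := X)
    (fun i : ℕ => tr p i w) (fun i hi => h i (Finset.mem_range.mp hi))
    (fun i _ j _ hij => by exact_mod_cast tr_inj hw hij)
  simpa using this

/-- if a nonzero multiple stays in the box, the multiple is bounded -/
theorem mult_lt {N : ℕ} {z w : ℤ × ℤ} (hw : IsCoprime w.1 w.2) {j k : ℤ}
    (h0 : tr z j w ∈ box N) (h1 : tr z k w ∈ box N) : k - j < N := by
  rw [mem_box] at h0 h1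
  unfold tr at h0 h1
  simp only at h0 h1
  by_contra hcon
  push Not at hcon
  have h5 : w.1 ≠ 0 ∨ w.2 ≠ 0 := by
    by_contra hc
    push Not at hc
    rw [hc.1, hc.2] at hw
    exact not_isCoprime_zero_zero hw
  have hN : (0 : ℤ) ≤ N := Int.natCast_nonneg N
  have key : ∀ x d : ℤ, d ≠ 0 → (0 ≤ x + j * d ∧ x + j * d < N) →
      (0 ≤ x + k * d ∧ x + k * d < N) → False := by
    intro x d hd h2 h3
    rcases lt_or_gt_of_ne hd with hd | hd
    · have : (k - j) * d ≤ (k - j) * (-1) :=
        mul_le_mul_of_nonneg_left (by omega) (by omega)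
      nlinarith
    · have : (k - j) * 1 ≤ (k - j) * d :=
        mul_le_mul_of_nonneg_left (by omega) (by omega)
      nlinarith
  rcases h5 with h5 | h5
  · exact key z.1 w.1 h5 h0.1 h1.1
  · exact key z.2 w.2 h5 h0.2 h1.2

/-- the linear functional whose level sets are the lines parallel to `v` -/
def mm (v z : ℤ × ℤ) : ℤ := z.1 * v.2 - z.2 * v.1

theorem mm_tr (v z : ℤ × ℤ) (k : ℤ) : mm v (tr z k v) = mm v z := by
  unfold mm tr; simp only; ring

theorem exists_mult {v : ℤ × ℤ} (hv : IsCoprime v.1 v.2) {x y : ℤ} (h : x * v.2 = y * v.1) :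
    ∃ k, x = k * v.1 ∧ y = k * v.2 := by
  obtain ⟨a, b, hab⟩ := hv
  refine ⟨x * a + y * b, ?_, ?_⟩
  · have : (x * a + y * b) * v.1 = x * (a * v.1 + b * v.2) + b * (y * v.1 - x * v.2) := by ring
    rw [this, hab, h]; ring
  · have : (x * a + y * b) * v.2 = y * (a * v.1 + b * v.2) + a * (x * v.2 - y * v.1) := by ring
    rw [this, hab, h]; ring

theorem exists_tr {v : ℤ × ℤ} (hv : IsCoprime v.1 v.2) {z z' : ℤ × ℤ} (h : mm v z = mm v z') :
    ∃ k, z' = tr z k v := by
  unfold mm at h
  obtain ⟨k, h1, h2⟩ := exists_mult hv (x := z'.1 - z.1) (y := z'.2 - z.2) (by linarith)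
  refine ⟨k, ?_⟩
  unfold tr
  ext
  · simp only; linarith
  · simp only; linarith

section

variable {N : ℕ} {K : ℝ} {u : ℝ × ℝ}

/-- the bound for the perturbation -/
noncomputable def Phi1 (N : ℕ) : ℝ := ((N : ℝ) + 1) ^ (N ^ 2 : ℕ)

theorem Phi1_pos (N : ℕ) : 0 < Phi1 N := by unfold Phi1; positivity

theorem phi1_le {z : ℤ × ℤ} (hz : z ∈ box N) : phi1 N z ≤ Phi1 N := by
  unfold phi1 Phi1
  rw [← zpow_natCast]
  apply zpow_le_zpow_right₀
  · have : (0 : ℝ) ≤ N := Nat.cast_nonneg N
    linarith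
  · rw [mem_box] at hz
    unfold ee
    push_cast
    nlinarith

/-- slope bound for the direction of a nonregular pair -/
theorem slope_bound (hτ : 0 ≤ u.1 + N * u.2) {a w : ℤ × ℤ} {i g : ℤ}
    (ha : a ∈ box N) (hb : tr a g w ∈ box N) (h0 : 0 < i) (hig : i < g)
    (h1 : UU N K u (tr a i w) < UU N K u a) (h2 : UU N K u a < UU N K u (tr a g w)) :
    |K * (u.1 * w.1 + u.2 * w.2)| ≤ (u.1 + N * u.2) * Phi1 N := by
  set lam := K * (u.1 * w.1 + u.2 * w.2) with hlam
  have e : ∀ k : ℤ, UU N K u (tr a k w) - UU N K u a =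
      k * lam + (u.1 + N * u.2) * (phi1 N (tr a k w) - phi1 N a) := by
    intro k
    unfold UU
    rw [hlam]
    unfold tr
    push_cast
    ring
  have e1 := e i
  have e2 := e g
  have p1 := mul_nonneg hτ (phi1_pos N (tr a i w)).le
  have p2 := mul_nonneg hτ (phi1_pos N a).le
  have p3 := mul_le_mul_of_nonneg_left (phi1_le ha) hτ
  have p4 := mul_le_mul_of_nonneg_left (phi1_le hb) hτ
  have hi : (1 : ℝ) ≤ i := by exact_mod_cast h0
  have hg : (1 : ℝ) ≤ g := by exact_mod_cast (by omega : 1 ≤ g)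
  rw [abs_le]
  constructor
  · have : -((u.1 + N * u.2) * Phi1 N) < g * lam := by nlinarith
    by_contra hcon
    push Not at hcon
    have : 0 ≤ (u.1 + N * u.2) * Phi1 N := mul_nonneg hτ (Phi1_pos N).le
    nlinarith
  · have : i * lam < (u.1 + N * u.2) * Phi1 N := by nlinarith
    by_contra hcon
    push Not at hcon
    have : 0 ≤ (u.1 + N * u.2) * Phi1 N := mul_nonneg hτ (Phi1_pos N).le
    nlinarith

theorem tau_pos (hτ : 0 ≤ u.1 + N * u.2) {a w : ℤ × ℤ} {i g : ℤ}
    (h0 : 0 < i) (hig : i < g)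
    (h1 : UU N K u (tr a i w) < UU N K u a) (h2 : UU N K u a < UU N K u (tr a g w)) :
    0 < u.1 + N * u.2 := by
  rcases hτ.lt_or_eq with h | h
  · exact h
  exfalso
  have e : ∀ k : ℤ, UU N K u (tr a k w) - UU N K u a = k * (K * (u.1 * w.1 + u.2 * w.2)) := by
    intro k
    unfold UU
    rw [← h]
    unfold tr
    push_cast
    ring
  have e1 := e i
  have e2 := e g
  have hi : (0 : ℝ) < i := by exact_mod_cast h0
  have hg : (0 : ℝ) < g := by exact_mod_cast (by omega : 0 < g)
  have h3 : (i : ℝ) * (K * (u.1 * w.1 + u.2 * w.2)) < 0 := by linarith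
  have h4 : 0 < (g : ℝ) * (K * (u.1 * w.1 + u.2 * w.2)) := by linarith
  have h5 : K * (u.1 * w.1 + u.2 * w.2) < 0 := by
    by_contra hcon
    push Not at hcon
    linarith [mul_nonneg hi.le hcon]
  linarith [mul_neg_of_pos_of_neg hg h5]

theorem kap_w_le {a w : ℤ × ℤ} {g : ℤ} (ha : a ∈ box N) (hb : tr a g w ∈ box N) (hg : 0 < g) :
    |((w.1 : ℝ) * N - w.2)| ≤ (N : ℝ) ^ 2 := by
  have h := kap_le ha hb
  have e : (((tr a g w).1 - a.1 : ℤ) : ℝ) * N - (((tr a g w).2 - a.2 : ℤ) : ℝ) =
      g * ((w.1 : ℝ) * N - w.2) := by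
    unfold tr; push_cast; ring
  rw [e, abs_mul] at h
  have hg' : (1 : ℝ) ≤ |(g : ℝ)| := by
    have : 1 ≤ |g| := Int.one_le_abs (by omega)
    exact_mod_cast this
  have h2 := abs_nonneg ((w.1 : ℝ) * N - w.2)
  nlinarith

/-- all nonregular pairs are parallel -/
theorem dir_unique (hK : 4 * Phi1 N * N ^ 2 < K) (hτ : 0 ≤ u.1 + N * u.2)
    {a w a' w' : ℤ × ℤ} {i g i' g' : ℤ}
    (ha : a ∈ box N) (hb : tr a g w ∈ box N) (h0 : 0 < i) (hig : i < g)
    (h1 : UU N K u (tr a i w) < UU N K u a) (h2 : UU N K u a < UU N K u (tr a g w))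
    (ha' : a' ∈ box N) (hb' : tr a' g' w' ∈ box N) (h0' : 0 < i') (hig' : i' < g')
    (h1' : UU N K u (tr a' i' w') < UU N K u a')
    (h2' : UU N K u a' < UU N K u (tr a' g' w')) : w.1 * w'.2 = w.2 * w'.1 := by
  have hpos := tau_pos hτ h0 hig h1 h2
  have s1 := slope_bound hτ ha hb h0 hig h1 h2
  have s2 := slope_bound hτ ha' hb' h0' hig' h1' h2'
  have k1 := kap_w_le ha hb (by omega)
  have k2 := kap_w_le ha' hb' (by omega)
  set D := w.1 * w'.2 - w.2 * w'.1 with hD
  by_contra hne
  have hD0 : D ≠ 0 := fun h => hne (by omega)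
  have hD1 : (1 : ℝ) ≤ |(D : ℝ)| := by
    have : 1 ≤ |D| := Int.one_le_abs hD0
    exact_mod_cast this
  have e : K * (u.1 + N * u.2) * D = -(K * (u.1 * w.1 + u.2 * w.2)) * ((w'.1 : ℝ) * N - w'.2) +
      (K * (u.1 * w'.1 + u.2 * w'.2)) * ((w.1 : ℝ) * N - w.2) := by
    rw [hD]; push_cast; ring
  have hΦ := Phi1_pos N
  have hKpos : 0 < K := lt_of_le_of_lt (by positivity) hK
  have h3 : K * (u.1 + N * u.2) ≤ |K * (u.1 + N * u.2) * D| := by
    rw [abs_mul, abs_of_pos (mul_pos hKpos hpos)]
    nlinarith [mul_pos hKpos hpos]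
  rw [e] at h3
  have h4 : |-(K * (u.1 * w.1 + u.2 * w.2)) * ((w'.1 : ℝ) * N - w'.2)| ≤
      (u.1 + N * u.2) * Phi1 N * N ^ 2 := by
    rw [abs_mul, abs_neg]
    exact mul_le_mul s1 k2 (abs_nonneg _) (by positivity)
  have h5 : |(K * (u.1 * w'.1 + u.2 * w'.2)) * ((w.1 : ℝ) * N - w.2)| ≤
      (u.1 + N * u.2) * Phi1 N * N ^ 2 := by
    rw [abs_mul]
    exact mul_le_mul s2 k1 (abs_nonneg _) (by positivity)
  have h6 := abs_add_le (-(K * (u.1 * w.1 + u.2 * w.2)) * ((w'.1 : ℝ) * N - w'.2))
    ((K * (u.1 * w'.1 + u.2 * w'.2)) * ((w.1 : ℝ) * N - w.2))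
  have h7 : (u.1 + N * u.2) * K ≤ (u.1 + N * u.2) * (2 * Phi1 N * N ^ 2) := by linarith
  have h8 := le_of_mul_le_mul_left h7 hpos
  have h9 : 0 ≤ Phi1 N * (N : ℝ) ^ 2 := by positivity
  linarith

/-- the point is the second one after the minimum of its line -/
def special (N : ℕ) (K : ℝ) (u : ℝ × ℝ) (v z : ℤ × ℤ) : Prop :=
  UU N K u (tr z (-1) v) < UU N K u z ∧ UU N K u (tr z (-1) v) ≤ UU N K u (tr z (-2) v)

/-- the point is to the left of the minimum of its line -/
def left (N : ℕ) (K : ℝ) (u : ℝ × ℝ) (v z : ℤ × ℤ) : Prop :=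
  UU N K u (tr z 1 v) < UU N K u z

theorem base_gt {v : ℤ × ℤ} (hN : 0 < N) (hE : 0 < ee N v) :
    (N : ℝ) + 1 ≤ ((N : ℝ) + 1) ^ (ee N v) := by
  have h1 : (1 : ℝ) ≤ (N : ℝ) + 1 := by
    have : (0 : ℝ) ≤ N := Nat.cast_nonneg N
    linarith
  calc (N : ℝ) + 1 = ((N : ℝ) + 1) ^ (1 : ℤ) := by simp
    _ ≤ _ := zpow_le_zpow_right₀ h1 (by omega)

/-- the structure of nonregular pairs -/
theorem nonreg_struct {v : ℤ × ℤ} (hN : 0 < N) (hv : IsCoprime v.1 v.2) (hE : 0 < ee N v)
    (hτ : 0 < u.1 + N * u.2) {a : ℤ × ℤ} {j k : ℤ} (ha : a ∈ box N) (hb : tr a k v ∈ box N)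
    (hjk : (0 < j ∧ j < k) ∨ (k < j ∧ j < 0))
    (h1 : UU N K u (tr a j v) < UU N K u a) (h2 : UU N K u a < UU N K u (tr a k v)) :
    special N K u v a ∨ special N K u v (tr a k v) ∨
      (left N K u v a ∧ ∀ z ∈ box N, mm v z = mm v a → left N K u v z →
        UU N K u z < UU N K u (tr a k v)) := by
  set f := ff (K * (u.1 * a.1 + u.2 * a.2)) (K * (u.1 * v.1 + u.2 * v.2))
      ((u.1 + N * u.2) * phi1 N a) (((N : ℝ) + 1) ^ (ee N v)) with hf
  have hfk : ∀ l : ℤ, UU N K u (tr a l v) = f l := fun l => UU_tr N K u a v l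
  have hf0 : UU N K u a = f 0 := by rw [← hfk 0, tr_zero]
  have hB := base_gt hN hE
  have hN' : (0 : ℝ) < N := by exact_mod_cast hN
  have hB1 : (1 : ℝ) < ((N : ℝ) + 1) ^ (ee N v) := by linarith
  have ht : 0 < (u.1 + N * u.2) * phi1 N a := mul_pos hτ (phi1_pos N a)
  rw [hfk, hf0] at h1
  rw [hfk, hf0] at h2
  rcases hjk with ⟨h0j, hjk⟩ | ⟨hkj, hj0⟩
  · have l1 : f 1 < f 0 := ff_first_neg hB1.le ht.le h0j h1
    have l2 : f (k - 1) < f k := ff_last_pos hB1.le ht.le hjk (h1.trans h2)
    rcases le_or_gt (f (k - 1)) (f (k - 2)) with h | h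
    · refine Or.inr (Or.inl ⟨?_, ?_⟩)
      · rw [tr_tr, hfk, hfk]; exact l2
      · rw [tr_tr, tr_tr, hfk, hfk]; exact h
    · refine Or.inr (Or.inr ⟨?_, ?_⟩)
      · unfold left; rw [hfk, hf0]; exact l1
      · intro z hz hmz hlz
        obtain ⟨l, rfl⟩ := exists_tr hv hmz.symm
        unfold left at hlz
        rw [tr_tr, hfk, hfk] at hlz
        rw [hfk, hfk]
        have hlk : l < k := by
          by_contra hcon
          push Not at hcon
          have := ff_diff_mono (c := K * (u.1 * a.1 + u.2 * a.2))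
            (L := K * (u.1 * v.1 + u.2 * v.2)) hB1.le ht.le (show k - 1 ≤ l by omega)
          rw [show k - 1 + 1 = k by omega] at this
          change f k - f (k - 1) ≤ f (l + 1) - f l at this
          linarith
        have hlen : ((k - l : ℤ) : ℝ) ≤ ((N : ℝ) + 1) ^ (ee N v) := by
          have h5 := mult_lt hv hz hb
          have h6 : ((k - l : ℤ) : ℝ) < N := by exact_mod_cast h5
          linarith
        exact ff_growth hB1 ht hlk hlen hlz h
  · have l1 : f (-1) < f 0 := ff_last_pos (k := 0) hB1.le ht.le hj0 h1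
    have l2 : f (k + 1) < f k := ff_first_neg hB1.le ht.le hkj (h1.trans h2)
    rcases le_or_gt (f (-1)) (f (-2)) with h | h
    · refine Or.inl ⟨?_, ?_⟩
      · rw [hfk, hf0]; exact l1
      · rw [hfk, hfk]; exact h
    · exfalso
      have hlen : ((0 - k : ℤ) : ℝ) ≤ ((N : ℝ) + 1) ^ (ee N v) := by
        have ha0 : tr a 0 v ∈ box N := by rw [tr_zero]; exact ha
        have h5 := mult_lt hv hb ha0
        have h6 : ((0 - k : ℤ) : ℝ) < N := by exact_mod_cast h5
        linarith
      have := ff_growth (c := K * (u.1 * a.1 + u.2 * a.2))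
            (L := K * (u.1 * v.1 + u.2 * v.2)) hB1 ht (show k < 0 by omega) hlen l2 h
      change f k < f 0 at this
      linarith

/-- there is at most one special point on each line -/
theorem special_unique {v : ℤ × ℤ} (hN : 0 < N) (hv : IsCoprime v.1 v.2) (hE : 0 < ee N v)
    (hτ : 0 < u.1 + N * u.2) {z z' : ℤ × ℤ} (hm : mm v z = mm v z')
    (h : special N K u v z) (h' : special N K u v z') : z = z' := by
  have key : ∀ z : ℤ × ℤ, ∀ k : ℤ, 0 < k → special N K u v z →
      special N K u v (tr z k v) → False := by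
    intro z k hk h h'
    set f := ff (K * (u.1 * z.1 + u.2 * z.2)) (K * (u.1 * v.1 + u.2 * v.2))
      ((u.1 + N * u.2) * phi1 N z) (((N : ℝ) + 1) ^ (ee N v)) with hf
    have hfk : ∀ l : ℤ, UU N K u (tr z l v) = f l := fun l => UU_tr N K u z v l
    have hf0 : UU N K u z = f 0 := by rw [← hfk 0, tr_zero]
    have hB := base_gt hN hE
    have hN' : (0 : ℝ) < N := by exact_mod_cast hN
    have hB1 : (1 : ℝ) < ((N : ℝ) + 1) ^ (ee N v) := by linarith
    have ht : 0 < (u.1 + N * u.2) * phi1 N z := mul_pos hτ (phi1_pos N z)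
    unfold special at h h'
    rw [hfk, hfk, hf0] at h
    rw [tr_tr, tr_tr, hfk, hfk, hfk] at h'
    have := ff_diff_mono (c := K * (u.1 * z.1 + u.2 * z.2))
            (L := K * (u.1 * v.1 + u.2 * v.2)) hB1.le ht.le (show (-1 : ℤ) ≤ k - 2 by omega)
    rw [show k - 2 + 1 = k + -1 by omega] at this
    change f 0 - f (-1) ≤ f (k + -1) - f (k + -2) at this
    linarith [h.1, h'.2]
  obtain ⟨k, rfl⟩ := exists_tr hv hm
  rcases lt_trichotomy k 0 with hk | hk | hk
  · exfalso
    refine key (tr z k v) (-k) (by omega) h' ?_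
    rw [tr_tr, show k + -k = 0 by omega, tr_zero]
    exact h
  · rw [hk, tr_zero]
  · exact (key z k hk h h').elim

/-- the regular case -/
theorem regular_case (hτ : 0 ≤ u.1 + N * u.2) {a w : ℤ × ℤ} {g : ℕ}
    (hN : 0 < N) (hw : IsCoprime w.1 w.2)
    (ha : a ∈ box N) (hb : tr a g w ∈ box N)
    (hab : UU N K u a < UU N K u (tr a g w))
    (hreg : ∀ i : ℕ, 0 < i → i < g → UU N K u a ≤ UU N K u (tr a i w)) :
    g + ((box N).filter (fun r => UU N K u r < UU N K u a)).card ≤
      ((box N).filter (fun r => UU N K u r < UU N K u (tr a g w))).card := by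
  classical
  have hsub : (box N).filter (fun r => UU N K u r < UU N K u a) ⊆
      (box N).filter (fun r => UU N K u r < UU N K u (tr a g w)) := by
    intro r hr
    rw [Finset.mem_filter] at hr ⊢
    exact ⟨hr.1, hr.2.trans hab⟩
  have h1 := Finset.card_sdiff_add_card_eq_card hsub
  have h2 : g ≤ ((box N).filter (fun r => UU N K u r < UU N K u (tr a g w)) \
      (box N).filter (fun r => UU N K u r < UU N K u a)).card := by
    refine count_segment (p := a) hw _ ?_
    intro i hi
    have hmem : tr a i w ∈ box N := between ha hb (by omega) (by omega)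
    have hge : UU N K u a ≤ UU N K u (tr a i w) := by
      rcases Nat.eq_zero_or_pos i with h0 | h0
      · rw [h0, Nat.cast_zero, tr_zero]
      · exact hreg i h0 hi
    have hlt : UU N K u (tr a i w) < UU N K u (tr a g w) := by
      have hwne : ee N w ≠ 0 := by
        intro h0
        have hg : 0 < g := by omega
        have hne : a ≠ tr a g w := by
          intro he
          have h9 : tr a 0 w = tr a g w := by rw [tr_zero]; exact he
          have := tr_inj hw h9
          omega
        have := ee_ne ha hb hne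
        apply this
        have e : ((tr a g w).1 - a.1) * (N : ℤ) + ((tr a g w).2 - a.2) = g * ee N w := by
          unfold tr ee; ring
        rw [e, h0, mul_zero]
      have hN' : (0 : ℝ) < N := by exact_mod_cast hN
      rcases lt_or_gt_of_ne hwne with hneg | hpos
      · -- use the opposite vector
        have e : ∀ k : ℤ, tr a k w = tr a (-k) (-w.1, -w.2) := by
          intro k; unfold tr; ext <;> simp
        have hE' : 0 < ee N (-w.1, -w.2) := by
          have : ee N (-w.1, -w.2) = -ee N w := by unfold ee; ring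
          rw [this]; omega
        have hB := base_gt hN hE'
        rw [e, e, UU_tr, UU_tr]
        refine ff_between_left (by linarith) (mul_nonneg hτ (phi1_pos N a).le) (by omega)
          (by exact_mod_cast hi) ?_
        rw [← UU_tr, ← UU_tr, ← e, tr_zero]
        exact hab
      · have hB := base_gt hN hpos
        rw [UU_tr, UU_tr]
        refine ff_between_right (by linarith) (mul_nonneg hτ (phi1_pos N a).le) (by omega)
          (by exact_mod_cast hi) ?_
        rw [← UU_tr, ← UU_tr, tr_zero]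
        exact hab
    rw [Finset.mem_sdiff, Finset.mem_filter, Finset.mem_filter]
    exact ⟨⟨hmem, hlt⟩, fun h => absurd h.2 (not_lt.mpr hge)⟩
  omega

theorem gg_tr {v : ℤ × ℤ} (hv : IsCoprime v.1 v.2) (a : ℤ × ℤ) (k : ℤ) :
    gg a (tr a k v) = k.natAbs := by
  unfold gg tr
  simp only [add_sub_cancel_left]
  rw [Int.gcd_mul_left, Int.isCoprime_iff_gcd_eq_one.mp hv, mul_one]

/-- The weight of a path monotone with respect to a direction with `τ ≥ 0`. -/
theorem path_bound_nonneg (hN : 0 < N) (hK : 4 * Phi1 N * N ^ 2 < K)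
    (hτ : 0 ≤ u.1 + N * u.2) (l : List (ℤ × ℤ)) (hl : ∀ z ∈ l, z ∈ box N) (hnd : l.Nodup)
    (hmono : (l.IsChain fun a b => UU N K u a < UU N K u b) ∨
      (l.IsChain fun a b => UU N K u b < UU N K u a)) :
    PS.psum gg l ≤ 4 * (N * N) := by
  classical
  let U : ℤ × ℤ → ℝ := UU N K u
  -- it suffices to find a potential
  suffices hmain : ∃ F c : ℤ × ℤ → ℕ, (∀ z, F z ≤ 2 * (N * N)) ∧
      (∑ z ∈ box N, c z ≤ N * N) ∧
      ∀ a b, a ∈ box N → b ∈ box N → U a < U b → gg a b + F a ≤ F b + (c a + c b) by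
    obtain ⟨F, c, hF, hc, H⟩ := hmain
    have hcl : (l.map c).sum ≤ N * N := by
      rw [← List.sum_toFinset c hnd]
      refine le_trans (Finset.sum_le_sum_of_subset ?_) hc
      intro z hz
      rw [List.mem_toFinset] at hz
      exact hl z hz
    have : PS.psum gg l ≤ 2 * (N * N) + 2 * (l.map c).sum := by
      rcases hmono with hm | hm
      · refine PS.psum_tele_inc (F := F) (c := c)
          (fun a b => a ∈ box N ∧ b ∈ box N ∧ U a < U b)
          (fun a b hab => H a b hab.1 hab.2.1 hab.2.2) l (fun a _ => hF a) ?_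
        rw [List.isChain_iff_getElem] at hm ⊢
        intro i hi
        exact ⟨hl _ (List.getElem_mem _), hl _ (List.getElem_mem _), hm i hi⟩
      · refine PS.psum_tele_dec (F := F) (c := c)
          (fun a b => a ∈ box N ∧ b ∈ box N ∧ U b < U a)
          (fun a b hab => ?_) l (fun a _ => hF a) ?_
        · have := H b a hab.2.1 hab.1 hab.2.2
          rw [gg_symm a b]; omega
        rw [List.isChain_iff_getElem] at hm ⊢
        intro i hi
        exact ⟨hl _ (List.getElem_mem _), hl _ (List.getElem_mem _), hm i hi⟩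
    omega
  let G1 : ℤ × ℤ → ℕ := fun z => ((box N).filter (fun r => U r < U z)).card
  have hG1 : ∀ z, G1 z ≤ N * N := fun z => by
    rw [← card_box N]; exact Finset.card_filter_le _ _
  by_cases hNR : ∃ (a w : ℤ × ℤ) (i g : ℤ), a ∈ box N ∧ tr a g w ∈ box N ∧
      IsCoprime w.1 w.2 ∧ 0 < i ∧ i < g ∧ U (tr a i w) < U a ∧ U a < U (tr a g w)
  · obtain ⟨a₀, w₀, i₀, g₀, ha₀, hb₀, hw₀, hi₀, hig₀, h1₀, h2₀⟩ := hNR
    have hτ' : 0 < u.1 + N * u.2 := tau_pos hτ hi₀ hig₀ h1₀ h2₀
    have hw₀ne : ee N w₀ ≠ 0 := by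
      intro h0
      have hne : a₀ ≠ tr a₀ g₀ w₀ := by
        intro he
        rw [← he] at h2₀
        exact lt_irrefl _ h2₀
      have := ee_ne ha₀ hb₀ hne
      apply this
      have e : ((tr a₀ g₀ w₀).1 - a₀.1) * (N : ℤ) + ((tr a₀ g₀ w₀).2 - a₀.2) =
        g₀ * ee N w₀ := by
        unfold tr ee; ring
      rw [e, h0, mul_zero]
    -- the oriented direction
    obtain ⟨v, hv, hE, hvw⟩ : ∃ v : ℤ × ℤ, IsCoprime v.1 v.2 ∧ 0 < ee N v ∧
        (v = w₀ ∨ v = (-w₀.1, -w₀.2)) := by
      rcases lt_or_gt_of_ne hw₀ne with h | h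
      · refine ⟨(-w₀.1, -w₀.2), hw₀.neg_neg, ?_, Or.inr rfl⟩
        have : ee N (-w₀.1, -w₀.2) = -ee N w₀ := by unfold ee; ring
        rw [this]; omega
      · exact ⟨w₀, hw₀, h, Or.inl rfl⟩
    let G2 : ℤ × ℤ → ℕ := fun z => ((box N).filter (fun r =>
      ∀ z' ∈ box N, mm v z' = mm v r → left N K u v z' → U z' < U z)).card
    let c : ℤ × ℤ → ℕ := fun z => if special N K u v z then
      ((box N).filter (fun r => mm v r = mm v z)).card else 0
    have hG2 : ∀ z, G2 z ≤ N * N := fun z => by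
      rw [← card_box N]; exact Finset.card_filter_le _ _
    have hG2mono : ∀ a b, U a ≤ U b → G2 a ≤ G2 b := by
      intro a b hab
      refine Finset.card_le_card fun r hr => ?_
      rw [Finset.mem_filter] at hr ⊢
      exact ⟨hr.1, fun z' hz' h1 h2 => (hr.2 z' hz' h1 h2).trans_le hab⟩
    have hG1mono : ∀ a b, U a ≤ U b → G1 a ≤ G1 b := by
      intro a b hab
      refine Finset.card_le_card fun r hr => ?_
      rw [Finset.mem_filter] at hr ⊢
      exact ⟨hr.1, hr.2.trans_le hab⟩
    refine ⟨fun z => G1 z + G2 z, c, fun z => ?_, ?_, ?_⟩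
    · have := hG1 z; have := hG2 z
      show G1 z + G2 z ≤ _
      omega
    · -- sum of c
      have e1 : ∀ z ∈ box N, c z = ∑ r ∈ box N,
          (if special N K u v z ∧ mm v r = mm v z then 1 else 0) := by
        intro z _
        simp only [c]
        split_ifs with hs
        · rw [Finset.card_filter]
          refine Finset.sum_congr rfl fun r _ => ?_
          simp [hs]
        · simp [hs]
      rw [Finset.sum_congr rfl e1, Finset.sum_comm]
      calc ∑ r ∈ box N, ∑ z ∈ box N, (if special N K u v z ∧ mm v r = mm v z then 1 else 0)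
          ≤ ∑ _r ∈ box N, 1 := by
            refine Finset.sum_le_sum fun r _ => ?_
            rw [← Finset.card_filter, Finset.card_le_one]
            intro z hz z' hz'
            rw [Finset.mem_filter] at hz hz'
            exact special_unique hN hv hE hτ' (hz.2.2.symm.trans hz'.2.2) hz.2.1 hz'.2.1
        _ = N * N := by rw [Finset.sum_const, card_box]; simp
    · intro a b ha hb hab
      have hne : a ≠ b := fun h => by rw [h] at hab; exact lt_irrefl _ hab
      obtain ⟨w, hw, hbw, hg⟩ := exists_prim hne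
      set g := gg a b with hgdef
      by_cases hreg : ∀ i : ℕ, 0 < i → i < g → U a ≤ U (tr a i w)
      · have hb' : tr a g w ∈ box N := by rw [← hbw]; exact hb
        have hab' : UU N K u a < UU N K u (tr a g w) := by rw [← hbw]; exact hab
        have h1 := regular_case hτ hN hw ha hb' hab' hreg
        rw [← hbw] at h1
        have h2 := hG2mono a b hab.le
        show g + (G1 a + G2 a) ≤ (G1 b + G2 b) + (c a + c b)
        change g + G1 a ≤ G1 b at h1
        omega
      · push Not at hreg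
        obtain ⟨i, hi0, hig, hi⟩ := hreg
        have hb' : tr a g w ∈ box N := by rw [← hbw]; exact hb
        have hab' : U a < U (tr a g w) := by rw [← hbw]; exact hab
        have hpar := dir_unique hK hτ ha hb' (show (0 : ℤ) < i by omega)
          (show (i : ℤ) < g by omega) hi hab' ha₀ hb₀ hi₀ hig₀ h1₀ h2₀
        have hpar' : w.1 * v.2 = w.2 * v.1 := by
          rcases hvw with rfl | rfl
          · exact hpar
          · simp only; linarith
        obtain ⟨s, hs1, hs2⟩ := exists_mult hv hpar'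
        have htr : ∀ k : ℤ, tr a k w = tr a (k * s) v := by
          intro k; unfold tr; rw [hs1, hs2]; ext <;> simp <;> ring
        have hs : s = 1 ∨ s = -1 := by
          obtain ⟨x, y, hxy⟩ := hw
          have : s * (x * v.1 + y * v.2) = 1 := by
            rw [← hxy, hs1, hs2]; ring
          exact Int.isUnit_iff.mp (IsUnit.of_mul_eq_one _ this)
        -- the number of points on the line
        have hline : ∀ b', mm v b' = mm v a →
            g ≤ ((box N).filter (fun r => mm v r = mm v b')).card := by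
          intro b' hb''
          refine count_segment (p := a) hw _ ?_
          intro i hi
          rw [Finset.mem_filter]
          refine ⟨between ha hb' (by omega) (by omega), ?_⟩
          rw [htr, mm_tr, hb'']
        have hbs : b = tr a (g * s) v := by rw [← htr]; exact hbw
        have hmb : mm v b = mm v a := by rw [hbs, mm_tr]
        have hbv : tr a (g * s) v ∈ box N := by rw [← hbs]; exact hb
        have hjk : (0 < (i : ℤ) * s ∧ (i : ℤ) * s < g * s) ∨
            ((g : ℤ) * s < i * s ∧ (i : ℤ) * s < 0) := by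
          rcases hs with rfl | rfl
          · left; constructor <;> omega
          · right; constructor <;> omega
        have hi' : UU N K u (tr a (i * s) v) < UU N K u a := by rw [← htr]; exact hi
        have hab'' : UU N K u a < UU N K u (tr a (g * s) v) := by rw [← hbs]; exact hab
        have hst := nonreg_struct hN hv hE hτ' ha hbv hjk hi' hab''
        rw [← hbs] at hst
        have h1 := hG1mono a b hab.le
        have h2 := hG2mono a b hab.le
        show g + (G1 a + G2 a) ≤ (G1 b + G2 b) + (c a + c b)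
        rcases hst with hsa | hsb | ⟨hla, hall⟩
        · have : c a = ((box N).filter (fun r => mm v r = mm v a)).card := if_pos hsa
          have := hline a rfl
          omega
        · have : c b = ((box N).filter (fun r => mm v r = mm v b)).card := if_pos hsb
          have := hline b hmb
          omega
        · have hsub : ((box N).filter (fun r =>
              ∀ z' ∈ box N, mm v z' = mm v r → left N K u v z' → U z' < U a)) ∪
              (box N).filter (fun r => mm v r = mm v a) ⊆ (box N).filter (fun r =>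
              ∀ z' ∈ box N, mm v z' = mm v r → left N K u v z' → U z' < U b) := by
            intro r hr
            rw [Finset.mem_union, Finset.mem_filter, Finset.mem_filter] at hr
            rw [Finset.mem_filter]
            rcases hr with hr | hr
            · exact ⟨hr.1, fun z' hz' h1 h2 => (hr.2 z' hz' h1 h2).trans hab⟩
            · exact ⟨hr.1, fun z' hz' h1 h2 => hall z' hz' (h1.trans hr.2) h2⟩
          have hdisj : Disjoint ((box N).filter (fun r =>
              ∀ z' ∈ box N, mm v z' = mm v r → left N K u v z' → U z' < U a))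
              ((box N).filter (fun r => mm v r = mm v a)) := by
            rw [Finset.disjoint_left]
            intro r hr hr'
            rw [Finset.mem_filter] at hr hr'
            exact lt_irrefl _ (hr.2 a ha hr'.2.symm hla)
          have h3 := Finset.card_le_card hsub
          rw [Finset.card_union_of_disjoint hdisj] at h3
          have h4 := hline a rfl
          change G2 a + _ ≤ G2 b at h3
          omega
  · push Not at hNR
    refine ⟨G1, fun _ => 0, fun z => by have := hG1 z; omega, by simp, ?_⟩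
    intro a b ha hb hab
    have hne : a ≠ b := fun h => by rw [h] at hab; exact lt_irrefl _ hab
    obtain ⟨w, hw, hbw, hg⟩ := exists_prim hne
    set g := gg a b with hgdef
    have hb' : tr a g w ∈ box N := by rw [← hbw]; exact hb
    have hab' : UU N K u a < UU N K u (tr a g w) := by rw [← hbw]; exact hab
    have h1 := regular_case hτ hN hw ha hb' hab' (fun i hi0 hig => by
      by_contra hcon
      push Not at hcon
      exact absurd hab' (not_lt.mpr (hNR a w i g ha hb' hw (by omega) (by omega) hcon)))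
    rw [← hbw] at h1
    change g + G1 a ≤ G1 b at h1
    show g + G1 a ≤ G1 b + (0 + 0)
    omega

end

end Q148.Mono
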