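import Pool.Agent.Q148.MonoSum

set_option autoImplicit false

/-!
Transfer between coverings of the perturbed grid and lists of lattice points.
-/

namespace Q148.Mono

open Finset

theorem good_phi1 {N : ℕ} : Good N (phi1 N) (Phi1 N) := by
  refine ⟨Phi1_pos N, fun z _ => (phi1_pos N z).le, fun z hz => phi1_le hz, ?_⟩
  intro p hp q hq r hr hpq hpr hqr hdet
  have hN : 0 < N := by
    rw [mem_box] at hp; omega
  obtain ⟨w, hw, hqw, hg⟩ := exists_prim hpq
  set g := gg p q with hgdef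
  obtain ⟨k, hk⟩ : ∃ k, r = tr p k w := by
    apply exists_tr hw
    unfold mm
    rw [hqw] at hdet
    unfold tr at hdet
    simp only at hdet
    have h1 : (g : ℤ) * (w.1 * (r.2 - p.2) - w.2 * (r.1 - p.1)) = 0 := by linarith
    have h2 := (mul_eq_zero.mp h1).resolve_left (by omega)
    linarith
  have hk0 : k ≠ 0 := by
    rintro rfl
    rw [tr_zero] at hk
    exact hpr hk.symm
  have hkg : k ≠ g := by
    rintro rfl
    exact hqr (hqw.trans hk.symm)
  have hkw : w.1 * (N : ℤ) - w.2 ≠ 0 := by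
    have h1 := kap_ne hp hq hpq
    rw [hqw] at h1
    unfold tr at h1
    simp only at h1
    intro h0
    apply h1
    have : (p.1 + g * w.1 - p.1) * (N : ℤ) - (p.2 + g * w.2 - p.2) = g * (w.1 * N - w.2) := by
      ring
    rw [this, h0, mul_zero]
  have hew : ee N w ≠ 0 := by
    have h1 := ee_ne hp hq hpq
    rw [hqw] at h1
    unfold tr at h1
    simp only at h1
    intro h0
    apply h1
    have : (p.1 + g * w.1 - p.1) * (N : ℤ) + (p.2 + g * w.2 - p.2) = g * ee N w := by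
      unfold ee; ring
    rw [this, h0, mul_zero]
  set M : ℝ := (N : ℝ) + 1 with hM
  have hM1 : 1 < M := by
    have : (0 : ℝ) < N := by exact_mod_cast hN
    linarith
  have hphi : ∀ j : ℤ, phi1 N (tr p j w) = phi1 N p * Real.exp (j * (ee N w * Real.log M)) := by
    intro j
    unfold phi1
    rw [ee_tr, zpow_add₀ (by positivity)]
    congr 1
    rw [← Real.exp_log (show (0 : ℝ) < ((N : ℝ) + 1) ^ (ee N w * j) by positivity),
      Real.log_zpow]
    congr 1
    push_cast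
    ring
  set c : ℝ := ee N w * Real.log M with hc
  have hc0 : c ≠ 0 := mul_ne_zero (by exact_mod_cast hew) (Real.log_pos hM1).ne'
  have hg0 : (g : ℝ) ≠ 0 := by exact_mod_cast hg.ne'
  have hk0' : (k : ℝ) ≠ 0 := by exact_mod_cast hk0
  -- strict convexity
  have hne : (Real.exp (k * c) - 1) / (k * c) ≠ (Real.exp (g * c) - 1) / (g * c) := by
    have hkc : (k : ℝ) * c ≠ 0 := mul_ne_zero hk0' hc0
    have hgc : (g : ℝ) * c ≠ 0 := mul_ne_zero hg0 hc0
    have hne2 : (k : ℝ) * c ≠ g * c := by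
      intro h
      have := mul_right_cancel₀ hc0 h
      exact hkg (by exact_mod_cast this)
    have key : ∀ x y : ℝ, x ≠ 0 → y ≠ 0 → x < y →
        (Real.exp x - 1) / x < (Real.exp y - 1) / y := by
      intro x y hx hy hxy
      have := strictConvexOn_exp.secant_strict_mono (a := 0) (Set.mem_univ _)
        (Set.mem_univ x) (Set.mem_univ y) hx hy hxy
      simpa using this
    rcases lt_or_gt_of_ne hne2 with h | h
    · exact (key _ _ hkc hgc h).ne
    · exact (key _ _ hgc hkc h).ne'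
  rw [hk, hqw, hphi, hphi]
  have e1 : ((((tr p g w).1 - p.1 : ℤ) : ℝ) * N - (((tr p g w).2 - p.2 : ℤ) : ℝ)) =
      g * ((w.1 * (N : ℤ) - w.2 : ℤ) : ℝ) := by
    unfold tr; push_cast; ring
  have e2 : ((((tr p k w).1 - p.1 : ℤ) : ℝ) * N - (((tr p k w).2 - p.2 : ℤ) : ℝ)) =
      k * ((w.1 * (N : ℤ) - w.2 : ℤ) : ℝ) := by
    unfold tr; push_cast; ring
  rw [e1, e2]
  have hκ : ((w.1 * (N : ℤ) - w.2 : ℤ) : ℝ) ≠ 0 := by exact_mod_cast hkw
  set κ : ℝ := ((w.1 * (N : ℤ) - w.2 : ℤ) : ℝ) with hκdef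
  have hcast : ((g : ℤ) : ℝ) = (g : ℝ) := by push_cast; rfl
  rw [hcast]
  intro h0
  apply hne
  rw [div_eq_div_iff (mul_ne_zero hk0' hc0) (mul_ne_zero hg0 hc0)]
  have hφ := (phi1_pos N p).ne'
  have h1 : (phi1 N p * κ) * ((Real.exp (k * c) - 1) * g - (Real.exp (g * c) - 1) * k) = 0 := by
    linarith
  have h2 := (mul_eq_zero.mp h1).resolve_left (mul_ne_zero hφ hκ)
  have h3 : (Real.exp (k * c) - 1) * g = (Real.exp (g * c) - 1) * k := by linarith
  calc (Real.exp (k * c) - 1) * (g * c) = ((Real.exp (k * c) - 1) * g) * c := by ring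
    _ = ((Real.exp (g * c) - 1) * k) * c := by rw [h3]
    _ = (Real.exp (g * c) - 1) * (k * c) := by ring

/-- scale factor -/
noncomputable def KK (N : ℕ) : ℝ := 100 * Phi1 N * N ^ 2 + 1

theorem KK_gt (N : ℕ) : 100 * Phi1 N * N ^ 2 < KK N := by unfold KK; linarith

theorem KK_gt4 (N : ℕ) : 4 * Phi1 N * N ^ 2 < KK N := by
  have h1 := KK_gt N
  have h2 : 0 ≤ Phi1 N * (N : ℝ) ^ 2 := mul_nonneg (Phi1_pos N).le (by positivity)
  linarith

theorem lift_list {N : ℕ} {K : ℝ} {φ : ℤ × ℤ → ℝ} {S : Finset (ℤ × ℤ)} (l : List (ℝ × ℝ))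
    (h : ∀ v ∈ l, v ∈ img N K φ S) :
    ∃ L : List (ℤ × ℤ), L.map (P N K φ) = l ∧ ∀ z ∈ L, z ∈ S := by
  induction l with
  | nil => exact ⟨[], rfl, by simp⟩
  | cons x l ih =>
    obtain ⟨L, hL, hLS⟩ := ih (fun v hv => h v (List.mem_cons_of_mem _ hv))
    obtain ⟨a, ha, hax⟩ := mem_img.mp (h x (by simp))
    refine ⟨a :: L, by simp [hL, hax], ?_⟩
    intro z hz
    rcases List.mem_cons.mp hz with rfl | hz
    · exact ha
    · exact hLS z hz

theorem inner_P (N : ℕ) (K : ℝ) (u : ℝ × ℝ) (a b : ℤ × ℤ) :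
    ((P N K (phi1 N) b).1 - (P N K (phi1 N) a).1) * u.1 +
      ((P N K (phi1 N) b).2 - (P N K (phi1 N) a).2) * u.2 = UU N K u b - UU N K u a := by
  unfold P UU
  simp only
  ring

theorem path_bound {N : ℕ} (hN : 0 < N) {S : Finset (ℤ × ℤ)} (hS : S ⊆ box N)
    (L : List (ℤ × ℤ)) (hL : ∀ z ∈ L, z ∈ S)
    (h : IsMonotonePath (img N (KK N) (phi1 N) S) (L.map (P N (KK N) (phi1 N)))) :
    PS.psum gg L ≤ 4 * (N * N) := by
  obtain ⟨u, -, hmono⟩ := h.mono
  have hm : ∀ (i : ℕ) (hi : i + 1 < L.length), UU N (KK N) u L[i] < UU N (KK N) u L[i + 1] := by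
    intro i hi
    have := hmono i (by simpa using hi)
    simp only [List.getElem_map] at this
    rw [inner_P] at this
    linarith
  have hchain : L.IsChain (fun a b => UU N (KK N) u a < UU N (KK N) u b) :=
    List.isChain_iff_getElem.mpr hm
  have hnd : L.Nodup := by
    have : L.Pairwise (fun a b => UU N (KK N) u a < UU N (KK N) u b) := by
      have : IsTrans (ℤ × ℤ) (fun a b => UU N (KK N) u a < UU N (KK N) u b) :=
        ⟨fun a b c h1 h2 => h1.trans h2⟩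
      exact List.isChain_iff_pairwise.mp hchain
    exact this.imp (fun {a b} hab he => by rw [he] at hab; exact lt_irrefl _ hab)
  rcases le_total 0 (u.1 + N * u.2) with hτ | hτ
  · exact path_bound_nonneg hN (KK_gt4 N) hτ L (fun z hz => hS (hL z hz)) hnd (Or.inl hchain)
  · have hneg : ∀ z, UU N (KK N) (-u) z = -UU N (KK N) u z := by
      intro z
      unfold UU
      simp only [Prod.fst_neg, Prod.snd_neg]
      ring
    refine path_bound_nonneg (u := -u) hN (KK_gt4 N) ?_ L (fun z hz => hS (hL z hz)) hnd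
      (Or.inr ?_)
    · simp only [Prod.fst_neg, Prod.snd_neg]; linarith
    · simp only [hneg]
      simpa using hchain

theorem lower_of_cover {N : ℕ} (hN : 0 < N) {S : Finset (ℤ × ℤ)} (hS : S ⊆ box N) {k : ℕ}
    (h : CoverableBy (img N (KK N) (phi1 N) S) k) :
    ∑ e ∈ S ×ˢ S, gg e.1 e.2 ≤ 2 * k * (4 * (N * N)) := by
  obtain ⟨F, hF, hcov⟩ := h
  have hex := fun r => lift_list (F r) (hF r).mem
  choose L hL hLS using hex
  refine PS.cover_total S gg gg_symm gg_self L ?_ ?_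
  · intro u hu v hv huv
    have hinj : ∀ a ∈ S, ∀ b ∈ S, P N (KK N) (phi1 N) a = P N (KK N) (phi1 N) b → a = b :=
      fun a ha b hb => P_inj good_phi1 (KK_gt4 N) (hS ha) (hS hb)
    obtain ⟨r, i, hi, hr⟩ := hcov (P N (KK N) (phi1 N) u) (mem_img.mpr ⟨u, hu, rfl⟩)
      (P N (KK N) (phi1 N) v) (mem_img.mpr ⟨v, hv, rfl⟩) (fun h => huv (hinj u hu v hv h))
    have hi' : i + 1 < (L r).length := by
      have : (F r).length = (L r).length := by rw [← hL r]; simp
      omega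
    have hget : ∀ j (hj : j < (L r).length) (hj' : j < (F r).length),
        (F r)[j] = P N (KK N) (phi1 N) (L r)[j] := by
      intro j hj hj'
      simp only [← hL r, List.getElem_map]
    rw [hget i (by omega), hget (i + 1) hi'] at hr
    refine ⟨r, i, hi', ?_⟩
    have m1 := hLS r _ (List.getElem_mem (l := L r) (n := i) (by omega))
    have m2 := hLS r _ (List.getElem_mem hi')
    rcases hr with ⟨h1, h2⟩ | ⟨h1, h2⟩
    · exact Or.inl ⟨hinj _ m1 _ hu h1, hinj _ m2 _ hv h2⟩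
    · exact Or.inr ⟨hinj _ m1 _ hv h1, hinj _ m2 _ hu h2⟩
  · intro r
    refine path_bound hN hS (L r) (hLS r) ?_
    rw [hL r]
    exact hF r

/-- a set of `n` lattice points between two consecutive square boxes -/
theorem exists_subset {n : ℕ} (hn : 1 ≤ n) : ∃ (N : ℕ) (S : Finset (ℤ × ℤ)), 0 < N ∧
    S ⊆ box N ∧ box (N - 1) ⊆ S ∧ S.card = n ∧ (N - 1) ^ 2 < n ∧ n ≤ N ^ 2 := by
  refine ⟨Nat.sqrt (n - 1) + 1, ?_⟩
  have h1 : Nat.sqrt (n - 1) ^ 2 ≤ n - 1 := by
    rw [sq]; exact Nat.sqrt_le _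
  have h2 : n - 1 < (Nat.sqrt (n - 1) + 1) ^ 2 := by
    rw [sq]; exact Nat.lt_succ_sqrt _
  have hsub : box (Nat.sqrt (n - 1) + 1 - 1) ⊆ box (Nat.sqrt (n - 1) + 1) := by
    intro z hz
    rw [mem_box] at hz ⊢
    simp only [Nat.add_sub_cancel] at hz
    push_cast
    omega
  obtain ⟨S, hS1, hS2, hS3⟩ := Finset.exists_subsuperset_card_eq (n := n) hsub
    (by rw [card_box, Nat.add_sub_cancel, ← sq]; omega) (by rw [card_box, ← sq]; omega)
  refine ⟨S, by omega, hS2, hS1, hS3, ?_, by omega⟩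
  rw [Nat.add_sub_cancel]; omega

/-- the final numerical estimate -/
theorem final_estimate {N n k : ℕ} (hN : 0 < N) (hn : 1 ≤ n) (h1 : (N - 1) ^ 2 < n) (h2 : n ≤ N ^ 2)
    (h3 : ((N - 1 : ℕ) : ℝ) ^ 4 * ((∑ k ∈ Icc 1 (N - 1), 1 / (k : ℝ)) / 2 - 1) ≤
      2 * k * (4 * (N * N))) : (n : ℝ) * (Real.log n - 4) / 512 ≤ k := by
  by_cases hlog : Real.log n ≤ 4
  · have : (n : ℝ) * (Real.log n - 4) ≤ 0 :=
      mul_nonpos_of_nonneg_of_nonpos (Nat.cast_nonneg n) (by linarith)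
    have hk : (0 : ℝ) ≤ k := Nat.cast_nonneg k
    linarith
  push Not at hlog
  have hn0 : (0 : ℝ) < n := by exact_mod_cast hn
  have hN2 : 2 ≤ N := by
    by_contra hcon
    have hN1 : N = 1 := by omega
    subst hN1
    have : n = 1 := by omega
    subst this
    simp at hlog
    linarith
  obtain ⟨m, rfl⟩ : ∃ m, N = m + 1 := ⟨N - 1, by omega⟩
  rw [Nat.add_sub_cancel] at h3
  have hm1 : (1 : ℝ) ≤ m := by exact_mod_cast (by omega : 1 ≤ m)
  -- harmonic lower bound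
  have hH : Real.log n / 2 ≤ ∑ k ∈ Icc 1 m, 1 / (k : ℝ) := by
    have e1 := log_add_one_le_harmonic m
    have e2 : ((harmonic m : ℚ) : ℝ) = ∑ k ∈ Icc 1 m, 1 / (k : ℝ) := by
      rw [harmonic_eq_sum_Icc]
      push_cast
      refine Finset.sum_congr rfl fun k _ => by rw [one_div]
    rw [e2] at e1
    refine le_trans ?_ e1
    have e3 : Real.log n ≤ Real.log (((m + 1 : ℕ) : ℝ) ^ 2) := by
      apply Real.log_le_log hn0
      exact_mod_cast h2
    rw [Real.log_pow] at e3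
    push_cast at e3 ⊢
    linarith
  set H := ∑ k ∈ Icc 1 m, 1 / (k : ℝ) with hHdef
  have hH1 : 0 < H / 2 - 1 := by linarith
  have h4 : ((m : ℝ) + 1) ≤ 2 * m := by linarith
  have h5 : ((m : ℝ) + 1) ^ 4 ≤ 16 * (m : ℝ) ^ 4 := by
    calc ((m : ℝ) + 1) ^ 4 ≤ (2 * m) ^ 4 := pow_le_pow_left₀ (by linarith) h4 4
      _ = 16 * (m : ℝ) ^ 4 := by ring
  have h6 : ((m : ℝ) + 1) ^ 4 * (H / 2 - 1) ≤ 16 * (2 * k * (4 * ((m + 1) * (m + 1)))) := by
    calc ((m : ℝ) + 1) ^ 4 * (H / 2 - 1) ≤ 16 * (m : ℝ) ^ 4 * (H / 2 - 1) :=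
          mul_le_mul_of_nonneg_right h5 hH1.le
      _ ≤ _ := by push_cast at h3; linarith
  have h7 : ((m : ℝ) + 1) ^ 2 * (H / 2 - 1) ≤ 128 * k := by
    have hpos : (0 : ℝ) < ((m : ℝ) + 1) ^ 2 := by positivity
    refine le_of_mul_le_mul_left ?_ hpos
    calc ((m : ℝ) + 1) ^ 2 * (((m : ℝ) + 1) ^ 2 * (H / 2 - 1)) =
          ((m : ℝ) + 1) ^ 4 * (H / 2 - 1) := by ring
      _ ≤ _ := h6
      _ = _ := by ring
  have h8 : (n : ℝ) * (H / 2 - 1) ≤ 128 * k := by
    refine le_trans (mul_le_mul_of_nonneg_right ?_ hH1.le) h7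
    have : ((n : ℕ) : ℝ) ≤ (((m + 1) ^ 2 : ℕ) : ℝ) := by exact_mod_cast h2
    push_cast at this
    exact this
  have h9 : (n : ℝ) * (Real.log n / 4 - 1) ≤ (n : ℝ) * (H / 2 - 1) :=
    mul_le_mul_of_nonneg_left (by linarith) hn0.le
  linarith

end Q148.Mono
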