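import Pool.Agent.Q148.MonoLower

set_option autoImplicit false

/-!
Lower bound for the sum of all gcds of differences in a square grid.
-/

namespace Q148.Mono

open Finset

theorem sum_inv_sq_le (m : ℕ) (hm : 0 < m) :
    ∑ j ∈ Icc 1 m, 1 / (j : ℝ) ^ 2 ≤ 2 - 1 / (m : ℝ) := by
  induction m with
  | zero => omega
  | succ m ih =>
    rcases Nat.eq_zero_or_pos m with h | h
    · subst h; norm_num
    · rw [Finset.sum_Icc_succ_top (by omega)]
      have h1 := ih h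
      have hm0 : (0 : ℝ) < m := by exact_mod_cast h
      have h2 : 1 / ((m : ℝ) + 1) ^ 2 ≤ 1 / m - 1 / (m + 1) := by
        rw [div_sub_div _ _ hm0.ne' (by positivity), div_le_div_iff₀ (by positivity) (by positivity)]
        nlinarith
      push_cast
      linarith

theorem sum_inv_sq_le_two (m : ℕ) : ∑ j ∈ Icc 1 m, 1 / (j : ℝ) ^ 2 ≤ 2 := by
  rcases Nat.eq_zero_or_pos m with h | h
  · subst h; simp
  · have h1 := sum_inv_sq_le m h
    have h2 : (0 : ℝ) ≤ 1 / m := by positivity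
    linarith

theorem harmonic_le (m : ℕ) : (∑ k ∈ Icc 1 m, 1 / (k : ℝ)) ≤
    2 * ∑ d ∈ Icc 1 m, (Nat.totient d : ℝ) / (d : ℝ) ^ 2 := by
  have h1 : ∀ k ∈ Icc 1 m, 1 / (k : ℝ) =
      ∑ d ∈ Icc 1 m, (if d ∣ k then (Nat.totient d : ℝ) / (k : ℝ) ^ 2 else 0) := by
    intro k hk
    rw [mem_Icc] at hk
    have hk0 : (k : ℝ) ≠ 0 := by
      have : k ≠ 0 := by omega
      exact_mod_cast this
    rw [← Finset.sum_filter]
    have h2 : (Icc 1 m).filter (fun d => d ∣ k) = k.divisors := by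
      ext d
      rw [mem_filter, mem_Icc, Nat.mem_divisors]
      constructor
      · rintro ⟨_, h⟩; exact ⟨h, by omega⟩
      · rintro ⟨h, _⟩
        have := Nat.le_of_dvd (by omega) h
        have := Nat.pos_of_dvd_of_pos h (by omega)
        exact ⟨⟨by omega, by omega⟩, h⟩
    rw [h2, ← Finset.sum_div, ← Nat.cast_sum, Nat.sum_totient]
    field_simp
  rw [Finset.sum_congr rfl h1, Finset.sum_comm, Finset.mul_sum]
  refine Finset.sum_le_sum fun d hd => ?_
  rw [mem_Icc] at hd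
  have hd0 : (0 : ℝ) < d := by exact_mod_cast hd.1
  have h3 : ∑ k ∈ Icc 1 m, (if d ∣ k then (Nat.totient d : ℝ) / (k : ℝ) ^ 2 else 0) ≤
      ∑ j ∈ Icc 1 m, (Nat.totient d : ℝ) / (d : ℝ) ^ 2 * (1 / (j : ℝ) ^ 2) := by
    rw [← Finset.sum_filter]
    have hinj : Set.InjOn (fun k : ℕ => k / d) ((Icc 1 m).filter (fun k => d ∣ k)) := by
      intro k hk k' hk' h
      rw [Finset.mem_coe, mem_filter] at hk hk'
      obtain ⟨j, rfl⟩ := hk.2
      obtain ⟨j', rfl⟩ := hk'.2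
      simp only at h
      rw [Nat.mul_div_cancel_left _ (by omega), Nat.mul_div_cancel_left _ (by omega)] at h
      rw [h]
    have hsub : ((Icc 1 m).filter (fun k => d ∣ k)).image (fun k : ℕ => k / d) ⊆ Icc 1 m := by
      intro j hj
      rw [mem_image] at hj
      obtain ⟨k, hk, rfl⟩ := hj
      rw [mem_filter, mem_Icc] at hk
      obtain ⟨j, rfl⟩ := hk.2
      rw [Nat.mul_div_cancel_left _ (by omega), mem_Icc]
      have : 0 < j := Nat.pos_of_mul_pos_left (by omega : 0 < d * j)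
      refine ⟨this, ?_⟩
      nlinarith
    calc ∑ k ∈ (Icc 1 m).filter (fun k => d ∣ k), (Nat.totient d : ℝ) / (k : ℝ) ^ 2
        = ∑ k ∈ (Icc 1 m).filter (fun k => d ∣ k),
            (Nat.totient d : ℝ) / (d : ℝ) ^ 2 * (1 / ((k / d : ℕ) : ℝ) ^ 2) := by
          refine Finset.sum_congr rfl fun k hk => ?_
          rw [mem_filter, mem_Icc] at hk
          obtain ⟨j, rfl⟩ := hk.2
          rw [Nat.mul_div_cancel_left _ (by omega)]
          push_cast
          rw [mul_pow, div_mul_div_comm, mul_one]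
      _ = ∑ j ∈ ((Icc 1 m).filter (fun k => d ∣ k)).image (fun k : ℕ => k / d),
            (Nat.totient d : ℝ) / (d : ℝ) ^ 2 * (1 / (j : ℝ) ^ 2) := by
          rw [Finset.sum_image hinj]
      _ ≤ _ := Finset.sum_le_sum_of_subset_of_nonneg hsub (fun _ _ _ => by positivity)
  refine h3.trans ?_
  rw [← Finset.mul_sum]
  have h4 := sum_inv_sq_le_two m
  have h5 : 0 ≤ (Nat.totient d : ℝ) / (d : ℝ) ^ 2 := by positivity
  nlinarith

/-- number of congruent pairs -/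
theorem count_congr (m d : ℕ) (hd : 0 < d) :
    (m : ℝ) ^ 2 / d ≤ (((Ico (0 : ℤ) m ×ˢ Ico (0 : ℤ) m).filter
      (fun e => (d : ℤ) ∣ e.2 - e.1)).card : ℝ) := by
  have h1 : ((Ico (0 : ℤ) m ×ˢ Ico (0 : ℤ) m).filter (fun e => (d : ℤ) ∣ e.2 - e.1)).card =
      ∑ c ∈ Ico (0 : ℤ) d, ((Ico (0 : ℤ) m).filter (fun x => x % d = c)).card ^ 2 := by
    rw [Finset.card_eq_sum_card_fiberwise (f := fun e => e.1 % (d : ℤ)) (t := Ico (0 : ℤ) d)]
    · refine Finset.sum_congr rfl fun c _ => ?_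
      rw [sq, ← Finset.card_product]
      congr 1
      ext ⟨x, y⟩
      simp only [mem_filter, mem_product]
      rw [← Int.modEq_iff_dvd]
      unfold Int.ModEq
      constructor
      · rintro ⟨⟨⟨h1, h2⟩, h3⟩, h4⟩
        exact ⟨⟨h1, h4⟩, h2, by rw [← h3, h4]⟩
      · rintro ⟨⟨h1, h2⟩, h3, h4⟩
        exact ⟨⟨⟨h1, h3⟩, by rw [h2, h4]⟩, h2⟩
    · intro e _
      simp only [Finset.mem_coe, mem_Ico]
      exact ⟨Int.emod_nonneg _ (by omega), Int.emod_lt_of_pos _ (by omega)⟩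
  have h2 : m = ∑ c ∈ Ico (0 : ℤ) d, ((Ico (0 : ℤ) m).filter (fun x => x % d = c)).card := by
    have := Finset.card_eq_sum_card_fiberwise (s := Ico (0 : ℤ) m) (f := fun x => x % (d : ℤ))
      (t := Ico (0 : ℤ) d) (fun x _ => by
        simp only [Finset.mem_coe, mem_Ico]
        exact ⟨Int.emod_nonneg _ (by omega), Int.emod_lt_of_pos _ (by omega)⟩)
    rw [Int.card_Ico] at this
    simpa using this
  have h3 := sq_sum_le_card_mul_sum_sq (s := Ico (0 : ℤ) d)
    (f := fun c => (((Ico (0 : ℤ) m).filter (fun x => x % d = c)).card : ℝ))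
  rw [h1, div_le_iff₀ (by exact_mod_cast hd)]
  rw [← Nat.cast_sum, ← h2, Int.card_Ico] at h3
  push_cast
  simp only [sub_zero, Int.toNat_natCast] at h3
  linarith

theorem gcd_sum_lower (m : ℕ) :
    (m : ℝ) ^ 4 * ((∑ k ∈ Icc 1 m, 1 / (k : ℝ)) / 2 - 1) ≤
      ((∑ e ∈ box m ×ˢ box m, gg e.1 e.2 : ℕ) : ℝ) := by
  -- pointwise bound
  have h1 : ∀ e : (ℤ × ℤ) × (ℤ × ℤ),
      (∑ d ∈ Icc 1 m, (Nat.totient d : ℝ) *
        (if (d : ℤ) ∣ e.2.1 - e.1.1 ∧ (d : ℤ) ∣ e.2.2 - e.1.2 then 1 else 0)) ≤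
      (gg e.1 e.2 : ℝ) + (if e.1 = e.2 then (m : ℝ) ^ 2 else 0) := by
    intro e
    split_ifs with he
    · rw [he, gg_self]
      simp only [sub_self, dvd_zero, and_self, if_true, mul_one, Nat.cast_zero, zero_add]
      calc ∑ d ∈ Icc 1 m, (Nat.totient d : ℝ) ≤ ∑ _d ∈ Icc 1 m, (m : ℝ) := by
            refine Finset.sum_le_sum fun d hd => ?_
            rw [mem_Icc] at hd
            exact_mod_cast (Nat.totient_le d).trans hd.2
        _ = (m : ℝ) ^ 2 := by simp; ring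
    · have hg : 0 < gg e.1 e.2 := (exists_prim he).choose_spec.2.2
      have h2 : ∑ d ∈ Icc 1 m, (Nat.totient d : ℝ) *
          (if (d : ℤ) ∣ e.2.1 - e.1.1 ∧ (d : ℤ) ∣ e.2.2 - e.1.2 then 1 else 0) =
          ∑ d ∈ (Icc 1 m).filter (fun d : ℕ => (d : ℤ) ∣ e.2.1 - e.1.1 ∧
            (d : ℤ) ∣ e.2.2 - e.1.2), (Nat.totient d : ℝ) := by
        rw [Finset.sum_filter]
        refine Finset.sum_congr rfl fun d _ => ?_
        split_ifs <;> simp
      rw [h2, add_zero]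
      have h3 : (gg e.1 e.2 : ℝ) = ∑ d ∈ (gg e.1 e.2).divisors, (Nat.totient d : ℝ) := by
        rw [← Nat.cast_sum, Nat.sum_totient]
      rw [h3]
      refine Finset.sum_le_sum_of_subset_of_nonneg ?_ (fun _ _ _ => Nat.cast_nonneg _)
      intro d hd
      rw [mem_filter] at hd
      rw [Nat.mem_divisors]
      refine ⟨?_, hg.ne'⟩
      have := Int.dvd_coe_gcd hd.2.1 hd.2.2
      unfold gg
      exact_mod_cast this
  have h2 := Finset.sum_le_sum (s := box m ×ˢ box m) fun e _ => h1 e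
  rw [Finset.sum_comm, Finset.sum_add_distrib] at h2
  have h3 : ∑ e ∈ box m ×ˢ box m, (if e.1 = e.2 then (m : ℝ) ^ 2 else 0) = (m : ℝ) ^ 4 := by
    rw [Finset.sum_product]
    simp only [Finset.sum_ite_eq]
    rw [Finset.sum_congr rfl (fun x hx => if_pos hx)]
    rw [Finset.sum_const, card_box]
    simp
    ring
  have h4 : ∀ d ∈ Icc 1 m, (Nat.totient d : ℝ) / (d : ℝ) ^ 2 * (m : ℝ) ^ 4 ≤
      ∑ e ∈ box m ×ˢ box m, (Nat.totient d : ℝ) *
        (if (d : ℤ) ∣ e.2.1 - e.1.1 ∧ (d : ℤ) ∣ e.2.2 - e.1.2 then 1 else 0) := by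
    intro d hd
    rw [mem_Icc] at hd
    have hd0 : (0 : ℝ) < d := by exact_mod_cast hd.1
    rw [← Finset.mul_sum]
    have e1 : ∑ e ∈ box m ×ˢ box m,
        (if (d : ℤ) ∣ e.2.1 - e.1.1 ∧ (d : ℤ) ∣ e.2.2 - e.1.2 then (1 : ℝ) else 0) =
        (((Ico (0 : ℤ) m ×ˢ Ico (0 : ℤ) m).filter
          (fun e => (d : ℤ) ∣ e.2 - e.1)).card : ℝ) ^ 2 := by
      rw [Finset.card_filter, Nat.cast_sum, sq, Finset.sum_mul_sum]
      simp only [box, Finset.sum_product]
      refine Finset.sum_congr rfl fun x _ => ?_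
      rw [Finset.sum_comm]
      refine Finset.sum_congr rfl fun x' _ => ?_
      refine Finset.sum_congr rfl fun y _ => ?_
      refine Finset.sum_congr rfl fun y' _ => ?_
      split_ifs with ha hb hc hd' <;> simp_all
    rw [e1]
    have h5 := count_congr m d (by omega)
    have h6 : (0 : ℝ) ≤ (m : ℝ) ^ 2 / d := by positivity
    have h7 := pow_le_pow_left₀ h6 h5 2
    have h8 : (Nat.totient d : ℝ) / (d : ℝ) ^ 2 * (m : ℝ) ^ 4 =
        (Nat.totient d : ℝ) * ((m : ℝ) ^ 2 / d) ^ 2 := by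
      field_simp
    rw [h8]
    exact mul_le_mul_of_nonneg_left h7 (Nat.cast_nonneg _)
  have h5 := (Finset.sum_le_sum h4).trans h2
  rw [h3, ← Finset.sum_mul] at h5
  have h6 := harmonic_le m
  push_cast
  have h7 : (0 : ℝ) ≤ (m : ℝ) ^ 4 := by positivity
  nlinarith

end Q148.Mono
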