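import Pool.Agent.Q148.MonoPath

set_option autoImplicit false

/-!
The quadratically perturbed grid: covering by linearly many monotone paths.
-/

namespace Q148.Mono

open Finset

section sorted

variable {α : Type}

theorem exists_sorted (S : Finset α) (V : α → ℝ) (hV : Set.InjOn V S) :
    ∃ l : List α, (∀ z, z ∈ l ↔ z ∈ S) ∧ l.Pairwise (fun a b => V a < V b) := by
  classical
  let r : α → α → Prop := fun a b => V a ≤ V b
  have ht : Std.Total r := ⟨fun a b => le_total (V a) (V b)⟩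
  have htr : IsTrans α r := ⟨fun a b c h1 h2 => le_trans h1 h2⟩
  refine ⟨S.toList.insertionSort r, fun z => ?_, ?_⟩
  · rw [List.mem_insertionSort, Finset.mem_toList]
  · have h1 := List.pairwise_insertionSort r S.toList
    have h2 : (S.toList.insertionSort r).Nodup :=
      (List.perm_insertionSort r S.toList).nodup_iff.mpr S.nodup_toList
    have h3 : (S.toList.insertionSort r).Pairwise (fun a b => r a b ∧ a ≠ b) := h1.and h2
    refine List.Pairwise.imp_of_mem ?_ h3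
    intro a b ha hb hab
    rw [List.mem_insertionSort, Finset.mem_toList] at ha hb
    exact lt_of_le_of_ne hab.1 (fun h => hab.2 (hV ha hb h))

theorem consecutive {l : List α} {V : α → ℝ} (hl : l.Pairwise (fun a b => V a < V b)) {p q : α}
    (hp : p ∈ l) (hq : q ∈ l) (hpq : V p < V q)
    (hno : ∀ z ∈ l, V p < V z → ¬ V z < V q) :
    ∃ (i : ℕ) (_ : i + 1 < l.length), l[i] = p ∧ l[i + 1] = q := by
  obtain ⟨i, hi, rfl⟩ := List.getElem_of_mem hp
  obtain ⟨j, hj, rfl⟩ := List.getElem_of_mem hq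
  rw [List.pairwise_iff_getElem] at hl
  have hij : i < j := by
    by_contra hcon
    push Not at hcon
    rcases hcon.eq_or_lt with h | h
    · subst h; exact lt_irrefl _ hpq
    · exact lt_asymm hpq (hl j i hj hi h)
  have hj' : j = i + 1 := by
    by_contra hne
    have h1 : i + 1 < j := by omega
    exact hno l[i + 1] (List.getElem_mem _) (hl i (i + 1) hi (by omega) (by omega))
      (hl (i + 1) j (by omega) hj h1)
  subst hj'
  exact ⟨i, hj, rfl, rfl⟩

end sorted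

/-- the quadratic perturbation -/
def phi2 (z : ℤ × ℤ) : ℝ := (z.1 : ℝ) ^ 2 + (z.2 : ℝ) ^ 2

/-- its bound -/
def Phi2 (N : ℕ) : ℝ := 2 * (N : ℝ) ^ 2 + 1

theorem box_real {N : ℕ} {z : ℤ × ℤ} (hz : z ∈ box N) :
    (0 ≤ (z.1 : ℝ) ∧ (z.1 : ℝ) ≤ N) ∧ (0 ≤ (z.2 : ℝ) ∧ (z.2 : ℝ) ≤ N) := by
  rw [mem_box] at hz
  refine ⟨⟨by exact_mod_cast hz.1.1, ?_⟩, ⟨by exact_mod_cast hz.2.1, ?_⟩⟩
  · exact_mod_cast hz.1.2.le
  · exact_mod_cast hz.2.2.le

theorem good_phi2 {N : ℕ} : Good N phi2 (Phi2 N) := by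
  refine ⟨by unfold Phi2; positivity, fun z _ => by unfold phi2; positivity, fun z hz => ?_, ?_⟩
  · have h := box_real hz
    unfold phi2 Phi2
    nlinarith [h.1.1, h.1.2, h.2.1, h.2.2]
  intro p hp q hq r hr hpq hpr hqr hdet
  obtain ⟨w, hw, hqw, hg⟩ := exists_prim hpq
  set g := gg p q with hgdef
  obtain ⟨k, hk⟩ : ∃ k, r = tr p k w := by
    apply exists_tr hw
    unfold mm
    rw [hqw] at hdet
    unfold tr at hdet
    simp only at hdet
    have h1 : (g : ℤ) * (w.1 * (r.2 - p.2) - w.2 * (r.1 - p.1)) = 0 := by linarith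
    have h2 := (mul_eq_zero.mp h1).resolve_left (by omega)
    linarith
  have hk0 : k ≠ 0 := by
    rintro rfl
    rw [tr_zero] at hk
    exact hpr hk.symm
  have hkg : k ≠ g := by
    rintro rfl
    exact hqr (hqw.trans hk.symm)
  have hkw : w.1 * (N : ℤ) - w.2 ≠ 0 := by
    have h1 := kap_ne hp hq hpq
    rw [hqw] at h1
    unfold tr at h1
    simp only at h1
    intro h0
    apply h1
    have : (p.1 + g * w.1 - p.1) * (N : ℤ) - (p.2 + g * w.2 - p.2) = g * (w.1 * N - w.2) := by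
      ring
    rw [this, h0, mul_zero]
  have hww : w.1 ^ 2 + w.2 ^ 2 ≠ 0 := by
    intro h0
    have h1 : w.1 = 0 := by nlinarith [sq_nonneg w.1, sq_nonneg w.2]
    have h2 : w.2 = 0 := by nlinarith [sq_nonneg w.1, sq_nonneg w.2]
    rw [h1, h2] at hw
    exact not_isCoprime_zero_zero hw
  rw [hk, hqw]
  have e : (phi2 (tr p k w) - phi2 p) * ((((tr p g w).1 - p.1 : ℤ) : ℝ) * N -
      (((tr p g w).2 - p.2 : ℤ) : ℝ)) - (phi2 (tr p g w) - phi2 p) *
      ((((tr p k w).1 - p.1 : ℤ) : ℝ) * N - (((tr p k w).2 - p.2 : ℤ) : ℝ)) =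
      (((w.1 * (N : ℤ) - w.2) * (g * k * (k - g)) * (w.1 ^ 2 + w.2 ^ 2) : ℤ) : ℝ) := by
    unfold phi2 tr
    push_cast
    ring
  rw [e]
  have h1 : (w.1 * (N : ℤ) - w.2) * (g * k * (k - g)) * (w.1 ^ 2 + w.2 ^ 2) ≠ 0 := by
    refine mul_ne_zero (mul_ne_zero hkw (mul_ne_zero (mul_ne_zero ?_ hk0) ?_)) hww
    · omega
    · omega
  exact_mod_cast h1

section direction

variable (N : ℕ) (K : ℝ) (v : ℤ × ℤ) (k : ℤ)

/-- the square of the length of the vector -/
def RR : ℝ := (v.1 : ℝ) ^ 2 + (v.2 : ℝ) ^ 2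

/-- the centre -/
noncomputable def cc : ℝ := 1 / 8 + k * RR v

/-- main coefficient -/
noncomputable def AA : ℝ := K * RR v + 2 * cc v k * (v.1 + N * v.2)

/-- the perturbation coefficient -/
def kp : ℝ := N * v.1 - v.2

/-- the direction of the path with index `(v, k)` -/
noncomputable def uu : ℝ × ℝ :=
  (AA N K v k * (-v.2) + (-2 * cc v k * kp N v) * v.1,
    AA N K v k * v.1 + (-2 * cc v k * kp N v) * v.2)

/-- the height function of the path with index `(v, k)` -/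
noncomputable def VV (z : ℤ × ℤ) : ℝ :=
  (P N K phi2 z).1 * (uu N K v k).1 + (P N K phi2 z).2 * (uu N K v k).2

/-- coordinate across the lines -/
def mr (z : ℤ × ℤ) : ℤ := v.1 * z.2 - v.2 * z.1

/-- coordinate along the lines -/
def dd (z : ℤ × ℤ) : ℤ := v.1 * z.1 + v.2 * z.2

/-- the second order part of the height -/
noncomputable def hh (z : ℤ × ℤ) : ℝ := RR v * phi2 z - 2 * cc v k * dd v z

theorem VV_eq (z : ℤ × ℤ) :
    VV N K v k z = K * (AA N K v k * mr v z + kp N v * hh v k z) := by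
  unfold VV uu P hh mr dd AA kp cc RR phi2
  push_cast
  ring

theorem hh_eq (z : ℤ × ℤ) :
    hh v k z = (mr v z : ℝ) ^ 2 + ((dd v z : ℝ) - cc v k) ^ 2 - cc v k ^ 2 := by
  unfold hh mr dd RR phi2
  push_cast
  ring

end direction

/-- scale factor for the quadratic perturbation -/
noncomputable def K2 (N : ℕ) : ℝ := 1000 * (N : ℝ) ^ 8

theorem K2_gt {N : ℕ} (hN : 0 < N) : 100 * Phi2 N * N ^ 2 < K2 N := by
  unfold Phi2 K2
  have h1 : (1 : ℝ) ≤ N := by exact_mod_cast hN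
  have h2 : (N : ℝ) ^ 4 ≤ N ^ 8 := pow_le_pow_right₀ h1 (by norm_num)
  have h3 : (N : ℝ) ^ 2 ≤ N ^ 8 := pow_le_pow_right₀ h1 (by norm_num)
  have h4 : 0 < (N : ℝ) ^ 8 := by positivity
  nlinarith

theorem K2_gt4 {N : ℕ} (hN : 0 < N) : 4 * Phi2 N * N ^ 2 < K2 N := by
  refine lt_of_le_of_lt ?_ (K2_gt hN)
  have : 0 ≤ Phi2 N * (N : ℝ) ^ 2 := by unfold Phi2; positivity
  linarith

/-- size assumptions on the index -/
structure Small (N : ℕ) (v : ℤ × ℤ) (k : ℤ) : Prop where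
  a : |v.1| ≤ N
  b : |v.2| ≤ N
  ne : v ≠ 0
  ka : (|k| + 1) * |v.1| ≤ 4 * N
  kb : (|k| + 1) * |v.2| ≤ 4 * N
  kap : kp N v ≠ 0
  kapN : |kp N v| ≤ (N : ℝ) ^ 2

theorem Small.RR_ge {N : ℕ} {v : ℤ × ℤ} {k : ℤ} (h : Small N v k) : 1 ≤ RR v := by
  have h1 : 1 ≤ v.1 ^ 2 + v.2 ^ 2 := by
    have hne := h.ne
    by_contra hcon
    push Not at hcon
    apply hne
    have h1 : v.1 = 0 := by nlinarith [sq_nonneg v.1, sq_nonneg v.2]
    have h2 : v.2 = 0 := by nlinarith [sq_nonneg v.1, sq_nonneg v.2]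
    exact Prod.ext h1 h2
  unfold RR
  exact_mod_cast h1

theorem Small.abs_real {N : ℕ} {v : ℤ × ℤ} {k : ℤ} (h : Small N v k) :
    |(v.1 : ℝ)| ≤ N ∧ |(v.2 : ℝ)| ≤ N := by
  refine ⟨?_, ?_⟩
  · have := h.a; exact_mod_cast this
  · have := h.b; exact_mod_cast this

theorem Small.RR_le {N : ℕ} {v : ℤ × ℤ} {k : ℤ} (h : Small N v k) :
    RR v ≤ 2 * (N : ℝ) ^ 2 := by
  have := h.abs_real
  unfold RR
  have h1 := sq_le_sq' (abs_le.mp this.1).1 (abs_le.mp this.1).2
  have h2 := sq_le_sq' (abs_le.mp this.2).1 (abs_le.mp this.2).2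
  linarith

theorem Small.cc_le {N : ℕ} {v : ℤ × ℤ} {k : ℤ} (h : Small N v k) :
    |cc v k| ≤ 9 * (N : ℝ) ^ 2 := by
  have hN : (1 : ℤ) ≤ N := by
    have h1 := h.ne
    by_contra hcon
    push Not at hcon
    have ha := h.a
    have hb := h.b
    have : v.1 = 0 := by rw [← abs_nonpos_iff]; omega
    have : v.2 = 0 := by rw [← abs_nonpos_iff]; omega
    exact h1 (Prod.ext ‹_› ‹_›)
  have hN' : (1 : ℝ) ≤ N := by exact_mod_cast hN
  have hk : (0 : ℝ) ≤ |(k : ℝ)| := abs_nonneg _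
  have h1 : |(k : ℝ)| * RR v ≤ 8 * (N : ℝ) ^ 2 := by
    have ka : (|(k : ℝ)| + 1) * |(v.1 : ℝ)| ≤ 4 * N := by
      have := h.ka; exact_mod_cast this
    have kb : (|(k : ℝ)| + 1) * |(v.2 : ℝ)| ≤ 4 * N := by
      have := h.kb; exact_mod_cast this
    have hab := h.abs_real
    have e : RR v = |(v.1 : ℝ)| * |(v.1 : ℝ)| + |(v.2 : ℝ)| * |(v.2 : ℝ)| := by
      unfold RR
      rw [abs_mul_abs_self, abs_mul_abs_self]; ring
    rw [e]
    have ha0 := abs_nonneg (v.1 : ℝ)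
    have hb0 := abs_nonneg (v.2 : ℝ)
    have i1 : |(k : ℝ)| * |(v.1 : ℝ)| ≤ 4 * N := by nlinarith
    have i2 : |(k : ℝ)| * |(v.2 : ℝ)| ≤ 4 * N := by nlinarith
    have j1 : |(k : ℝ)| * |(v.1 : ℝ)| * |(v.1 : ℝ)| ≤ 4 * N * N :=
      mul_le_mul i1 hab.1 ha0 (by linarith)
    have j2 : |(k : ℝ)| * |(v.2 : ℝ)| * |(v.2 : ℝ)| ≤ 4 * N * N :=
      mul_le_mul i2 hab.2 hb0 (by linarith)
    nlinarith
  unfold cc
  have hR := h.RR_ge
  refine (abs_add_le _ _).trans ?_
  rw [abs_mul, abs_of_pos (show (0 : ℝ) < RR v by linarith), abs_of_pos (by norm_num)]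
  nlinarith

theorem Small.pos {N : ℕ} {v : ℤ × ℤ} {k : ℤ} (h : Small N v k) : (1 : ℝ) ≤ N := by
  by_contra hcon
  push Not at hcon
  have h0 : N = 0 := by
    by_contra hne
    have : 1 ≤ N := Nat.one_le_iff_ne_zero.mpr hne
    have : (1 : ℝ) ≤ N := by exact_mod_cast this
    linarith
  subst h0
  have ha := h.a
  have hb := h.b
  have h1 : v.1 = 0 := by rw [← abs_nonpos_iff]; exact_mod_cast ha
  have h2 : v.2 = 0 := by rw [← abs_nonpos_iff]; exact_mod_cast hb
  exact h.ne (Prod.ext h1 h2)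

theorem Small.hh_le {N : ℕ} {v : ℤ × ℤ} {k : ℤ} (h : Small N v k) {z : ℤ × ℤ}
    (hz : z ∈ box N) : |hh v k z| ≤ 40 * (N : ℝ) ^ 4 := by
  have hN := h.pos
  have hb := box_real hz
  have hR := h.RR_le
  have hR1 := h.RR_ge
  have hc := h.cc_le
  have hv := h.abs_real
  have hphi : phi2 z ≤ 2 * (N : ℝ) ^ 2 := by unfold phi2; nlinarith
  have hphi0 : 0 ≤ phi2 z := by unfold phi2; positivity
  have hd : |(dd v z : ℝ)| ≤ 2 * (N : ℝ) ^ 2 := by
    unfold dd
    push_cast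
    refine (abs_add_le _ _).trans ?_
    rw [abs_mul, abs_mul, abs_of_nonneg hb.1.1, abs_of_nonneg hb.2.1]
    have h1 := mul_le_mul hv.1 hb.1.2 hb.1.1 (by linarith)
    have h2 := mul_le_mul hv.2 hb.2.2 hb.2.1 (by linarith)
    nlinarith
  unfold hh
  refine (abs_sub _ _).trans ?_
  rw [abs_mul, abs_of_nonneg (show 0 ≤ RR v by linarith), abs_of_nonneg hphi0, abs_mul, abs_mul,
    abs_two]
  have h1 := mul_le_mul hR hphi hphi0 (by positivity)
  have h2 := mul_le_mul hc hd (abs_nonneg _) (by positivity)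
  nlinarith

/-- the first order part dominates -/
theorem Small.dom {N : ℕ} {v : ℤ × ℤ} {k : ℤ} (h : Small N v k) {z z' : ℤ × ℤ}
    (hz : z ∈ box N) (hz' : z' ∈ box N) (hm : mr v z < mr v z') :
    VV N (K2 N) v k z < VV N (K2 N) v k z' := by
  have hN := h.pos
  rw [VV_eq, VV_eq]
  have hK : 0 < K2 N := by unfold K2; positivity
  refine mul_lt_mul_of_pos_left ?_ hK
  have h1 := h.hh_le hz
  have h2 := h.hh_le hz'
  have hk := h.kapN
  have hR1 := h.RR_ge
  have hc := h.cc_le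
  have hv := h.abs_real
  have h3 : |kp N v * hh v k z| ≤ 40 * (N : ℝ) ^ 6 := by
    rw [abs_mul]
    have := mul_le_mul hk h1 (abs_nonneg _) (by positivity)
    nlinarith
  have h4 : |kp N v * hh v k z'| ≤ 40 * (N : ℝ) ^ 6 := by
    rw [abs_mul]
    have := mul_le_mul hk h2 (abs_nonneg _) (by positivity)
    nlinarith
  have h5 : |2 * cc v k * ((v.1 : ℝ) + N * v.2)| ≤ 36 * (N : ℝ) ^ 4 := by
    have h6 : |(v.1 : ℝ) + N * v.2| ≤ 2 * (N : ℝ) ^ 2 := by
      refine (abs_add_le _ _).trans ?_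
      rw [abs_mul, abs_of_nonneg (show (0 : ℝ) ≤ N by linarith)]
      have := mul_le_mul_of_nonneg_left hv.2 (show (0 : ℝ) ≤ N by linarith)
      nlinarith [hv.1]
    rw [abs_mul, abs_mul, abs_two]
    have := mul_le_mul hc h6 (abs_nonneg _) (by positivity)
    nlinarith
  have hA : 80 * (N : ℝ) ^ 6 < AA N (K2 N) v k := by
    unfold AA
    have h6 : K2 N ≤ K2 N * RR v := by nlinarith
    have h7 := (abs_le.mp h5).1
    have h8 : (N : ℝ) ^ 4 ≤ N ^ 8 := pow_le_pow_right₀ hN (by norm_num)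
    have h9 : (N : ℝ) ^ 6 ≤ N ^ 8 := pow_le_pow_right₀ hN (by norm_num)
    have h10 : 0 < (N : ℝ) ^ 8 := by positivity
    unfold K2 at h6 ⊢
    linarith
  have hm' : (1 : ℝ) ≤ (mr v z' : ℝ) - mr v z := by
    have : 1 ≤ mr v z' - mr v z := by omega
    exact_mod_cast this
  have h6 : AA N (K2 N) v k * 1 ≤ AA N (K2 N) v k * ((mr v z' : ℝ) - mr v z) :=
    mul_le_mul_of_nonneg_left hm' (by
      have : (0 : ℝ) ≤ 80 * (N : ℝ) ^ 6 := by positivity
      linarith)
  have h7 := (abs_le.mp h3).2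
  have h8 := (abs_le.mp h4).1
  linarith

/-- on one line the height is determined by the distance to the centre -/
theorem VV_line {N : ℕ} {v : ℤ × ℤ} {k : ℤ} {z z' : ℤ × ℤ} (hm : mr v z = mr v z') :
    VV N (K2 N) v k z - VV N (K2 N) v k z' =
      (K2 N * kp N v) * (((dd v z : ℝ) - cc v k) ^ 2 - ((dd v z' : ℝ) - cc v k) ^ 2) := by
  rw [VV_eq, VV_eq, hh_eq, hh_eq, hm]
  ring

theorem cc_ne_half (v : ℤ × ℤ) (k s : ℤ) : 2 * cc v k ≠ s := by
  intro h
  unfold cc RR at h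
  have h1 : (1 : ℝ) = 4 * (s - 2 * k * ((v.1 : ℝ) ^ 2 + (v.2 : ℝ) ^ 2)) := by linarith
  have h2 : (1 : ℤ) = 4 * (s - 2 * k * (v.1 ^ 2 + v.2 ^ 2)) := by exact_mod_cast h1
  omega

theorem Small.inj {N : ℕ} {v : ℤ × ℤ} {k : ℤ} (h : Small N v k) {z z' : ℤ × ℤ}
    (hz : z ∈ box N) (hz' : z' ∈ box N)
    (he : VV N (K2 N) v k z = VV N (K2 N) v k z') : z = z' := by
  have hN := h.pos
  have hK : 0 < K2 N := by unfold K2; positivity
  have hm : mr v z = mr v z' := by
    rcases lt_trichotomy (mr v z) (mr v z') with h1 | h1 | h1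
    · exact absurd he (h.dom hz hz' h1).ne
    · exact h1
    · exact absurd he (h.dom hz' hz h1).ne'
  have h1 := VV_line (N := N) (k := k) hm
  rw [he, sub_self] at h1
  have h2 := (mul_eq_zero.mp h1.symm).resolve_left (mul_ne_zero hK.ne' h.kap)
  have h3 : ((dd v z : ℝ) - dd v z') * ((dd v z : ℝ) + dd v z' - 2 * cc v k) = 0 := by
    nlinarith
  have hd : dd v z = dd v z' := by
    rcases mul_eq_zero.mp h3 with h4 | h4
    · have : (dd v z : ℝ) = dd v z' := by linarith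
      exact_mod_cast this
    · exfalso
      apply cc_ne_half v k (dd v z + dd v z')
      push_cast
      linarith
  have hR : v.1 ^ 2 + v.2 ^ 2 ≠ 0 := by
    have := h.RR_ge
    unfold RR at this
    intro h0
    have h0' : (v.1 : ℝ) ^ 2 + (v.2 : ℝ) ^ 2 = 0 := by exact_mod_cast h0
    linarith
  unfold mr at hm
  unfold dd at hd
  apply Prod.ext
  · apply mul_left_cancel₀ hR
    linear_combination v.1 * hd - v.2 * hm
  · apply mul_left_cancel₀ hR
    linear_combination v.2 * hd + v.1 * hm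

/-- nothing is strictly between the squared distances to the centre -/
theorem no_between {x y R : ℝ} {g i : ℤ} (hR : 0 < R) (hg : 0 < g) (hxy : |x - y| < R)
    (hsum : x + y = g * R) :
    ¬ (x ^ 2 < (i * R - x) ^ 2 ∧ (i * R - x) ^ 2 < y ^ 2) ∧
      ¬ (y ^ 2 < (i * R - x) ^ 2 ∧ (i * R - x) ^ 2 < x ^ 2) := by
  rw [abs_lt] at hxy
  have hg' : (1 : ℝ) ≤ g := by exact_mod_cast hg
  have hx : 0 < x := by nlinarith
  have hy : 0 < y := by nlinarith
  rcases lt_trichotomy i 0 with hi | hi | hi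
  · have hi' : (i : ℝ) ≤ -1 := by exact_mod_cast (by omega : i ≤ -1)
    have h1 : i * R ≤ -1 * R := mul_le_mul_of_nonneg_right hi' hR.le
    have h2 : x + R ≤ x - i * R := by linarith
    have h3 : x ^ 2 < (i * R - x) ^ 2 := by
      rw [show (i * R - x) ^ 2 = (x - i * R) ^ 2 by ring]
      exact pow_lt_pow_left₀ (by linarith) hx.le (by norm_num)
    have h4 : y ^ 2 < (i * R - x) ^ 2 := by
      rw [show (i * R - x) ^ 2 = (x - i * R) ^ 2 by ring]
      exact pow_lt_pow_left₀ (by linarith) hy.le (by norm_num)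
    exact ⟨fun h => lt_asymm h4 h.2, fun h => lt_asymm h3 h.2⟩
  · subst hi
    have h1 : (((0 : ℤ) : ℝ) * R - x) ^ 2 = x ^ 2 := by push_cast; ring
    rw [h1]
    exact ⟨fun h => lt_irrefl _ h.1, fun h => lt_irrefl _ h.2⟩
  · rcases lt_trichotomy i g with hig | hig | hig
    · have h1 : (i : ℝ) * R ≤ (g - 1) * R := by
        refine mul_le_mul_of_nonneg_right ?_ hR.le
        exact_mod_cast (by omega : i ≤ g - 1)
      have h2 : 1 * R ≤ (i : ℝ) * R := by
        refine mul_le_mul_of_nonneg_right ?_ hR.le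
        exact_mod_cast (by omega : 1 ≤ i)
      have h3 : (i * R - x) ^ 2 < x ^ 2 := sq_lt_sq' (by linarith) (by linarith)
      have h4 : (i * R - x) ^ 2 < y ^ 2 := sq_lt_sq' (by linarith) (by linarith)
      exact ⟨fun h => lt_asymm h3 h.1, fun h => lt_asymm h4 h.1⟩
    · subst hig
      have h1 : (i * R - x) ^ 2 = y ^ 2 := by
        have : i * R - x = y := by linarith
        rw [this]
      rw [h1]
      exact ⟨fun h => lt_irrefl _ h.2, fun h => lt_irrefl _ h.1⟩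
    · have h1 : ((g : ℝ) + 1) * R ≤ i * R := by
        refine mul_le_mul_of_nonneg_right ?_ hR.le
        exact_mod_cast (by omega : g + 1 ≤ i)
      have h3 : x ^ 2 < (i * R - x) ^ 2 :=
        pow_lt_pow_left₀ (by linarith) hx.le (by norm_num)
      have h4 : y ^ 2 < (i * R - x) ^ 2 :=
        pow_lt_pow_left₀ (by linarith) hy.le (by norm_num)
      exact ⟨fun h => lt_asymm h4 h.2, fun h => lt_asymm h3 h.2⟩

/-- the index set of the covering -/
noncomputable def idx (N : ℕ) : Finset ((ℤ × ℤ) × ℤ) :=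
  (Icc 1 (4 * N)).biUnion fun j : ℕ =>
    (Icc (-((4 * N / j : ℕ) : ℤ)) ((4 * N / j : ℕ) : ℤ) ×ˢ
      Icc (-((4 * N / j : ℕ) : ℤ)) ((4 * N / j : ℕ) : ℤ)) ×ˢ {(j : ℤ) - 1, 1 - (j : ℤ)}

theorem card_idx (N : ℕ) : ((idx N).card : ℝ) ≤ 576 * (N : ℝ) ^ 2 := by
  have h1 : (idx N).card ≤ ∑ j ∈ Icc 1 (4 * N),
      ((Icc (-((4 * N / j : ℕ) : ℤ)) ((4 * N / j : ℕ) : ℤ) ×ˢ
      Icc (-((4 * N / j : ℕ) : ℤ)) ((4 * N / j : ℕ) : ℤ)) ×ˢ
        ({(j : ℤ) - 1, 1 - (j : ℤ)} : Finset ℤ)).card := Finset.card_biUnion_le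
  have h2 : ∀ j ∈ Icc 1 (4 * N), ((((Icc (-((4 * N / j : ℕ) : ℤ)) ((4 * N / j : ℕ) : ℤ) ×ˢ
      Icc (-((4 * N / j : ℕ) : ℤ)) ((4 * N / j : ℕ) : ℤ)) ×ˢ
        ({(j : ℤ) - 1, 1 - (j : ℤ)} : Finset ℤ)).card : ℕ) : ℝ) ≤
      288 * (N : ℝ) ^ 2 * (1 / (j : ℝ) ^ 2) := by
    intro j hj
    rw [mem_Icc] at hj
    have hj0 : (0 : ℝ) < j := by exact_mod_cast hj.1
    rw [Finset.card_product, Finset.card_product, Int.card_Icc]
    have h3 : (((4 * N / j : ℕ) : ℤ) + 1 - (-((4 * N / j : ℕ) : ℤ))).toNat =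
        2 * (4 * N / j) + 1 := by omega
    rw [h3]
    have h4 : ({(j : ℤ) - 1, 1 - (j : ℤ)} : Finset ℤ).card ≤ 2 := Finset.card_le_two
    have h5 : 1 ≤ 4 * N / j := (Nat.one_le_div_iff (by omega)).mpr hj.2
    have h6 : ((4 * N / j : ℕ) : ℝ) ≤ 4 * N / j := by
      have := @Nat.cast_div_le ℝ _ _ _ (4 * N) j
      push_cast at this
      exact this
    have h7 : ((2 * (4 * N / j) + 1 : ℕ) : ℝ) ≤ 12 * N / j := by
      have : 2 * (4 * N / j) + 1 ≤ 3 * (4 * N / j) := by omega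
      have h8 : ((2 * (4 * N / j) + 1 : ℕ) : ℝ) ≤ ((3 * (4 * N / j) : ℕ) : ℝ) := by
        exact_mod_cast this
      refine h8.trans ?_
      push_cast
      have e : (12 : ℝ) * N / j = 3 * (4 * N / j) := by ring
      rw [e]
      linarith
    rw [Nat.cast_mul, Nat.cast_mul]
    have h9 : (0 : ℝ) ≤ ((2 * (4 * N / j) + 1 : ℕ) : ℝ) := Nat.cast_nonneg _
    have h10 := mul_le_mul h7 h7 h9 (by positivity)
    have h11 : ((({(j : ℤ) - 1, 1 - (j : ℤ)} : Finset ℤ).card : ℕ) : ℝ) ≤ 2 := by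
      exact_mod_cast h4
    have h12 := mul_le_mul h10 h11 (Nat.cast_nonneg _) (by positivity)
    refine h12.trans (le_of_eq ?_)
    field_simp
    ring
  have h3 : ((idx N).card : ℝ) ≤ ∑ j ∈ Icc 1 (4 * N), 288 * (N : ℝ) ^ 2 * (1 / (j : ℝ) ^ 2) := by
    refine le_trans ?_ (Finset.sum_le_sum h2)
    rw [← Nat.cast_sum]
    exact_mod_cast h1
  rw [← Finset.mul_sum] at h3
  have h4 := sum_inv_sq_le_two (4 * N)
  have h5 : (0 : ℝ) ≤ 288 * (N : ℝ) ^ 2 := by positivity
  nlinarith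

theorem mem_idx {N : ℕ} {v : ℤ × ℤ} {k : ℤ} (h : Small N v k) (hk : |k| + 1 ≤ 4 * N) :
    (v, k) ∈ idx N := by
  unfold idx
  rw [Finset.mem_biUnion]
  refine ⟨k.natAbs + 1, ?_, ?_⟩
  · rw [mem_Icc]
    have : (k.natAbs : ℤ) = |k| := Int.natCast_natAbs k
    omega
  · have hj : ((k.natAbs + 1 : ℕ) : ℤ) = |k| + 1 := by
      push_cast; ring
    have key : ∀ x : ℤ, (|k| + 1) * |x| ≤ 4 * N →
        |x| ≤ ((4 * N / (k.natAbs + 1) : ℕ) : ℤ) := by
      intro x hx
      rw [Int.natCast_div, Int.le_ediv_iff_mul_le (by omega), hj]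
      push_cast
      linarith
    rw [Finset.mem_product, Finset.mem_product]
    refine ⟨⟨?_, ?_⟩, ?_⟩
    · rw [mem_Icc]; exact abs_le.mp (key _ h.ka)
    · rw [mem_Icc]; exact abs_le.mp (key _ h.kb)
    · rw [Finset.mem_insert, Finset.mem_singleton, hj]
      simp only
      rcases le_total 0 k with h0 | h0
      · left; rw [abs_of_nonneg h0]; ring
      · right; rw [abs_of_nonpos h0]; ring

/-- choice of the centre -/
theorem exists_center {N : ℕ} {p q v : ℤ × ℤ} {g : ℕ} (hp : p ∈ box N) (hq : q ∈ box N)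
    (hpq : p ≠ q) (hv : IsCoprime v.1 v.2) (hqv : q = tr p g v) (hg : 0 < g) :
    ∃ k : ℤ, Small N v k ∧ |k| + 1 ≤ 4 * N ∧
      |2 * cc v k - dd v p - dd v q| < RR v := by
  have hvne : v ≠ 0 := by
    rintro rfl
    exact not_isCoprime_zero_zero hv
  have hp' := mem_box.mp hp
  have hq' := mem_box.mp hq
  have hq1 : q.1 - p.1 = g * v.1 := by rw [hqv]; unfold tr; simp
  have hq2 : q.2 - p.2 = g * v.2 := by rw [hqv]; unfold tr; simp
  have hg1 : (1 : ℤ) ≤ g := by omega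
  have hv1 : |v.1| ≤ N - 1 := by
    have h1 : |q.1 - p.1| ≤ N - 1 := by rw [abs_le]; omega
    rw [hq1, abs_mul, Nat.abs_cast] at h1
    nlinarith [abs_nonneg v.1]
  have hv2 : |v.2| ≤ N - 1 := by
    have h1 : |q.2 - p.2| ≤ N - 1 := by rw [abs_le]; omega
    rw [hq2, abs_mul, Nat.abs_cast] at h1
    nlinarith [abs_nonneg v.2]
  -- the integer square length
  set R : ℤ := v.1 ^ 2 + v.2 ^ 2 with hRdef
  have hR1 : 1 ≤ R := by
    by_contra hcon
    push Not at hcon
    apply hvne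
    have h1 : v.1 = 0 := by nlinarith [sq_nonneg v.1, sq_nonneg v.2]
    have h2 : v.2 = 0 := by nlinarith [sq_nonneg v.1, sq_nonneg v.2]
    exact Prod.ext h1 h2
  have hRR : RR v = (R : ℝ) := by unfold RR; rw [hRdef]; push_cast; ring
  have hRpos : (0 : ℝ) < R := by exact_mod_cast hR1
  set x₀ : ℝ := (((dd v p : ℝ) + dd v q) / 2 - 1 / 8) / R with hx₀
  set k : ℤ := round x₀ with hkdef
  have hround : |x₀ - k| ≤ 1 / 2 := abs_sub_round x₀
  have hmid : |((dd v p : ℝ) + dd v q) / 2 - 1 / 8 - k * R| ≤ R / 2 := by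
    have e : ((dd v p : ℝ) + dd v q) / 2 - 1 / 8 - k * R = (x₀ - k) * R := by
      rw [hx₀]; field_simp
    rw [e, abs_mul, abs_of_pos hRpos]
    nlinarith
  -- the maximum norm
  have hkey : ∀ x : ℤ, (x = v.1 ∨ x = v.2) → (|k| + 1) * |x| ≤ 4 * N := by
    -- bound |k| * max ≤ ...
    set ρ : ℤ := max |v.1| |v.2| with hρ
    have hρ1 : 1 ≤ ρ := by
      by_contra hcon
      push Not at hcon
      apply hvne
      have h1 : |v.1| ≤ ρ := le_max_left _ _
      have h2 : |v.2| ≤ ρ := le_max_right _ _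
      have h3 : v.1 = 0 := by rw [← abs_nonpos_iff]; omega
      have h4 : v.2 = 0 := by rw [← abs_nonpos_iff]; omega
      exact Prod.ext h3 h4
    have hρN : ρ ≤ N - 1 := max_le hv1 hv2
    have hρR : ρ * ρ ≤ R := by
      rcases max_choice |v.1| |v.2| with h | h
      · rw [hρ, h, abs_mul_abs_self, hRdef]; nlinarith [sq_nonneg v.2]
      · rw [hρ, h, abs_mul_abs_self, hRdef]; nlinarith [sq_nonneg v.1]
    have hdd : ∀ z ∈ box N, |dd v z| ≤ 2 * (N - 1) * ρ := by
      intro z hz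
      rw [mem_box] at hz
      unfold dd
      refine (abs_add_le _ _).trans ?_
      rw [abs_mul, abs_mul, abs_of_nonneg hz.1.1, abs_of_nonneg hz.2.1]
      have h1 : |v.1| * z.1 ≤ ρ * (N - 1) :=
        mul_le_mul (le_max_left _ _) (by omega) hz.1.1 (by omega)
      have h2 : |v.2| * z.2 ≤ ρ * (N - 1) :=
        mul_le_mul (le_max_right _ _) (by omega) hz.2.1 (by omega)
      nlinarith
    have hdp : |(dd v p : ℝ)| ≤ 2 * (N - 1) * ρ := by exact_mod_cast hdd p hp
    have hdq : |(dd v q : ℝ)| ≤ 2 * (N - 1) * ρ := by exact_mod_cast hdd q hq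
    have hρR' : (ρ : ℝ) * ρ ≤ R := by exact_mod_cast hρR
    have hρ1' : (1 : ℝ) ≤ ρ := by exact_mod_cast hρ1
    have hρN' : (ρ : ℝ) ≤ N - 1 := by exact_mod_cast hρN
    have h3 : |(k : ℝ)| * R ≤ 2 * (N - 1) * ρ + 1 / 8 + R / 2 := by
      have e : |(k : ℝ)| * R = |(k : ℝ) * R| := by rw [abs_mul, abs_of_pos hRpos]
      rw [e]
      have e2 : (k : ℝ) * R = (((dd v p : ℝ) + dd v q) / 2 - 1 / 8) -
        (((dd v p : ℝ) + dd v q) / 2 - 1 / 8 - k * R) := by ring
      rw [e2]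
      refine (abs_sub _ _).trans ?_
      have h5 : |((dd v p : ℝ) + dd v q) / 2 - 1 / 8| ≤ 2 * (N - 1) * ρ + 1 / 8 := by
        rw [abs_le] at hdp hdq ⊢
        constructor <;> linarith [hdp.1, hdp.2, hdq.1, hdq.2]
      linarith
    -- multiply out
    have h4 : (|(k : ℝ)| - 1 / 2) * ρ ≤ 2 * (N - 1) + 1 / 8 := by
      by_contra hcon
      push Not at hcon
      have h5 : 0 < (|(k : ℝ)| - 1 / 2) * ρ := by
        have : (0 : ℝ) ≤ 2 * (N - 1) := by linarith
        linarith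
      have h6 : 0 < |(k : ℝ)| - 1 / 2 := by
        by_contra h7
        push Not at h7
        have : (|(k : ℝ)| - 1 / 2) * ρ ≤ 0 :=
          mul_nonpos_of_nonpos_of_nonneg h7 (by linarith)
        linarith
      have h7 : (|(k : ℝ)| - 1 / 2) * (ρ * ρ) ≤ (|(k : ℝ)| - 1 / 2) * R :=
        mul_le_mul_of_nonneg_left hρR' h6.le
      have h8 : (|(k : ℝ)| - 1 / 2) * R ≤ 2 * (N - 1) * ρ + 1 / 8 := by linarith
      have h9 : (2 * ((N : ℝ) - 1) + 1 / 8) * ρ < (|(k : ℝ)| - 1 / 2) * ρ * ρ :=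
        mul_lt_mul_of_pos_right hcon (by linarith)
      nlinarith
    have h5 : (|(k : ℝ)| + 1) * ρ ≤ 4 * N := by nlinarith
    have h6 : (|k| + 1) * ρ ≤ 4 * N := by exact_mod_cast h5
    intro x hx
    refine le_trans ?_ h6
    refine mul_le_mul_of_nonneg_left ?_ (by positivity)
    rcases hx with rfl | rfl
    · exact le_max_left _ _
    · exact le_max_right _ _
  have hkapne : kp N v ≠ 0 := by
    have h1 := kap_ne hp hq hpq
    rw [hq1, hq2] at h1
    intro h0
    apply h1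
    have h2 : (N : ℤ) * v.1 - v.2 = 0 := by
      unfold kp at h0
      exact_mod_cast h0
    have : (g : ℤ) * v.1 * N - g * v.2 = g * (N * v.1 - v.2) := by ring
    rw [this, h2, mul_zero]
  have hsmall : Small N v k := by
    refine ⟨by omega, by omega, hvne, hkey _ (Or.inl rfl), hkey _ (Or.inr rfl), hkapne, ?_⟩
    have h1 := kap_w_le (w := v) hp (by rw [← hqv]; exact hq) (show (0 : ℤ) < g by omega)
    unfold kp
    rw [mul_comm]
    exact h1
  have hk4 : |k| + 1 ≤ 4 * N := by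
    rcases eq_or_ne v.1 0 with h1 | h1
    · have h2 : v.2 ≠ 0 := fun h2 => hvne (Prod.ext h1 h2)
      have h3 := hkey _ (Or.inr rfl)
      have h4 : 1 ≤ |v.2| := Int.one_le_abs h2
      nlinarith [abs_nonneg k]
    · have h3 := hkey _ (Or.inl rfl)
      have h4 : 1 ≤ |v.1| := Int.one_le_abs h1
      nlinarith [abs_nonneg k]
  refine ⟨k, hsmall, hk4, ?_⟩
  have hcval : cc v k = 1 / 8 + k * R := by unfold cc; rw [hRR]
  have h1 : |2 * cc v k - dd v p - dd v q| ≤ R := by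
    have e : 2 * cc v k - dd v p - dd v q =
        -2 * (((dd v p : ℝ) + dd v q) / 2 - 1 / 8 - k * R) := by
      rw [hcval]; ring
    rw [e, abs_mul]
    have : |(-2 : ℝ)| = 2 := by norm_num
    rw [this]; linarith
  rw [hRR]
  refine lt_of_le_of_ne h1 ?_
  intro h2
  rcases (abs_eq hRpos.le).mp h2 with h4 | h4
  · apply cc_ne_half v k (dd v p + dd v q + R)
    push_cast; linarith
  · apply cc_ne_half v k (dd v p + dd v q - R)
    push_cast; linarith

theorem sign_transfer {C a b c : ℝ} (hC : C ≠ 0) {s t : ℝ} (e1 : s = C * (a - b))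
    (e2 : t = C * (a - c)) (h1 : ¬ (b < a ∧ a < c)) (h2 : ¬ (c < a ∧ a < b)) :
    ¬ (0 < s ∧ t < 0) ∧ ¬ (0 < t ∧ s < 0) := by
  subst e1 e2
  rcases lt_or_gt_of_ne hC with hs | hs
  · constructor
    · rintro ⟨h3, h4⟩
      have h5 : a - b < 0 := by
        by_contra hcon
        push Not at hcon
        linarith [mul_nonpos_of_nonpos_of_nonneg hs.le hcon]
      have h6 : 0 < a - c := by
        by_contra hcon
        push Not at hcon
        linarith [mul_nonneg_of_nonpos_of_nonpos hs.le hcon]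
      exact h2 ⟨by linarith, by linarith⟩
    · rintro ⟨h3, h4⟩
      have h5 : a - c < 0 := by
        by_contra hcon
        push Not at hcon
        linarith [mul_nonpos_of_nonpos_of_nonneg hs.le hcon]
      have h6 : 0 < a - b := by
        by_contra hcon
        push Not at hcon
        linarith [mul_nonneg_of_nonpos_of_nonpos hs.le hcon]
      exact h1 ⟨by linarith, by linarith⟩
  · constructor
    · rintro ⟨h3, h4⟩
      have h5 : 0 < a - b := by
        by_contra hcon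
        push Not at hcon
        linarith [mul_nonpos_of_nonneg_of_nonpos hs.le hcon]
      have h6 : a - c < 0 := by
        by_contra hcon
        push Not at hcon
        linarith [mul_nonneg hs.le hcon]
      exact h1 ⟨by linarith, by linarith⟩
    · rintro ⟨h3, h4⟩
      have h5 : 0 < a - c := by
        by_contra hcon
        push Not at hcon
        linarith [mul_nonpos_of_nonneg_of_nonpos hs.le hcon]
      have h6 : a - b < 0 := by
        by_contra hcon
        push Not at hcon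
        linarith [mul_nonneg hs.le hcon]
      exact h2 ⟨by linarith, by linarith⟩

theorem nothing_between {N : ℕ} {p q v : ℤ × ℤ} {g : ℕ} {k : ℤ} (hp : p ∈ box N)
    (hq : q ∈ box N) (hv : IsCoprime v.1 v.2) (hqv : q = tr p g v) (hg : 0 < g)
    (hsmall : Small N v k) (hc : |2 * cc v k - dd v p - dd v q| < RR v) (z : ℤ × ℤ)
    (hz : z ∈ box N) :
    ¬ (VV N (K2 N) v k p < VV N (K2 N) v k z ∧ VV N (K2 N) v k z < VV N (K2 N) v k q) ∧
    ¬ (VV N (K2 N) v k q < VV N (K2 N) v k z ∧ VV N (K2 N) v k z < VV N (K2 N) v k p) := by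
  have hmpq : mr v p = mr v q := by
    rw [hqv]; unfold mr tr; simp only; ring
  have hRpos : 0 < RR v := by linarith [hsmall.RR_ge]
  have hdq : (dd v q : ℝ) = dd v p + g * RR v := by
    rw [hqv]; unfold dd tr RR; push_cast; ring
  have hKpos : 0 < K2 N := by
    have := hsmall.pos
    unfold K2; positivity
  have hKκ : K2 N * kp N v ≠ 0 := mul_ne_zero hKpos.ne' hsmall.kap
  by_cases hmz : mr v z = mr v p
  · obtain ⟨i, hi⟩ : ∃ i, z = tr p i v := by
      apply exists_tr hv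
      unfold mm
      unfold mr at hmz
      linarith
    have hdz : (dd v z : ℝ) - cc v k = i * RR v - (cc v k - dd v p) := by
      rw [hi]
      unfold dd tr RR
      push_cast
      ring
    have hsum : (cc v k - dd v p) + (dd v q - cc v k) = ((g : ℤ) : ℝ) * RR v := by
      rw [hdq]; push_cast; ring
    have hxy : |(cc v k - dd v p) - (dd v q - cc v k)| < RR v := by
      have : (cc v k - dd v p) - (dd v q - cc v k) = 2 * cc v k - dd v p - dd v q := by ring
      rw [this]; exact hc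
    have hnb := no_between (i := i) hRpos (show (0 : ℤ) < (g : ℤ) by omega) hxy hsum
    have e1 := VV_line (N := N) (k := k) hmz
    have e2 := VV_line (N := N) (k := k) (hmz.trans hmpq)
    rw [hdz] at e1 e2
    have e3 : ((dd v p : ℝ) - cc v k) ^ 2 = (cc v k - dd v p) ^ 2 := by ring
    rw [e3] at e1
    have := sign_transfer hKκ e1 e2 hnb.1 hnb.2
    exact ⟨fun h => this.1 ⟨by linarith [h.1], by linarith [h.2]⟩,
      fun h => this.2 ⟨by linarith [h.1], by linarith [h.2]⟩⟩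
  · rcases lt_or_gt_of_ne hmz with h1 | h1
    · have h2 := hsmall.dom hz hp h1
      have h3 := hsmall.dom hz hq (by rw [← hmpq]; exact h1)
      exact ⟨fun h => lt_asymm h2 h.1, fun h => lt_asymm h3 h.1⟩
    · have h2 := hsmall.dom hp hz h1
      have h3 := hsmall.dom hq hz (by rw [← hmpq]; exact h1)
      exact ⟨fun h => lt_asymm h3 h.2, fun h => lt_asymm h2 h.2⟩

/-- every pair is consecutive for a suitable index -/
theorem exists_index {N : ℕ} {p q : ℤ × ℤ} (hp : p ∈ box N) (hq : q ∈ box N) (hpq : p ≠ q) :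
    ∃ (v : ℤ × ℤ) (k : ℤ), Small N v k ∧ (v, k) ∈ idx N ∧
      ∀ z ∈ box N, ¬ (VV N (K2 N) v k p < VV N (K2 N) v k z ∧
          VV N (K2 N) v k z < VV N (K2 N) v k q) ∧
        ¬ (VV N (K2 N) v k q < VV N (K2 N) v k z ∧
          VV N (K2 N) v k z < VV N (K2 N) v k p) := by
  obtain ⟨v, hv, hqv, hg⟩ := exists_prim hpq
  obtain ⟨k, h1, h2, h3⟩ := exists_center hp hq hpq hv hqv hg
  exact ⟨v, k, h1, mem_idx h1 h2, fun z hz => nothing_between hp hq hv hqv hg h1 h3 z hz⟩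

/-- the covering by monotone paths -/
theorem coverable_idx {N : ℕ} {S : Finset (ℤ × ℤ)} (hS : S ⊆ box N) :
    CoverableBy (img N (K2 N) phi2 S) (idx N).card := by
  classical
  -- one path for each index
  have hpath : ∀ e : (ℤ × ℤ) × ℤ, ∃ l : List (ℤ × ℤ), (∀ z ∈ l, z ∈ S) ∧
      l.Pairwise (fun a b => VV N (K2 N) e.1 e.2 a < VV N (K2 N) e.1 e.2 b) ∧
      (Small N e.1 e.2 → ∀ z ∈ S, z ∈ l) := by
    intro e
    by_cases h : Small N e.1 e.2
    · obtain ⟨l, hl1, hl2⟩ := exists_sorted S (VV N (K2 N) e.1 e.2)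
        (fun a ha b hb hab => h.inj (hS ha) (hS hb) hab)
      exact ⟨l, fun z hz => (hl1 z).mp hz, hl2, fun _ z hz => (hl1 z).mpr hz⟩
    · exact ⟨[], by simp, by simp, fun h' => absurd h' h⟩
  choose pl hpl1 hpl2 hpl3 using hpath
  let ι : Fin (idx N).card → (ℤ × ℤ) × ℤ := fun r => ((idx N).equivFin.symm r).1
  refine ⟨fun r => (pl (ι r)).map (P N (K2 N) phi2), fun r => ⟨?_, ?_⟩, ?_⟩
  · intro v hv
    rw [List.mem_map] at hv
    obtain ⟨z, hz, rfl⟩ := hv
    exact mem_img.mpr ⟨z, hpl1 _ z hz, rfl⟩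
  · set e := ι r with he
    have hstep : ∀ (i : ℕ) (hi : i + 1 < (pl e).length),
        VV N (K2 N) e.1 e.2 (pl e)[i] < VV N (K2 N) e.1 e.2 (pl e)[i + 1] := by
      intro i hi
      exact (List.pairwise_iff_getElem.mp (hpl2 e)) i (i + 1) (by omega) hi (by omega)
    by_cases hu : uu N (K2 N) e.1 e.2 = 0
    · refine ⟨(1, 0), by simp, fun i hi => ?_⟩
      exfalso
      have h1 := hstep i (by simpa using hi)
      unfold VV at h1
      rw [hu] at h1
      simp at h1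
    · refine ⟨uu N (K2 N) e.1 e.2, hu, fun i hi => ?_⟩
      have h1 := hstep i (by simpa using hi)
      simp only [List.getElem_map]
      unfold VV at h1
      linarith
  · intro a ha b hb hab
    obtain ⟨p, hp, rfl⟩ := mem_img.mp ha
    obtain ⟨q, hq, rfl⟩ := mem_img.mp hb
    have hpq : p ≠ q := fun h => hab (by rw [h])
    obtain ⟨v, k, hsm, hidx, hno⟩ := exists_index (hS hp) (hS hq) hpq
    obtain ⟨r, hr⟩ : ∃ r, ι r = (v, k) := ⟨(idx N).equivFin ⟨(v, k), hidx⟩, by simp [ι]⟩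
    have hv : v = (ι r).1 := by rw [hr]
    have hk : k = (ι r).2 := by rw [hr]
    rw [hv, hk] at hsm hno
    refine ⟨r, ?_⟩
    have hp' : p ∈ pl (ι r) := hpl3 (ι r) hsm p hp
    have hq' : q ∈ pl (ι r) := hpl3 (ι r) hsm q hq
    have hne : VV N (K2 N) (ι r).1 (ι r).2 p ≠ VV N (K2 N) (ι r).1 (ι r).2 q :=
      fun h => hpq (hsm.inj (hS hp) (hS hq) h)
    rcases lt_or_gt_of_ne hne with h | h
    · obtain ⟨i, hi, h1, h2⟩ := consecutive (hpl2 (ι r)) hp' hq' h
        (fun z hz h1 h2 => (hno z (hS (hpl1 _ z hz))).1 ⟨h1, h2⟩)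
      refine ⟨i, by simpa using hi, Or.inl ?_⟩
      simp [h1, h2]
    · obtain ⟨i, hi, h1, h2⟩ := consecutive (hpl2 (ι r)) hq' hp' h
        (fun z hz h1 h2 => (hno z (hS (hpl1 _ z hz))).2 ⟨h1, h2⟩)
      refine ⟨i, by simpa using hi, Or.inr ?_⟩
      simp [h1, h2]

end Q148.Mono
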