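import Pool.Agent.Q148.NucPoly

/-!
# The slopes of a vector function: basic facts
-/

set_option linter.unusedSectionVars false
set_option linter.unusedVariables false

namespace Q148.Nuc

open Polynomial Finset

variable {F : Type*} [Field F] [Fintype F] [DecidableEq F]

/-- The lifted configuration. The points `g z / z` are the nuclei of the set `S`, and the slopes of
`g` between nonzero arguments belong to `S`. -/
structure Data (S : Finset (F × F)) (g : F → F × F) : Prop where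
  card : S.card = Fintype.card F + 1
  zero : g 0 = 0
  slope : ∀ z z', z ≠ 0 → z' ≠ 0 → z ≠ z' → ∃ b ∈ S, g z - g z' = (z - z') • b
  noncol : ∀ z, z ≠ 0 → ∀ b ∈ S, ∀ b' ∈ S, b ≠ b' → det (g z - z • b) (g z - z • b') ≠ 0
  not_mem : ∀ z, z ≠ 0 → ∀ b ∈ S, g z - z • b ≠ 0
  hit : ∀ z, z ≠ 0 → ∀ a, a ≠ 0 → ∃ b ∈ S, dot a (g z - z • b) = 0
  tangent : ∀ b ∈ S, ∀ a, a ≠ 0 → (∀ z, z ≠ 0 → dot a (g z - z • b) ≠ 0) →
    ∃ b' ∈ S, b' ≠ b ∧ dot a (b' - b) = 0
  span : ∀ b ∈ S, ∀ a, a ≠ 0 → ∃ z, z ≠ 0 ∧ dot a (g z - z • b) ≠ 0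

/-- The rotated vector. -/
def perp (w : F × F) : F × F := (-w.2, w.1)

theorem dot_perp (w v : F × F) : dot (perp w) v = det w v := by
  simp only [dot, perp, det]; ring

theorem perp_ne_zero {w : F × F} (h : w ≠ 0) : perp w ≠ 0 := by
  intro h2
  apply h
  simp only [perp, Prod.mk_eq_zero, neg_eq_zero] at h2
  exact Prod.ext h2.2 h2.1

theorem det_perp (w v : F × F) : det (perp w) (perp v) = det w v := by
  simp only [perp, det]; ring

theorem det_self (w : F × F) : det w w = 0 := by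
  simp only [det]; ring

theorem det_eq_zero_of_dot {a u v : F × F} (ha : a ≠ 0) (hu : dot a u = 0) (hv : dot a v = 0) :
    det u v = 0 := by
  simp only [dot] at hu hv
  simp only [det]
  by_cases h1 : a.1 = 0
  · have h2 : a.2 ≠ 0 := fun h2 => ha (Prod.ext h1 h2)
    rw [h1] at hu hv
    simp only [zero_mul, zero_add, mul_eq_zero, h2, false_or] at hu hv
    rw [hu, hv]; ring
  · have : a.1 * (u.1 * v.2 - u.2 * v.1) = 0 := by
      linear_combination v.2 * hu - u.2 * hv
    exact (mul_eq_zero.1 this).resolve_left h1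

/-- The functions `a · g z + c z`. -/
def phi (g : F → F × F) (a : F × F) (c : F) (z : F) : F := dot a (g z) + c * z

theorem phi_b (g : F → F × F) (a b : F × F) (c z : F) :
    phi g a (c - dot a b) z = dot a (g z - z • b) + c * z := by
  rw [phi, dot_sub_right, dot_smul_right]; ring

/-- The function belonging to the lines through `b`. -/
def yb (g : F → F × F) (b a : F × F) (z : F) : F := dot a (g z - z • b)

theorem yb_eq (g : F → F × F) (b a : F × F) : yb g b a = phi g a (- dot a b) := by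
  funext z
  have := phi_b g a b 0 z
  rw [zero_mul, add_zero, zero_sub] at this
  rw [this, yb]

/-- The projection from `b`. -/
def W (g : F → F × F) (b : F × F) : Finset (F × F) :=
  (univ.erase (0 : F)).image fun z => g z - z • b

theorem mem_W {g : F → F × F} {b w : F × F} : w ∈ W g b ↔ ∃ z, z ≠ 0 ∧ g z - z • b = w := by
  simp only [W, mem_image, mem_erase, mem_univ, and_true]

section

variable {S : Finset (F × F)} {g : F → F × F} (D : Data S g)

include D

theorem Data.W_det {b : F × F} (hb : b ∈ S) {w w' : F × F} (hw : w ∈ W g b) (hw' : w' ∈ W g b)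
    (h : w ≠ w') : det w w' ≠ 0 := by
  obtain ⟨z, hz, rfl⟩ := mem_W.1 hw
  obtain ⟨z', hz', rfl⟩ := mem_W.1 hw'
  have hzz : z ≠ z' := fun e => h (by rw [e])
  obtain ⟨b0, hb0, e⟩ := D.slope z z' hz hz' hzz
  have hbb : b0 ≠ b := by
    intro e2
    apply h
    rw [e2] at e
    have : g z - z • b - (g z' - z' • b) = 0 := by
      rw [show g z - z • b - (g z' - z' • b) = (g z - g z') - (z - z') • b by
        rw [sub_smul]; abel, e, sub_self]
    exact sub_eq_zero.1 this
  intro hd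
  apply D.noncol z hz b hb b0 hb0 hbb.symm
  have e1 : g z' = g z - (z - z') • b0 := by rw [← e]; abel
  rw [e1] at hd
  have h3 : (z - z') * det (g z - z • b) (g z - z • b0) = 0 := by
    simp only [det, Prod.fst_sub, Prod.snd_sub, Prod.smul_fst, Prod.smul_snd, smul_eq_mul] at hd ⊢
    linear_combination z * hd
  exact (mul_eq_zero.1 h3).resolve_left (sub_ne_zero.2 hzz)

theorem Data.W_ne_zero {b : F × F} (hb : b ∈ S) {w : F × F} (hw : w ∈ W g b) : w ≠ 0 := by
  obtain ⟨z, hz, rfl⟩ := mem_W.1 hw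
  exact D.not_mem z hz b hb

/-- A line through a nucleus contains only one point of `S`. -/
theorem Data.one_point {b b' : F × F} (hb : b ∈ S) (hb' : b' ∈ S) (h : b' ≠ b) {a w : F × F}
    (ha : a ≠ 0) (hw : w ∈ W g b) (haw : dot a w = 0) : dot a (b' - b) ≠ 0 := by
  obtain ⟨z, hz, rfl⟩ := mem_W.1 hw
  intro h0
  apply D.noncol z hz b hb b' hb' h.symm
  apply det_eq_zero_of_dot ha haw
  have : g z - z • b' = (g z - z • b) - z • (b' - b) := by
    rw [smul_sub]; abel
  rw [this, dot_sub_right, dot_smul_right, haw, h0]; ring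

theorem Data.W_inj {b : F × F} (hb : b ∈ S) {a w : F × F} (ha : a ≠ 0) (hw : w ∈ W g b)
    (haw : dot a w = 0) {w1 w2 : F × F} (h1 : w1 ∈ W g b) (h2 : w2 ∈ W g b)
    (h : dot a w1 = dot a w2) : w1 = w2 := by
  by_contra hne
  obtain ⟨z, hz, rfl⟩ := mem_W.1 h1
  obtain ⟨z', hz', rfl⟩ := mem_W.1 h2
  have hzz : z ≠ z' := fun e => hne (by rw [e])
  obtain ⟨b0, hb0, e⟩ := D.slope z z' hz hz' hzz
  have e0 : g z - z • b - (g z' - z' • b) = (z - z') • (b0 - b) := by
    rw [smul_sub, ← e, sub_smul]; abel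
  have hbb : b0 ≠ b := by
    intro e2
    apply hne
    rw [e2, sub_self, smul_zero] at e0
    exact sub_eq_zero.1 e0
  have h3 : (z - z') * dot a (b0 - b) = 0 := by
    rw [← dot_smul_right, ← e0, dot_sub_right, h, sub_self]
  exact D.one_point hb hb0 hbb ha hw haw
    ((mul_eq_zero.1 h3).resolve_left (sub_ne_zero.2 hzz))

theorem Data.exists_ne {b : F × F} (hb : b ∈ S) {w : F × F} (hw : w ∈ W g b) :
    ∃ w' ∈ W g b, w' ≠ w := by
  obtain ⟨z, hz, h⟩ := D.span b hb (perp w) (perp_ne_zero (D.W_ne_zero hb hw))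
  refine ⟨_, mem_W.2 ⟨z, hz, rfl⟩, ?_⟩
  intro e
  rw [e, dot_perp, det_self] at h
  exact h rfl

theorem Data.W_nonempty (b : F × F) : (W g b).Nonempty :=
  ⟨_, mem_W.2 ⟨1, one_ne_zero, rfl⟩⟩

/-- There are two arguments with the same projection from some point. -/
theorem Data.exists_pair : ∃ b ∈ S, ∃ z z' : F, z ≠ 0 ∧ z' ≠ 0 ∧ z ≠ z' ∧
    g z - z • b = g z' - z' • b := by
  obtain ⟨b, hb⟩ : S.Nonempty := card_pos.1 (by rw [D.card]; omega)
  obtain ⟨w, hw⟩ := D.W_nonempty b
  obtain ⟨w', hw', hne⟩ := D.exists_ne hb hw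
  obtain ⟨z, hz, rfl⟩ := mem_W.1 hw
  obtain ⟨z', hz', rfl⟩ := mem_W.1 hw'
  have hzz : z ≠ z' := fun e => hne (by rw [e])
  obtain ⟨b0, hb0, e⟩ := D.slope z z' hz hz' hzz
  refine ⟨b0, hb0, z, z', hz, hz', hzz, ?_⟩
  rw [← sub_eq_zero, show g z - z • b0 - (g z' - z' • b0) = (g z - g z') - (z - z') • b0 by
    rw [sub_smul]; abel, e, sub_self]

theorem Data.yb_zero (b a : F × F) : yb g b a 0 = 0 := by
  rw [yb, D.zero, zero_smul, sub_zero]
  simp [dot]

theorem Data.im_yb (b a : F × F) : im (yb g b a) = insert 0 ((W g b).image (dot a)) := by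
  ext τ
  simp only [im, mem_image, mem_univ, true_and, mem_insert]
  constructor
  · rintro ⟨z, rfl⟩
    by_cases hz : z = 0
    · left; rw [hz, D.yb_zero]
    · right; exact ⟨_, mem_W.2 ⟨z, hz, rfl⟩, rfl⟩
  · rintro (rfl | ⟨w, hw, rfl⟩)
    · exact ⟨0, D.yb_zero b a⟩
    · obtain ⟨z, hz, rfl⟩ := mem_W.1 hw
      exact ⟨z, rfl⟩

/-- For a tangent direction all values of the projection are different. -/
theorem Data.im_card_tangent {b : F × F} (hb : b ∈ S) {a w : F × F} (ha : a ≠ 0) (hw : w ∈ W g b)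
    (haw : dot a w = 0) : (im (yb g b a)).card = (W g b).card := by
  rw [D.im_yb, insert_eq_of_mem (mem_image.2 ⟨w, hw, haw⟩), card_image_of_injOn]
  intro w1 h1 w2 h2 h
  exact D.W_inj hb ha hw haw h1 h2 h

theorem Data.im_card_nontangent {b a : F × F} (hn : ∀ w ∈ W g b, dot a w ≠ 0) :
    (im (yb g b a)).card = ((W g b).image (dot a)).card + 1 := by
  rw [D.im_yb, card_insert_of_notMem]
  intro h
  obtain ⟨w, hw, h0⟩ := mem_image.1 h
  exact hn w hw h0

theorem Data.cnt_zero {b a : F × F} (hn : ∀ w ∈ W g b, dot a w ≠ 0) : cnt (yb g b a) 0 = 1 := by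
  rw [cnt, card_eq_one]
  refine ⟨0, ?_⟩
  ext z
  simp only [mem_filter, mem_univ, true_and, mem_singleton]
  constructor
  · intro h
    by_contra hz
    exact hn _ (mem_W.2 ⟨z, hz, rfl⟩) h
  · rintro rfl
    exact D.yb_zero b a

theorem Data.zero_mem_im (b a : F × F) : (0 : F) ∈ im (yb g b a) := by
  rw [D.im_yb]; exact mem_insert_self _ _

end

end Q148.Nuc
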