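import Pool.Agent.Q148.NucLift

/-!
# A set with many nuclei is of the first type or lifts
-/

set_option linter.unusedSectionVars false
set_option linter.unusedVariables false

namespace Q148.Nuc

open Polynomial Finset

variable {F : Type*} [Field F] [Fintype F] [DecidableEq F]

/-- The labelled nuclei. -/
structure Lift (S N : Finset (F × F)) (n : F → F × F) : Prop where
  mem : ∀ z, z ≠ 0 → n z ∈ N
  surj : ∀ P ∈ N, ∃ z, z ≠ 0 ∧ n z = P
  inj : ∀ z z', z ≠ 0 → z' ≠ 0 → n z = n z' → z = z'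
  slope : ∀ z z', z ≠ 0 → z' ≠ 0 → z ≠ z' → ∃ b ∈ S, z • n z - z' • n z' = (z - z') • b

theorem exists_lift {S : Finset (F × F)} (hS : S.card = Fintype.card F + 1)
    {N : Finset (F × F)} (hN : ∀ P ∈ N, Nucl S P) (hNc : N.card = Fintype.card F - 1) :
    ∃ n, Lift S N n := by
  have hq : 1 < Fintype.card F := Fintype.one_lt_card
  obtain ⟨b₀, hb₀⟩ : S.Nonempty := card_pos.1 (by omega)
  have hne : ∀ P ∈ N, (CC S b₀ P)⁻¹ ≠ 0 := fun P hP => inv_ne_zero ((hN P hP).CC_ne_zero hS hb₀)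
  have hinj : Set.InjOn (fun P => (CC S b₀ P)⁻¹) (N : Set (F × F)) := by
    intro P hP Q hQ h
    by_contra hPQ
    simp only at h
    obtain ⟨b, hb, hd, hbP, hbQ⟩ := (hN P hP).exists_between hS (hN Q hQ) hPQ
    have h1 := (hN P hP).label hS (hN Q hQ) hb hd hb₀
    rw [h] at h1
    have h2 := smul_right_injective (F × F) (hne Q hQ) h1
    simp only [sub_right_inj] at h2
    exact hPQ h2
  have himg : N.image (fun P => (CC S b₀ P)⁻¹) = univ.erase (0 : F) := by
    apply eq_of_subset_of_card_le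
    · intro z hz
      obtain ⟨P, hP, rfl⟩ := mem_image.1 hz
      exact mem_erase.2 ⟨hne P hP, mem_univ _⟩
    · rw [card_erase_of_mem (mem_univ _), card_univ, card_image_of_injOn hinj, hNc]
  have hex : ∀ z : F, ∃ P : F × F, z ≠ 0 → P ∈ N ∧ (CC S b₀ P)⁻¹ = z := by
    intro z
    by_cases hz : z = 0
    · exact ⟨0, fun h => absurd hz h⟩
    · have : z ∈ univ.erase (0 : F) := mem_erase.2 ⟨hz, mem_univ _⟩
      rw [← himg] at this
      obtain ⟨P, hP, e⟩ := mem_image.1 this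
      exact ⟨P, fun _ => ⟨hP, e⟩⟩
  choose n hn using hex
  refine ⟨n, fun z hz => (hn z hz).1, ?_, ?_, ?_⟩
  · intro P hP
    refine ⟨(CC S b₀ P)⁻¹, hne P hP, ?_⟩
    exact hinj (hn _ (hne P hP)).1 hP (hn _ (hne P hP)).2
  · intro z z' hz hz' h
    rw [← (hn z hz).2, ← (hn z' hz').2, h]
  · intro z z' hz hz' hzz
    have hnn : n z ≠ n z' := by
      intro h
      apply hzz
      rw [← (hn z hz).2, ← (hn z' hz').2, h]
    obtain ⟨b, hb, hd, hbP, hbQ⟩ :=
      (hN _ (hn z hz).1).exists_between hS (hN _ (hn z' hz').1) hnn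
    refine ⟨b, hb, ?_⟩
    have h1 := (hN _ (hn z hz).1).label hS (hN _ (hn z' hz').1) hb hd hb₀
    rw [(hn z hz).2, (hn z' hz').2, smul_sub, smul_sub] at h1
    rw [sub_smul, ← sub_eq_zero]
    rw [← sub_eq_zero] at h1
    rw [← neg_eq_zero, ← h1]
    abel

theorem Lift.data {S N : Finset (F × F)} (hS : S.card = Fintype.card F + 1)
    (hN : ∀ P ∈ N, Nucl S P) (hNc : N.card = Fintype.card F - 1) {n : F → F × F}
    (L : Lift S N n)
    (hspan : ∀ b ∈ S, ∀ a : F × F, a ≠ 0 → ∃ P ∈ N, dot a (P - b) ≠ 0) :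
    Data S (fun z => z • n z) := by
  have hsub : ∀ z b, z • n z - z • b = z • (n z - b) := fun z b => (smul_sub _ _ _).symm
  have hneg : ∀ P b : F × F, P - b = (-1 : F) • (b - P) := by
    intro P b; rw [neg_one_smul]; abel
  refine ⟨hS, zero_smul _ _, L.slope, ?_, ?_, ?_, ?_, ?_⟩
  · intro z hz b hb b' hb' hne
    rw [hsub, hsub, det_smul_smul, hneg _ b, hneg _ b', det_smul_smul]
    exact mul_ne_zero (mul_ne_zero hz hz) (mul_ne_zero (by simp)
      ((hN _ (L.mem z hz)).det_ne hS hb hb' hne))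
  · intro z hz b hb
    rw [hsub]
    refine smul_ne_zero hz (sub_ne_zero.2 ?_)
    rintro rfl
    exact (hN _ (L.mem z hz)).1 hb
  · intro z hz a ha
    obtain ⟨b, hb, h0⟩ := (hN _ (L.mem z hz)).hit ha
    refine ⟨b, hb, ?_⟩
    rw [hsub, dot_smul_right, hneg, dot_smul_right, h0, mul_zero, mul_zero]
  · intro b hb a ha hz
    by_contra hcon
    push Not at hcon
    obtain ⟨P, hP, h0⟩ := exists_nucleus_on hS hN hNc hb ha (by
      intro b' hb' h1
      by_contra hne
      exact hcon b' hb' hne h1)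
    obtain ⟨z, hz0, rfl⟩ := L.surj P hP
    apply hz z hz0
    rw [hsub, dot_smul_right, h0, mul_zero]
  · intro b hb a ha
    obtain ⟨P, hP, h0⟩ := hspan b hb a ha
    obtain ⟨z, hz0, rfl⟩ := L.surj P hP
    refine ⟨z, hz0, ?_⟩
    rw [hsub, dot_smul_right]
    exact mul_ne_zero hz0 h0

/-- The first type, or a lifted configuration. -/
theorem typeOne_or_data {S N : Finset (F × F)} (hS : S.card = Fintype.card F + 1)
    (hN : ∀ P ∈ N, Nucl S P) (hNc : N.card = Fintype.card F - 1) :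
    TypeOne S ∨ ∃ n : F → F × F, Lift S N n ∧ Data S (fun z => z • n z) := by
  by_cases h : ∃ b ∈ S, ∃ a : F × F, a ≠ 0 ∧ ∀ P ∈ N, dot a (P - b) = 0
  · obtain ⟨b, hb, a, ha, hl⟩ := h
    exact Or.inl (typeOne_of_collinear hS hN hNc hb ha hl)
  · push Not at h
    obtain ⟨n, L⟩ := exists_lift hS hN hNc
    exact Or.inr ⟨n, L, L.data hS hN hNc h⟩

end Q148.Nuc
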