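import Pool.Agent.Q148.NucData

/-!
# The exceptional sets are Desargues configurations
-/

set_option linter.unusedSectionVars false
set_option linter.unusedVariables false

namespace Q148.Nuc

open Polynomial Finset

/-- The lines of a Desargues configuration: centre `0`, triangles `1 2 3` and `4 5 6`,
axis `7 8 9`. -/
def desLines : Finset (Finset (Fin 10)) :=
  {{0, 1, 4}, {0, 2, 5}, {0, 3, 6}, {2, 3, 7}, {1, 3, 8}, {1, 2, 9}, {5, 6, 7}, {4, 6, 8},
    {4, 5, 9}, {7, 8, 9}}

theorem closed_sets : ∀ E : Finset (Fin 10), (∀ l ∈ desLines, 2 ≤ (l ∩ E).card → l ⊆ E) →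
    ((E ∩ {0, 1, 2, 3}).Nonempty → (E ∩ {4, 5, 6, 7, 8, 9}).card = 1) →
    (E ∩ {4, 5, 6, 7, 8, 9}).card ≤ 5 → 3 ≤ E.card → E ∈ desLines := by
  decide +kernel

theorem desLines_card : ∀ l ∈ desLines, l.card = 3 := by decide +kernel

variable {F : Type*} [Field F] [Fintype F] [DecidableEq F]

theorem line_of_det {P Q R : F × F} (h : P ≠ Q) (hd : det (Q - P) (R - P) = 0) :
    ∃ a : F × F, a ≠ 0 ∧ ∃ c : F, dot a P = c ∧ dot a Q = c ∧ dot a R = c := by
  refine ⟨perp (Q - P), perp_ne_zero (sub_ne_zero.2 h.symm), dot (perp (Q - P)) P, rfl, ?_, ?_⟩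
  · have : dot (perp (Q - P)) (Q - P) = 0 := by rw [dot_perp, det_self]
    rw [dot_sub_right] at this
    exact sub_eq_zero.1 this
  · have : dot (perp (Q - P)) (R - P) = 0 := by rw [dot_perp, hd]
    rw [dot_sub_right] at this
    exact sub_eq_zero.1 this

/-- Collinearity of three points in terms of the determinant. -/
theorem collinear_iff_det {P Q R : F × F} (h : P ≠ Q) :
    Collinear F ({P, Q, R} : Set (F × F)) ↔ det (Q - P) (R - P) = 0 := by
  rw [collinear_iff_of_mem (p₀ := P) (by simp)]
  constructor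
  · rintro ⟨v, hv⟩
    obtain ⟨r, hr⟩ := hv Q (by simp)
    obtain ⟨s, hs⟩ := hv R (by simp)
    rw [vadd_eq_add] at hr hs
    rw [hr, hs, add_sub_cancel_right, add_sub_cancel_right, det_smul_smul, det_self, mul_zero]
  · intro hd
    refine ⟨Q - P, ?_⟩
    have h2 : det (R - P) (Q - P) = 0 := by rw [det_swap, hd, neg_zero]
    obtain ⟨c, hc⟩ := exists_smul_of_det (sub_ne_zero.2 h.symm) h2
    intro x hx
    simp only [Set.mem_insert_iff, Set.mem_singleton_iff] at hx
    rcases hx with rfl | rfl | rfl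
    · exact ⟨0, by rw [zero_smul, vadd_eq_add, zero_add]⟩
    · exact ⟨1, by rw [one_smul, vadd_eq_add]; abel⟩
    · exact ⟨c, by rw [vadd_eq_add, ← hc]; abel⟩

/-- Abstract form: ten points with the incidences of a Desargues configuration, four of which are
nuclei of the set of the other six. -/
theorem desargues_of_points (hq : Fintype.card F = 5) {S : Finset (F × F)}
    (hS : S.card = Fintype.card F + 1) {p : Fin 10 → F × F} (hp : Function.Injective p)
    (hN : ∀ i ∈ ({0, 1, 2, 3} : Finset (Fin 10)), Nucl S (p i))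
    (hSi : ({4, 5, 6, 7, 8, 9} : Finset (Fin 10)).image p = S)
    (hl : ∀ l ∈ desLines, ∃ a : F × F, a ≠ 0 ∧ ∃ c : F, ∀ i ∈ l, dot a (p i) = c)
    {i j k : Fin 10} (hij : i ≠ j) (hjk : j ≠ k) (hik : i ≠ k) :
    Collinear F ({p i, p j, p k} : Set (F × F)) ↔ {i, j, k} ∈ desLines := by
  rw [collinear_iff_det (fun h => hij (hp h))]
  constructor
  · intro hd
    obtain ⟨a, ha, c, h1, h2, h3⟩ := line_of_det (fun h => hij (hp h)) hd
    set E : Finset (Fin 10) := univ.filter fun x => dot a (p x) = c with hE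
    have hmE : ∀ x, x ∈ E ↔ dot a (p x) = c := by
      intro x; rw [hE, mem_filter]; simp
    have hsub : {i, j, k} ⊆ E := by
      intro x hx
      simp only [mem_insert, mem_singleton] at hx
      rw [hmE]
      rcases hx with rfl | rfl | rfl
      · exact h1
      · exact h2
      · exact h3
    have hc3 : ({i, j, k} : Finset (Fin 10)).card = 3 := by
      rw [card_insert_of_notMem, card_insert_of_notMem, card_singleton]
      · simpa using hjk
      · simp only [mem_insert, mem_singleton, not_or]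
        exact ⟨hij, hik⟩
    -- the image of the part of `E` in the set
    have himg : (E ∩ {4, 5, 6, 7, 8, 9}).image p = S.filter fun b => dot a b = c := by
      ext b
      simp only [mem_image, mem_filter]
      rw [← hSi]
      constructor
      · rintro ⟨x, hx, rfl⟩
        rw [mem_inter, hmE] at hx
        exact ⟨mem_image_of_mem _ hx.2, hx.1⟩
      · rintro ⟨hb, hbc⟩
        obtain ⟨x, hx, rfl⟩ := mem_image.1 hb
        exact ⟨x, mem_inter.2 ⟨(hmE x).2 hbc, hx⟩, rfl⟩
    have hcard : (E ∩ {4, 5, 6, 7, 8, 9}).card = (S.filter fun b => dot a b = c).card := by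
      rw [← himg, card_image_of_injective _ hp]
    have hmem : E ∈ desLines := by
      apply closed_sets
      · intro l hl' h4
        obtain ⟨x, hx, y, hy, hxy⟩ := one_lt_card.1 h4
        rw [mem_inter, hmE] at hx hy
        obtain ⟨a', ha', c', hl1⟩ := hl l hl'
        intro z hz
        rw [hmE]
        have e1 : dot a' (p y - p x) = 0 := by
          rw [dot_sub_right, hl1 y hy.1, hl1 x hx.1, sub_self]
        have e2 : dot a' (p z - p x) = 0 := by
          rw [dot_sub_right, hl1 z hz, hl1 x hx.1, sub_self]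
        have e3 := det_eq_zero_of_dot ha' e2 e1
        obtain ⟨r, hr⟩ := exists_smul_of_det (sub_ne_zero.2 fun h => hxy (hp h).symm) e3
        have e4 : dot a (p z - p x) = 0 := by
          rw [hr, dot_smul_right, dot_sub_right, hx.2, hy.2, sub_self, mul_zero]
        rw [dot_sub_right, hx.2] at e4
        exact sub_eq_zero.1 e4
      · rintro ⟨x, hx⟩
        rw [mem_inter, hmE] at hx
        rw [hcard]
        have h5 := (hN x hx.2).count hS ha
        rw [← h5]
        congr 1
        apply filter_congr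
        intro b _
        rw [dot_sub_right, hx.1, sub_eq_zero]
      · rw [hcard]
        -- a line has five points
        have h6 : (S.filter fun b => dot a b = c) ⊆ univ.image fun t : F => p i + t • perp a := by
          intro b hb
          rw [mem_filter] at hb
          have h7 : dot a (b - p i) = 0 := by rw [dot_sub_right, hb.2, h1, sub_self]
          have h8 : det (b - p i) (perp a) = 0 := by
            simp only [det, perp, dot] at h7 ⊢
            linear_combination h7
          obtain ⟨t, ht⟩ := exists_smul_of_det (perp_ne_zero ha) h8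
          exact mem_image.2 ⟨t, mem_univ _, by rw [← ht]; abel⟩
        refine (card_le_card h6).trans ?_
        rw [← hq, ← card_univ]
        exact card_image_le
      · rw [← hc3]
        exact card_le_card hsub
    have hEc := desLines_card E hmem
    rwa [eq_of_subset_of_card_le hsub (by rw [hc3, hEc])]
  · intro h
    obtain ⟨a, ha, c, hl1⟩ := hl _ h
    have e1 := hl1 i (by simp)
    have e2 := hl1 j (by simp)
    have e3 := hl1 k (by simp)
    apply det_eq_zero_of_dot ha
    · rw [dot_sub_right, e1, e2, sub_self]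
    · rw [dot_sub_right, e1, e3, sub_self]

/-- The set is the point set of a Desargues configuration. -/
def IsDes (T : Set (F × F)) : Prop :=
  ∃ p : Fin 10 → F × F, Function.Injective p ∧ Set.range p = T ∧
    ∀ i j k : Fin 10, i ≠ j → j ≠ k → i ≠ k →
      (Collinear F ({p i, p j, p k} : Set (F × F)) ↔ {i, j, k} ∈ desLines)

theorem Lift.des {S N : Finset (F × F)} (hS : S.card = Fintype.card F + 1)
    (hN : ∀ P ∈ N, Nucl S P) (hNc : N.card = Fintype.card F - 1) {n : F → F × F}
    (L : Lift S N n) (D : Data S (fun z => z • n z)) :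
    Fintype.card F = 5 ∧ IsDes ((S : Set (F × F)) ∪ N) := by
  have hq := D.five.1
  refine ⟨hq, ?_⟩
  have hUc : (univ.erase (0 : F)).card = 4 := by
    rw [card_erase_of_mem (mem_univ _), card_univ, hq]
  set z : Fin 4 → F := fun i => ((univ.erase (0 : F)).equivFinOfCardEq hUc).symm i with hz
  have hz0 : ∀ i, z i ≠ 0 := fun i =>
    ne_of_mem_erase (((univ.erase (0 : F)).equivFinOfCardEq hUc).symm i).2
  have hzi : ∀ i j, i ≠ j → z i ≠ z j := by
    intro i j hij h
    exact hij (((univ.erase (0 : F)).equivFinOfCardEq hUc).symm.injective (Subtype.ext h))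
  have hzs : ∀ x : F, x ≠ 0 → ∃ i, z i = x := by
    intro x hx
    refine ⟨(univ.erase (0 : F)).equivFinOfCardEq hUc ⟨x, mem_erase.2 ⟨hx, mem_univ _⟩⟩, ?_⟩
    rw [hz]
    simp
  have hβ : ∀ i j : Fin 4, ∃ b, i ≠ j → b ∈ S ∧ z i • n (z i) - z j • n (z j) = (z i - z j) • b := by
    intro i j
    by_cases hij : i = j
    · exact ⟨0, fun h => absurd hij h⟩
    · obtain ⟨b, hb, e⟩ := L.slope (z i) (z j) (hz0 i) (hz0 j) (hzi i j hij)
      exact ⟨b, fun _ => ⟨hb, e⟩⟩
  choose β hβ using hβ
  have hsymm : ∀ i j, i ≠ j → β i j = β j i := by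
    intro i j hij
    have h1 := (hβ i j hij).2
    have h2 := (hβ j i hij.symm).2
    have h3 : (z i - z j) • (β i j - β j i) = 0 := by
      rw [smul_sub, ← h1, ← neg_sub (z j) (z i), neg_smul, ← h2]; abel
    exact sub_eq_zero.1 ((smul_eq_zero.1 h3).resolve_left (sub_ne_zero.2 (hzi i j hij)))
  -- collinearities
  have hcol1 : ∀ i j, i ≠ j → ∃ a : F × F, a ≠ 0 ∧ ∃ c : F, dot a (n (z i)) = c ∧
      dot a (n (z j)) = c ∧ dot a (β i j) = c := by
    intro i j hij
    have hne : n (z i) ≠ n (z j) := fun h => hzi i j hij (L.inj _ _ (hz0 i) (hz0 j) h)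
    apply line_of_det hne
    have h1 := (hβ i j hij).2
    have h2 : (z i - z j) * det (n (z j) - n (z i)) (β i j - n (z i)) = 0 := by
      have e1 := congrArg Prod.fst h1
      have e2 := congrArg Prod.snd h1
      simp only [Prod.fst_sub, Prod.snd_sub, Prod.smul_fst, Prod.smul_snd, smul_eq_mul] at e1 e2
      simp only [det, Prod.fst_sub, Prod.snd_sub]
      linear_combination (-((n (z j)).1 - (n (z i)).1)) * e2 + ((n (z j)).2 - (n (z i)).2) * e1
    exact (mul_eq_zero.1 h2).resolve_left (sub_ne_zero.2 (hzi i j hij))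
  have hdist : ∀ i j k, i ≠ j → j ≠ k → i ≠ k → β i j ≠ β j k := by
    intro i j k hij hjk hik h
    have h1 : (z i, z j) ∈ prs (fun z => z • n z) (β i j) := by
      rw [mem_prs]
      refine ⟨⟨hz0 i, hz0 j, hzi i j hij⟩, ?_⟩
      have := (hβ i j hij).2
      rw [sub_smul] at this
      rw [← sub_eq_zero] at this ⊢
      rw [← this]; abel
    have h2 : (z j, z k) ∈ prs (fun z => z • n z) (β i j) := by
      rw [mem_prs, h]
      refine ⟨⟨hz0 j, hz0 k, hzi j k hjk⟩, ?_⟩
      have := (hβ j k hjk).2
      rw [sub_smul] at this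
      rw [← sub_eq_zero] at this ⊢
      rw [← this]; abel
    rcases D.pair_unique (hβ i j hij).1 h1 h2 with ⟨h3, _⟩ | ⟨h3, _⟩
    · exact hzi i j hij h3
    · exact hzi i k hik h3
  have hcol2 : ∀ i j k, i ≠ j → j ≠ k → i ≠ k → ∃ a : F × F, a ≠ 0 ∧ ∃ c : F,
      dot a (β i j) = c ∧ dot a (β j k) = c ∧ dot a (β i k) = c := by
    intro i j k hij hjk hik
    apply line_of_det (hdist i j k hij hjk hik)
    have h1 := (hβ i j hij).2
    have h2 := (hβ j k hjk).2
    have h3 := (hβ i k hik).2
    have h4 : (z i - z k) * det (β j k - β i j) (β i k - β i j) = 0 := by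
      have a1 := congrArg Prod.fst h1
      have a2 := congrArg Prod.snd h1
      have b1 := congrArg Prod.fst h2
      have b2 := congrArg Prod.snd h2
      have c1 := congrArg Prod.fst h3
      have c2 := congrArg Prod.snd h3
      simp only [Prod.fst_sub, Prod.snd_sub, Prod.smul_fst, Prod.smul_snd, smul_eq_mul]
        at a1 a2 b1 b2 c1 c2
      simp only [det, Prod.fst_sub, Prod.snd_sub]
      linear_combination ((β j k).1 - (β i j).1) * (a2 + b2 - c2) -
        ((β j k).2 - (β i j).2) * (a1 + b1 - c1)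
    exact (mul_eq_zero.1 h4).resolve_left (sub_ne_zero.2 (hzi i k hik))
  -- the ten points
  let p : Fin 10 → F × F := ![n (z 3), n (z 0), n (z 1), n (z 2), β 0 3, β 1 3, β 2 3, β 1 2,
    β 0 2, β 0 1]
  have hpN : ({0, 1, 2, 3} : Finset (Fin 10)).image p = N := by
    ext P
    simp only [mem_image, mem_insert, mem_singleton]
    constructor
    · rintro ⟨i, (rfl | rfl | rfl | rfl), rfl⟩
      · exact L.mem _ (hz0 3)
      · exact L.mem _ (hz0 0)
      · exact L.mem _ (hz0 1)
      · exact L.mem _ (hz0 2)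
    · intro hP
      obtain ⟨x, hx, rfl⟩ := L.surj P hP
      obtain ⟨i, rfl⟩ := hzs x hx
      fin_cases i
      · exact ⟨1, by simp, rfl⟩
      · exact ⟨2, by simp, rfl⟩
      · exact ⟨3, by simp, rfl⟩
      · exact ⟨0, by simp, rfl⟩
  have hpS : ({4, 5, 6, 7, 8, 9} : Finset (Fin 10)).image p = S := by
    ext b
    simp only [mem_image, mem_insert, mem_singleton]
    constructor
    · rintro ⟨i, (rfl | rfl | rfl | rfl | rfl | rfl), rfl⟩
      · exact (hβ 0 3 (by decide)).1
      · exact (hβ 1 3 (by decide)).1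
      · exact (hβ 2 3 (by decide)).1
      · exact (hβ 1 2 (by decide)).1
      · exact (hβ 0 2 (by decide)).1
      · exact (hβ 0 1 (by decide)).1
    · intro hb
      obtain ⟨⟨x, y⟩, hxy⟩ : (prs (fun z => z • n z) b).Nonempty :=
        card_pos.1 (by rw [D.five.2 b hb]; omega)
      rw [mem_prs] at hxy
      obtain ⟨⟨hx, hy, hne⟩, e⟩ := hxy
      obtain ⟨i, rfl⟩ := hzs x hx
      obtain ⟨j, rfl⟩ := hzs y hy
      have hij : i ≠ j := fun h => hne (by rw [h])
      have hb2 : β i j = b := by
        have h1 := (hβ i j hij).2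
        have h3 : (z i - z j) • (β i j - b) = 0 := by
          rw [smul_sub, ← h1, sub_smul]
          rw [← sub_eq_zero] at e
          rw [← e]; abel
        exact sub_eq_zero.1 ((smul_eq_zero.1 h3).resolve_left (sub_ne_zero.2 (hzi i j hij)))
      rw [← hb2]
      clear hb2 e hx hy hne
      fin_cases i <;> fin_cases j
      · exact absurd rfl hij
      · exact ⟨9, by simp, rfl⟩
      · exact ⟨8, by simp, rfl⟩
      · exact ⟨4, by simp, rfl⟩
      · exact ⟨9, by simp, hsymm 0 1 (by decide)⟩
      · exact absurd rfl hij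
      · exact ⟨7, by simp, rfl⟩
      · exact ⟨5, by simp, rfl⟩
      · exact ⟨8, by simp, hsymm 0 2 (by decide)⟩
      · exact ⟨7, by simp, hsymm 1 2 (by decide)⟩
      · exact absurd rfl hij
      · exact ⟨6, by simp, rfl⟩
      · exact ⟨4, by simp, hsymm 0 3 (by decide)⟩
      · exact ⟨5, by simp, hsymm 1 3 (by decide)⟩
      · exact ⟨6, by simp, hsymm 2 3 (by decide)⟩
      · exact absurd rfl hij
  have hdisj : Disjoint N S := by
    rw [disjoint_left]
    intro P hP hPS
    exact (hN P hP).1 hPS
  have huniv : (univ : Finset (Fin 10)) = {0, 1, 2, 3} ∪ {4, 5, 6, 7, 8, 9} := by decide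
  have hU : (univ : Finset (Fin 10)).image p = N ∪ S := by
    rw [huniv, image_union, hpN, hpS]
  have hinj : Function.Injective p := by
    have h1 : ((univ : Finset (Fin 10)).image p).card = (univ : Finset (Fin 10)).card := by
      rw [hU, card_union_of_disjoint hdisj, hNc, hS, hq, card_univ, Fintype.card_fin]
    intro x y h
    exact card_image_iff.1 h1 (by simp) (by simp) h
  refine ⟨p, hinj, ?_, ?_⟩
  · have : Set.range p = ((univ.image p : Finset (F × F)) : Set (F × F)) := by
      rw [coe_image, coe_univ, Set.image_univ]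
    rw [this, hU, coe_union, Set.union_comm]
  · intro i j k hij hjk hik
    apply desargues_of_points hq hS hinj _ hpS _ hij hjk hik
    · intro x hx
      have : p x ∈ ({0, 1, 2, 3} : Finset (Fin 10)).image p := mem_image_of_mem _ hx
      rw [hpN] at this
      exact hN _ this
    · intro l hl
      simp only [desLines, mem_insert, mem_singleton] at hl
      have c1 : ∀ (x y w : Fin 10), (∃ a : F × F, a ≠ 0 ∧ ∃ c : F, dot a (p x) = c ∧
          dot a (p y) = c ∧ dot a (p w) = c) → ∃ a : F × F, a ≠ 0 ∧ ∃ c : F,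
          ∀ i ∈ ({x, y, w} : Finset (Fin 10)), dot a (p i) = c := by
        rintro x y w ⟨a, ha, c, e1, e2, e3⟩
        refine ⟨a, ha, c, ?_⟩
        intro i hi
        simp only [mem_insert, mem_singleton] at hi
        rcases hi with rfl | rfl | rfl
        · exact e1
        · exact e2
        · exact e3
      rcases hl with rfl | rfl | rfl | rfl | rfl | rfl | rfl | rfl | rfl | rfl
      · obtain ⟨a, ha, c, e1, e2, e3⟩ := hcol1 0 3 (by decide)
        exact c1 _ _ _ ⟨a, ha, c, e2, e1, e3⟩
      · obtain ⟨a, ha, c, e1, e2, e3⟩ := hcol1 1 3 (by decide)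
        exact c1 _ _ _ ⟨a, ha, c, e2, e1, e3⟩
      · obtain ⟨a, ha, c, e1, e2, e3⟩ := hcol1 2 3 (by decide)
        exact c1 _ _ _ ⟨a, ha, c, e2, e1, e3⟩
      · exact c1 _ _ _ (hcol1 1 2 (by decide))
      · exact c1 _ _ _ (hcol1 0 2 (by decide))
      · exact c1 _ _ _ (hcol1 0 1 (by decide))
      · -- `β 1 3`, `β 2 3`, `β 1 2`
        obtain ⟨a, ha, c, e1, e2, e3⟩ := hcol2 1 2 3 (by decide) (by decide) (by decide)
        exact c1 _ _ _ ⟨a, ha, c, e3, e2, e1⟩
      · obtain ⟨a, ha, c, e1, e2, e3⟩ := hcol2 0 2 3 (by decide) (by decide) (by decide)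
        exact c1 _ _ _ ⟨a, ha, c, e3, e2, e1⟩
      · obtain ⟨a, ha, c, e1, e2, e3⟩ := hcol2 0 1 3 (by decide) (by decide) (by decide)
        exact c1 _ _ _ ⟨a, ha, c, e3, e2, e1⟩
      · obtain ⟨a, ha, c, e1, e2, e3⟩ := hcol2 0 1 2 (by decide) (by decide) (by decide)
        exact c1 _ _ _ ⟨a, ha, c, e2, e3, e1⟩

end Q148.Nuc
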