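import Pool.Agent.Q148.NucLines

/-!
# The number of elements of the field is five
-/

set_option linter.unusedSectionVars false
set_option linter.unusedVariables false

namespace Q148.Nuc

open Polynomial Finset

variable {F : Type*} [Field F] [Fintype F] [DecidableEq F]

/-- The nonzero arguments with projection `w`. -/
def fib (g : F → F × F) (b w : F × F) : Finset F :=
  (univ.erase (0 : F)).filter fun z => g z - z • b = w

theorem mem_fib {g : F → F × F} {b w : F × F} {z : F} :
    z ∈ fib g b w ↔ z ≠ 0 ∧ g z - z • b = w := by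
  simp only [fib, mem_filter, mem_erase, mem_univ, and_true]

theorem fib_pos {g : F → F × F} {b w : F × F} (hw : w ∈ W g b) : 1 ≤ (fib g b w).card := by
  obtain ⟨z, hz, e⟩ := mem_W.1 hw
  exact card_pos.2 ⟨z, mem_fib.2 ⟨hz, e⟩⟩

theorem sum_fib (g : F → F × F) (b : F × F) :
    ∑ w ∈ W g b, (fib g b w).card = Fintype.card F - 1 := by
  have := (card_eq_sum_card_image (fun z => g z - z • b) (univ.erase (0 : F))).symm
  rwa [card_erase_of_mem (mem_univ _), card_univ] at this

theorem perp_injective : Function.Injective (perp : F × F → F × F) := by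
  intro u v huv
  have h1 := Prod.mk.inj huv
  exact Prod.ext h1.2 (neg_injective h1.1)

section

variable {S : Finset (F × F)} {g : F → F × F} (D : Data S g) {m : ℕ} (O : Order g m)

include D O

theorem Data.Fw_form {b : F × F} (hb : b ∈ S) {w : F × F} (hw : w ∈ W g b) :
    Form (Fintype.card F - m - 1) (Fw g b w) := by
  have h := Form.prod ((W g b).erase w) (f := fun w' a => dot a (w - w')) (fun w' _ => Form.lin _)
  rw [card_erase_of_mem hw, D.W_card O hb] at h
  exact h

theorem Data.sig_Fw {b : F × F} (hb : b ∈ S) {a w : F × F} (ha : a ≠ 0) (hw : w ∈ W g b)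
    (haw : dot a w = 0) {v : F × F} (hv : v ∈ W g b) (h2 : 2 ≤ (fib g b v).card) :
    sig g m b a * Fw g b v a = 1 := by
  have h3 := D.Nn_tangent O hb ha hw haw
  obtain ⟨z, hz, z', hz', hne⟩ := one_lt_card.1 h2
  rw [mem_fib] at hz hz'
  have h4 := congrArg (fun P => (derivative P).eval (dot a v)) h3
  simp only [derivative_Nn, derivative_mul, derivative_C, zero_mul, zero_add, eval_add, eval_one,
    eval_mul, eval_C] at h4
  rw [derivative_Pb hv] at h4
  have h5 : (derivative (Phi (yb g b a))).eval (dot a v) = 0 := by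
    have h6 : yb g b a z = dot a v := by rw [yb, hz.2]
    have h7 : yb g b a z' = dot a v := by rw [yb, hz'.2]
    have := derivative_Phi_eval (y := yb g b a) hne (by rw [h6, h7])
    rwa [h6] at this
  rw [h5, zero_add] at h4
  exact h4.symm

theorem Data.Fw_eq {b : F × F} (hb : b ∈ S) {v v' : F × F} (hv : v ∈ W g b) (hv' : v' ∈ W g b)
    (h2 : 2 ≤ (fib g b v).card) (h2' : 2 ≤ (fib g b v').card) (a : F × F) :
    Fw g b v a = Fw g b v' a := by
  have h3 := D.two_le O
  have h4 := O.lt
  obtain ⟨t1, t2, t3⟩ := D.tangents O hb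
  have := ((D.Fw_form O hb hv).sub (D.Fw_form O hb hv')).eq_zero (by omega)
    ((W g b).image perp) (by omega) (by
      intro x hx
      obtain ⟨hx0, w, hw, hxw⟩ := t2 x hx
      have e1 := D.sig_Fw O hb hx0 hw hxw hv h2
      have e2 := D.sig_Fw O hb hx0 hw hxw hv' h2'
      have e3 := D.sig_tangent O hb hx0 hw hxw
      have e4 : sig g m b x * (Fw g b v x - Fw g b v' x) = 0 := by rw [mul_sub, e1, e2, sub_self]
      exact (mul_eq_zero.1 e4).resolve_left e3) t3 a
  exact sub_eq_zero.1 this

theorem Data.exists_good {b : F × F} (hb : b ∈ S) {v : F × F} (hv : v ∈ W g b)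
    (h2 : 2 ≤ (fib g b v).card) : ∃ a, (∀ w ∈ W g b, dot a w ≠ 0) ∧ Fw g b v a ≠ 0 := by
  by_contra hcon
  push Not at hcon
  have h3 := D.two_le O
  have h4 := O.lt
  have h5 := D.two_mul_lt O
  have hWc := D.W_card O hb
  have h := (D.Fw_form O hb hv).mul (Phi_form g b (i := Fintype.card F - m) (by omega))
  rw [show Fintype.card F - m - 1 + (Fintype.card F - (Fintype.card F - m)) =
    Fintype.card F - 1 by omega] at h
  have hs := h.sum_eq_zero
  set T : Finset (F × F) := ((W g b) ×ˢ (univ.erase (0 : F))).image fun p => p.2 • perp p.1 with hTd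
  have hT : T.card = (Fintype.card F - m) * (Fintype.card F - 1) := by
    rw [hTd, card_image_of_injOn, card_product, hWc, card_erase_of_mem (mem_univ _), card_univ]
    rintro ⟨w, c⟩ h1 ⟨w', c'⟩ h1' e
    simp only [coe_product, Set.mem_prod, mem_coe, mem_erase, mem_univ, and_true] at h1 h1' e
    have hww : w = w' := by
      by_contra hne
      apply D.W_det hb h1.1 h1'.1 hne
      have e1 : det (c • perp w) (c' • perp w') = 0 := by rw [e, det_self]
      have e2 : det (c • perp w) (c' • perp w') = c * c' * det (perp w) (perp w') := by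
        simp only [det, Prod.smul_fst, Prod.smul_snd, smul_eq_mul]; ring
      rw [e2, det_perp] at e1
      exact (mul_eq_zero.1 e1).resolve_left (mul_ne_zero h1.2 h1'.2)
    subst hww
    have e3 : (c - c') • perp w = 0 := by rw [sub_smul, e, sub_self]
    have e4 := (smul_eq_zero.1 e3).resolve_right (perp_ne_zero (D.W_ne_zero hb h1.1))
    rw [sub_eq_zero.1 e4]
  have h1 : ∀ a ∈ T, Fw g b v a * (Phi (yb g b a)).coeff (Fintype.card F - m) = 1 := by
    intro a ha
    obtain ⟨⟨w, c⟩, hp, rfl⟩ := mem_image.1 ha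
    simp only [mem_product, mem_erase, mem_univ, and_true] at hp
    rw [mul_comm]
    exact D.sig_Fw O hb (smul_ne_zero hp.2 (perp_ne_zero (D.W_ne_zero hb hp.1))) hp.1
      (by rw [dot_smul_left, dot_perp, det_self, mul_zero]) hv h2
  have h0 : ∀ a, a ∉ T → Fw g b v a * (Phi (yb g b a)).coeff (Fintype.card F - m) = 0 := by
    intro a ha
    by_cases ha0 : a = 0
    · rw [ha0, Fw]
      obtain ⟨w', hw', hne⟩ := D.exists_ne hb hv
      rw [prod_eq_zero (mem_erase.2 ⟨hne, hw'⟩), zero_mul]
      simp [dot]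
    · rw [hcon a ?_, zero_mul]
      intro w hw h6
      apply ha
      -- `a` is a multiple of `perp w`
      have hw0 := D.W_ne_zero hb hw
      rw [hTd, mem_image]
      by_cases h7 : w.1 = 0
      · have h8 : w.2 ≠ 0 := fun h8 => hw0 (Prod.ext h7 h8)
        have h9 : a.2 = 0 := by
          simp only [dot, h7, mul_zero, zero_add] at h6
          exact (mul_eq_zero.1 h6).resolve_right h8
        refine ⟨(w, - a.1 / w.2), ?_, ?_⟩
        · simp only [mem_product, mem_erase, mem_univ, and_true]
          refine ⟨hw, ?_⟩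
          intro h10
          apply ha0
          rw [div_eq_zero_iff, neg_eq_zero] at h10
          exact Prod.ext (h10.resolve_right h8) h9
        · ext
          · simp only [perp, Prod.smul_fst, smul_eq_mul]
            field_simp
          · simp only [perp, Prod.smul_snd, smul_eq_mul, h7, h9, mul_zero]
      · refine ⟨(w, a.2 / w.1), ?_, ?_⟩
        · simp only [mem_product, mem_erase, mem_univ, and_true]
          refine ⟨hw, ?_⟩
          intro h10
          have h11 : a.2 = 0 := (div_eq_zero_iff.1 h10).resolve_right h7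
          apply ha0
          simp only [dot, h11, zero_mul, add_zero] at h6
          exact Prod.ext ((mul_eq_zero.1 h6).resolve_right h7) h11
        · ext
          · simp only [perp, Prod.smul_fst, smul_eq_mul]
            simp only [dot] at h6
            field_simp
            linear_combination -h6
          · simp only [perp, Prod.smul_snd, smul_eq_mul]
            field_simp
  rw [← sum_subset (subset_univ T) (fun a _ ha => h0 a ha), sum_congr rfl h1, sum_const,
    nsmul_one, hT] at hs
  apply D.m_ne_zero O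
  have hq : ((Fintype.card F - m + m : ℕ) : F) = 0 := by
    rw [show Fintype.card F - m + m = Fintype.card F by omega]
    exact card_cast
  have hq1 : ((Fintype.card F - 1 + 1 : ℕ) : F) = 0 := by
    rw [show Fintype.card F - 1 + 1 = Fintype.card F by omega]
    exact card_cast
  push_cast at hs hq hq1
  have e1 : ((Fintype.card F - 1 : ℕ) : F) = -1 := by linear_combination hq1
  have e2 : ((Fintype.card F - m : ℕ) : F) = -m := by linear_combination hq
  rw [e1, e2] at hs
  linear_combination hs

theorem Data.cnt_eq_fib {b a : F × F} (hn : ∀ w ∈ W g b, dot a w ≠ 0) {v : F × F}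
    (hv : v ∈ W g b) (hF : Fw g b v a ≠ 0) :
    cnt (yb g b a) (dot a v) = (fib g b v).card := by
  rw [cnt]
  congr 1
  ext z
  rw [mem_filter, mem_fib]
  simp only [mem_univ, true_and]
  constructor
  · intro h
    have hz : z ≠ 0 := by
      intro h0
      rw [h0, D.yb_zero] at h
      exact hn v hv h.symm
    refine ⟨hz, ?_⟩
    by_contra hne
    apply hF
    rw [Fw]
    refine prod_eq_zero (mem_erase.2 ⟨hne, mem_W.2 ⟨z, hz, rfl⟩⟩) ?_
    rw [yb] at h
    rw [dot_sub_right, h, sub_self]
  · rintro ⟨_, h⟩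
    rw [yb, h]

theorem Data.derivative_nontangent {b a : F × F} {κ : F}
    (hκ : Nn (yb g b a) - C (sig g m b a) * Pb g b a =
      C κ * ∏ τ ∈ (im (yb g b a)).erase 0, (X - C τ)) {τ : F}
    (hτ : τ ∈ (im (yb g b a)).erase 0) :
    (derivative (Phi (yb g b a))).eval τ + 1 - sig g m b a * (derivative (Pb g b a)).eval τ =
      κ * ∏ σ ∈ ((im (yb g b a)).erase 0).erase τ, (τ - σ) := by
  have h4 := congrArg (fun P => (derivative P).eval τ) hκ
  simp only [derivative_sub, derivative_Nn, derivative_mul, derivative_C, zero_mul, zero_add,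
    eval_sub, eval_add, eval_one, eval_mul, eval_C] at h4
  rw [h4]
  congr 1
  exact derivative_prod_eval ((im (yb g b a)).erase 0) (fun σ => σ) hτ

theorem Data.relation {b : F × F} (hb : b ∈ S) {a : F × F} (hn : ∀ w ∈ W g b, dot a w ≠ 0) {κ : F}
    (hκ : Nn (yb g b a) - C (sig g m b a) * Pb g b a =
      C κ * ∏ τ ∈ (im (yb g b a)).erase 0, (X - C τ))
    {v : F × F} (hv : v ∈ W g b) (h2 : 2 ≤ (fib g b v).card) (hF : Fw g b v a ≠ 0) :
    ((fib g b v).card : F) * dot a v * (1 - sig g m b a * Fw g b v a) =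
      κ * (Jp (yb g b a)).coeff 0 := by
  have h3 := D.two_le O
  have h4 := O.lt
  obtain ⟨hc, -, -⟩ := D.nontangent O hb hn
  have h0 : (0 : F) ∈ im (yb g b a) := D.zero_mem_im b a
  have hτ0 : dot a v ≠ 0 := hn v hv
  have hτ : dot a v ∈ im (yb g b a) := by
    rw [D.im_yb]; exact mem_insert_of_mem (mem_image_of_mem _ hv)
  have hvr := value_relation (by omega) (O.lac_yb b a) h0 (D.cnt_zero hn) hc hτ
  rw [← hvr, D.cnt_eq_fib O hn hv hF]
  have hd := D.derivative_nontangent O hκ (mem_erase.2 ⟨hτ0, hτ⟩)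
  rw [derivative_Pb hv] at hd
  have h5 : (derivative (Phi (yb g b a))).eval (dot a v) = 0 := by
    obtain ⟨z, hz, z', hz', hne⟩ := one_lt_card.1 h2
    rw [mem_fib] at hz hz'
    have h6 : yb g b a z = dot a v := by rw [yb, hz.2]
    have h7 : yb g b a z' = dot a v := by rw [yb, hz'.2]
    have := derivative_Phi_eval (y := yb g b a) hne (by rw [h6, h7])
    rwa [h6] at this
  rw [h5, zero_add] at hd
  rw [hd, ← mul_prod_erase ((im (yb g b a)).erase (dot a v)) (fun ρ => dot a v - ρ)
    (mem_erase.2 ⟨hτ0.symm, h0⟩), erase_right_comm, sub_zero]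
  ring

theorem Data.J_ne_zero {b : F × F} (hb : b ∈ S) {a : F × F} (hn : ∀ w ∈ W g b, dot a w ≠ 0) :
    (Jp (yb g b a)).coeff 0 ≠ 0 := by
  have h3 := D.two_le O
  have h4 := O.lt
  obtain ⟨hc, -, -⟩ := D.nontangent O hb hn
  have h6 := Jp_const (by omega) (O.lac_yb b _) (D.zero_mem_im b _) (D.cnt_zero hn) hc
  intro h0
  rw [h0, C_0] at h6
  exact Jp_ne_zero (D.zero_mem_im b _) (D.cnt_zero hn) h6

/-- The nontrivial fibres have different sizes. -/
theorem Data.sizes {b : F × F} (hb : b ∈ S) {v v' : F × F} (hv : v ∈ W g b) (hv' : v' ∈ W g b)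
    (h2 : 2 ≤ (fib g b v).card) (e : (fib g b v).card = (fib g b v').card) : v = v' := by
  obtain ⟨a, hn, hF⟩ := D.exists_good O hb hv h2
  have hFe := D.Fw_eq O hb hv hv' h2 (by omega) a
  obtain ⟨hc, hs, κ, hκ0, hκ⟩ := D.nontangent O hb hn
  have h1 := D.relation O hb hn hκ hv h2 hF
  have h3 := D.relation O hb hn hκ hv' (by omega) (by rw [← hFe]; exact hF)
  have hJ := D.J_ne_zero O hb hn
  rw [← e, ← hFe] at h3
  have hne : κ * (Jp (yb g b a)).coeff 0 ≠ 0 := mul_ne_zero hκ0 hJ
  rw [← h1] at hne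
  have hA : ((fib g b v).card : F) ≠ 0 := by
    intro h0; rw [h0] at hne; simp at hne
  have hB : 1 - sig g m b a * Fw g b v a ≠ 0 := by
    intro h0; rw [h0] at hne; simp at hne
  have h5 : ((fib g b v).card : F) * (1 - sig g m b a * Fw g b v a) *
      (dot a v - dot a v') = 0 := by linear_combination h1 - h3
  have h6 := (mul_eq_zero.1 h5).resolve_left (mul_ne_zero hA hB)
  by_contra hvv
  apply hF
  rw [Fw]
  refine prod_eq_zero (mem_erase.2 ⟨Ne.symm hvv, hv'⟩) ?_
  rw [dot_sub_right, h6]

/-- A nonvanishing derivative means a simple root. -/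
theorem Data.unique_of_derivative {b a : F × F} {τ : F}
    (h : (derivative (Pb g b a)).eval τ ≠ 0) {w w' : F × F} (hw : w ∈ W g b) (hw' : w' ∈ W g b)
    (e : dot a w = τ) (e' : dot a w' = τ) : w = w' := by
  by_contra hne
  apply h
  rw [← e, derivative_Pb hw, Fw]
  refine prod_eq_zero (mem_erase.2 ⟨Ne.symm hne, hw'⟩) ?_
  rw [dot_sub_right, e, e', sub_self]

/-- The members of `W g b` with a given value. -/
theorem Data.filter_eq_image {b a : F × F} {τ : F} (hτ : τ ≠ 0) :
    (W g b).filter (fun w => dot a w = τ) =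
      (univ.filter fun z => yb g b a z = τ).image (fun z => g z - z • b) := by
  ext w
  simp only [mem_filter, mem_image, mem_univ, true_and]
  constructor
  · rintro ⟨hw, e⟩
    obtain ⟨z, hz, rfl⟩ := mem_W.1 hw
    exact ⟨z, e, rfl⟩
  · rintro ⟨z, e, rfl⟩
    refine ⟨mem_W.2 ⟨z, ?_, rfl⟩, e⟩
    intro h0
    rw [h0, D.yb_zero] at e
    exact hτ e.symm

theorem Data.count_aux {b b' a : F × F} (hbb : b' ≠ b) (hy : yb g b' a = yb g b a) {τ : F}
    (hτ : τ ∈ (im (yb g b a)).erase 0) (h : (derivative (Pb g b a)).eval τ ≠ 0) :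
    ((W g b).filter (fun w => dot a w = τ)).card = 1 ∧
    ((W g b').filter (fun w => dot a w = τ)).card = cnt (yb g b a) τ := by
  rw [mem_erase] at hτ
  obtain ⟨z0, hz0, e0⟩ := mem_image.1 hτ.2
  have hz00 : z0 ≠ 0 := by
    intro h0
    rw [h0, D.yb_zero] at e0
    exact hτ.1 e0.symm
  have hu : ∀ z, yb g b a z = τ → g z - z • b = g z0 - z0 • b := by
    intro z hz
    have hz1 : z ≠ 0 := by
      intro h0
      rw [h0, D.yb_zero] at hz
      exact hτ.1 hz.symm
    exact D.unique_of_derivative O h (mem_W.2 ⟨z, hz1, rfl⟩) (mem_W.2 ⟨z0, hz00, rfl⟩) hz e0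
  constructor
  · rw [D.filter_eq_image O hτ.1, card_eq_one]
    refine ⟨g z0 - z0 • b, ?_⟩
    ext w
    simp only [mem_image, mem_filter, mem_univ, true_and, mem_singleton]
    constructor
    · rintro ⟨z, hz, rfl⟩
      exact hu z hz
    · rintro rfl
      exact ⟨z0, e0, rfl⟩
  · rw [D.filter_eq_image O hτ.1, hy, cnt, card_image_of_injOn]
    intro z hz z' hz' e
    simp only [coe_filter, mem_univ, true_and, Set.mem_ofPred_eq] at hz hz' e
    have e1 := hu z hz
    have e2 := hu z' hz'
    have e3 : (z - z') • (b' - b) = 0 := by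
      have : (z - z') • (b' - b) = (g z - z • b) - (g z' - z' • b) -
          ((g z - z • b') - (g z' - z' • b')) := by
        rw [sub_smul, smul_sub, smul_sub]; abel
      rw [this, e1, e2, e]; abel
    exact sub_eq_zero.1 ((smul_eq_zero.1 e3).resolve_right (sub_ne_zero.2 hbb))

/-- The relation between the order and the number of elements of the field. -/
theorem Data.three_mul : Fintype.card F + 1 = 3 * m := by
  have h3 := D.two_le O
  have h4 := O.lt
  obtain ⟨b, hb⟩ : S.Nonempty := card_pos.1 (by rw [D.card]; omega)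
  obtain ⟨z, z', hz, hz', hzz, e⟩ := D.exists_pair_b O hb
  have hv : g z - z • b ∈ W g b := mem_W.2 ⟨z, hz, rfl⟩
  have h2 : 2 ≤ (fib g b (g z - z • b)).card :=
    one_lt_card.2 ⟨z, mem_fib.2 ⟨hz, rfl⟩, z', mem_fib.2 ⟨hz', e.symm⟩, hzz⟩
  set v := g z - z • b with hvd
  obtain ⟨a, hn, hF⟩ := D.exists_good O hb hv h2
  have ha : a ≠ 0 := by
    rintro rfl
    exact hn v hv (by simp [dot])
  obtain ⟨b', hb', hbb, h0⟩ := D.tangent b hb a ha (fun z hz => hn _ (mem_W.2 ⟨z, hz, rfl⟩))
  have hy : yb g b' a = yb g b a := by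
    funext x
    have : g x - x • b' = (g x - x • b) - x • (b' - b) := by
      rw [smul_sub]; abel
    rw [yb, yb, this, dot_sub_right _ (g x - x • b), dot_smul_right, h0, mul_zero, sub_zero]
  have hn' : ∀ w ∈ W g b', dot a w ≠ 0 := by
    intro w hw
    obtain ⟨x, hx, rfl⟩ := mem_W.1 hw
    have h5 : dot a (g x - x • b') = dot a (g x - x • b) := congrFun hy x
    rw [h5]
    exact hn _ (mem_W.2 ⟨x, hx, rfl⟩)
  obtain ⟨hc, hs, κ, hκ0, hκ⟩ := D.nontangent O hb hn
  obtain ⟨hc', hs', κ', hκ0', hκ'⟩ := D.nontangent O hb' hn'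
  have hsig : sig g m b' a = sig g m b a := by rw [sig, sig, hy]
  have hd : ∀ τ ∈ (im (yb g b a)).erase 0,
      (derivative (Phi (yb g b a))).eval τ + 1 - sig g m b a * (derivative (Pb g b a)).eval τ =
      κ * ∏ σ ∈ ((im (yb g b a)).erase 0).erase τ, (τ - σ) :=
    fun τ hτ => D.derivative_nontangent O hκ hτ
  have hd' : ∀ τ ∈ (im (yb g b a)).erase 0,
      (derivative (Phi (yb g b a))).eval τ + 1 - sig g m b a * (derivative (Pb g b' a)).eval τ =
      κ' * ∏ σ ∈ ((im (yb g b a)).erase 0).erase τ, (τ - σ) := by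
    intro τ hτ
    have := D.derivative_nontangent O hκ' (τ := τ) (by rw [hy]; exact hτ)
    rwa [hsig, hy] at this
  have hτ1 : dot a v ∈ (im (yb g b a)).erase 0 := by
    refine mem_erase.2 ⟨hn v hv, ?_⟩
    rw [D.im_yb]; exact mem_insert_of_mem (mem_image_of_mem _ hv)
  have hD1 : (derivative (Pb g b a)).eval (dot a v) ≠ 0 := by
    rw [derivative_Pb hv]; exact hF
  have hD2 : (derivative (Pb g b' a)).eval (dot a v) = 0 := by
    by_contra hne
    have h5 := (D.count_aux O hbb hy hτ1 hD1).2
    rw [D.cnt_eq_fib O hn hv hF] at h5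
    obtain ⟨w1, hw1, w2, hw2, hww⟩ := one_lt_card.1 (show 1 < _ from by rw [h5]; exact h2)
    rw [mem_filter] at hw1 hw2
    exact hww (D.unique_of_derivative O hne hw1.1 hw2.1 hw1.2 hw2.2)
  have hκκ : κ ≠ κ' := by
    intro hk
    have e1 := hd _ hτ1
    have e2 := hd' _ hτ1
    rw [hD2] at e2
    rw [hk, ← e2] at e1
    have : sig g m b a * (derivative (Pb g b a)).eval (dot a v) = 0 := by linear_combination -e1
    exact mul_ne_zero hs hD1 this
  have hsum : ∀ τ ∈ (im (yb g b a)).erase 0,
      ((W g b).filter (fun w => dot a w = τ)).card +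
      ((W g b').filter (fun w => dot a w = τ)).card = cnt (yb g b a) τ + 1 := by
    intro τ hτ
    by_cases hA : (derivative (Pb g b a)).eval τ = 0
    · by_cases hB : (derivative (Pb g b' a)).eval τ = 0
      · exfalso
        apply hκκ
        have e1 := hd _ hτ
        have e2 := hd' _ hτ
        rw [hB] at e2
        rw [hA, e2] at e1
        have hρ : ∏ σ ∈ ((im (yb g b a)).erase 0).erase τ, (τ - σ) ≠ 0 := by
          rw [prod_ne_zero_iff]
          intro σ hσ
          exact sub_ne_zero.2 (ne_of_mem_erase hσ).symm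
        exact (mul_right_cancel₀ hρ e1).symm
      · have := D.count_aux O hbb.symm hy.symm (τ := τ) (by rw [hy]; exact hτ) hB
        rw [this.1, this.2, hy]
    · have := D.count_aux O hbb hy hτ hA
      rw [this.1, this.2, add_comm]
  have h5 := sum_congr rfl hsum
  rw [sum_add_distrib, sum_add_distrib] at h5
  have h6 : ∀ c, yb g c a = yb g b a → (∀ w ∈ W g c, dot a w ≠ 0) →
      ∑ τ ∈ (im (yb g b a)).erase 0, ((W g c).filter (fun w => dot a w = τ)).card =
      (W g c).card := by
    intro c hcy hcn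
    refine (card_eq_sum_card_fiberwise (f := fun w => dot a w) ?_).symm
    intro w hw
    rw [mem_coe] at hw
    rw [mem_coe, mem_erase]
    refine ⟨hcn w hw, ?_⟩
    rw [← hcy, D.im_yb]; exact mem_insert_of_mem (mem_image_of_mem _ hw)
  rw [h6 b rfl hn, h6 b' hy hn', D.W_card O hb, D.W_card O hb'] at h5
  have h7 := sum_cnt (yb g b a)
  rw [← add_sum_erase _ _ (D.zero_mem_im b a), D.cnt_zero hn] at h7
  have h8 : ((im (yb g b a)).erase 0).card = m := by
    rw [card_erase_of_mem (D.zero_mem_im b a), hc]; omega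
  rw [sum_const, smul_eq_mul, mul_one, h8] at h5
  omega

end

end Q148.Nuc
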