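import Pool.Agent.Q148.NucCore

/-!
# Every point of the set sees the nuclei in the same number of directions
-/

set_option linter.unusedSectionVars false
set_option linter.unusedVariables false

namespace Q148.Nuc

open Polynomial Finset

variable {F : Type*} [Field F] [Fintype F] [DecidableEq F]

/-- `m` is the least positive degree in which a coefficient of the polynomials
`Phi (phi g a c)` does not vanish identically. -/
structure Order (g : F → F × F) (m : ℕ) : Prop where
  pos : 1 ≤ m
  lt : m + 2 ≤ Fintype.card F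
  lac : ∀ a c, Lac m (phi g a c)
  ne : ∃ a c, (Phi (phi g a c)).coeff (Fintype.card F - m) ≠ 0

theorem Order.lac_yb {g : F → F × F} {m : ℕ} (O : Order g m) (b a : F × F) :
    Lac m (yb g b a) := by
  rw [yb_eq]; exact O.lac _ _

theorem exists_coeff {y : F → F} (h0 : y 0 = 0) {z w : F} (hzw : z ≠ w) (h : y z = y w)
    (hne : y z ≠ 0) : ∃ i, 2 ≤ i ∧ i < Fintype.card F ∧ (Phi y).coeff i ≠ 0 := by
  by_contra hcon
  push Not at hcon
  have hq : 1 < Fintype.card F := Fintype.one_lt_card
  have e : Phi y = X ^ Fintype.card F + C ((Phi y).coeff 1) * X + C ((Phi y).coeff 0) := by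
    ext i
    rw [coeff_add, coeff_add, coeff_X_pow, coeff_C_mul, coeff_X, coeff_C]
    by_cases h1 : Fintype.card F < i
    · rw [coeff_eq_zero_of_natDegree_lt (by rw [Phi_natDegree]; exact h1), if_neg (by omega),
        if_neg (by omega), if_neg (by omega)]
      ring
    · by_cases h2 : i = Fintype.card F
      · rw [if_pos h2, if_neg (by omega), if_neg (by omega), h2]
        have := (Phi_monic y).coeff_natDegree
        rw [Phi_natDegree] at this
        rw [this]; ring
      · by_cases h3 : 2 ≤ i
        · rw [hcon i h3 (by omega), if_neg h2, if_neg (by omega), if_neg (by omega)]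
          ring
        · interval_cases i
          · rw [if_neg (by omega)]; simp
          · rw [if_neg (by omega)]; simp
  have hd := derivative_Phi_eval hzw h
  rw [e, derivative_add, derivative_add, derivative_X_pow, card_cast, derivative_C,
    derivative_C_mul_X] at hd
  simp only [C_0, zero_mul, zero_add, add_zero, eval_C] at hd
  have h1 := Phi_eval y 0
  rw [h0, e, hd] at h1
  simp only [C_0, zero_mul, add_zero, eval_add, eval_pow, eval_X, eval_C] at h1
  rw [zero_pow (by omega), zero_add] at h1
  have h2 := Phi_eval y z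
  rw [e, hd, h1] at h2
  simp only [C_0, zero_mul, add_zero, eval_pow, eval_X] at h2
  exact hne (pow_eq_zero_iff (by omega) |>.1 h2)

theorem phi_zero {S : Finset (F × F)} {g : F → F × F} (D : Data S g) (a : F × F) (c : F) :
    phi g a c 0 = 0 := by
  rw [phi, D.zero]; simp [dot]

theorem Data.exists_order {S : Finset (F × F)} {g : F → F × F} (D : Data S g) :
    ∃ m, Order g m := by
  obtain ⟨b, hb, z, z', hz, hz', hzz, e⟩ := D.exists_pair
  have hw : g z - z • b ∈ W g b := mem_W.2 ⟨z, hz, rfl⟩
  obtain ⟨w', hw', hne⟩ := D.exists_ne hb hw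
  have h1 : yb g b (perp w') z = yb g b (perp w') z' := by rw [yb, yb, e]
  have h2 : yb g b (perp w') z ≠ 0 := by
    rw [yb, dot_perp]
    exact D.W_det hb hw' hw hne
  obtain ⟨i, hi2, hiq, hi⟩ := exists_coeff (D.yb_zero b _) hzz h1 h2
  have hex : ∃ m, 1 ≤ m ∧ m ≤ Fintype.card F - 2 ∧ ∃ a c,
      (Phi (phi g a c)).coeff (Fintype.card F - m) ≠ 0 := by
    refine ⟨Fintype.card F - i, by omega, by omega, perp w', - dot (perp w') b, ?_⟩
    rw [← yb_eq, show Fintype.card F - (Fintype.card F - i) = i by omega]
    exact hi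
  classical
  have hs := Nat.find_spec hex
  have hmin : ∀ j, j < Nat.find hex → ¬ (1 ≤ j ∧ j ≤ Fintype.card F - 2 ∧ ∃ a c,
      (Phi (phi g a c)).coeff (Fintype.card F - j) ≠ 0) := fun j hj => Nat.find_min hex hj
  set m := Nat.find hex
  refine ⟨m, hs.1, by omega, ?_, hs.2.2⟩
  intro a c i h1 h2
  by_contra h3
  apply hmin (Fintype.card F - i) (by omega)
  refine ⟨by omega, by omega, a, c, ?_⟩
  rwa [show Fintype.card F - (Fintype.card F - i) = i by omega]

/-- A nonzero polynomial has at most as many roots as its degree. -/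
theorem card_le_natDegree {P : F[X]} (hP : P ≠ 0) (s : Finset F) (h : ∀ x ∈ s, P.eval x = 0) :
    s.card ≤ P.natDegree := by
  by_contra hlt
  exact hP (Polynomial.eq_zero_of_natDegree_lt_card_of_eval_eq_zero' P s h (by omega))

theorem Nn_eval_im {y : F → F} : ∀ x ∈ im y, (Nn y).eval x = 0 := by
  intro x hx
  obtain ⟨z, _, rfl⟩ := mem_image.1 hx
  exact Nn_eval y z

theorem Nn_ne_zero_of_pair {y : F → F} {z w : F} (hzw : z ≠ w) (h : y z = y w) : Nn y ≠ 0 := by
  intro h0
  have h1 := derivative_Nn y
  rw [h0, derivative_zero] at h1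
  have h2 := derivative_Phi_eval hzw h
  have h3 := congrArg (fun P => P.eval (y z)) h1
  simp only [eval_zero, eval_add, h2, eval_one, zero_add] at h3
  exact one_ne_zero h3.symm

section

variable {S : Finset (F × F)} {g : F → F × F} (D : Data S g) {m : ℕ} (O : Order g m)

include D O

theorem Data.W_card_le {b : F × F} (hb : b ∈ S) : (W g b).card ≤ Fintype.card F - m := by
  obtain ⟨w, hw⟩ := D.W_nonempty b
  have hw0 := D.W_ne_zero hb hw
  have ha : perp w ≠ 0 := perp_ne_zero hw0
  have haw : dot (perp w) w = 0 := by rw [dot_perp, det_self]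
  rw [← D.im_card_tangent hb ha hw haw]
  refine (card_le_natDegree ?_ _ Nn_eval_im).trans
    (Nn_natDegree (by have := O.lt; omega) (O.lac_yb b _))
  obtain ⟨z, hz, e⟩ := mem_W.1 hw
  apply Nn_ne_zero_of_pair hz
  rw [D.yb_zero, yb, e, haw]

theorem Data.many_values {b a : F × F} (hn : ∀ w ∈ W g b, dot a w ≠ 0) :
    m + 1 ≤ (im (yb g b a)).card :=
  Nuc.many_values (by have := O.lt; omega) (O.lac_yb b a) (D.zero_mem_im b a) (D.cnt_zero hn)

/-- The direction joining two projections is not a tangent direction. -/
theorem Data.nontangent_of_ne {b : F × F} (hb : b ∈ S) {w w' : F × F} (hw : w ∈ W g b)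
    (hw' : w' ∈ W g b) (h : w ≠ w') : ∀ v ∈ W g b, dot (perp (w - w')) v ≠ 0 := by
  intro v hv h0
  apply h
  apply D.W_inj hb (perp_ne_zero (sub_ne_zero.2 h)) hv h0 hw hw'
  rw [dot_perp, dot_perp]
  simp only [det, Prod.fst_sub, Prod.snd_sub]; ring

theorem Data.two_mul_lt : 2 * m + 1 ≤ Fintype.card F := by
  obtain ⟨b, hb, z, z', hz, hz', hzz, e⟩ := D.exists_pair
  have hw : g z - z • b ∈ W g b := mem_W.2 ⟨z, hz, rfl⟩
  obtain ⟨w', hw', hne⟩ := D.exists_ne hb hw
  have hn := D.nontangent_of_ne O hb hw' hw hne
  have h1 := D.many_values O hn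
  have h2 : (im (yb g b (perp (w' - (g z - z • b))))).card ≤ Fintype.card F - m := by
    refine (card_le_natDegree ?_ _ Nn_eval_im).trans
      (Nn_natDegree (by have := O.lt; omega) (O.lac_yb b _))
    apply Nn_ne_zero_of_pair hzz
    rw [yb, yb, e]
  have := O.lt
  omega

theorem Data.four_le : 4 ≤ Fintype.card F := by
  obtain ⟨b, hb, z, z', hz, hz', hzz, e⟩ := D.exists_pair
  have hw : g z - z • b ∈ W g b := mem_W.2 ⟨z, hz, rfl⟩
  obtain ⟨w', hw', hne⟩ := D.exists_ne hb hw
  obtain ⟨z2, hz2, rfl⟩ := mem_W.1 hw'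
  have h1 : ({0, z, z', z2} : Finset F).card = 4 := by
    rw [card_insert_of_notMem, card_insert_of_notMem, card_insert_of_notMem, card_singleton]
    · simp only [mem_singleton]
      rintro rfl
      exact hne e.symm
    · simp only [mem_insert, mem_singleton, not_or]
      refine ⟨hzz, ?_⟩
      rintro rfl
      exact hne rfl
    · simp only [mem_insert, mem_singleton, not_or]
      exact ⟨hz.symm, hz'.symm, hz2.symm⟩
  rw [← h1]
  exact card_le_univ _

end

/-- Representatives of all directions. -/
def dirs (F : Type*) [Field F] [Fintype F] [DecidableEq F] : Finset (F × F) :=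
  insert ((0 : F), (1 : F)) (univ.image fun t : F => ((1 : F), t))

theorem dirs_card : (dirs F).card = Fintype.card F + 1 := by
  rw [dirs, card_insert_of_notMem, card_image_of_injective, card_univ]
  · intro s t h
    exact (Prod.mk.inj h).2
  · intro h
    obtain ⟨t, _, h⟩ := mem_image.1 h
    exact one_ne_zero (Prod.mk.inj h).1

theorem dirs_det {d e : F × F} (hd : d ∈ dirs F) (he : e ∈ dirs F) (h : d ≠ e) : det d e ≠ 0 := by
  rw [dirs, mem_insert] at hd he
  rcases hd with rfl | hd
  · rcases he with rfl | he
    · exact absurd rfl h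
    · obtain ⟨t, _, rfl⟩ := mem_image.1 he
      simp [det]
  · obtain ⟨s, _, rfl⟩ := mem_image.1 hd
    rcases he with rfl | he
    · simp [det]
    · obtain ⟨t, _, rfl⟩ := mem_image.1 he
      simp only [det, one_mul, mul_one]
      intro h0
      apply h
      rw [sub_eq_zero.1 h0]

theorem dirs_ne_zero {d : F × F} (hd : d ∈ dirs F) : d ≠ 0 := by
  rw [dirs, mem_insert] at hd
  rcases hd with rfl | hd
  · intro h; exact one_ne_zero (Prod.mk.inj h).2
  · obtain ⟨s, _, rfl⟩ := mem_image.1 hd
    intro h; exact one_ne_zero (Prod.mk.inj h).1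

/-- The directions in which no member of `W` lies. -/
theorem card_nontangent (V : Finset (F × F)) (hV : ∀ w ∈ V, w ≠ 0) :
    Fintype.card F + 1 ≤ ((dirs F).filter fun d => ∀ w ∈ V, dot d w ≠ 0).card + V.card := by
  rw [← dirs_card]
  have h1 : (dirs F).card = ((dirs F).filter fun d => ∀ w ∈ V, dot d w ≠ 0).card +
      ((dirs F).filter fun d => ¬ ∀ w ∈ V, dot d w ≠ 0).card :=
    (card_filter_add_card_filter_not _).symm
  rw [h1]
  apply Nat.add_le_add_left
  apply card_le_card_of_forall_subsingleton (fun d w => dot d w = 0)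
  · intro d hd
    rw [mem_filter] at hd
    obtain ⟨_, h⟩ := hd
    push Not at h
    exact h
  · intro w hw d hd e he
    by_contra hne
    simp only [mem_filter, Set.mem_ofPred_eq] at hd he
    apply dirs_det hd.1.1 he.1.1 hne
    have h2 : dot w d = 0 := by
      have := hd.2; simp only [dot] at this ⊢; linear_combination this
    have h3 : dot w e = 0 := by
      have := he.2; simp only [dot] at this ⊢; linear_combination this
    exact det_eq_zero_of_dot (hV w hw) h2 h3

/-- A polynomial of degree less than `2 (q - 1)` vanishing at all nonzero elements. -/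
theorem coeff_zero_add {P : F[X]} (hd : P.natDegree < 2 * (Fintype.card F - 1))
    (h : ∀ c : F, c ≠ 0 → P.eval c = 0) : P.coeff 0 + P.coeff (Fintype.card F - 1) = 0 := by
  have hq : 1 < Fintype.card F := Fintype.one_lt_card
  set n := Fintype.card F - 1 with hn
  let R : F[X] := ∑ i ∈ range n, C (P.coeff i + P.coeff (n + i)) * X ^ i
  have hRc : ∀ i, i < n → R.coeff i = P.coeff i + P.coeff (n + i) := by
    intro i hi
    simp only [R, finsetSum_coeff, coeff_C_mul, coeff_X_pow]
    rw [sum_eq_single i]
    · simp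
    · intro j _ hj; rw [if_neg (Ne.symm hj), mul_zero]
    · intro h; exact absurd (mem_range.2 hi) h
  have hRd : R.natDegree < n := by
    have h1 : R.natDegree ≤ n - 1 := by
      apply natDegree_sum_le_of_forall_le
      intro i hi
      have := mem_range.1 hi
      exact (natDegree_C_mul_X_pow_le _ _).trans (by omega)
    omega
  have hR0 : R = 0 := by
    apply Polynomial.eq_zero_of_natDegree_lt_card_of_eval_eq_zero' R (univ.erase (0 : F))
    · intro c hc
      have hc0 : c ≠ 0 := ne_of_mem_erase hc
      have h1 := h c hc0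
      rw [Polynomial.eval_eq_sum_range' (n := 2 * n) hd, two_mul, sum_range_add] at h1
      rw [← h1]
      simp only [R, eval_finsetSum, eval_mul, eval_C, eval_pow, eval_X]
      rw [← sum_add_distrib]
      refine sum_congr rfl fun i _ => ?_
      rw [pow_add, show c ^ n = 1 from FiniteField.pow_card_sub_one_eq_one c hc0]
      ring
    · rw [card_erase_of_mem (mem_univ _), card_univ]
      exact hRd
  have := hRc 0 (by omega)
  rw [hR0, coeff_zero, add_zero] at this
  exact this.symm

end Q148.Nuc
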