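import Pool.Agent.Q148.NucExact

/-!
# Every point of the set sees the nuclei in the same number of directions (end)
-/

set_option linter.unusedSectionVars false
set_option linter.unusedVariables false

namespace Q148.Nuc

open Polynomial Finset

variable {F : Type*} [Field F] [Fintype F] [DecidableEq F]

/-- The coefficient of degree `m` as a polynomial in the third coordinate. -/
noncomputable def Sg (g : F → F × F) (b : F × F) (m : ℕ) (a : F × F) : F[X] :=
  ∑ t ∈ powersetCard m (univ : Finset F), ∏ z ∈ t, (C (-z) * X + C (- dot a (g z - z • b)))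

theorem Sg_FP (g : F → F × F) (b : F × F) (m : ℕ) : FP m (Sg g b m) := by
  apply FP.sum
  intro t ht
  have h1 : t.card = m := (mem_powersetCard.1 ht).2
  rw [← h1]
  apply FP.prod
  intro z _
  exact FP.lin (fun a => - dot a (g z - z • b)) (fun _ => -z) (Form.lin _).neg (Form.const _)

theorem Sg_eval {m : ℕ} (hm : m ≤ Fintype.card F) (g : F → F × F) (b a : F × F) (c : F) :
    (Sg g b m a).eval c = (Phi (phi g a (c - dot a b))).coeff (Fintype.card F - m) := by
  rw [Phi_coeff _ (by omega), show Fintype.card F - (Fintype.card F - m) = m by omega, Sg,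
    eval_finsetSum]
  refine sum_congr rfl fun t _ => ?_
  rw [eval_prod]
  refine prod_congr rfl fun z _ => ?_
  rw [phi_b]
  simp only [eval_add, eval_mul, eval_C, eval_X]
  ring

/-- The product over the other points of the set. -/
noncomputable def Gp (S : Finset (F × F)) (b a : F × F) : F[X] :=
  ∏ b' ∈ S.erase b, (C 1 * X + C (dot a (b' - b)))

theorem Gp_FP (S : Finset (F × F)) (b : F × F) : FP (S.erase b).card (Gp S b) := by
  apply FP.prod
  intro b' _
  exact FP.lin (fun a => dot a (b' - b)) (fun _ => 1) (Form.lin _) (Form.const _)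

theorem Gp_eval (S : Finset (F × F)) (b a : F × F) (c : F) :
    (Gp S b a).eval c = ∏ b' ∈ S.erase b, (c + dot a (b' - b)) := by
  rw [Gp, eval_prod]
  refine prod_congr rfl fun z _ => ?_
  simp only [eval_add, eval_mul, eval_C, eval_X]
  ring

theorem FP.natDegree_le {d : ℕ} {Q : F × F → F[X]} (h : FP d Q) (a : F × F) :
    (Q a).natDegree ≤ d := by
  rw [natDegree_le_iff_coeff_eq_zero]
  intro i hi
  exact (h i).2 hi a

section

variable {S : Finset (F × F)} {g : F → F × F} (D : Data S g)

include D

theorem Data.injective_external {b : F × F} {a : F × F} {c : F} (hc : c ≠ 0)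
    (h : ∀ b' ∈ S, b' ≠ b → c + dot a (b' - b) ≠ 0) :
    Function.Injective (phi g a (c - dot a b)) := by
  have key : ∀ b' ∈ S, c + dot a (b' - b) ≠ 0 := by
    intro b' hb'
    by_cases e : b' = b
    · rw [e, sub_self]
      simpa [dot] using hc
    · exact h b' hb' e
  have hz0 : ∀ z, z ≠ 0 → phi g a (c - dot a b) z ≠ 0 := by
    intro z hz h0
    rw [phi_b] at h0
    by_cases ha : a = 0
    · rw [ha] at h0
      simp only [dot, Prod.fst_zero, Prod.snd_zero, zero_mul, add_zero, zero_add] at h0
      rcases mul_eq_zero.1 h0 with h1 | h1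
      · exact hc h1
      · exact hz h1
    · obtain ⟨b1, hb1, h1⟩ := D.hit z hz a ha
      apply key b1 hb1
      have : z * (c + dot a (b1 - b)) = 0 := by
        rw [dot_sub_right, dot_smul_right] at h0 h1
        rw [dot_sub_right]
        linear_combination h0 - h1
      exact (mul_eq_zero.1 this).resolve_left hz
  intro z z' e
  by_contra hne
  by_cases hz : z = 0
  · rw [hz, phi_zero D] at e
    exact hz0 z' (fun h => hne (by rw [hz, h])) e.symm
  by_cases hz' : z' = 0
  · rw [hz', phi_zero D] at e
    exact hz0 z hz e
  obtain ⟨b1, hb1, h1⟩ := D.slope z z' hz hz' hne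
  apply key b1 hb1
  have h2 : dot a (g z) - dot a (g z') = (z - z') * dot a b1 := by
    rw [← dot_sub_right, h1, dot_smul_right]
  have : (z - z') * (c + dot a (b1 - b)) = 0 := by
    rw [phi, phi] at e
    rw [dot_sub_right]
    linear_combination e - h2
  exact (mul_eq_zero.1 this).resolve_left (sub_ne_zero.2 hne)

variable {m : ℕ} (O : Order g m)

include O

theorem Data.le_W_card {b : F × F} (hb : b ∈ S) : Fintype.card F - m ≤ (W g b).card := by
  by_contra hlt
  push Not at hlt
  have h4 := D.four_le O
  have h2m := D.two_mul_lt O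
  have hpos := O.pos
  have hSc : (S.erase b).card = Fintype.card F := by
    rw [card_erase_of_mem hb, D.card]; omega
  have hSg := Sg_FP g b m
  -- the order of vanishing along the line of `b`
  have hex : ∃ k, ∃ a, (Sg g b m a).coeff k ≠ 0 := by
    obtain ⟨a, c, h⟩ := O.ne
    by_contra hcon
    push Not at hcon
    apply h
    have h0 : Sg g b m a = 0 := by
      ext k
      rw [coeff_zero]
      exact hcon k a
    have := Sg_eval (m := m) (by omega) g b a (c + dot a b)
    rw [add_sub_cancel_right, h0, eval_zero] at this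
    exact this.symm
  classical
  obtain ⟨a0, ha0⟩ := Nat.find_spec hex
  have hmin : ∀ j, j < Nat.find hex → ∀ a, (Sg g b m a).coeff j = 0 := by
    intro j hj a
    by_contra h
    exact Nat.find_min hex hj ⟨a, h⟩
  set k := Nat.find hex with hk
  have hkm : k ≤ m := by
    by_contra h
    exact ha0 ((hSg k).2 (by omega) a0)
  have hdvd : ∀ a, ∃ s : F[X], Sg g b m a = X ^ k * s := by
    intro a
    exact X_pow_dvd_iff.2 fun d hd => hmin d hd a
  choose s hs using hdvd
  have hsc : ∀ a l, (s a).coeff l = (Sg g b m a).coeff (l + k) := by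
    intro a l
    rw [hs a, mul_comm, coeff_mul_X_pow]
  have hsFP : FP (m - k) s := by
    intro l
    constructor
    · intro hl
      have h1 := (hSg (l + k)).1 (by omega)
      rw [show m - (l + k) = m - k - l by omega] at h1
      exact h1.congr fun a => (hsc a l).symm
    · intro hl a
      rw [hsc]
      exact (hSg (l + k)).2 (by omega) a
  -- the product vanishes off the line of `b`
  have hvan : ∀ a c, c ≠ 0 → (Gp S b a * s a).eval c = 0 := by
    intro a c hc
    rw [eval_mul]
    by_cases h : ∃ b' ∈ S, b' ≠ b ∧ c + dot a (b' - b) = 0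
    · obtain ⟨b', hb', hne, h0⟩ := h
      rw [Gp_eval, prod_eq_zero (mem_erase.2 ⟨hne, hb'⟩) h0, zero_mul]
    · push Not at h
      have h1 := D.injective_external hc h
      have h2 := Sg_eval (m := m) (by omega) g b a c
      rw [Phi_of_injective _ h1, coeff_sub, coeff_X_pow, coeff_X, if_neg (by omega),
        if_neg (by omega), sub_zero, hs a, eval_mul, eval_pow, eval_X] at h2
      rw [(mul_eq_zero.1 h2).resolve_left (pow_ne_zero _ hc), mul_zero]
  have hFP := (Gp_FP S b).mul hsFP
  rw [hSc] at hFP
  have hrel : ∀ a, (Gp S b a * s a).coeff 0 + (Gp S b a * s a).coeff (Fintype.card F - 1) = 0 := by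
    intro a
    apply coeff_zero_add
    · have := hFP.natDegree_le a
      omega
    · exact hvan a
  have hform := (hFP (Fintype.card F - 1)).1 (by omega)
  have hG0 : ∀ a, (Gp S b a).coeff 0 = ∏ b' ∈ S.erase b, dot a (b' - b) := by
    intro a
    rw [coeff_zero_eq_eval_zero, Gp_eval]
    refine prod_congr rfl fun z _ => ?_
    rw [zero_add]
  -- there are too many nontangents
  have hW0 : ∀ w ∈ W g b, w ≠ 0 := fun w hw => D.W_ne_zero hb hw
  have hmany := card_nontangent (W g b) hW0
  have hzero : ∀ a, (Gp S b a * s a).coeff (Fintype.card F - 1) = 0 := by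
    apply hform.eq_zero (by omega) ((dirs F).filter fun d => ∀ w ∈ W g b, dot d w ≠ 0)
    · omega
    · intro a ha
      rw [mem_filter] at ha
      obtain ⟨b', hb', hne, h0⟩ := D.tangent b hb a (dirs_ne_zero ha.1) (fun z hz =>
        ha.2 _ (mem_W.2 ⟨z, hz, rfl⟩))
      have := hrel a
      rw [mul_coeff_zero, hG0, prod_eq_zero (mem_erase.2 ⟨hne, hb'⟩) h0, zero_mul,
        zero_add] at this
      exact this
    · intro d hd e he hne
      exact dirs_det (mem_filter.1 hd).1 (mem_filter.1 he).1 hne
  -- so the form vanishes at all tangents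
  have htan : ∀ w ∈ W g b, (Sg g b m (perp w)).coeff k = 0 := by
    intro w hw
    have h1 := hrel (perp w)
    rw [hzero, add_zero, mul_coeff_zero, hG0] at h1
    have h2 : ∏ b' ∈ S.erase b, dot (perp w) (b' - b) ≠ 0 := by
      rw [prod_ne_zero_iff]
      intro b' hb'
      rw [mem_erase] at hb'
      exact D.one_point hb hb'.2 hb'.1 (perp_ne_zero (hW0 w hw)) hw (by rw [dot_perp, det_self])
    have h3 := (mul_eq_zero.1 h1).resolve_left h2
    rwa [hsc, zero_add] at h3
  have hle : (W g b).card ≤ m - k := by
    by_contra hgt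
    apply ha0
    refine ((hSg k).1 hkm).eq_zero (by omega) ((W g b).image perp) ?_ ?_ ?_ a0
    · rw [card_image_of_injective]
      · omega
      · intro u v huv
        have h1 := Prod.mk.inj huv
        exact Prod.ext h1.2 (neg_injective h1.1)
    · intro z hz
      obtain ⟨w, hw, rfl⟩ := mem_image.1 hz
      exact htan w hw
    · intro z hz z' hz' hne
      obtain ⟨w, hw, rfl⟩ := mem_image.1 hz
      obtain ⟨w', hw', rfl⟩ := mem_image.1 hz'
      rw [det_perp]
      exact D.W_det hb hw hw' fun e => hne (by rw [e])
  -- but a nontangent direction shows that there are more than `m` projections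
  obtain ⟨w, hw⟩ := D.W_nonempty b
  obtain ⟨w', hw', hne⟩ := D.exists_ne hb hw
  have hn := D.nontangent_of_ne O hb hw' hw hne
  have h1 := D.many_values O hn
  rw [D.im_card_nontangent hn] at h1
  have h2 : ((W g b).image (dot (perp (w' - w)))).card < (W g b).card := by
    apply lt_of_le_of_ne card_image_le
    intro e
    rw [card_image_iff] at e
    apply hne
    apply e hw' hw
    rw [dot_perp, dot_perp]
    simp only [det, Prod.fst_sub, Prod.snd_sub]; ring
  omega

theorem Data.W_card {b : F × F} (hb : b ∈ S) : (W g b).card = Fintype.card F - m :=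
  le_antisymm (D.W_card_le O hb) (D.le_W_card O hb)

/-- Every point of the set is the slope of two arguments. -/
theorem Data.two_le : 2 ≤ m := by
  obtain ⟨b, hb, z, z', hz, hz', hzz, e⟩ := D.exists_pair
  have h1 := D.W_card O hb
  have h2 : (W g b).card < (univ.erase (0 : F)).card := by
    apply lt_of_le_of_ne card_image_le
    intro h
    exact hzz (card_image_iff.1 h (by simpa using hz) (by simpa using hz') e)
  rw [card_erase_of_mem (mem_univ _), card_univ] at h2
  have := O.lt
  omega

end

end Q148.Nuc
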