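import Pool.Agent.Q148.NucEnd

/-!
# Counting: the field has five elements and every point of the set is the slope of one pair
-/

set_option linter.unusedSectionVars false
set_option linter.unusedVariables false

namespace Q148.Nuc

open Polynomial Finset

variable {F : Type*} [Field F] [Fintype F] [DecidableEq F]

theorem sum_distinct {ι : Type*} [DecidableEq ι] (s : Finset ι) (e : ι → ℕ)
    (h : ∀ i ∈ s, ∀ j ∈ s, 1 ≤ e i → e i = e j → i = j) :
    2 * ∑ i ∈ s, e i ≤ ∑ i ∈ s, e i ^ 2 + 1 := by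
  have key : ∀ t : Finset ι, (∀ i ∈ t, e i ≠ 1) → 2 * ∑ i ∈ t, e i ≤ ∑ i ∈ t, e i ^ 2 := by
    intro t ht
    rw [mul_sum]
    refine sum_le_sum fun i hi => ?_
    have h1 := ht i hi
    rcases Nat.lt_or_ge (e i) 2 with h2 | h2
    · interval_cases (e i)
      · simp
      · exact absurd rfl h1
    · nlinarith
  by_cases hex : ∃ i ∈ s, e i = 1
  · obtain ⟨i, hi, h1⟩ := hex
    have h2 := key (s.erase i) (by
      intro j hj h3
      rw [mem_erase] at hj
      exact hj.1 (h i hi j hj.2 (by omega) (by omega)).symm)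
    rw [← add_sum_erase s e hi, ← add_sum_erase s (fun i => e i ^ 2) hi, h1]
    omega
  · push Not at hex
    have := key s hex
    omega

/-- The ordered pairs of arguments with slope `b`. -/
def prs (g : F → F × F) (b : F × F) : Finset (F × F) :=
  ((univ.erase (0 : F)).offDiag).filter fun p => g p.1 - p.1 • b = g p.2 - p.2 • b

theorem mem_prs {g : F → F × F} {b : F × F} {z z' : F} :
    (z, z') ∈ prs g b ↔ (z ≠ 0 ∧ z' ≠ 0 ∧ z ≠ z') ∧ g z - z • b = g z' - z' • b := by
  simp only [prs, mem_filter, mem_offDiag, mem_erase, mem_univ, and_true]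

theorem prs_card (g : F → F × F) (b : F × F) :
    (prs g b).card = ∑ w ∈ W g b, ((fib g b w).card * (fib g b w).card - (fib g b w).card) := by
  rw [card_eq_sum_card_fiberwise (f := fun p => g p.1 - p.1 • b) (t := W g b)]
  · refine sum_congr rfl fun w hw => ?_
    rw [← offDiag_card]
    congr 1
    ext ⟨z, z'⟩
    simp only [mem_filter, mem_prs, mem_offDiag, mem_fib]
    constructor
    · rintro ⟨⟨⟨h1, h2, h3⟩, h4⟩, h5⟩
      exact ⟨⟨h1, h5⟩, ⟨h2, by rw [← h4, h5]⟩, h3⟩
    · rintro ⟨⟨h1, h5⟩, ⟨h2, h6⟩, h3⟩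
      exact ⟨⟨⟨h1, h2, h3⟩, by rw [h5, h6]⟩, h5⟩
  · rintro ⟨z, z'⟩ hp
    rw [mem_coe, mem_prs] at hp
    rw [mem_coe]
    exact mem_W.2 ⟨z, hp.1.1, rfl⟩

theorem slope_unique {g : F → F × F} {z z' : F} (h : z ≠ z') {b b' : F × F}
    (e : g z - z • b = g z' - z' • b) (e' : g z - z • b' = g z' - z' • b') : b = b' := by
  have h1 : (z - z') • (b - b') = 0 := by
    have : (z - z') • (b - b') = ((g z - z • b') - (g z' - z' • b')) -
        ((g z - z • b) - (g z' - z' • b)) := by
      rw [sub_smul, smul_sub, smul_sub]; abel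
    rw [this, e, e']; abel
  exact sub_eq_zero.1 ((smul_eq_zero.1 h1).resolve_left (sub_ne_zero.2 h))

section

variable {S : Finset (F × F)} {g : F → F × F} (D : Data S g)

include D

theorem Data.sum_prs_le :
    ∑ b ∈ S, (prs g b).card ≤ (Fintype.card F - 1) * (Fintype.card F - 1) -
      (Fintype.card F - 1) := by
  rw [← card_biUnion]
  · have h : (univ.erase (0 : F)).card = Fintype.card F - 1 := by
      rw [card_erase_of_mem (mem_univ _), card_univ]
    rw [← h, ← offDiag_card]
    apply card_le_card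
    intro p hp
    obtain ⟨b, _, hb⟩ := mem_biUnion.1 hp
    exact (mem_filter.1 hb).1
  · intro b hb b' hb' hne
    rw [Function.onFun, disjoint_left]
    rintro ⟨z, z'⟩ h1 h2
    rw [mem_prs] at h1 h2
    exact hne (slope_unique h1.1.2.2 h1.2 h2.2)

theorem Data.prs_lower {m : ℕ} (O : Order g m) {b : F × F} (hb : b ∈ S) :
    3 * m ≤ (prs g b).card + 4 := by
  have h3 := D.two_le O
  have h4 := O.lt
  have hWc := D.W_card O hb
  rw [prs_card]
  have hd := sum_distinct (W g b) (fun w => (fib g b w).card - 1) (by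
    intro v hv v' hv' h1 he
    have h5 := fib_pos hv'
    exact D.sizes O hb hv hv' (by omega) (by omega))
  have hs : ∑ w ∈ W g b, ((fib g b w).card - 1) + (Fintype.card F - m) = Fintype.card F - 1 := by
    rw [← sum_fib g b, ← hWc, card_eq_sum_ones, ← sum_add_distrib]
    refine sum_congr rfl fun w hw => ?_
    have := fib_pos hw
    omega
  have ht : ∑ w ∈ W g b, ((fib g b w).card * (fib g b w).card - (fib g b w).card) =
      ∑ w ∈ W g b, ((fib g b w).card - 1) ^ 2 + ∑ w ∈ W g b, ((fib g b w).card - 1) := by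
    rw [← sum_add_distrib]
    refine sum_congr rfl fun w hw => ?_
    obtain ⟨k, hk⟩ := Nat.exists_eq_add_of_le (fib_pos hw)
    rw [hk]
    have e1 : 1 + k - 1 = k := by omega
    rw [e1]
    have e2 : (1 + k) * (1 + k) = (k ^ 2 + k) + (1 + k) := by ring
    rw [e2]
    omega
  rw [ht]
  omega

/-- The field has five elements, and a point of the set is the slope of only one pair. -/
theorem Data.five : Fintype.card F = 5 ∧ ∀ b ∈ S, (prs g b).card = 2 := by
  obtain ⟨m, O⟩ := D.exists_order
  have h3 := D.two_le O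
  have h4 := O.lt
  have h5 := D.three_mul O
  have h6 := D.sum_prs_le
  have hlow : ∀ b ∈ S, 3 * m - 4 ≤ (prs g b).card := fun b hb => by
    have := D.prs_lower O hb
    omega
  have h7 := card_nsmul_le_sum S _ _ hlow
  rw [D.card, h5, smul_eq_mul] at h7
  have hm : m = 2 := by
    have h8 : Fintype.card F - 1 = 3 * m - 2 := by omega
    rw [h8] at h6
    obtain ⟨k, rfl⟩ := Nat.exists_eq_add_of_le h3
    have e1 : 3 * (2 + k) - 4 = 2 + 3 * k := by omega
    have e2 : 3 * (2 + k) - 2 = 4 + 3 * k := by omega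
    rw [e1] at h7
    rw [e2] at h6
    have e3 : (4 + 3 * k) * (4 + 3 * k) - (4 + 3 * k) = (4 + 3 * k) * (3 + 3 * k) := by
      have : (4 + 3 * k) * (4 + 3 * k) = (4 + 3 * k) * (3 + 3 * k) + (4 + 3 * k) := by ring
      omega
    rw [e3] at h6
    have : k = 0 := by nlinarith
    omega
  subst hm
  have hq : Fintype.card F = 5 := by omega
  refine ⟨hq, fun b hb => ?_⟩
  rw [hq] at h6
  have h9 : 2 ≤ (prs g b).card := hlow b hb
  by_contra hne
  have h10 : ∑ b ∈ S, 2 < ∑ b ∈ S, (prs g b).card :=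
    sum_lt_sum (fun c hc => hlow c hc) ⟨b, hb, by omega⟩
  rw [sum_const, D.card, hq, smul_eq_mul] at h10
  omega

/-- Two pairs with the same slope agree. -/
theorem Data.pair_unique {b : F × F} (hb : b ∈ S) {z z' x x' : F} (h1 : (z, z') ∈ prs g b)
    (h2 : (x, x') ∈ prs g b) : (z = x ∧ z' = x') ∨ (z = x' ∧ z' = x) := by
  by_contra hcon
  push Not at hcon
  have h3 := D.five.2 b hb
  have h4 : ({(z, z'), (z', z), (x, x')} : Finset (F × F)) ⊆ prs g b := by
    intro p hp
    simp only [mem_insert, mem_singleton] at hp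
    rcases hp with rfl | rfl | rfl
    · exact h1
    · rw [mem_prs] at h1 ⊢
      exact ⟨⟨h1.1.2.1, h1.1.1, h1.1.2.2.symm⟩, h1.2.symm⟩
    · exact h2
  have h5 := card_le_card h4
  have hzz : z ≠ z' := (mem_prs.1 h1).1.2.2
  rw [h3, card_insert_of_notMem, card_insert_of_notMem, card_singleton] at h5
  · omega
  · rw [mem_singleton]
    intro h
    have := Prod.mk.inj h
    exact hcon.2 this.2 this.1
  · simp only [mem_insert, mem_singleton, not_or]
    refine ⟨fun h => hzz (Prod.mk.inj h).1, fun h => ?_⟩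
    have := Prod.mk.inj h
    exact hcon.1 this.1 this.2

end

end Q148.Nuc
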