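import Mathlib

/-!
# Binary forms as functions on the plane over a finite field

`Form j f` says that the function `f` on the plane is given by a homogeneous polynomial of degree
`j` in two variables. Forms of small degree with many pairwise non-proportional zeros vanish, and
the sum of the values of a form of degree `q - 1` is zero.
-/

namespace Q148.Nuc

open Polynomial

variable {F : Type*} [Field F]

/-- The determinant of two vectors of the plane. -/
def det (u v : F × F) : F := u.1 * v.2 - u.2 * v.1

/-- The scalar product of two vectors of the plane. -/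
def dot (a u : F × F) : F := a.1 * u.1 + a.2 * u.2

/-- The function `f` is given by a homogeneous polynomial of degree `j` in two variables. -/
def Form (j : ℕ) (f : F × F → F) : Prop :=
  ∃ p : MvPolynomial (Fin 2) F, p.IsHomogeneous j ∧
    ∀ a : F × F, MvPolynomial.eval ![a.1, a.2] p = f a

theorem Form.congr {j : ℕ} {f g : F × F → F} (h : Form j f) (e : ∀ a, f a = g a) : Form j g := by
  obtain ⟨p, hp, hf⟩ := h
  exact ⟨p, hp, fun a => (hf a).trans (e a)⟩

theorem Form.zero (j : ℕ) : Form j (fun _ : F × F => (0 : F)) :=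
  ⟨0, MvPolynomial.isHomogeneous_zero _ _ _, fun _ => map_zero _⟩

theorem Form.const (c : F) : Form 0 (fun _ : F × F => c) :=
  ⟨MvPolynomial.C c, MvPolynomial.isHomogeneous_C _ _, fun _ => by simp⟩

theorem Form.add {j : ℕ} {f g : F × F → F} (hf : Form j f) (hg : Form j g) :
    Form j (fun a => f a + g a) := by
  obtain ⟨p, hp, hf⟩ := hf
  obtain ⟨r, hr, hg⟩ := hg
  exact ⟨p + r, hp.add hr, fun a => by rw [map_add, hf, hg]⟩

theorem Form.neg {j : ℕ} {f : F × F → F} (hf : Form j f) : Form j (fun a => - f a) := by
  obtain ⟨p, hp, hf⟩ := hf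
  exact ⟨-p, hp.neg, fun a => by rw [map_neg, hf]⟩

theorem Form.sub {j : ℕ} {f g : F × F → F} (hf : Form j f) (hg : Form j g) :
    Form j (fun a => f a - g a) := by
  obtain ⟨p, hp, hf⟩ := hf
  obtain ⟨r, hr, hg⟩ := hg
  exact ⟨p - r, hp.sub hr, fun a => by rw [map_sub, hf, hg]⟩

theorem Form.mul {i j : ℕ} {f g : F × F → F} (hf : Form i f) (hg : Form j g) :
    Form (i + j) (fun a => f a * g a) := by
  obtain ⟨p, hp, hf⟩ := hf
  obtain ⟨r, hr, hg⟩ := hg
  exact ⟨p * r, hp.mul hr, fun a => by rw [map_mul, hf, hg]⟩

theorem Form.sum {ι : Type*} (s : Finset ι) {j : ℕ} {f : ι → F × F → F}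
    (h : ∀ i ∈ s, Form j (f i)) : Form j (fun a => ∑ i ∈ s, f i a) := by
  classical
  induction s using Finset.induction_on with
  | empty => simpa using Form.zero j
  | insert x s hx ih =>
    refine ((h x (Finset.mem_insert_self _ _)).add
      (ih fun i hi => h i (Finset.mem_insert_of_mem hi))).congr fun a => ?_
    rw [Finset.sum_insert hx]

theorem Form.prod {ι : Type*} (s : Finset ι) {f : ι → F × F → F}
    (h : ∀ i ∈ s, Form 1 (f i)) : Form s.card (fun a => ∏ i ∈ s, f i a) := by
  classical
  induction s using Finset.induction_on with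
  | empty => simpa using Form.const (1 : F)
  | insert x s hx ih =>
    have := (ih fun i hi => h i (Finset.mem_insert_of_mem hi)).mul
      (h x (Finset.mem_insert_self _ _))
    rw [Finset.card_insert_of_notMem hx]
    refine this.congr fun a => ?_
    rw [Finset.prod_insert hx, mul_comm]

theorem Form.lin (u : F × F) : Form 1 (fun a => dot a u) := by
  refine ⟨MvPolynomial.X 0 * MvPolynomial.C u.1 + MvPolynomial.X 1 * MvPolynomial.C u.2, ?_, ?_⟩
  · refine MvPolynomial.IsHomogeneous.add ?_ ?_
    · simpa using (MvPolynomial.isHomogeneous_X F (0 : Fin 2)).mul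
        (MvPolynomial.isHomogeneous_C _ u.1)
    · simpa using (MvPolynomial.isHomogeneous_X F (1 : Fin 2)).mul
        (MvPolynomial.isHomogeneous_C _ u.2)
  · intro a
    simp [dot]

/-- Homogeneity. -/
theorem Form.smul {j : ℕ} {f : F × F → F} (h : Form j f) (c : F) (a : F × F) :
    f (c • a) = c ^ j * f a := by
  obtain ⟨p, hp, hf⟩ := h
  rw [← hf, ← hf]
  rw [MvPolynomial.eval_eq', MvPolynomial.eval_eq', Finset.mul_sum]
  refine Finset.sum_congr rfl fun d hd => ?_
  have hd' : d 0 + d 1 = j := by
    have := hp (MvPolynomial.mem_support_iff.1 hd)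
    rw [Finsupp.weight_apply, Finsupp.sum_fintype] at this
    · simpa [Fin.sum_univ_two] using this
    · intro i; simp
  simp only [Fin.prod_univ_two, Prod.smul_fst, Prod.smul_snd, smul_eq_mul, Matrix.cons_val_zero,
    Matrix.cons_val_one, mul_pow]
  rw [← hd', pow_add]
  ring

theorem natDegree_le_lin (x y : F) : (C x + C y * X : F[X]).natDegree ≤ 1 := by
  refine (natDegree_add_le _ _).trans (max_le (by simp) ?_)
  exact (natDegree_C_mul_le _ _).trans natDegree_X_le

theorem eval_lin (x y t : F) : Polynomial.evalRingHom t (C x + C y * X : F[X]) = x + t * y := by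
  rw [Polynomial.coe_evalRingHom, eval_add, eval_C, eval_mul, eval_C, eval_X]
  ring

/-- The restriction of a form to an affine line is a polynomial of at most the same degree. -/
theorem Form.line {j : ℕ} {f : F × F → F} (h : Form j f) (u v : F × F) :
    ∃ P : F[X], P.natDegree ≤ j ∧ ∀ t : F, P.eval t = f (u + t • v) := by
  obtain ⟨p, hp, hf⟩ := h
  refine ⟨MvPolynomial.aeval ![C u.1 + C v.1 * X, C u.2 + C v.2 * X] p, ?_, fun t => ?_⟩
  · have := MvPolynomial.aeval_natDegree_le p hp.totalDegree_le
      ![C u.1 + C v.1 * X, C u.2 + C v.2 * X] (n := 1) (by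
        intro i
        fin_cases i
        · exact natDegree_le_lin u.1 v.1
        · exact natDegree_le_lin u.2 v.2)
    simpa using this
  · have key : (Polynomial.evalRingHom t).comp
        (MvPolynomial.aeval ![C u.1 + C v.1 * X, C u.2 + C v.2 * X] :
          MvPolynomial (Fin 2) F →ₐ[F] F[X]).toRingHom =
        MvPolynomial.eval ![(u + t • v).1, (u + t • v).2] := by
      apply MvPolynomial.ringHom_ext
      · intro x
        simp
      · intro i
        have h2 : ∀ i : Fin 2, (Polynomial.evalRingHom t)
            ((![C u.1 + C v.1 * X, C u.2 + C v.2 * X] : Fin 2 → F[X]) i) =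
            (![(u + t • v).1, (u + t • v).2] : Fin 2 → F) i := by
          intro i
          match i with
          | 0 => exact eval_lin u.1 v.1 t
          | 1 => exact eval_lin u.2 v.2 t
        simpa using h2 i
    have h3 := congrArg (fun φ => φ p) key
    rw [← hf]
    exact h3

theorem dot_smul_left (c : F) (a u : F × F) : dot (c • a) u = c * dot a u := by
  simp only [dot, Prod.smul_fst, Prod.smul_snd, smul_eq_mul]; ring

theorem dot_smul_right (c : F) (a u : F × F) : dot a (c • u) = c * dot a u := by
  simp only [dot, Prod.smul_fst, Prod.smul_snd, smul_eq_mul]; ring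

theorem dot_sub_right (a u v : F × F) : dot a (u - v) = dot a u - dot a v := by
  simp only [dot, Prod.fst_sub, Prod.snd_sub]; ring

theorem dot_add_right (a u v : F × F) : dot a (u + v) = dot a u + dot a v := by
  simp only [dot, Prod.fst_add, Prod.snd_add]; ring

/-- A form of degree `j < q - 1` vanishing at more than `j` pairwise non-proportional vectors
vanishes everywhere. -/
theorem Form.eq_zero [Fintype F] {j : ℕ} {f : F × F → F} (h : Form j f)
    (hj : j < Fintype.card F - 1) (Z : Finset (F × F)) (hZ : j < Z.card)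
    (h0 : ∀ z ∈ Z, f z = 0) (hdet : ∀ z ∈ Z, ∀ w ∈ Z, z ≠ w → det z w ≠ 0)
    (a : F × F) : f a = 0 := by
  classical
  by_cases ha : ∃ z ∈ Z, ∃ c : F, a = c • z
  · obtain ⟨z, hz, c, rfl⟩ := ha
    rw [h.smul, h0 z hz, mul_zero]
  push Not at ha
  obtain ⟨u, hu⟩ : Z.Nonempty := Finset.card_pos.1 (by omega)
  -- `a` is not proportional to a member of `Z`, unless `j = 0` and `Z` is a singleton
  have hdz : ∀ z ∈ Z, (z ≠ 0) → det a z ≠ 0 := by
    intro z hz hz0 hd
    by_cases h1 : z.1 = 0
    · have h2 : z.2 ≠ 0 := fun h2 => hz0 (Prod.ext h1 h2)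
      apply ha z hz (a.2 / z.2)
      rw [det, h1, mul_zero, sub_zero] at hd
      have ha1 : a.1 = 0 := (mul_eq_zero.1 hd).resolve_right h2
      ext
      · simp [h1, ha1]
      · simp [h2]
    · apply ha z hz (a.1 / z.1)
      rw [det] at hd
      ext
      · simp [h1]
      · simp only [Prod.smul_snd, smul_eq_mul]
        field_simp
        linear_combination -hd
  by_cases hj0 : j = 0
  · subst hj0
    obtain ⟨P, hP, hPe⟩ := h.line u (a - u)
    have h1 := hPe 0
    have h2 := hPe 1
    rw [eq_C_of_natDegree_le_zero hP, eval_C] at h1 h2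
    simp only [zero_smul, add_zero, one_smul, add_sub_cancel] at h1 h2
    rw [← h2, h1, h0 u hu]
  have hnz : ∀ z ∈ Z, z ≠ 0 := by
    intro z hz hz0
    obtain ⟨w, hw, hwz⟩ := Finset.exists_mem_ne (s := Z) (by omega) z
    apply hdet z hz w hw hwz.symm
    simp [det, hz0]
  have hau : det a u ≠ 0 := hdz u hu (hnz u hu)
  -- first the line `u + t a`
  have step1 : ∀ t : F, f (u + t • a) = 0 := by
    obtain ⟨P, hP, hPe⟩ := h.line u a
    have hroots : ∀ z ∈ Z, P.eval (det z u / det a z) = 0 := by
      intro z hz
      have hz' : det a z ≠ 0 := hdz z hz (hnz z hz)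
      rw [hPe]
      have : u + (det z u / det a z) • a = (det a u / det a z) • z := by
        ext
        · simp only [Prod.fst_add, Prod.smul_fst, smul_eq_mul]
          field_simp
          simp only [det]; ring
        · simp only [Prod.snd_add, Prod.smul_snd, smul_eq_mul]
          field_simp
          simp only [det]; ring
      rw [this, h.smul, h0 z hz, mul_zero]
    have hinj : Set.InjOn (fun z => det z u / det a z) (Z : Set (F × F)) := by
      intro z hz w hw hzw
      by_contra hne
      have hz' : det a z ≠ 0 := hdz z hz (hnz z hz)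
      have hw' : det a w ≠ 0 := hdz w hw (hnz w hw)
      simp only at hzw
      rw [div_eq_div_iff hz' hw'] at hzw
      have : det a u * det z w = 0 := by
        simp only [det] at hzw ⊢
        linear_combination hzw
      rcases mul_eq_zero.1 this with h1 | h1
      · exact hau h1
      · exact hdet z hz w hw hne h1
    have hP0 : P = 0 := by
      apply Polynomial.eq_zero_of_natDegree_lt_card_of_eval_eq_zero' P
        (Z.image (fun z => det z u / det a z))
      · intro x hx
        obtain ⟨z, hz, rfl⟩ := Finset.mem_image.1 hx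
        exact hroots z hz
      · rw [Finset.card_image_of_injOn hinj]
        omega
    intro t
    rw [← hPe, hP0, eval_zero]
  obtain ⟨R, hR, hRe⟩ := h.line a u
  have hR0 : R = 0 := by
    apply Polynomial.eq_zero_of_natDegree_lt_card_of_eval_eq_zero' R
      (Finset.univ.erase (0 : F))
    · intro s hs
      have hs0 : s ≠ 0 := Finset.ne_of_mem_erase hs
      rw [hRe]
      have : a + s • u = s • (u + s⁻¹ • a) := by
        rw [smul_add, smul_smul, mul_inv_cancel₀ hs0, one_smul, add_comm]
      rw [this, h.smul, step1, mul_zero]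
    · rw [Finset.card_erase_of_mem (Finset.mem_univ _), Finset.card_univ]
      omega
  have := hRe 0
  rw [hR0, eval_zero, zero_smul, add_zero] at this
  exact this.symm

/-- The sum of the values of a form of degree `q - 1` is zero. -/
theorem Form.sum_eq_zero [Fintype F] {f : F × F → F} (h : Form (Fintype.card F - 1) f) :
    ∑ a : F × F, f a = 0 := by
  classical
  obtain ⟨p, hp, hf⟩ := h
  have h1 : ∑ x : Fin 2 → F, MvPolynomial.eval x p = 0 := by
    apply MvPolynomial.sum_eval_eq_zero
    have h2 := hp.totalDegree_le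
    have h3 : 1 < Fintype.card F := Fintype.one_lt_card
    simp only [Fintype.card_fin]
    omega
  rw [← h1]
  symm
  apply Fintype.sum_equiv (finTwoArrowEquiv F)
  intro x
  rw [← hf]
  congr 1
  congr 1
  funext i
  fin_cases i <;> rfl

/-- A family of polynomials whose coefficient of index `i` is a form of degree `d - i`. -/
def FP (d : ℕ) (Q : F × F → F[X]) : Prop :=
  ∀ i, (i ≤ d → Form (d - i) (fun a => (Q a).coeff i)) ∧ (d < i → ∀ a, (Q a).coeff i = 0)

theorem FP.congr {d : ℕ} {Q R : F × F → F[X]} (h : FP d Q) (e : ∀ a, Q a = R a) : FP d R := by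
  have : Q = R := funext e
  rwa [← this]

theorem FP.lin (x y : F × F → F) (hx : Form 1 x) (hy : Form 0 y) :
    FP 1 (fun a => C (y a) * X + C (x a)) := by
  intro i
  match i with
  | 0 => exact ⟨fun _ => hx.congr fun a => by simp, fun h => absurd h (by omega)⟩
  | 1 => exact ⟨fun _ => hy.congr fun a => by simp, fun h => absurd h (by omega)⟩
  | n + 2 =>
    refine ⟨fun h => absurd h (by omega), fun _ a => ?_⟩
    rw [coeff_add, coeff_C_mul, coeff_X, coeff_C]
    simp

theorem FP.mul {d e : ℕ} {Q R : F × F → F[X]} (hQ : FP d Q) (hR : FP e R) :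
    FP (d + e) (fun a => Q a * R a) := by
  intro i
  constructor
  · intro hi
    have : Form (d + e - i) (fun a => ∑ x ∈ Finset.HasAntidiagonal.antidiagonal i,
        (Q a).coeff x.1 * (R a).coeff x.2) := by
      apply Form.sum
      intro x hx
      rw [Finset.HasAntidiagonal.mem_antidiagonal] at hx
      by_cases h1 : x.1 ≤ d
      · by_cases h2 : x.2 ≤ e
        · have := ((hQ x.1).1 h1).mul ((hR x.2).1 h2)
          have e1 : d - x.1 + (e - x.2) = d + e - i := by omega
          rwa [e1] at this
        · refine (Form.zero _).congr fun a => ?_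
          rw [(hR x.2).2 (by omega) a, mul_zero]
      · refine (Form.zero _).congr fun a => ?_
        rw [(hQ x.1).2 (by omega) a, zero_mul]
    exact this.congr fun a => by rw [coeff_mul]
  · intro hi a
    rw [coeff_mul]
    apply Finset.sum_eq_zero
    intro x hx
    rw [Finset.HasAntidiagonal.mem_antidiagonal] at hx
    by_cases h1 : x.1 ≤ d
    · rw [(hR x.2).2 (by omega) a, mul_zero]
    · rw [(hQ x.1).2 (by omega) a, zero_mul]

theorem FP.one : FP 0 (fun _ : F × F => (1 : F[X])) := by
  intro i
  match i with
  | 0 => exact ⟨fun _ => (Form.const (1 : F)).congr fun a => by simp, fun h => absurd h (by omega)⟩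
  | n + 1 => exact ⟨fun h => absurd h (by omega), fun _ a => by rw [coeff_one]; simp⟩

theorem FP.prod {ι : Type*} (s : Finset ι) {Q : ι → F × F → F[X]}
    (h : ∀ i ∈ s, FP 1 (Q i)) : FP s.card (fun a => ∏ i ∈ s, Q i a) := by
  classical
  induction s using Finset.induction_on with
  | empty => simpa using (FP.one (F := F))
  | insert x s hx ih =>
    have := (ih fun i hi => h i (Finset.mem_insert_of_mem hi)).mul
      (h x (Finset.mem_insert_self _ _))
    rw [Finset.card_insert_of_notMem hx]
    refine this.congr fun a => ?_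
    rw [Finset.prod_insert hx, mul_comm]

theorem FP.sum {ι : Type*} (s : Finset ι) {d : ℕ} {Q : ι → F × F → F[X]}
    (h : ∀ i ∈ s, FP d (Q i)) : FP d (fun a => ∑ i ∈ s, Q i a) := by
  intro i
  constructor
  · intro hi
    exact (Form.sum s fun x hx => (h x hx i).1 hi).congr fun a => by
      rw [finsetSum_coeff]
  · intro hi a
    rw [finsetSum_coeff]
    exact Finset.sum_eq_zero fun x hx => (h x hx i).2 hi a

end Q148.Nuc
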