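import Pool.Agent.Q148.NucFive

/-!
# From a set with many nuclei to the lifted configuration
-/

set_option linter.unusedSectionVars false
set_option linter.unusedVariables false

namespace Q148.Nuc

open Polynomial Finset

variable {F : Type*} [Field F] [Fintype F] [DecidableEq F]

/-- `P` is a nucleus of `S`. -/
def Nucl (S : Finset (F × F)) (P : F × F) : Prop :=
  P ∉ S ∧ ∀ d : F × F, d ≠ 0 → ∃ t : F, P + t • d ∈ S

theorem prod_nonzero : ∏ x ∈ univ.erase (0 : F), x = -1 := by
  have h := FiniteField.prod_univ_units_id_eq_neg_one (K := F)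
  have h2 : ∏ x : Fˣ, (x : F) = -1 := by
    have := congrArg (Units.val) h
    simpa using this
  rw [← h2]
  symm
  apply Finset.prod_bij (fun (u : Fˣ) _ => (u : F))
  · intro u _
    exact mem_erase.2 ⟨u.ne_zero, mem_univ _⟩
  · intro u _ v _ h
    exact Units.ext h
  · intro x hx
    exact ⟨Units.mk0 x (ne_of_mem_erase hx), mem_univ _, rfl⟩
  · intro u _
    rfl

theorem det_smul_smul (s t : F) (u v : F × F) : det (s • u) (t • v) = s * t * det u v := by
  simp only [det, Prod.smul_fst, Prod.smul_snd, smul_eq_mul]; ring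

theorem det_swap (u v : F × F) : det u v = - det v u := by
  simp only [det]; ring

/-- A vector proportional to a nonzero vector. -/
theorem exists_smul_of_det {u v : F × F} (hv : v ≠ 0) (h : det u v = 0) : ∃ c : F, u = c • v := by
  by_cases h1 : v.1 = 0
  · have h2 : v.2 ≠ 0 := fun h2 => hv (Prod.ext h1 h2)
    refine ⟨u.2 / v.2, ?_⟩
    have h3 : u.1 = 0 := by
      simp only [det, h1, mul_zero, sub_zero] at h
      exact (mul_eq_zero.1 h).resolve_right h2
    ext
    · simp [h1, h3]
    · simp only [Prod.smul_snd, smul_eq_mul]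
      field_simp
  · refine ⟨u.1 / v.1, ?_⟩
    ext
    · simp only [Prod.smul_fst, smul_eq_mul]
      field_simp
    · simp only [Prod.smul_snd, smul_eq_mul]
      simp only [det] at h
      field_simp
      linear_combination -h

section

variable {S : Finset (F × F)} (hS : S.card = Fintype.card F + 1)

include hS

theorem Nucl.det_ne {P : F × F} (hP : Nucl S P) {b b' : F × F} (hb : b ∈ S) (hb' : b' ∈ S)
    (hne : b ≠ b') : det (b - P) (b' - P) ≠ 0 := by
  have h1 : ∀ d : F × F, ∃ t : F, d ≠ 0 → P + t • d ∈ S := by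
    intro d
    by_cases hd : d = 0
    · exact ⟨0, fun h => absurd hd h⟩
    · obtain ⟨t, ht⟩ := hP.2 d hd
      exact ⟨t, fun _ => ht⟩
  choose t ht using h1
  have htne : ∀ d ∈ dirs F, t d ≠ 0 := by
    intro d hd h0
    have := ht d (dirs_ne_zero hd)
    rw [h0, zero_smul, add_zero] at this
    exact hP.1 this
  have hinj : Set.InjOn (fun d => P + t d • d) (dirs F : Set (F × F)) := by
    intro d hd e he hde
    simp only [add_right_inj] at hde
    by_contra hne
    have h2 : det (t d • d) (t e • e) = 0 := by rw [hde, det_self]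
    rw [det_smul_smul] at h2
    exact (mul_ne_zero (mul_ne_zero (htne d hd) (htne e he)) (dirs_det hd he hne)) h2
  have himg : (dirs F).image (fun d => P + t d • d) = S := by
    apply eq_of_subset_of_card_le
    · intro x hx
      obtain ⟨d, hd, rfl⟩ := mem_image.1 hx
      exact ht d (dirs_ne_zero hd)
    · rw [card_image_of_injOn hinj, dirs_card, hS]
  rw [← himg] at hb hb'
  obtain ⟨d, hd, rfl⟩ := mem_image.1 hb
  obtain ⟨e, he, rfl⟩ := mem_image.1 hb'
  have hde : d ≠ e := fun h => hne (by rw [h])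
  rw [add_sub_cancel_left, add_sub_cancel_left, det_smul_smul]
  exact mul_ne_zero (mul_ne_zero (htne d hd) (htne e he)) (dirs_det hd he hde)

omit hS in
theorem Nucl.hit {P : F × F} (hP : Nucl S P) {a : F × F} (ha : a ≠ 0) :
    ∃ b ∈ S, dot a (b - P) = 0 := by
  obtain ⟨t, ht⟩ := hP.2 (perp a) (perp_ne_zero ha)
  refine ⟨_, ht, ?_⟩
  rw [add_sub_cancel_left, dot_smul_right]
  simp only [dot, perp]; ring

theorem Nucl.count {P : F × F} (hP : Nucl S P) {a : F × F} (ha : a ≠ 0) :
    (S.filter fun b => dot a (b - P) = 0).card = 1 := by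
  obtain ⟨b, hb, h0⟩ := hP.hit ha
  rw [card_eq_one]
  refine ⟨b, ?_⟩
  ext b'
  rw [mem_filter, mem_singleton]
  constructor
  · rintro ⟨hb', h1⟩
    by_contra hne
    exact hP.det_ne hS hb' hb hne (det_eq_zero_of_dot ha h1 h0)
  · rintro rfl
    exact ⟨hb, h0⟩

/-- The product of the determinants. -/
def CC (S : Finset (F × F)) (b P : F × F) : F := ∏ b' ∈ S.erase b, det (b - P) (b' - P)

theorem Nucl.CC_ne_zero {P : F × F} (hP : Nucl S P) {b : F × F} (hb : b ∈ S) :
    CC S b P ≠ 0 := by
  rw [CC, prod_ne_zero_iff]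
  intro b' hb'
  rw [mem_erase] at hb'
  exact hP.det_ne hS hb hb'.2 hb'.1.symm

theorem Nucl.CC_eq {P : F × F} (hP : Nucl S P) {b c : F × F} (hb : b ∈ S) (hc : c ∈ S) :
    CC S b P = CC S c P := by
  by_cases hne : b = c
  · rw [hne]
  have hcb : c ∈ S.erase b := mem_erase.2 ⟨Ne.symm hne, hc⟩
  have hbc : b ∈ S.erase c := mem_erase.2 ⟨hne, hb⟩
  rw [CC, CC, ← mul_prod_erase _ _ hcb, ← mul_prod_erase _ _ hbc, erase_right_comm (a := c)]
  set T := (S.erase b).erase c with hT
  have hTm : ∀ x ∈ T, x ∈ S ∧ x ≠ b ∧ x ≠ c := by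
    intro x hx
    rw [hT, mem_erase, mem_erase] at hx
    exact ⟨hx.2.2, hx.2.1, hx.1⟩
  have hTc : T.card = Fintype.card F - 1 := by
    rw [hT, card_erase_of_mem hcb, card_erase_of_mem hb, hS]; omega
  have himg : T.image (fun x => det (b - P) (x - P) / det (c - P) (x - P)) =
      univ.erase (0 : F) := by
    apply eq_of_subset_of_card_le
    · intro y hy
      obtain ⟨x, hx, rfl⟩ := mem_image.1 hy
      obtain ⟨h1, h2, h3⟩ := hTm x hx
      refine mem_erase.2 ⟨div_ne_zero (hP.det_ne hS hb h1 h2.symm) (hP.det_ne hS hc h1 h3.symm),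
        mem_univ _⟩
    · rw [card_erase_of_mem (mem_univ _), card_univ, card_image_of_injOn, hTc]
      intro x hx y hy h
      simp only at h
      obtain ⟨h1, h2, h3⟩ := hTm x hx
      obtain ⟨h1', h2', h3'⟩ := hTm y hy
      by_contra hxy
      rw [div_eq_div_iff (hP.det_ne hS hc h1 h3.symm) (hP.det_ne hS hc h1' h3'.symm)] at h
      have h5 : det (b - P) (c - P) * det (x - P) (y - P) = 0 := by
        simp only [det] at h ⊢
        linear_combination h
      exact mul_ne_zero (hP.det_ne hS hb hc hne) (hP.det_ne hS h1 h1' hxy) h5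
  have hprod : ∏ x ∈ T, (det (b - P) (x - P) / det (c - P) (x - P)) = -1 := by
    rw [← prod_nonzero, ← himg, prod_image]
    intro x hx y hy h
    have hcard : (T.image (fun x => det (b - P) (x - P) / det (c - P) (x - P))).card = T.card := by
      rw [himg, hTc, card_erase_of_mem (mem_univ _), card_univ]
    exact card_image_iff.1 hcard hx hy h
  rw [prod_div_distrib] at hprod
  have hne2 : ∏ x ∈ T, det (c - P) (x - P) ≠ 0 := by
    rw [prod_ne_zero_iff]
    intro x hx
    obtain ⟨h1, h2, h3⟩ := hTm x hx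
    exact hP.det_ne hS hc h1 h3.symm
  rw [div_eq_iff hne2] at hprod
  rw [hprod, det_swap (c - P) (b - P)]
  ring

/-- The relation between the labels of two nuclei. -/
theorem Nucl.label {P Q : F × F} (hP : Nucl S P) (hQ : Nucl S Q) {b : F × F} (hb : b ∈ S)
    (h : det (b - P) (b - Q) = 0) {b₀ : F × F} (hb₀ : b₀ ∈ S) :
    (CC S b₀ P)⁻¹ • (b - P) = (CC S b₀ Q)⁻¹ • (b - Q) := by
  have hbQ : b - Q ≠ 0 := by
    intro h0
    apply hQ.1
    rw [← sub_eq_zero.1 h0]
    exact hb
  obtain ⟨θ, hθ⟩ := exists_smul_of_det hbQ h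
  have h1 : CC S b P = θ * CC S b Q := by
    rw [CC, CC]
    have h2 : ∀ b' ∈ S.erase b, det (b - P) (b' - P) = θ * det (b - Q) (b' - Q) := by
      intro b' _
      have e1 : det (b - P) (b' - P) = det (b - P) (b' - b) := by
        simp only [det, Prod.fst_sub, Prod.snd_sub]; ring
      rw [e1, hθ]
      simp only [det, Prod.fst_sub, Prod.snd_sub, Prod.smul_fst, Prod.smul_snd, smul_eq_mul]; ring
    rw [prod_congr rfl h2, prod_mul_distrib, prod_const, card_erase_of_mem hb, hS,
      Nat.add_sub_cancel, FiniteField.pow_card]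
  have hCP := hP.CC_ne_zero hS hb
  have hCQ := hQ.CC_ne_zero hS hb
  rw [hP.CC_eq hS hb₀ hb, hQ.CC_eq hS hb₀ hb, h1, hθ, smul_smul]
  congr 1
  rw [h1] at hCP
  have hθ0 : θ ≠ 0 := left_ne_zero_of_mul hCP
  field_simp

/-- Two different nuclei have a point of the set on their line. -/
theorem Nucl.exists_between {P Q : F × F} (hP : Nucl S P) (hQ : Nucl S Q) (hPQ : P ≠ Q) :
    ∃ b ∈ S, det (b - P) (b - Q) = 0 ∧ b ≠ P ∧ b ≠ Q := by
  obtain ⟨t, ht⟩ := hP.2 (Q - P) (sub_ne_zero.2 hPQ.symm)
  refine ⟨_, ht, ?_, ?_, ?_⟩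
  · simp only [det, Prod.fst_sub, Prod.snd_sub, Prod.fst_add, Prod.snd_add, Prod.smul_fst,
      Prod.smul_snd, smul_eq_mul]
    ring
  · intro h; exact hP.1 (h ▸ ht)
  · intro h; exact hQ.1 (h ▸ ht)

end

end Q148.Nuc
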