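import Pool.Agent.Q148.NucGeo

/-!
# The lifted configuration of a set with many nuclei
-/

set_option linter.unusedSectionVars false
set_option linter.unusedVariables false

namespace Q148.Nuc

open Polynomial Finset

variable {F : Type*} [Field F] [Fintype F] [DecidableEq F]

/-- The linear polynomial belonging to a point. -/
noncomputable def ll (a a' x : F × F) : F[X] := C (dot a x) + C (dot a' x) * X

theorem ll_eval (a a' x : F × F) (t : F) : (ll a a' x).eval t = dot (a + t • a') x := by
  rw [ll, eval_add, eval_C, eval_mul, eval_C, eval_X]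
  simp only [dot, Prod.fst_add, Prod.snd_add, Prod.smul_fst, Prod.smul_snd, smul_eq_mul]
  ring

theorem ll_sub (a a' x y : F × F) : ll a a' x - ll a a' y = ll a a' (x - y) := by
  rw [ll, ll, ll, dot_sub_right, dot_sub_right, C_sub, C_sub]
  ring

theorem ll_natDegree (a a' x : F × F) : (ll a a' x).natDegree ≤ 1 :=
  natDegree_le_lin _ _

theorem dot_ne_zero_of_det {a a' x : F × F} (h : det a a' ≠ 0) (h1 : dot a x = 0)
    (h2 : dot a' x = 0) : x = 0 := by
  have e1 : det a a' * x.1 = 0 := by
    simp only [det, dot] at *
    linear_combination a'.2 * h1 - a.2 * h2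
  have e2 : det a a' * x.2 = 0 := by
    simp only [det, dot] at *
    linear_combination a.1 * h2 - a'.1 * h1
  exact Prod.ext ((mul_eq_zero.1 e1).resolve_left h) ((mul_eq_zero.1 e2).resolve_left h)

section

variable {S : Finset (F × F)} (hS : S.card = Fintype.card F + 1)

include hS

/-- The power sum over a line pencil of a nucleus. -/
theorem Nucl.sum_pow {P : F × F} (hP : Nucl S P) {a : F × F} (ha : a ≠ 0) :
    ∑ b ∈ S, (dot a (b - P)) ^ (Fintype.card F - 1) = 0 := by
  have h1 : ∀ b ∈ S, (dot a (b - P)) ^ (Fintype.card F - 1) =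
      if dot a (b - P) = 0 then 0 else 1 := by
    intro b _
    by_cases h : dot a (b - P) = 0
    · rw [if_pos h, h, zero_pow]
      have : 1 < Fintype.card F := Fintype.one_lt_card
      omega
    · rw [if_neg h, FiniteField.pow_card_sub_one_eq_one _ h]
  rw [sum_congr rfl h1, sum_ite, sum_const_zero, zero_add, sum_const, nsmul_one]
  have h2 := card_filter_add_card_filter_not (s := S) (fun b => dot a (b - P) = 0)
  rw [hP.count hS ha, hS] at h2
  rw [show (S.filter fun b => ¬ dot a (b - P) = 0).card = Fintype.card F by omega]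
  exact card_cast

/-- The same, for the generic direction. -/
theorem Nucl.sum_pow_ll {P : F × F} (hP : Nucl S P) {a a' : F × F} (ha : det a a' ≠ 0) :
    ∑ b ∈ S, (ll a a' b - ll a a' P) ^ (Fintype.card F - 1) = 0 := by
  apply Polynomial.eq_zero_of_natDegree_lt_card_of_eval_eq_zero' _ (univ : Finset F)
  · intro t _
    rw [eval_finsetSum]
    have h1 : a + t • a' ≠ 0 := by
      intro h
      apply ha
      have h2 : a = (-t) • a' := by rw [neg_smul]; exact eq_neg_of_add_eq_zero_left h
      rw [h2]
      simp only [det, Prod.smul_fst, Prod.smul_snd, smul_eq_mul]; ring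
    rw [← hP.sum_pow hS h1]
    refine sum_congr rfl fun b _ => ?_
    rw [eval_pow, ll_sub, ll_eval]
  · rw [card_univ]
    have hq : 1 < Fintype.card F := Fintype.one_lt_card
    have : (∑ b ∈ S, (ll a a' b - ll a a' P) ^ (Fintype.card F - 1)).natDegree ≤
        Fintype.card F - 1 := by
      apply natDegree_sum_le_of_forall_le
      intro b _
      refine natDegree_pow_le.trans ?_
      rw [ll_sub]
      have := ll_natDegree a a' (b - P)
      calc (Fintype.card F - 1) * (ll a a' (b - P)).natDegree ≤ (Fintype.card F - 1) * 1 :=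
            Nat.mul_le_mul_left _ this
        _ = _ := mul_one _
    omega

/-- A line with only one point of the set contains a nucleus. -/
theorem exists_nucleus_on {N : Finset (F × F)} (hN : ∀ P ∈ N, Nucl S P)
    (hNc : N.card = Fintype.card F - 1) {b : F × F} (hb : b ∈ S) {a : F × F} (ha : a ≠ 0)
    (h1 : ∀ b' ∈ S, dot a (b' - b) = 0 → b' = b) : ∃ P ∈ N, dot a (P - b) = 0 := by
  have hq : 1 < Fintype.card F := Fintype.one_lt_card
  obtain ⟨a', ha'⟩ : ∃ a', det a a' ≠ 0 := by
    by_cases h : a.1 = 0
    · have h2 : a.2 ≠ 0 := fun h2 => ha (Prod.ext h h2)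
      exact ⟨(1, 0), by simpa [det] using h2⟩
    · exact ⟨(0, 1), by simpa [det] using h⟩
  -- the polynomial identity
  set A : F[X][X] := ∑ c ∈ S, (X + C (ll a a' c)) ^ (Fintype.card F - 1) with hA
  set B : F[X][X] := ∏ P ∈ N, (X - C (- ll a a' P)) with hB
  have hinj : Set.InjOn (fun P => - ll a a' P) (N : Set (F × F)) := by
    intro P _ Q _ h
    simp only [neg_inj] at h
    have h2 : ll a a' (P - Q) = 0 := by rw [← ll_sub, h, sub_self]
    have h3 := congrArg (fun p => p.coeff 0) h2
    have h4 := congrArg (fun p => p.coeff 1) h2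
    simp only [ll, coeff_add, coeff_C_mul, coeff_C_zero, coeff_X_zero, mul_zero, add_zero,
      coeff_zero] at h3
    simp only [ll, coeff_add, coeff_C_mul, coeff_C_succ, coeff_X_one, mul_one, zero_add,
      coeff_zero] at h4
    exact sub_eq_zero.1 (dot_ne_zero_of_det ha' h3 h4)
  have hAd : A.natDegree ≤ Fintype.card F - 1 := by
    apply natDegree_sum_le_of_forall_le
    intro c _
    rw [natDegree_pow, natDegree_X_add_C, mul_one]
  have hAc : A.coeff (Fintype.card F - 1) = 1 := by
    rw [hA, finsetSum_coeff]
    have h2 : ∀ c ∈ S, ((X + C (ll a a' c) : F[X][X]) ^ (Fintype.card F - 1)).coeff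
        (Fintype.card F - 1) = 1 := by
      intro c _
      have h3 : ((X + C (ll a a' c) : F[X][X]) ^ (Fintype.card F - 1)).Monic :=
        (monic_X_add_C _).pow _
      have h4 := h3.coeff_natDegree
      rwa [natDegree_pow, natDegree_X_add_C, mul_one] at h4
    rw [sum_congr rfl h2, sum_const, nsmul_one, hS, Nat.cast_add, Nat.cast_one]
    have h5 : ((Fintype.card F : ℕ) : F[X]) = 0 := by
      rw [← Polynomial.C_eq_natCast, card_cast, C_0]
    rw [h5, zero_add]
  have hBm : B.Monic := monic_prod_of_monic _ _ fun P _ => monic_X_sub_C _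
  have hBd : B.natDegree = Fintype.card F - 1 := by
    rw [hB, natDegree_finsetProd_X_sub_C_eq_card, hNc]
  have hAB : A = B := by
    rw [← sub_eq_zero]
    apply Polynomial.eq_zero_of_natDegree_lt_card_of_eval_eq_zero' _
      (N.image (fun P => - ll a a' P))
    · intro x hx
      obtain ⟨P, hP, rfl⟩ := mem_image.1 hx
      rw [eval_sub, hA, eval_finsetSum, hB, eval_prod, prod_eq_zero hP (by simp), sub_zero]
      rw [← (hN P hP).sum_pow_ll hS ha']
      refine sum_congr rfl fun c _ => ?_
      rw [eval_pow, eval_add, eval_X, eval_C]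
      ring
    · rw [card_image_of_injOn hinj, hNc]
      have hle : (A - B).natDegree ≤ Fintype.card F - 1 :=
        (natDegree_sub_le _ _).trans (max_le hAd hBd.le)
      have hc : (A - B).coeff (Fintype.card F - 1) = 0 := by
        have := hBm.coeff_natDegree
        rw [hBd] at this
        rw [coeff_sub, hAc, this, sub_self]
      rcases lt_or_eq_of_le hle with h2 | h2
      · exact h2
      · have h3 : A - B = 0 := by
          rw [← leadingCoeff_eq_zero, leadingCoeff, h2, hc]
        rw [h3, natDegree_zero]
        omega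
  have hval := congrArg (fun p => (p.eval (C (- dot a b))).eval 0) hAB
  simp only [hA, hB, eval_finsetSum, eval_prod, eval_pow, eval_add, eval_sub, eval_X, eval_C,
    eval_neg, ll_eval, zero_smul, add_zero] at hval
  have hleft : ∑ c ∈ S, (- dot a b + dot a c) ^ (Fintype.card F - 1) = 0 := by
    have h2 : ∀ c ∈ S, (- dot a b + dot a c) ^ (Fintype.card F - 1) =
        if c = b then 0 else 1 := by
      intro c hc
      have h3 : - dot a b + dot a c = dot a (c - b) := by rw [dot_sub_right]; ring
      rw [h3]
      by_cases h : c = b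
      · rw [if_pos h, h, sub_self]
        simp only [dot, Prod.fst_zero, Prod.snd_zero, mul_zero, add_zero]
        rw [zero_pow (by omega)]
      · rw [if_neg h, FiniteField.pow_card_sub_one_eq_one _ (fun h0 => h (h1 c hc h0))]
    rw [sum_congr rfl h2, sum_ite, sum_const_zero, zero_add, sum_const, nsmul_one]
    have h4 : (S.filter fun c => ¬ c = b) = S.erase b := by
      ext c; simp [and_comm]
    rw [h4, card_erase_of_mem hb, hS, Nat.add_sub_cancel]
    exact card_cast
  rw [hleft] at hval
  obtain ⟨P, hP, h2⟩ := prod_eq_zero_iff.1 hval.symm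
  refine ⟨P, hP, ?_⟩
  rw [dot_sub_right]
  linear_combination h2

end

/-- The set consists of the points of a line and one further point. -/
def TypeOne (S : Finset (F × F)) : Prop :=
  ∃ P d Q : F × F, d ≠ 0 ∧ (∀ t : F, P + t • d ≠ Q) ∧
    ∀ x, x ∈ S ↔ (∃ t : F, x = P + t • d) ∨ x = Q

section

variable {S : Finset (F × F)} (hS : S.card = Fintype.card F + 1)

include hS

/-- If all nuclei are on a line through a point of the set, the set is of the first type. -/
theorem typeOne_of_collinear {N : Finset (F × F)} (hN : ∀ P ∈ N, Nucl S P)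
    (hNc : N.card = Fintype.card F - 1) {b₀ : F × F} (hb₀ : b₀ ∈ S) {a : F × F} (ha : a ≠ 0)
    (hl : ∀ P ∈ N, dot a (P - b₀) = 0) : TypeOne S := by
  have hq : 1 < Fintype.card F := Fintype.one_lt_card
  -- the points of the line
  have hline : ∀ p : F × F, dot a (p - b₀) = 0 → p = b₀ ∨ p ∈ N := by
    have h1 : (univ.image fun t : F => b₀ + t • perp a) = insert b₀ N := by
      symm
      apply eq_of_subset_of_card_le
      · intro x hx
        rw [mem_insert] at hx
        rw [mem_image]
        rcases hx with rfl | hx
        · exact ⟨0, mem_univ _, by rw [zero_smul, add_zero]⟩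
        · have h2 := hl x hx
          have h3 : det (x - b₀) (perp a) = 0 := by
            simp only [det, perp, dot] at h2 ⊢
            linear_combination h2
          obtain ⟨c, hc⟩ := exists_smul_of_det (perp_ne_zero ha) h3
          exact ⟨c, mem_univ _, by rw [← hc]; abel⟩
      · rw [card_image_of_injective, card_univ, card_insert_of_notMem, hNc]
        · omega
        · intro h; exact (hN _ h).1 hb₀
        · intro s t h
          simp only [add_right_inj] at h
          have h4 : (s - t) • perp a = 0 := by rw [sub_smul, h, sub_self]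
          exact sub_eq_zero.1 ((smul_eq_zero.1 h4).resolve_right (perp_ne_zero ha))
    intro p hp
    have h3 : det (p - b₀) (perp a) = 0 := by
      simp only [det, perp, dot] at hp ⊢
      linear_combination hp
    obtain ⟨c, hc⟩ := exists_smul_of_det (perp_ne_zero ha) h3
    have h5 : p ∈ (univ.image fun t : F => b₀ + t • perp a) :=
      mem_image.2 ⟨c, mem_univ _, by rw [← hc]; abel⟩
    rw [h1, mem_insert] at h5
    exact h5
  obtain ⟨P₀, hP₀⟩ : N.Nonempty := card_pos.1 (by omega)
  have hoff : ∀ b ∈ S, b ≠ b₀ → dot a (b - b₀) ≠ 0 := by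
    intro b hb hne h0
    have h1 := (hN P₀ hP₀).det_ne hS hb hb₀ hne
    apply h1
    have h2 := hl P₀ hP₀
    apply det_eq_zero_of_dot ha
    · have : b - P₀ = (b - b₀) - (P₀ - b₀) := by abel
      rw [this, dot_sub_right, h0, h2, sub_self]
    · have : b₀ - P₀ = - (P₀ - b₀) := by abel
      rw [this, ← neg_one_smul F, dot_smul_right, h2, mul_zero]
  have hpair : ∀ b ∈ S, ∀ c ∈ S, b ≠ b₀ → c ≠ b₀ → dot a (b - b₀) ≠ dot a (c - b₀) →
      det (b - b₀) (c - b₀) = 0 := by
    intro b hb c hc hbne hcne hd
    have hbc : b ≠ c := fun h => hd (by rw [h])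
    set u := dot a (b - b₀) with hu
    set v := dot a (c - b₀) with hv
    have huv : v - u ≠ 0 := sub_ne_zero.2 hd.symm
    set p : F × F := b₀ + (v / (v - u)) • (b - b₀) - (u / (v - u)) • (c - b₀) with hp
    have hpa : dot a (p - b₀) = 0 := by
      have : p - b₀ = (v / (v - u)) • (b - b₀) - (u / (v - u)) • (c - b₀) := by
        rw [hp]; abel
      rw [this, dot_sub_right, dot_smul_right, dot_smul_right, ← hu, ← hv]
      field_simp
      ring
    have hdet : det (b - p) (c - p) = 0 := by
      have e1 : b - p = (u / (v - u)) • (c - b) := by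
        rw [hp]
        ext
        · simp only [Prod.fst_sub, Prod.fst_add, Prod.smul_fst, smul_eq_mul]
          field_simp; ring
        · simp only [Prod.snd_sub, Prod.snd_add, Prod.smul_snd, smul_eq_mul]
          field_simp; ring
      have e2 : c - p = (v / (v - u)) • (c - b) := by
        rw [hp]
        ext
        · simp only [Prod.fst_sub, Prod.fst_add, Prod.smul_fst, smul_eq_mul]
          field_simp; ring
        · simp only [Prod.snd_sub, Prod.snd_add, Prod.smul_snd, smul_eq_mul]
          field_simp; ring
      rw [e1, e2, det_smul_smul, det_self, mul_zero]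
    rcases hline p hpa with h | h
    · rwa [h] at hdet
    · exact absurd hdet ((hN p h).det_ne hS hb hc hbc)
  -- all heights are equal
  have hheight : ∀ b ∈ S, ∀ c ∈ S, b ≠ b₀ → c ≠ b₀ → dot a (b - b₀) = dot a (c - b₀) := by
    intro b hb c hc hbne hcne
    by_contra hd
    have hbc := hpair b hb c hc hbne hcne hd
    have hall : ∀ x ∈ S, det (x - b₀) (b - b₀) = 0 := by
      intro x hx
      by_cases hx0 : x = b₀
      · rw [hx0, sub_self]; simp [det]
      · by_cases hxb : dot a (x - b₀) = dot a (b - b₀)
        · have h1 : dot a (x - b₀) ≠ dot a (c - b₀) := by rw [hxb]; exact hd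
          have h2 := hpair x hx c hc hx0 hcne h1
          obtain ⟨k, hk⟩ := exists_smul_of_det (sub_ne_zero.2 hcne) h2
          obtain ⟨k', hk'⟩ := exists_smul_of_det (sub_ne_zero.2 hcne) hbc
          rw [hk, hk', det_smul_smul, det_self, mul_zero]
        · exact hpair x hx b hb hx0 hbne hxb
    have hsub : S ⊆ univ.image fun t : F => b₀ + t • (b - b₀) := by
      intro x hx
      obtain ⟨k, hk⟩ := exists_smul_of_det (sub_ne_zero.2 hbne) (hall x hx)
      exact mem_image.2 ⟨k, mem_univ _, by rw [← hk]; abel⟩
    have h3 := card_le_card hsub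
    have h4 : (univ.image fun t : F => b₀ + t • (b - b₀)).card ≤ Fintype.card F := by
      rw [← card_univ]; exact card_image_le
    omega
  obtain ⟨b₁, hb₁⟩ : (S.erase b₀).Nonempty := card_pos.1 (by
    rw [card_erase_of_mem hb₀, hS]; omega)
  rw [mem_erase] at hb₁
  have himg : S.erase b₀ = univ.image fun t : F => b₁ + t • perp a := by
    apply eq_of_subset_of_card_le
    · intro x hx
      rw [mem_erase] at hx
      have h1 := hheight x hx.2 b₁ hb₁.2 hx.1 hb₁.1
      have h2 : dot a (x - b₁) = 0 := by
        have : x - b₁ = (x - b₀) - (b₁ - b₀) := by abel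
        rw [this, dot_sub_right, h1, sub_self]
      have h3 : det (x - b₁) (perp a) = 0 := by
        simp only [det, perp, dot] at h2 ⊢
        linear_combination h2
      obtain ⟨k, hk⟩ := exists_smul_of_det (perp_ne_zero ha) h3
      exact mem_image.2 ⟨k, mem_univ _, by rw [← hk]; abel⟩
    · rw [card_erase_of_mem hb₀, hS, Nat.add_sub_cancel, ← card_univ]
      exact card_image_le
  refine ⟨b₁, perp a, b₀, perp_ne_zero ha, ?_, ?_⟩
  · intro t h
    have h1 : b₁ + t • perp a ∈ S.erase b₀ := by
      rw [himg]; exact mem_image_of_mem _ (mem_univ _)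
    rw [h] at h1
    exact notMem_erase _ _ h1
  · intro x
    constructor
    · intro hx
      by_cases hx0 : x = b₀
      · exact Or.inr hx0
      · left
        have h1 : x ∈ S.erase b₀ := mem_erase.2 ⟨hx0, hx⟩
        rw [himg] at h1
        obtain ⟨t, _, rfl⟩ := mem_image.1 h1
        exact ⟨t, rfl⟩
    · rintro (⟨t, rfl⟩ | rfl)
      · have h1 : b₁ + t • perp a ∈ S.erase b₀ := by
          rw [himg]; exact mem_image_of_mem _ (mem_univ _)
        exact mem_of_mem_erase h1
      · exact hb₀

end

end Q148.Nuc
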