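import Pool.Agent.Q148.NucExactTwo

/-!
# The tangents and the other lines through a point of the set
-/

set_option linter.unusedSectionVars false
set_option linter.unusedVariables false

namespace Q148.Nuc

open Polynomial Finset

variable {F : Type*} [Field F] [Fintype F] [DecidableEq F]

/-- The polynomial of the projections. -/
noncomputable def Pb (g : F → F × F) (b a : F × F) : F[X] := ∏ w ∈ W g b, (X - C (dot a w))

/-- The coefficient of degree `m`. -/
noncomputable def sig (g : F → F × F) (m : ℕ) (b a : F × F) : F :=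
  (Phi (yb g b a)).coeff (Fintype.card F - m)

theorem Pb_natDegree (g : F → F × F) (b a : F × F) : (Pb g b a).natDegree = (W g b).card :=
  natDegree_finsetProd_X_sub_C_eq_card _ _

theorem Pb_monic (g : F → F × F) (b a : F × F) : (Pb g b a).Monic :=
  monic_prod_of_monic _ _ fun z _ => monic_X_sub_C _

theorem Pb_eval {g : F → F × F} {b a w : F × F} (hw : w ∈ W g b) :
    (Pb g b a).eval (dot a w) = 0 := by
  rw [Pb, eval_prod]
  exact prod_eq_zero hw (by simp)

theorem Pb_form (g : F → F × F) (b : F × F) {i : ℕ} (hi : i ≤ (W g b).card) :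
    Form ((W g b).card - i) (fun a => (Pb g b a).coeff i) := by
  have h1 : Form ((W g b).card - i) (fun a => ∑ t ∈ powersetCard ((W g b).card - i) (W g b),
      ∏ w ∈ t, (- dot a w)) := by
    apply Form.sum
    intro t ht
    rw [← (mem_powersetCard.1 ht).2]
    exact Form.prod _ fun w _ => (Form.lin w).neg
  refine h1.congr fun a => ?_
  have h : Pb g b a = ∏ w ∈ W g b, (X + C (- dot a w)) := by
    refine prod_congr rfl fun z _ => ?_
    rw [C_neg, sub_eq_add_neg]
  rw [h, Finset.prod_X_add_C_coeff _ _ hi]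

theorem Phi_form (g : F → F × F) (b : F × F) {i : ℕ} (hi : i ≤ Fintype.card F) :
    Form (Fintype.card F - i) (fun a => (Phi (yb g b a)).coeff i) := by
  have h1 : Form (Fintype.card F - i) (fun a => ∑ t ∈ powersetCard (Fintype.card F - i)
      (univ : Finset F), ∏ z ∈ t, (- dot a (g z - z • b))) := by
    apply Form.sum
    intro t ht
    rw [← (mem_powersetCard.1 ht).2]
    exact Form.prod _ fun w _ => (Form.lin _).neg
  refine h1.congr fun a => ?_
  rw [Phi_coeff _ hi]
  rfl

/-- The derivative of a product of linear factors at one of the roots. -/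
theorem derivative_prod_eval {ι : Type*} [DecidableEq ι] (s : Finset ι) (r : ι → F) {j : ι}
    (hj : j ∈ s) : (derivative (∏ i ∈ s, (X - C (r i)))).eval (r j) =
      ∏ i ∈ s.erase j, (r j - r i) := by
  rw [derivative_prod_finset, eval_finsetSum, sum_eq_single j]
  · rw [eval_mul, derivative_X_sub_C, eval_one, mul_one, eval_prod]
    simp
  · intro i hi hij
    rw [eval_mul, eval_prod, prod_eq_zero (mem_erase.2 ⟨hij.symm, hj⟩) (by simp), zero_mul]
  · intro h
    exact absurd hj h

/-- The product of the values of a direction on the differences of a projection with the others. -/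
def Fw (g : F → F × F) (b w a : F × F) : F := ∏ w' ∈ (W g b).erase w, dot a (w - w')

theorem derivative_Pb {g : F → F × F} {b a w : F × F} (hw : w ∈ W g b) :
    (derivative (Pb g b a)).eval (dot a w) = Fw g b w a := by
  rw [Pb, derivative_prod_eval _ _ hw, Fw]
  refine prod_congr rfl fun w' _ => ?_
  rw [dot_sub_right]

theorem natDegree_lt_of_coeff {R : F[X]} {n : ℕ} (hn : 1 ≤ n) (h : R.natDegree ≤ n)
    (hc : R.coeff n = 0) : R.natDegree < n := by
  rcases lt_or_eq_of_le h with h1 | h1
  · exact h1
  · exfalso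
    have h2 : R = 0 := by
      rw [← leadingCoeff_eq_zero, leadingCoeff, h1, hc]
    rw [h2, natDegree_zero] at h1
    omega

section

variable {S : Finset (F × F)} {g : F → F × F} (D : Data S g) {m : ℕ} (O : Order g m)

include D O

/-- Two arguments with the same projection from `b`. -/
theorem Data.exists_pair_b {b : F × F} (hb : b ∈ S) : ∃ z z' : F, z ≠ 0 ∧ z' ≠ 0 ∧ z ≠ z' ∧
    g z - z • b = g z' - z' • b := by
  have h1 := D.W_card O hb
  have h2 := D.two_le O
  have h3 := O.lt
  have h4 : (W g b).card < (univ.erase (0 : F)).card := by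
    rw [card_erase_of_mem (mem_univ _), card_univ]
    omega
  obtain ⟨z, hz, z', hz', hne, e⟩ := exists_ne_map_eq_of_card_lt_of_maps_to h4
    (f := fun z => g z - z • b) (fun z hz => mem_image_of_mem _ hz)
  exact ⟨z, z', ne_of_mem_erase hz, ne_of_mem_erase hz', hne, e⟩

theorem Data.Nn_tangent {b : F × F} (hb : b ∈ S) {a w : F × F} (ha : a ≠ 0) (hw : w ∈ W g b)
    (haw : dot a w = 0) : Nn (yb g b a) = C (sig g m b a) * Pb g b a := by
  have h2 := D.two_le O
  have h3 := O.lt
  have hWc := D.W_card O hb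
  have hd1 := Nn_natDegree (by omega) (O.lac_yb b a)
  have hd2 : (C (sig g m b a) * Pb g b a).natDegree ≤ Fintype.card F - m := by
    refine (natDegree_C_mul_le _ _).trans ?_
    rw [Pb_natDegree, hWc]
  have hc : (Nn (yb g b a) - C (sig g m b a) * Pb g b a).coeff (Fintype.card F - m) = 0 := by
    rw [coeff_sub, Nn_coeff (by omega) (by omega), coeff_C_mul]
    have := (Pb_monic g b a).coeff_natDegree
    rw [Pb_natDegree, hWc] at this
    rw [this, mul_one, sig, sub_self]
  have hlt := natDegree_lt_of_coeff (by omega)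
    ((natDegree_sub_le _ _).trans (max_le hd1 hd2)) hc
  have h0 := Polynomial.eq_zero_of_natDegree_lt_card_of_eval_eq_zero'
    (Nn (yb g b a) - C (sig g m b a) * Pb g b a) (im (yb g b a)) (by
      intro x hx
      rw [eval_sub, Nn_eval_im x hx, eval_mul]
      rw [D.im_yb, mem_insert] at hx
      have : (Pb g b a).eval x = 0 := by
        rcases hx with rfl | hx
        · have h5 := Pb_eval (g := g) (b := b) (a := a) hw
          rwa [haw] at h5
        · obtain ⟨w', hw', rfl⟩ := mem_image.1 hx
          exact Pb_eval hw'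
      rw [this, mul_zero, sub_zero]) (by
      rw [D.im_card_tangent hb ha hw haw, hWc]
      exact hlt)
  exact sub_eq_zero.1 h0

theorem Data.sig_tangent {b : F × F} (hb : b ∈ S) {a w : F × F} (ha : a ≠ 0) (hw : w ∈ W g b)
    (haw : dot a w = 0) : sig g m b a ≠ 0 := by
  intro h0
  have h1 := D.Nn_tangent O hb ha hw haw
  rw [h0, C_0, zero_mul] at h1
  obtain ⟨z, hz, e⟩ := mem_W.1 hw
  refine Nn_ne_zero_of_pair hz ?_ h1
  rw [D.yb_zero, yb, e, haw]

/-- The tangent directions. -/
theorem Data.tangents {b : F × F} (hb : b ∈ S) :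
    ((W g b).image perp).card = Fintype.card F - m ∧
    (∀ a ∈ (W g b).image perp, a ≠ 0 ∧ ∃ w ∈ W g b, dot a w = 0) ∧
    (∀ z ∈ (W g b).image perp, ∀ w ∈ (W g b).image perp, z ≠ w → det z w ≠ 0) := by
  refine ⟨?_, ?_, ?_⟩
  · rw [card_image_of_injective, D.W_card O hb]
    intro u v huv
    have h1 := Prod.mk.inj huv
    exact Prod.ext h1.2 (neg_injective h1.1)
  · intro a ha
    obtain ⟨w, hw, rfl⟩ := mem_image.1 ha
    exact ⟨perp_ne_zero (D.W_ne_zero hb hw), w, hw, by rw [dot_perp, det_self]⟩
  · intro z hz z' hz' hne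
    obtain ⟨w, hw, rfl⟩ := mem_image.1 hz
    obtain ⟨w', hw', rfl⟩ := mem_image.1 hz'
    rw [det_perp]
    exact D.W_det hb hw hw' fun e => hne (by rw [e])

/-- The upper coefficients, for all directions. -/
theorem Data.coeff_eq {b : F × F} (hb : b ∈ S) (a : F × F) {i : ℕ} (hi : m < i)
    (hiq : i < Fintype.card F) :
    (Phi (yb g b a)).coeff i = sig g m b a * (Pb g b a).coeff i := by
  have h2 := D.two_le O
  have h3 := O.lt
  have h4 := D.two_mul_lt O
  have hWc := D.W_card O hb
  by_cases him : i ≤ Fintype.card F - m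
  · have hf1 := Phi_form g b (i := i) hiq.le
    have hf2 : Form (Fintype.card F - i) (fun a => sig g m b a * (Pb g b a).coeff i) := by
      have h5 := (Phi_form g b (i := Fintype.card F - m) (by omega)).mul
        (Pb_form g b (i := i) (by omega))
      rw [hWc, show Fintype.card F - (Fintype.card F - m) + (Fintype.card F - m - i) =
        Fintype.card F - i by omega] at h5
      exact h5
    obtain ⟨t1, t2, t3⟩ := D.tangents O hb
    have := (hf1.sub hf2).eq_zero (by omega) ((W g b).image perp) (by omega) (by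
      intro x hx
      obtain ⟨hx0, w, hw, hxw⟩ := t2 x hx
      have h6 := D.Nn_tangent O hb hx0 hw hxw
      have h7 := congrArg (fun P => P.coeff i) h6
      simp only [coeff_C_mul] at h7
      rw [Nn_coeff (by omega) hiq] at h7
      rw [h7, sub_self]) t3 a
    exact sub_eq_zero.1 this
  · rw [O.lac_yb b a i (by omega) hiq,
      coeff_eq_zero_of_natDegree_lt (by rw [Pb_natDegree, hWc]; omega), mul_zero]

/-- The values of a nontangent direction. -/
theorem Data.nontangent {b : F × F} (hb : b ∈ S) {a : F × F}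
    (hn : ∀ w ∈ W g b, dot a w ≠ 0) :
    (im (yb g b a)).card = m + 1 ∧ sig g m b a ≠ 0 ∧ ∃ κ : F, κ ≠ 0 ∧
      Nn (yb g b a) - C (sig g m b a) * Pb g b a =
        C κ * ∏ τ ∈ (im (yb g b a)).erase 0, (X - C τ) := by
  have h2 := D.two_le O
  have h3 := O.lt
  have h4 := D.two_mul_lt O
  have hWc := D.W_card O hb
  have hmany := D.many_values O hn
  set y := yb g b a with hy
  set Y := Nn y - C (sig g m b a) * Pb g b a with hY
  have hYd : Y.natDegree ≤ m := by
    rw [natDegree_le_iff_coeff_eq_zero]
    intro i hi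
    rw [hY, coeff_sub, coeff_C_mul]
    by_cases h5 : i < Fintype.card F
    · rw [Nn_coeff (by omega) h5, hy, D.coeff_eq O hb a hi h5, sub_self]
    · rw [Nn_coeff_ge (by omega),
        coeff_eq_zero_of_natDegree_lt (by rw [Pb_natDegree, hWc]; omega)]
      ring
  have hYe : ∀ x ∈ (im y).erase 0, Y.eval x = 0 := by
    intro x hx
    rw [mem_erase] at hx
    rw [hY, eval_sub, Nn_eval_im x hx.2, eval_mul]
    have h6 := hx.2
    rw [hy, D.im_yb, mem_insert] at h6
    obtain ⟨w', hw', rfl⟩ := mem_image.1 (h6.resolve_left hx.1)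
    rw [Pb_eval hw', mul_zero, sub_zero]
  have hN0 : Nn y ≠ 0 := by
    obtain ⟨z, z', hz, hz', hzz, e⟩ := D.exists_pair_b O hb
    apply Nn_ne_zero_of_pair hzz
    rw [hy, yb, yb, e]
  have hsig : sig g m b a ≠ 0 := by
    intro h0
    have h5 : Y = Nn y := by rw [hY, h0, C_0, zero_mul, sub_zero]
    rw [h5] at hYd
    have := card_le_natDegree hN0 (im y) Nn_eval_im
    omega
  have hY0 : Y.eval 0 ≠ 0 := by
    have h5 : (Nn y).eval 0 = 0 := by
      have := Nn_eval y 0
      rwa [hy, D.yb_zero] at this
    rw [hY, eval_sub, h5, eval_mul, eval_C, zero_sub, neg_ne_zero]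
    apply mul_ne_zero hsig
    rw [Pb, eval_prod, prod_ne_zero_iff]
    intro w hw
    rw [eval_sub, eval_X, eval_C, zero_sub, neg_ne_zero]
    exact hn w hw
  have hYne : Y ≠ 0 := by
    intro h; rw [h, eval_zero] at hY0; exact hY0 rfl
  have hcard := card_le_natDegree hYne _ hYe
  have h0m : (0 : F) ∈ im y := D.zero_mem_im b a
  rw [card_erase_of_mem h0m] at hcard
  have hc : (im y).card = m + 1 := by omega
  refine ⟨hc, hsig, Y.coeff m, ?_, ?_⟩
  · intro h
    have h5 := natDegree_lt_of_coeff (by omega) hYd h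
    omega
  · have hce : ((im y).erase 0).card = m := by rw [card_erase_of_mem h0m, hc]; omega
    have hd2 : (C (Y.coeff m) * ∏ τ ∈ (im y).erase 0, (X - C τ)).natDegree ≤ m := by
      refine (natDegree_C_mul_le _ _).trans ?_
      rw [natDegree_finsetProd_X_sub_C_eq_card, hce]
    have hmon : (∏ τ ∈ (im y).erase 0, (X - C τ)).coeff m = 1 := by
      have h6 : (∏ τ ∈ (im y).erase 0, (X - C τ)).Monic :=
        monic_prod_of_monic _ _ fun z _ => monic_X_sub_C _
      have h7 := h6.coeff_natDegree
      rwa [natDegree_finsetProd_X_sub_C_eq_card, hce] at h7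
    have hlt := natDegree_lt_of_coeff (by omega)
      ((natDegree_sub_le _ _).trans (max_le hYd hd2))
      (show (Y - C (Y.coeff m) * ∏ τ ∈ (im y).erase 0, (X - C τ)).coeff m = 0 by
        rw [coeff_sub, coeff_C_mul, hmon, mul_one, sub_self])
    have h0 := Polynomial.eq_zero_of_natDegree_lt_card_of_eval_eq_zero'
      (Y - C (Y.coeff m) * ∏ τ ∈ (im y).erase 0, (X - C τ)) ((im y).erase 0) (by
        intro x hx
        rw [eval_sub, hYe x hx, eval_mul, eval_prod, prod_eq_zero hx (by simp)]
        ring) (by rw [hce]; exact hlt)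
    exact sub_eq_zero.1 h0

/-- The number `m` is not divisible by the characteristic. -/
theorem Data.m_ne_zero : (m : F) ≠ 0 := by
  have h2 := D.two_le O
  have h3 := O.lt
  obtain ⟨b, hb⟩ : S.Nonempty := card_pos.1 (by rw [D.card]; omega)
  obtain ⟨w, hw⟩ := D.W_nonempty b
  obtain ⟨w', hw', hne⟩ := D.exists_ne hb hw
  have hn := D.nontangent_of_ne O hb hw' hw hne
  obtain ⟨hc, hs, -⟩ := D.nontangent O hb hn
  have h5 := Jp_coeff O.pos (by omega) (O.lac_yb b _) (D.zero_mem_im b _) (D.cnt_zero hn) hc
  have h6 := Jp_const (by omega) (O.lac_yb b _) (D.zero_mem_im b _) (D.cnt_zero hn) hc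
  intro h0
  rw [h0, neg_zero, zero_mul] at h5
  rw [h5, C_0] at h6
  exact Jp_ne_zero (D.zero_mem_im b _) (D.cnt_zero hn) h6

end

end Q148.Nuc
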