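import Pool.Agent.Q148.NucForms

/-!
# The polynomial with the values of a function as roots

For a function `y` on a finite field with `q` elements let `Phi y` be the product of `X - y z`.
If the coefficients of `X ^ i`, `q - m < i < q`, vanish, the function has few values, or many.
-/

set_option linter.unusedSectionVars false
set_option linter.unusedVariables false

namespace Q148.Nuc

open Polynomial Finset

variable {F : Type*} [Field F] [Fintype F] [DecidableEq F]

/-- The product of `X - y z` over all `z`. -/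
noncomputable def Phi (y : F → F) : F[X] := ∏ z, (X - C (y z))

/-- The set of values. -/
def im (y : F → F) : Finset F := univ.image y

/-- The multiplicity of a value. -/
def cnt (y : F → F) (τ : F) : ℕ := (univ.filter fun z => y z = τ).card

theorem mem_im (y : F → F) (z : F) : y z ∈ im y := mem_image_of_mem _ (mem_univ _)

theorem Phi_monic (y : F → F) : (Phi y).Monic :=
  monic_prod_of_monic _ _ fun z _ => monic_X_sub_C _

theorem Phi_natDegree (y : F → F) : (Phi y).natDegree = Fintype.card F := by
  rw [Phi, natDegree_finsetProd_X_sub_C_eq_card, card_univ]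

theorem Phi_coeff (y : F → F) {i : ℕ} (hi : i ≤ Fintype.card F) :
    (Phi y).coeff i = ∑ t ∈ powersetCard (Fintype.card F - i) univ, ∏ z ∈ t, (- y z) := by
  have h : Phi y = ∏ z, (X + C (- y z)) := by
    refine prod_congr rfl fun z _ => ?_
    rw [C_neg, sub_eq_add_neg]
  rw [h, Finset.prod_X_add_C_coeff _ _ (by rw [card_univ]; exact hi), card_univ]

theorem Phi_eval (y : F → F) (z : F) : (Phi y).eval (y z) = 0 := by
  rw [Phi, eval_prod]
  exact prod_eq_zero (mem_univ z) (by simp)

theorem Phi_of_injective (y : F → F) (hy : Function.Injective y) :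
    Phi y = X ^ Fintype.card F - X := by
  have h1 : (X ^ Fintype.card F - X : F[X]) = ∏ z : F, (X - C z) := by
    have h2 := FiniteField.roots_X_pow_card_sub_X F
    have h3 : (X ^ Fintype.card F - X : F[X]).natDegree = Fintype.card F :=
      FiniteField.X_pow_card_sub_X_natDegree_eq F Fintype.one_lt_card
    have h4 : (X ^ Fintype.card F - X : F[X]).Monic := by
      apply monic_X_pow_sub
      rw [degree_X]
      exact_mod_cast Fintype.one_lt_card
    rw [← prod_multiset_X_sub_C_of_monic_of_roots_card_eq h4 (by rw [h2, h3]; rfl), h2]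
    rfl
  rw [h1, Phi]
  exact Function.Bijective.prod_comp (Finite.injective_iff_bijective.1 hy) (fun z => X - C z)

theorem Phi_eq (y : F → F) : Phi y = ∏ τ ∈ im y, (X - C τ) ^ cnt y τ := by
  rw [Phi, im]
  exact Finset.prod_comp (fun τ => X - C τ) y

theorem cnt_pos {y : F → F} {τ : F} (h : τ ∈ im y) : 1 ≤ cnt y τ := by
  obtain ⟨z, _, rfl⟩ := mem_image.1 h
  exact card_pos.2 ⟨z, by simp⟩

theorem sum_cnt (y : F → F) : ∑ τ ∈ im y, cnt y τ = Fintype.card F := by
  rw [← card_univ]
  exact (card_eq_sum_card_image y univ).symm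

/-- The repeated part of `Phi y`. -/
noncomputable def kap (y : F → F) : F[X] := ∏ τ ∈ im y, (X - C τ) ^ (cnt y τ - 1)

/-- The complementary factor of the derivative. -/
noncomputable def Jp (y : F → F) : F[X] :=
  ∑ τ ∈ im y, C (cnt y τ : F) * ∏ σ ∈ (im y).erase τ, (X - C σ)

theorem kap_monic (y : F → F) : (kap y).Monic :=
  monic_prod_of_monic _ _ fun z _ => (monic_X_sub_C _).pow _

theorem kap_natDegree (y : F → F) : (kap y).natDegree + (im y).card = Fintype.card F := by
  rw [kap, natDegree_prod_of_monic _ _ fun z _ => (monic_X_sub_C _).pow _]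
  have : ∀ τ ∈ im y, ((X - C τ) ^ (cnt y τ - 1) : F[X]).natDegree = cnt y τ - 1 := by
    intro τ _
    rw [natDegree_pow, natDegree_X_sub_C, mul_one]
  rw [sum_congr rfl this, card_eq_sum_ones, ← sum_add_distrib, ← sum_cnt y]
  refine sum_congr rfl fun τ hτ => ?_
  have := cnt_pos hτ
  omega

theorem derivative_Phi (y : F → F) : derivative (Phi y) = kap y * Jp y := by
  rw [Phi_eq, derivative_prod_finset, kap, Jp, mul_sum]
  refine sum_congr rfl fun τ hτ => ?_
  rw [derivative_X_sub_C_pow]
  rw [← mul_prod_erase (im y) (fun τ => (X - C τ) ^ (cnt y τ - 1)) hτ]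
  have : ∏ σ ∈ (im y).erase τ, ((X - C σ) ^ cnt y σ : F[X]) =
      (∏ σ ∈ (im y).erase τ, (X - C σ) ^ (cnt y σ - 1)) * ∏ σ ∈ (im y).erase τ, (X - C σ) := by
    rw [← prod_mul_distrib]
    refine prod_congr rfl fun σ hσ => ?_
    rw [← pow_succ]
    congr 1
    have := cnt_pos (mem_of_mem_erase hσ)
    omega
  rw [this]
  ring

theorem Jp_eval (y : F → F) {τ : F} (hτ : τ ∈ im y) :
    (Jp y).eval τ = (cnt y τ : F) * ∏ σ ∈ (im y).erase τ, (τ - σ) := by
  rw [Jp, eval_finsetSum, sum_eq_single τ]
  · rw [eval_mul, eval_C, eval_prod]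
    simp
  · intro σ hσ hne
    rw [eval_mul, eval_prod]
    rw [prod_eq_zero (i := τ) (mem_erase.2 ⟨hne.symm, hτ⟩) (by simp), mul_zero]
  · intro h
    exact absurd hτ h

/-- The coefficients of `X ^ i` for `q - m < i < q` vanish. -/
def Lac (m : ℕ) (y : F → F) : Prop :=
  ∀ i, Fintype.card F - m < i → i < Fintype.card F → (Phi y).coeff i = 0

theorem card_cast : ((Fintype.card F : ℕ) : F) = 0 := FiniteField.cast_card_eq_zero F

theorem coeff_derivative_zero {m : ℕ} {y : F → F} (h : Lac m y) {i : ℕ}
    (hi : Fintype.card F - m < i + 1) : (derivative (Phi y)).coeff i = 0 := by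
  rw [coeff_derivative]
  by_cases h1 : i + 1 < Fintype.card F
  · rw [h _ hi h1, zero_mul]
  · by_cases h2 : i + 1 = Fintype.card F
    · have : ((i : F) + 1) = 0 := by
        have := card_cast (F := F)
        rw [← h2] at this
        exact_mod_cast this
      rw [this, mul_zero]
    · rw [coeff_eq_zero_of_natDegree_lt (by rw [Phi_natDegree]; omega), zero_mul]

theorem natDegree_derivative {m : ℕ} {y : F → F} (h : Lac m y) :
    (derivative (Phi y)).natDegree ≤ Fintype.card F - m - 1 := by
  rw [natDegree_le_iff_coeff_eq_zero]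
  intro i hi
  exact coeff_derivative_zero h (by omega)

/-- A value taken once. -/
theorem Jp_ne_zero {y : F → F} {τ : F} (hτ : τ ∈ im y) (h1 : cnt y τ = 1) : Jp y ≠ 0 := by
  intro h
  have := Jp_eval y hτ
  rw [h, eval_zero, h1, Nat.cast_one, one_mul] at this
  obtain ⟨σ, hσ, h2⟩ := prod_eq_zero_iff.1 this.symm
  exact (mem_erase.1 hσ).1 (sub_eq_zero.1 h2).symm

/-- Many values. -/
theorem many_values {m : ℕ} (hm : m < Fintype.card F) {y : F → F} (h : Lac m y) {τ : F}
    (hτ : τ ∈ im y) (h1 : cnt y τ = 1) : m + 1 ≤ (im y).card := by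
  have hJ := Jp_ne_zero hτ h1
  have h2 := natDegree_derivative h
  rw [derivative_Phi, (kap_monic y).natDegree_mul' hJ] at h2
  have h3 := kap_natDegree y
  omega

theorem Jp_const {m : ℕ} (hm : m < Fintype.card F) {y : F → F} (h : Lac m y) {τ : F}
    (hτ : τ ∈ im y) (h1 : cnt y τ = 1) (hc : (im y).card = m + 1) :
    Jp y = C ((Jp y).coeff 0) := by
  have hJ := Jp_ne_zero hτ h1
  have h2 := natDegree_derivative h
  rw [derivative_Phi, (kap_monic y).natDegree_mul' hJ] at h2
  have h3 := kap_natDegree y
  exact eq_C_of_natDegree_le_zero (by omega)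

/-- The leading coefficient of the derivative. -/
theorem Jp_coeff {m : ℕ} (hm0 : 1 ≤ m) (hm : m < Fintype.card F) {y : F → F} (h : Lac m y)
    {τ : F} (hτ : τ ∈ im y) (h1 : cnt y τ = 1) (hc : (im y).card = m + 1) :
    (Jp y).coeff 0 = - (m : F) * (Phi y).coeff (Fintype.card F - m) := by
  have hJ := Jp_const hm h hτ h1 hc
  have h3 := kap_natDegree y
  have h4 : (derivative (Phi y)).coeff (Fintype.card F - m - 1) = (Jp y).coeff 0 := by
    rw [derivative_Phi, hJ, coeff_mul_C, coeff_C_zero]
    have : Fintype.card F - m - 1 = (kap y).natDegree := by omega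
    rw [this, (kap_monic y).coeff_natDegree, one_mul]
  rw [← h4, coeff_derivative]
  have h5 : Fintype.card F - m - 1 + 1 = Fintype.card F - m := by omega
  rw [h5]
  have h6 : ((Fintype.card F - m - 1 : ℕ) : F) + 1 = - (m : F) := by
    have : ((Fintype.card F - m - 1 + 1 + m : ℕ) : F) = 0 := by
      rw [show Fintype.card F - m - 1 + 1 + m = Fintype.card F by omega]
      exact card_cast
    push_cast at this
    linear_combination this
  rw [h6]; ring

theorem value_relation {m : ℕ} (hm : m < Fintype.card F) {y : F → F} (h : Lac m y) {τ : F}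
    (hτ : τ ∈ im y) (h1 : cnt y τ = 1) (hc : (im y).card = m + 1) {σ : F} (hσ : σ ∈ im y) :
    (cnt y σ : F) * ∏ ρ ∈ (im y).erase σ, (σ - ρ) = (Jp y).coeff 0 := by
  rw [← Jp_eval y hσ, Jp_const hm h hτ h1 hc, eval_C, coeff_C_zero]

/-- `Phi y` minus `X ^ q - X`. -/
noncomputable def Nn (y : F → F) : F[X] := Phi y - (X ^ Fintype.card F - X)

theorem Nn_eval (y : F → F) (z : F) : (Nn y).eval (y z) = 0 := by
  rw [Nn, eval_sub, Phi_eval, eval_sub, eval_pow, eval_X, FiniteField.pow_card]
  ring

theorem Nn_coeff {y : F → F} {i : ℕ} (h2 : 2 ≤ i) (hi : i < Fintype.card F) :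
    (Nn y).coeff i = (Phi y).coeff i := by
  rw [Nn, coeff_sub, coeff_sub, coeff_X_pow, coeff_X, if_neg (by omega), if_neg (by omega)]
  ring

theorem Nn_coeff_ge {y : F → F} {i : ℕ} (hi : Fintype.card F ≤ i) : (Nn y).coeff i = 0 := by
  have hq : 1 < Fintype.card F := Fintype.one_lt_card
  rw [Nn, coeff_sub, coeff_sub, coeff_X_pow, coeff_X, if_neg (show ¬ 1 = i by omega)]
  by_cases h : i = Fintype.card F
  · rw [if_pos h, h]
    have := (Phi_monic y).coeff_natDegree
    rw [Phi_natDegree] at this
    rw [this]; ring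
  · rw [if_neg h, coeff_eq_zero_of_natDegree_lt (by rw [Phi_natDegree]; omega)]
    ring

theorem Nn_coeff_one {y : F → F} : (Nn y).coeff 1 = (Phi y).coeff 1 + 1 := by
  have hq : 1 < Fintype.card F := Fintype.one_lt_card
  rw [Nn, coeff_sub, coeff_sub, coeff_X_pow, coeff_X, if_neg (by omega), if_pos rfl]
  ring

theorem Nn_natDegree {m : ℕ} (hm : m < Fintype.card F) {y : F → F} (h : Lac m y) :
    (Nn y).natDegree ≤ Fintype.card F - m := by
  rw [natDegree_le_iff_coeff_eq_zero]
  intro i hi
  by_cases h1 : i < Fintype.card F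
  · rw [Nn_coeff (by omega) h1]
    exact h i (by omega) h1
  · exact Nn_coeff_ge (by omega)

theorem derivative_Nn (y : F → F) : derivative (Nn y) = derivative (Phi y) + 1 := by
  rw [Nn, derivative_sub, derivative_sub, derivative_X, derivative_X_pow, card_cast]
  simp

/-- At a value taken at least twice the derivative of `Phi y` vanishes. -/
theorem derivative_Phi_eval {y : F → F} {z w : F} (hzw : z ≠ w) (h : y z = y w) :
    (derivative (Phi y)).eval (y z) = 0 := by
  rw [derivative_Phi, eval_mul, kap, eval_prod]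
  rw [prod_eq_zero (i := y z) (mem_im y z), zero_mul]
  have : 1 < cnt y (y z) := by
    rw [cnt, one_lt_card]
    exact ⟨z, by simp, w, by simp [h], hzw⟩
  rw [eval_pow]
  simp [show cnt y (y z) - 1 ≠ 0 by omega]

end Q148.Nuc
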