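import Mathlib

set_option autoImplicit false

/-!
A seven-point configuration, integer edge weights, and a checked certificate: every pairwise
noncrossing set of edges admits vertex potentials of small total dominating the weights.
-/

namespace Q148.PC

/-- x-coordinates of the seven points -/
def X : List ℤ := [12, 8, 9, 5, 6, 11, 0]
/-- y-coordinates of the seven points -/
def Y : List ℤ := [7, 11, 9, 3, 5, 2, 12]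

def px (i : Fin 7) : ℤ := X.getD i 0
def py (i : Fin 7) : ℤ := Y.getD i 0

/-- orientation determinant -/
def ori (i j k : Fin 7) : ℤ := (px j - px i) * (py k - py i) - (py j - py i) * (px k - px i)

/-- proper crossing of the segments `ij` and `kl` -/
def crossing (i j k l : Fin 7) : Bool :=
  decide (ori i j k * ori i j l < 0) && decide (ori k l i * ori k l j < 0)

def W : List (List ℕ) :=
  [[0, 1, 1, 3, 2, 1, 4],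
   [1, 0, 0, 3, 2, 3, 1],
   [1, 0, 0, 2, 1, 2, 2],
   [3, 3, 2, 0, 0, 1, 1],
   [2, 2, 1, 0, 0, 1, 1],
   [1, 3, 2, 1, 1, 0, 4],
   [4, 1, 2, 1, 1, 4, 0]]

def w (i j : Fin 7) : ℕ := (W.getD i []).getD j 0

inductive Cert : Type
  | leaf (y : List ℕ) : Cert
  | node (i j k l : Fin 7) (a b : Cert) : Cert

/-- `excl` is the list of excluded edges -/
def check : List (Fin 7 × Fin 7) → Cert → Bool
  | excl, .leaf y => decide ((∑ i : Fin 7, y.getD i 0) ≤ 10) &&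
      (List.finRange 7).all fun i => (List.finRange 7).all fun j =>
        decide ((i, j) ∈ excl) || decide ((j, i) ∈ excl) ||
          decide (2 * w i j ≤ y.getD i 0 + y.getD j 0)
  | excl, .node i j k l a b => crossing i j k l && check ((i, j) :: excl) a &&
      check ((k, l) :: excl) b

theorem check_sound (S : Fin 7 → Fin 7 → Prop) (hsymm : ∀ i j, S i j → S j i)
    (hS : ∀ i j k l, crossing i j k l = true → S i j → S k l → False) (c : Cert) :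
    ∀ excl : List (Fin 7 × Fin 7), (∀ e ∈ excl, ¬ S e.1 e.2) → check excl c = true →
    ∃ y : Fin 7 → ℕ, ∑ i, y i ≤ 10 ∧ ∀ i j, S i j → 2 * w i j ≤ y i + y j := by
  induction c with
  | leaf y =>
    intro excl he hc
    simp only [check, Bool.and_eq_true, decide_eq_true_eq, List.all_eq_true, List.mem_finRange,
      forall_true_left, Bool.or_eq_true] at hc
    refine ⟨fun i => y.getD i 0, hc.1, fun i j hij => ?_⟩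
    rcases hc.2 i j with (h | h) | h
    · exact absurd hij (he _ h)
    · exact absurd (hsymm i j hij) (he _ h)
    · exact h
  | node i j k l a b iha ihb =>
    intro excl he hc
    simp only [check, Bool.and_eq_true] at hc
    obtain ⟨⟨h1, h2⟩, h3⟩ := hc
    by_cases hij : S i j
    · refine ihb ((k, l) :: excl) ?_ h3
      intro e hmem
      rcases List.mem_cons.mp hmem with rfl | hmem
      · exact fun hkl => hS i j k l h1 hij hkl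
      · exact he e hmem
    · refine iha ((i, j) :: excl) ?_ h2
      intro e hmem
      rcases List.mem_cons.mp hmem with rfl | hmem
      · exact hij
      · exact he e hmem

def cert : Cert :=
    (.node 0 4 5 6 (.node 0 3 5 6 (.node 0 6 1 5 (.node 1 3 5 6 (.node 1 4 5 6 (.node 2 3 5 6
    (.node 2 4 5 6 (.node 1 5 2 6 (.leaf [2, 0, 0, 0, 0, 4, 4]) (.leaf [2, 0, 0, 0, 0, 6, 2]))
    (.leaf [0, 2, 2, 0, 0, 4, 2])) (.node 1 5 2 3 (.leaf [1, 1, 3, 1, 1, 1, 1]) (.leaf [0, 2, 2, 0,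
    0, 4, 2]))) (.node 1 5 2 3 (.node 1 4 2 6 (.leaf [1, 1, 3, 1, 1, 1, 1]) (.leaf [0, 2, 2, 2, 2,
    2, 0])) (.leaf [0, 4, 2, 0, 0, 2, 2]))) (.node 1 3 2 6 (.node 1 5 2 3 (.node 1 4 2 6 (.leaf [1,
    1, 3, 1, 1, 1, 1]) (.leaf [0, 2, 2, 2, 2, 2, 0])) (.leaf [0, 4, 2, 0, 0, 2, 2])) (.node 1 3 4 6
    (.node 1 5 2 3 (.leaf [0, 2, 2, 2, 2, 2, 0]) (.leaf [0, 4, 2, 0, 0, 2, 2])) (.leaf [0, 4, 2, 2,
    0, 2, 0])))) (.node 0 6 1 3 (.node 1 3 5 6 (.node 1 4 5 6 (.node 2 3 5 6 (.node 2 4 5 6 (.leaf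
    [2, 0, 0, 0, 0, 4, 4]) (.leaf [0, 2, 2, 0, 0, 2, 2])) (.leaf [1, 1, 3, 1, 1, 1, 1])) (.node 1 4
    2 6 (.leaf [1, 1, 3, 1, 1, 1, 1]) (.leaf [0, 2, 2, 2, 2, 2, 0]))) (.node 1 3 2 6 (.node 1 4 2 6
    (.leaf [1, 1, 3, 1, 1, 1, 1]) (.leaf [0, 2, 2, 2, 2, 2, 0])) (.node 1 3 4 6 (.leaf [0, 2, 2, 2,
    2, 2, 0]) (.leaf [0, 4, 2, 2, 0, 2, 0])))) (.node 0 6 1 4 (.node 1 4 5 6 (.node 2 3 5 6 (.node
    2 4 5 6 (.leaf [2, 0, 0, 0, 0, 4, 4]) (.leaf [0, 2, 2, 0, 0, 2, 2])) (.leaf [1, 1, 3, 1, 1, 1,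
    1])) (.node 1 4 2 6 (.leaf [1, 1, 3, 1, 1, 1, 1]) (.leaf [0, 2, 2, 2, 2, 2, 0]))) (.node 0 6 2
    3 (.node 2 3 5 6 (.node 2 4 5 6 (.leaf [2, 0, 0, 0, 0, 4, 4]) (.leaf [0, 2, 2, 0, 0, 2, 2]))
    (.leaf [1, 1, 3, 1, 1, 1, 1])) (.node 0 6 2 5 (.node 2 4 5 6 (.leaf [2, 0, 0, 0, 0, 4, 4])
    (.leaf [0, 2, 2, 0, 0, 2, 2])) (.node 0 6 2 4 (.node 2 4 5 6 (.leaf [2, 0, 0, 0, 0, 2, 6])
    (.leaf [0, 2, 2, 0, 0, 2, 2])) (.leaf [2, 0, 0, 0, 0, 2, 6]))))))) (.node 0 6 1 5 (.node 0 3 1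
    5 (.node 1 3 2 6 (.node 1 5 2 3 (.node 1 4 2 6 (.leaf [1, 1, 3, 1, 1, 1, 1]) (.leaf [0, 2, 2,
    2, 2, 2, 0])) (.leaf [0, 4, 2, 0, 0, 2, 2])) (.node 1 3 4 6 (.node 1 5 2 3 (.leaf [0, 2, 2, 2,
    2, 2, 0]) (.leaf [0, 4, 2, 0, 0, 2, 2])) (.leaf [0, 4, 2, 2, 0, 2, 0]))) (.node 0 3 2 5 (.node
    1 3 2 6 (.node 1 4 2 6 (.leaf [1, 1, 3, 1, 1, 1, 1]) (.leaf [0, 2, 2, 2, 2, 2, 0])) (.node 1 3
    4 6 (.leaf [0, 2, 2, 2, 2, 2, 0]) (.leaf [0, 4, 2, 2, 0, 2, 0]))) (.node 1 4 2 6 (.node 1 3 2 6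
    (.node 0 3 4 5 (.leaf [1, 1, 3, 1, 1, 1, 1]) (.leaf [2, 0, 2, 4, 0, 0, 2])) (.leaf [2, 2, 0, 4,
    2, 0, 0])) (.leaf [2, 2, 0, 4, 2, 0, 0])))) (.node 0 6 2 5 (.node 0 3 2 5 (.node 1 3 2 6 (.node
    1 4 2 6 (.leaf [1, 1, 3, 1, 1, 1, 1]) (.leaf [0, 2, 2, 2, 2, 2, 0])) (.node 1 3 4 6 (.leaf [0,
    2, 2, 2, 2, 2, 0]) (.leaf [0, 4, 2, 2, 0, 2, 0]))) (.node 1 4 2 6 (.node 1 3 2 6 (.node 0 3 4 5
    (.leaf [1, 1, 3, 1, 1, 1, 1]) (.leaf [2, 0, 2, 4, 0, 0, 2])) (.leaf [2, 2, 0, 4, 2, 0, 0]))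
    (.leaf [2, 2, 0, 4, 2, 0, 0]))) (.node 0 6 1 4 (.node 1 4 2 6 (.node 1 3 2 6 (.node 0 3 4 5
    (.leaf [1, 1, 3, 1, 1, 1, 1]) (.leaf [2, 0, 2, 4, 0, 0, 2])) (.leaf [2, 2, 0, 4, 2, 0, 0]))
    (.leaf [2, 2, 0, 4, 2, 0, 0])) (.node 0 6 1 3 (.node 1 3 2 6 (.node 0 3 4 5 (.leaf [1, 1, 3, 1,
    1, 1, 1]) (.leaf [2, 0, 2, 4, 0, 0, 2])) (.leaf [2, 2, 0, 4, 2, 0, 0])) (.node 0 6 2 3 (.node 0
    3 4 5 (.leaf [1, 1, 3, 1, 1, 1, 1]) (.leaf [2, 0, 2, 4, 0, 0, 2])) (.node 0 6 2 4 (.node 0 3 4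
    5 (.leaf [0, 2, 2, 0, 0, 2, 2]) (.leaf [2, 0, 2, 4, 0, 0, 2])) (.node 0 3 4 5 (.leaf [2, 0, 0,
    0, 0, 2, 6]) (.leaf [4, 0, 0, 2, 0, 0, 4]))))))))) (.node 0 6 1 5 (.node 1 5 2 6 (.node 0 4 2 5
    (.node 0 3 2 5 (.node 1 3 2 6 (.node 1 4 2 6 (.leaf [1, 1, 3, 1, 1, 1, 1]) (.leaf [0, 2, 2, 2,
    2, 2, 0])) (.node 1 3 4 6 (.leaf [0, 2, 2, 2, 2, 2, 0]) (.leaf [0, 4, 2, 2, 0, 2, 0]))) (.node
    1 4 2 6 (.node 1 3 2 6 (.node 0 3 4 5 (.leaf [1, 1, 3, 1, 1, 1, 1]) (.leaf [2, 0, 2, 4, 0, 0,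
    2])) (.leaf [2, 2, 0, 4, 2, 0, 0])) (.leaf [2, 2, 0, 4, 2, 0, 0]))) (.node 1 3 2 6 (.node 1 4 2
    6 (.node 0 3 4 5 (.leaf [2, 0, 2, 2, 2, 0, 2]) (.leaf [4, 0, 2, 2, 0, 0, 2])) (.leaf [2, 2, 0,
    4, 2, 0, 0])) (.leaf [2, 2, 0, 4, 2, 0, 0]))) (.node 0 4 1 5 (.node 0 3 1 5 (.node 1 3 4 6
    (.node 1 5 2 3 (.leaf [0, 2, 2, 2, 2, 2, 0]) (.leaf [0, 4, 2, 0, 0, 2, 2])) (.leaf [0, 4, 2, 2,
    0, 2, 0])) (.node 0 3 2 5 (.node 1 3 4 6 (.leaf [0, 2, 2, 2, 2, 2, 0]) (.leaf [0, 4, 2, 2, 0,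
    2, 0])) (.leaf [2, 2, 0, 4, 2, 0, 0]))) (.node 0 4 2 5 (.node 0 3 2 5 (.node 1 3 4 6 (.leaf [0,
    2, 2, 2, 2, 2, 0]) (.leaf [0, 4, 2, 2, 0, 2, 0])) (.leaf [2, 2, 0, 4, 2, 0, 0])) (.leaf [2, 2,
    0, 4, 2, 0, 0])))) (.node 0 6 2 5 (.node 0 4 2 5 (.node 0 3 2 5 (.node 1 3 2 6 (.node 1 4 2 6
    (.leaf [1, 1, 3, 1, 1, 1, 1]) (.leaf [0, 2, 2, 2, 2, 2, 0])) (.node 1 3 4 6 (.leaf [0, 2, 2, 2,
    2, 2, 0]) (.leaf [0, 4, 2, 2, 0, 2, 0]))) (.node 1 4 2 6 (.node 1 3 2 6 (.node 0 3 4 5 (.leaf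
    [1, 1, 3, 1, 1, 1, 1]) (.leaf [2, 0, 2, 4, 0, 0, 2])) (.leaf [2, 2, 0, 4, 2, 0, 0])) (.leaf [2,
    2, 0, 4, 2, 0, 0]))) (.node 1 3 2 6 (.node 1 4 2 6 (.node 0 3 4 5 (.leaf [2, 0, 2, 2, 2, 0, 2])
    (.leaf [4, 0, 2, 2, 0, 0, 2])) (.leaf [2, 2, 0, 4, 2, 0, 0])) (.leaf [2, 2, 0, 4, 2, 0, 0])))
    (.node 0 6 1 4 (.node 1 3 2 6 (.node 1 4 2 6 (.node 0 3 4 5 (.leaf [2, 0, 2, 2, 2, 0, 2])
    (.leaf [4, 0, 2, 2, 0, 0, 2])) (.leaf [2, 2, 0, 4, 2, 0, 0])) (.leaf [2, 2, 0, 4, 2, 0, 0]))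
    (.node 0 6 1 3 (.node 1 3 2 6 (.node 0 3 4 5 (.leaf [2, 0, 2, 2, 2, 0, 2]) (.leaf [4, 0, 2, 2,
    0, 0, 2])) (.leaf [2, 2, 0, 4, 2, 0, 0])) (.node 0 6 2 3 (.node 0 3 4 5 (.leaf [2, 0, 2, 2, 2,
    0, 2]) (.leaf [4, 0, 2, 2, 0, 0, 2])) (.node 0 6 2 4 (.node 0 3 4 5 (.leaf [2, 0, 0, 0, 2, 2,
    4]) (.leaf [4, 0, 2, 2, 0, 0, 2])) (.node 0 3 4 5 (.leaf [4, 0, 0, 0, 0, 2, 4]) (.leaf [4, 0,
    0, 2, 0, 0, 4])))))))))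

theorem check_cert : check [] cert = true := by decide +kernel

theorem exists_potential (S : Fin 7 → Fin 7 → Prop) (hsymm : ∀ i j, S i j → S j i)
    (hS : ∀ i j k l, crossing i j k l = true → S i j → S k l → False) :
    ∃ y : Fin 7 → ℕ, ∑ i, y i ≤ 10 ∧ ∀ i j, S i j → 2 * w i j ≤ y i + y j :=
  check_sound S hsymm hS cert [] (by simp) check_cert

theorem w_symm (i j : Fin 7) : w i j = w j i := by revert i j; decide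
theorem w_self (i : Fin 7) : w i i = 0 := by revert i; decide
theorem w_total : ∑ i : Fin 7, ∑ j : Fin 7, w i j = 72 := by decide

end Q148.PC
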