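import Pool.Agent.Q148.PlaneCert

set_option autoImplicit false

/-!
Counting argument for coverings of a seven-cluster blow-up by paths.
-/

namespace Q148.PC

open Finset

/-- sum of a weight over the consecutive pairs of a list -/
def psum {α : Type} (g : α → α → ℕ) : List α → ℕ
  | [] => 0
  | [_] => 0
  | a :: b :: l => g a b + psum g (b :: l)

theorem psum_add {α : Type} (g h : α → α → ℕ) (l : List α) :
    psum (fun a b => g a b + h a b) l = psum g l + psum h l := by
  induction l with
  | nil => rfl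
  | cons a l ih =>
    cases l with
    | nil => rfl
    | cons b l => simp only [psum]; rw [ih]; ring

theorem psum_mul {α : Type} (c : ℕ) (g : α → α → ℕ) (l : List α) :
    psum (fun a b => c * g a b) l = c * psum g l := by
  induction l with
  | nil => rfl
  | cons a l ih =>
    cases l with
    | nil => rfl
    | cons b l => simp only [psum]; rw [ih]; ring

theorem psum_zero {α : Type} (l : List α) : psum (fun _ _ => 0) l = 0 := by
  induction l with
  | nil => rfl
  | cons a l ih =>
    cases l with
    | nil => rfl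
    | cons b l => simp only [psum]; rw [ih]

theorem psum_sum {α ι : Type} (s : Finset ι) (g : ι → α → α → ℕ) (l : List α) :
    psum (fun a b => ∑ i ∈ s, g i a b) l = ∑ i ∈ s, psum (g i) l := by
  classical
  induction s using Finset.induction_on with
  | empty => simpa using psum_zero l
  | insert i s hi ih =>
    simp only [Finset.sum_insert hi]
    rw [psum_add, ih]

theorem psum_congr {α : Type} {g h : α → α → ℕ} (e : ∀ a b, g a b = h a b) (l : List α) :
    psum g l = psum h l := by
  have : g = h := funext fun a => funext fun b => e a b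
  rw [this]

theorem infix_cons {α : Type} {m l : List α} (a : α) (h : m <:+: l) : m <:+: a :: l :=
  h.trans (List.infix_cons (List.infix_refl l))

theorem psum_le {α : Type} {g : α → α → ℕ} {h : α → ℕ} (l : List α)
    (H : ∀ a b, [a, b] <:+: l → 2 * g a b ≤ h a + h b) : psum g l ≤ (l.map h).sum := by
  have key : ∀ l : List α, (∀ a b, [a, b] <:+: l → 2 * g a b ≤ h a + h b) →
      2 * psum g l + (match l with | [] => 0 | a :: _ => h a) ≤ 2 * (l.map h).sum := by
    intro l
    induction l with
    | nil => intro _; simp [psum]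
    | cons a l ih =>
      intro H
      cases l with
      | nil => simp [psum]; omega
      | cons b l =>
        have h1 := ih fun x y hxy => H x y (infix_cons a hxy)
        have h2 := H a b ⟨[], l, by simp⟩
        simp only [psum, List.map_cons, List.sum_cons] at h1 ⊢
        omega
  have := key l H
  omega

theorem one_le_psum {α : Type} {g : α → α → ℕ} {u v : α} (huv : 1 ≤ g u v) (l : List α)
    (h : [u, v] <:+: l) : 1 ≤ psum g l := by
  obtain ⟨s, e, rfl⟩ := h
  induction s with
  | nil => simp [psum]; omega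
  | cons a s ih =>
    rcases hs : s ++ [u, v] ++ e with _ | ⟨b, l'⟩
    · simp at hs
    · have : a :: s ++ [u, v] ++ e = a :: b :: l' := by
        rw [← hs]; simp
      rw [this]
      rw [hs] at ih
      simp only [psum]
      omega

theorem sum_map_le {α : Type} [Fintype α] [DecidableEq α] (h : α → ℕ) (l : List α)
    (hl : l.Nodup) : (l.map h).sum ≤ ∑ a, h a := by
  rw [← List.sum_toFinset h hl]
  exact Finset.sum_le_sum_of_subset (Finset.subset_univ _)

theorem one_path {t : ℕ} (L : List (Fin 7 × Fin t)) (hL : L.Nodup)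
    (hplane : ∀ a b c d, ([a, b] <:+: L ∨ [b, a] <:+: L) → ([c, d] <:+: L ∨ [d, c] <:+: L) →
      crossing a.1 b.1 c.1 d.1 = true → False) :
    psum (fun a b : Fin 7 × Fin t => w a.1 b.1) L ≤ 10 * t := by
  obtain ⟨y, hy, hyw⟩ := exists_potential
    (fun i j => ∃ a b : Fin 7 × Fin t, a.1 = i ∧ b.1 = j ∧ ([a, b] <:+: L ∨ [b, a] <:+: L))
    (by
      rintro i j ⟨a, b, ha, hb, h⟩
      exact ⟨b, a, hb, ha, h.symm⟩)
    (by
      rintro i j k l hc ⟨a, b, rfl, rfl, h⟩ ⟨c, d, rfl, rfl, h'⟩
      exact hplane a b c d h h' hc)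
  have h1 := psum_le (g := fun a b : Fin 7 × Fin t => w a.1 b.1) (h := fun a => y a.1) L
    (fun a b hab => hyw a.1 b.1 ⟨a, b, rfl, rfl, Or.inl hab⟩)
  have h2 := sum_map_le (fun a : Fin 7 × Fin t => y a.1) L hL
  have h3 : ∑ a : Fin 7 × Fin t, y a.1 = t * ∑ i, y i := by
    rw [Fintype.sum_prod_type]
    simp [Finset.mul_sum]
  have h4 : t * ∑ i, y i ≤ t * 10 := Nat.mul_le_mul_left _ hy
  omega

theorem cover_bound {t k : ℕ} (ht : 0 < t) (L : Fin k → List (Fin 7 × Fin t))
    (hL : ∀ r, (L r).Nodup)
    (hplane : ∀ r a b c d, ([a, b] <:+: L r ∨ [b, a] <:+: L r) →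
      ([c, d] <:+: L r ∨ [d, c] <:+: L r) → crossing a.1 b.1 c.1 d.1 = true → False)
    (hcov : ∀ u v, u ≠ v → ∃ r, [u, v] <:+: L r ∨ [v, u] <:+: L r) : 18 * t ≤ 5 * k := by
  classical
  let g : Fin 7 × Fin t → Fin 7 × Fin t → ℕ := fun a b => w a.1 b.1
  let δ : (Fin 7 × Fin t) × (Fin 7 × Fin t) → (Fin 7 × Fin t) → (Fin 7 × Fin t) → ℕ :=
    fun e a b => (if a = e.1 ∧ b = e.2 then 1 else 0) + (if a = e.2 ∧ b = e.1 then 1 else 0)
  have h1 : ∀ l : List (Fin 7 × Fin t),
      ∑ e : (Fin 7 × Fin t) × (Fin 7 × Fin t), g e.1 e.2 * psum (δ e) l = 2 * psum g l := by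
    intro l
    have e1 : ∀ e : (Fin 7 × Fin t) × (Fin 7 × Fin t), g e.1 e.2 * psum (δ e) l =
        psum (fun a b => g e.1 e.2 * δ e a b) l := fun e => (psum_mul _ _ _).symm
    simp only [e1]
    rw [← psum_sum, ← psum_mul]
    refine psum_congr (fun a b => ?_) l
    have e2 : ∀ e : (Fin 7 × Fin t) × (Fin 7 × Fin t), g e.1 e.2 * δ e a b =
        (if e = (a, b) then g a b else 0) + (if e = (b, a) then g b a else 0) := by
      rintro ⟨u, v⟩
      simp only [δ, Prod.mk.injEq]
      rw [mul_add]
      congr 1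
      · by_cases h : a = u ∧ b = v
        · obtain ⟨rfl, rfl⟩ := h; simp
        · rw [if_neg h, if_neg (fun h' => h ⟨h'.1.symm, h'.2.symm⟩), mul_zero]
      · by_cases h : a = v ∧ b = u
        · obtain ⟨rfl, rfl⟩ := h; simp
        · rw [if_neg h, if_neg (fun h' => h ⟨h'.2.symm, h'.1.symm⟩), mul_zero]
    simp only [e2]
    rw [Finset.sum_add_distrib, Finset.sum_ite_eq' , Finset.sum_ite_eq']
    simp only [Finset.mem_univ, if_true]
    have : g b a = g a b := w_symm _ _
    rw [this]; ring
  have h2 : ∑ e : (Fin 7 × Fin t) × (Fin 7 × Fin t), g e.1 e.2 ≤ ∑ r, 2 * psum g (L r) := by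
    calc ∑ e : (Fin 7 × Fin t) × (Fin 7 × Fin t), g e.1 e.2
        ≤ ∑ e : (Fin 7 × Fin t) × (Fin 7 × Fin t), ∑ r, g e.1 e.2 * psum (δ e) (L r) := by
          refine Finset.sum_le_sum fun e _ => ?_
          rw [← Finset.mul_sum]
          by_cases he : e.1 = e.2
          · have : g e.1 e.2 = 0 := by simp only [g, he, w_self]
            rw [this]; simp
          · obtain ⟨r, hr⟩ := hcov e.1 e.2 he
            have : 1 ≤ psum (δ e) (L r) := by
              rcases hr with hr | hr
              · exact one_le_psum (by simp [δ]) _ hr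
              · exact one_le_psum (by simp [δ]) _ hr
            have h3 : 1 ≤ ∑ r, psum (δ e) (L r) :=
              this.trans (Finset.single_le_sum (f := fun r => psum (δ e) (L r))
                (fun _ _ => Nat.zero_le _) (Finset.mem_univ r))
            exact Nat.le_mul_of_pos_right _ h3
      _ = ∑ r, ∑ e : (Fin 7 × Fin t) × (Fin 7 × Fin t), g e.1 e.2 * psum (δ e) (L r) :=
          Finset.sum_comm
      _ = ∑ r, 2 * psum g (L r) := Finset.sum_congr rfl fun r _ => h1 _
  have h3 : ∑ r, 2 * psum g (L r) ≤ k * (20 * t) := by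
    calc ∑ r, 2 * psum g (L r) ≤ ∑ _r : Fin k, 20 * t := by
          refine Finset.sum_le_sum fun r _ => ?_
          have := one_path (L r) (hL r) (hplane r)
          change 2 * psum (fun a b : Fin 7 × Fin t => w a.1 b.1) (L r) ≤ _
          omega
      _ = k * (20 * t) := by simp
  have h4 : ∑ e : (Fin 7 × Fin t) × (Fin 7 × Fin t), g e.1 e.2 = 72 * (t * t) := by
    simp only [g]
    rw [Fintype.sum_prod_type]
    have e1 : ∀ u : Fin 7 × Fin t, ∑ v : Fin 7 × Fin t, w u.1 v.1 = t * ∑ j, w u.1 j := by
      intro u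
      rw [Fintype.sum_prod_type]
      simp [Finset.mul_sum]
    simp only [e1]
    rw [Fintype.sum_prod_type]
    simp only [Finset.sum_const, Finset.card_univ, Fintype.card_fin, smul_eq_mul]
    rw [← Finset.mul_sum, ← Finset.mul_sum, w_total]
    ring
  have h5 : 72 * (t * t) ≤ k * (20 * t) := by
    rw [← h4]; exact h2.trans h3
  have h6 : t * (72 * t) ≤ t * (20 * k) := by nlinarith
  have h7 := Nat.le_of_mul_le_mul_left h6 ht
  omega

end Q148.PC
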