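import Pool.Agent.Q148.PlaneCover

set_option autoImplicit false

/-!
Geometry of the blow-up: general position and robustness of crossings.
-/

namespace Q148.PC

/-- orientation determinant of three points of the real plane -/
def orr (a b c : ℝ × ℝ) : ℝ := (b.1 - a.1) * (c.2 - a.2) - (b.2 - a.2) * (c.1 - a.1)

/-- the point of the blow-up -/
noncomputable def q (t : ℕ) (a : Fin 7 × Fin t) : ℝ × ℝ :=
  ((px a.1 : ℝ) + 1 / 100 * (((a.2 : ℕ) + 1 : ℝ) / t),
    (py a.1 : ℝ) + 1 / 10000 * (((a.2 : ℕ) + 1 : ℝ) / t) ^ 2)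

theorem collinear_orr {a b c : ℝ × ℝ} (h : Collinear ℝ {a, b, c}) : orr a b c = 0 := by
  obtain ⟨v, hv⟩ := (collinear_iff_of_mem (p₀ := a) (by simp)).mp h
  obtain ⟨r, hr⟩ := hv b (by simp)
  obtain ⟨s, hs⟩ := hv c (by simp)
  have h1 : b.1 = r * v.1 + a.1 := by rw [hr]; simp
  have h2 : b.2 = r * v.2 + a.2 := by rw [hr]; simp
  have h3 : c.1 = s * v.1 + a.1 := by rw [hs]; simp
  have h4 : c.2 = s * v.2 + a.2 := by rw [hs]; simp
  unfold orr
  rw [h1, h2, h3, h4]
  ring

theorem exists_inter {a b c d : ℝ × ℝ} (h1 : orr a b c * orr a b d < 0)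
    (h2 : orr c d a * orr c d b < 0) : ∃ x, x ∈ segment ℝ a b ∧ x ∈ segment ℝ c d := by
  set D := orr c d a - orr c d b with hD
  have hD' : orr a b c - orr a b d = -D := by simp only [hD, orr]; ring
  have hDne : D ≠ 0 := by
    intro h
    have : orr c d a = orr c d b := by linarith
    rw [this] at h2
    nlinarith [mul_self_nonneg (orr c d b)]
  have hs : 0 ≤ orr c d a / D ∧ orr c d a / D ≤ 1 := by
    rcases lt_or_gt_of_ne hDne with hneg | hpos
    · have ha : orr c d a ≤ 0 := by
        by_contra hcon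
        push Not at hcon
        have : orr c d b < 0 := by nlinarith
        linarith
      have hb : 0 ≤ orr c d b := by
        by_contra hcon
        push Not at hcon
        nlinarith
      constructor
      · exact div_nonneg_of_nonpos ha hneg.le
      · rw [div_le_one_of_neg hneg]; linarith
    · have ha : 0 ≤ orr c d a := by
        by_contra hcon
        push Not at hcon
        have : 0 < orr c d b := by nlinarith
        linarith
      have hb : orr c d b ≤ 0 := by
        by_contra hcon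
        push Not at hcon
        nlinarith
      constructor
      · exact div_nonneg ha hpos.le
      · rw [div_le_one hpos]; linarith
  have ht : 0 ≤ -(orr a b c) / D ∧ -(orr a b c) / D ≤ 1 := by
    rcases lt_or_gt_of_ne hDne with hneg | hpos
    · have ha : 0 ≤ orr a b c := by
        by_contra hcon
        push Not at hcon
        have : 0 < orr a b d := by nlinarith
        linarith
      have hb : orr a b d ≤ 0 := by
        by_contra hcon
        push Not at hcon
        nlinarith
      constructor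
      · exact div_nonneg_of_nonpos (by linarith) hneg.le
      · rw [div_le_one_of_neg hneg]; linarith
    · have ha : orr a b c ≤ 0 := by
        by_contra hcon
        push Not at hcon
        have : orr a b d < 0 := by nlinarith
        linarith
      have hb : 0 ≤ orr a b d := by
        by_contra hcon
        push Not at hcon
        nlinarith
      constructor
      · exact div_nonneg (by linarith) hpos.le
      · rw [div_le_one hpos]; linarith
  set s := orr c d a / D with hsdef
  set t := -(orr a b c) / D with htdef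
  have hsD : s * D = orr c d a := by rw [hsdef]; field_simp
  have htD : t * D = -(orr a b c) := by rw [htdef]; field_simp
  refine ⟨(1 - s) • a + s • b, ⟨1 - s, s, by linarith [hs.2], hs.1, by ring, rfl⟩,
    ⟨1 - t, t, by linarith [ht.2], ht.1, by ring, ?_⟩⟩
  have e1 : (1 - t) * c.1 + t * d.1 = (1 - s) * a.1 + s * b.1 := by
    apply mul_right_cancel₀ hDne
    have : ((1 - t) * c.1 + t * d.1) * D = c.1 * D + (t * D) * (d.1 - c.1) := by ring
    rw [this, htD]
    have : ((1 - s) * a.1 + s * b.1) * D = a.1 * D + (s * D) * (b.1 - a.1) := by ring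
    rw [this, hsD, hD]
    simp only [orr]
    ring
  have e2 : (1 - t) * c.2 + t * d.2 = (1 - s) * a.2 + s * b.2 := by
    apply mul_right_cancel₀ hDne
    have : ((1 - t) * c.2 + t * d.2) * D = c.2 * D + (t * D) * (d.2 - c.2) := by ring
    rw [this, htD]
    have : ((1 - s) * a.2 + s * b.2) * D = a.2 * D + (s * D) * (b.2 - a.2) := by ring
    rw [this, hsD, hD]
    simp only [orr]
    ring
  ext
  · simpa using e1
  · simpa using e2

theorem px_bound (i j : Fin 7) : |(px j : ℝ) - px i| ≤ 12 := by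
  have h : |px j - px i| ≤ 12 := by revert i j; decide
  exact_mod_cast h

theorem py_bound (i j : Fin 7) : |(py j : ℝ) - py i| ≤ 12 := by
  have h : |py j - py i| ≤ 12 := by revert i j; decide
  exact_mod_cast h

theorem py_sep (i j : Fin 7) (hij : i ≠ j) : 1 ≤ |(py j : ℝ) - py i| := by
  have h : i ≠ j → 1 ≤ |py j - py i| := by revert i j; decide
  exact_mod_cast h hij

theorem ori_ne (i j k : Fin 7) (h1 : i ≠ j) (h2 : i ≠ k) (h3 : j ≠ k) : ori i j k ≠ 0 := by
  revert i j k; decide

/-- the parameter of a point in its cluster -/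
noncomputable def par {t : ℕ} (a : Fin 7 × Fin t) : ℝ := ((a.2 : ℕ) + 1 : ℝ) / t

theorem par_pos {t : ℕ} (a : Fin 7 × Fin t) : 0 < par a := by
  unfold par
  have : 0 < t := lt_of_le_of_lt (Nat.zero_le _) a.2.2
  positivity

theorem par_le {t : ℕ} (a : Fin 7 × Fin t) : par a ≤ 1 := by
  unfold par
  have ht : 0 < t := lt_of_le_of_lt (Nat.zero_le _) a.2.2
  rw [div_le_one (by exact_mod_cast ht)]
  exact_mod_cast a.2.2

theorem par_inj {t : ℕ} {a b : Fin 7 × Fin t} (h : par a = par b) : a.2 = b.2 := by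
  unfold par at h
  have ht : 0 < t := lt_of_le_of_lt (Nat.zero_le _) a.2.2
  have ht' : (t : ℝ) ≠ 0 := by positivity
  rw [div_left_inj' ht'] at h
  have : ((a.2 : ℕ) : ℝ) = (b.2 : ℕ) := by linarith
  exact Fin.ext (by exact_mod_cast this)

theorem q_eq {t : ℕ} (a : Fin 7 × Fin t) :
    q t a = ((px a.1 : ℝ) + 1 / 100 * par a, (py a.1 : ℝ) + 1 / 10000 * par a ^ 2) := rfl

theorem orr_close {t : ℕ} (a b c : Fin 7 × Fin t) :
    |orr (q t a) (q t b) (q t c) - ori a.1 b.1 c.1| < 1 / 2 := by
  have ha := par_pos a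
  have hb := par_pos b
  have hc := par_pos c
  have ha' := par_le a
  have hb' := par_le b
  have hc' := par_le c
  have k1 := px_bound a.1 b.1
  have k2 := px_bound a.1 c.1
  have k3 := py_bound a.1 b.1
  have k4 := py_bound a.1 c.1
  set x1 := (px b.1 : ℝ) - px a.1 with hx1
  set x2 := (px c.1 : ℝ) - px a.1 with hx2
  set y1 := (py b.1 : ℝ) - py a.1 with hy1
  set y2 := (py c.1 : ℝ) - py a.1 with hy2
  have e : orr (q t a) (q t b) (q t c) - ori a.1 b.1 c.1 =
      (1 / 10000) * (x1 * (par c ^ 2 - par a ^ 2)) + (1 / 100) * ((par b - par a) * y2) +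
      (1 / 1000000) * ((par b - par a) * (par c ^ 2 - par a ^ 2)) -
      ((1 / 100) * (y1 * (par c - par a)) + (1 / 10000) * ((par b ^ 2 - par a ^ 2) * x2) +
      (1 / 1000000) * ((par b ^ 2 - par a ^ 2) * (par c - par a))) := by
    rw [q_eq, q_eq, q_eq]
    unfold orr ori
    push_cast
    simp only [hx1, hx2, hy1, hy2]
    ring
  have d1 : |par c ^ 2 - par a ^ 2| ≤ 1 := abs_le.mpr ⟨by nlinarith, by nlinarith⟩
  have d2 : |par b ^ 2 - par a ^ 2| ≤ 1 := abs_le.mpr ⟨by nlinarith, by nlinarith⟩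
  have d3 : |par b - par a| ≤ 1 := abs_le.mpr ⟨by linarith, by linarith⟩
  have d4 : |par c - par a| ≤ 1 := abs_le.mpr ⟨by linarith, by linarith⟩
  have b1 : |x1 * (par c ^ 2 - par a ^ 2)| ≤ 12 * 1 := by
    rw [abs_mul]; exact mul_le_mul k1 d1 (abs_nonneg _) (by norm_num)
  have b2 : |(par b - par a) * y2| ≤ 1 * 12 := by
    rw [abs_mul]; exact mul_le_mul d3 k4 (abs_nonneg _) (by norm_num)
  have b3 : |(par b - par a) * (par c ^ 2 - par a ^ 2)| ≤ 1 * 1 := by
    rw [abs_mul]; exact mul_le_mul d3 d1 (abs_nonneg _) (by norm_num)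
  have b4 : |y1 * (par c - par a)| ≤ 12 * 1 := by
    rw [abs_mul]; exact mul_le_mul k3 d4 (abs_nonneg _) (by norm_num)
  have b5 : |(par b ^ 2 - par a ^ 2) * x2| ≤ 1 * 12 := by
    rw [abs_mul]; exact mul_le_mul d2 k2 (abs_nonneg _) (by norm_num)
  have b6 : |(par b ^ 2 - par a ^ 2) * (par c - par a)| ≤ 1 * 1 := by
    rw [abs_mul]; exact mul_le_mul d2 d4 (abs_nonneg _) (by norm_num)
  rw [e]
  rw [abs_le] at b1 b2 b3 b4 b5 b6
  rw [abs_lt]
  constructor <;> linarith [b1.1, b1.2, b2.1, b2.2, b3.1, b3.2, b4.1, b4.2, b5.1, b5.2, b6.1, b6.2]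

theorem orr_mul_neg {t : ℕ} (a b c d : Fin 7 × Fin t)
    (h : ori a.1 b.1 c.1 * ori a.1 b.1 d.1 < 0) :
    orr (q t a) (q t b) (q t c) * orr (q t a) (q t b) (q t d) < 0 := by
  have h1 := orr_close a b c
  have h2 := orr_close a b d
  rw [abs_lt] at h1 h2
  rcases mul_neg_iff.mp h with ⟨hp, hn⟩ | ⟨hn, hp⟩
  · have hp' : (1 : ℝ) ≤ ori a.1 b.1 c.1 := by exact_mod_cast hp
    have hn' : (ori a.1 b.1 d.1 : ℝ) ≤ -1 := by
      have : ori a.1 b.1 d.1 ≤ -1 := by omega
      exact_mod_cast this
    exact mul_neg_iff.mpr (Or.inl ⟨by linarith [h1.1], by linarith [h2.2]⟩)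
  · have hp' : (1 : ℝ) ≤ ori a.1 b.1 d.1 := by exact_mod_cast hp
    have hn' : (ori a.1 b.1 c.1 : ℝ) ≤ -1 := by
      have : ori a.1 b.1 c.1 ≤ -1 := by omega
      exact_mod_cast this
    exact mul_neg_iff.mpr (Or.inr ⟨by linarith [h1.2], by linarith [h2.1]⟩)

/-- crossings of cluster segments force crossings of all corresponding point segments -/
theorem inter_of_crossing {t : ℕ} (a b c d : Fin 7 × Fin t)
    (h : crossing a.1 b.1 c.1 d.1 = true) :
    ∃ x, x ∈ segment ℝ (q t a) (q t b) ∧ x ∈ segment ℝ (q t c) (q t d) := by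
  unfold crossing at h
  rw [Bool.and_eq_true, decide_eq_true_eq, decide_eq_true_eq] at h
  exact exists_inter (orr_mul_neg a b c d h.1) (orr_mul_neg c d a b h.2)

theorem crossing_ne {i j k l : Fin 7} (h : crossing i j k l = true) :
    i ≠ k ∧ i ≠ l ∧ j ≠ k ∧ j ≠ l := by
  revert i j k l
  decide

theorem orr_two_same {t : ℕ} (a b c : Fin 7 × Fin t) (hab : a.1 = b.1) (hne : a.2 ≠ b.2)
    (hc : a.1 ≠ c.1) : orr (q t a) (q t b) (q t c) ≠ 0 := by
  have ha := par_pos a
  have hb := par_pos b
  have hcp := par_pos c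
  have ha' := par_le a
  have hb' := par_le b
  have hc' := par_le c
  have k2 := px_bound a.1 c.1
  have k4 := py_sep a.1 c.1 hc
  set x2 := (px c.1 : ℝ) - px a.1 with hx2
  set y2 := (py c.1 : ℝ) - py a.1 with hy2
  have e : orr (q t a) (q t b) (q t c) = (1 / 100) * (par b - par a) *
      (y2 + (1 / 10000) * (par c ^ 2 - par a ^ 2) - (1 / 100) * ((par b + par a) * x2) -
        (1 / 10000) * ((par b + par a) * (par c - par a))) := by
    rw [q_eq, q_eq, q_eq]
    unfold orr
    simp only [hx2, hy2, hab]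
    ring
  have hne' : par b - par a ≠ 0 := by
    intro h
    exact hne (par_inj (by linarith))
  have d1 : |par c ^ 2 - par a ^ 2| ≤ 1 := abs_le.mpr ⟨by nlinarith, by nlinarith⟩
  have d2 : |par b + par a| ≤ 2 := abs_le.mpr ⟨by linarith, by linarith⟩
  have d4 : |par c - par a| ≤ 1 := abs_le.mpr ⟨by linarith, by linarith⟩
  have b1 : |(par b + par a) * x2| ≤ 2 * 12 := by
    rw [abs_mul]; exact mul_le_mul d2 k2 (abs_nonneg _) (by norm_num)
  have b2 : |(par b + par a) * (par c - par a)| ≤ 2 * 1 := by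
    rw [abs_mul]; exact mul_le_mul d2 d4 (abs_nonneg _) (by norm_num)
  rw [abs_le] at d1 b1 b2
  rw [e]
  apply mul_ne_zero (mul_ne_zero (by norm_num) hne')
  rcases le_abs.mp k4 with h | h
  · apply ne_of_gt
    linarith [d1.1, d1.2, b1.1, b1.2, b2.1, b2.2]
  · apply ne_of_lt
    linarith [d1.1, d1.2, b1.1, b1.2, b2.1, b2.2]

theorem orr_all_same {t : ℕ} (a b c : Fin 7 × Fin t) (hab : a.1 = b.1) (hac : a.1 = c.1)
    (h1 : a.2 ≠ b.2) (h2 : a.2 ≠ c.2) (h3 : b.2 ≠ c.2) : orr (q t a) (q t b) (q t c) ≠ 0 := by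
  have e : orr (q t a) (q t b) (q t c) = (1 / 1000000) * (par b - par a) * (par c - par a) *
      (par c - par b) := by
    rw [q_eq, q_eq, q_eq]
    unfold orr
    simp only [← hab, ← hac]
    ring
  rw [e]
  refine mul_ne_zero (mul_ne_zero (mul_ne_zero (by norm_num) ?_) ?_) ?_
  · intro h; exact h1 (par_inj (by linarith))
  · intro h; exact h2 (par_inj (by linarith))
  · intro h; exact h3 (par_inj (by linarith))

theorem orr_cycle (a b c : ℝ × ℝ) : orr b c a = orr a b c := by unfold orr; ring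

theorem orr_ne {t : ℕ} {a b c : Fin 7 × Fin t} (h1 : a ≠ b) (h2 : a ≠ c) (h3 : b ≠ c) :
    orr (q t a) (q t b) (q t c) ≠ 0 := by
  by_cases hab : a.1 = b.1
  · have hab2 : a.2 ≠ b.2 := fun h => h1 (Prod.ext hab h)
    by_cases hac : a.1 = c.1
    · exact orr_all_same a b c hab hac hab2 (fun h => h2 (Prod.ext hac h))
        (fun h => h3 (Prod.ext (hab.symm.trans hac) h))
    · exact orr_two_same a b c hab hab2 hac
  · by_cases hbc : b.1 = c.1
    · rw [← orr_cycle]
      exact orr_two_same b c a hbc (fun h => h3 (Prod.ext hbc h)) (fun h => hab h.symm)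
    · by_cases hac : a.1 = c.1
      · rw [← orr_cycle, ← orr_cycle]
        exact orr_two_same c a b hac.symm (fun h => h2 (Prod.ext hac h.symm)) (fun h => hbc h.symm)
      · have hne := ori_ne a.1 b.1 c.1 hab hac hbc
        have hcl := orr_close a b c
        intro h0
        rw [h0, zero_sub, abs_neg] at hcl
        have h5 : (1 : ℝ) ≤ |(ori a.1 b.1 c.1 : ℝ)| := by
          have : 1 ≤ |ori a.1 b.1 c.1| := Int.one_le_abs hne
          exact_mod_cast this
        linarith

theorem q_injective (t : ℕ) : Function.Injective (q t) := by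
  intro a b h
  by_contra hab
  rw [q_eq, q_eq, Prod.mk.injEq] at h
  obtain ⟨hx, hy⟩ := h
  have ha := par_pos a
  have hb := par_pos b
  have ha' := par_le a
  have hb' := par_le b
  by_cases h1 : a.1 = b.1
  · rw [h1] at hx
    exact hab (Prod.ext h1 (par_inj (by linarith)))
  · have k := py_sep a.1 b.1 h1
    rcases le_abs.mp k with h | h
    · nlinarith
    · nlinarith

end Q148.PC
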