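import Mathlib

/-!
# A one-dimensional weighted Cauchy-Davenport inequality
-/

set_option autoImplicit false

namespace Q148.SD

open Finset
open scoped Pointwise

theorem sum_shift {ι : Type*} (s : Finset ι) (f : ι → ℝ) (m : ℝ) (h : ∀ x ∈ s, m ≤ f x)
    [DecidablePred fun x => m < f x] :
    ∑ x ∈ s, f x = m * s.card + ∑ x ∈ s.filter (fun x => m < f x), (f x - m) := by
  have h1 : ∑ x ∈ s, (f x - m) = ∑ x ∈ s.filter (fun x => m < f x), (f x - m) := by
    rw [Finset.sum_filter]
    refine Finset.sum_congr rfl fun x hx => ?_
    split_ifs with h2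
    · rfl
    · have := h x hx
      linarith
  rw [← h1, Finset.sum_sub_distrib, Finset.sum_const, nsmul_eq_mul]
  ring

/-- The weighted one-dimensional inequality. -/
theorem weighted : ∀ (N : ℕ) (I J : Finset ℚ) (a b c : ℚ → ℝ) (M : ℝ), I.card + J.card ≤ N →
    (∃ x ∈ I, a x = M) → (∃ y ∈ J, b y = M) → (∀ x ∈ I, 0 ≤ a x ∧ a x ≤ M) →
    (∀ y ∈ J, 0 ≤ b y ∧ b y ≤ M) → (∀ x ∈ I, ∀ y ∈ J, min (a x) (b y) ≤ c (x + y)) →
    ∑ x ∈ I, a x + ∑ y ∈ J, b y ≤ M + ∑ z ∈ I + J, c z := by
  classical
  intro N
  induction N with
  | zero =>
    intro I J a b c M hN hI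
    obtain ⟨x, hx, -⟩ := hI
    have := Finset.card_pos.2 ⟨x, hx⟩
    omega
  | succ N ih =>
    intro I J a b c M hN hI hJ ha hb hc
    obtain ⟨x0, hx0, hx0M⟩ := hI
    obtain ⟨y0, hy0, hy0M⟩ := hJ
    have hIne : I.Nonempty := ⟨x0, hx0⟩
    have hJne : J.Nonempty := ⟨y0, hy0⟩
    obtain ⟨x1, hx1, hx1m⟩ := I.exists_min_image a hIne
    obtain ⟨y1, hy1, hy1m⟩ := J.exists_min_image b hJne
    obtain ⟨m, hm⟩ : ∃ m, m = min (a x1) (b y1) := ⟨_, rfl⟩
    have hm0 : 0 ≤ m := by rw [hm]; exact le_min (ha x1 hx1).1 (hb y1 hy1).1
    have hma : ∀ x ∈ I, m ≤ a x := fun x hx => by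
      rw [hm]; exact (min_le_left _ _).trans (hx1m x hx)
    have hmb : ∀ y ∈ J, m ≤ b y := fun y hy => by
      rw [hm]; exact (min_le_right _ _).trans (hy1m y hy)
    have hmc : ∀ z ∈ I + J, m ≤ c z := by
      intro z hz
      obtain ⟨x, hx, y, hy, rfl⟩ := Finset.mem_add.1 hz
      exact (le_min (hma x hx) (hmb y hy)).trans (hc x hx y hy)
    have hcd : (I.card : ℝ) + J.card ≤ (I + J).card + 1 := by
      have h := cauchy_davenport_add_of_linearOrder_isCancelAdd hIne hJne
      have h2 : I.card + J.card ≤ (I + J).card + 1 := by omega
      exact_mod_cast h2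
    rw [sum_shift I a m hma, sum_shift J b m hmb, sum_shift (I + J) c m hmc]
    have hkey : m * ((I.card : ℝ) + J.card) ≤ m * ((I + J).card + 1) :=
      mul_le_mul_of_nonneg_left hcd hm0
    rcases (hma x0 hx0).eq_or_lt with heq | hlt
    · -- constant weights
      rw [hx0M] at heq
      have h1 : I.filter (fun x => m < a x) = ∅ := by
        apply Finset.filter_eq_empty_iff.2
        intro x hx
        have := (ha x hx).2
        linarith
      have h2 : J.filter (fun x => m < b x) = ∅ := by
        apply Finset.filter_eq_empty_iff.2
        intro x hx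
        have := (hb x hx).2
        linarith
      rw [h1, h2, Finset.sum_empty, Finset.sum_empty]
      have h3 : 0 ≤ ∑ x ∈ (I + J).filter (fun x => m < c x), (c x - m) := by
        apply Finset.sum_nonneg
        intro x hx
        have := (Finset.mem_filter.1 hx).2
        linarith
      linarith
    · rw [hx0M] at hlt
      have hI' : I.filter (fun x => m < a x) ⊆ I := Finset.filter_subset _ _
      have hJ' : J.filter (fun x => m < b x) ⊆ J := Finset.filter_subset _ _
      have hcard : (I.filter (fun x => m < a x)).card + (J.filter (fun x => m < b x)).card ≤ N := by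
        have c1 := Finset.card_le_card hI'
        have c2 := Finset.card_le_card hJ'
        rcases le_total (a x1) (b y1) with h | h
        · have h3 : m = a x1 := by rw [hm, min_eq_left h]
          have : (I.filter (fun x => m < a x)).card < I.card := by
            apply Finset.card_lt_card
            refine ⟨hI', fun hsub => ?_⟩
            have := (Finset.mem_filter.1 (hsub hx1)).2
            linarith
          omega
        · have h3 : m = b y1 := by rw [hm, min_eq_right h]
          have : (J.filter (fun x => m < b x)).card < J.card := by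
            apply Finset.card_lt_card
            refine ⟨hJ', fun hsub => ?_⟩
            have := (Finset.mem_filter.1 (hsub hy1)).2
            linarith
          omega
      have h := ih (I.filter (fun x => m < a x)) (J.filter (fun x => m < b x))
        (fun x => a x - m) (fun y => b y - m) (fun z => c z - m) (M - m) hcard
        ⟨x0, Finset.mem_filter.2 ⟨hx0, by rw [hx0M]; exact hlt⟩, by rw [hx0M]⟩
        ⟨y0, Finset.mem_filter.2 ⟨hy0, by rw [hy0M]; exact hlt⟩, by rw [hy0M]⟩
        (by
          intro x hx
          have h1 := Finset.mem_filter.1 hx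
          have h2 := (ha x h1.1).2
          constructor
          · linarith [h1.2]
          · show a x - m ≤ M - m
            linarith)
        (by
          intro x hx
          have h1 := Finset.mem_filter.1 hx
          have h2 := (hb x h1.1).2
          constructor
          · linarith [h1.2]
          · show b x - m ≤ M - m
            linarith)
        (by
          intro x hx y hy
          have h1 := (Finset.mem_filter.1 hx).1
          have h2 := (Finset.mem_filter.1 hy).1
          show min (a x - m) (b y - m) ≤ c (x + y) - m
          rw [min_sub_sub_right]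
          linarith [hc x h1 y h2])
      have h4 : ∑ z ∈ I.filter (fun x => m < a x) + J.filter (fun x => m < b x), (c z - m) ≤
          ∑ x ∈ (I + J).filter (fun x => m < c x), (c x - m) := by
        have h5 : ∑ x ∈ (I + J).filter (fun x => m < c x), (c x - m) = ∑ x ∈ I + J, (c x - m) := by
          rw [Finset.sum_filter]
          refine Finset.sum_congr rfl fun x hx => ?_
          split_ifs with h2
          · rfl
          · have := hmc x hx
            linarith
        rw [h5]
        apply Finset.sum_le_sum_of_subset_of_nonneg (Finset.add_subset_add hI' hJ')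
        intro z hz _
        have := hmc z hz
        linarith
      linarith

end Q148.SD
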