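import Pool.Agent.Q148.SD9

/-!
# The final covering
-/

set_option autoImplicit false

namespace Q148.SD

open Finset Pool.Agent.Y806.DF Module
open scoped Pointwise

section

variable {Γ : Type*} [AddCommGroup Γ] {m b : ℕ} {N : Seminorm ℝ (Fin m → ℝ)}
  {ψ : (Fin m → ℤ) →+ Γ} {H : AddSubgroup Γ} {U V : Submodule ℚ (Fin m → ℚ)}
  {v : Fin b → (Fin m → ℤ)}

theorem lat_one {r : ℕ} (B : Set (Fin r → ℝ)) : lat ((1 : ℝ) • B) = lat B := by rw [one_smul]

theorem final_cover [DecidableEq Γ] [Finite H] (hv : ∀ j, ψ (v j) ∈ H) {M : ℝ}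
    (hN : ∀ j, N (re (v j)) ≤ M)
    (hfin : ∀ r, (H112.LL N r).Finite) (hU : Submodule.span ℚ (Set.range fun j => qq (v j)) = U)
    (hUV : U ≤ V) {A T' : Finset Γ} (hA : A.Nonempty) {R : ℝ} (hR : 0 ≤ R)
    (hcov : ∀ a ∈ A, ∃ t ∈ T', a - t ∈ PP N ψ H V v R) {Z : ℝ} (hZ1 : 1 ≤ Z)
    (hZ : ((H112.LL N (R + b * M)).ncard : ℝ) * Nat.card H ≤ Z * A.card) :
    ∃ (d : ℕ) (B : Set (Fin d → ℝ)) (θ : (Fin d → ℤ) →+ Γ) (H₀ : AddSubgroup Γ) (T : Finset Γ),
      (d + finrank ℚ U ≤ finrank ℚ V ∨ d = 1) ∧ Body B ∧ Finite H₀ ∧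
      (lat B).ncard * Nat.card H₀ ≤ A.card ∧ (T.card : ℝ) ≤ T'.card * (6 * 1024 ^ m * Z) ∧
      Cov B θ H₀ T A := by
  classical
  obtain ⟨r, β, hr, hβV, hβs, hβU⟩ := lattice_basis U V hUV
  obtain ⟨hHfin, B, hB, hlat, hcard⟩ := body_exists (V := V) (R := R) hv hN hfin hU hUV hβV hβU hR
  have hApos : 0 < A.card := hA.card_pos
  have hAr : (0 : ℝ) < A.card := by exact_mod_cast hApos
  have hHpos : 0 < Nat.card (HU ψ H U) := Nat.card_pos
  have hHr : (0 : ℝ) < Nat.card (HU ψ H U) := by exact_mod_cast hHpos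
  have hrm : r ≤ m := by
    have h1 := Submodule.finrank_le V
    rw [finrank_fintype_fun_eq_card, Fintype.card_fin] at h1
    omega
  have hvol : ((lat B).ncard : ℝ) * Nat.card (HU ψ H U) ≤ Z * A.card := by
    refine le_trans ?_ hZ
    exact_mod_cast hcard
  have hBfin : (lat B).Finite := lat_finite hB.comp.isBounded
  have h1024 : (1 : ℝ) ≤ 1024 ^ m := one_le_pow₀ (by norm_num)
  -- covering by the reduced progression
  have key : ∀ a ∈ A, ∃ t ∈ T', ∃ x ∈ lat B, a - t - ψ (comb β x) ∈ HU ψ H U := by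
    intro a ha
    obtain ⟨t, ht, c, hc, hh⟩ := hcov a ha
    obtain ⟨x, hx⟩ := hβs c hc.1
    refine ⟨t, ht, x, ?_, c - comb β x, hx, ?_⟩
    · rw [hlat]
      have h1 : qq (-(c - comb β x)) ∈ U := by rw [map_neg]; exact U.neg_mem hx
      have h2 := hc.add_U hU hUV h1
      have e : c + -(c - comb β x) = comb β x := by abel
      rwa [e] at h2
    · have e : a - t - ψ (comb β x) - ψ (c - comb β x) = a - t - ψ c := by
        rw [map_sub]; abel
      rw [e]
      exact hh
  rcases Nat.lt_or_ge A.card (Nat.card (HU ψ H U)) with hbig | hsmall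
  · -- a large finite subgroup
    obtain ⟨l, g', H₁, T₁, hfin1, hle, hvol1, hT₁, hcov₁⟩ := H112.big_subgroup (HU ψ H U) hHfin hApos hbig
    let θ : (Fin 1 → ℤ) →+ Γ :=
      { toFun := fun c => c 0 • g'
        map_zero' := by simp
        map_add' := by intro a b; simp [add_smul] }
    refine ⟨1, Metric.closedBall 0 ((l : ℝ) + 1 / 2), θ, H₁,
      T' + (hBfin.toFinset.image (fun x => ψ (comb β x)) + T₁), Or.inr rfl, ⟨?_, ?_, ?_, ?_⟩, hfin1, ?_, ?_, ?_⟩
    · exact convex_closedBall _ _
    · exact isCompact_closedBall _ _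
    · refine ⟨0, mem_interior.2 ⟨Metric.ball 0 ((l : ℝ) + 1 / 2), Metric.ball_subset_closedBall,
        Metric.isOpen_ball, Metric.mem_ball_self (by positivity)⟩⟩
    · intro x hx
      rw [mem_closedBall_zero_iff] at hx ⊢
      rw [norm_neg]
      exact hx
    · have h1 : (lat (Metric.closedBall (0 : Fin 1 → ℝ) ((l : ℝ) + 1 / 2))).ncard ≤ 2 * l + 1 := by
        have h2 : (lat (Metric.closedBall (0 : Fin 1 → ℝ) ((l : ℝ) + 1 / 2))).ncard ≤
            (Set.Icc (-(l : ℤ)) (l : ℤ)).ncard := by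
          refine Set.ncard_le_ncard_of_injOn (fun c => c 0) ?_ ?_ (Set.finite_Icc _ _)
          · intro c hc
            have h3 := mem_closedBall_zero_iff.1 hc
            have h4 := (norm_le_pi_norm (re c) 0).trans h3
            have h5 : |((c 0 : ℤ) : ℝ)| ≤ (l : ℝ) + 1 / 2 := h4
            have h6 : |c 0| ≤ (l : ℤ) := by
              by_contra hcon
              push Not at hcon
              have h7 : ((l : ℤ) : ℝ) + 1 ≤ (|c 0| : ℤ) := by exact_mod_cast hcon
              push_cast at h7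
              linarith
            exact ⟨(abs_le.1 h6).1, (abs_le.1 h6).2⟩
          · intro a _ b _ hab
            funext i
            fin_cases i
            exact hab
        have h8 : (Set.Icc (-(l : ℤ)) (l : ℤ)).ncard = 2 * l + 1 := by
          rw [Set.ncard_eq_toFinset_card', Set.toFinset_Icc, Int.card_Icc]
          omega
        omega
      exact (Nat.mul_le_mul_right _ h1).trans hvol1
    · have h1 : ((T' + (hBfin.toFinset.image (fun x => ψ (comb β x)) + T₁)).card : ℝ) ≤
          T'.card * ((lat B).ncard * T₁.card) := by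
        have h2 := Finset.card_add_le (s := T') (t := hBfin.toFinset.image (fun x => ψ (comb β x)) + T₁)
        have h3 := Finset.card_add_le (s := hBfin.toFinset.image (fun x => ψ (comb β x))) (t := T₁)
        have h4 : (hBfin.toFinset.image (fun x => ψ (comb β x))).card ≤ (lat B).ncard := by
          rw [Set.ncard_eq_toFinset_card _ hBfin]
          exact Finset.card_image_le
        have h5 := h2.trans (Nat.mul_le_mul_left _ (h3.trans (Nat.mul_le_mul_right _ h4)))
        exact_mod_cast h5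
      refine h1.trans (mul_le_mul_of_nonneg_left ?_ (Nat.cast_nonneg _))
      have h6 : ((lat B).ncard : ℝ) * T₁.card ≤ 6 * Z := by
        have h7 : (((lat B).ncard : ℝ) * T₁.card) * A.card ≤ (6 * Z) * A.card := by
          calc (((lat B).ncard : ℝ) * T₁.card) * A.card = (lat B).ncard * (T₁.card * A.card) := by ring
            _ ≤ (lat B).ncard * (6 * Nat.card (HU ψ H U)) :=
              mul_le_mul_of_nonneg_left hT₁ (Nat.cast_nonneg _)
            _ = 6 * ((lat B).ncard * Nat.card (HU ψ H U)) := by ring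
            _ ≤ 6 * (Z * A.card) := by linarith
            _ = _ := by ring
        exact le_of_mul_le_mul_right h7 hAr
      nlinarith
    · intro a ha
      obtain ⟨t, ht, x, hx, hh⟩ := key a ha
      obtain ⟨t', ht', c, hc, k, hk, hk2⟩ := hcov₁ _ hh
      refine ⟨t + (ψ (comb β x) + t'), Finset.add_mem_add ht (Finset.add_mem_add
        (Finset.mem_image.2 ⟨x, (Set.Finite.mem_toFinset _).2 hx, rfl⟩) ht'), fun _ => c, ?_, k, hk, ?_⟩
      · show re (fun _ => c) ∈ Metric.closedBall (0 : Fin 1 → ℝ) ((l : ℝ) + 1 / 2)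
        rw [mem_closedBall_zero_iff, pi_norm_le_iff_of_nonneg (by positivity)]
        intro i
        show |(c : ℝ)| ≤ _
        have : |(c : ℝ)| ≤ l := by exact_mod_cast hc
        linarith
      · show a = t + (ψ (comb β x) + t') + c • g' + k
        have e : a = t + ψ (comb β x) + (a - t - ψ (comb β x)) := by abel
        rw [e, hk2]
        abel
  · -- the main case
    have hm : (1 : ℝ) ≤ (A.card : ℝ) / Nat.card (HU ψ H U) := by
      rw [le_div_iff₀ hHr, one_mul]
      exact_mod_cast hsmall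
    obtain ⟨s, F, hs, hsm, hF, hcovF⟩ := scale hB hm
    have hnum1 : num B 1 = (lat B).ncard := by rw [num, lat_one]
    have hmax : max 1 ((num B 1 : ℝ) / ((A.card : ℝ) / Nat.card (HU ψ H U))) ≤ Z := by
      apply max_le hZ1
      rw [div_div_eq_mul_div, div_le_iff₀ hAr, hnum1]
      exact hvol
    obtain ⟨B', hB', hlat'⟩ := fatten (hB.smul s)
    refine ⟨r, B', ψ.comp (comb β), HU ψ H U, T' + F.image (fun x => ψ (comb β x)), Or.inl hr, hB',
      hHfin, ?_, ?_, ?_⟩
    · rw [hlat']
      have h1 : (num B s : ℝ) * Nat.card (HU ψ H U) ≤ A.card := by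
        rw [le_div_iff₀ hHr] at hsm
        exact hsm
      exact_mod_cast h1
    · have hF' : (F.card : ℝ) ≤ 1024 ^ r * Z :=
        hF.trans (mul_le_mul_of_nonneg_left hmax (pow_nonneg (by norm_num) r))
      have h1 : ((T' + F.image (fun x => ψ (comb β x))).card : ℝ) ≤ T'.card * F.card := by
        have h2 := Finset.card_add_le (s := T') (t := F.image (fun x => ψ (comb β x)))
        have h3 := h2.trans (Nat.mul_le_mul_left _ Finset.card_image_le)
        exact_mod_cast h3
      refine h1.trans (mul_le_mul_of_nonneg_left (hF'.trans ?_) (Nat.cast_nonneg _))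
      have h4 : (1024 : ℝ) ^ r ≤ 1024 ^ m := pow_le_pow_right₀ (by norm_num) hrm
      have h5 : (1024 : ℝ) ^ r * Z ≤ 1024 ^ m * Z := mul_le_mul_of_nonneg_right h4 (by linarith)
      have h6 : 0 ≤ (1024 : ℝ) ^ m * Z := by positivity
      linarith
    · intro a ha
      obtain ⟨t, ht, x, hx, hh⟩ := key a ha
      have hx2 : x ∈ lat ((2 : ℝ) • B) := by
        rw [← lat_one] at hx
        exact lat_mono (hB.mono (by norm_num) (by norm_num)) hx
      obtain ⟨f, hf, w, hw, rfl⟩ := hcovF x hx2
      refine ⟨t + ψ (comb β f), Finset.add_mem_add ht (Finset.mem_image.2 ⟨f, hf, rfl⟩), w, ?_,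
        a - t - ψ (comb β (f + w)), hh, ?_⟩
      · rw [hlat']
        exact lat_mono (hB.mono (by positivity) (by linarith)) hw
      · show a = t + ψ (comb β f) + ψ (comb β w) + (a - t - ψ (comb β (f + w)))
        rw [map_add, map_add]
        abel

end

end Q148.SD
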