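import Pool.Agent.Q148.SD3

/-!
# The bound for the number of labels
-/

set_option autoImplicit false

namespace Q148.SD

open Finset
open scoped Pointwise

theorem exists_max {α : Type*} [Nonempty α] (f : α → ℕ) (B : ℕ) (hB : ∀ x, f x ≤ B) :
    ∃ x, ∀ y, f y ≤ f x := by
  have hfin : (Set.range f).Finite := (Set.finite_Iic B).subset (by
    rintro _ ⟨x, rfl⟩
    exact hB x)
  obtain ⟨a, ⟨x, rfl⟩, ha⟩ := Set.exists_max_image (Set.range f) id hfin (Set.range_nonempty f)
  exact ⟨x, fun y => ha _ ⟨y, rfl⟩⟩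

/-- a sequence that grows slowly has a step with slow growth -/
theorem slow_step (a : ℕ → ℝ) {g : ℝ} (hg : 0 < g) (J : ℕ) (hJ : 1 ≤ J) (h0 : a J ≤ g ^ J * a 0) :
    ∃ j < J, a (j + 1) ≤ g * a j := by
  by_contra hcon
  push Not at hcon
  have h1 : ∀ j, 1 ≤ j → j ≤ J → g ^ j * a 0 < a j := by
    intro j hj
    induction j, hj using Nat.le_induction with
    | base =>
      intro _
      have := hcon 0 (by omega)
      simpa using this
    | succ j hj ih =>
      intro h
      have h2 := hcon j (by omega)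
      have h3 := ih (by omega)
      calc g ^ (j + 1) * a 0 = g * (g ^ j * a 0) := by rw [pow_succ]; ring
        _ < g * a j := mul_lt_mul_of_pos_left h3 hg
        _ < a (j + 1) := h2
  exact absurd (h1 J hJ le_rfl) (not_lt.2 h0)

/-- **The number of the labels is bounded by the doubling.** -/
theorem main_abs {Γ : Type*} [AddCommGroup Γ] [DecidableEq Γ] {P : ℕ → Finset Γ} {n : ℕ}
    {lam : Γ → ℕ → ℚ} {e : ℕ → Γ} {Rm w : ℕ} (S : Sys P n lam e Rm w) (hw : 1 ≤ w)
    {θ : ℝ} (h0 : 0 ≤ θ) (h1 : θ ≤ 1) {A : Finset Γ} (hA : A.Nonempty) {K : ℝ}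
    (hK : ((A + A).card : ℝ) ≤ K * A.card) {δ Z E g : ℝ} (hδ0 : 0 < δ)
    (hδ : ∃ x, δ * A.card ≤ (A.filter (fun a => a - x ∈ P 2)).card)
    (hZ : ((P Rm).card : ℝ) ≤ Z * A.card) (hE1 : 1 ≤ E) {kmax J : ℕ} (hJ : 1 ≤ J)
    (hE : 1 < E ^ kmax * δ) (hRm : 2 * (4 * J) ^ kmax ≤ Rm) (hg : 1 ≤ g)
    (hG : ∀ R, 1 ≤ R → ((P (2 * R)).card : ℝ) ≤ g ^ J * (P R).card) :
    2 ^ n ≤ K * g * Real.sqrt E * ((1 + (w : ℝ) ^ (-θ)) ^ n * (Z / δ) ^ θ) := by
  classical
  have hApos : (0 : ℝ) < A.card := by exact_mod_cast hA.card_pos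
  let cnt : ℕ → Γ → ℕ := fun R y => (A.filter (fun a => a - y ∈ P R)).card
  have hcntA : ∀ R y, cnt R y ≤ A.card := fun R y => Finset.card_le_card (Finset.filter_subset _ _)
  have hex : ∀ R, ∃ x, ∀ y, cnt R y ≤ cnt R x := fun R => exists_max (cnt R) A.card (hcntA R)
  choose x hx using hex
  have hcmono : ∀ {R R' : ℕ}, R ≤ R' → ∀ y, cnt R y ≤ cnt R' y := by
    intro R R' h y
    apply Finset.card_le_card
    intro a ha
    have := Finset.mem_filter.1 ha
    exact Finset.mem_filter.2 ⟨this.1, S.mono h this.2⟩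
  obtain ⟨x2, hx2⟩ := hδ
  have hM2 : δ * A.card ≤ cnt 2 (x 2) := by
    refine hx2.trans ?_
    exact_mod_cast hx 2 x2
  have hJ4 : 1 ≤ 4 * J := by omega
  -- the scale
  obtain ⟨k, hk, hkE⟩ : ∃ k < kmax, (cnt (2 * (4 * J) ^ (k + 1)) (x (2 * (4 * J) ^ (k + 1))) : ℝ) ≤
      E * cnt (2 * (4 * J) ^ k) (x (2 * (4 * J) ^ k)) := by
    by_contra hcon
    push Not at hcon
    have h2 : ∀ k, k ≤ kmax → E ^ k * (δ * A.card) ≤ cnt (2 * (4 * J) ^ k) (x (2 * (4 * J) ^ k)) := by
      intro k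
      induction k with
      | zero =>
        intro _
        rw [pow_zero, pow_zero, mul_one, one_mul]
        exact hM2
      | succ k ih =>
        intro hk
        have h3 := ih (by omega)
        have h4 := (hcon k (by omega)).le
        calc E ^ (k + 1) * (δ * A.card) = E * (E ^ k * (δ * A.card)) := by rw [pow_succ]; ring
          _ ≤ E * cnt (2 * (4 * J) ^ k) (x (2 * (4 * J) ^ k)) :=
            mul_le_mul_of_nonneg_left h3 (by linarith)
          _ ≤ _ := h4
    have h3 := h2 kmax le_rfl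
    have h4 : (cnt (2 * (4 * J) ^ kmax) (x (2 * (4 * J) ^ kmax)) : ℝ) ≤ A.card := by
      exact_mod_cast hcntA _ _
    have h5 : 1 * (A.card : ℝ) < (E ^ kmax * δ) * A.card := mul_lt_mul_of_pos_right hE hApos
    linarith
  obtain ⟨R, hR⟩ : ∃ R, R = 2 * (4 * J) ^ k := ⟨_, rfl⟩
  have hRR : 2 * (4 * J) ^ (k + 1) = 4 * J * R := by rw [hR, pow_succ]; ring
  rw [hRR, ← hR] at hkE
  have hR2 : 2 ≤ R := by
    rw [hR]
    have := Nat.one_le_pow k (4 * J) (by omega)
    omega
  have hRmR : 4 * J * R ≤ Rm := by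
    rw [← hRR]
    refine le_trans ?_ hRm
    exact Nat.mul_le_mul_left 2 (Nat.pow_le_pow_right (by omega) (by omega))
  -- the intermediate scale
  obtain ⟨j, hj, hjg⟩ := slow_step (fun j => ((P (2 * J * R + 2 * j * R)).card : ℝ)) (by linarith : 0 < g)
    J hJ (by
      have h2 := hG (2 * J * R) (by nlinarith)
      have e1 : 2 * J * R + 2 * J * R = 2 * (2 * J * R) := by ring
      have e2 : 2 * J * R + 2 * 0 * R = 2 * J * R := by ring
      rw [e1, e2]
      exact h2)
  obtain ⟨x0, hx0⟩ : ∃ x0, x0 = x R := ⟨_, rfl⟩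
  obtain ⟨A', hA'⟩ : ∃ A', A' = A.filter (fun a => a - x0 ∈ P R) := ⟨_, rfl⟩
  have hA'c : A'.card = cnt R (x R) := by rw [hA', hx0]
  have hA'A : A' ⊆ A := by rw [hA']; exact Finset.filter_subset _ _
  have hA'δ : δ * A.card ≤ A'.card := by
    rw [hA'c]
    refine hM2.trans ?_
    exact_mod_cast (hcmono hR2 (x 2)).trans (hx R (x 2))
  have hA'pos : (0 : ℝ) < A'.card := lt_of_lt_of_le (by positivity) hA'δ
  have hA'ne : A'.Nonempty := by
    rw [← Finset.card_pos]
    exact_mod_cast hA'pos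
  obtain ⟨F, hF⟩ : ∃ F : ℝ, F = (1 + (w : ℝ) ^ (-θ)) ^ n * (Z / δ) ^ θ := ⟨_, rfl⟩
  have hZ0 : 0 < Z := by
    have h2 : (0 : ℝ) < (P Rm).card := by
      exact_mod_cast Finset.card_pos.2 ⟨0, S.zero Rm⟩
    by_contra hcon
    push Not at hcon
    nlinarith
  have hF0 : 0 < F := by rw [hF]; positivity
  have hsE : 0 < Real.sqrt E := Real.sqrt_pos.2 (by linarith)
  obtain ⟨κ, hκ⟩ : ∃ κ : ℝ, κ = 2 ^ n / (Real.sqrt E * F) := ⟨_, rfl⟩
  have hκ0 : 0 < κ := by rw [hκ]; positivity
  -- carving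
  have hcarve := carve (P1 := P (2 * J * R + 2 * j * R)) (P2 := P (2 * J * R + (2 * j + 1) * R))
    (P3 := P (2 * J * R + 2 * (j + 1) * R)) (A' := A') (x0 := x0) hA'ne ⟨0, S.zero _⟩
    (by
      intro y hy a ha
      rw [hA'] at ha
      have h2 := S.add _ _ _ _ hy (Finset.mem_filter.1 ha).2
      have e1 : 2 * J * R + 2 * j * R + R = 2 * J * R + (2 * j + 1) * R := by ring
      rwa [e1] at h2)
    (by
      intro y hy a ha
      rw [hA'] at ha
      have h2 := S.add _ _ _ _ hy (S.neg _ _ (Finset.mem_filter.1 ha).2)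
      have e1 : 2 * J * R + (2 * j + 1) * R + R = 2 * J * R + 2 * (j + 1) * R := by ring
      rw [e1, ← sub_eq_add_neg] at h2
      exact h2)
    (θ := 1 / g) (κ := κ) (by
      rw [one_div, inv_mul_le_iff₀ (by linarith)]
      exact hjg) hκ0.le A.card A le_rfl (by
      intro c Y hYA hYP
      rcases Y.eq_empty_or_nonempty with hemp | hYne
      · rw [hemp, Finset.card_empty, Nat.cast_zero, mul_zero]
        exact Nat.cast_nonneg _
      have hrad : (2 * J * R + 2 * j * R) + R + 1 ≤ 4 * J * R := by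
        have : j + 1 ≤ J := hj
        nlinarith
      have hYE : (Y.card : ℝ) ≤ E * A'.card := by
        have h2 : Y.card ≤ cnt (4 * J * R) c := by
          apply Finset.card_le_card
          intro y hy
          exact Finset.mem_filter.2 ⟨hYA hy, S.mono (by omega) (hYP y hy)⟩
        have h3 : Y.card ≤ cnt (4 * J * R) (x (4 * J * R)) := h2.trans (hx _ c)
        rw [hA'c]
        refine le_trans ?_ hkE
        exact_mod_cast h3
      have hYpos : (0 : ℝ) < Y.card := by exact_mod_cast hYne.card_pos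
      have hsc := sys_core S hw h0 h1 hYne hA'ne (c := c) (x0 := x0) (r1 := 2 * J * R + 2 * j * R)
        (r2 := R) hYP (by
          intro a ha
          rw [hA'] at ha
          exact (Finset.mem_filter.1 ha).2) (by omega)
      have hspos : (0 : ℝ) < (Y + A').card := by exact_mod_cast (hYne.add hA'ne).card_pos
      have hs2 : (A'.card : ℝ) ≤ (Y + A').card := by
        exact_mod_cast Finset.card_le_card_add_left hYne
      have hPs : ((P Rm).card : ℝ) ≤ (Z / δ) * (Y + A').card := by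
        calc ((P Rm).card : ℝ) ≤ Z * A.card := hZ
          _ = (Z / δ) * (δ * A.card) := by field_simp
          _ ≤ (Z / δ) * (Y + A').card :=
            mul_le_mul_of_nonneg_left (hA'δ.trans hs2) (by positivity)
      have h4 : ((Y + A').card : ℝ) ^ (1 - θ) * ((P Rm).card : ℝ) ^ θ ≤
          (Z / δ) ^ θ * (Y + A').card := by
        calc ((Y + A').card : ℝ) ^ (1 - θ) * ((P Rm).card : ℝ) ^ θ ≤
              ((Y + A').card : ℝ) ^ (1 - θ) * ((Z / δ) * (Y + A').card) ^ θ :=
              mul_le_mul_of_nonneg_left (Real.rpow_le_rpow (Nat.cast_nonneg _) hPs h0) (by positivity)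
          _ = (Z / δ) ^ θ * (((Y + A').card : ℝ) ^ (1 - θ) * ((Y + A').card : ℝ) ^ θ) := by
              rw [Real.mul_rpow (by positivity) hspos.le]; ring
          _ = (Z / δ) ^ θ * (Y + A').card := by
              rw [← Real.rpow_add hspos]
              have e1 : 1 - θ + θ = 1 := by ring
              rw [e1, Real.rpow_one]
      have h5 : 2 ^ n * Real.sqrt (Y.card * A'.card) ≤ F * (Y + A').card := by
        refine hsc.trans ?_
        rw [hF, mul_assoc]
        exact mul_le_mul_of_nonneg_left h4 (by positivity)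
      have h6 : (Y.card : ℝ) / Real.sqrt E ≤ Real.sqrt (Y.card * A'.card) := by
        apply Real.le_sqrt_of_sq_le
        rw [div_pow, Real.sq_sqrt (by linarith), div_le_iff₀ (by linarith)]
        nlinarith
      rw [hκ, div_mul_eq_mul_div, div_le_iff₀ (by positivity)]
      have h7 : 2 ^ n * ((Y.card : ℝ) / Real.sqrt E) ≤ F * (Y + A').card :=
        (mul_le_mul_of_nonneg_left h6 (by positivity)).trans h5
      have h8 : (2 : ℝ) ^ n * Y.card = (2 ^ n * ((Y.card : ℝ) / Real.sqrt E)) * Real.sqrt E := by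
        field_simp
      rw [h8]
      calc (2 ^ n * ((Y.card : ℝ) / Real.sqrt E)) * Real.sqrt E ≤ (F * (Y + A').card) * Real.sqrt E :=
            mul_le_mul_of_nonneg_right h7 hsE.le
        _ = _ := by ring)
  have hfin : κ * (1 / g) * A.card ≤ K * A.card := by
    refine hcarve.trans (le_trans ?_ hK)
    exact_mod_cast Finset.card_le_card (Finset.add_subset_add_left hA'A)
  have h9 : κ * (1 / g) ≤ K := le_of_mul_le_mul_right hfin hApos
  rw [hκ] at h9
  have hgpos : 0 < g := by linarith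
  have h10 : 2 ^ n / (Real.sqrt E * F) * (1 / g) = 2 ^ n / (g * Real.sqrt E * F) := by
    field_simp
  rw [h10, div_le_iff₀ (by positivity)] at h9
  rw [← hF]
  calc (2 : ℝ) ^ n ≤ K * (g * Real.sqrt E * F) := h9
    _ = _ := by ring

end Q148.SD
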