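import Pool.Agent.Q148.SD5
import Pool.Agent.Q148.SD4
import Pool.Agent.Y806.DF.C

/-!
# The system of scales of a progression
-/

set_option autoImplicit false

namespace Q148.SD

open Finset Pool.Agent.Y806.DF
open scoped Pointwise

section

variable {Γ : Type*} [AddCommGroup Γ] {m b : ℕ} {N : Seminorm ℝ (Fin m → ℝ)}
  {ψ : (Fin m → ℤ) →+ Γ} {H : AddSubgroup Γ} {V : Submodule ℚ (Fin m → ℚ)}
  {v : Fin b → (Fin m → ℤ)}

/-- A dense translate. -/
theorem density [DecidableEq Γ] {A T : Finset Γ} (hA : A.Nonempty)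
    (hcov : ∀ a ∈ A, ∃ t ∈ T, ∃ c ∈ H112.LL N 1, a - t - ψ c ∈ H) {q : ℕ} (hq : 1 ≤ q)
    (hV : ∀ c : Fin m → ℤ, N (re c) ≤ 2 / q → qq c ∈ V)
    [DecidablePred (fun p : Γ => p ∈ PP N ψ H V v 2)] :
    ∃ x, A.card ≤ T.card * q ^ m * (A.filter (fun a => a - x ∈ PP N ψ H V v 2)).card := by
  classical
  haveI : NeZero q := ⟨by omega⟩
  let P : Γ × (Fin m → ZMod q) → Γ → Prop := fun p g =>
    ∃ c ∈ H112.LL N 1, (fun i => (c i : ZMod q)) = p.2 ∧ g - p.1 - ψ c ∈ H
  obtain ⟨p, -, hp⟩ := pigeon (T ×ˢ (Finset.univ : Finset (Fin m → ZMod q))) A A hA P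
    (Finset.Subset.refl A) (by
      intro a ha
      obtain ⟨t, ht, c, hc, h⟩ := hcov a ha
      exact ⟨(t, fun i => (c i : ZMod q)), Finset.mk_mem_product ht (Finset.mem_univ _), c, hc, rfl, h⟩)
  rw [Finset.card_product, Finset.card_univ, Fintype.card_fun, Fintype.card_fin, ZMod.card] at hp
  have hne : (A.filter (P p)).Nonempty := by
    rw [← Finset.card_pos]
    by_contra hcon
    have h0 : (A.filter (P p)).card = 0 := by omega
    rw [h0, mul_zero] at hp
    have := hA.card_pos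
    omega
  obtain ⟨g0, hg0⟩ := hne
  obtain ⟨c0, hc0, hr0, hh0⟩ := (Finset.mem_filter.1 hg0).2
  refine ⟨g0, hp.trans (Nat.mul_le_mul_left _ (Finset.card_le_card ?_))⟩
  intro g hg
  obtain ⟨c, hc, hr, hh⟩ := (Finset.mem_filter.1 hg).2
  refine Finset.mem_filter.2 ⟨(Finset.mem_filter.1 hg).1, c - c0, ?_, ?_⟩
  · have hn : N (re (c - c0)) ≤ 2 := by
      rw [re_sub]
      have h1 : N (re c) ≤ 1 := hc
      have h2 : N (re c0) ≤ 1 := hc0
      have h3 := map_sub_le_add N (re c) (re c0)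
      linarith
    have hdiv : ∀ i, ∃ k : ℤ, c i - c0 i = q * k := by
      intro i
      have h5 : (c i : ZMod q) = (c0 i : ZMod q) := by
        have : (fun i => (c i : ZMod q)) = fun i => (c0 i : ZMod q) := by rw [hr, hr0]
        exact congrFun this i
      have h6 := (ZMod.intCast_eq_intCast_iff_dvd_sub (c0 i) (c i) q).1 h5.symm
      exact h6
    choose k hk using hdiv
    have e : c - c0 = (q : ℤ) • k := by funext i; simpa using hk i
    refine Good.of_norm ?_ hn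
    rw [e, map_zsmul, natCast_zsmul, ← Nat.cast_smul_eq_nsmul ℚ]
    apply V.smul_mem
    apply hV
    rw [e, re_zsmul, map_smul_eq_mul] at hn
    have hq0 : (0 : ℝ) < q := by exact_mod_cast hq
    rw [le_div_iff₀ hq0]
    have h7 : ‖(((q : ℕ) : ℤ) : ℝ)‖ = q := by
      rw [Int.cast_natCast]
      exact Real.norm_of_nonneg hq0.le
    rw [h7] at hn
    linarith
  · have e : g - g0 - ψ (c - c0) = (g - p.1 - ψ c) - (g0 - p.1 - ψ c0) := by
      rw [map_sub]; abel
    rw [e]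
    exact H.sub_mem hh hh0

/-- **The labels.** -/
theorem sys_of [Finite H] (hv : ∀ j, ψ (v j) ∈ H) {M : ℝ} (hN : ∀ j, N (re (v j)) ≤ M)
    (hfin : ∀ r, (H112.LL N r).Finite) {U' : Submodule ℚ (Fin m → ℚ)} {M' : ℝ}
    (hU' : ∀ c : Fin m → ℤ, ψ c ∈ H → N (re c) ≤ M' → qq c ∈ U') (hvU : ∀ j, qq (v j) ∈ U')
    {n : ℕ} (π : (Fin m → ℚ) →ₗ[ℚ] (Fin n → ℚ)) (hπU : ∀ x ∈ U', π x = 0)
    (wv : Fin n → (Fin m → ℤ)) (hwπ : ∀ j, π (qq (wv j)) = Pi.single j 1)
    (hwV : ∀ j, qq (wv j) ∈ V) {ε' : ℝ} (hwN : ∀ j, N (re (wv j)) ≤ ε') {w Rm : ℕ}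
    (hw : (n : ℝ) * w * ε' ≤ 1) (hRm1 : 1 ≤ Rm) (hRm : 2 * (Rm : ℝ) + b * M ≤ M') :
    ∃ lam e, Sys (fun R : ℕ => (PP_finite (V := V) hv hN hfin (R : ℝ)).toFinset) n lam e Rm w := by
  classical
  let lamV : Γ → (Fin n → ℚ) := fun g =>
    if h : ∃ c, Good N V v (Rm : ℝ) c ∧ g - ψ c ∈ H then π (qq (Classical.choose h)) else 0
  have hlam : ∀ g c, Good N V v (Rm : ℝ) c → g - ψ c ∈ H → lamV g = π (qq c) := by
    intro g c hc hg
    have hex : ∃ c, Good N V v (Rm : ℝ) c ∧ g - ψ c ∈ H := ⟨c, hc, hg⟩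
    have h1 : lamV g = π (qq (Classical.choose hex)) := dif_pos hex
    obtain ⟨h2, h3⟩ := Classical.choose_spec hex
    rw [h1]
    obtain ⟨c', hc'⟩ : ∃ c', c' = Classical.choose hex := ⟨_, rfl⟩
    rw [← hc'] at h2 h3 ⊢
    have h4 := h2.sub hc
    obtain ⟨z, hz⟩ := h4.reduce hN
    have h5 : ψ (c' - c - ∑ j, z j • v j) ∈ H := by
      rw [map_sub, map_sub]
      have e : ψ c' - ψ c = (g - ψ c) - (g - ψ c') := by abel
      rw [e]
      exact H.sub_mem (H.sub_mem hg h3) (sum_mem_H hv z)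
    have h6 := hU' _ h5 (hz.trans (by linarith))
    have h7 : qq (c' - c) ∈ U' := by
      have e : qq (c' - c) = qq (c' - c - ∑ j, z j • v j) + ∑ j, z j • qq (v j) := by
        rw [map_sub qq (c' - c), map_sum]
        simp only [map_zsmul]
        abel
      rw [e]
      refine U'.add_mem h6 (U'.sum_mem fun j _ => ?_)
      rw [← Int.cast_smul_eq_zsmul ℚ]
      exact U'.smul_mem _ (hvU j)
    have h8 := hπU _ h7
    rw [map_sub, map_sub, sub_eq_zero] at h8
    exact h8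
  refine ⟨fun g i => if h : i < n then lamV g ⟨i, h⟩ else 0,
    fun i => if h : i < n then ψ (wv ⟨i, h⟩) else 0, ?_, ?_, ?_, ?_, ?_⟩
  · intro a
    rw [Set.Finite.mem_toFinset]
    exact PP_zero (Nat.cast_nonneg a)
  · intro a b' x y hx hy
    rw [Set.Finite.mem_toFinset] at hx hy ⊢
    rw [Nat.cast_add]
    exact PP_add hx hy
  · intro a x hx
    rw [Set.Finite.mem_toFinset] at hx ⊢
    exact PP_neg hx
  · intro a b' x y hx hy hab i hi
    rw [Set.Finite.mem_toFinset] at hx hy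
    obtain ⟨c, hc, h⟩ := hx
    obtain ⟨c', hc', h'⟩ := hy
    have hab' : (a : ℝ) + b' ≤ Rm := by exact_mod_cast hab
    have ha0 : (0 : ℝ) ≤ a := Nat.cast_nonneg a
    have hb0 : (0 : ℝ) ≤ b' := Nat.cast_nonneg b'
    have e : x + y - ψ (c + c') = (x - ψ c) + (y - ψ c') := by rw [map_add]; abel
    have h1 := hlam (x + y) (c + c') ((hc.add hc').mono hab') (by rw [e]; exact H.add_mem h h')
    have h2 := hlam x c (hc.mono (by linarith)) h
    have h3 := hlam y c' (hc'.mono (by linarith)) h'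
    simp only [dif_pos hi]
    rw [h1, h2, h3, map_add, map_add]
    rfl
  · intro c hc
    obtain ⟨C, hC⟩ : ∃ C : Fin m → ℤ, C = ∑ j : Fin n, (c j : ℤ) • wv j := ⟨_, rfl⟩
    have hsum : ∑ i ∈ range n, c i • (if h : i < n then ψ (wv ⟨i, h⟩) else 0) = ψ C := by
      rw [Finset.sum_range, hC, map_sum]
      refine Finset.sum_congr rfl fun j _ => ?_
      rw [dif_pos j.2, map_zsmul, natCast_zsmul]
    have hCV : qq C ∈ V := by
      rw [hC, map_sum]
      refine V.sum_mem fun j _ => ?_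
      rw [map_zsmul, ← Int.cast_smul_eq_zsmul ℚ]
      exact V.smul_mem _ (hwV j)
    have hCN : N (re C) ≤ 1 := by
      rw [hC, re_sum]
      have h4 : N (∑ j : Fin n, re ((c j : ℤ) • wv j)) ≤ ∑ j : Fin n, N (re ((c j : ℤ) • wv j)) :=
        Finset.le_sum_of_subadditive N (map_zero N).le (map_add_le_add N) _ _
      refine h4.trans (le_trans (Finset.sum_le_sum (g := fun _ => (w : ℝ) * ε') ?_) ?_)
      · intro j _
        rw [re_zsmul, map_smul_eq_mul, Int.cast_natCast, Real.norm_of_nonneg (Nat.cast_nonneg _)]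
        have h5 : (c j : ℝ) ≤ w := by exact_mod_cast (hc j).le
        have h6 := apply_nonneg N (re (wv j))
        exact mul_le_mul h5 (hwN j) h6 (Nat.cast_nonneg _)
      · rw [Finset.sum_const, Finset.card_univ, Fintype.card_fin, nsmul_eq_mul]
        linarith
    have hg : Good N V v 1 C := Good.of_norm hCV hCN
    have hRm1' : (1 : ℝ) ≤ Rm := by exact_mod_cast hRm1
    constructor
    · show (∑ i ∈ range n, c i • (if h : i < n then ψ (wv ⟨i, h⟩) else 0)) ∈ _
      rw [hsum, Set.Finite.mem_toFinset, Nat.cast_one]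
      exact ⟨C, hg, by rw [sub_self]; exact H.zero_mem⟩
    · intro i hi
      show (if h : i < n then lamV (∑ i ∈ range n, c i • (if h : i < n then ψ (wv ⟨i, h⟩) else 0)) ⟨i, h⟩
        else 0) = _
      rw [hsum, dif_pos hi, hlam (ψ C) C (hg.mono hRm1') (by rw [sub_self]; exact H.zero_mem), hC,
        map_sum, map_sum, Finset.sum_apply]
      have h9 : ∀ j ∈ (Finset.univ : Finset (Fin n)), π (qq ((c j : ℤ) • wv j)) ⟨i, hi⟩ =
          if (⟨i, hi⟩ : Fin n) = j then (c j : ℚ) else 0 := by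
        intro j _
        rw [map_zsmul, map_zsmul, hwπ j]
        show ((c j : ℤ) • (Pi.single j (1 : ℚ) : Fin n → ℚ)) ⟨i, hi⟩ = _
        rw [Pi.smul_apply, Pi.single_apply]
        split_ifs <;> simp
      rw [Finset.sum_congr rfl h9, Finset.sum_ite_eq]
      simp

end

end Q148.SD
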