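import Pool.Agent.Q148.SD5

/-!
# Linear algebra: dimensions, labels, the choice of the scales
-/

set_option autoImplicit false

namespace Q148.SD

open Finset Pool.Agent.Y806.DF Module
open scoped Pointwise

section

variable {E : Type*} [AddCommGroup E] [Module ℚ E] [FiniteDimensional ℚ E]

theorem dim_count (W W' U U' : Submodule ℚ E) (hW : W' ≤ W) (hU : U ≤ U') :
    (finrank ℚ (W ⊔ U : Submodule ℚ E) : ℤ) - finrank ℚ U ≤
      ((finrank ℚ (W' ⊔ U' : Submodule ℚ E) : ℤ) - finrank ℚ U') +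
      (((finrank ℚ W : ℤ) - finrank ℚ W') + ((finrank ℚ U' : ℤ) - finrank ℚ U)) := by
  have h1 := Submodule.finrank_sup_add_finrank_inf_eq W U
  have h2 := Submodule.finrank_sup_add_finrank_inf_eq W' U'
  have h3 := Submodule.finrank_sup_add_finrank_inf_eq (W ⊓ U') U
  have h4 : (W ⊓ U') ⊓ U = W ⊓ U := by rw [inf_assoc, inf_eq_right.2 hU]
  rw [h4] at h3
  have h5 : finrank ℚ ((W ⊓ U') ⊔ U : Submodule ℚ E) ≤ finrank ℚ U' :=
    Submodule.finrank_mono (sup_le inf_le_right hU)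
  have h6 : finrank ℚ (W' ⊓ U' : Submodule ℚ E) ≤ finrank ℚ (W ⊓ U' : Submodule ℚ E) :=
    Submodule.finrank_mono (inf_le_inf_right _ hW)
  omega

/-- labels: a maximal independent family modulo `U'` and its coordinate functions -/
theorem labels (S : Set E) (U' : Submodule ℚ E) :
    ∃ (n : ℕ) (w : Fin n → E) (π : E →ₗ[ℚ] (Fin n → ℚ)), (∀ i, w i ∈ S) ∧
      (∀ x ∈ U', π x = 0) ∧ (∀ j, π (w j) = Pi.single j 1) ∧
      finrank ℚ (Submodule.span ℚ S ⊔ U' : Submodule ℚ E) ≤ n + finrank ℚ U' := by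
  classical
  obtain ⟨n, f, hf, hspan, hli⟩ : ∃ (n : ℕ) (f : Fin n → E ⧸ U'), (∀ i, f i ∈ U'.mkQ '' S) ∧
      Submodule.span ℚ (Set.range f) = Submodule.span ℚ (U'.mkQ '' S) ∧ LinearIndependent ℚ f :=
    ⟨_, Submodule.exists_fun_fin_finrank_span_eq ℚ (U'.mkQ '' S)⟩
  have hf' : ∀ i, ∃ x ∈ S, U'.mkQ x = f i := fun i => hf i
  choose w hw hwf using hf'
  obtain ⟨g, hg⟩ := LinearMap.exists_leftInverse_of_injective (Fintype.linearCombination ℚ f)
    (LinearMap.ker_eq_bot.2 (by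
      exact linearIndependent_iff_injective_fintypeLinearCombination.1 hli))
  refine ⟨_, w, g.comp U'.mkQ, hw, ?_, ?_, ?_⟩
  · intro x hx
    rw [LinearMap.comp_apply, Submodule.mkQ_apply, (Submodule.Quotient.mk_eq_zero U').2 hx, map_zero]
  · intro j
    rw [LinearMap.comp_apply, hwf j]
    have h1 : f j = Fintype.linearCombination ℚ f (Pi.single j 1) := by
      rw [Fintype.linearCombination_apply_single, one_smul]
    rw [h1]
    exact LinearMap.congr_fun hg _
  · have h2 : Submodule.span ℚ S ⊔ U' ≤ Submodule.span ℚ (Set.range w) ⊔ U' := by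
      refine sup_le ?_ le_sup_right
      have h3 : Submodule.map U'.mkQ (Submodule.span ℚ S) ≤
          Submodule.map U'.mkQ (Submodule.span ℚ (Set.range w)) := by
        rw [Submodule.map_span, Submodule.map_span, ← hspan]
        apply Submodule.span_mono
        rintro _ ⟨i, rfl⟩
        exact ⟨w i, ⟨i, rfl⟩, hwf i⟩
      rw [Submodule.map_le_iff_le_comap, Submodule.comap_map_eq, Submodule.ker_mkQ] at h3
      exact h3
    refine (Submodule.finrank_mono h2).trans ((Submodule.finrank_add_le_finrank_add_finrank _ _).trans ?_)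
    refine Nat.add_le_add_right ?_ _
    have h4 := finrank_range_le_card (R := ℚ) w
    rw [Fintype.card_fin] at h4
    exact h4

end

section

variable {Γ : Type*} [AddCommGroup Γ] {m : ℕ} (N : Seminorm ℝ (Fin m → ℝ))
  (ψ : (Fin m → ℤ) →+ Γ) (H : AddSubgroup Γ)

/-- integer vectors of small norm -/
def Wset (x : ℝ) : Set (Fin m → ℚ) := {q | ∃ c : Fin m → ℤ, N (re c) ≤ x ∧ qq c = q}

/-- relations of bounded norm -/
def Uset (x : ℝ) : Set (Fin m → ℚ) := {q | ∃ c : Fin m → ℤ, ψ c ∈ H ∧ N (re c) ≤ x ∧ qq c = q}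

/-- the span of the short integer vectors -/
def Wt (x : ℝ) : Submodule ℚ (Fin m → ℚ) := Submodule.span ℚ (Wset N x)

/-- the span of the short relations -/
def Ut (x : ℝ) : Submodule ℚ (Fin m → ℚ) := Submodule.span ℚ (Uset N ψ H x)

theorem Wt_mono {x y : ℝ} (h : x ≤ y) : Wt N x ≤ Wt N y := by
  apply Submodule.span_mono
  rintro q ⟨c, hc, hq⟩
  exact ⟨c, hc.trans h, hq⟩

theorem Ut_mono {x y : ℝ} (h : x ≤ y) : Ut N ψ H x ≤ Ut N ψ H y := by
  apply Submodule.span_mono
  rintro q ⟨c, hc, hc2, hq⟩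
  exact ⟨c, hc, hc2.trans h, hq⟩

/-- choice of the scale -/
theorem choose_scale (t : ℕ → ℝ) {η : ℝ} {I : ℕ} (hI1 : 1 ≤ I)
    (hI : 2 * (m : ℝ) ≤ I * η) :
    ∃ i < I, (((finrank ℚ (Wt N (Real.exp (-t i))) : ℝ) - finrank ℚ (Wt N (Real.exp (-t (i + 1))))) +
      ((finrank ℚ (Ut N ψ H (Real.exp (t (i + 1)))) : ℝ) - finrank ℚ (Ut N ψ H (Real.exp (t i))))) ≤ η := by
  by_contra hcon
  push Not at hcon
  have h1 : ∀ i, 1 ≤ i → i ≤ I → i * η <
      ((finrank ℚ (Wt N (Real.exp (-t 0))) : ℝ) - finrank ℚ (Wt N (Real.exp (-t i)))) +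
      ((finrank ℚ (Ut N ψ H (Real.exp (t i))) : ℝ) - finrank ℚ (Ut N ψ H (Real.exp (t 0)))) := by
    intro i hi
    induction i, hi using Nat.le_induction with
    | base =>
      intro _
      have := hcon 0 (by omega)
      rw [zero_add] at this
      push_cast
      linarith
    | succ i hi ih =>
      intro h
      have h2 := hcon i (by omega)
      have h3 := ih (by omega)
      push_cast
      linarith
  have h2 := h1 I hI1 le_rfl
  have hm : finrank ℚ (Fin m → ℚ) = m := by rw [finrank_fintype_fun_eq_card, Fintype.card_fin]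
  have h3 : (finrank ℚ (Wt N (Real.exp (-t 0))) : ℝ) ≤ m := by
    have := Submodule.finrank_le (Wt N (Real.exp (-t 0)))
    rw [hm] at this
    exact_mod_cast this
  have h4 : (finrank ℚ (Ut N ψ H (Real.exp (t I))) : ℝ) ≤ m := by
    have := Submodule.finrank_le (Ut N ψ H (Real.exp (t I)))
    rw [hm] at this
    exact_mod_cast this
  have h5 : (0 : ℝ) ≤ finrank ℚ (Wt N (Real.exp (-t I))) := Nat.cast_nonneg _
  have h6 : (0 : ℝ) ≤ finrank ℚ (Ut N ψ H (Real.exp (t 0))) := Nat.cast_nonneg _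
  linarith

/-- a basis of the span of the short relations -/
theorem relations (x : ℝ) : ∃ (b : ℕ) (v : Fin b → (Fin m → ℤ)), b ≤ m ∧ (∀ j, ψ (v j) ∈ H) ∧
    (∀ j, N (re (v j)) ≤ x) ∧ Submodule.span ℚ (Set.range fun j => qq (v j)) = Ut N ψ H x ∧
    LinearIndependent ℚ (fun j => qq (v j)) ∧ b = finrank ℚ (Ut N ψ H x) := by
  obtain ⟨f, hf, hspan, hli⟩ := Submodule.exists_fun_fin_finrank_span_eq ℚ (Uset N ψ H x)
  have hf' : ∀ i, ∃ c : Fin m → ℤ, ψ c ∈ H ∧ N (re c) ≤ x ∧ qq c = f i := fun i => hf i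
  choose v hv1 hv2 hv3 using hf'
  have hfun : (fun j => qq (v j)) = f := funext hv3
  refine ⟨_, v, ?_, hv1, hv2, ?_, ?_, rfl⟩
  · have := Submodule.finrank_le (Submodule.span ℚ (Uset N ψ H x))
    rw [finrank_fintype_fun_eq_card, Fintype.card_fin] at this
    exact this
  · rw [hfun]; exact hspan
  · rw [hfun]; exact hli

end

end Q148.SD
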