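import Pool.Agent.Q148.SD10
import Pool.Agent.Q148.SD7
import Pool.Agent.Q148.SD6
import Pool.Agent.H112R2.Final

/-!
# One scale
-/

set_option autoImplicit false

namespace Q148.SD

open Finset Pool.Agent.Y806.DF Module
open scoped Pointwise

theorem gauge_exists {m : ℕ} {B : Set (Fin m → ℝ)} (hB : H112.SymmBody B) :
    ∃ N : Seminorm ℝ (Fin m → ℝ), ∀ x, N x ≤ 1 ↔ x ∈ B := by
  obtain ⟨hconv, hcomp, ⟨x0, hx0⟩, hsymm⟩ := hB
  have h0 : (0 : Fin m → ℝ) ∈ interior B := by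
    have h1 : -x0 ∈ B := hsymm _ (interior_subset hx0)
    have h2 := hconv.openSegment_interior_self_subset_interior hx0 h1
    apply h2
    exact ⟨1 / 2, 1 / 2, by norm_num, by norm_num, by norm_num, by
      rw [← smul_add, add_neg_cancel, smul_zero]⟩
  have hnhds : B ∈ nhds (0 : Fin m → ℝ) := mem_interior_iff_mem_nhds.1 h0
  have hbal : Balanced ℝ B := (balanced_iff_neg_mem hconv).2 fun x hx => hsymm x hx
  refine ⟨gaugeSeminorm hbal hconv (absorbent_nhds_zero hnhds), fun x => ?_⟩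
  have h1 : gaugeSeminorm hbal hconv (absorbent_nhds_zero hnhds) x = gauge B x := rfl
  rw [h1, gauge_le_one_iff_mem_closure hconv hnhds, hcomp.isClosed.closure_eq]

theorem sym_of {m : ℕ} {B : Set (Fin m → ℝ)} (hB : H112.SymmBody B) : Sym B where
  conv := hB.1
  comp := hB.2.1
  symm := hB.2.2.2
  ne := hB.2.2.1.mono interior_subset

theorem LL_sub {m : ℕ} {B : Set (Fin m → ℝ)} {N : Seminorm ℝ (Fin m → ℝ)}
    (hN : ∀ x, N x ≤ 1 ↔ x ∈ B) {r t : ℝ} (ht : 0 < t) (hrt : r ≤ t) :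
    H112.LL N r ⊆ lat (t • B) := by
  intro c hc
  have hc' : N (re c) ≤ r := hc
  refine ⟨(1 / t) • re c, ?_, ?_⟩
  · rw [← hN, map_smul_eq_mul, Real.norm_of_nonneg (by positivity), one_div, inv_mul_le_iff₀ ht]
    linarith
  · show t • (1 / t) • re c = re c
    rw [smul_smul, mul_one_div_cancel ht.ne', one_smul]

theorem LL_fin {m : ℕ} {B : Set (Fin m → ℝ)} (hB : H112.SymmBody B) {N : Seminorm ℝ (Fin m → ℝ)}
    (hN : ∀ x, N x ≤ 1 ↔ x ∈ B) (r : ℝ) : (H112.LL N r).Finite :=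
  ((sym_of hB).finite (max r 1)).subset
    (LL_sub hN (lt_of_lt_of_le one_pos (le_max_right _ _)) (le_max_left _ _))

theorem LL_card {m : ℕ} {B : Set (Fin m → ℝ)} (hB : H112.SymmBody B) {N : Seminorm ℝ (Fin m → ℝ)}
    (hN : ∀ x, N x ≤ 1 ↔ x ∈ B) {r : ℝ} {a : ℕ} (hr : r ≤ 2 ^ a) :
    (H112.LL N r).ncard ≤ (4 ^ a) ^ m * (lat B).ncard := by
  have h1 := num_pow (sym_of hB) (t := 1) (by norm_num) a
  have h2 : (H112.LL N r).ncard ≤ num B (2 ^ a * 1) := by
    rw [mul_one]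
    exact Set.ncard_le_ncard (LL_sub hN (by positivity) hr) ((sym_of hB).finite _)
  have h3 : num B 1 = (lat B).ncard := by rw [num, lat_one]
  rw [h3] at h1
  exact h2.trans h1

theorem label_card {E : Type*} [AddCommGroup E] [Module ℚ E] [FiniteDimensional ℚ E] {n : ℕ}
    (π : E →ₗ[ℚ] (Fin n → ℚ)) (w : Fin n → E) (hw : ∀ j, π (w j) = Pi.single j 1) :
    n ≤ finrank ℚ E := by
  have h1 : LinearIndependent ℚ w := by
    apply LinearIndependent.of_comp π
    have h2 : π ∘ w = fun j => Pi.single j (1 : ℚ) := funext hw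
    rw [h2]
    have h3 := (Pi.basisFun ℚ (Fin n)).linearIndependent
    have h4 : (⇑(Pi.basisFun ℚ (Fin n))) = fun j => Pi.single j (1 : ℚ) := by
      funext j
      exact Pi.basisFun_apply ℚ (Fin n) j
    rwa [h4] at h3
  have := h1.fintype_card_le_finrank
  rwa [Fintype.card_fin] at this

/-! ### Numerical bounds -/

theorem e_low : (2.7 : ℝ) ≤ Real.exp 1 := by have := Real.exp_one_gt_d9; linarith

theorem lam_exp {c k : ℝ} (n : ℕ) (hn : 1 ≤ n) (hc : c ≤ 2.7 ^ n) (hk : (n : ℝ) ≤ k) {Λ : ℝ}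
    (hΛ : 1 ≤ Λ) : c * Λ ≤ Real.exp (k * Λ) := by
  have h1 : Λ ≤ Real.exp (Λ - 1) := by
    have := Real.add_one_le_exp (Λ - 1)
    linarith
  have h2 : c ≤ Real.exp n := by
    have h3 : Real.exp (n : ℝ) = Real.exp 1 ^ n := by rw [← Real.exp_nat_mul, mul_one]
    rw [h3]
    exact hc.trans (pow_le_pow_left₀ (by norm_num) e_low n)
  have hn' : (1 : ℝ) ≤ n := by exact_mod_cast hn
  calc c * Λ ≤ Real.exp n * Real.exp (Λ - 1) :=
        mul_le_mul h2 h1 (by linarith) (Real.exp_pos _).le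
    _ = Real.exp (n + (Λ - 1)) := (Real.exp_add _ _).symm
    _ ≤ Real.exp (k * Λ) := by
        apply Real.exp_le_exp.2
        nlinarith

theorem log_two_lt : Real.log 2 < 0.7 := by have := Real.log_two_lt_d9; linarith

theorem four_pow_le {m : ℕ} {D : ℝ} (hm : (m : ℝ) ≤ 300 * D) : (4 : ℝ) ^ m ≤ Real.exp (420 * D) := by
  have h1 : (4 : ℝ) = Real.exp (2 * Real.log 2) := by
    rw [two_mul, Real.exp_add, Real.exp_log (by norm_num)]; norm_num
  rw [h1, ← Real.exp_nat_mul]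
  apply Real.exp_le_exp.2
  have h2 := log_two_lt
  have h3 := Real.log_pos (by norm_num : (1 : ℝ) < 2)
  have h4 : (0 : ℝ) ≤ m := Nat.cast_nonneg m
  nlinarith

theorem pow1024_le {m : ℕ} {D : ℝ} (hm : (m : ℝ) ≤ 300 * D) : (1024 : ℝ) ^ m ≤ Real.exp (2100 * D) := by
  have h1 : (1024 : ℝ) = Real.exp (10 * Real.log 2) := by
    rw [mul_comm, Real.exp_mul, Real.exp_log (by norm_num)]; norm_num
  rw [h1, ← Real.exp_nat_mul]
  apply Real.exp_le_exp.2
  have h2 := log_two_lt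
  have h3 := Real.log_pos (by norm_num : (1 : ℝ) < 2)
  have h4 : (0 : ℝ) ≤ m := Nat.cast_nonneg m
  nlinarith

end Q148.SD
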