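import Pool.Agent.Q148.SD11

/-!
# The theorem at one scale
-/

set_option autoImplicit false

namespace Q148.SD

open Finset Pool.Agent.Y806.DF Module
open scoped Pointwise

theorem num_Rm {D s Λ : ℝ} (hs : 1 ≤ s) (hDs : D ≤ Real.exp s) (hΛ : 1 ≤ Λ)
    {m b kmax J : ℕ} (hm : (m : ℝ) ≤ 300 * D) (hb : b ≤ m) (hk2 : (kmax : ℝ) ≤ 14001 * s * Λ)
    (hJ2 : (4 * J : ℝ) ≤ 1684 * Λ) :
    2 * ((2 * (4 * J) ^ kmax : ℕ) : ℝ) + b * Real.exp s ≤ Real.exp (120000 * Λ ^ 2 * s) := by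
  have h1 : (1684 : ℝ) * Λ ≤ Real.exp (8 * Λ) := lam_exp 8 (by norm_num) (by norm_num) (by norm_num) hΛ
  have h2 : (4 * J : ℝ) ^ kmax ≤ Real.exp (112008 * Λ ^ 2 * s) := by
    calc (4 * J : ℝ) ^ kmax ≤ (Real.exp (8 * Λ)) ^ kmax :=
          pow_le_pow_left₀ (by positivity) (hJ2.trans h1) _
      _ = Real.exp (kmax * (8 * Λ)) := by rw [← Real.exp_nat_mul]
      _ ≤ Real.exp (112008 * Λ ^ 2 * s) := by
          apply Real.exp_le_exp.2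
          have : (kmax : ℝ) * (8 * Λ) ≤ (14001 * s * Λ) * (8 * Λ) :=
            mul_le_mul_of_nonneg_right hk2 (by positivity)
          linarith
  have h3 : (b : ℝ) * Real.exp s ≤ Real.exp (8 * s) := by
    have h4 : (b : ℝ) ≤ 300 * Real.exp s := by
      have h5 : (b : ℝ) ≤ m := by exact_mod_cast hb
      linarith
    have h6 : (300 : ℝ) * s ≤ Real.exp (6 * s) := lam_exp 6 (by norm_num) (by norm_num) (by norm_num) hs
    have h7 : (300 : ℝ) ≤ Real.exp (6 * s) := by nlinarith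
    calc (b : ℝ) * Real.exp s ≤ (Real.exp (6 * s) * Real.exp s) * Real.exp s := by
          refine mul_le_mul_of_nonneg_right (h4.trans ?_) (Real.exp_pos _).le
          exact mul_le_mul_of_nonneg_right h7 (Real.exp_pos _).le
      _ = Real.exp (8 * s) := by rw [← Real.exp_add, ← Real.exp_add]; congr 1; ring
  have hΛ2 : 1 ≤ Λ ^ 2 := one_le_pow₀ hΛ
  have hΛs : s ≤ Λ ^ 2 * s := by nlinarith
  have h8 : Real.exp (8 * s) ≤ Real.exp (112008 * Λ ^ 2 * s) := by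
    apply Real.exp_le_exp.2
    nlinarith
  have h9 : (5 : ℝ) * s ≤ Real.exp (2 * s) := lam_exp 2 (by norm_num) (by norm_num) (by norm_num) hs
  have h10 : (5 : ℝ) ≤ Real.exp (2 * s) := by nlinarith
  have h11 : 2 * ((2 * (4 * J) ^ kmax : ℕ) : ℝ) = 4 * (4 * J : ℝ) ^ kmax := by push_cast; ring
  rw [h11]
  calc 4 * (4 * J : ℝ) ^ kmax + b * Real.exp s ≤ 5 * Real.exp (112008 * Λ ^ 2 * s) := by linarith
    _ ≤ Real.exp (2 * s) * Real.exp (112008 * Λ ^ 2 * s) :=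
        mul_le_mul_of_nonneg_right h10 (Real.exp_pos _).le
    _ = Real.exp (2 * s + 112008 * Λ ^ 2 * s) := (Real.exp_add _ _).symm
    _ ≤ Real.exp (120000 * Λ ^ 2 * s) := by
        apply Real.exp_le_exp.2
        nlinarith

theorem num_a {ρ D : ℝ} (hρ : 1 ≤ ρ) (hD : 0 ≤ D) {m : ℕ} (hm : (m : ℝ) ≤ 300 * D) :
    Real.exp ρ ≤ 2 ^ ⌈2 * ρ⌉₊ ∧ (((4 : ℝ) ^ ⌈2 * ρ⌉₊) ^ m) ≤ Real.exp (1260 * ρ * D) := by
  have h1 : 2 * ρ ≤ ⌈2 * ρ⌉₊ := Nat.le_ceil _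
  have h2 : (⌈2 * ρ⌉₊ : ℝ) ≤ 3 * ρ := by
    have := Nat.ceil_lt_add_one (by linarith : 0 ≤ 2 * ρ)
    linarith
  have hlog : 0.69 < Real.log 2 := by have := Real.log_two_gt_d9; linarith
  constructor
  · have h3 : (2 : ℝ) ^ ⌈2 * ρ⌉₊ = Real.exp (⌈2 * ρ⌉₊ * Real.log 2) := by
      rw [Real.exp_nat_mul, Real.exp_log (by norm_num)]
    rw [h3]
    apply Real.exp_le_exp.2
    nlinarith
  · rw [← pow_mul, mul_comm, pow_mul]
    calc ((4 : ℝ) ^ m) ^ ⌈2 * ρ⌉₊ ≤ (Real.exp (420 * D)) ^ ⌈2 * ρ⌉₊ :=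
          pow_le_pow_left₀ (by positivity) (four_pow_le hm) _
      _ = Real.exp (⌈2 * ρ⌉₊ * (420 * D)) := by rw [← Real.exp_nat_mul]
      _ ≤ Real.exp (1260 * ρ * D) := by
          apply Real.exp_le_exp.2
          have : (⌈2 * ρ⌉₊ : ℝ) * (420 * D) ≤ (3 * ρ) * (420 * D) :=
            mul_le_mul_of_nonneg_right h2 (by positivity)
          linarith

theorem num_q {D s : ℝ} (hs : 1 ≤ s) {m : ℕ} (hm : (m : ℝ) ≤ 300 * D) {t : ℝ}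
    (ht : t ≤ Real.exp (13000 * D * s)) :
    t * (⌈2 * Real.exp s⌉₊ : ℝ) ^ m ≤ Real.exp (14000 * D * s) := by
  have h1 : (⌈2 * Real.exp s⌉₊ : ℝ) ≤ 3 * Real.exp s := by
    have h2 := Nat.ceil_lt_add_one (by positivity : 0 ≤ 2 * Real.exp s)
    have h3 : 1 ≤ Real.exp s := Real.one_le_exp (by linarith)
    linarith
  have h4 : (3 : ℝ) * s ≤ Real.exp (2 * s) := lam_exp 2 (by norm_num) (by norm_num) (by norm_num) hs
  have h5 : (3 : ℝ) ≤ Real.exp (2 * s) := by nlinarith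
  have h6 : (⌈2 * Real.exp s⌉₊ : ℝ) ≤ Real.exp (3 * s) := by
    calc (⌈2 * Real.exp s⌉₊ : ℝ) ≤ 3 * Real.exp s := h1
      _ ≤ Real.exp (2 * s) * Real.exp s := mul_le_mul_of_nonneg_right h5 (Real.exp_pos _).le
      _ = Real.exp (3 * s) := by rw [← Real.exp_add]; congr 1; ring
  calc t * (⌈2 * Real.exp s⌉₊ : ℝ) ^ m ≤ Real.exp (13000 * D * s) * (Real.exp (3 * s)) ^ m :=
        mul_le_mul ht (pow_le_pow_left₀ (Nat.cast_nonneg _) h6 _) (by positivity) (Real.exp_pos _).le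
    _ = Real.exp (13000 * D * s + m * (3 * s)) := by rw [← Real.exp_nat_mul, Real.exp_add]
    _ ≤ Real.exp (14000 * D * s) := by
        apply Real.exp_le_exp.2
        have : (m : ℝ) * (3 * s) ≤ (300 * D) * (3 * s) := mul_le_mul_of_nonneg_right hm (by positivity)
        nlinarith

/-- the width of the boxes -/
theorem num_w {D s Λ : ℝ} (hs : 1 ≤ s) (hDs : D ≤ Real.exp s) (hΛ : 1 ≤ Λ)
    {m n : ℕ} (hm : (m : ℝ) ≤ 300 * D) (hn : n ≤ m) :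
    (n : ℝ) * (⌈Real.exp (9.6 * 10 ^ 8 * Λ ^ 4 * s)⌉₊ : ℝ) * Real.exp (-(10 ^ 9 * Λ ^ 4 * s)) ≤ 1 := by
  obtain ⟨ω, hω⟩ : ∃ ω : ℝ, ω = 9.6 * 10 ^ 8 * Λ ^ 4 * s := ⟨_, rfl⟩
  rw [← hω]
  have hΛ4 : 1 ≤ Λ ^ 4 := one_le_pow₀ hΛ
  have hω0 : 0 ≤ ω := by rw [hω]; positivity
  have h1 : (⌈Real.exp ω⌉₊ : ℝ) ≤ 2 * Real.exp ω := by
    have h2 := Nat.ceil_lt_add_one (Real.exp_pos ω).le
    have h3 : 1 ≤ Real.exp ω := Real.one_le_exp hω0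
    linarith
  have h4 : (600 : ℝ) * s ≤ Real.exp (7 * s) := lam_exp 7 (by norm_num) (by norm_num) (by norm_num) hs
  have h5 : (600 : ℝ) ≤ Real.exp (7 * s) := by nlinarith
  have h6 : (n : ℝ) ≤ 300 * Real.exp s := by
    have : (n : ℝ) ≤ m := by exact_mod_cast hn
    linarith
  have h7 : (n : ℝ) * (⌈Real.exp ω⌉₊ : ℝ) ≤ Real.exp (8 * s + ω) := by
    calc (n : ℝ) * (⌈Real.exp ω⌉₊ : ℝ) ≤ (300 * Real.exp s) * (2 * Real.exp ω) :=
          mul_le_mul h6 h1 (Nat.cast_nonneg _) (by positivity)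
      _ = 600 * (Real.exp s * Real.exp ω) := by ring
      _ ≤ Real.exp (7 * s) * (Real.exp s * Real.exp ω) :=
          mul_le_mul_of_nonneg_right h5 (by positivity)
      _ = Real.exp (8 * s + ω) := by
          rw [← Real.exp_add, ← Real.exp_add]; congr 1; ring
  calc (n : ℝ) * (⌈Real.exp ω⌉₊ : ℝ) * Real.exp (-(10 ^ 9 * Λ ^ 4 * s)) ≤
      Real.exp (8 * s + ω) * Real.exp (-(10 ^ 9 * Λ ^ 4 * s)) :=
        mul_le_mul_of_nonneg_right h7 (Real.exp_pos _).le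
    _ = Real.exp (8 * s + ω + -(10 ^ 9 * Λ ^ 4 * s)) := (Real.exp_add _ _).symm
    _ ≤ 1 := by
        rw [Real.exp_le_one_iff, hω]
        have : s ≤ Λ ^ 4 * s := by nlinarith
        nlinarith

theorem num_theta {D s η Λ : ℝ} (hs : 1 ≤ s) (hΛ : 1 ≤ Λ) (hηΛ : η * Λ = 1) (hη0 : 0 < η)
    {m n : ℕ} (hm : (m : ℝ) ≤ 300 * D) (hn : n ≤ m) :
    (1 + ((⌈Real.exp (9.6 * 10 ^ 8 * Λ ^ 4 * s)⌉₊ : ℝ)) ^ (-(η ^ 3 / (1.6 * 10 ^ 8 * s)))) ^ n ≤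
      Real.exp (η * D) := by
  obtain ⟨ω, hω⟩ : ∃ ω : ℝ, ω = 9.6 * 10 ^ 8 * Λ ^ 4 * s := ⟨_, rfl⟩
  obtain ⟨θ, hθ⟩ : ∃ θ : ℝ, θ = η ^ 3 / (1.6 * 10 ^ 8 * s) := ⟨_, rfl⟩
  rw [← hω, ← hθ]
  have hθ0 : 0 < θ := by rw [hθ]; positivity
  have hωθ : ω * θ = 6 * Λ := by
    rw [hω, hθ]
    have h1 : Λ ^ 4 * η ^ 3 = Λ := by
      calc Λ ^ 4 * η ^ 3 = Λ * (η * Λ) ^ 3 := by ring
        _ = Λ := by rw [hηΛ]; ring
    field_simp
    nlinarith [h1]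
  have h1 : Real.exp ω ≤ ⌈Real.exp ω⌉₊ := Nat.le_ceil _
  have h2 : ((⌈Real.exp ω⌉₊ : ℝ)) ^ (-θ) ≤ (Real.exp ω) ^ (-θ) :=
    Real.rpow_le_rpow_of_nonpos (Real.exp_pos _) h1 (by linarith)
  have h3 : (Real.exp ω) ^ (-θ) = Real.exp (-(6 * Λ)) := by
    rw [← Real.exp_mul, ← hωθ]; congr 1; ring
  have h4 : (300 : ℝ) * Λ ≤ Real.exp (6 * Λ) := lam_exp 6 (by norm_num) (by norm_num) (by norm_num) hΛ
  have h5 : Real.exp (-(6 * Λ)) ≤ η / 300 := by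
    rw [Real.exp_neg, inv_le_comm₀ (Real.exp_pos _) (by positivity)]
    have : (η / 300)⁻¹ = 300 * Λ := by
      rw [inv_div, div_eq_iff hη0.ne']
      linarith
    rw [this]
    exact h4
  have h6 : 1 + ((⌈Real.exp ω⌉₊ : ℝ)) ^ (-θ) ≤ Real.exp (η / 300) := by
    have := Real.add_one_le_exp (η / 300)
    linarith [h2, h3, h5]
  calc (1 + ((⌈Real.exp ω⌉₊ : ℝ)) ^ (-θ)) ^ n ≤ (Real.exp (η / 300)) ^ n :=
        pow_le_pow_left₀ (by positivity) h6 _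
    _ = Real.exp (n * (η / 300)) := by rw [← Real.exp_nat_mul]
    _ ≤ Real.exp (η * D) := by
        apply Real.exp_le_exp.2
        have h7 : (n : ℝ) ≤ m := by exact_mod_cast hn
        have h8 : (n : ℝ) * (η / 300) ≤ (300 * D) * (η / 300) :=
          mul_le_mul_of_nonneg_right (h7.trans hm) (by positivity)
        linarith

end Q148.SD
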