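import Pool.Agent.Q148.SD12

/-!
# The theorem at one scale
-/

set_option autoImplicit false

namespace Q148.SD

open Finset Pool.Agent.Y806.DF Module
open scoped Pointwise

theorem one_scale {Γ : Type*} [AddCommGroup Γ] [DecidableEq Γ] {K : ℝ} {A : Finset Γ}
    (hA : A.Nonempty) (hK : ((A + A).card : ℝ) ≤ K * A.card) {D s η : ℝ}
    (hD : D = Real.log (2 * K)) (hK1 : 1 ≤ K) (hs : 1 ≤ s) (hDs : D ≤ Real.exp s)
    (hη0 : 0 < η) (hη1 : η ≤ 1)
    {m : ℕ} (hm : (m : ℝ) ≤ 300 * D) {B : Set (Fin m → ℝ)} (hB : H112.SymmBody B)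
    {N : Seminorm ℝ (Fin m → ℝ)} (hN : ∀ x, N x ≤ 1 ↔ x ∈ B) {ψ : (Fin m → ℤ) →+ Γ}
    {H : AddSubgroup Γ} (hH : Finite H)
    (hvol : (lat B).ncard * Nat.card H ≤ A.card) {T₀ : Finset Γ}
    (hT₀ : (T₀.card : ℝ) ≤ Real.exp (13000 * D * s)) (hcov : H112.Covers B ψ H T₀ A)
    {s' : ℝ} (hs' : s' = 10 ^ 9 / η ^ 4 * s)
    (hdim : ((finrank ℚ (Wt N (Real.exp (-s))) : ℝ) - finrank ℚ (Wt N (Real.exp (-s')))) +
      ((finrank ℚ (Ut N ψ H (Real.exp s')) : ℝ) - finrank ℚ (Ut N ψ H (Real.exp s))) ≤ η * D) :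
    ∃ (d : ℕ) (B' : Set (Fin d → ℝ)) (θ : (Fin d → ℤ) →+ Γ) (H₀ : AddSubgroup Γ) (T : Finset Γ),
      ((d : ℝ) ≤ Real.logb 2 K + 6.1 * η * D ∨ d = 1) ∧ Body B' ∧ Finite H₀ ∧
      (lat B').ncard * Nat.card H₀ ≤ A.card ∧ (T.card : ℝ) ≤ Real.exp (D * s') ∧
      Cov B' θ H₀ T A := by
  classical
  have hlog2a : Real.log 2 < 0.7 := log_two_lt
  have hlog2b : 0.69 < Real.log 2 := by have := Real.log_two_gt_d9; linarith
  have hD69 : 0.69 < D := by
    rw [hD]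
    have := Real.log_le_log (by norm_num : (0 : ℝ) < 2) (by linarith : (2 : ℝ) ≤ 2 * K)
    linarith
  have hD0 : 0 < D := by linarith
  have hK0 : 0 < K := by linarith
  obtain ⟨Λ, hΛ⟩ : ∃ Λ : ℝ, Λ = 1 / η := ⟨_, rfl⟩
  have hΛ1 : 1 ≤ Λ := by rw [hΛ, le_div_iff₀ hη0]; linarith
  have hηΛ : η * Λ = 1 := by rw [hΛ]; field_simp
  have hs'2 : s' = 10 ^ 9 * Λ ^ 4 * s := by rw [hs', hΛ]; field_simp
  have hΛ4 : 1 ≤ Λ ^ 4 := one_le_pow₀ hΛ1
  have hΛ2 : 1 ≤ Λ ^ 2 := one_le_pow₀ hΛ1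
  have hΛ24 : Λ ^ 2 ≤ Λ ^ 4 := pow_le_pow_right₀ hΛ1 (by norm_num)
  have hs0 : 0 < s := by linarith
  have hX4 : s ≤ Λ ^ 4 * s := le_mul_of_one_le_left hs0.le hΛ4
  have hX2 : s ≤ Λ ^ 2 * s := le_mul_of_one_le_left hs0.le hΛ2
  have hX24 : Λ ^ 2 * s ≤ Λ ^ 4 * s := mul_le_mul_of_nonneg_right hΛ24 hs0.le
  have hss' : s ≤ s' := by rw [hs'2]; linarith
  have hfin : ∀ r, (H112.LL N r).Finite := LL_fin hB hN
  have hAr : (0 : ℝ) < A.card := by exact_mod_cast hA.card_pos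
  -- relations
  obtain ⟨b, v, hb, hv, hNv, hspan, -, -⟩ := relations N ψ H (Real.exp s)
  obtain ⟨U, hU⟩ : ∃ U, U = Ut N ψ H (Real.exp s) := ⟨_, rfl⟩
  obtain ⟨U', hU'⟩ : ∃ U', U' = Ut N ψ H (Real.exp s') := ⟨_, rfl⟩
  obtain ⟨W, hW⟩ : ∃ W, W = Wt N (Real.exp (-s)) := ⟨_, rfl⟩
  obtain ⟨W', hW'⟩ : ∃ W', W' = Wt N (Real.exp (-s')) := ⟨_, rfl⟩
  obtain ⟨V, hV⟩ : ∃ V, V = W ⊔ U := ⟨_, rfl⟩
  rw [← hU, ← hU', ← hW, ← hW'] at hdim
  rw [← hU] at hspan
  have hUU' : U ≤ U' := by rw [hU, hU']; exact Ut_mono N ψ H (Real.exp_le_exp.2 hss')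
  have hW'W : W' ≤ W := by rw [hW, hW']; exact Wt_mono N (Real.exp_le_exp.2 (by linarith))
  have hUV : U ≤ V := by rw [hV]; exact le_sup_right
  have hWV : W ≤ V := by rw [hV]; exact le_sup_left
  have hvU : ∀ j, qq (v j) ∈ U := fun j => by rw [← hspan]; exact Submodule.subset_span ⟨j, rfl⟩
  -- labels
  obtain ⟨n, w0, π, hw0, hπU, hπw, hdimW⟩ := labels (Wset N (Real.exp (-s'))) U'
  have hWspan : Submodule.span ℚ (Wset N (Real.exp (-s'))) = W' := by rw [hW']; rfl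
  rw [hWspan] at hdimW
  have hw0' : ∀ i, ∃ c : Fin m → ℤ, N (re c) ≤ Real.exp (-s') ∧ qq c = w0 i := fun i => hw0 i
  choose wv hwv1 hwv2 using hw0'
  have hnm : n ≤ m := by
    have := label_card π w0 hπw
    rw [finrank_fintype_fun_eq_card, Fintype.card_fin] at this
    exact this
  have hwV : ∀ j, qq (wv j) ∈ V := by
    intro j
    apply hWV
    apply hW'W
    rw [hW']
    exact Submodule.subset_span ⟨wv j, hwv1 j, rfl⟩
  -- parameters
  obtain ⟨kmax, hkmax⟩ : ∃ kmax : ℕ, kmax = ⌊14000 * s * Λ⌋₊ + 1 := ⟨_, rfl⟩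
  have hk1 : 14000 * s * Λ < kmax := by
    rw [hkmax]; push_cast; exact Nat.lt_floor_add_one _
  have hk2 : (kmax : ℝ) ≤ 14001 * s * Λ := by
    rw [hkmax]; push_cast
    have h1 := Nat.floor_le (by positivity : 0 ≤ 14000 * s * Λ)
    have h2 : 1 ≤ s * Λ := one_le_mul_of_one_le_of_one_le hs hΛ1
    linarith
  obtain ⟨J, hJ⟩ : ∃ J : ℕ, J = ⌈420 * Λ⌉₊ := ⟨_, rfl⟩
  have hJ1 : 420 * Λ ≤ J := by rw [hJ]; exact Nat.le_ceil _
  have hJ2 : (4 * J : ℝ) ≤ 1684 * Λ := by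
    have := Nat.ceil_lt_add_one (by positivity : 0 ≤ 420 * Λ)
    rw [← hJ] at this
    linarith
  have hJ3 : 1 ≤ J := by
    have : (1 : ℝ) ≤ J := by linarith
    exact_mod_cast this
  obtain ⟨Rm, hRm⟩ : ∃ Rm : ℕ, Rm = 2 * (4 * J) ^ kmax := ⟨_, rfl⟩
  have hRm8 : 8 ≤ Rm := by
    rw [hRm]
    have h1 : 4 ≤ (4 * J) ^ kmax := by
      calc 4 ≤ 4 * J := by omega
        _ = (4 * J) ^ 1 := (pow_one _).symm
        _ ≤ (4 * J) ^ kmax := Nat.pow_le_pow_right (by omega) (by omega)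
    omega
  obtain ⟨ρ, hρ⟩ : ∃ ρ : ℝ, ρ = 120000 * Λ ^ 2 * s := ⟨_, rfl⟩
  have hρ1 : 1 ≤ ρ := by rw [hρ]; linarith
  have hρs' : ρ ≤ s' := by rw [hρ, hs'2]; linarith
  have hRmρ : 2 * (Rm : ℝ) + b * Real.exp s ≤ Real.exp ρ := by
    rw [hRm, hρ]; exact num_Rm hs hDs hΛ1 hm hb hk2 hJ2
  obtain ⟨w, hw⟩ : ∃ w : ℕ, w = ⌈Real.exp (9.6 * 10 ^ 8 * Λ ^ 4 * s)⌉₊ := ⟨_, rfl⟩
  have hw1 : 1 ≤ w := by rw [hw]; exact Nat.one_le_ceil_iff.2 (Real.exp_pos _)
  obtain ⟨θ, hθ⟩ : ∃ θ : ℝ, θ = η ^ 3 / (1.6 * 10 ^ 8 * s) := ⟨_, rfl⟩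
  have hθ0 : 0 ≤ θ := by rw [hθ]; positivity
  have hη3 : η ^ 3 ≤ 1 := pow_le_one₀ hη0.le hη1
  have hθ1 : θ ≤ 1 := by
    rw [hθ, div_le_one (by positivity)]
    linarith
  -- the system
  obtain ⟨lam, e, S⟩ := sys_of (V := V) hv hNv hfin (U' := U') (M' := Real.exp s')
    (fun c hc hc2 => by rw [hU']; exact Submodule.subset_span ⟨c, hc, hc2, rfl⟩)
    (fun j => hUU' (hvU j)) π hπU wv (fun j => by rw [hwv2 j]; exact hπw j) hwV hwv1
    (w := w) (Rm := Rm) (by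
      rw [hw, hs'2]
      exact num_w hs hDs hΛ1 hm hnm) (by omega)
    (hRmρ.trans (Real.exp_le_exp.2 hρs'))
  -- density
  obtain ⟨δ, hδ⟩ : ∃ δ : ℝ, δ = Real.exp (-(14000 * D * s)) := ⟨_, rfl⟩
  have hδ0 : 0 < δ := by rw [hδ]; exact Real.exp_pos _
  obtain ⟨x, hx⟩ : ∃ x, A.card ≤ T₀.card * ⌈2 * Real.exp s⌉₊ ^ m *
      (A.filter (fun a => a - x ∈ PP N ψ H V v 2)).card := by
    refine density (V := V) (v := v) hA ?_ (Nat.one_le_ceil_iff.2 (by positivity)) ?_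
    · intro a ha
      obtain ⟨t, ht, c, hc, h, hh, e⟩ := hcov a ha
      refine ⟨t, ht, c, (hN _).2 hc, ?_⟩
      rw [e]
      have : t + ψ c + h - t - ψ c = h := by abel
      rw [this]
      exact hh
    · intro c hc
      apply hWV
      rw [hW]
      refine Submodule.subset_span ⟨c, hc.trans ?_, rfl⟩
      rw [div_le_iff₀ (by exact_mod_cast Nat.ceil_pos.2 (by positivity : 0 < 2 * Real.exp s))]
      have h1 : 2 * Real.exp s ≤ ⌈2 * Real.exp s⌉₊ := Nat.le_ceil _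
      have h2 : Real.exp (-s) * (2 * Real.exp s) = 2 := by
        rw [mul_comm 2, ← mul_assoc, ← Real.exp_add, neg_add_cancel, Real.exp_zero, one_mul]
      calc (2 : ℝ) = Real.exp (-s) * (2 * Real.exp s) := h2.symm
        _ ≤ Real.exp (-s) * ⌈2 * Real.exp s⌉₊ := mul_le_mul_of_nonneg_left h1 (Real.exp_pos _).le
  have hq := num_q hs hm (t := (T₀.card : ℝ)) hT₀
  have hδcnt : δ * A.card ≤ ((A.filter (fun a => a - x ∈ PP N ψ H V v 2)).card : ℝ) := by
    have h1 : (A.card : ℝ) ≤ (T₀.card * (⌈2 * Real.exp s⌉₊ : ℝ) ^ m) *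
        (A.filter (fun a => a - x ∈ PP N ψ H V v 2)).card := by exact_mod_cast hx
    have h2 : (A.card : ℝ) ≤ Real.exp (14000 * D * s) *
        (A.filter (fun a => a - x ∈ PP N ψ H V v 2)).card :=
      h1.trans (mul_le_mul_of_nonneg_right hq (Nat.cast_nonneg _))
    rw [hδ, Real.exp_neg, inv_mul_le_iff₀ (Real.exp_pos _)]
    exact h2
  have hfilt : A.filter (fun a => a - x ∈ (PP_finite (V := V) hv hNv hfin ((2 : ℕ) : ℝ)).toFinset) =
      A.filter (fun a => a - x ∈ PP N ψ H V v 2) := by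
    apply Finset.filter_congr
    intro a _
    rw [Set.Finite.mem_toFinset, Nat.cast_ofNat]
  -- sizes
  obtain ⟨Z, hZ⟩ : ∃ Z : ℝ, Z = Real.exp (1260 * ρ * D) := ⟨_, rfl⟩
  have hZ1 : 1 ≤ Z := by rw [hZ]; exact Real.one_le_exp (by positivity)
  have hna := num_a hρ1 hD0.le hm
  have hLLZ : ∀ r : ℝ, r ≤ Real.exp ρ → ((H112.LL N r).ncard : ℝ) * Nat.card H ≤ Z * A.card := by
    intro r hr
    have h1 := LL_card hB hN (hr.trans hna.1)
    have h2 : ((H112.LL N r).ncard : ℝ) ≤ ((4 : ℝ) ^ ⌈2 * ρ⌉₊) ^ m * (lat B).ncard := by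
      exact_mod_cast h1
    have h3 : ((lat B).ncard : ℝ) * Nat.card H ≤ A.card := by exact_mod_cast hvol
    calc ((H112.LL N r).ncard : ℝ) * Nat.card H ≤
        (((4 : ℝ) ^ ⌈2 * ρ⌉₊) ^ m * (lat B).ncard) * Nat.card H :=
          mul_le_mul_of_nonneg_right h2 (Nat.cast_nonneg _)
      _ = ((4 : ℝ) ^ ⌈2 * ρ⌉₊) ^ m * ((lat B).ncard * Nat.card H) := by ring
      _ ≤ Z * A.card := by
          rw [hZ]
          exact mul_le_mul hna.2 h3 (by positivity) (Real.exp_pos _).le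
  have hPRm : (((PP_finite (V := V) hv hNv hfin (Rm : ℝ)).toFinset.card : ℕ) : ℝ) ≤ Z * A.card := by
    rw [← Set.ncard_eq_toFinset_card _ (PP_finite (V := V) hv hNv hfin (Rm : ℝ))]
    have h1 := PP_card (V := V) hv hNv hfin (Rm : ℝ)
    have h2 : ((PP N ψ H V v (Rm : ℝ)).ncard : ℝ) ≤
        ((H112.LL N ((Rm : ℝ) + b * Real.exp s)).ncard : ℝ) * Nat.card H := by exact_mod_cast h1
    refine h2.trans (hLLZ _ ?_)
    have h3 : (0 : ℝ) ≤ Rm := Nat.cast_nonneg _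
    linarith
  -- the bound for the number of labels
  have hmain := main_abs S hw1 hθ0 hθ1 hA hK (δ := δ) (Z := Z) (E := Real.exp (η * D))
    (g := Real.exp (η * D)) (kmax := kmax) (J := J) hδ0 ⟨x, by rw [hfilt]; exact hδcnt⟩ hPRm
    (Real.one_le_exp (by positivity)) hJ3 (by
      rw [hδ, ← Real.exp_nat_mul, ← Real.exp_add]
      apply Real.one_lt_exp_iff.2
      have h1 : 14000 * s * Λ * (η * D) < kmax * (η * D) :=
        mul_lt_mul_of_pos_right hk1 (by positivity)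
      have h2 : 14000 * s * Λ * (η * D) = 14000 * D * s := by
        calc 14000 * s * Λ * (η * D) = 14000 * D * s * (η * Λ) := by ring
          _ = _ := by rw [hηΛ, mul_one]
      linarith) (by rw [hRm]) (Real.one_le_exp (by positivity)) (by
      intro R _
      show (((PP_finite (V := V) hv hNv hfin ((2 * R : ℕ) : ℝ)).toFinset.card : ℕ) : ℝ) ≤
        _ * (((PP_finite (V := V) hv hNv hfin (R : ℝ)).toFinset.card : ℕ) : ℝ)
      rw [← Set.ncard_eq_toFinset_card _ (PP_finite (V := V) hv hNv hfin ((2 * R : ℕ) : ℝ)),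
        ← Set.ncard_eq_toFinset_card _ (PP_finite (V := V) hv hNv hfin (R : ℝ))]
      have h1 := PP_double (V := V) hv hNv hfin (R : ℝ)
      have h2 : (((2 * R : ℕ) : ℝ)) = 2 * (R : ℝ) := by push_cast; ring
      rw [h2]
      have h3 : ((PP N ψ H V v (2 * (R : ℝ))).ncard : ℝ) ≤ (4 : ℝ) ^ m * (PP N ψ H V v (R : ℝ)).ncard := by
        exact_mod_cast h1
      refine h3.trans (mul_le_mul_of_nonneg_right ((four_pow_le hm).trans ?_) (Nat.cast_nonneg _))
      rw [← Real.exp_nat_mul]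
      apply Real.exp_le_exp.2
      have h4 : 420 * Λ * (η * D) ≤ J * (η * D) := mul_le_mul_of_nonneg_right hJ1 (by positivity)
      have h5 : 420 * Λ * (η * D) = 420 * D := by
        calc 420 * Λ * (η * D) = 420 * D * (η * Λ) := by ring
          _ = _ := by rw [hηΛ, mul_one]
      linarith)
  have hZδ : (Z / δ) ^ θ ≤ Real.exp (η * D) := by
    rw [hZ, hδ, ← Real.exp_sub, ← Real.exp_mul]
    apply Real.exp_le_exp.2
    have h1 : 1260 * ρ * D - -(14000 * D * s) ≤ 1.6 * 10 ^ 8 * Λ ^ 2 * s * D := by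
      rw [hρ]
      have h0 : D * s ≤ D * (Λ ^ 2 * s) := mul_le_mul_of_nonneg_left hX2 hD0.le
      have h00 : 0 < D * s := by positivity
      linarith
    have h2 : 1.6 * 10 ^ 8 * Λ ^ 2 * s * D * θ = η * D := by
      rw [hθ]
      have h3 : Λ ^ 2 * η ^ 3 = η := by
        calc Λ ^ 2 * η ^ 3 = η * (η * Λ) ^ 2 := by ring
          _ = η := by rw [hηΛ]; ring
      rw [mul_div_assoc', div_eq_iff (by positivity)]
      linear_combination (1.6 * 10 ^ 8 * s * D) * h3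
    calc (1260 * ρ * D - -(14000 * D * s)) * θ ≤ 1.6 * 10 ^ 8 * Λ ^ 2 * s * D * θ :=
          mul_le_mul_of_nonneg_right h1 hθ0
      _ = η * D := h2
  have hwθ : (1 + (w : ℝ) ^ (-θ)) ^ n ≤ Real.exp (η * D) := by
    rw [hw, hθ]
    exact num_theta hs hΛ1 hηΛ hη0 hm hnm
  have hn_bound : (n : ℝ) ≤ Real.logb 2 K + 5.1 * η * D := by
    have h1 : (2 : ℝ) ^ n ≤ K * Real.exp (3.5 * (η * D)) := by
      have hsq : Real.sqrt (Real.exp (η * D)) = Real.exp (η * D / 2) := by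
        rw [Real.exp_half]
      rw [hsq] at hmain
      calc (2 : ℝ) ^ n ≤ K * Real.exp (η * D) * Real.exp (η * D / 2) *
            ((1 + (w : ℝ) ^ (-θ)) ^ n * (Z / δ) ^ θ) := hmain
        _ ≤ K * Real.exp (η * D) * Real.exp (η * D / 2) *
            (Real.exp (η * D) * Real.exp (η * D)) := by
            refine mul_le_mul_of_nonneg_left ?_ (by positivity)
            exact mul_le_mul hwθ hZδ (by positivity) (Real.exp_pos _).le
        _ = K * (Real.exp (η * D) * Real.exp (η * D / 2) * (Real.exp (η * D) * Real.exp (η * D))) := by ring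
        _ = K * Real.exp (3.5 * (η * D)) := by
            rw [← Real.exp_add, ← Real.exp_add, ← Real.exp_add]
            congr 2; ring
    have h2 := Real.log_le_log (by positivity) h1
    rw [Real.log_pow, Real.log_mul hK0.ne' (Real.exp_pos _).ne', Real.log_exp] at h2
    have hlog0 : 0 < Real.log 2 := by linarith
    rw [Real.logb, ← sub_le_iff_le_add', ← sub_nonneg]
    have h3 : (n : ℝ) ≤ (Real.log K + 3.5 * (η * D)) / Real.log 2 := by
      rw [le_div_iff₀ hlog0]; exact h2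
    have h4 : (Real.log K + 3.5 * (η * D)) / Real.log 2 = Real.log K / Real.log 2 + 3.5 * (η * D) / Real.log 2 := by
      rw [add_div]
    have h5 : 3.5 * (η * D) / Real.log 2 ≤ 5.1 * (η * D) := by
      rw [div_le_iff₀ hlog0]
      have := mul_le_mul_of_nonneg_left hlog2b.le (by positivity : 0 ≤ 5.1 * (η * D))
      linarith [mul_pos hη0 hD0]
    linarith
  -- dimension of the quotient
  have hdc := dim_count W W' U U' hW'W hUU'
  have hdimVU : (finrank ℚ V : ℝ) - finrank ℚ U ≤ Real.logb 2 K + 6.1 * η * D := by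
    have h1 : ((finrank ℚ (W ⊔ U : Submodule ℚ (Fin m → ℚ)) : ℤ) : ℝ) - ((finrank ℚ U : ℤ) : ℝ) ≤
      (((finrank ℚ (W' ⊔ U' : Submodule ℚ (Fin m → ℚ)) : ℤ) : ℝ) - ((finrank ℚ U' : ℤ) : ℝ)) +
      ((((finrank ℚ W : ℤ) : ℝ) - ((finrank ℚ W' : ℤ) : ℝ)) +
        (((finrank ℚ U' : ℤ) : ℝ) - ((finrank ℚ U : ℤ) : ℝ))) := by exact_mod_cast hdc
    simp only [Int.cast_natCast] at h1
    have h2 : (finrank ℚ (W' ⊔ U' : Submodule ℚ (Fin m → ℚ)) : ℝ) ≤ n + finrank ℚ U' := by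
      exact_mod_cast hdimW
    rw [← hV] at h1
    linarith
  -- Ruzsa covering
  obtain ⟨A', hA'⟩ : ∃ A', A' = A.filter (fun a => a - x ∈ PP N ψ H V v 2) := ⟨_, rfl⟩
  rw [← hA'] at hδcnt
  have hA'pos : (0 : ℝ) < A'.card := lt_of_lt_of_le (by positivity) hδcnt
  have hA'ne : A'.Nonempty := by rw [← Finset.card_pos]; exact_mod_cast hA'pos
  have hA'A : A' ⊆ A := by rw [hA']; exact Finset.filter_subset _ _
  have hruz : ((A + A').card : ℝ) ≤ (K / δ) * A'.card := by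
    calc ((A + A').card : ℝ) ≤ (A + A).card := by
          exact_mod_cast Finset.card_le_card (Finset.add_subset_add_left hA'A)
      _ ≤ K * A.card := hK
      _ = (K / δ) * (δ * A.card) := by field_simp
      _ ≤ (K / δ) * A'.card := mul_le_mul_of_nonneg_left hδcnt (by positivity)
  obtain ⟨T', -, hT', hcov'⟩ := Finset.ruzsa_covering_add hA'ne hruz
  obtain ⟨d, B', θ', H₀, T, hd, hB', hH₀, hvol', hT, hC⟩ := final_cover (V := V) hv hNv hfin hspan hUV
    hA (T' := T') (R := 4) (by norm_num) (by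
      intro a ha
      obtain ⟨t, ht, u, hu, rfl⟩ := Finset.mem_add.1 (hcov' ha)
      obtain ⟨y, hy, z, hz, rfl⟩ := Finset.mem_sub.1 hu
      refine ⟨t, ht, ?_⟩
      rw [hA'] at hy hz
      have h1 := (Finset.mem_filter.1 hy).2
      have h2 := PP_neg (Finset.mem_filter.1 hz).2
      have h3 := PP_add h1 h2
      have e1 : t + (y - z) - t = (y - x) + -(z - x) := by abel
      rw [e1]
      have e2 : (2 : ℝ) + 2 = 4 := by norm_num
      rwa [e2] at h3) hZ1 (by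
      apply hLLZ
      have h1 : (8 : ℝ) ≤ Rm := by exact_mod_cast hRm8
      linarith)
  refine ⟨d, B', θ', H₀, T, ?_, hB', hH₀, hvol', ?_, hC⟩
  · rcases hd with hd | hd
    · left
      have h1 : (d : ℝ) + finrank ℚ U ≤ finrank ℚ V := by exact_mod_cast hd
      linarith
    · right; exact hd
  · have hKD : K ≤ Real.exp D := by
      rw [hD, Real.exp_log (by linarith)]
      linarith
    have h6 : (6 : ℝ) ≤ Real.exp (3 * D) := by
      have h1 : (6 : ℝ) ≤ Real.exp 2 := by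
        have h3 : Real.exp 2 = Real.exp 1 ^ 2 := by rw [← Real.exp_nat_mul]; norm_num
        rw [h3]
        calc (6 : ℝ) ≤ 2.7 ^ 2 := by norm_num
          _ ≤ _ := pow_le_pow_left₀ (by norm_num) e_low 2
      exact h1.trans (Real.exp_le_exp.2 (by linarith))
    have hT'2 : (T'.card : ℝ) ≤ Real.exp (D + 14000 * D * s) := by
      refine hT'.trans ?_
      rw [hδ, div_eq_mul_inv, ← Real.exp_neg, neg_neg, Real.exp_add]
      exact mul_le_mul_of_nonneg_right hKD (Real.exp_pos _).le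
    calc (T.card : ℝ) ≤ T'.card * (6 * 1024 ^ m * Z) := hT
      _ ≤ Real.exp (D + 14000 * D * s) * (Real.exp (3 * D) * Real.exp (2100 * D) *
            Real.exp (1260 * ρ * D)) := by
          refine mul_le_mul hT'2 ?_ (by positivity) (Real.exp_pos _).le
          rw [hZ]
          refine mul_le_mul_of_nonneg_right ?_ (Real.exp_pos _).le
          exact mul_le_mul h6 (pow1024_le hm) (by positivity) (Real.exp_pos _).le
      _ = Real.exp ((D + 14000 * D * s) + (3 * D + 2100 * D + 1260 * ρ * D)) := by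
          rw [← Real.exp_add, ← Real.exp_add, ← Real.exp_add]
      _ ≤ Real.exp (D * s') := by
          apply Real.exp_le_exp.2
          rw [hs'2, hρ]
          have h1 : D * s ≤ D * (Λ ^ 4 * s) := mul_le_mul_of_nonneg_left hX4 hD0.le
          have h2 : D ≤ D * s := le_mul_of_one_le_right hD0.le hs
          have h3 : D * (Λ ^ 2 * s) ≤ D * (Λ ^ 4 * s) := mul_le_mul_of_nonneg_left hX24 hD0.le
          linarith

end Q148.SD
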