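import Pool.Agent.Q148.SD5

/-!
# Boxes are not covered by few progressions of smaller dimension
-/

set_option autoImplicit false

namespace Q148.SD

open Finset Module
open scoped Pointwise

/-- the box `{0, …, n-1}^d` -/
noncomputable def box (d n : ℕ) : Finset (Fin d → ℤ) := Fintype.piFinset fun _ => Finset.Ico (0 : ℤ) n

theorem box_card (d n : ℕ) : (box d n).card = n ^ d := by
  rw [box, Fintype.card_piFinset]
  simp

theorem box_add (d n : ℕ) : ((box d n + box d n).card : ℝ) ≤ 2 ^ d * (box d n).card := by
  have h1 : box d n + box d n ⊆ box d (2 * n) := by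
    intro x hx
    obtain ⟨a, ha, b, hb, rfl⟩ := Finset.mem_add.1 hx
    rw [box, Fintype.mem_piFinset] at ha hb ⊢
    intro i
    have h1 := Finset.mem_Ico.1 (ha i)
    have h2 := Finset.mem_Ico.1 (hb i)
    rw [Finset.mem_Ico, Pi.add_apply]
    push_cast
    constructor <;> linarith
  have h2 := Finset.card_le_card h1
  rw [box_card] at h2
  rw [box_card]
  have h3 : ((box d n + box d n).card : ℝ) ≤ ((2 * n : ℕ) : ℝ) ^ d := by exact_mod_cast h2
  refine h3.trans (le_of_eq ?_)
  push_cast
  rw [mul_pow]

theorem box_cover {d r n : ℕ} (hr : r < d) (hn : 1 ≤ n) (ψ : (Fin r → ℤ) →+ (Fin d → ℤ))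
    (H : AddSubgroup (Fin d → ℤ)) (hH : Finite H) (T : Finset (Fin d → ℤ))
    (hcov : ∀ a ∈ box d n, ∃ t ∈ T, ∃ x, ∃ h ∈ H, a = t + ψ x + h) : n ≤ T.card := by
  classical
  -- the finite subgroup is trivial
  have hH0 : ∀ h ∈ H, h = 0 := by
    intro h hh
    have h1 : IsOfFinAddOrder (⟨h, hh⟩ : H) := isOfFinAddOrder_of_finite _
    obtain ⟨k, hk, hk2⟩ := isOfFinAddOrder_iff_nsmul_eq_zero.1 h1
    have h3 : k • h = 0 := congrArg Subtype.val hk2
    funext i
    have h4 := congrFun h3 i
    rw [Pi.smul_apply, Pi.zero_apply, nsmul_eq_mul] at h4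
    rcases mul_eq_zero.1 h4 with h5 | h5
    · have : k = 0 := by exact_mod_cast h5
      omega
    · exact h5
  -- a functional vanishing on the image
  let S : Submodule ℚ (Fin d → ℚ) := Submodule.span ℚ (Set.range fun i : Fin r => qq (ψ (Pi.single i 1)))
  have hS : finrank ℚ S ≤ r := by
    have h1 := finrank_range_le_card (R := ℚ) (fun i : Fin r => qq (ψ (Pi.single i 1)))
    rw [Fintype.card_fin] at h1
    exact h1
  have hlt : S < ⊤ := by
    rw [lt_top_iff_ne_top]
    intro h
    rw [h, finrank_top, finrank_fintype_fun_eq_card, Fintype.card_fin] at hS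
    omega
  obtain ⟨f, hf0, hf⟩ := Submodule.exists_le_ker_of_lt_top S hlt
  have hfψ : ∀ x, f (qq (ψ x)) = 0 := by
    intro x
    have h1 : x = ∑ i, x i • (Pi.single i (1 : ℤ) : Fin r → ℤ) := by
      funext j
      rw [Finset.sum_apply]
      simp [Pi.single_apply]
    have h2 : qq (ψ x) ∈ S := by
      rw [h1, map_sum, map_sum]
      refine S.sum_mem fun i _ => ?_
      rw [map_zsmul, map_zsmul, ← Int.cast_smul_eq_zsmul ℚ]
      exact S.smul_mem _ (Submodule.subset_span ⟨i, rfl⟩)
    exact hf h2
  obtain ⟨i, hi⟩ : ∃ i, f (Pi.single i 1) ≠ 0 := by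
    by_contra hcon
    push Not at hcon
    apply hf0
    apply LinearMap.pi_ext'
    intro i
    apply LinearMap.ext_ring
    simpa using hcon i
  -- the part in one translate
  let At : (Fin d → ℤ) → Finset (Fin d → ℤ) := fun t => (box d n).filter (fun a => ∃ x, a = t + ψ x)
  have hAt : ∀ t, (At t).card * n ≤ n ^ d := by
    intro t
    have h1 : ((At t) ×ˢ (Finset.Ico (0 : ℤ) n)).card ≤ (box d n).card := by
      refine Finset.card_le_card_of_injOn (fun p => Function.update p.1 i p.2) ?_ ?_
      · intro p hp
        have hp' := Finset.mem_product.1 (Finset.mem_coe.1 hp)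
        have h2 := (Finset.mem_filter.1 hp'.1).1
        rw [Finset.mem_coe]
        rw [box, Fintype.mem_piFinset] at h2 ⊢
        intro j
        show Function.update p.1 i p.2 j ∈ _
        by_cases hj : j = i
        · subst hj
          rw [Function.update_self]
          exact hp'.2
        · rw [Function.update_of_ne hj]
          exact h2 j
      · rintro ⟨a, k⟩ hp ⟨a', k'⟩ hp' hpp
        have hq := Finset.mem_product.1 (Finset.mem_coe.1 hp)
        have hq' := Finset.mem_product.1 (Finset.mem_coe.1 hp')
        obtain ⟨x, hx⟩ := (Finset.mem_filter.1 hq.1).2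
        obtain ⟨x', hx'⟩ := (Finset.mem_filter.1 hq'.1).2
        have hpp : Function.update a i k = Function.update a' i k' := hpp
        simp only at hx hx'
        have hk : k = k' := by
          have := congrFun hpp i
          rwa [Function.update_self, Function.update_self] at this
        have hoff : ∀ j, j ≠ i → a j = a' j := by
          intro j hj
          have := congrFun hpp j
          rwa [Function.update_of_ne hj, Function.update_of_ne hj] at this
        have hff : f (qq a) = f (qq a') := by
          rw [hx, hx', map_add, map_add, map_add, map_add, hfψ, hfψ]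
        have hdiff : qq a - qq a' = ((a i : ℚ) - a' i) • (Pi.single i (1 : ℚ) : Fin d → ℚ) := by
          funext j
          rw [Pi.sub_apply, Pi.smul_apply, qq_apply, qq_apply]
          by_cases hj : j = i
          · subst hj
            simp
          · rw [hoff j hj, Pi.single_eq_of_ne hj]
            simp
        have h4 : f (qq a - qq a') = 0 := by rw [map_sub, hff, sub_self]
        rw [hdiff, map_smul, smul_eq_mul] at h4
        have h5 : (a i : ℚ) - a' i = 0 := by
          rcases mul_eq_zero.1 h4 with h | h
          · exact h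
          · exact absurd h hi
        have h6 : a i = a' i := by
          have : (a i : ℚ) = a' i := by linarith
          exact_mod_cast this
        have h7 : a = a' := by
          funext j
          by_cases hj : j = i
          · rw [hj]; exact h6
          · exact hoff j hj
        rw [h7, hk]
    rw [Finset.card_product, Int.card_Ico, box_card] at h1
    simpa using h1
  have hsub : box d n ⊆ T.biUnion At := by
    intro a ha
    obtain ⟨t, ht, x, h, hh, e⟩ := hcov a ha
    rw [hH0 h hh, add_zero] at e
    exact Finset.mem_biUnion.2 ⟨t, ht, Finset.mem_filter.2 ⟨ha, x, e⟩⟩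
  have h1 := (Finset.card_le_card hsub).trans Finset.card_biUnion_le
  rw [box_card] at h1
  have h2 : n ^ d * n ≤ T.card * n ^ d := by
    calc n ^ d * n ≤ (∑ t ∈ T, (At t).card) * n := Nat.mul_le_mul_right _ h1
      _ = ∑ t ∈ T, (At t).card * n := Finset.sum_mul _ _ _
      _ ≤ ∑ _t ∈ T, n ^ d := Finset.sum_le_sum fun t _ => hAt t
      _ = T.card * n ^ d := by rw [Finset.sum_const, smul_eq_mul]
  have h3 : 0 < n ^ d := by positivity
  rw [mul_comm] at h2
  exact Nat.le_of_mul_le_mul_right h2 h3

end Q148.SD
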