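import Pool.Agent.Q148.SD1

/-!
# A discrete Prékopa-Leindler inequality in abelian groups with labels
-/

set_option autoImplicit false

namespace Q148.SD

open Finset
open scoped Pointwise

/-- Hölder's inequality in the form used. -/
theorem holder {ι : Type*} (s : Finset ι) (x y : ι → ℝ) (hx : ∀ i ∈ s, 0 ≤ x i)
    (hy : ∀ i ∈ s, 0 ≤ y i) {X Y : ℝ} (hX : ∑ i ∈ s, x i ≤ X) (hY : ∑ i ∈ s, y i ≤ Y)
    (hX0 : 0 < X) (hY0 : 0 < Y) {θ : ℝ} (h0 : 0 ≤ θ) (h1 : θ ≤ 1) :
    ∑ i ∈ s, x i ^ (1 - θ) * y i ^ θ ≤ X ^ (1 - θ) * Y ^ θ := by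
  have hXp : 0 < X ^ (1 - θ) := Real.rpow_pos_of_pos hX0 _
  have hYp : 0 < Y ^ θ := Real.rpow_pos_of_pos hY0 _
  have h2 : ∀ i ∈ s, x i ^ (1 - θ) * y i ^ θ ≤
      (X ^ (1 - θ) * Y ^ θ) * ((1 - θ) * (x i / X) + θ * (y i / Y)) := by
    intro i hi
    have h3 := Real.geom_mean_le_arith_mean2_weighted (w₁ := 1 - θ) (w₂ := θ) (p₁ := x i / X)
      (p₂ := y i / Y) (by linarith) h0 (div_nonneg (hx i hi) hX0.le) (div_nonneg (hy i hi) hY0.le)
      (by ring)
    rw [Real.div_rpow (hx i hi) hX0.le, Real.div_rpow (hy i hi) hY0.le] at h3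
    calc x i ^ (1 - θ) * y i ^ θ =
          (X ^ (1 - θ) * Y ^ θ) * (x i ^ (1 - θ) / X ^ (1 - θ) * (y i ^ θ / Y ^ θ)) := by
          field_simp
      _ ≤ _ := mul_le_mul_of_nonneg_left h3 (by positivity)
  refine (Finset.sum_le_sum h2).trans ?_
  rw [← Finset.mul_sum]
  have h4 : ∑ i ∈ s, ((1 - θ) * (x i / X) + θ * (y i / Y)) ≤ 1 := by
    rw [Finset.sum_add_distrib, ← Finset.mul_sum, ← Finset.mul_sum, ← Finset.sum_div,
      ← Finset.sum_div]
    have h5 : (∑ i ∈ s, x i) / X ≤ 1 := by rw [div_le_one hX0]; exact hX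
    have h6 : (∑ i ∈ s, y i) / Y ≤ 1 := by rw [div_le_one hY0]; exact hY
    have h7 := mul_le_mul_of_nonneg_left h5 (by linarith : 0 ≤ 1 - θ)
    have h8 := mul_le_mul_of_nonneg_left h6 h0
    linarith
  calc (X ^ (1 - θ) * Y ^ θ) * ∑ i ∈ s, ((1 - θ) * (x i / X) + θ * (y i / Y)) ≤
      (X ^ (1 - θ) * Y ^ θ) * 1 := mul_le_mul_of_nonneg_left h4 (by positivity)
    _ = _ := mul_one _

variable {G : Type*} [AddCommGroup G] [DecidableEq G]

/-- the boxes `{∑_{i<k} c_i u_i : 0 ≤ c_i < w}` -/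
def Q (u : ℕ → G) (w : ℕ) : ℕ → Finset G
  | 0 => {0}
  | k + 1 => Q u w k + (Finset.range w).image (fun j => j • u k)

theorem Q_nonempty (u : ℕ → G) {w : ℕ} (hw : 1 ≤ w) (k : ℕ) : (Q u w k).Nonempty := by
  induction k with
  | zero => exact Finset.singleton_nonempty 0
  | succ k ih =>
    refine ih.add ?_
    exact ⟨0 • u k, Finset.mem_image.2 ⟨0, Finset.mem_range.2 (by omega), rfl⟩⟩

theorem Q_sub (u : ℕ → G) {w : ℕ} (hw : 1 ≤ w) (k : ℕ) : Q u w k ⊆ Q u w (k + 1) := by
  intro x hx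
  refine Finset.mem_add.2 ⟨x, hx, 0, Finset.mem_image.2 ⟨0, Finset.mem_range.2 (by omega), ?_⟩, add_zero x⟩
  exact zero_smul ℕ (u k)

theorem Q_lam (lam : ℕ → G →+ ℚ) (u : ℕ → G) {n w : ℕ}
    (hlu : ∀ i < n, ∀ j < n, lam i (u j) = if i = j then 1 else 0) :
    ∀ k < n, ∀ q ∈ Q u w k, ∀ i < n, k ≤ i → lam i q = 0 := by
  intro k
  induction k with
  | zero =>
    intro _ q hq i _ _
    rw [Q, Finset.mem_singleton] at hq
    rw [hq, map_zero]
  | succ k ih =>
    intro hk q hq i hi hki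
    obtain ⟨a, ha, b, hb, rfl⟩ := Finset.mem_add.1 hq
    obtain ⟨j, -, rfl⟩ := Finset.mem_image.1 hb
    rw [map_add, map_nsmul, ih (by omega) a ha i hi (by omega), hlu i hi k (by omega),
      if_neg (by omega), smul_zero, add_zero]

theorem min_le_sqrt {p q : ℝ} (hp : 0 ≤ p) (hq : 0 ≤ q) : min p q ≤ Real.sqrt (p * q) := by
  apply Real.le_sqrt_of_sq_le
  rcases le_total p q with h | h
  · rw [min_eq_left h]
    nlinarith
  · rw [min_eq_right h]
    nlinarith

theorem amgm {x y α β : ℝ} (hx : 0 ≤ x) (hy : 0 ≤ y) (hα : 0 < α) (hβ : 0 < β) :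
    2 * Real.sqrt (x * y) ≤ Real.sqrt (α * β) * (x / α + y / β) := by
  have h1 : Real.sqrt (x * y) = Real.sqrt (α * β) * Real.sqrt ((x / α) * (y / β)) := by
    rw [← Real.sqrt_mul (by positivity)]
    congr 1
    field_simp
  have h2 : 2 * Real.sqrt ((x / α) * (y / β)) ≤ x / α + y / β := by
    have h3 : 0 ≤ x / α := by positivity
    have h4 : 0 ≤ y / β := by positivity
    rw [Real.sqrt_mul h3]
    have h5 := sq_nonneg (Real.sqrt (x / α) - Real.sqrt (y / β))
    have h6 := Real.sq_sqrt h3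
    have h7 := Real.sq_sqrt h4
    nlinarith
  rw [h1]
  have h8 := Real.sqrt_nonneg (α * β)
  nlinarith [mul_le_mul_of_nonneg_left h2 h8]

/-- **The discrete Prékopa-Leindler inequality.** -/
theorem core (lam : ℕ → G →+ ℚ) (u : ℕ → G) {n w : ℕ}
    (hlu : ∀ i < n, ∀ j < n, lam i (u j) = if i = j then 1 else 0) (hw : 1 ≤ w)
    {θ : ℝ} (h0 : 0 ≤ θ) (h1 : θ ≤ 1) :
    ∀ k ≤ n, ∀ X Y : Finset G, X.Nonempty → Y.Nonempty →
      2 ^ k * Real.sqrt (X.card * Y.card) ≤
        (1 + (w : ℝ) ^ (-θ)) ^ k * (((X + Y).card : ℝ) ^ (1 - θ) * ((X + Y + Q u w k).card : ℝ) ^ θ) := by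
  intro k
  induction k with
  | zero =>
    intro _ X Y hX hY
    have e : X + Y + Q u w 0 = X + Y := by
      show X + Y + ({0} : Finset G) = X + Y
      rw [Finset.singleton_zero, add_zero]
    rw [e, pow_zero, pow_zero, one_mul, one_mul]
    have hpos : (0 : ℝ) < (X + Y).card := by exact_mod_cast (hX.add hY).card_pos
    rw [← Real.rpow_add hpos]
    have e2 : 1 - θ + θ = 1 := by ring
    rw [e2, Real.rpow_one]
    have h2 : (X.card : ℝ) ≤ (X + Y).card := by
      exact_mod_cast Finset.card_le_card_add_right hY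
    have h3 : (Y.card : ℝ) ≤ (X + Y).card := by
      exact_mod_cast Finset.card_le_card_add_left hX
    rw [Real.sqrt_le_left hpos.le, sq]
    exact mul_le_mul h2 h3 (Nat.cast_nonneg _) hpos.le
  | succ k ih =>
    intro hk X Y hX hY
    have hkn : k < n := by omega
    have ihk := ih (by omega)
    obtain ⟨τ, hτ⟩ : ∃ τ : ℝ, τ = (w : ℝ) ^ (-θ) := ⟨_, rfl⟩
    have hw0 : (0 : ℝ) < w := by exact_mod_cast hw
    have hτ0 : 0 < τ := by rw [hτ]; exact Real.rpow_pos_of_pos hw0 _
    obtain ⟨C, hC⟩ : ∃ C : ℝ, C = (1 + τ) ^ k := ⟨_, rfl⟩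
    have hC0 : 0 < C := by rw [hC]; positivity
    obtain ⟨S, hS⟩ : ∃ S, S = X + Y := ⟨_, rfl⟩
    have hSne : S.Nonempty := by rw [hS]; exact hX.add hY
    -- fibres
    let XX : ℚ → Finset G := fun z => X.filter (fun g => lam k g = z)
    let YY : ℚ → Finset G := fun z => Y.filter (fun g => lam k g = z)
    let SS : ℚ → Finset G := fun z => S.filter (fun g => lam k g = z)
    let a : ℚ → ℝ := fun z => ((XX z).card : ℝ)
    let b : ℚ → ℝ := fun z => ((YY z).card : ℝ)
    let c : ℚ → ℝ := fun z => C * (((SS z).card : ℝ) ^ (1 - θ) * ((SS z + Q u w k).card : ℝ) ^ θ)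
    obtain ⟨I, hI⟩ : ∃ I : Finset ℚ, I = X.image (lam k) := ⟨_, rfl⟩
    obtain ⟨J, hJ⟩ : ∃ J : Finset ℚ, J = Y.image (lam k) := ⟨_, rfl⟩
    have hIne : I.Nonempty := by rw [hI]; exact hX.image _
    have hJne : J.Nonempty := by rw [hJ]; exact hY.image _
    have hIJ : I + J = S.image (lam k) := by
      rw [hI, hJ, hS]
      exact (Finset.image_add (lam k)).symm
    have hane : ∀ z ∈ I, (XX z).Nonempty := by
      intro z hz
      rw [hI] at hz
      obtain ⟨g, hg, rfl⟩ := Finset.mem_image.1 hz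
      exact ⟨g, Finset.mem_filter.2 ⟨hg, rfl⟩⟩
    have hbne : ∀ z ∈ J, (YY z).Nonempty := by
      intro z hz
      rw [hJ] at hz
      obtain ⟨g, hg, rfl⟩ := Finset.mem_image.1 hz
      exact ⟨g, Finset.mem_filter.2 ⟨hg, rfl⟩⟩
    obtain ⟨x0, hx0, hx0m⟩ := I.exists_max_image a hIne
    obtain ⟨y0, hy0, hy0m⟩ := J.exists_max_image b hJne
    obtain ⟨α, hα⟩ : ∃ α, α = a x0 := ⟨_, rfl⟩
    obtain ⟨β, hβ⟩ : ∃ β, β = b y0 := ⟨_, rfl⟩
    have hα0 : 0 < α := by rw [hα]; exact Nat.cast_pos.2 (hane x0 hx0).card_pos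
    have hβ0 : 0 < β := by rw [hβ]; exact Nat.cast_pos.2 (hbne y0 hy0).card_pos
    obtain ⟨s, hs⟩ : ∃ s, s = Real.sqrt (α * β) := ⟨_, rfl⟩
    have hs0 : 0 < s := by rw [hs]; positivity
    obtain ⟨P, hP⟩ : ∃ P : ℝ, P = 2 ^ k * s := ⟨_, rfl⟩
    have hP0 : 0 < P := by rw [hP]; positivity
    -- the induction hypothesis on the fibres
    have hfib : ∀ x ∈ I, ∀ y ∈ J, 2 ^ k * Real.sqrt (a x * b y) ≤ c (x + y) := by
      intro x hx y hy
      have h2 := ihk (XX x) (YY y) (hane x hx) (hbne y hy)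
      rw [← hτ, ← hC] at h2
      refine h2.trans ?_
      have hsub : XX x + YY y ⊆ SS (x + y) := by
        intro g hg
        obtain ⟨p, hp, q, hq, rfl⟩ := Finset.mem_add.1 hg
        have hp' := Finset.mem_filter.1 hp
        have hq' := Finset.mem_filter.1 hq
        refine Finset.mem_filter.2 ⟨?_, ?_⟩
        · rw [hS]; exact Finset.add_mem_add hp'.1 hq'.1
        · rw [map_add, hp'.2, hq'.2]
      have e1 : ((XX x + YY y).card : ℝ) ^ (1 - θ) ≤ ((SS (x + y)).card : ℝ) ^ (1 - θ) := by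
        apply Real.rpow_le_rpow (Nat.cast_nonneg _) _ (by linarith)
        exact_mod_cast Finset.card_le_card hsub
      have e2 : ((XX x + YY y + Q u w k).card : ℝ) ^ θ ≤ ((SS (x + y) + Q u w k).card : ℝ) ^ θ := by
        apply Real.rpow_le_rpow (Nat.cast_nonneg _) _ h0
        exact_mod_cast Finset.card_le_card (Finset.add_subset_add_right hsub)
      exact mul_le_mul_of_nonneg_left (mul_le_mul e1 e2 (by positivity) (by positivity)) hC0.le
    have hmin : ∀ x ∈ I, ∀ y ∈ J, min (a x / α) (b y / β) ≤ c (x + y) / P := by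
      intro x hx y hy
      rw [le_div_iff₀ hP0]
      have hax : 0 ≤ a x := Nat.cast_nonneg _
      have hby : 0 ≤ b y := Nat.cast_nonneg _
      have h2 := min_le_sqrt (div_nonneg hax hα0.le) (div_nonneg hby hβ0.le)
      calc min (a x / α) (b y / β) * P ≤ Real.sqrt ((a x / α) * (b y / β)) * P :=
            mul_le_mul_of_nonneg_right h2 hP0.le
        _ = 2 ^ k * (Real.sqrt (α * β) * Real.sqrt ((a x / α) * (b y / β))) := by
            rw [hP, hs]; ring
        _ = 2 ^ k * Real.sqrt (a x * b y) := by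
            rw [← Real.sqrt_mul (by positivity)]
            congr 2
            field_simp
        _ ≤ c (x + y) := hfib x hx y hy
    have hW := weighted (I.card + J.card) I J (fun z => a z / α) (fun z => b z / β)
      (fun z => c z / P) 1 le_rfl ⟨x0, hx0, by rw [hα]; exact div_self (by rw [← hα]; exact hα0.ne')⟩
      ⟨y0, hy0, by rw [hβ]; exact div_self (by rw [← hβ]; exact hβ0.ne')⟩
      (fun x hx => ⟨div_nonneg (Nat.cast_nonneg _) hα0.le, by
        show a x / α ≤ 1
        rw [div_le_one hα0, hα]; exact hx0m x hx⟩)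
      (fun x hx => ⟨div_nonneg (Nat.cast_nonneg _) hβ0.le, by
        show b x / β ≤ 1
        rw [div_le_one hβ0, hβ]; exact hy0m x hx⟩) hmin
    have hsumX : ∑ x ∈ I, a x / α = (X.card : ℝ) / α := by
      rw [← Finset.sum_div]
      congr 1
      have := Finset.card_eq_sum_card_image (lam k) X
      rw [hI]
      rw [this]
      push_cast
      rfl
    have hsumY : ∑ x ∈ J, b x / β = (Y.card : ℝ) / β := by
      rw [← Finset.sum_div]
      congr 1
      have := Finset.card_eq_sum_card_image (lam k) Y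
      rw [hJ]
      rw [this]
      push_cast
      rfl
    rw [hsumX, hsumY, ← Finset.sum_div] at hW
    obtain ⟨z0, hz0⟩ : ∃ z0, z0 = x0 + y0 := ⟨_, rfl⟩
    have hcz0 : P ≤ c z0 := by
      have := hfib x0 hx0 y0 hy0
      rw [← hα, ← hβ, ← hs, ← hP, ← hz0] at this
      exact this
    have hlow : P * ((X.card : ℝ) / α + (Y.card : ℝ) / β) ≤ c z0 + ∑ z ∈ I + J, c z := by
      have h2 := mul_le_mul_of_nonneg_left hW hP0.le
      have h3 : P * (1 + (∑ z ∈ I + J, c z) / P) = P + ∑ z ∈ I + J, c z := by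
        field_simp
      rw [h3] at h2
      linarith
    have hlow2 : 2 ^ (k + 1) * Real.sqrt (X.card * Y.card) ≤ c z0 + ∑ z ∈ I + J, c z := by
      refine le_trans ?_ hlow
      have h2 := amgm (x := (X.card : ℝ)) (y := (Y.card : ℝ)) (Nat.cast_nonneg _) (Nat.cast_nonneg _) hα0 hβ0
      rw [hP, hs]
      calc 2 ^ (k + 1) * Real.sqrt (X.card * Y.card) = 2 ^ k * (2 * Real.sqrt (X.card * Y.card)) := by
            rw [pow_succ]; ring
        _ ≤ 2 ^ k * (Real.sqrt (α * β) * ((X.card : ℝ) / α + (Y.card : ℝ) / β)) :=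
            mul_le_mul_of_nonneg_left h2 (by positivity)
        _ = _ := by ring
    refine hlow2.trans ?_
    -- upper bounds
    obtain ⟨s1, hs1⟩ : ∃ s1 : ℝ, s1 = (S.card : ℝ) := ⟨_, rfl⟩
    obtain ⟨s2, hs2⟩ : ∃ s2 : ℝ, s2 = ((S + Q u w (k + 1)).card : ℝ) := ⟨_, rfl⟩
    have hs10 : 0 < s1 := by rw [hs1]; exact_mod_cast hSne.card_pos
    have hs20 : 0 < s2 := by rw [hs2]; exact_mod_cast (hSne.add (Q_nonempty u hw _)).card_pos
    have hlamQ : ∀ q ∈ Q u w k, lam k q = 0 := fun q hq => Q_lam lam u hlu k hkn q hq k hkn le_rfl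
    have hfibQ : ∀ z, (S + Q u w k).filter (fun g => lam k g = z) = SS z + Q u w k := by
      intro z
      ext g
      constructor
      · intro hg
        have hg' := Finset.mem_filter.1 hg
        obtain ⟨p, hp, q, hq, rfl⟩ := Finset.mem_add.1 hg'.1
        refine Finset.add_mem_add (Finset.mem_filter.2 ⟨hp, ?_⟩) hq
        have := hg'.2
        rw [map_add, hlamQ q hq, add_zero] at this
        exact this
      · intro hg
        obtain ⟨p, hp, q, hq, rfl⟩ := Finset.mem_add.1 hg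
        have hp' := Finset.mem_filter.1 hp
        refine Finset.mem_filter.2 ⟨Finset.add_mem_add hp'.1 hq, ?_⟩
        rw [map_add, hlamQ q hq, add_zero]
        exact hp'.2
    have hsum : ∑ z ∈ I + J, c z ≤ C * (s1 ^ (1 - θ) * s2 ^ θ) := by
      show ∑ z ∈ I + J, C * (((SS z).card : ℝ) ^ (1 - θ) * ((SS z + Q u w k).card : ℝ) ^ θ) ≤ _
      rw [← Finset.mul_sum]
      refine mul_le_mul_of_nonneg_left ?_ hC0.le
      refine holder (I + J) (fun z => ((SS z).card : ℝ)) (fun z => ((SS z + Q u w k).card : ℝ))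
        (fun _ _ => Nat.cast_nonneg _) (fun _ _ => Nat.cast_nonneg _) ?_ ?_ hs10 hs20 h0 h1
      · have := Finset.card_eq_sum_card_image (lam k) S
        rw [hs1, hIJ, this]
        push_cast
        exact le_rfl
      · have h2 : (S + Q u w k).card = ∑ z ∈ (S + Q u w k).image (lam k), (SS z + Q u w k).card := by
          rw [Finset.card_eq_sum_card_image (lam k) (S + Q u w k)]
          exact Finset.sum_congr rfl (fun z _ => by rw [hfibQ z])
        have h3 : (S + Q u w k).image (lam k) = I + J := by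
          rw [hIJ]
          ext z
          constructor
          · intro hz
            obtain ⟨g, hg, rfl⟩ := Finset.mem_image.1 hz
            obtain ⟨p, hp, q, hq, rfl⟩ := Finset.mem_add.1 hg
            exact Finset.mem_image.2 ⟨p, hp, by rw [map_add, hlamQ q hq, add_zero]⟩
          · intro hz
            obtain ⟨p, hp, rfl⟩ := Finset.mem_image.1 hz
            obtain ⟨q, hq⟩ := Q_nonempty u hw k
            exact Finset.mem_image.2 ⟨p + q, Finset.add_mem_add hp hq, by
              rw [map_add, hlamQ q hq, add_zero]⟩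
        rw [h3] at h2
        have h4 : (S + Q u w k).card ≤ (S + Q u w (k + 1)).card :=
          Finset.card_le_card (Finset.add_subset_add_left (Q_sub u hw k))
        rw [h2] at h4
        rw [hs2]
        exact_mod_cast h4
    have hmaxc : c z0 ≤ C * (τ * (s1 ^ (1 - θ) * s2 ^ θ)) := by
      show C * (((SS z0).card : ℝ) ^ (1 - θ) * ((SS z0 + Q u w k).card : ℝ) ^ θ) ≤ _
      refine mul_le_mul_of_nonneg_left ?_ hC0.le
      have h2 : ((SS z0).card : ℝ) ^ (1 - θ) ≤ s1 ^ (1 - θ) := by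
        apply Real.rpow_le_rpow (Nat.cast_nonneg _) _ (by linarith)
        rw [hs1]
        exact_mod_cast Finset.card_le_card (Finset.filter_subset _ _)
      have h3 : w * (SS z0 + Q u w k).card ≤ (S + Q u w (k + 1)).card := by
        have h4 : ((Finset.range w) ×ˢ (SS z0 + Q u w k)).card ≤ (S + Q u w (k + 1)).card := by
          refine Finset.card_le_card_of_injOn (fun p => p.2 + p.1 • u k) ?_ ?_
          · intro p hp
            have hp' := Finset.mem_product.1 (Finset.mem_coe.1 hp)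
            obtain ⟨g, hg, q, hq, hgq⟩ := Finset.mem_add.1 hp'.2
            rw [Finset.mem_coe]
            show p.2 + p.1 • u k ∈ _
            rw [← hgq, add_assoc]
            refine Finset.add_mem_add (Finset.mem_filter.1 hg).1 ?_
            exact Finset.add_mem_add hq (Finset.mem_image.2 ⟨p.1, hp'.1, rfl⟩)
          · rintro ⟨p1, p2⟩ hp ⟨q1, q2⟩ hq hpq
            have hp' := Finset.mem_product.1 (Finset.mem_coe.1 hp)
            have hq' := Finset.mem_product.1 (Finset.mem_coe.1 hq)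
            simp only at hpq hp' hq'
            have hl : ∀ g ∈ SS z0 + Q u w k, lam k g = z0 := by
              intro g hg
              rw [← hfibQ z0] at hg
              exact (Finset.mem_filter.1 hg).2
            have h5 := congrArg (lam k) hpq
            rw [map_add, map_add, map_nsmul, map_nsmul, hl p2 hp'.2, hl q2 hq'.2, hlu k hkn k hkn,
              if_pos rfl, nsmul_eq_mul, nsmul_eq_mul, mul_one, mul_one] at h5
            have h6 : p1 = q1 := by
              have : (p1 : ℚ) = q1 := by linarith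
              exact_mod_cast this
            subst h6
            rw [add_left_inj] at hpq
            rw [hpq]
        rw [Finset.card_product, Finset.card_range] at h4
        exact h4
      have h5 : ((SS z0 + Q u w k).card : ℝ) ≤ s2 * (w : ℝ)⁻¹ := by
        rw [← div_eq_mul_inv, le_div_iff₀ hw0, hs2, mul_comm]
        exact_mod_cast h3
      have h6 : ((SS z0 + Q u w k).card : ℝ) ^ θ ≤ s2 ^ θ * τ := by
        refine (Real.rpow_le_rpow (Nat.cast_nonneg _) h5 h0).trans (le_of_eq ?_)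
        rw [Real.mul_rpow hs20.le (by positivity), hτ, Real.inv_rpow hw0.le, Real.rpow_neg hw0.le]
      calc ((SS z0).card : ℝ) ^ (1 - θ) * ((SS z0 + Q u w k).card : ℝ) ^ θ ≤
          s1 ^ (1 - θ) * (s2 ^ θ * τ) := mul_le_mul h2 h6 (by positivity) (by positivity)
        _ = _ := by ring
    have e : (1 + (w : ℝ) ^ (-θ)) ^ (k + 1) * (((X + Y).card : ℝ) ^ (1 - θ) *
        ((X + Y + Q u w (k + 1)).card : ℝ) ^ θ) = C * (τ * (s1 ^ (1 - θ) * s2 ^ θ)) +
        C * (s1 ^ (1 - θ) * s2 ^ θ) := by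
      rw [← hτ, ← hS, ← hs1, ← hs2, pow_succ, ← hC]
      ring
    rw [e]
    linarith

end Q148.SD
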