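import Pool.Agent.Q148.SD2

/-!
# Greedy carving and choice of the scale
-/

set_option autoImplicit false

namespace Q148.SD

open Finset
open scoped Pointwise

/-- Greedy carving. -/
theorem carve {Γ : Type*} [AddCommGroup Γ] [DecidableEq Γ] {P1 P2 P3 A' : Finset Γ} {x0 : Γ}
    (hA' : A'.Nonempty) (h0 : P3.Nonempty)
    (h12 : ∀ y ∈ P1, ∀ a ∈ A', y + (a - x0) ∈ P2) (h23 : ∀ p ∈ P2, ∀ a ∈ A', p - (a - x0) ∈ P3)
    {θ κ : ℝ} (hθ : θ * P3.card ≤ P1.card) (hκ : 0 ≤ κ) :
    ∀ (N : ℕ) (B : Finset Γ), B.card ≤ N →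
      (∀ c, ∀ Y ⊆ B, (∀ y ∈ Y, y - c ∈ P1) → κ * Y.card ≤ (Y + A').card) →
      κ * θ * B.card ≤ (B + A').card := by
  have h13 : P1 ⊆ P3 := by
    intro y hy
    obtain ⟨a, ha⟩ := hA'
    have h1 := h23 _ (h12 y hy a ha) a ha
    rwa [add_sub_cancel_right] at h1
  intro N
  induction N with
  | zero =>
    intro B hB _
    have : B.card = 0 := by omega
    rw [this, Nat.cast_zero, mul_zero]
    exact Nat.cast_nonneg _
  | succ N ih =>
    intro B hB hY
    rcases B.eq_empty_or_nonempty with hemp | hne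
    · rw [hemp, Finset.card_empty, Nat.cast_zero, mul_zero]
      exact Nat.cast_nonneg _
    -- averaging
    have hav : ∃ c, (B.filter (fun b => b - c ∈ P3)).Nonempty ∧
        θ * (B.filter (fun b => b - c ∈ P3)).card ≤ (B.filter (fun b => b - c ∈ P1)).card := by
      by_contra hcon
      push Not at hcon
      have hC : (B - P3).Nonempty := hne.sub h0
      have hdc : ∀ P : Finset Γ, P ⊆ P3 →
          ∑ c ∈ B - P3, (B.filter (fun b => b - c ∈ P)).card = B.card * P.card := by
        intro P hP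
        have h1 : ∑ c ∈ B - P3, (B.filter (fun b => b - c ∈ P)).card =
            ∑ b ∈ B, ((B - P3).filter (fun c => b - c ∈ P)).card := by
          simp only [Finset.card_filter]
          exact Finset.sum_comm
        rw [h1]
        have h2 : ∀ b ∈ B, ((B - P3).filter (fun c => b - c ∈ P)).card = P.card := by
          intro b hb
          have h3 : (B - P3).filter (fun c => b - c ∈ P) = P.image (fun p => b - p) := by
            ext c
            constructor
            · intro hc
              have := (Finset.mem_filter.1 hc).2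
              exact Finset.mem_image.2 ⟨b - c, this, by abel⟩
            · intro hc
              obtain ⟨p, hp, rfl⟩ := Finset.mem_image.1 hc
              refine Finset.mem_filter.2 ⟨Finset.sub_mem_sub hb (hP hp), ?_⟩
              have : b - (b - p) = p := by abel
              rw [this]
              exact hp
          rw [h3, Finset.card_image_of_injective _ (fun p q hpq => by
            have : b - p = b - q := hpq
            exact sub_right_injective this)]
        rw [Finset.sum_congr rfl h2, Finset.sum_const, smul_eq_mul]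
      have h3 : ∑ c ∈ B - P3, ((B.filter (fun b => b - c ∈ P1)).card : ℝ) <
          ∑ c ∈ B - P3, θ * ((B.filter (fun b => b - c ∈ P3)).card : ℝ) := by
        apply Finset.sum_lt_sum_of_nonempty hC
        intro c hc
        obtain ⟨b, hb, p, hp, rfl⟩ := Finset.mem_sub.1 hc
        apply hcon
        refine ⟨b, Finset.mem_filter.2 ⟨hb, ?_⟩⟩
        have : b - (b - p) = p := by abel
        rw [this]
        exact hp
      rw [← Finset.mul_sum] at h3
      have h4 : ∑ c ∈ B - P3, ((B.filter (fun b => b - c ∈ P1)).card : ℝ) = B.card * P1.card := by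
        exact_mod_cast hdc P1 h13
      have h5 : ∑ c ∈ B - P3, ((B.filter (fun b => b - c ∈ P3)).card : ℝ) = B.card * P3.card := by
        exact_mod_cast hdc P3 (Finset.Subset.refl _)
      rw [h4, h5] at h3
      have h6 : (0 : ℝ) ≤ B.card := Nat.cast_nonneg _
      nlinarith [mul_le_mul_of_nonneg_left hθ h6]
    obtain ⟨c, hc1, hc2⟩ := hav
    obtain ⟨Y, hYd⟩ : ∃ Y, Y = B.filter (fun b => b - c ∈ P1) := ⟨_, rfl⟩
    obtain ⟨Z, hZd⟩ : ∃ Z, Z = B.filter (fun b => b - c ∈ P3) := ⟨_, rfl⟩
    rw [← hZd] at hc1 hc2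
    rw [← hYd] at hc2
    have hZB : Z ⊆ B := by rw [hZd]; exact Finset.filter_subset _ _
    have hYB : Y ⊆ B := by rw [hYd]; exact Finset.filter_subset _ _
    have hcard : (B \ Z).card + Z.card = B.card := Finset.card_sdiff_add_card_eq_card hZB
    have hZpos := hc1.card_pos
    have hih := ih (B \ Z) (by omega) (fun c' Y' hY' => hY c' Y' (hY'.trans Finset.sdiff_subset))
    have hYY := hY c Y hYB (fun y hy => by rw [hYd] at hy; exact (Finset.mem_filter.1 hy).2)
    have hdisj : Disjoint (Y + A') ((B \ Z) + A') := by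
      rw [Finset.disjoint_left]
      intro g hg1 hg2
      obtain ⟨y, hy, a, ha, rfl⟩ := Finset.mem_add.1 hg1
      obtain ⟨b, hb, a', ha', hba⟩ := Finset.mem_add.1 hg2
      rw [hYd] at hy
      have h1 := h12 _ (Finset.mem_filter.1 hy).2 a ha
      have h2 := h23 _ h1 a' ha'
      have h3 : y - c + (a - x0) - (a' - x0) = b - c := by
        have : b = y + a - a' := by rw [← hba]; abel
        rw [this]; abel
      rw [h3] at h2
      have hb' := Finset.mem_sdiff.1 hb
      apply hb'.2
      rw [hZd]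
      exact Finset.mem_filter.2 ⟨hb'.1, h2⟩
    have hsub : (Y + A') ∪ ((B \ Z) + A') ⊆ B + A' := by
      apply Finset.union_subset
      · exact Finset.add_subset_add_right hYB
      · exact Finset.add_subset_add_right Finset.sdiff_subset
    have hle := Finset.card_le_card hsub
    rw [Finset.card_union_of_disjoint hdisj] at hle
    have hle' : ((Y + A').card : ℝ) + ((B \ Z) + A').card ≤ (B + A').card := by exact_mod_cast hle
    have hcard' : ((B \ Z).card : ℝ) + Z.card = B.card := by exact_mod_cast hcard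
    have h7 : κ * θ * Z.card ≤ κ * Y.card := by
      have := mul_le_mul_of_nonneg_left hc2 hκ
      linarith
    rw [← hcard']
    linarith

/-- the abstract system of scales with labels -/
structure Sys {Γ : Type*} [AddCommGroup Γ] (P : ℕ → Finset Γ) (n : ℕ) (lam : Γ → ℕ → ℚ)
    (e : ℕ → Γ) (Rm w : ℕ) : Prop where
  zero : ∀ a, (0 : Γ) ∈ P a
  add : ∀ a b x y, x ∈ P a → y ∈ P b → x + y ∈ P (a + b)
  neg : ∀ a x, x ∈ P a → -x ∈ P a
  ladd : ∀ a b x y, x ∈ P a → y ∈ P b → a + b ≤ Rm → ∀ i < n, lam (x + y) i = lam x i + lam y i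
  combo : ∀ c : ℕ → ℕ, (∀ i, c i < w) → ∑ i ∈ range n, c i • e i ∈ P 1 ∧
    ∀ i < n, lam (∑ i ∈ range n, c i • e i) i = c i

theorem Sys.mono {Γ : Type*} [AddCommGroup Γ] {P : ℕ → Finset Γ} {n : ℕ} {lam : Γ → ℕ → ℚ}
    {e : ℕ → Γ} {Rm w : ℕ} (S : Sys P n lam e Rm w) {a b : ℕ} (h : a ≤ b) : P a ⊆ P b := by
  intro x hx
  have h3 := S.add a (b - a) x 0 hx (S.zero _)
  rw [add_zero] at h3
  rwa [Nat.add_sub_cancel' h] at h3

theorem Q_mem {G : Type*} [AddCommGroup G] [DecidableEq G] (u : ℕ → G) {w : ℕ} (hw : 1 ≤ w) :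
    ∀ k, ∀ q ∈ Q u w k, ∃ c : ℕ → ℕ, (∀ i, c i < w) ∧ q = ∑ i ∈ range k, c i • u i := by
  intro k
  induction k with
  | zero =>
    intro q hq
    rw [Q, Finset.mem_singleton] at hq
    exact ⟨fun _ => 0, fun _ => (by omega : 0 < w), by rw [hq, Finset.sum_range_zero]⟩
  | succ k ih =>
    intro q hq
    obtain ⟨a, ha, b, hb, rfl⟩ := Finset.mem_add.1 hq
    obtain ⟨j, hj, rfl⟩ := Finset.mem_image.1 hb
    obtain ⟨c, hc, rfl⟩ := ih a ha
    refine ⟨fun i => if i = k then j else c i, ?_, ?_⟩
    · intro i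
      show (if i = k then j else c i) < w
      split_ifs
      · exact Finset.mem_range.1 hj
      · exact hc i
    · rw [Finset.sum_range_succ]
      show _ = ∑ x ∈ range k, (if x = k then j else c x) • u x + (if k = k then j else c k) • u k
      rw [if_pos rfl]
      congr 1
      refine Finset.sum_congr rfl fun i hi => ?_
      rw [if_neg (by have := Finset.mem_range.1 hi; omega)]

theorem sys_core {Γ : Type*} [AddCommGroup Γ] [DecidableEq Γ] {P : ℕ → Finset Γ} {n : ℕ}
    {lam : Γ → ℕ → ℚ} {e : ℕ → Γ} {Rm w : ℕ} (S : Sys P n lam e Rm w) (hw : 1 ≤ w)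
    {θ : ℝ} (h0 : 0 ≤ θ) (h1 : θ ≤ 1) {X Y : Finset Γ} (hX : X.Nonempty) (hY : Y.Nonempty)
    {c x0 : Γ} {r1 r2 : ℕ} (hXP : ∀ x ∈ X, x - c ∈ P r1) (hYP : ∀ y ∈ Y, y - x0 ∈ P r2)
    (hr : r1 + r2 + 1 ≤ Rm) :
    2 ^ n * Real.sqrt (X.card * Y.card) ≤
      (1 + (w : ℝ) ^ (-θ)) ^ n * (((X + Y).card : ℝ) ^ (1 - θ) * ((P Rm).card : ℝ) ^ θ) := by
  classical
  let G := Γ × (ℕ → ℚ)
  let pr : ℕ → G →+ ℚ := fun i => (Pi.evalAddMonoidHom (fun _ : ℕ => ℚ) i).comp (AddMonoidHom.snd Γ (ℕ → ℚ))
  let u : ℕ → G := fun i => (e i, Pi.single i 1)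
  let l : Γ → ℕ → ℚ := fun x i => if i < n then lam x i else 0
  let fX : Γ → G := fun x => (x, l (x - c))
  let fY : Γ → G := fun x => (x, l (x - x0))
  have hlu : ∀ i < n, ∀ j < n, pr i (u j) = if i = j then 1 else 0 := by
    intro i _ j _
    show (Pi.single j (1 : ℚ) : ℕ → ℚ) i = _
    rw [Pi.single_apply]
  have hcore := core pr u hlu hw h0 h1 n le_rfl (X.image fX) (Y.image fY) (hX.image _) (hY.image _)
  have hfX : Function.Injective fX := fun a b hab => congrArg Prod.fst hab
  have hfY : Function.Injective fY := fun a b hab => congrArg Prod.fst hab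
  rw [Finset.card_image_of_injective _ hfX, Finset.card_image_of_injective _ hfY] at hcore
  refine hcore.trans ?_
  have hl : ∀ x ∈ X, ∀ y ∈ Y, l (x - c) + l (y - x0) = l (x + y - c - x0) := by
    intro x hx y hy
    funext i
    show (if i < n then lam (x - c) i else 0) + (if i < n then lam (y - x0) i else 0) =
      if i < n then lam (x + y - c - x0) i else 0
    split_ifs with hi
    · have h2 := S.ladd r1 r2 (x - c) (y - x0) (hXP x hx) (hYP y hy) (by omega) i hi
      have h3 : x - c + (y - x0) = x + y - c - x0 := by abel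
      rw [h3] at h2
      exact h2.symm
    · exact add_zero 0
  have hc1 : (X.image fX + Y.image fY).card ≤ (X + Y).card := by
    refine Finset.card_le_card_of_injOn Prod.fst ?_ ?_
    · intro g hg
      obtain ⟨a, ha, b, hb, rfl⟩ := Finset.mem_add.1 (Finset.mem_coe.1 hg)
      obtain ⟨x, hx, rfl⟩ := Finset.mem_image.1 ha
      obtain ⟨y, hy, rfl⟩ := Finset.mem_image.1 hb
      exact Finset.mem_coe.2 (Finset.add_mem_add hx hy)
    · intro g hg g' hg' hgg
      obtain ⟨a, ha, b, hb, rfl⟩ := Finset.mem_add.1 (Finset.mem_coe.1 hg)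
      obtain ⟨x, hx, rfl⟩ := Finset.mem_image.1 ha
      obtain ⟨y, hy, rfl⟩ := Finset.mem_image.1 hb
      obtain ⟨a', ha', b', hb', rfl⟩ := Finset.mem_add.1 (Finset.mem_coe.1 hg')
      obtain ⟨x', hx', rfl⟩ := Finset.mem_image.1 ha'
      obtain ⟨y', hy', rfl⟩ := Finset.mem_image.1 hb'
      have h2 : x + y = x' + y' := hgg
      refine Prod.ext hgg ?_
      show l (x - c) + l (y - x0) = l (x' - c) + l (y' - x0)
      rw [hl x hx y hy, hl x' hx' y' hy', h2]
  -- the elements of the box
  have hbox : ∀ x ∈ X, ∀ y ∈ Y, ∀ q ∈ Q u w n, x + y + q.1 - c - x0 ∈ P Rm ∧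
      l (x - c) + l (y - x0) + q.2 = l (x + y + q.1 - c - x0) := by
    intro x hx y hy q hq
    obtain ⟨k, hk, rfl⟩ := Q_mem u hw n q hq
    have hq1 : (∑ i ∈ range n, k i • u i).1 = ∑ i ∈ range n, k i • e i := by
      rw [Prod.fst_sum]
      rfl
    have hq2 : (∑ i ∈ range n, k i • u i).2 = fun i => if i < n then (k i : ℚ) else 0 := by
      rw [Prod.snd_sum]
      funext i
      rw [Finset.sum_apply]
      have : ∀ j ∈ range n, (k j • u j).2 i = if i = j then (k j : ℚ) else 0 := by
        intro j _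
        show (k j • (Pi.single j (1 : ℚ) : ℕ → ℚ)) i = _
        rw [Pi.smul_apply, Pi.single_apply]
        split_ifs <;> simp
      rw [Finset.sum_congr rfl this, Finset.sum_ite_eq]
      simp only [Finset.mem_range]
    have hcb := S.combo k hk
    rw [hq1, hq2, hl x hx y hy]
    have hxy : x + y - c - x0 ∈ P (r1 + r2) := by
      have h2 := S.add r1 r2 (x - c) (y - x0) (hXP x hx) (hYP y hy)
      have h3 : x - c + (y - x0) = x + y - c - x0 := by abel
      rwa [h3] at h2
    have h4 : x + y - c - x0 + ∑ i ∈ range n, k i • e i = x + y + ∑ i ∈ range n, k i • e i - c - x0 := by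
      abel
    constructor
    · have h2 := S.add _ _ _ _ hxy hcb.1
      rw [h4] at h2
      exact S.mono hr h2
    · funext i
      show (if i < n then lam (x + y - c - x0) i else 0) + (if i < n then (k i : ℚ) else 0) =
        if i < n then lam (x + y + ∑ i ∈ range n, k i • e i - c - x0) i else 0
      split_ifs with hi
      · have h2 := S.ladd _ _ _ _ hxy hcb.1 hr i hi
        rw [h4] at h2
        rw [h2, hcb.2 i hi]
      · exact add_zero 0
  have hc2 : (X.image fX + Y.image fY + Q u w n).card ≤ (P Rm).card := by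
    refine Finset.card_le_card_of_injOn (fun g => g.1 - c - x0) ?_ ?_
    · intro g hg
      obtain ⟨s, hs, q, hq, rfl⟩ := Finset.mem_add.1 (Finset.mem_coe.1 hg)
      obtain ⟨a, ha, b, hb, rfl⟩ := Finset.mem_add.1 hs
      obtain ⟨x, hx, rfl⟩ := Finset.mem_image.1 ha
      obtain ⟨y, hy, rfl⟩ := Finset.mem_image.1 hb
      exact Finset.mem_coe.2 (hbox x hx y hy q hq).1
    · intro g hg g' hg' hgg
      obtain ⟨s, hs, q, hq, rfl⟩ := Finset.mem_add.1 (Finset.mem_coe.1 hg)
      obtain ⟨a, ha, b, hb, rfl⟩ := Finset.mem_add.1 hs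
      obtain ⟨x, hx, rfl⟩ := Finset.mem_image.1 ha
      obtain ⟨y, hy, rfl⟩ := Finset.mem_image.1 hb
      obtain ⟨s', hs', q', hq', rfl⟩ := Finset.mem_add.1 (Finset.mem_coe.1 hg')
      obtain ⟨a', ha', b', hb', rfl⟩ := Finset.mem_add.1 hs'
      obtain ⟨x', hx', rfl⟩ := Finset.mem_image.1 ha'
      obtain ⟨y', hy', rfl⟩ := Finset.mem_image.1 hb'
      have h2 : x + y + q.1 = x' + y' + q'.1 := by
        have h3 : x + y + q.1 - c - x0 = x' + y' + q'.1 - c - x0 := hgg
        exact sub_left_injective (sub_left_injective h3)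
      refine Prod.ext h2 ?_
      show l (x - c) + l (y - x0) + q.2 = l (x' - c) + l (y' - x0) + q'.2
      rw [(hbox x hx y hy q hq).2, (hbox x' hx' y' hy' q' hq').2, h2]
  refine mul_le_mul_of_nonneg_left ?_ (by positivity)
  refine mul_le_mul ?_ ?_ (by positivity) (by positivity)
  · exact Real.rpow_le_rpow (Nat.cast_nonneg _) (by exact_mod_cast hc1) (by linarith)
  · exact Real.rpow_le_rpow (Nat.cast_nonneg _) (by exact_mod_cast hc2) h0

end Q148.SD
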