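import Pool.Agent.Y806.DF.A
import Pool.Agent.H112R2.Dim

/-!
# Progressions with partially real coordinates
-/

set_option autoImplicit false

namespace Q148.SD

open Finset Pool.Agent.Y806.DF
open scoped Pointwise

/-- the rational vector of an integer vector -/
def qq {m : ℕ} : (Fin m → ℤ) →+ (Fin m → ℚ) where
  toFun v := fun i => (v i : ℚ)
  map_zero' := by funext i; simp
  map_add' a b := by funext i; simp

theorem qq_apply {m : ℕ} (v : Fin m → ℤ) (i : Fin m) : qq v i = (v i : ℚ) := rfl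

theorem re_zsmul {m : ℕ} (k : ℤ) (v : Fin m → ℤ) : re (k • v) = (k : ℝ) • re v := by
  funext i; simp [re]

theorem re_sum {m : ℕ} {ι : Type*} (s : Finset ι) (f : ι → (Fin m → ℤ)) :
    re (∑ i ∈ s, f i) = ∑ i ∈ s, re (f i) := by
  funext j
  rw [Finset.sum_apply]
  show ((∑ i ∈ s, f i) j : ℤ) = ((∑ i ∈ s, (f i j : ℝ)) : ℝ)
  rw [Finset.sum_apply]
  push_cast
  rfl

theorem re_zero {m : ℕ} : re (0 : Fin m → ℤ) = 0 := by funext i; simp [re]

section

variable {Γ : Type*} [AddCommGroup Γ] {m b : ℕ} (N : Seminorm ℝ (Fin m → ℝ))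
  (ψ : (Fin m → ℤ) →+ Γ) (H : AddSubgroup Γ) (V : Submodule ℚ (Fin m → ℚ))
  (v : Fin b → (Fin m → ℤ))

/-- the coefficient vectors of norm at most `R` modulo real combinations of the vectors `v j` -/
def Good (R : ℝ) (c : Fin m → ℤ) : Prop :=
  qq c ∈ V ∧ ∃ τ : Fin b → ℝ, N (re c - ∑ j, τ j • re (v j)) ≤ R

/-- the progression -/
def PP (R : ℝ) : Set Γ := {g | ∃ c, Good N V v R c ∧ g - ψ c ∈ H}

variable {N ψ H V v}

theorem Good.add {R R' : ℝ} {c c' : Fin m → ℤ} (h : Good N V v R c) (h' : Good N V v R' c') :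
    Good N V v (R + R') (c + c') := by
  obtain ⟨h1, τ, h2⟩ := h
  obtain ⟨h1', τ', h2'⟩ := h'
  refine ⟨by rw [map_add]; exact V.add_mem h1 h1', fun j => τ j + τ' j, ?_⟩
  have e : re (c + c') - ∑ j, (τ j + τ' j) • re (v j) =
      (re c - ∑ j, τ j • re (v j)) + (re c' - ∑ j, τ' j • re (v j)) := by
    rw [re_add]
    simp only [add_smul, Finset.sum_add_distrib]
    abel
  rw [e]
  exact (map_add_le_add N _ _).trans (add_le_add h2 h2')

theorem Good.neg {R : ℝ} {c : Fin m → ℤ} (h : Good N V v R c) : Good N V v R (-c) := by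
  obtain ⟨h1, τ, h2⟩ := h
  refine ⟨by rw [map_neg]; exact V.neg_mem h1, fun j => -τ j, ?_⟩
  have e : re (-c) - ∑ j, (-τ j) • re (v j) = -(re c - ∑ j, τ j • re (v j)) := by
    rw [re_neg]
    simp only [neg_smul, Finset.sum_neg_distrib]
    abel
  rw [e, map_neg_eq_map]
  exact h2

theorem Good.sub {R R' : ℝ} {c c' : Fin m → ℤ} (h : Good N V v R c) (h' : Good N V v R' c') :
    Good N V v (R + R') (c - c') := by
  rw [sub_eq_add_neg]
  exact h.add h'.neg

theorem Good.zero {R : ℝ} (hR : 0 ≤ R) : Good N V v R 0 := by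
  refine ⟨by rw [map_zero]; exact V.zero_mem, fun _ => 0, ?_⟩
  simp only [zero_smul, Finset.sum_const_zero, sub_zero, re_zero, map_zero]
  exact hR

theorem Good.mono {R R' : ℝ} (hR : R ≤ R') {c : Fin m → ℤ} (h : Good N V v R c) :
    Good N V v R' c := ⟨h.1, h.2.imp fun _ h => h.trans hR⟩

theorem Good.of_norm {R : ℝ} {c : Fin m → ℤ} (h1 : qq c ∈ V) (h : N (re c) ≤ R) :
    Good N V v R c := by
  refine ⟨h1, fun _ => 0, ?_⟩
  simp only [zero_smul, Finset.sum_const_zero, sub_zero]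
  exact h

/-- division of a good vector by four -/
theorem Good.quarter {R : ℝ} {c : Fin m → ℤ} (h : Good N V v (4 * R) ((4 : ℤ) • c)) :
    Good N V v R c := by
  obtain ⟨h1, τ, h2⟩ := h
  constructor
  · have e : qq c = (1 / 4 : ℚ) • qq ((4 : ℤ) • c) := by
      funext i
      simp [qq_apply]
    rw [e]
    exact V.smul_mem _ h1
  · refine ⟨fun j => τ j / 4, ?_⟩
    have e : re c - ∑ j, (τ j / 4) • re (v j) =
        (1 / 4 : ℝ) • (re ((4 : ℤ) • c) - ∑ j, τ j • re (v j)) := by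
      rw [re_zsmul, smul_sub, smul_smul, Finset.smul_sum]
      congr 1
      · norm_num
      · refine Finset.sum_congr rfl fun j _ => ?_
        rw [smul_smul]
        congr 1
        ring
    rw [e, map_smul_eq_mul, Real.norm_of_nonneg (by norm_num : (0 : ℝ) ≤ 1 / 4)]
    linarith

/-- reduction modulo integer combinations -/
theorem Good.reduce {M : ℝ} (hN : ∀ j, N (re (v j)) ≤ M) {R : ℝ} {c : Fin m → ℤ}
    (h : Good N V v R c) : ∃ z : Fin b → ℤ, N (re (c - ∑ j, z j • v j)) ≤ R + b * M := by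
  obtain ⟨-, τ, h2⟩ := h
  refine ⟨fun j => ⌊τ j⌋, ?_⟩
  have e : re (c - ∑ j, ⌊τ j⌋ • v j) =
      (re c - ∑ j, τ j • re (v j)) + ∑ j, Int.fract (τ j) • re (v j) := by
    rw [re_sub, re_sum]
    have h3 : ∀ j ∈ (Finset.univ : Finset (Fin b)), re (⌊τ j⌋ • v j) =
        τ j • re (v j) - Int.fract (τ j) • re (v j) := by
      intro j _
      rw [re_zsmul, ← sub_smul]
      congr 1
      rw [Int.fract]
      ring
    rw [Finset.sum_congr rfl h3, Finset.sum_sub_distrib]
    abel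
  rw [e]
  refine (map_add_le_add N _ _).trans (add_le_add h2 ?_)
  have h4 : N (∑ j, Int.fract (τ j) • re (v j)) ≤ ∑ j, N (Int.fract (τ j) • re (v j)) :=
    Finset.le_sum_of_subadditive N (map_zero N).le (map_add_le_add N) _ _
  refine h4.trans ?_
  have h5 : ∀ j ∈ (Finset.univ : Finset (Fin b)), N (Int.fract (τ j) • re (v j)) ≤ M := by
    intro j _
    rw [map_smul_eq_mul, Real.norm_of_nonneg (Int.fract_nonneg _)]
    have h6 := (Int.fract_lt_one (τ j)).le
    have h7 := apply_nonneg N (re (v j))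
    have h8 := hN j
    nlinarith [mul_le_mul_of_nonneg_right h6 h7]
  refine (Finset.sum_le_sum h5).trans ?_
  rw [Finset.sum_const, Finset.card_univ, Fintype.card_fin, nsmul_eq_mul]

theorem sum_mem_H (hv : ∀ j, ψ (v j) ∈ H) (z : Fin b → ℤ) : ψ (∑ j, z j • v j) ∈ H := by
  rw [map_sum]
  refine H.sum_mem fun j _ => ?_
  rw [map_zsmul]
  exact H.zsmul_mem (hv j) _

theorem PP_add {R R' : ℝ} {x y : Γ} (hx : x ∈ PP N ψ H V v R) (hy : y ∈ PP N ψ H V v R') :
    x + y ∈ PP N ψ H V v (R + R') := by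
  obtain ⟨c, hc, h⟩ := hx
  obtain ⟨c', hc', h'⟩ := hy
  refine ⟨c + c', hc.add hc', ?_⟩
  have e : x + y - ψ (c + c') = (x - ψ c) + (y - ψ c') := by rw [map_add]; abel
  rw [e]
  exact H.add_mem h h'

theorem PP_neg {R : ℝ} {x : Γ} (hx : x ∈ PP N ψ H V v R) : -x ∈ PP N ψ H V v R := by
  obtain ⟨c, hc, h⟩ := hx
  refine ⟨-c, hc.neg, ?_⟩
  have e : -x - ψ (-c) = -(x - ψ c) := by rw [map_neg]; abel
  rw [e]
  exact H.neg_mem h

theorem PP_zero {R : ℝ} (hR : 0 ≤ R) : (0 : Γ) ∈ PP N ψ H V v R :=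
  ⟨0, Good.zero hR, by rw [map_zero, sub_zero]; exact H.zero_mem⟩

/-- the progression is contained in a progression without real coordinates -/
theorem PP_sub (hv : ∀ j, ψ (v j) ∈ H) {M : ℝ} (hN : ∀ j, N (re (v j)) ≤ M) {R : ℝ} :
    PP N ψ H V v R ⊆ (fun p : (Fin m → ℤ) × Γ => ψ p.1 + p.2) ''
      (H112.LL N (R + b * M) ×ˢ (H : Set Γ)) := by
  rintro x ⟨c, hc, h⟩
  obtain ⟨z, hz⟩ := hc.reduce hN
  refine ⟨(c - ∑ j, z j • v j, x - ψ (c - ∑ j, z j • v j)), ⟨hz, ?_⟩, by simp⟩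
  show x - ψ (c - ∑ j, z j • v j) ∈ H
  have e : x - ψ (c - ∑ j, z j • v j) = (x - ψ c) + ψ (∑ j, z j • v j) := by
    rw [map_sub]; abel
  rw [e]
  exact H.add_mem h (sum_mem_H hv z)

theorem PP_finite [Finite H] (hv : ∀ j, ψ (v j) ∈ H) {M : ℝ} (hN : ∀ j, N (re (v j)) ≤ M)
    (hfin : ∀ r, (H112.LL N r).Finite) (R : ℝ) : (PP N ψ H V v R).Finite := by
  refine Set.Finite.subset (Set.Finite.image _ ((hfin _).prod (Set.toFinite (H : Set Γ)))) (PP_sub hv hN)

theorem PP_card [Finite H] (hv : ∀ j, ψ (v j) ∈ H) {M : ℝ} (hN : ∀ j, N (re (v j)) ≤ M)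
    (hfin : ∀ r, (H112.LL N r).Finite) (R : ℝ) :
    (PP N ψ H V v R).ncard ≤ (H112.LL N (R + b * M)).ncard * Nat.card H := by
  have h1 := Set.ncard_le_ncard (PP_sub (V := V) (R := R) hv hN)
    (Set.Finite.image _ ((hfin _).prod (Set.toFinite (H : Set Γ))))
  refine h1.trans ((Set.ncard_image_le ((hfin _).prod (Set.toFinite (H : Set Γ)))).trans ?_)
  rw [Set.ncard_prod]
  exact le_rfl

/-- **Doubling of the progressions.** -/
theorem PP_double [Finite H] (hv : ∀ j, ψ (v j) ∈ H) {M : ℝ} (hN : ∀ j, N (re (v j)) ≤ M)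
    (hfin : ∀ r, (H112.LL N r).Finite) (R : ℝ) :
    (PP N ψ H V v (2 * R)).ncard ≤ 4 ^ m * (PP N ψ H V v R).ncard := by
  classical
  have h1 := PP_finite (V := V) hv hN hfin (2 * R)
  have h2 := PP_finite (V := V) hv hN hfin R
  rw [Set.ncard_eq_toFinset_card _ h1, Set.ncard_eq_toFinset_card _ h2]
  -- coefficients depending on the coset only
  have hF : ∀ y : Γ ⧸ H, ∃ c : Fin m → ℤ, ∀ x ∈ PP N ψ H V v (2 * R), (x : Γ ⧸ H) = y →
      Good N V v (2 * R) c ∧ x - ψ c ∈ H := by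
    intro y
    by_cases hy : ∃ x ∈ PP N ψ H V v (2 * R), (x : Γ ⧸ H) = y
    · obtain ⟨x, ⟨c, hc, hxc⟩, hxy⟩ := hy
      refine ⟨c, fun x' _ hx'y => ⟨hc, ?_⟩⟩
      have h3 : (x : Γ ⧸ H) = (x' : Γ ⧸ H) := by rw [hxy, hx'y]
      have h4 := QuotientAddGroup.eq.1 h3
      have e : x' - ψ c = (-x + x') + (x - ψ c) := by abel
      rw [e]
      exact H.add_mem h4 hxc
    · exact ⟨0, fun x hx hxy => absurd ⟨x, hx, hxy⟩ hy⟩
  choose F0 hF0 using hF
  let F : Γ → (Fin m → ℤ) := fun x => F0 (x : Γ ⧸ H)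
  have hF : ∀ x ∈ PP N ψ H V v (2 * R), Good N V v (2 * R) (F x) ∧ x - ψ (F x) ∈ H :=
    fun x hx => hF0 _ x hx rfl
  have hFF : ∀ x y, x - y ∈ H → F x = F y := by
    intro x y hxy
    have : (x : Γ ⧸ H) = (y : Γ ⧸ H) := by
      rw [QuotientAddGroup.eq]
      have e : -x + y = -(x - y) := by abel
      rw [e]
      exact H.neg_mem hxy
    show F0 _ = F0 _
    rw [this]
  let f : Γ → (Fin m → ZMod 4) := fun x i => (F x i : ZMod 4)
  have h3 : h1.toFinset.card ≤ h2.toFinset.card * (h1.toFinset.image f).card := by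
    refine Finset.card_le_mul_card_image _ _ ?_
    intro a ha
    obtain ⟨x0, hx0, hfx0⟩ := Finset.mem_image.1 ha
    have hx0' : x0 ∈ PP N ψ H V v (2 * R) := (Set.Finite.mem_toFinset _).1 hx0
    have hdiv : ∀ x, f x = a → ∃ c : Fin m → ℤ, F x - F x0 = (4 : ℤ) • c := by
      intro x hx
      have h4 : ∀ i, ∃ k : ℤ, F x i - F x0 i = 4 * k := by
        intro i
        have h5 : (F x i : ZMod 4) = (F x0 i : ZMod 4) := by
          have : f x = f x0 := by rw [hx, hfx0]
          exact congrFun this i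
        have h6 := (ZMod.intCast_eq_intCast_iff_dvd_sub (F x0 i) (F x i) 4).1 h5.symm
        exact h6
      choose k hk using h4
      exact ⟨k, by funext i; simpa using hk i⟩
    have hdiv' : ∀ x, ∃ c : Fin m → ℤ, f x = a → F x - F x0 = (4 : ℤ) • c := by
      intro x
      by_cases hx : f x = a
      · obtain ⟨c, hc⟩ := hdiv x hx
        exact ⟨c, fun _ => hc⟩
      · exact ⟨0, fun h => absurd h hx⟩
    choose c hc using hdiv'
    refine Finset.card_le_card_of_injOn (fun x => ψ (c x) + (x - ψ (F x))) ?_ ?_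
    · intro x hx
      have hx' := Finset.mem_filter.1 (Finset.mem_coe.1 hx)
      have hx1 : x ∈ PP N ψ H V v (2 * R) := (Set.Finite.mem_toFinset _).1 hx'.1
      rw [Finset.mem_coe, Set.Finite.mem_toFinset]
      refine ⟨c x, ?_, ?_⟩
      · apply Good.quarter
        rw [← hc x hx'.2]
        have := (hF x hx1).1.sub (hF x0 hx0').1
        refine this.mono ?_
        linarith
      · show ψ (c x) + (x - ψ (F x)) - ψ (c x) ∈ H
        rw [add_sub_cancel_left]
        exact (hF x hx1).2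
    · intro x hx y hy hxy
      have hx' := Finset.mem_filter.1 (Finset.mem_coe.1 hx)
      have hy' := Finset.mem_filter.1 (Finset.mem_coe.1 hy)
      have hx1 : x ∈ PP N ψ H V v (2 * R) := (Set.Finite.mem_toFinset _).1 hx'.1
      have hy1 : y ∈ PP N ψ H V v (2 * R) := (Set.Finite.mem_toFinset _).1 hy'.1
      have hxy' : ψ (c x) + (x - ψ (F x)) = ψ (c y) + (y - ψ (F y)) := hxy
      have hh : ψ (c x) - ψ (c y) ∈ H := by
        have e : ψ (c x) - ψ (c y) = (y - ψ (F y)) - (x - ψ (F x)) := by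
          rw [sub_eq_sub_iff_add_eq_add, hxy', add_comm]
        rw [e]
        exact H.sub_mem (hF y hy1).2 (hF x hx1).2
      have h5 : F x - F y = (4 : ℤ) • (c x - c y) := by
        rw [smul_sub, ← hc x hx'.2, ← hc y hy'.2]
        abel
      have h6 : x - y ∈ H := by
        have e : x - y = (x - ψ (F x)) - (y - ψ (F y)) + ψ (F x - F y) := by
          rw [map_sub]; abel
        rw [e, h5, map_zsmul, map_sub]
        exact H.add_mem (H.sub_mem (hF x hx1).2 (hF y hy1).2) (H.zsmul_mem hh 4)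
      have h7 := hFF x y h6
      have h8 : c x = c y := by
        have h9 : (4 : ℤ) • (c x - c y) = 0 := by rw [← h5, h7, sub_self]
        funext i
        have := congrFun h9 i
        simp only [Pi.smul_apply, Pi.sub_apply, smul_eq_mul, Pi.zero_apply] at this
        omega
      rw [h7, h8] at hxy'
      have := add_left_cancel hxy'
      exact sub_left_injective this
  have h4 : (h1.toFinset.image f).card ≤ 4 ^ m := by
    refine (Finset.card_le_univ _).trans ?_
    rw [Fintype.card_fun, Fintype.card_fin]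
    exact le_of_eq (by rw [ZMod.card])
  calc h1.toFinset.card ≤ h2.toFinset.card * (h1.toFinset.image f).card := h3
    _ ≤ h2.toFinset.card * 4 ^ m := Nat.mul_le_mul_left _ h4
    _ = 4 ^ m * h2.toFinset.card := mul_comm _ _

end

end Q148.SD
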