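import Pool.Agent.Q148.SD5
import Pool.Agent.Y806.DF.C

/-!
# A basis of the lattice modulo a subspace and the final covering
-/

set_option autoImplicit false

namespace Q148.SD

open Finset Pool.Agent.Y806.DF Module
open scoped Pointwise

/-- A basis of the lattice of `V` modulo that of `U`. -/
theorem lattice_basis {m : ℕ} (U V : Submodule ℚ (Fin m → ℚ)) (hUV : U ≤ V) :
    ∃ (r : ℕ) (β : Fin r → (Fin m → ℤ)), r + finrank ℚ U ≤ finrank ℚ V ∧ (∀ i, qq (β i) ∈ V) ∧
      (∀ c, qq c ∈ V → ∃ x : Fin r → ℤ, qq (c - ∑ i, x i • β i) ∈ U) ∧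
      (∀ x : Fin r → ℤ, qq (∑ i, x i • β i) ∈ U → x = 0) := by
  classical
  let φ : (Fin m → ℤ) →ₗ[ℤ] ((Fin m → ℚ) ⧸ U) := (U.mkQ.restrictScalars ℤ).comp qq.toIntLinearMap
  have hφ : ∀ c, φ c = U.mkQ (qq c) := fun c => rfl
  let LV : Submodule ℤ (Fin m → ℤ) := (V.restrictScalars ℤ).comap qq.toIntLinearMap
  have hLV : ∀ c, c ∈ LV ↔ qq c ∈ V := fun c => Iff.rfl
  let P : Submodule ℤ ((Fin m → ℚ) ⧸ U) := LV.map φ
  have hPfin : Module.Finite ℤ P := by
    apply Module.Finite.map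
  have : Module.IsTorsionFree ℤ ((Fin m → ℚ) ⧸ U) := Module.IsTorsionFree.trans_faithfulSMul ℤ ℚ _
  have : Module.Free ℤ P := inferInstance
  obtain ⟨r, B⟩ : ∃ r : ℕ, Nonempty (Basis (Fin r) ℤ P) := ⟨_, ⟨Module.finBasis ℤ P⟩⟩
  obtain ⟨B⟩ := B
  have hB : ∀ i, ∃ c ∈ LV, φ c = (B i : (Fin m → ℚ) ⧸ U) := fun i => (B i).2
  choose β hβ hβB using hB
  have hli : LinearIndependent ℤ (fun i => φ (β i)) := by
    have h1 : (fun i => φ (β i)) = (P.subtype) ∘ B := funext fun i => hβB i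
    rw [h1]
    exact B.linearIndependent.map' P.subtype P.ker_subtype
  have hliQ : LinearIndependent ℚ (fun i => φ (β i)) :=
    (LinearIndependent.iff_fractionRing ℤ ℚ).1 hli
  refine ⟨r, β, ?_, fun i => (hLV _).1 (hβ i), ?_, ?_⟩
  · let f : V →ₗ[ℚ] ((Fin m → ℚ) ⧸ U) := U.mkQ.comp V.subtype
    have h1 := LinearMap.finrank_range_add_finrank_ker f
    have h2 : finrank ℚ (LinearMap.ker f) = finrank ℚ U := by
      have h3 : LinearMap.ker f = U.comap V.subtype := by
        show LinearMap.ker (U.mkQ.comp V.subtype) = _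
        rw [LinearMap.ker_comp, Submodule.ker_mkQ]
      rw [h3]
      exact (Submodule.comapSubtypeEquivOfLe hUV).finrank_eq
    have h4 : r ≤ finrank ℚ (LinearMap.range f) := by
      have h5 := finrank_span_eq_card hliQ
      rw [Fintype.card_fin] at h5
      rw [← h5]
      apply Submodule.finrank_mono
      rw [Submodule.span_le]
      rintro _ ⟨i, rfl⟩
      exact ⟨⟨qq (β i), (hLV _).1 (hβ i)⟩, rfl⟩
    rw [h2] at h1
    omega
  · intro c hc
    have hcP : φ c ∈ P := ⟨c, (hLV c).2 hc, rfl⟩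
    obtain ⟨x, hx⟩ : ∃ x : Fin r → ℤ, ∑ i, x i • φ (β i) = φ c := by
      refine ⟨fun i => B.repr ⟨φ c, hcP⟩ i, ?_⟩
      have h1 := B.sum_repr ⟨φ c, hcP⟩
      have h2 := congrArg (fun z : P => (z : (Fin m → ℚ) ⧸ U)) h1
      refine Eq.trans ?_ h2
      show _ = P.subtype (∑ i, B.repr ⟨φ c, hcP⟩ i • B i)
      rw [map_sum]
      refine Finset.sum_congr rfl fun i _ => ?_
      rw [hβB i]
      rfl
    refine ⟨x, ?_⟩
    have h3 : φ (c - ∑ i, x i • β i) = 0 := by
      rw [map_sub, map_sum, ← hx]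
      simp only [map_zsmul]
      rw [sub_self]
    rw [hφ, Submodule.mkQ_apply, Submodule.Quotient.mk_eq_zero] at h3
    exact h3
  · intro x hx
    have h3 : φ (∑ i, x i • β i) = 0 := by
      rw [hφ, Submodule.mkQ_apply, Submodule.Quotient.mk_eq_zero]
      exact hx
    rw [map_sum] at h3
    simp only [map_zsmul] at h3
    funext i
    exact Fintype.linearIndependent_iff.1 hli x h3 i

end Q148.SD
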