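import Pool.Agent.Q148.SD8

/-!
# The body of the reduced progression
-/

set_option autoImplicit false

namespace Q148.SD

open Finset Pool.Agent.Y806.DF Module
open scoped Pointwise

section

variable {Γ : Type*} [AddCommGroup Γ] {m b : ℕ} {N : Seminorm ℝ (Fin m → ℝ)}
  {ψ : (Fin m → ℤ) →+ Γ} {H : AddSubgroup Γ} {U V : Submodule ℚ (Fin m → ℚ)}
  {v : Fin b → (Fin m → ℤ)}

theorem real_coeff (hU : Submodule.span ℚ (Set.range fun j => qq (v j)) = U) {c : Fin m → ℤ}
    (hc : qq c ∈ U) : ∃ ρ : Fin b → ℝ, re c = ∑ j, ρ j • re (v j) := by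
  rw [← hU] at hc
  obtain ⟨x, hx⟩ := (Submodule.mem_span_range_iff_exists_fun ℚ).1 hc
  refine ⟨fun j => (x j : ℝ), ?_⟩
  funext i
  have h1 := congrFun hx i
  rw [Finset.sum_apply] at h1 ⊢
  simp only [Pi.smul_apply, smul_eq_mul, qq_apply, re] at h1 ⊢
  have h2 : ((∑ j, x j * (v j i : ℚ) : ℚ) : ℝ) = ((c i : ℚ) : ℝ) := by rw [h1]
  push_cast at h2
  exact h2.symm

theorem Good.add_U (hU : Submodule.span ℚ (Set.range fun j => qq (v j)) = U) (hUV : U ≤ V) {R : ℝ}
    {c c0 : Fin m → ℤ} (h : Good N V v R c) (h0 : qq c0 ∈ U) : Good N V v R (c + c0) := by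
  have h1 : Good N V v 0 c0 := by
    obtain ⟨ρ, hρ⟩ := real_coeff hU h0
    refine ⟨hUV h0, ρ, ?_⟩
    rw [hρ, sub_self, map_zero]
  have := h.add h1
  rwa [add_zero] at this

/-- the finite subgroup of the reduced progression -/
def HU (ψ : (Fin m → ℤ) →+ Γ) (H : AddSubgroup Γ) (U : Submodule ℚ (Fin m → ℚ)) : AddSubgroup Γ where
  carrier := {y | ∃ c, qq c ∈ U ∧ y - ψ c ∈ H}
  zero_mem' := ⟨0, by rw [map_zero]; exact U.zero_mem, by rw [map_zero, sub_zero]; exact H.zero_mem⟩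
  add_mem' := by
    rintro x y ⟨c, hc, h⟩ ⟨c', hc', h'⟩
    refine ⟨c + c', by rw [map_add]; exact U.add_mem hc hc', ?_⟩
    have e : x + y - ψ (c + c') = (x - ψ c) + (y - ψ c') := by rw [map_add]; abel
    rw [e]
    exact H.add_mem h h'
  neg_mem' := by
    rintro x ⟨c, hc, h⟩
    refine ⟨-c, by rw [map_neg]; exact U.neg_mem hc, ?_⟩
    have e : -x - ψ (-c) = -(x - ψ c) := by rw [map_neg]; abel
    rw [e]
    exact H.neg_mem h

theorem mem_HU {y : Γ} : y ∈ HU ψ H U ↔ ∃ c, qq c ∈ U ∧ y - ψ c ∈ H := Iff.rfl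

/-- integer combinations -/
def comb {r : ℕ} (β : Fin r → (Fin m → ℤ)) : (Fin r → ℤ) →+ (Fin m → ℤ) where
  toFun x := ∑ i, x i • β i
  map_zero' := by simp
  map_add' x y := by simp only [Pi.add_apply, add_smul, Finset.sum_add_distrib]

theorem comb_apply {r : ℕ} (β : Fin r → (Fin m → ℤ)) (x : Fin r → ℤ) :
    comb β x = ∑ i, x i • β i := rfl

theorem qq_comb {r : ℕ} {β : Fin r → (Fin m → ℤ)} (hβ : ∀ i, qq (β i) ∈ V) (x : Fin r → ℤ) :
    qq (comb β x) ∈ V := by
  rw [comb_apply, map_sum]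
  refine V.sum_mem fun j _ => ?_
  rw [map_zsmul, ← Int.cast_smul_eq_zsmul ℚ]
  exact V.smul_mem _ (hβ j)

theorem re_comb {r : ℕ} (β : Fin r → (Fin m → ℤ)) (x : Fin r → ℤ) :
    re (comb β x) = ∑ i, (re x i) • re (β i) := by
  rw [comb_apply, re_sum]
  refine Finset.sum_congr rfl fun i _ => ?_
  rw [re_zsmul]
  rfl

/-- **The body of the reduced progression.** -/
theorem body_exists [Finite H] (hv : ∀ j, ψ (v j) ∈ H) {M : ℝ} (hN : ∀ j, N (re (v j)) ≤ M)
    (hfin : ∀ r, (H112.LL N r).Finite) (hU : Submodule.span ℚ (Set.range fun j => qq (v j)) = U)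
    (hUV : U ≤ V) {r : ℕ} {β : Fin r → (Fin m → ℤ)} (hβ : ∀ i, qq (β i) ∈ V)
    (hβU : ∀ x : Fin r → ℤ, qq (comb β x) ∈ U → x = 0) {R : ℝ} (hR : 0 ≤ R) :
    Finite (HU ψ H U) ∧ ∃ B : Set (Fin r → ℝ), Sym B ∧ (∀ x, x ∈ lat B ↔ Good N V v R (comb β x)) ∧
      (lat B).ncard * Nat.card (HU ψ H U) ≤ (H112.LL N (R + b * M)).ncard * Nat.card H := by
  classical
  let D : Set (Fin r → ℤ) := {x | Good N V v R (comb β x)}
  have hvU : ∀ j, qq (v j) ∈ U := fun j => by
    rw [← hU]; exact Submodule.subset_span ⟨j, rfl⟩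
  have hUsum : ∀ z : Fin b → ℤ, qq (∑ j, z j • v j) ∈ U := by
    intro z
    rw [map_sum]
    refine U.sum_mem fun j _ => ?_
    rw [map_zsmul, ← Int.cast_smul_eq_zsmul ℚ]
    exact U.smul_mem _ (hvU j)
  -- the reduced representatives
  have hrep : ∀ p : (Fin r → ℤ) × Γ, ∃ c' : Fin m → ℤ, p.1 ∈ D → p.2 ∈ HU ψ H U →
      N (re c') ≤ R + b * M ∧ qq (comb β p.1 - c') ∈ U ∧ p.2 - (ψ c' - ψ (comb β p.1)) ∈ H := by
    rintro ⟨x, y⟩
    by_cases hx : x ∈ D
    · by_cases hy : y ∈ HU ψ H U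
      · obtain ⟨cy, hcy, hycy⟩ := mem_HU.1 hy
        have hx' : Good N V v R (comb β x) := hx
        obtain ⟨z, hz⟩ := (hx'.add_U hU hUV hcy).reduce hN
        refine ⟨comb β x + cy - ∑ j, z j • v j, fun _ _ => ⟨hz, ?_, ?_⟩⟩
        · have e : comb β x - (comb β x + cy - ∑ j, z j • v j) = -cy + ∑ j, z j • v j := by abel
          show qq (comb β x - (comb β x + cy - ∑ j, z j • v j)) ∈ U
          rw [e, map_add, map_neg]
          exact U.add_mem (U.neg_mem hcy) (hUsum z)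
        · show y - (ψ (comb β x + cy - ∑ j, z j • v j) - ψ (comb β x)) ∈ H
          have e : y - (ψ (comb β x + cy - ∑ j, z j • v j) - ψ (comb β x)) =
              (y - ψ cy) + ψ (∑ j, z j • v j) := by
            rw [map_sub, map_add]; abel
          rw [e]
          exact H.add_mem hycy (sum_mem_H hv z)
      · exact ⟨0, fun _ h => absurd h hy⟩
    · exact ⟨0, fun h => absurd h hx⟩
  choose F hF using hrep
  let Φ : (Fin r → ℤ) × Γ → (Fin m → ℤ) × Γ := fun p => (F p, p.2 - (ψ (F p) - ψ (comb β p.1)))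
  have hmaps : Set.MapsTo Φ (D ×ˢ (HU ψ H U : Set Γ)) (H112.LL N (R + b * M) ×ˢ (H : Set Γ)) := by
    intro p hp
    exact ⟨(hF p hp.1 hp.2).1, (hF p hp.1 hp.2).2.2⟩
  have hinj : Set.InjOn Φ (D ×ˢ (HU ψ H U : Set Γ)) := by
    intro p hp p' hp' hpp
    have h1 : F p = F p' := congrArg Prod.fst hpp
    have h2 : p.2 - (ψ (F p) - ψ (comb β p.1)) = p'.2 - (ψ (F p') - ψ (comb β p'.1)) :=
      congrArg Prod.snd hpp
    have h3 := (hF p hp.1 hp.2).2.1
    have h4 := (hF p' hp'.1 hp'.2).2.1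
    have h5 : p.1 = p'.1 := by
      have h6 : qq (comb β (p.1 - p'.1)) ∈ U := by
        have e : comb β (p.1 - p'.1) = (comb β p.1 - F p) - (comb β p'.1 - F p') := by
          rw [map_sub, h1]; abel
        rw [e, map_sub qq]
        exact U.sub_mem h3 h4
      exact sub_eq_zero.1 (hβU _ h6)
    rw [h1, h5] at h2
    exact Prod.ext h5 (sub_left_injective h2)
  have hfin1 : (H112.LL N (R + b * M) ×ˢ (H : Set Γ)).Finite := (hfin _).prod (Set.toFinite _)
  have hfin2 : (D ×ˢ (HU ψ H U : Set Γ)).Finite := Set.Finite.of_injOn hmaps hinj hfin1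
  have h0D : (0 : Fin r → ℤ) ∈ D := by
    show Good N V v R (comb β 0)
    rw [map_zero]
    exact Good.zero hR
  have hHUfin : Finite (HU ψ H U) := by
    have h1 : (HU ψ H U : Set Γ).Finite := by
      refine (hfin2.image Prod.snd).subset ?_
      intro y hy
      exact ⟨(0, y), ⟨h0D, hy⟩, rfl⟩
    exact h1.to_subtype
  have hDfin : D.Finite := by
    refine (hfin2.image Prod.fst).subset ?_
    intro x hx
    exact ⟨(x, 0), ⟨hx, (HU ψ H U).zero_mem⟩, rfl⟩
  have hcard : D.ncard * Nat.card (HU ψ H U) ≤ (H112.LL N (R + b * M)).ncard * Nat.card H := by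
    have h1 := Set.ncard_le_ncard_of_injOn Φ hmaps hinj hfin1
    rw [Set.ncard_prod, Set.ncard_prod] at h1
    exact h1
  -- the convex hull
  have hneg : ∀ x ∈ D, -x ∈ D := by
    intro x hx
    have hx' : Good N V v R (comb β x) := hx
    show Good N V v R (comb β (-x))
    rw [map_neg]
    exact hx'.neg
  have hsymset : -(re '' D) = re '' D := by
    ext x
    rw [Set.mem_neg]
    constructor
    · rintro ⟨d, hd, hdx⟩
      exact ⟨-d, hneg d hd, by rw [re_neg, hdx, neg_neg]⟩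
    · rintro ⟨d, hd, rfl⟩
      exact ⟨-d, hneg d hd, re_neg d⟩
  refine ⟨hHUfin, convexHull ℝ (re '' D), ⟨convex_convexHull ℝ _, (hDfin.image re).isCompact_convexHull ℝ,
    ?_, ?_⟩, ?_, ?_⟩
  · intro x hx
    have h1 : -(convexHull ℝ (re '' D)) = convexHull ℝ (re '' D) := by rw [← convexHull_neg, hsymset]
    rw [← h1, Set.mem_neg, neg_neg]
    exact hx
  · exact ⟨re 0, subset_convexHull ℝ _ ⟨0, h0D, rfl⟩⟩
  · intro x
    constructor
    · intro hx
      refine ⟨qq_comb hβ x, ?_⟩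
      -- the convex set of real vectors
      let CC : Set (Fin r → ℝ) := {y | ∃ τ : Fin b → ℝ, N (∑ i, y i • re (β i) - ∑ j, τ j • re (v j)) ≤ R}
      have hCC : Convex ℝ CC := by
        rintro y ⟨τ, hτ⟩ y' ⟨τ', hτ'⟩ s t hs ht hst
        refine ⟨fun j => s * τ j + t * τ' j, ?_⟩
        have e : ∑ i, (s • y + t • y') i • re (β i) - ∑ j, (s * τ j + t * τ' j) • re (v j) =
            s • (∑ i, y i • re (β i) - ∑ j, τ j • re (v j)) +
            t • (∑ i, y' i • re (β i) - ∑ j, τ' j • re (v j)) := by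
          simp only [Pi.add_apply, Pi.smul_apply, smul_eq_mul, add_smul, Finset.sum_add_distrib,
            smul_sub, Finset.smul_sum, smul_smul]
          abel
        rw [e]
        refine (map_add_le_add N _ _).trans ?_
        rw [map_smul_eq_mul, map_smul_eq_mul, Real.norm_of_nonneg hs, Real.norm_of_nonneg ht]
        have h1 := mul_le_mul_of_nonneg_left hτ hs
        have h2 := mul_le_mul_of_nonneg_left hτ' ht
        have h3 : s * R + t * R = R := by rw [← add_mul, hst, one_mul]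
        linarith
      have hsub : convexHull ℝ (re '' D) ⊆ CC := by
        refine convexHull_min ?_ hCC
        rintro _ ⟨d, hd, rfl⟩
        obtain ⟨-, τ, hτ⟩ := (show Good N V v R (comb β d) from hd)
        refine ⟨τ, ?_⟩
        rw [re_comb] at hτ
        exact hτ
      obtain ⟨τ, hτ⟩ := hsub hx
      refine ⟨τ, ?_⟩
      rw [re_comb]
      exact hτ
    · intro hx
      exact subset_convexHull ℝ _ ⟨x, hx, rfl⟩
  · refine le_trans (Nat.mul_le_mul_right _ ?_) hcard
    refine Set.ncard_le_ncard ?_ hDfin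
    intro x hx
    -- repeated argument: a lattice point of the hull is good
    let CC : Set (Fin r → ℝ) := {y | ∃ τ : Fin b → ℝ, N (∑ i, y i • re (β i) - ∑ j, τ j • re (v j)) ≤ R}
    have hCC : Convex ℝ CC := by
      rintro y ⟨τ, hτ⟩ y' ⟨τ', hτ'⟩ s t hs ht hst
      refine ⟨fun j => s * τ j + t * τ' j, ?_⟩
      have e : ∑ i, (s • y + t • y') i • re (β i) - ∑ j, (s * τ j + t * τ' j) • re (v j) =
          s • (∑ i, y i • re (β i) - ∑ j, τ j • re (v j)) +
          t • (∑ i, y' i • re (β i) - ∑ j, τ' j • re (v j)) := by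
        simp only [Pi.add_apply, Pi.smul_apply, smul_eq_mul, add_smul, Finset.sum_add_distrib,
          smul_sub, Finset.smul_sum, smul_smul]
        abel
      rw [e]
      refine (map_add_le_add N _ _).trans ?_
      rw [map_smul_eq_mul, map_smul_eq_mul, Real.norm_of_nonneg hs, Real.norm_of_nonneg ht]
      have h1 := mul_le_mul_of_nonneg_left hτ hs
      have h2 := mul_le_mul_of_nonneg_left hτ' ht
      have h3 : s * R + t * R = R := by rw [← add_mul, hst, one_mul]
      linarith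
    have hsub : convexHull ℝ (re '' D) ⊆ CC := by
      refine convexHull_min ?_ hCC
      rintro _ ⟨d, hd, rfl⟩
      obtain ⟨-, τ, hτ⟩ := (show Good N V v R (comb β d) from hd)
      refine ⟨τ, ?_⟩
      rw [re_comb] at hτ
      exact hτ
    obtain ⟨τ, hτ⟩ := hsub hx
    refine ⟨qq_comb hβ x, τ, ?_⟩
    rw [re_comb]
    exact hτ

end

end Q148.SD
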