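import Pool.Agent.Q148.ToricTab

set_option linter.unusedSimpArgs false
set_option linter.unusedSectionVars false

open MvPolynomial

namespace Q148.Toric

/-- the monomial of a variable -/
noncomputable def sg (M : Pt 5) : Pt 5 →₀ ℕ := Finsupp.single M 1

theorem sg_deg (M : Pt 5) : (sg M).degree = 1 := by unfold sg; rw [Finsupp.degree_single]

section
variable {κ : Pt 5 → ℕ} (hinj : Function.Injective κ) {r : LinearOrder (Pt 5)}
  (hr : ∀ M N, r.lt M N ↔ κ M < κ N)
include hinj hr

theorem sg_smaller {V Y : Pt 5} (h : κ V < κ Y) : Smaller r (sg V) (sg Y) := by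
  classical
  apply smaller_of_min (by rw [sg_deg, sg_deg]) V
  · simp [sg]
  · intro N hN
    have : N = Y := by
      by_contra hne
      apply hN
      simp [sg, Finsupp.single_apply, Ne.symm hne]
    rw [this, hr]; exact h
  · intro N hN
    rw [hr] at hN
    have : N ≠ V := by rintro rfl; omega
    simp [sg, Finsupp.single_apply, Ne.symm this]

theorem pair_le {V2 V3 Y Z : Pt 5} (hV : κ V2 < κ V3)
    (h : good2 (κ V2) (κ V3) (κ Y) (κ Z) = true) :
    sg Y + sg Z = sg V2 + sg V3 ∨ Smaller r (sg V2 + sg V3) (sg Y + sg Z) := by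
  classical
  unfold good2 at h
  simp only [Bool.or_eq_true, Bool.and_eq_true, Nat.blt_eq, beq_iff_eq] at h
  rcases h with (⟨h1, h2⟩ | ⟨h1, h2⟩) | ⟨h1, h2⟩
  · right
    apply smaller_of_min (by simp only [map_add, sg_deg]) V2
    · simp [sg]
    · intro N hN
      rw [hr]
      have : N = Y ∨ N = Z := by
        by_contra hne
        push Not at hne
        apply hN
        simp [sg, Finsupp.single_apply, Ne.symm hne.1, Ne.symm hne.2]
      rcases this with rfl | rfl <;> assumption
    · intro N hN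
      rw [hr] at hN
      have n1 : N ≠ V2 := by rintro rfl; omega
      have n2 : N ≠ V3 := by rintro rfl; omega
      simp [sg, Finsupp.single_apply, Ne.symm n1, Ne.symm n2]
  · have hY := hinj h1
    subst hY
    rcases h2 with h2 | h2
    · left; rw [hinj h2]
    · right; exact smaller_cancel _ _ _ (sg_smaller hinj hr h2)
  · have hZ := hinj h1
    subst hZ
    rw [add_comm (sg Y)]
    rcases h2 with h2 | h2
    · left; rw [hinj h2]
    · right; exact smaller_cancel _ _ _ (sg_smaller hinj hr h2)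

theorem triple_le {V1 V2 V3 X Y Z : Pt 5} (hV : κ V1 < κ V2) (hV' : κ V2 < κ V3)
    (h : good3 (κ V1) (κ V2) (κ V3) (κ X) (κ Y) (κ Z) = true) :
    sg X + (sg Y + sg Z) = sg V1 + (sg V2 + sg V3) ∨
      Smaller r (sg V1 + (sg V2 + sg V3)) (sg X + (sg Y + sg Z)) := by
  classical
  unfold good3 at h
  simp only [Bool.or_eq_true, Bool.and_eq_true, Nat.blt_eq, beq_iff_eq] at h
  have main : ∀ A B : Pt 5, good2 (κ V2) (κ V3) (κ A) (κ B) = true →
      (sg V1 + (sg A + sg B) = sg V1 + (sg V2 + sg V3) ∨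
      Smaller r (sg V1 + (sg V2 + sg V3)) (sg V1 + (sg A + sg B))) := by
    intro A B hAB
    rcases pair_le hinj hr hV' hAB with h | h
    · left; rw [h]
    · right; exact smaller_cancel _ _ _ h
  rcases h with ((⟨⟨h1, h2⟩, h3⟩ | ⟨h1, h2⟩) | ⟨h1, h2⟩) | ⟨h1, h2⟩
  · right
    apply smaller_of_min (by simp only [map_add, sg_deg]) V1
    · simp [sg]
    · intro N hN
      rw [hr]
      have : N = X ∨ N = Y ∨ N = Z := by
        by_contra hne
        push Not at hne
        apply hN
        simp [sg, Finsupp.single_apply, Ne.symm hne.1, Ne.symm hne.2.1, Ne.symm hne.2.2]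
      rcases this with rfl | rfl | rfl <;> assumption
    · intro N hN
      rw [hr] at hN
      have n1 : N ≠ V1 := by rintro rfl; omega
      have n2 : N ≠ V2 := by rintro rfl; omega
      have n3 : N ≠ V3 := by rintro rfl; omega
      simp [sg, Finsupp.single_apply, Ne.symm n1, Ne.symm n2, Ne.symm n3]
  · rw [hinj h1]; exact main Y Z h2
  · rw [hinj h1]
    have : sg X + (sg V1 + sg Z) = sg V1 + (sg X + sg Z) := by abel
    rw [this]; exact main X Z h2
  · rw [hinj h1]
    have : sg X + (sg Y + sg V1) = sg V1 + (sg X + sg Y) := by abel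
    rw [this]; exact main X Y h2

end

theorem esum_eq_iff {u w : Pt 5 →₀ ℕ} (h : esum u = esum w) :
    u.degree = w.degree ∧ matrixOf u = matrixOf w := by
  refine ⟨?_, ?_⟩
  · rw [← esum_none, ← esum_none, h]
  · funext i j
    rw [← esum_some, ← esum_some, h]

theorem matrixOf_add' (u w : Pt 5 →₀ ℕ) : matrixOf (u + w) = matrixOf u + matrixOf w := by
  funext i j
  rw [matrixOf_add]; rfl

theorem matrixOf_sg (M : Pt 5) : matrixOf (sg M) = M.1 := by
  funext i j
  unfold sg
  rw [matrixOf_single]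

theorem P25_eq : P25 = 8 ^ 25 := by decide +kernel

section
variable {κ : Pt 5 → ℕ} (hinj : Function.Injective κ) {r : LinearOrder (Pt 5)}
  (hr : ∀ M N, r.lt M N ↔ κ M < κ N) (hmod : ∀ M, κ M % 8 ^ 25 = encM M.1) {T : List ℕ}
  (hT : ∀ M : Pt 5, M.1 4 4 = 2 → κ M ∈ T)
include hinj hr hmod hT

theorem fibre2 {V2 V3 : Pt 5} (hV : κ V2 < κ V3) (h2 : V2.1 4 4 = 2) (h3 : V3.1 4 4 = 2)
    (hchk : chk2 T (κ V2) (κ V3) = true) :
    ∀ w', esum w' = esum (sg V2 + sg V3) → w' ≠ sg V2 + sg V3 → Smaller r (sg V2 + sg V3) w' := by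
  intro w' hw hne
  obtain ⟨hd, hm⟩ := esum_eq_iff hw
  rw [map_add, sg_deg, sg_deg] at hd
  obtain ⟨Y, w1, rfl, hd1⟩ := exists_single (m := 1) hd
  obtain ⟨Z, w2, rfl, hd2⟩ := exists_single (m := 0) hd1
  have hw2 := degree_zero_iff hd2
  subst hw2
  rw [add_zero] at *
  change matrixOf (sg Y + sg Z) = _ at hm
  rw [matrixOf_add', matrixOf_add', matrixOf_sg, matrixOf_sg, matrixOf_sg, matrixOf_sg] at hm
  have h44 := congrFun (congrFun hm 4) 4
  simp only [Matrix.add_apply] at h44
  have y2 := entry_le Y 4 4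
  have z2 := entry_le Z 4 4
  have hY : κ Y ∈ T := hT Y (by omega)
  have hZ : κ Z ∈ T := hT Z (by omega)
  have hc := congrArg encM hm
  rw [encM_add, encM_add, ← hmod, ← hmod, ← hmod, ← hmod, ← P25_eq] at hc
  unfold chk2 at hchk
  rw [List.all_eq_true] at hchk
  have c1 := hchk _ hY
  rw [List.all_eq_true] at c1
  have c2 := c1 _ hZ
  rw [hc] at c2
  simp only [beq_self_eq_true, Bool.not_true, Bool.false_or] at c2
  rcases pair_le hinj hr hV c2 with h | h
  · exact absurd h hne
  · exact h

theorem fibre3 {V1 V2 V3 : Pt 5} (hV : κ V1 < κ V2) (hV' : κ V2 < κ V3) (h1 : V1.1 4 4 = 2)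
    (h2 : V2.1 4 4 = 2) (h3 : V3.1 4 4 = 2)
    (hchk : chk3 T (κ V1) (κ V2) (κ V3) = true) :
    ∀ w', esum w' = esum (sg V1 + (sg V2 + sg V3)) → w' ≠ sg V1 + (sg V2 + sg V3) →
      Smaller r (sg V1 + (sg V2 + sg V3)) w' := by
  intro w' hw hne
  obtain ⟨hd, hm⟩ := esum_eq_iff hw
  rw [map_add, map_add, sg_deg, sg_deg, sg_deg] at hd
  obtain ⟨X, w0, rfl, hd0⟩ := exists_single (m := 2) hd
  obtain ⟨Y, w1, rfl, hd1⟩ := exists_single (m := 1) hd0
  obtain ⟨Z, w2, rfl, hd2⟩ := exists_single (m := 0) hd1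
  have hw2 := degree_zero_iff hd2
  subst hw2
  rw [add_zero] at *
  change matrixOf (sg X + (sg Y + sg Z)) = _ at hm
  rw [matrixOf_add', matrixOf_add', matrixOf_add', matrixOf_add', matrixOf_sg, matrixOf_sg,
    matrixOf_sg, matrixOf_sg, matrixOf_sg, matrixOf_sg] at hm
  have h44 := congrFun (congrFun hm 4) 4
  simp only [Matrix.add_apply] at h44
  have x2 := entry_le X 4 4
  have y2 := entry_le Y 4 4
  have z2 := entry_le Z 4 4
  have hX : κ X ∈ T := hT X (by omega)
  have hY : κ Y ∈ T := hT Y (by omega)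
  have hZ : κ Z ∈ T := hT Z (by omega)
  have hc := congrArg encM hm
  rw [encM_add, encM_add, encM_add, encM_add, ← hmod, ← hmod, ← hmod, ← hmod, ← hmod, ← hmod,
    ← P25_eq, ← add_assoc, ← add_assoc] at hc
  unfold chk3 at hchk
  rw [List.all_eq_true] at hchk
  have c0 := hchk _ hX
  rw [List.all_eq_true] at c0
  have c1 := c0 _ hY
  rw [List.all_eq_true] at c1
  have c2 := c1 _ hZ
  rw [hc] at c2
  simp only [beq_self_eq_true, Bool.not_true, Bool.false_or] at c2
  rcases triple_le hinj hr hV hV' c2 with h | h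
  · exact absurd h hne
  · exact h

omit hinj hr hmod hT in
theorem fibre1 (V : Pt 5) : ∀ w', esum w' = esum (sg V) → w' ≠ sg V → Smaller r (sg V) w' := by
  intro w' hw hne
  exfalso
  obtain ⟨hd, hm⟩ := esum_eq_iff hw
  rw [sg_deg] at hd
  obtain ⟨X, w0, rfl, hd0⟩ := exists_single (m := 0) hd
  have hw0 := degree_zero_iff hd0
  subst hw0
  rw [add_zero] at *
  change matrixOf (sg X) = _ at hm
  rw [matrixOf_sg, matrixOf_sg] at hm
  apply hne
  rw [Subtype.ext hm]; rfl

/-- the main statement for a cubic binomial -/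
theorem cubic (k : Type) [Field k] {U1 U2 U3 V1 V2 V3 : Pt 5}
    (u12 : κ U1 < κ U2) (u23 : κ U2 < κ U3) (v12 : κ V1 < κ V2) (v23 : κ V2 < κ V3)
    (hu1 : U1.1 4 4 = 2) (hu2 : U2.1 4 4 = 2) (hu3 : U3.1 4 4 = 2)
    (hv1 : V1.1 4 4 = 2) (hv2 : V2.1 4 4 = 2) (hv3 : V3.1 4 4 = 2)
    (c12 : chk2 T (κ U1) (κ U2) = true) (c13 : chk2 T (κ U1) (κ U3) = true)
    (c23 : chk2 T (κ U2) (κ U3) = true) (c3 : chk3 T (κ V1) (κ V2) (κ V3) = true)
    (hsum : U1.1 + (U2.1 + U3.1) = V1.1 + (V2.1 + V3.1)) (hne : V1.1 ≠ U1.1)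
    (hblock : ∀ i : Fin 5, i ≠ 4 → (U1.1 + (U2.1 + U3.1)) i 4 = 0) : HasCubicBlock k r := by
  classical
  set u := sg U1 + (sg U2 + sg U3) with hu
  set v := sg V1 + (sg V2 + sg V3) with hv
  have hdu : u.degree = 3 := by rw [hu]; simp only [map_add, sg_deg]
  have hdv : v.degree = 3 := by rw [hv]; simp only [map_add, sg_deg]
  have hmu : matrixOf u = U1.1 + (U2.1 + U3.1) := by
    rw [hu, matrixOf_add', matrixOf_add', matrixOf_sg, matrixOf_sg, matrixOf_sg]
  have hmv : matrixOf v = V1.1 + (V2.1 + V3.1) := by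
    rw [hv, matrixOf_add', matrixOf_add', matrixOf_sg, matrixOf_sg, matrixOf_sg]
  have hm : matrixOf u = matrixOf v := by rw [hmu, hmv, hsum]
  have hes : esum u = esum v := by
    ext o
    rcases o with _ | ⟨i, j⟩
    · rw [esum_none, esum_none, hdu, hdv]
    · rw [esum_some, esum_some, hm]
  have huv : u ≠ v := by
    intro he
    have hU : u U1 ≠ 0 := by rw [hu]; simp [sg]
    have hV : v V1 ≠ 0 := by rw [hv]; simp [sg]
    have hne' : V1 ≠ U1 := fun h => hne (by rw [h])
    have n1 : V1 ∈ ({U1, U2, U3} : Finset (Pt 5)) := by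
      rw [← he, hu] at hV
      by_contra hcon
      simp only [Finset.mem_insert, Finset.mem_singleton, not_or] at hcon
      apply hV
      simp [sg, Finsupp.single_apply, Ne.symm hcon.1, Ne.symm hcon.2.1, Ne.symm hcon.2.2]
    have n2 : U1 ∈ ({V1, V2, V3} : Finset (Pt 5)) := by
      rw [he, hv] at hU
      by_contra hcon
      simp only [Finset.mem_insert, Finset.mem_singleton, not_or] at hcon
      apply hU
      simp [sg, Finsupp.single_apply, Ne.symm hcon.1, Ne.symm hcon.2.1, Ne.symm hcon.2.2]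
    simp only [Finset.mem_insert, Finset.mem_singleton] at n1 n2
    have k1 : κ U1 < κ V1 := by
      rcases n1 with h | h | h
      · exact absurd h hne'
      · rw [h]; exact u12
      · rw [h]; omega
    have k2 : κ V1 < κ U1 := by
      rcases n2 with h | h | h
      · exact absurd h.symm hne'
      · rw [h]; exact v12
      · rw [h]; omega
    omega
  have hmin3 : ¬ InInitial k r v := not_initial (fibre3 hinj hr hmod hT v12 v23 hv1 hv2 hv3 c3)
  have hvu : Smaller r v u := fibre3 hinj hr hmod hT v12 v23 hv1 hv2 hv3 c3 u hes huv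
  refine ⟨u, v, ⟨?_, u, ⟨?_, ?_⟩, ?_, ?_, ?_⟩, huv, hdu, hdv, hm, ?_⟩
  · change proj k 5 _ = 0
    rw [map_sub, proj_monomial, proj_monomial, hes, sub_self]
  · rw [coeff_sub, coeff_monomial, coeff_monomial, if_pos rfl, if_neg (Ne.symm huv)]
    simp
  · intro w hw hwu
    rw [coeff_sub, coeff_monomial, coeff_monomial, if_neg (Ne.symm hwu)] at hw
    by_cases h : v = w
    · rw [← h]; exact hvu
    · rw [if_neg h] at hw; simp at hw
  · rw [coeff_sub, coeff_monomial, coeff_monomial, if_pos rfl, if_neg (Ne.symm huv)]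
    simp
  · intro w hw hle
    by_contra hne'
    have hdec : u = w + (u - w) := (add_tsub_cancel_of_le hle).symm
    have hd : 3 = w.degree + (u - w).degree := by rw [← hdu, ← map_add, ← hdec]
    have ht : (u - w).degree ≠ 0 := by
      intro h0
      have := degree_zero_iff h0
      rw [this, add_zero] at hdec
      exact hne' hdec.symm
    have hcases : w.degree = 0 ∨ w.degree = 1 ∨ w.degree = 2 := by omega
    rcases hcases with h | h | h
    · have := degree_zero_iff h
      subst this
      revert hw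
      apply not_initial
      intro w' hw' hne0
      exfalso
      obtain ⟨hd', _⟩ := esum_eq_iff hw'
      rw [map_zero] at hd'
      exact hne0 (degree_zero_iff hd')
    · obtain ⟨X, w0, rfl, hd0⟩ := exists_single (m := 0) h
      have hw0 := degree_zero_iff hd0
      subst hw0
      rw [add_zero] at hw
      exact not_initial (fibre1 (r := r) X) hw
    · have h1 : (u - w).degree = 0 + 1 := by omega
      obtain ⟨K, w0, hK, hd0⟩ := exists_single (m := 0) h1
      have hw0 := degree_zero_iff hd0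
      subst hw0
      rw [add_zero] at hK
      change u - w = sg K at hK
      rw [hK] at hdec
      have hKu : u K ≠ 0 := by rw [hdec]; simp [sg]
      have hKm : K = U1 ∨ K = U2 ∨ K = U3 := by
        by_contra hcon
        push Not at hcon
        apply hKu
        rw [hu]
        simp [sg, Finsupp.single_apply, Ne.symm hcon.1, Ne.symm hcon.2.1, Ne.symm hcon.2.2]
      rcases hKm with rfl | rfl | rfl
      · have : w = sg U2 + sg U3 := by
          have h2 : w + sg K = (sg U2 + sg U3) + sg K := by rw [← hdec, hu]; abel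
          exact add_right_cancel h2
        rw [this] at hw
        exact not_initial (fibre2 hinj hr hmod hT u23 hu2 hu3 c23) hw
      · have : w = sg U1 + sg U3 := by
          have h2 : w + sg K = (sg U1 + sg U3) + sg K := by rw [← hdec, hu]; abel
          exact add_right_cancel h2
        rw [this] at hw
        exact not_initial (fibre2 hinj hr hmod hT (u12.trans u23) hu1 hu3 c13) hw
      · have : w = sg U1 + sg U2 := by
          have h2 : w + sg K = (sg U1 + sg U2) + sg K := by rw [← hdec, hu]; abel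
          exact add_right_cancel h2
        rw [this] at hw
        exact not_initial (fibre2 hinj hr hmod hT u12 hu1 hu2 c12) hw
  · intro w hwu hw
    rw [coeff_sub, coeff_monomial, coeff_monomial, if_neg (Ne.symm hwu)] at hw
    by_cases h : v = w
    · rw [← h]; exact hmin3
    · rw [if_neg h] at hw; simp at hw
  · refine ⟨Finset.univ.filter (fun i => i ≠ 4), {4}, ⟨0, by simp⟩, ⟨4, by simp⟩, ?_, ?_, ?_⟩
    · rw [Finset.disjoint_left]; intro i hi hi'; simp at hi hi'; exact hi hi'
    · ext i
      simp only [Finset.mem_union, Finset.mem_filter, Finset.mem_univ, true_and,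
        Finset.mem_singleton, iff_true]
      exact ne_or_eq i 4
    · intro i hi j hj
      rw [Finset.mem_singleton] at hj
      subst hj
      rw [hmu]
      exact hblock i (by simpa using hi)

end

end Q148.Toric
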