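import Mathlib

/-!
The toric ideal of the polytope `S_n` of symmetric matrices with line sums two, and the reduced
Groebner bases with respect to graded reverse lexicographic orders.
-/

open MvPolynomial

namespace Q148.Toric

/-- The lattice points of `S_n`: symmetric `n × n` matrices of nonnegative integers with all line
sums equal to two. -/
def Pt (n : ℕ) : Type := {M : Matrix (Fin n) (Fin n) ℕ // M.IsSymm ∧ ∀ i, ∑ j, M i j = 2}

/-- The exponent vector of the monomial `x^M z`; the variable `z` is indexed by `none`. -/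
noncomputable def expo {n : ℕ} (M : Pt n) : Option (Fin n × Fin n) →₀ ℕ :=
  Finsupp.equivFunOnFinite.symm (fun o => o.elim 1 (fun p => M.1 p.1 p.2))

/-- The homomorphism `π` with `π (t_M) = x^M z`. -/
noncomputable def proj (k : Type) [Field k] (n : ℕ) :
    MvPolynomial (Pt n) k →ₐ[k] MvPolynomial (Option (Fin n × Fin n)) k :=
  aeval (fun M => monomial (expo M) 1)

/-- The toric ideal of `S_n`: the kernel of `π`. -/
noncomputable def toricIdeal (k : Type) [Field k] (n : ℕ) : Ideal (MvPolynomial (Pt n) k) :=
  RingHom.ker (proj k n)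

/-- The number of entries equal to two. -/
def twos {n : ℕ} (M : Pt n) : ℕ :=
  (Finset.univ.filter (fun p : Fin n × Fin n => M.1 p.1 p.2 = 2)).card

/-- The graded reverse lexicographic order of monomials (`u` is smaller than `w`) for a linear
order `r` of the variables: `u` has smaller degree, or the degrees agree and `u` has the larger
exponent at the smallest variable at which the exponents differ. -/
def Smaller {n : ℕ} (r : LinearOrder (Pt n)) (u w : Pt n →₀ ℕ) : Prop :=
  u.degree < w.degree ∨
    (u.degree = w.degree ∧ ∃ M : Pt n, w M < u M ∧ ∀ N : Pt n, r.lt N M → u N = w N)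

variable {k : Type} [Field k] {n : ℕ}

/-- `u` is the leading monomial of `f`. -/
def IsLeading (r : LinearOrder (Pt n)) (f : MvPolynomial (Pt n) k) (u : Pt n →₀ ℕ) : Prop :=
  f.coeff u ≠ 0 ∧ ∀ w : Pt n →₀ ℕ, f.coeff w ≠ 0 → w ≠ u → Smaller r w u

/-- The monomial `w` is the leading monomial of an element of the toric ideal. -/
def InInitial (k : Type) [Field k] (r : LinearOrder (Pt n)) (w : Pt n →₀ ℕ) : Prop :=
  ∃ f ∈ toricIdeal k n, IsLeading r f w

/-- The reduced Groebner basis of the toric ideal: the monic elements whose leading monomial is a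
minimal leading monomial of elements of the ideal (for divisibility) and none of whose other
monomials is the leading monomial of an element of the ideal. -/
def reducedGB (k : Type) [Field k] (r : LinearOrder (Pt n)) : Set (MvPolynomial (Pt n) k) :=
  {g | g ∈ toricIdeal k n ∧ ∃ u, IsLeading r g u ∧ g.coeff u = 1 ∧
    (∀ w, InInitial k r w → w ≤ u → w = u) ∧
    (∀ w, w ≠ u → g.coeff w ≠ 0 → ¬ InInitial k r w)}

/-- The sum, with multiplicity, of the lattice points indexing the variables of a monomial. -/
def matrixOf (u : Pt n →₀ ℕ) : Matrix (Fin n) (Fin n) ℕ :=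
  fun i j => u.sum (fun M c => c * M.1 i j)

/-- Block form of a matrix. -/
def HasBlockForm (A : Matrix (Fin n) (Fin n) ℕ) : Prop :=
  ∃ V₁ V₂ : Finset (Fin n), V₁.Nonempty ∧ V₂.Nonempty ∧ Disjoint V₁ V₂ ∧
    V₁ ∪ V₂ = Finset.univ ∧ ∀ i ∈ V₁, ∀ j ∈ V₂, A i j = 0

/-- The reduced Groebner basis for `r` has an element of degree three, a binomial, whose matrix
has a block form. -/
def HasCubicBlock (k : Type) [Field k] (r : LinearOrder (Pt n)) : Prop :=
  ∃ u v : Pt n →₀ ℕ, (monomial u 1 - monomial v 1 : MvPolynomial (Pt n) k) ∈ reducedGB k r ∧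
    u ≠ v ∧ u.degree = 3 ∧ v.degree = 3 ∧ matrixOf u = matrixOf v ∧ HasBlockForm (matrixOf u)

end Q148.Toric
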