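import Pool.Agent.Q148.ToricCmp

set_option maxRecDepth 100000
set_option linter.unusedSimpArgs false

open MvPolynomial

namespace Q148.Toric

theorem keyI_inj : Function.Injective keyI := by
  intro M N h
  apply enc_inj
  rw [← keyI_mod, ← keyI_mod, h]

theorem keyL_inj : Function.Injective keyL := by
  intro M N h
  apply enc_inj
  rw [← keyL_mod, ← keyL_mod, h]

/-- first order: few entries two are small -/
@[instance_reducible] noncomputable def rI : LinearOrder (Pt 5) := LinearOrder.lift' keyI keyI_inj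

/-- second order: many entries two are small -/
@[instance_reducible] noncomputable def rL : LinearOrder (Pt 5) := LinearOrder.lift' keyL keyL_inj

theorem rI_lt (M N : Pt 5) : rI.lt M N ↔ keyI M < keyI N := Iff.rfl

theorem rL_lt (M N : Pt 5) : rL.lt M N ↔ keyL M < keyL N := Iff.rfl

theorem rI_ext (M N : Pt 5) (h : twos M < twos N) : rI.lt M N := by
  rw [rI_lt]
  have h1 := enc_lt M
  unfold keyI
  have h2 : (twos M + 1) * 8 ^ 25 ≤ twos N * 8 ^ 25 := Nat.mul_le_mul_right _ h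
  rw [add_mul, one_mul] at h2
  omega

theorem rL_ext (M N : Pt 5) (h : twos N < twos M) : rL.lt M N := by
  rw [rL_lt]
  have h1 := enc_lt M
  have h3 := twos_le M
  unfold keyL
  have h2 : (25 - twos M + 1) * 8 ^ 25 ≤ (25 - twos N) * 8 ^ 25 :=
    Nat.mul_le_mul_right _ (by omega)
  rw [add_mul, one_mul] at h2
  omega

theorem twos_eq (M : Pt 5) : twos M = ∑ i : Fin 5, ∑ j : Fin 5, i2 (M.1 i j) := by
  unfold twos i2
  rw [Finset.card_filter, ← Finset.univ_product_univ, Finset.sum_product]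

theorem shape (M : Pt 5) (h44 : M.1 4 4 = 2) :
    encM M.1 = encF (M.1 0 0) (M.1 0 1) (M.1 0 2) (M.1 0 3) (M.1 1 1) (M.1 1 2) (M.1 1 3)
      (M.1 2 2) (M.1 2 3) (M.1 3 3) ∧
    twos M = twF (M.1 0 0) (M.1 0 1) (M.1 0 2) (M.1 0 3) (M.1 1 1) (M.1 1 2) (M.1 1 3)
      (M.1 2 2) (M.1 2 3) (M.1 3 3) ∧
    M.1 0 0 + M.1 0 1 + M.1 0 2 + M.1 0 3 = 2 ∧ M.1 0 1 + M.1 1 1 + M.1 1 2 + M.1 1 3 = 2 ∧
    M.1 0 2 + M.1 1 2 + M.1 2 2 + M.1 2 3 = 2 ∧ M.1 0 3 + M.1 1 3 + M.1 2 3 + M.1 3 3 = 2 := by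
  have hs : ∀ i j, M.1 i j = M.1 j i := fun i j => (M.2.1.apply i j).symm
  have r0 := M.2.2 0
  have r1 := M.2.2 1
  have r2 := M.2.2 2
  have r3 := M.2.2 3
  have r4 := M.2.2 4
  simp only [Fin.sum_univ_five] at r0 r1 r2 r3 r4
  have s10 := hs 1 0
  have s20 := hs 2 0
  have s30 := hs 3 0
  have s40 := hs 4 0
  have s21 := hs 2 1
  have s31 := hs 3 1
  have s41 := hs 4 1
  have s32 := hs 3 2
  have s42 := hs 4 2
  have s43 := hs 4 3
  have z0 : M.1 0 4 = 0 := by omega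
  have z1 : M.1 1 4 = 0 := by omega
  have z2 : M.1 2 4 = 0 := by omega
  have z3 : M.1 3 4 = 0 := by omega
  refine ⟨?_, ?_, by omega, by omega, by omega, by omega⟩
  · simp only [encM, rowc, Fin.sum_univ_five, encF]
    rw [s10, s20, s30, s40, s21, s31, s41, s32, s42, s43, z0, z1, z2, z3, h44]
    norm_num
  · rw [twos_eq]
    simp only [Fin.sum_univ_five, twF]
    rw [s10, s20, s30, s40, s21, s31, s41, s32, s42, s43, z0, z1, z2, z3, h44]
    have e0 : i2 0 = 0 := rfl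
    have e2 : i2 2 = 1 := rfl
    rw [e0, e2]
    ring

theorem TI_mem (M : Pt 5) (h44 : M.1 4 4 = 2) : keyI M ∈ TI := by
  obtain ⟨he, ht, h0, h1, h2, h3⟩ := shape M h44
  unfold keyI
  rw [he, ht, ← List.contains_iff_mem]
  exact TI_complete ⟨M.1 0 0, by omega⟩ ⟨M.1 0 1, by omega⟩ ⟨M.1 0 2, by omega⟩ ⟨M.1 0 3, by omega⟩
    h0 ⟨M.1 1 1, by omega⟩ ⟨M.1 1 2, by omega⟩ ⟨M.1 1 3, by omega⟩ h1 ⟨M.1 2 2, by omega⟩
    ⟨M.1 2 3, by omega⟩ h2 ⟨M.1 3 3, by omega⟩ h3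

theorem TL_mem (M : Pt 5) (h44 : M.1 4 4 = 2) : keyL M ∈ TL := by
  obtain ⟨he, ht, h0, h1, h2, h3⟩ := shape M h44
  unfold keyL
  rw [he, ht, ← List.contains_iff_mem]
  exact TL_complete ⟨M.1 0 0, by omega⟩ ⟨M.1 0 1, by omega⟩ ⟨M.1 0 2, by omega⟩ ⟨M.1 0 3, by omega⟩
    h0 ⟨M.1 1 1, by omega⟩ ⟨M.1 1 2, by omega⟩ ⟨M.1 1 3, by omega⟩ h1 ⟨M.1 2 2, by omega⟩
    ⟨M.1 2 3, by omega⟩ h2 ⟨M.1 3 3, by omega⟩ h3

def UI1 : Pt 5 := ⟨![![1, 0, 0, 1, 0], ![0, 1, 1, 0, 0], ![0, 1, 0, 1, 0], ![1, 0, 1, 0, 0], ![0, 0, 0, 0, 2]], Matrix.IsSymm.ext (by decide +kernel), by decide +kernel⟩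

theorem key_UI1 : keyI UI1 = 47223667116238986019329 := by decide +kernel

def UI2 : Pt 5 := ⟨![![2, 0, 0, 0, 0], ![0, 0, 1, 1, 0], ![0, 1, 0, 1, 0], ![0, 1, 1, 0, 0], ![0, 0, 0, 0, 2]], Matrix.IsSymm.ext (by decide +kernel), by decide +kernel⟩

theorem key_UI2 : keyI UI2 = 85002599225486768865282 := by decide +kernel

def UI3 : Pt 5 := ⟨![![2, 0, 0, 0, 0], ![0, 2, 0, 0, 0], ![0, 0, 1, 1, 0], ![0, 0, 1, 1, 0], ![0, 0, 0, 0, 2]], Matrix.IsSymm.ext (by decide +kernel), by decide +kernel⟩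

theorem key_UI3 : keyI UI3 = 122781548821427574538242 := by decide +kernel

def VI1 : Pt 5 := ⟨![![1, 0, 0, 1, 0], ![0, 0, 1, 1, 0], ![0, 1, 1, 0, 0], ![1, 1, 0, 0, 0], ![0, 0, 0, 0, 2]], Matrix.IsSymm.ext (by decide +kernel), by decide +kernel⟩

theorem key_VI1 : keyI VI1 = 47223665145433129222657 := by decide +kernel

def VI2 : Pt 5 := ⟨![![2, 0, 0, 0, 0], ![0, 1, 1, 0, 0], ![0, 1, 0, 1, 0], ![0, 0, 1, 1, 0], ![0, 0, 0, 0, 2]], Matrix.IsSymm.ext (by decide +kernel), by decide +kernel⟩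

theorem key_VI2 : keyI VI2 = 85002616958410285121538 := by decide +kernel

def VI3 : Pt 5 := ⟨![![2, 0, 0, 0, 0], ![0, 2, 0, 0, 0], ![0, 0, 0, 2, 0], ![0, 0, 2, 0, 0], ![0, 0, 0, 0, 2]], Matrix.IsSymm.ext (by decide +kernel), by decide +kernel⟩

theorem key_VI3 : keyI VI3 = 198339396785224238497794 := by decide +kernel

def UL1 : Pt 5 := ⟨![![2, 0, 0, 0, 0], ![0, 0, 0, 2, 0], ![0, 0, 2, 0, 0], ![0, 2, 0, 0, 0], ![0, 0, 0, 0, 2]], Matrix.IsSymm.ext (by decide +kernel), by decide +kernel⟩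

theorem key_UL1 : keyL UL1 = 765023370787969950547970 := by decide +kernel

def UL2 : Pt 5 := ⟨![![2, 0, 0, 0, 0], ![0, 2, 0, 0, 0], ![0, 0, 0, 2, 0], ![0, 0, 2, 0, 0], ![0, 0, 0, 0, 2]], Matrix.IsSymm.ext (by decide +kernel), by decide +kernel⟩

theorem key_UL2 : keyL UL2 = 765023374729581664141314 := by decide +kernel

def UL3 : Pt 5 := ⟨![![0, 0, 0, 2, 0], ![0, 1, 1, 0, 0], ![0, 1, 1, 0, 0], ![2, 0, 0, 0, 0], ![0, 0, 0, 0, 2]], Matrix.IsSymm.ext (by decide +kernel), by decide +kernel⟩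

theorem key_UL3 : keyL UL3 = 840581234021242903987200 := by decide +kernel

def VL1 : Pt 5 := ⟨![![0, 0, 0, 2, 0], ![0, 2, 0, 0, 0], ![0, 0, 2, 0, 0], ![2, 0, 0, 0, 0], ![0, 0, 0, 0, 2]], Matrix.IsSymm.ext (by decide +kernel), by decide +kernel⟩

theorem key_VL1 : keyL VL1 = 765023370295388708275200 := by decide +kernel

def VL2 : Pt 5 := ⟨![![2, 0, 0, 0, 0], ![0, 0, 1, 1, 0], ![0, 1, 0, 1, 0], ![0, 1, 1, 0, 0], ![0, 0, 0, 0, 2]], Matrix.IsSymm.ext (by decide +kernel), by decide +kernel⟩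

theorem key_VL2 : keyL VL2 = 878360168347587164766210 := by decide +kernel

def VL3 : Pt 5 := ⟨![![2, 0, 0, 0, 0], ![0, 1, 0, 1, 0], ![0, 0, 1, 1, 0], ![0, 1, 1, 0, 0], ![0, 0, 0, 0, 2]], Matrix.IsSymm.ext (by decide +kernel), by decide +kernel⟩

theorem key_VL3 : keyL VL3 = 878360168347647292473346 := by decide +kernel

theorem cubicI (k : Type) [Field k] : HasCubicBlock k rI := by
  apply cubic keyI_inj rI_lt keyI_mod TI_mem k (U1 := UI1) (U2 := UI2) (U3 := UI3)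
    (V1 := VI1) (V2 := VI2) (V3 := VI3)
  · rw [key_UI1, key_UI2]; norm_num
  · rw [key_UI2, key_UI3]; norm_num
  · rw [key_VI1, key_VI2]; norm_num
  · rw [key_VI2, key_VI3]; norm_num
  · rfl
  · rfl
  · rfl
  · rfl
  · rfl
  · rfl
  · rw [key_UI1, key_UI2]; exact chkI12
  · rw [key_UI1, key_UI3]; exact chkI13
  · rw [key_UI2, key_UI3]; exact chkI23
  · rw [key_VI1, key_VI2, key_VI3]; exact chkI3
  · decide +kernel
  · decide +kernel
  · decide +kernel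

theorem cubicL (k : Type) [Field k] : HasCubicBlock k rL := by
  apply cubic keyL_inj rL_lt keyL_mod TL_mem k (U1 := UL1) (U2 := UL2) (U3 := UL3)
    (V1 := VL1) (V2 := VL2) (V3 := VL3)
  · rw [key_UL1, key_UL2]; norm_num
  · rw [key_UL2, key_UL3]; norm_num
  · rw [key_VL1, key_VL2]; norm_num
  · rw [key_VL2, key_VL3]; norm_num
  · rfl
  · rfl
  · rfl
  · rfl
  · rfl
  · rfl
  · rw [key_UL1, key_UL2]; exact chkL12
  · rw [key_UL1, key_UL3]; exact chkL13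
  · rw [key_UL2, key_UL3]; exact chkL23
  · rw [key_VL1, key_VL2, key_VL3]; exact chkL3
  · decide +kernel
  · decide +kernel
  · decide +kernel

end Q148.Toric
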