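import Pool.Agent.Q148.ToricGen

set_option maxRecDepth 100000

open MvPolynomial

namespace Q148.Toric

/-- code of a row -/
def rowc (A : Matrix (Fin 5) (Fin 5) ℕ) (i : Fin 5) : ℕ := ∑ j : Fin 5, A i j * 8 ^ (j : ℕ)

/-- code of a matrix -/
def encM (A : Matrix (Fin 5) (Fin 5) ℕ) : ℕ := ∑ i : Fin 5, rowc A i * 32768 ^ (i : ℕ)

theorem entry_le (M : Pt 5) (i j : Fin 5) : M.1 i j ≤ 2 := by
  calc M.1 i j ≤ ∑ j, M.1 i j :=
        Finset.single_le_sum (f := fun j => M.1 i j) (fun _ _ => Nat.zero_le _) (Finset.mem_univ j)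
    _ = 2 := M.2.2 i

theorem rowc_le (M : Pt 5) (i : Fin 5) : rowc M.1 i ≤ 9362 := by
  have h0 := entry_le M i 0
  have h1 := entry_le M i 1
  have h2 := entry_le M i 2
  have h3 := entry_le M i 3
  have h4 := entry_le M i 4
  simp only [rowc, Fin.sum_univ_five]
  norm_num
  omega

theorem row_inj (M N : Pt 5) (i : Fin 5) (h : rowc M.1 i = rowc N.1 i) (j : Fin 5) :
    M.1 i j = N.1 i j := by
  have h0 := entry_le M i 0
  have h1 := entry_le M i 1
  have h2 := entry_le M i 2
  have h3 := entry_le M i 3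
  have h4 := entry_le M i 4
  have k0 := entry_le N i 0
  have k1 := entry_le N i 1
  have k2 := entry_le N i 2
  have k3 := entry_le N i 3
  have k4 := entry_le N i 4
  simp only [rowc, Fin.sum_univ_five] at h
  norm_num at h
  fin_cases j <;> simp <;> omega

theorem enc_inj {M N : Pt 5} (h : encM M.1 = encM N.1) : M = N := by
  have rows : ∀ i, rowc M.1 i = rowc N.1 i := by
    have a0 := rowc_le M 0
    have a1 := rowc_le M 1
    have a2 := rowc_le M 2
    have a3 := rowc_le M 3
    have a4 := rowc_le M 4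
    have b0 := rowc_le N 0
    have b1 := rowc_le N 1
    have b2 := rowc_le N 2
    have b3 := rowc_le N 3
    have b4 := rowc_le N 4
    simp only [encM, Fin.sum_univ_five] at h
    norm_num at h
    intro i
    fin_cases i <;> simp <;> omega
  apply Subtype.ext
  funext i j
  exact row_inj M N i (rows i) j

theorem enc_lt (M : Pt 5) : encM M.1 < 8 ^ 25 := by
  have a0 := rowc_le M 0
  have a1 := rowc_le M 1
  have a2 := rowc_le M 2
  have a3 := rowc_le M 3
  have a4 := rowc_le M 4
  simp only [encM, Fin.sum_univ_five]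
  norm_num
  omega

theorem encM_add (A B : Matrix (Fin 5) (Fin 5) ℕ) : encM (A + B) = encM A + encM B := by
  simp only [encM, rowc, Fin.sum_univ_five, Matrix.add_apply]
  ring

theorem twos_le (M : Pt 5) : twos M ≤ 25 := by
  unfold twos
  calc _ ≤ (Finset.univ : Finset (Fin 5 × Fin 5)).card := Finset.card_filter_le _ _
    _ = 25 := by simp

/-- first key: few entries two first -/
def keyI (M : Pt 5) : ℕ := twos M * 8 ^ 25 + encM M.1

/-- second key: many entries two first -/
def keyL (M : Pt 5) : ℕ := (25 - twos M) * 8 ^ 25 + encM M.1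

theorem keyI_mod (M : Pt 5) : keyI M % 8 ^ 25 = encM M.1 := by
  unfold keyI
  rw [Nat.mul_comm, Nat.mul_add_mod, Nat.mod_eq_of_lt (enc_lt M)]

theorem keyL_mod (M : Pt 5) : keyL M % 8 ^ 25 = encM M.1 := by
  unfold keyL
  rw [Nat.mul_comm, Nat.mul_add_mod, Nat.mod_eq_of_lt (enc_lt M)]

end Q148.Toric
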