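import Pool.Agent.Q148.ToricDefs

open MvPolynomial

namespace Q148.Toric

variable {k : Type} [Field k] {n : ℕ}

/-- exponent vector of the image of a monomial -/
noncomputable def esum (w : Pt n →₀ ℕ) : Option (Fin n × Fin n) →₀ ℕ := w.sum (fun M c => c • expo M)

theorem esum_add (u w : Pt n →₀ ℕ) : esum (u + w) = esum u + esum w := by
  classical
  unfold esum
  rw [Finsupp.sum_add_index']
  · intro; simp
  · intro a b c; rw [add_smul]

theorem esum_single (M : Pt n) : esum (Finsupp.single M 1) = expo M := by
  unfold esum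
  rw [Finsupp.sum_single_index] <;> simp

theorem proj_monomial (w : Pt n →₀ ℕ) (c : k) :
    proj k n (monomial w c) = monomial (esum w) c := by
  unfold proj esum
  rw [aeval_monomial]
  have : (w.prod fun M e => (monomial (expo M) (1 : k)) ^ e) =
      monomial (w.sum fun M c => c • expo M) 1 := by
    unfold Finsupp.prod Finsupp.sum
    rw [MvPolynomial.monomial_sum_one]
    apply Finset.prod_congr rfl
    intro M _
    change (monomial (expo M) (1 : k)) ^ (w M) = monomial (w M • expo M) 1
    rw [monomial_pow, one_pow]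
  rw [this, MvPolynomial.algebraMap_eq, C_mul_monomial, mul_one]

theorem coeff_proj (f : MvPolynomial (Pt n) k) (e : Option (Fin n × Fin n) →₀ ℕ) [DecidableEq (Option (Fin n × Fin n) →₀ ℕ)] :
    (proj k n f).coeff e = ∑ w ∈ f.support, if esum w = e then f.coeff w else 0 := by
  conv_lhs => rw [f.as_sum]
  rw [map_sum, coeff_sum]
  apply Finset.sum_congr rfl
  intro w _
  rw [proj_monomial, coeff_monomial]
  split_ifs <;> rfl

theorem smaller_asymm {r : LinearOrder (Pt n)} {u w : Pt n →₀ ℕ} (h1 : Smaller r u w)
    (h2 : Smaller r w u) : False := by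
  rcases h1 with h1 | ⟨hd, M, hM, hM'⟩
  · rcases h2 with h2 | ⟨hd, _⟩
    · omega
    · omega
  · rcases h2 with h2 | ⟨_, N, hN, hN'⟩
    · omega
    · rcases lt_trichotomy (α := Pt n) M N with h | h | h
      · have := hN' M h; omega
      · subst h; omega
      · have := hM' N h; omega

/-- a monomial which is the smallest of its fibre is not a leading monomial -/
theorem not_initial {r : LinearOrder (Pt n)} {w : Pt n →₀ ℕ}
    (h : ∀ w', esum w' = esum w → w' ≠ w → Smaller r w w') : ¬ InInitial k r w := by
  classical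
  rintro ⟨f, hf, hw, hlead⟩
  have hf0 : proj k n f = 0 := hf
  have hc := coeff_proj f (esum w)
  rw [hf0, coeff_zero] at hc
  by_contra
  have hws : w ∈ f.support := mem_support_iff.2 hw
  rw [← Finset.add_sum_erase _ _ hws] at hc
  have hz : ∑ x ∈ f.support.erase w, (if esum x = esum w then f.coeff x else 0) = 0 := by
    apply Finset.sum_eq_zero
    intro x hx
    rw [Finset.mem_erase] at hx
    split_ifs with he
    · exact (smaller_asymm (hlead x (mem_support_iff.1 hx.2) hx.1) (h x he hx.1)).elim
    · rfl
  rw [hz] at hc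
  simp at hc
  exact hw hc.symm

theorem esum_none (w : Pt n →₀ ℕ) : esum w none = w.degree := by
  unfold esum
  rw [Finsupp.sum_apply, Finsupp.degree_apply]
  unfold Finsupp.sum
  apply Finset.sum_congr rfl
  intro M _
  simp [expo]

theorem esum_some (w : Pt n →₀ ℕ) (i j : Fin n) : esum w (some (i, j)) = matrixOf w i j := by
  unfold esum matrixOf
  rw [Finsupp.sum_apply]
  unfold Finsupp.sum
  apply Finset.sum_congr rfl
  intro M _
  simp [expo]

theorem matrixOf_add (u w : Pt n →₀ ℕ) (i j : Fin n) :
    matrixOf (u + w) i j = matrixOf u i j + matrixOf w i j := by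
  rw [← esum_some, ← esum_some, ← esum_some, esum_add, Finsupp.add_apply]

theorem matrixOf_single (M : Pt n) (i j : Fin n) : matrixOf (Finsupp.single M 1) i j = M.1 i j := by
  rw [← esum_some, esum_single]; rfl

theorem degree_zero_iff {w : Pt n →₀ ℕ} (h : w.degree = 0) : w = 0 := by
  rwa [Finsupp.degree_eq_zero_iff] at h

theorem exists_single {w : Pt n →₀ ℕ} {m : ℕ} (h : w.degree = m + 1) :
    ∃ M w', w = Finsupp.single M 1 + w' ∧ w'.degree = m := by
  classical
  have hne : w ≠ 0 := by rintro rfl; simp at h
  obtain ⟨M, hM⟩ := Finsupp.ne_iff.1 hne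
  have hle : Finsupp.single M 1 ≤ w := by
    rw [Finsupp.single_le_iff]
    have : w M ≠ 0 := by simpa using hM
    omega
  refine ⟨M, w - Finsupp.single M 1, (add_tsub_cancel_of_le hle).symm, ?_⟩
  have h1 : w.degree = (Finsupp.single M 1).degree + (w - Finsupp.single M 1).degree := by
    rw [← map_add, add_tsub_cancel_of_le hle]
  rw [Finsupp.degree_single] at h1
  omega

theorem smaller_cancel {r : LinearOrder (Pt n)} (a u w : Pt n →₀ ℕ) (h : Smaller r u w) :
    Smaller r (a + u) (a + w) := by
  rcases h with h | ⟨hd, M, hM, hM'⟩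
  · left; rw [map_add, map_add]; omega
  · right
    refine ⟨by rw [map_add, map_add]; omega, M, ?_, ?_⟩
    · rw [Finsupp.add_apply, Finsupp.add_apply]; omega
    · intro N hN
      rw [Finsupp.add_apply, Finsupp.add_apply, hM' N hN]

/-- if the smallest variable of `u` is smaller than all variables of `w` then `u` is smaller -/
theorem smaller_of_min {r : LinearOrder (Pt n)} {u w : Pt n →₀ ℕ} (hd : u.degree = w.degree)
    (M : Pt n) (hM : 0 < u M) (hw : ∀ N, w N ≠ 0 → r.lt M N) (hu : ∀ N, r.lt N M → u N = 0) :
    Smaller r u w := by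
  right
  refine ⟨hd, M, ?_, ?_⟩
  · by_contra h
    have h0 : w M ≠ 0 := by omega
    exact lt_irrefl (α := Pt n) M (hw M h0)
  · intro N hN
    rw [hu N hN]
    by_contra h
    have h0 : w N ≠ 0 := fun hh => h hh.symm
    exact lt_asymm (α := Pt n) hN (hw N h0)

end Q148.Toric
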