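import Pool.Agent.Q148.ToricDefs

open MvPolynomial

namespace Q148.Toric

/-- The reduced Groebner basis for `r` has an element of degree three, a binomial, such that in
every decomposition of its matrix into lattice points every summand has an entry two. -/
def HasCubicTwos {n : ℕ} (k : Type) [Field k] (r : LinearOrder (Pt n)) : Prop :=
  ∃ u v : Pt n →₀ ℕ, (monomial u 1 - monomial v 1 : MvPolynomial (Pt n) k) ∈ reducedGB k r ∧
    u ≠ v ∧ u.degree = 3 ∧ v.degree = 3 ∧ matrixOf u = matrixOf v ∧
    ∀ w : Pt n →₀ ℕ, matrixOf w = matrixOf u → ∀ M ∈ w.support, ∃ i j, M.1 i j = 2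

end Q148.Toric
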