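import Pool.Agent.Q148.ToricFin
import Pool.Agent.Q148.ToricTwosDef

set_option linter.unusedSimpArgs false

open MvPolynomial

namespace Q148.Toric

section
variable {κ : Pt 5 → ℕ} (hinj : Function.Injective κ) {r : LinearOrder (Pt 5)}
  (hr : ∀ M N, r.lt M N ↔ κ M < κ N) (hmod : ∀ M, κ M % 8 ^ 25 = encM M.1) {T : List ℕ}
  (hT : ∀ M : Pt 5, M.1 4 4 = 2 → κ M ∈ T)
include hinj hr hmod hT

/-- the main statement for a cubic binomial -/
theorem cubic' (k : Type) [Field k] {U1 U2 U3 V1 V2 V3 : Pt 5}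
    (u12 : κ U1 < κ U2) (u23 : κ U2 < κ U3) (v12 : κ V1 < κ V2) (v23 : κ V2 < κ V3)
    (hu1 : U1.1 4 4 = 2) (hu2 : U2.1 4 4 = 2) (hu3 : U3.1 4 4 = 2)
    (hv1 : V1.1 4 4 = 2) (hv2 : V2.1 4 4 = 2) (hv3 : V3.1 4 4 = 2)
    (c12 : chk2 T (κ U1) (κ U2) = true) (c13 : chk2 T (κ U1) (κ U3) = true)
    (c23 : chk2 T (κ U2) (κ U3) = true) (c3 : chk3 T (κ V1) (κ V2) (κ V3) = true)
    (hsum : U1.1 + (U2.1 + U3.1) = V1.1 + (V2.1 + V3.1)) (hne : V1.1 ≠ U1.1)
    (hblock : ∀ i : Fin 5, i ≠ 4 → (U1.1 + (U2.1 + U3.1)) i 4 = 0) : ∃ u v : Pt 5 →₀ ℕ,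
      (monomial u 1 - monomial v 1 : MvPolynomial (Pt 5) k) ∈ reducedGB k r ∧
      u ≠ v ∧ u.degree = 3 ∧ v.degree = 3 ∧ matrixOf u = matrixOf v ∧
      ∀ i : Fin 5, i ≠ 4 → matrixOf u i 4 = 0 := by
  classical
  set u := sg U1 + (sg U2 + sg U3) with hu
  set v := sg V1 + (sg V2 + sg V3) with hv
  have hdu : u.degree = 3 := by rw [hu]; simp only [map_add, sg_deg]
  have hdv : v.degree = 3 := by rw [hv]; simp only [map_add, sg_deg]
  have hmu : matrixOf u = U1.1 + (U2.1 + U3.1) := by
    rw [hu, matrixOf_add', matrixOf_add', matrixOf_sg, matrixOf_sg, matrixOf_sg]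
  have hmv : matrixOf v = V1.1 + (V2.1 + V3.1) := by
    rw [hv, matrixOf_add', matrixOf_add', matrixOf_sg, matrixOf_sg, matrixOf_sg]
  have hm : matrixOf u = matrixOf v := by rw [hmu, hmv, hsum]
  have hes : esum u = esum v := by
    ext o
    rcases o with _ | ⟨i, j⟩
    · rw [esum_none, esum_none, hdu, hdv]
    · rw [esum_some, esum_some, hm]
  have huv : u ≠ v := by
    intro he
    have hU : u U1 ≠ 0 := by rw [hu]; simp [sg]
    have hV : v V1 ≠ 0 := by rw [hv]; simp [sg]
    have hne' : V1 ≠ U1 := fun h => hne (by rw [h])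
    have n1 : V1 ∈ ({U1, U2, U3} : Finset (Pt 5)) := by
      rw [← he, hu] at hV
      by_contra hcon
      simp only [Finset.mem_insert, Finset.mem_singleton, not_or] at hcon
      apply hV
      simp [sg, Finsupp.single_apply, Ne.symm hcon.1, Ne.symm hcon.2.1, Ne.symm hcon.2.2]
    have n2 : U1 ∈ ({V1, V2, V3} : Finset (Pt 5)) := by
      rw [he, hv] at hU
      by_contra hcon
      simp only [Finset.mem_insert, Finset.mem_singleton, not_or] at hcon
      apply hU
      simp [sg, Finsupp.single_apply, Ne.symm hcon.1, Ne.symm hcon.2.1, Ne.symm hcon.2.2]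
    simp only [Finset.mem_insert, Finset.mem_singleton] at n1 n2
    have k1 : κ U1 < κ V1 := by
      rcases n1 with h | h | h
      · exact absurd h hne'
      · rw [h]; exact u12
      · rw [h]; omega
    have k2 : κ V1 < κ U1 := by
      rcases n2 with h | h | h
      · exact absurd h.symm hne'
      · rw [h]; exact v12
      · rw [h]; omega
    omega
  have hmin3 : ¬ InInitial k r v := not_initial (fibre3 hinj hr hmod hT v12 v23 hv1 hv2 hv3 c3)
  have hvu : Smaller r v u := fibre3 hinj hr hmod hT v12 v23 hv1 hv2 hv3 c3 u hes huv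
  refine ⟨u, v, ⟨?_, u, ⟨?_, ?_⟩, ?_, ?_, ?_⟩, huv, hdu, hdv, hm, ?_⟩
  · change proj k 5 _ = 0
    rw [map_sub, proj_monomial, proj_monomial, hes, sub_self]
  · rw [coeff_sub, coeff_monomial, coeff_monomial, if_pos rfl, if_neg (Ne.symm huv)]
    simp
  · intro w hw hwu
    rw [coeff_sub, coeff_monomial, coeff_monomial, if_neg (Ne.symm hwu)] at hw
    by_cases h : v = w
    · rw [← h]; exact hvu
    · rw [if_neg h] at hw; simp at hw
  · rw [coeff_sub, coeff_monomial, coeff_monomial, if_pos rfl, if_neg (Ne.symm huv)]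
    simp
  · intro w hw hle
    by_contra hne'
    have hdec : u = w + (u - w) := (add_tsub_cancel_of_le hle).symm
    have hd : 3 = w.degree + (u - w).degree := by rw [← hdu, ← map_add, ← hdec]
    have ht : (u - w).degree ≠ 0 := by
      intro h0
      have := degree_zero_iff h0
      rw [this, add_zero] at hdec
      exact hne' hdec.symm
    have hcases : w.degree = 0 ∨ w.degree = 1 ∨ w.degree = 2 := by omega
    rcases hcases with h | h | h
    · have := degree_zero_iff h
      subst this
      revert hw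
      apply not_initial
      intro w' hw' hne0
      exfalso
      obtain ⟨hd', _⟩ := esum_eq_iff hw'
      rw [map_zero] at hd'
      exact hne0 (degree_zero_iff hd')
    · obtain ⟨X, w0, rfl, hd0⟩ := exists_single (m := 0) h
      have hw0 := degree_zero_iff hd0
      subst hw0
      rw [add_zero] at hw
      exact not_initial (fibre1 (r := r) X) hw
    · have h1 : (u - w).degree = 0 + 1 := by omega
      obtain ⟨K, w0, hK, hd0⟩ := exists_single (m := 0) h1
      have hw0 := degree_zero_iff hd0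
      subst hw0
      rw [add_zero] at hK
      change u - w = sg K at hK
      rw [hK] at hdec
      have hKu : u K ≠ 0 := by rw [hdec]; simp [sg]
      have hKm : K = U1 ∨ K = U2 ∨ K = U3 := by
        by_contra hcon
        push Not at hcon
        apply hKu
        rw [hu]
        simp [sg, Finsupp.single_apply, Ne.symm hcon.1, Ne.symm hcon.2.1, Ne.symm hcon.2.2]
      rcases hKm with rfl | rfl | rfl
      · have : w = sg U2 + sg U3 := by
          have h2 : w + sg K = (sg U2 + sg U3) + sg K := by rw [← hdec, hu]; abel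
          exact add_right_cancel h2
        rw [this] at hw
        exact not_initial (fibre2 hinj hr hmod hT u23 hu2 hu3 c23) hw
      · have : w = sg U1 + sg U3 := by
          have h2 : w + sg K = (sg U1 + sg U3) + sg K := by rw [← hdec, hu]; abel
          exact add_right_cancel h2
        rw [this] at hw
        exact not_initial (fibre2 hinj hr hmod hT (u12.trans u23) hu1 hu3 c13) hw
      · have : w = sg U1 + sg U2 := by
          have h2 : w + sg K = (sg U1 + sg U2) + sg K := by rw [← hdec, hu]; abel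
          exact add_right_cancel h2
        rw [this] at hw
        exact not_initial (fibre2 hinj hr hmod hT u12 hu1 hu2 c12) hw
  · intro w hwu hw
    rw [coeff_sub, coeff_monomial, coeff_monomial, if_neg (Ne.symm hwu)] at hw
    by_cases h : v = w
    · rw [← h]; exact hmin3
    · rw [if_neg h] at hw; simp at hw
  · intro i hi
    rw [hmu]; exact hblock i hi

end


/-- row sums of the matrix of a monomial -/
theorem row_sum_matrixOf (w : Pt 5 →₀ ℕ) (i : Fin 5) : ∑ j, matrixOf w i j = 2 * w.degree := by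
  unfold matrixOf Finsupp.sum
  rw [Finset.sum_comm, Finsupp.degree_apply, Finset.mul_sum]
  apply Finset.sum_congr rfl
  intro M _
  rw [← Finset.mul_sum, M.2.2 i, mul_comm]

/-- a block form with the last index split off forces entries two -/
theorem twos_of_block {u : Pt 5 →₀ ℕ} (h : ∀ i : Fin 5, i ≠ 4 → matrixOf u i 4 = 0)
    (hs : ∀ i j, matrixOf u i j = matrixOf u j i) :
    ∀ w : Pt 5 →₀ ℕ, matrixOf w = matrixOf u → ∀ M ∈ w.support, ∃ i j, M.1 i j = 2 := by
  intro w hw M hM
  have hrow := row_sum_matrixOf w 4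
  rw [hw, Fin.sum_univ_five] at hrow
  rw [hs 4 0, hs 4 1, hs 4 2, hs 4 3, h 0 (by decide), h 1 (by decide), h 2 (by decide),
    h 3 (by decide)] at hrow
  have h44 : matrixOf w 4 4 = 2 * w.degree := by rw [hw]; omega
  refine ⟨4, 4, ?_⟩
  unfold matrixOf Finsupp.sum at h44
  rw [Finsupp.degree_apply, Finset.mul_sum] at h44
  have hle : ∀ N ∈ w.support, w N * N.1 4 4 ≤ 2 * w N := by
    intro N _
    have := entry_le N 4 4
    nlinarith
  have := (Finset.sum_eq_sum_iff_of_le hle).1 h44 M hM
  have hpos : 0 < w M := Nat.pos_of_ne_zero (Finsupp.mem_support_iff.1 hM)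
  nlinarith

theorem matrixOf_symm (u : Pt 5 →₀ ℕ) (i j : Fin 5) : matrixOf u i j = matrixOf u j i := by
  unfold matrixOf Finsupp.sum
  apply Finset.sum_congr rfl
  intro M _
  change u M * M.1 i j = u M * M.1 j i
  rw [(M.2.1.apply i j : M.1 j i = M.1 i j)]


theorem twosI (k : Type) [Field k] : HasCubicTwos k rI := by
  obtain ⟨u, v, h1, h2, h3, h4, h5, h6⟩ := cubic' keyI_inj rI_lt keyI_mod TI_mem k
    (U1 := UI1) (U2 := UI2) (U3 := UI3) (V1 := VI1) (V2 := VI2) (V3 := VI3)
    (by rw [key_UI1, key_UI2]; norm_num) (by rw [key_UI2, key_UI3]; norm_num)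
    (by rw [key_VI1, key_VI2]; norm_num) (by rw [key_VI2, key_VI3]; norm_num)
    rfl rfl rfl rfl rfl rfl (by rw [key_UI1, key_UI2]; exact chkI12)
    (by rw [key_UI1, key_UI3]; exact chkI13) (by rw [key_UI2, key_UI3]; exact chkI23)
    (by rw [key_VI1, key_VI2, key_VI3]; exact chkI3) (by decide +kernel) (by decide +kernel)
    (by decide +kernel)
  exact ⟨u, v, h1, h2, h3, h4, h5, twos_of_block h6 (matrixOf_symm u)⟩

theorem twosL (k : Type) [Field k] : HasCubicTwos k rL := by
  obtain ⟨u, v, h1, h2, h3, h4, h5, h6⟩ := cubic' keyL_inj rL_lt keyL_mod TL_mem k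
    (U1 := UL1) (U2 := UL2) (U3 := UL3) (V1 := VL1) (V2 := VL2) (V3 := VL3)
    (by rw [key_UL1, key_UL2]; norm_num) (by rw [key_UL2, key_UL3]; norm_num)
    (by rw [key_VL1, key_VL2]; norm_num) (by rw [key_VL2, key_VL3]; norm_num)
    rfl rfl rfl rfl rfl rfl (by rw [key_UL1, key_UL2]; exact chkL12)
    (by rw [key_UL1, key_UL3]; exact chkL13) (by rw [key_UL2, key_UL3]; exact chkL23)
    (by rw [key_VL1, key_VL2, key_VL3]; exact chkL3) (by decide +kernel) (by decide +kernel)
    (by decide +kernel)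
  exact ⟨u, v, h1, h2, h3, h4, h5, twos_of_block h6 (matrixOf_symm u)⟩

end Q148.Toric
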